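import Pool.Agent.HRK.A1

/-!
# HRK-A2 : joint openness and continuity of `ext`
-/

namespace HRK

open Set Filter Topology Matrix

set_option linter.unusedSectionVars false

variable {E : Type*} [TopologicalSpace E] {Vt : Type*} [TopologicalSpace Vt] [AddCommGroup Vt]
  [Module ℝ Vt] [IsTopologicalAddGroup Vt] [ContinuousSMul ℝ Vt] [T2Space Vt]

/-- Local structure near a lifted segment. If `v ∈ Star D x`, there are an open set `W ∋ x` of `E`
and an open set `O ∋ v` of `Vt` such that for `(x', v') ∈ W × O` one has `v' ∈ Star D x'`, and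
`(x', v') ↦ ext D x' v'` is continuous on `W × O`.

Proof. Let `c` be a lift of `[D x, D x + v]` and `Q = c '' [0,1]`, a compact set. `D` is injective
on `Q`: if `v ≠ 0` because `D (c t) = D x + t • v` is injective in `t`; if `v = 0` then `c` is
constant by `lift_unique` (compare with the constant path), so `Q = {x}`. By
`Set.InjOn.exists_mem_nhdsSet` (Mathlib/Topology/Separation/Hausdorff.lean; `D` is continuous and
locally injective at each point since it is a local homeomorphism) `D` is injective on a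
neighbourhood of `Q`, hence on an open set `U ⊇ Q`. As `D` is an open map
(`IsLocalHomeomorph.isOpenMap`), `D '' U` is open, and the inverse `g : D '' U → U` of `D|_U` is
continuous (`IsOpenMap` + injective + continuous; e.g. `(hD.isOpenMap.…)`/
`Set.InjOn.toOpenPartialHomeomorph`-type constructions, or directly: for open `O' ⊆ U`,
`g ⁻¹' O' ∩ D '' U = D '' O'` is open).
The segment `D x + t • v`, `t ∈ [0,1]`, is contained in the open set `D '' U`. By compactness of
`[0,1]` (tube lemma: the map `(t, y, w) ↦ y + t • w` is continuous, and the preimage of `D '' U`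
contains `[0,1] × {(D x, v)}`; `generalized_tube_lemma`) there are neighbourhoods `O₁ ∋ D x` and
`O ∋ v` with `y + t • w ∈ D '' U` for all `y ∈ O₁, w ∈ O, t ∈ [0,1]`. Let
`W = U ∩ D ⁻¹' O₁` (open, contains `x`). For `x' ∈ W`, `v' ∈ O` the path
`t ↦ g (D x' + t • v')` is a lift of the segment starting at `g (D x') = x'`; so `v' ∈ Star D x'`
and `ext D x' v' = g (D x' + v')` by `IsLift.ext_eq`, which is continuous in `(x', v')`. -/
theorem star_local [T2Space E] {D : E → Vt} (hD : IsLocalHomeomorph D) {x : E} {v : Vt}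
    (hv : v ∈ Star D x) :
    ∃ (W : Set E) (O : Set Vt), IsOpen W ∧ x ∈ W ∧ IsOpen O ∧ v ∈ O ∧
      (∀ x' ∈ W, ∀ v' ∈ O, v' ∈ Star D x') ∧
      ContinuousOn (fun q : E × Vt => ext D q.1 q.2) (W ×ˢ O) := by
  obtain ⟨c, hc1, hc2, hc3⟩ := hv
  have hQ : IsCompact (c '' Icc (0:ℝ) 1) := isCompact_Icc.image_of_continuousOn hc1
  have hconst : v = 0 → ∀ t ∈ Icc (0:ℝ) 1, c t = x := by
    intro hv0
    refine lift_unique hD isPreconnected_Icc hc1 (continuousOn_const (c := x)) ?_
      (t₀ := 0) (by simp) hc2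
    intro t ht
    rw [hc3 t ht, hv0, smul_zero, add_zero]
  have hinj : InjOn D (c '' Icc (0:ℝ) 1) := by
    rintro _ ⟨s, hs, rfl⟩ _ ⟨t, ht, rfl⟩ h
    by_cases hv0 : v = 0
    · rw [hconst hv0 s hs, hconst hv0 t ht]
    · rw [hc3 s hs, hc3 t ht] at h
      have h1 : s • v = t • v := add_left_cancel h
      have h2 : s = t := smul_left_injective ℝ hv0 h1
      rw [h2]
  obtain ⟨U, hUo, hQU, hUinj⟩ := hinj.exists_isOpen_superset hQ
    (fun e _ => hD.continuous.continuousAt) (fun e _ => by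
      obtain ⟨N, hN1, hN2, hN3⟩ := hD.isLocallyInjective e
      exact ⟨N, hN1.mem_nhds hN2, hN3⟩)
  have hne : Nonempty E := ⟨x⟩
  set g : Vt → E := Function.invFunOn D U with hg
  have hgl : LeftInvOn g D U := hUinj.leftInvOn_invFunOn
  have hgr : ∀ y ∈ D '' U, D (g y) = y := fun y hy => Function.invFunOn_eq hy
  have hgc : ContinuousOn g (D '' U) :=
    (hD.isOpenMap.domRestrict hUo).continuousOn_image_of_leftInvOn hgl
  have hDU : IsOpen (D '' U) := hD.isOpenMap U hUo
  -- tube lemma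
  have hcont : Continuous (fun p : ℝ × (Vt × Vt) => p.2.1 + p.1 • p.2.2) := by fun_prop
  obtain ⟨A, B, hA, hB, hA1, hB1, hAB⟩ := generalized_tube_lemma (s := Icc (0:ℝ) 1)
    isCompact_Icc (t := {(D x, v)}) isCompact_singleton (hDU.preimage hcont) (by
      rintro ⟨t, p⟩ ⟨ht, hp⟩
      rw [mem_singleton_iff] at hp
      simp only at ht hp
      subst hp
      change D x + t • v ∈ D '' U
      rw [← hc3 t ht]
      exact ⟨c t, hQU ⟨t, ht, rfl⟩, rfl⟩)
  obtain ⟨O₁, O, hO₁, hO, hx1, hv1, hOB⟩ := isOpen_prod_iff.1 hB (D x) v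
    (hB1 (mem_singleton _))
  have hseg : ∀ y ∈ O₁, ∀ w ∈ O, ∀ t ∈ Icc (0:ℝ) 1, y + t • w ∈ D '' U := by
    intro y hy w hw t ht
    exact hAB (mk_mem_prod (hA1 ht) (hOB (mk_mem_prod hy hw)))
  have hxU : x ∈ U := hQU ⟨0, by simp, hc2⟩
  have hlift : ∀ x' ∈ U ∩ D ⁻¹' O₁, ∀ v' ∈ O, IsLift D x' v' (fun t => g (D x' + t • v')) := by
    intro x' hx' v' hv'
    refine ⟨?_, ?_, ?_⟩
    · refine hgc.comp (by fun_prop) ?_
      intro t ht
      exact hseg _ hx'.2 _ hv' t ht
    · simp only [zero_smul, add_zero]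
      exact hgl hx'.1
    · intro t ht
      exact hgr _ (hseg _ hx'.2 _ hv' t ht)
  have h01 : (1:ℝ) ∈ Icc (0:ℝ) 1 := by simp
  refine ⟨U ∩ D ⁻¹' O₁, O, hUo.inter (hO₁.preimage hD.continuous), ⟨hxU, hx1⟩, hO, hv1, ?_, ?_⟩
  · intro x' hx' v' hv'
    exact ⟨_, hlift x' hx' v' hv'⟩
  · have h2 : ContinuousOn (fun q : E × Vt => g (D q.1 + q.2)) ((U ∩ D ⁻¹' O₁) ×ˢ O) := by
      refine hgc.comp ?_ ?_
      · have := hD.continuous
        fun_prop
      · rintro ⟨x', v'⟩ ⟨hx', hv'⟩
        have := hseg _ hx'.2 _ hv' 1 h01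
        rwa [one_smul] at this
    refine h2.congr ?_
    rintro ⟨x', v'⟩ ⟨hx', hv'⟩
    have := ((hlift x' hx' v' hv').ext_eq hD 1 h01).2
    simp only [one_smul] at this
    exact this.symm

/-- Proof. `star_local` and `isOpen_iff_forall_mem_open` (use `W ×ˢ O`). -/
theorem isOpen_starGraph [T2Space E] {D : E → Vt} (hD : IsLocalHomeomorph D) :
    IsOpen {q : E × Vt | q.2 ∈ Star D q.1} := by
  rw [isOpen_iff_forall_mem_open]
  rintro ⟨x, v⟩ hq
  obtain ⟨W, O, hW, hx, hO, hv, h1, -⟩ := star_local hD hq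
  exact ⟨W ×ˢ O, fun p hp => h1 p.1 hp.1 p.2 hp.2, hW.prod hO, ⟨hx, hv⟩⟩

/-- Proof. `star_local` (continuity at a point only depends on a neighbourhood). -/
theorem continuousOn_ext [T2Space E] {D : E → Vt} (hD : IsLocalHomeomorph D) :
    ContinuousOn (fun q : E × Vt => ext D q.1 q.2) {q | q.2 ∈ Star D q.1} := by
  rintro ⟨x, v⟩ hq
  obtain ⟨W, O, hW, hx, hO, hv, -, h2⟩ := star_local hD hq
  exact (h2.continuousAt ((hW.prod hO).mem_nhds ⟨hx, hv⟩)).continuousWithinAt

/-- Proof. Section of `isOpen_starGraph`. -/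
theorem isOpen_Star [T2Space E] {D : E → Vt} (hD : IsLocalHomeomorph D) (x : E) :
    IsOpen (Star D x) :=
  (isOpen_starGraph hD).preimage (Continuous.prodMk_right x)

/-- Proof. Section of `continuousOn_ext`. -/
theorem continuousOn_ext_right [T2Space E] {D : E → Vt} (hD : IsLocalHomeomorph D) (x : E) :
    ContinuousOn (ext D x) (Star D x) :=
  (continuousOn_ext hD).comp (Continuous.prodMk_right x).continuousOn fun _ hv => hv

end HRK
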