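import Pool.Agent.HRK.N2b

/-!
# HRK-B1 : `D^` is a local homeomorphism when `D` is
-/

namespace HRK

open Set Filter Topology Matrix

/-- the second coordinate of the local inverse. -/
noncomputable def b1_z (z₀ : ℂ) (M : M2) : ℂ := z₀ + Complex.log (M.det * Complex.exp (-(2 * z₀))) / 2

open Classical in
/-- the first coordinate of the local inverse. -/
noncomputable def b1_g (z₀ : ℂ) (M : M2) : SL :=
  if h : (Complex.exp (-(b1_z z₀ M)) • M).det = 1 then ⟨Complex.exp (-(b1_z z₀ M)) • M, h⟩ else 1

theorem b1_det (z₀ : ℂ) {M : M2} (hM : M.det * Complex.exp (-(2 * z₀)) ∈ Complex.slitPlane) :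
    (Complex.exp (-(b1_z z₀ M)) • M).det = 1 := by
  rw [Matrix.det_smul, Fintype.card_fin, ← Complex.exp_nat_mul]
  have h0 := Complex.slitPlane_ne_zero hM
  have h1 := Complex.exp_log h0
  have e : ((2 : ℕ) : ℂ) * -(b1_z z₀ M) =
      -(2 * z₀) - Complex.log (M.det * Complex.exp (-(2 * z₀))) := by
    unfold b1_z
    push_cast
    ring
  rw [e, Complex.exp_sub, h1, div_mul_eq_mul_div, mul_comm (Complex.exp (-(2 * z₀))) M.det,
    div_self h0]

theorem b1_coe (z₀ : ℂ) {M : M2} (hM : M.det * Complex.exp (-(2 * z₀)) ∈ Complex.slitPlane) :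
    ((b1_g z₀ M : SL) : M2) = Complex.exp (-(b1_z z₀ M)) • M := by
  unfold b1_g
  rw [dif_pos (b1_det z₀ hM)]

theorem b1_detF (p : SL × ℂ) (z₀ : ℂ) :
    (Complex.exp p.2 • (p.1 : M2)).det * Complex.exp (-(2 * z₀)) = Complex.exp (2 * (p.2 - z₀)) := by
  rw [Matrix.det_smul, Fintype.card_fin, ← Complex.exp_nat_mul, Matrix.SpecialLinearGroup.det_coe,
    mul_one, ← Complex.exp_add]
  congr 1
  push_cast
  ring

theorem b1_zF {p : SL × ℂ} {z₀ : ℂ} (h : |(p.2 - z₀).im| < Real.pi / 2) :
    b1_z z₀ (Complex.exp p.2 • (p.1 : M2)) = p.2 := by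
  unfold b1_z
  rw [b1_detF, Complex.log_exp]
  · ring
  · have := (abs_lt.1 h).1
    simp only [Complex.mul_im, Complex.re_ofNat, Complex.im_ofNat, zero_mul, add_zero]
    linarith
  · have := (abs_lt.1 h).2
    simp only [Complex.mul_im, Complex.re_ofNat, Complex.im_ofNat, zero_mul, add_zero]
    linarith

theorem b1_slit {p : SL × ℂ} {z₀ : ℂ} (h : |(p.2 - z₀).im| < Real.pi / 2) :
    (Complex.exp p.2 • (p.1 : M2)).det * Complex.exp (-(2 * z₀)) ∈ Complex.slitPlane := by
  rw [b1_detF]
  apply Complex.expOpenPartialHomeomorph.map_source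
  show (2 * (p.2 - z₀)).im ∈ Ioo (-Real.pi) Real.pi
  have := abs_lt.1 h
  simp only [Complex.mul_im, Complex.re_ofNat, Complex.im_ofNat, zero_mul, add_zero]
  constructor <;> linarith [this.1, this.2]

/-- the local inverse. -/
noncomputable def b1_e (z₀ : ℂ) : OpenPartialHomeomorph (SL × ℂ) M2 where
  toFun p := Complex.exp p.2 • (p.1 : M2)
  invFun M := (b1_g z₀ M, b1_z z₀ M)
  source := {p | |(p.2 - z₀).im| < Real.pi / 2}
  target := {M | M.det * Complex.exp (-(2 * z₀)) ∈ Complex.slitPlane}
  map_source' p hp := b1_slit hp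
  map_target' M hM := by
    show |(b1_z z₀ M - z₀).im| < Real.pi / 2
    have h1 : (b1_z z₀ M - z₀).im = Complex.arg (M.det * Complex.exp (-(2 * z₀))) / 2 := by
      unfold b1_z
      rw [add_sub_cancel_left, Complex.div_ofNat_im, Complex.log_im]
    have h2 := Complex.slitPlane_arg_ne_pi hM
    have h3 := Complex.neg_pi_lt_arg (M.det * Complex.exp (-(2 * z₀)))
    have h4 := lt_of_le_of_ne (Complex.arg_le_pi (M.det * Complex.exp (-(2 * z₀)))) h2
    rw [h1, abs_lt]
    constructor <;> linarith
  left_inv' p hp := by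
    refine Prod.ext ?_ (b1_zF hp)
    apply Subtype.ext
    show ((b1_g z₀ (Complex.exp p.2 • (p.1 : M2)) : SL) : M2) = (p.1 : M2)
    rw [b1_coe z₀ (b1_slit hp), b1_zF hp, smul_smul, ← Complex.exp_add, neg_add_cancel,
      Complex.exp_zero, one_smul]
  right_inv' M hM := by
    show Complex.exp (b1_z z₀ M) • ((b1_g z₀ M : SL) : M2) = M
    rw [b1_coe z₀ hM, smul_smul, ← Complex.exp_add, add_neg_cancel, Complex.exp_zero, one_smul]
  open_source := by
    have h : Continuous fun p : SL × ℂ => |(p.2 - z₀).im| := by fun_prop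
    exact isOpen_lt h continuous_const
  open_target := by
    have h : Continuous fun M : M2 => M.det * Complex.exp (-(2 * z₀)) :=
      (Continuous.matrix_det continuous_id).mul continuous_const
    exact Complex.isOpen_slitPlane.preimage h
  continuousOn_toFun := by
    have h : Continuous fun p : SL × ℂ => Complex.exp p.2 • (p.1 : M2) :=
      (Complex.continuous_exp.comp continuous_snd).smul
        (isEmbedding_coe.continuous.comp continuous_fst)
    exact h.continuousOn
  continuousOn_invFun := by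
    have hz : ContinuousOn (b1_z z₀)
        {M | M.det * Complex.exp (-(2 * z₀)) ∈ Complex.slitPlane} := by
      unfold b1_z
      refine continuousOn_const.add (ContinuousOn.div_const ?_ _)
      refine ContinuousOn.clog ?_ (fun M hM => hM)
      exact ((Continuous.matrix_det continuous_id).mul continuous_const).continuousOn
    refine ContinuousOn.prodMk ?_ hz
    rw [isEmbedding_coe.continuousOn_iff]
    have h1 : ContinuousOn (fun M : M2 => Complex.exp (-(b1_z z₀ M)) • M)
        {M | M.det * Complex.exp (-(2 * z₀)) ∈ Complex.slitPlane} :=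
      (Complex.continuous_exp.comp_continuousOn hz.neg).smul continuousOn_id
    exact h1.congr (fun M hM => b1_coe z₀ hM)

/-- The map `(g, z) ↦ e^z g` is a local homeomorphism `SL × ℂ → M₂`.

Proof. Let `(g₀, z₀)` be given. On the open set `U = {(g,z) | |Im (z - z₀)| < π/2}` the map is
injective with open image and continuous inverse: if `M = e^z g` then `det M = e^{2z}`, so
`det M * e^{-2 z₀} = e^{2(z - z₀)}` has argument `2 Im (z - z₀) ∈ (-π, π)`, and
`2(z - z₀) = log (det M * e^{-2 z₀})` (`Complex.log_exp`). The image is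
`{M | det M * e^{-2 z₀} ∈ Complex.slitPlane}` (open), and the inverse is
`M ↦ (e^{-z} M, z)` with `z = z₀ + log (det M * e^{-2 z₀})/2`, continuous on the image
(`Complex.continuousAt_clog`). Build the `OpenPartialHomeomorph`, or use
`IsLocalHomeomorph.mk`. -/
theorem isLocalHomeomorph_expmul :
    IsLocalHomeomorph (fun p : SL × ℂ => Complex.exp p.2 • (p.1 : M2)) := by
  refine IsLocalHomeomorph.mk _ fun p => ⟨b1_e p.2, ?_, fun q _ => rfl⟩
  show |(p.2 - p.2).im| < Real.pi / 2
  have := Real.pi_pos
  rw [sub_self, Complex.zero_im, abs_zero]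
  linarith

/-- Proof. `Dh D = (expmul) ∘ (D × id)`, `IsLocalHomeomorph` is stable under products
(if there is no lemma: product of the local inverses `OpenPartialHomeomorph.prod`) and
composition. -/
theorem isLocalHomeomorph_Dh {E : Type*} [TopologicalSpace E] {D : E → SL}
    (hD : IsLocalHomeomorph D) : IsLocalHomeomorph (Dh D) := by
  have h1 : IsLocalHomeomorph (fun p : E × ℂ => ((D p.1, p.2) : SL × ℂ)) := by
    refine IsLocalHomeomorph.mk _ fun p => ?_
    obtain ⟨e, he, hDe⟩ := hD p.1
    refine ⟨e.prod (OpenPartialHomeomorph.refl ℂ), ?_, ?_⟩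
    · exact ⟨he, mem_univ _⟩
    · intro q hq
      rw [hDe]
      rfl
  exact isLocalHomeomorph_expmul.comp h1

/-- Conversely. Proof. `D` is continuous: `D y` is the matrix `Dh D (y, 0)`. Let `y₀ : E`. Let `e` be
a local inverse of `Dh D` at `(y₀, 0)`: an open neighbourhood `U` of `(y₀,0)` on which `Dh D` is a
homeomorphism onto an open subset of `M₂`. Choose an open `N ∋ y₀` and `ε > 0` with
`N × {|z| < ε} ⊆ U`. `D` is injective on `N`, since `D y = D y'` implies `Dh (y,0) = Dh (y',0)`.
`D` is open on `N`: for `N' ⊆ N` open, `Dh '' (N' × {|z|<ε})` is open in `M₂`, and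
`D '' N' = {g ∈ SL | (g : M₂) ∈ Dh '' (N' × {|z| < ε})}` if `ε < 1`: if `e^z D(y) = g` then
`e^{2z} = 1`, `|z| < 1` so `z = 0`. -/
theorem isLocalHomeomorph_of_Dh {E : Type*} [TopologicalSpace E] {D : E → SL}
    (hD : IsLocalHomeomorph (Dh D)) : IsLocalHomeomorph D := by
  have hDc : Continuous D := by
    rw [isEmbedding_coe.continuous_iff]
    have h1 : Continuous fun y : E => Dh D (y, 0) := hD.continuous.comp (by fun_prop)
    have h2 : (fun y : E => Dh D (y, 0)) = (fun g : SL => (g : M2)) ∘ D := by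
      funext y
      simp [Dh]
    rw [← h2]
    exact h1
  have h1 : IsLocalHomeomorph (fun p : E × ℂ => ((D p.1, p.2) : SL × ℂ)) :=
    IsLocalHomeomorph.of_comp (g := fun p : SL × ℂ => Complex.exp p.2 • (p.1 : M2)) hD
      isLocalHomeomorph_expmul (by fun_prop)
  refine IsLocalHomeomorph.mk _ fun y => ?_
  obtain ⟨e, he, hDe⟩ := h1 (y, 0)
  have hf : ∀ q : E × ℂ, e q = (D q.1, q.2) := fun q => by rw [← hDe]
  have hinv : ∀ g : SL, (g, (0 : ℂ)) ∈ e.target → D (e.symm (g, 0)).1 = g ∧ (e.symm (g, 0)).2 = 0 := by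
    intro g hg
    have h2 := e.right_inv hg
    rw [hf] at h2
    exact ⟨congrArg Prod.fst h2, congrArg Prod.snd h2⟩
  refine ⟨{
    toFun := D
    invFun := fun g => (e.symm (g, 0)).1
    source := {x | (x, (0 : ℂ)) ∈ e.source}
    target := {g | (g, (0 : ℂ)) ∈ e.target}
    map_source' := fun x hx => by
      have h2 := e.map_source hx
      rw [hf] at h2
      exact h2
    map_target' := fun g hg => by
      have h2 := e.map_target hg
      have h3 : (((e.symm (g, 0)).1, (0 : ℂ)) : E × ℂ) = e.symm (g, 0) := Prod.ext rfl (hinv g hg).2.symm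
      show (((e.symm (g, 0)).1, (0 : ℂ)) : E × ℂ) ∈ e.source
      rw [h3]
      exact h2
    left_inv' := fun x hx => by
      have h2 := e.left_inv hx
      rw [hf] at h2
      exact congrArg Prod.fst h2
    right_inv' := fun g hg => (hinv g hg).1
    open_source := e.open_source.preimage (by fun_prop)
    open_target := e.open_target.preimage (by fun_prop)
    continuousOn_toFun := hDc.continuousOn
    continuousOn_invFun := by
      refine continuous_fst.comp_continuousOn ?_
      exact e.continuousOn_symm.comp (f := fun g : SL => ((g, (0 : ℂ)) : SL × ℂ)) (by fun_prop)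
        (fun g hg => hg) }, he, fun x _ => rfl⟩

end HRK
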