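import Pool.Agent.HRK.N2b
import Pool.Agent.HRK.A4

/-!
# HRK-B2 : first properties of `St`, `exh`, `mvp`
-/

namespace HRK

open Set Filter Topology Matrix

variable {E : Type*} [TopologicalSpace E] [T2Space E] {D : E → SL}

omit [T2Space E] in
/-- Proof. `D y = Dh D (y,0)` as a matrix, and `SL → M₂` is an embedding. -/
theorem continuous_D (hD : IsLocalHomeomorph (Dh D)) : Continuous D := by
  rw [isEmbedding_coe.continuous_iff]
  have h1 : Continuous fun y : E => Dh D (y, 0) := hD.continuous.comp (by fun_prop)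
  have h2 : (fun y : E => Dh D (y, 0)) = (fun g : SL => (g : M2)) ∘ D := by
    funext y
    simp [Dh]
  rw [← h2]
  exact h1

omit [T2Space E] in
theorem Dh_zero (D : E → SL) (y : E) : Dh D (y, 0) = (D y : M2) := by
  simp [Dh]

omit [T2Space E] in
theorem zero_mem_St (y : E) : (0 : M2) ∈ St D y := by
  show (D y : M2) * 0 ∈ Star (Dh D) (y, 0)
  rw [mul_zero]
  exact zero_mem_Star

theorem smul_mem_St (hD : IsLocalHomeomorph (Dh D)) {y : E} {X : M2} (hX : X ∈ St D y) {t : ℝ}
    (ht : t ∈ Icc (0:ℝ) 1) : t • X ∈ St D y := by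
  show (D y : M2) * (t • X) ∈ Star (Dh D) (y, 0)
  rw [mul_smul_comm]
  exact smul_mem_Star hD hX ht

omit [T2Space E] in
/-- Proof. `D_ext`: `Dh (exh y X) = Dh (y,0) + D y * X`. -/
theorem Dh_exh {y : E} {X : M2} (hX : X ∈ St D y) : Dh D (exh D y X) = (D y : M2) * (1 + X) := by
  unfold exh
  rw [D_ext (show (D y : M2) * X ∈ Star (Dh D) (y, 0) from hX), Dh_zero, mul_add, mul_one]

theorem exh_zero (hD : IsLocalHomeomorph (Dh D)) (y : E) : exh D y 0 = (y, 0) := by
  unfold exh
  rw [mul_zero]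
  exact ext_zero hD

theorem mvp_zero (hD : IsLocalHomeomorph (Dh D)) (y : E) : mvp D y 0 = y := by
  unfold mvp
  rw [exh_zero hD]

theorem ac_one (hD : IsLocalHomeomorph (Dh D)) (y : E) : ac D y 1 = y := by
  unfold ac
  rw [show (((1 : SL) : M2) - 1) = 0 by simp]
  exact mvp_zero hD y

omit [T2Space E] in
theorem b2_cont (hD : IsLocalHomeomorph (Dh D)) :
    Continuous fun q : E × M2 => (((q.1, 0) : E × ℂ), (D q.1 : M2) * q.2) := by
  have h1 : Continuous fun y : E => (D y : M2) := isEmbedding_coe.continuous.comp (continuous_D hD)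
  have h2 : Continuous fun q : E × M2 => (D q.1 : M2) := h1.comp continuous_fst
  refine Continuous.prodMk ?_ ?_
  · fun_prop
  · exact h2.mul continuous_snd

/-- Proof. `isOpen_starGraph` for `Dh D`, preimage under the continuous map
`(y, X) ↦ ((y,0), D y * X)`. -/
theorem isOpen_StGraph (hD : IsLocalHomeomorph (Dh D)) : IsOpen {q : E × M2 | q.2 ∈ St D q.1} := by
  exact (isOpen_starGraph hD).preimage (b2_cont hD)

theorem continuousOn_exh (hD : IsLocalHomeomorph (Dh D)) :
    ContinuousOn (fun q : E × M2 => exh D q.1 q.2) {q | q.2 ∈ St D q.1} := by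
  exact (continuousOn_ext hD).comp (b2_cont hD).continuousOn (fun q hq => hq)

theorem isOpen_St (hD : IsLocalHomeomorph (Dh D)) (y : E) : IsOpen (St D y) := by
  exact (isOpen_StGraph hD).preimage (f := fun X : M2 => (y, X)) (by fun_prop)

theorem continuousOn_exh_right (hD : IsLocalHomeomorph (Dh D)) (y : E) :
    ContinuousOn (exh D y) (St D y) := by
  exact (continuousOn_exh hD).comp (f := fun X : M2 => (y, X)) (by fun_prop) (fun X hX => hX)

theorem continuousOn_mvp (hD : IsLocalHomeomorph (Dh D)) :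
    ContinuousOn (fun q : E × M2 => mvp D q.1 q.2) {q | q.2 ∈ St D q.1} := by
  exact continuous_fst.comp_continuousOn (continuousOn_exh hD)

theorem continuousOn_mvp_right (hD : IsLocalHomeomorph (Dh D)) (y : E) :
    ContinuousOn (mvp D y) (St D y) := by
  exact continuous_fst.comp_continuousOn (continuousOn_exh_right hD y)

/-- `(y,g) ↦ y.g` is continuous where it is defined. -/
theorem continuousOn_ac (hD : IsLocalHomeomorph (Dh D)) :
    ContinuousOn (fun q : E × SL => ac D q.1 q.2) {q | ((q.2 : SL) : M2) - 1 ∈ St D q.1} := by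
  have h1 : Continuous fun q : E × SL => ((q.1, ((q.2 : SL) : M2) - 1) : E × M2) :=
    continuous_fst.prodMk ((isEmbedding_coe.continuous.comp continuous_snd).sub continuous_const)
  exact (continuousOn_mvp hD).comp h1.continuousOn (fun q hq => hq)

omit [T2Space E] in
/-- Proof. `Dh` takes values in invertible matrices. -/
theorem det_ne_zero_of_mem {y : E} {X : M2} (hX : X ∈ St D y) : (1 + X).det ≠ 0 := by
  have h1 := Dh_exh hX
  intro h0
  have h2 := congrArg Matrix.det h1
  rw [Matrix.det_mul, h0, mul_zero] at h2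
  unfold Dh at h2
  rw [Matrix.det_smul, Matrix.SpecialLinearGroup.det_coe, mul_one] at h2
  exact pow_ne_zero _ (Complex.exp_ne_zero _) h2

/-- multiplication by a complex number. -/
def b2_L (c : ℂ) : M2 →ₗ[ℝ] M2 where
  toFun M := c • M
  map_add' := smul_add c
  map_smul' r M := smul_comm c r M

theorem b2_shift (hD : IsLocalHomeomorph (Dh D)) {y : E} {z : ℂ} {v : M2}
    (hv : v ∈ Star (Dh D) (y, z)) (w : ℂ) : Complex.exp w • v ∈ Star (Dh D) (y, z + w) ∧
      ext (Dh D) (y, z + w) (Complex.exp w • v) =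
        ((ext (Dh D) (y, z) v).1, (ext (Dh D) (y, z) v).2 + w) := by
  have h := ext_equiv hD (T := fun p : E × ℂ => (p.1, p.2 + w)) (by fun_prop)
    (L := b2_L (Complex.exp w)) (by
      intro p
      show Complex.exp (p.2 + w) • (D p.1 : M2) = Complex.exp w • Complex.exp p.2 • (D p.1 : M2)
      rw [smul_smul, ← Complex.exp_add, add_comm w]) hv
  exact h

/-- Shift of the second coordinate: lifts from `(y, z)`.

Proof. If `c` is a lift from `(y,0)` of the segment with direction `v`, then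
`s ↦ ((c s).1, (c s).2 + z)` is a lift from `(y,z)` of the segment with direction `e^z v`:
`Dh ((c s).1, (c s).2 + z) = e^z Dh (c s)`. Use `IsLift.ext_eq` at `t = 1`. -/
theorem ext_shift (hD : IsLocalHomeomorph (Dh D)) {y : E} {v : M2} (hv : v ∈ Star (Dh D) (y, 0))
    (z : ℂ) : Complex.exp z • v ∈ Star (Dh D) (y, z) ∧
      ext (Dh D) (y, z) (Complex.exp z • v) =
        ((ext (Dh D) (y, 0) v).1, (ext (Dh D) (y, 0) v).2 + z) := by
  have h := b2_shift hD hv z
  rw [zero_add] at h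
  exact h

/-- Base change. If the segment from `X` to `(1+X)(1+Y) - 1` is contained in `S(y)` then
`Y ∈ S(y')`, `y' = y.(1+X)`, and the end points agree.

Proof. Generic `ext_add_of_segment` for `Dh D` at `(y,0)`, `z = D y * X`,
`z' = D y * ((1+X)(1+Y) - 1)` (the segment `[z,z']` is the image of the segment under the linear map
`D y * ·`): `z' - z = D y (1+X) Y = e^{ζ} D(y') Y` where `exh y X = (y', ζ)` (`Dh_exh`). So
`e^ζ D(y') Y ∈ Star (Dh D) (y', ζ)`; shift back by `-ζ` (`ext_shift`, whose proof works from any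
base point `(y', ζ)`; state a general version with base point `(y,z)` and shift `w`). -/
theorem exh_exh (hD : IsLocalHomeomorph (Dh D)) {y : E} {X Y : M2}
    (h : segment ℝ X ((1 + X) * (1 + Y) - 1) ⊆ St D y) :
    Y ∈ St D (mvp D y X) ∧
      exh D y ((1 + X) * (1 + Y) - 1) =
        ((exh D (mvp D y X) Y).1, (exh D (mvp D y X) Y).2 + (exh D y X).2) := by
  have hseg : segment ℝ ((D y : M2) * X) ((D y : M2) * ((1 + X) * (1 + Y) - 1)) ⊆
      Star (Dh D) (y, 0) := by
    rintro _ ⟨a, b, ha, hb, hab, rfl⟩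
    have h1 : a • X + b • ((1 + X) * (1 + Y) - 1) ∈ St D y := h ⟨a, b, ha, hb, hab, rfl⟩
    have h2 : (D y : M2) * (a • X + b • ((1 + X) * (1 + Y) - 1)) ∈ Star (Dh D) (y, 0) := h1
    rw [mul_add, mul_smul_comm, mul_smul_comm] at h2
    exact h2
  obtain ⟨h1, h2⟩ := ext_add_of_segment hD hseg
  have hX : X ∈ St D y := h (left_mem_segment ℝ _ _)
  have hDh := Dh_exh hX
  obtain ⟨p, hp⟩ : ∃ p, p = exh D y X := ⟨_, rfl⟩
  have hp' : ext (Dh D) (y, 0) ((D y : M2) * X) = p := hp.symm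
  have hm : mvp D y X = p.1 := by rw [hp]; rfl
  rw [← hp] at hDh
  rw [hp'] at h1 h2
  rw [hm]
  have e1 : (D y : M2) * ((1 + X) * (1 + Y) - 1) - (D y : M2) * X =
      Complex.exp p.2 • ((D p.1 : M2) * Y) := by
    have e2 : (D y : M2) * ((1 + X) * (1 + Y) - 1) - (D y : M2) * X = ((D y : M2) * (1 + X)) * Y := by
      noncomm_ring
    rw [e2, ← hDh]
    show (Complex.exp p.2 • (D p.1 : M2)) * Y = _
    rw [smul_mul_assoc]
  rw [e1] at h1 h2
  obtain ⟨y', ζ⟩ := p
  have h3 := b2_shift hD h1 (-ζ)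
  simp only at h3 ⊢
  rw [smul_smul, ← Complex.exp_add, neg_add_cancel, Complex.exp_zero, one_smul, add_neg_cancel] at h3
  refine ⟨h3.1, ?_⟩
  have h4 : exh D y' Y = ((ext (Dh D) (y', ζ) (Complex.exp ζ • ((D y' : M2) * Y))).1,
      (ext (Dh D) (y', ζ) (Complex.exp ζ • ((D y' : M2) * Y))).2 + -ζ) := h3.2
  rw [h4, ← hp]
  show ext (Dh D) (y, 0) ((D y : M2) * ((1 + X) * (1 + Y) - 1)) = _
  rw [← h2]
  simp

theorem mvp_mvp (hD : IsLocalHomeomorph (Dh D)) {y : E} {X Y : M2}
    (h : segment ℝ X ((1 + X) * (1 + Y) - 1) ⊆ St D y) :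
    Y ∈ St D (mvp D y X) ∧ mvp D (mvp D y X) Y = mvp D y ((1 + X) * (1 + Y) - 1) := by
  obtain ⟨h1, h2⟩ := exh_exh hD h
  refine ⟨h1, ?_⟩
  have h3 := congrArg Prod.fst h2
  exact h3.symm

/-- Version with a convex subset. -/
theorem mvp_mvp_convex (hD : IsLocalHomeomorph (Dh D)) {y : E} {C : Set M2} (hC : Convex ℝ C)
    (hCS : C ⊆ St D y) {X Y : M2} (hX : X ∈ C) (hY : (1 + X) * (1 + Y) - 1 ∈ C) :
    Y ∈ St D (mvp D y X) ∧ mvp D (mvp D y X) Y = mvp D y ((1 + X) * (1 + Y) - 1) := by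
  exact mvp_mvp hD ((hC.segment_subset hX hY).trans hCS)

/-- A continuous section over a star shaped set.

Proof. `ext_of_section` for the map `v ↦ σ ((D y)⁻¹ v)` on `D y * C`, or directly: for `X ∈ C`,
`s ↦ σ (s • X)` is a lift of the segment. -/
theorem exh_of_section (hD : IsLocalHomeomorph (Dh D)) {y : E} {C : Set M2} {σ : M2 → E × ℂ}
    (hσ : ContinuousOn σ C) (hσD : ∀ X ∈ C, Dh D (σ X) = (D y : M2) * (1 + X))
    (hseg : ∀ X ∈ C, ∀ t ∈ Icc (0:ℝ) 1, t • X ∈ C) (h0 : σ 0 = (y, 0)) :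
    ∀ X ∈ C, X ∈ St D y ∧ exh D y X = σ X := by
  intro X hX
  have hlift : IsLift (Dh D) (y, 0) ((D y : M2) * X) (fun s => σ (s • X)) := by
    refine ⟨hσ.comp (by fun_prop) (fun s hs => hseg X hX s hs), ?_, ?_⟩
    · show σ ((0 : ℝ) • X) = (y, 0)
      rw [zero_smul, h0]
    · intro s hs
      show Dh D (σ (s • X)) = _
      rw [hσD _ (hseg X hX s hs), Dh_zero, mul_add, mul_one, mul_smul_comm]
  have h1 := hlift.ext_eq hD 1 ⟨zero_le_one, le_rfl⟩
  rw [one_smul] at h1
  refine ⟨h1.1, ?_⟩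
  have h2 : σ ((1 : ℝ) • X) = ext (Dh D) (y, 0) ((D y : M2) * X) := h1.2
  rw [one_smul] at h2
  exact h2.symm

end HRK
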