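import Pool.Agent.HRK.B2

/-!
# HRK-B3 : the second coordinate of `exh`; the developing map at `y.g`
-/

namespace HRK

open Set Filter Topology Matrix

variable {E : Type*} [TopologicalSpace E] [T2Space E] {D : E → SL}

omit [T2Space E] in
/-- `e^{2z} = det (1 + X)`, `z = (exh y X).2`. Proof. Determinant of `Dh_exh`:
`det (e^z D(y')) = e^{2z}`. -/
theorem exp_two_exh_snd {y : E} {X : M2} (hX : X ∈ St D y) :
    Complex.exp (2 * (exh D y X).2) = (1 + X).det := by
  have h1 := congrArg Matrix.det (Dh_exh hX)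
  rw [Matrix.det_mul, Matrix.SpecialLinearGroup.det_coe, one_mul] at h1
  rw [← h1]
  unfold Dh
  rw [Matrix.det_smul, Matrix.SpecialLinearGroup.det_coe, mul_one, Fintype.card_fin, ← Complex.exp_nat_mul]
  norm_num

omit [T2Space E] in
/-- `D(y') = e^{-z} D(y) (1 + X)`. -/
theorem D_mvp {y : E} {X : M2} (hX : X ∈ St D y) :
    (D (mvp D y X) : M2) = Complex.exp (-(exh D y X).2) • ((D y : M2) * (1 + X)) := by
  rw [← Dh_exh hX]
  show (D (mvp D y X) : M2) = Complex.exp (-(exh D y X).2) • Complex.exp (exh D y X).2 •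
    (D (exh D y X).1 : M2)
  rw [smul_smul, ← Complex.exp_add, neg_add_cancel, Complex.exp_zero, one_smul]
  rfl

theorem b3_int {f : ℝ → ℝ} (hf : ContinuousOn f (Icc (0:ℝ) 1)) (h0 : f 0 = 0)
    (hi : ∀ s ∈ Icc (0:ℝ) 1, ∃ n : ℤ, f s = n) : f 1 = 0 := by
  obtain ⟨n, hn⟩ := hi 1 ⟨zero_le_one, le_rfl⟩
  rcases lt_trichotomy n 0 with h | h | h
  · exfalso
    have h1 := intermediate_value_Icc' (zero_le_one (α := ℝ)) hf
    have h2 : (-1 / 2 : ℝ) ∈ Icc (f 1) (f 0) := by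
      rw [h0, hn]
      have h3 : (n : ℝ) ≤ -1 := by
        have : n ≤ -1 := by omega
        exact_mod_cast this
      constructor <;> linarith
    obtain ⟨s, hs, hfs⟩ := h1 h2
    obtain ⟨m, hm⟩ := hi s hs
    rw [hfs] at hm
    have h4 : ((2 * m : ℤ) : ℝ) = ((-1 : ℤ) : ℝ) := by push_cast; linarith
    have h5 : 2 * m = -1 := by exact_mod_cast h4
    omega
  · rw [hn, h]
    simp
  · exfalso
    have h1 := intermediate_value_Icc (zero_le_one (α := ℝ)) hf
    have h2 : (1 / 2 : ℝ) ∈ Icc (f 0) (f 1) := by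
      rw [h0, hn]
      have h3 : (1 : ℝ) ≤ n := by
        have : 1 ≤ n := by omega
        exact_mod_cast this
      constructor <;> linarith
    obtain ⟨s, hs, hfs⟩ := h1 h2
    obtain ⟨m, hm⟩ := hi s hs
    rw [hfs] at hm
    have h4 : ((2 * m : ℤ) : ℝ) = ((1 : ℤ) : ℝ) := by push_cast; linarith
    have h5 : 2 * m = 1 := by exact_mod_cast h4
    omega

/-- If `det (1 + s X)` is in the slit plane for all `s ∈ [0,1]` then `z = log (det (1+X)) / 2`.

Proof. `φ(s) = 2 (exh y (s • X)).2 - log (det (1 + s X))` is continuous on `[0,1]`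
(`continuousOn_exh_right`, `smul_mem_St`, `ContinuousAt.clog`), `φ(0) = 0` (`exh_zero`), and
`e^{φ(s)} = 1`, so `φ(s) ∈ 2πi ℤ`; a continuous function on `[0,1]` with values in `2πi ℤ` is
constant (e.g. `Im φ/(2π)` is continuous and integer valued on a preconnected set:
`IsPreconnected.constant_of_mapsTo` / intermediate value theorem). -/
theorem exh_snd (hD : IsLocalHomeomorph (Dh D)) {y : E} {X : M2} (hX : X ∈ St D y)
    (h : ∀ s ∈ Icc (0:ℝ) 1, (1 + s • X).det ∈ Complex.slitPlane) :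
    (exh D y X).2 = Complex.log (1 + X).det / 2 := by
  obtain ⟨φ, hφ⟩ : ∃ φ : ℝ → ℂ, φ = fun s => 2 * (exh D y (s • X)).2 - Complex.log (1 + s • X).det :=
    ⟨_, rfl⟩
  have hc1 : ContinuousOn (fun s : ℝ => exh D y (s • X)) (Icc (0:ℝ) 1) :=
    (continuousOn_exh_right hD y).comp (f := fun s : ℝ => s • X) (by fun_prop)
      (fun s hs => smul_mem_St hD hX hs)
  have hc2 : ContinuousOn (fun s : ℝ => Complex.log (1 + s • X).det) (Icc (0:ℝ) 1) := by
    refine ContinuousOn.clog ?_ h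
    exact (Continuous.matrix_det (by fun_prop)).continuousOn
  have hφc : ContinuousOn φ (Icc (0:ℝ) 1) := by
    rw [hφ]
    exact (continuousOn_const.mul (continuous_snd.comp_continuousOn hc1)).sub hc2
  have hexp : ∀ s ∈ Icc (0:ℝ) 1, Complex.exp (φ s) = 1 := by
    intro s hs
    rw [hφ]
    show Complex.exp (2 * (exh D y (s • X)).2 - Complex.log (1 + s • X).det) = 1
    rw [Complex.exp_sub, exp_two_exh_snd (smul_mem_St hD hX hs),
      Complex.exp_log (Complex.slitPlane_ne_zero (h s hs)), div_self (Complex.slitPlane_ne_zero (h s hs))]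
  have hint : ∀ s ∈ Icc (0:ℝ) 1, ∃ n : ℤ, φ s = n * (2 * Real.pi * Complex.I) := fun s hs =>
    Complex.exp_eq_one_iff.1 (hexp s hs)
  have him : ∀ n : ℤ, ((n : ℂ) * (2 * Real.pi * Complex.I)).im / (2 * Real.pi) = n := by
    intro n
    have hpi := Real.pi_pos
    simp [Complex.mul_im, Complex.mul_re]
  have h0 : φ 0 = 0 := by
    rw [hφ]
    show 2 * (exh D y ((0:ℝ) • X)).2 - Complex.log (1 + (0:ℝ) • X).det = 0
    rw [zero_smul, exh_zero hD, add_zero, Matrix.det_one, Complex.log_one]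
    simp
  have h1 := b3_int (f := fun s => (φ s).im / (2 * Real.pi))
    ((Complex.continuous_im.comp_continuousOn hφc).div_const _) (by simp [h0]) (by
      intro s hs
      obtain ⟨n, hn⟩ := hint s hs
      exact ⟨n, by rw [hn, him]⟩)
  obtain ⟨n, hn⟩ := hint 1 ⟨zero_le_one, le_rfl⟩
  simp only [hn, him] at h1
  have hn0 : n = 0 := by exact_mod_cast h1
  rw [hn0, Int.cast_zero, zero_mul] at hn
  rw [hφ] at hn
  simp only [one_smul] at hn
  linear_combination hn / 2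

/-- `|det (1 + s X) - 1| < 1` when `|k X k⁻¹| ≤ 1/2`, `s ∈ [0,1]`.

Proof. `det(1+Y) = 1 + tr Y + det Y`, with `Y = s cj k X`, `|tr Y| ≤ √2 |Y|` (or `|tr Y| ≤ |Y 0 0| +
|Y 1 1| ≤ √2 |Y|` by Cauchy-Schwarz), `|det Y| ≤ |Y|²/2`: total `≤ 0.7072 + 0.125 < 1`. A complex
number with `|z - 1| < 1` is in the slit plane. -/
theorem det_mem_slitPlane {k : SL} {X : M2} (hX : nm (cj k X) ≤ 1 / 2) {s : ℝ}
    (hs : s ∈ Icc (0:ℝ) 1) : (1 + s • X).det ∈ Complex.slitPlane := by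
  have e0 : (1 + s • X).det = (1 + s • cj k X).det := by
    rw [← det_cj k (1 + s • X), cj_add, cj_one, cj_real_smul]
  rw [e0]
  obtain ⟨Y, hY⟩ : ∃ Y : M2, Y = s • cj k X := ⟨_, rfl⟩
  rw [← hY]
  have hn : nm Y ≤ 1 / 2 := by
    rw [hY, nm_real_smul, abs_of_nonneg hs.1]
    have := nm_nonneg (cj k X)
    nlinarith [hs.1, hs.2]
  have hf : fro Y ≤ 1 / 4 := by
    rw [← nm_sq]
    have := nm_nonneg Y
    nlinarith
  have e1 : (1 + Y).det = 1 + (Y.trace + Y.det) := by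
    rw [Matrix.det_fin_two, Matrix.det_fin_two, Matrix.trace_fin_two]
    simp
    ring
  rw [e1]
  apply Complex.mem_slitPlane_of_norm_lt_one
  have h1 := norm_det_le Y
  have h2 : ‖Y.trace‖ ^ 2 ≤ 1 / 2 := by
    rw [Matrix.trace_fin_two]
    have e2 := fro_eq Y
    simp only [Complex.normSq_eq_norm_sq] at e2
    have e3 := norm_add_le (Y 0 0) (Y 1 1)
    have e4 := norm_nonneg (Y 0 0 + Y 1 1)
    have e5 : ‖Y 0 0 + Y 1 1‖ ^ 2 ≤ (‖Y 0 0‖ + ‖Y 1 1‖) ^ 2 := pow_le_pow_left₀ e4 e3 2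
    nlinarith [sq_nonneg (‖Y 0 0‖ - ‖Y 1 1‖), sq_nonneg ‖Y 0 1‖, sq_nonneg ‖Y 1 0‖]
  have h3 : ‖Y.trace‖ ≤ 3 / 4 := by
    have := norm_nonneg Y.trace
    nlinarith
  have h4 := norm_add_le Y.trace Y.det
  linarith

/-- Proof. `exh_snd`, `det_mem_slitPlane`, `log 1 = 0`, `D_mvp`. -/
theorem D_mvp_of_le (hD : IsLocalHomeomorph (Dh D)) {y : E} {X : M2} (hX : X ∈ St D y) {k : SL}
    (hk : nm (cj k X) ≤ 1 / 2) (hdet : (1 + X).det = 1) :
    (D (mvp D y X) : M2) = (D y : M2) * (1 + X) ∧ (exh D y X).2 = 0 := by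
  have h1 := exh_snd hD hX (fun s hs => det_mem_slitPlane hk hs)
  rw [hdet, Complex.log_one, zero_div] at h1
  refine ⟨?_, h1⟩
  rw [D_mvp hX, h1, neg_zero, Complex.exp_zero, one_smul]

/-- the developing map at `y.g`. -/
theorem D_ac' (hD : IsLocalHomeomorph (Dh D)) {y : E} {g : SL} (hX : (g : M2) - 1 ∈ St D y) {k : SL}
    (hk : nm (cj k ((g : M2) - 1)) ≤ 1 / 2) : D (ac D y g) = D y * g := by
  have h1 := (D_mvp_of_le hD hX hk (by simp)).1
  apply Subtype.ext
  show (D (mvp D y ((g : M2) - 1)) : M2) = (D y : M2) * (g : M2)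
  rw [h1]
  congr 1
  abel

/-- null directions. Proof. `det (1 + s t n(ψ)) = 1`; `exh_snd`. -/
theorem D_ac_uni (hD : IsLocalHomeomorph (Dh D)) {y : E} {t : ℂ} {ψ : V}
    (h : t • nn ψ ∈ St D y) : D (ac D y (uni t ψ)) = D y * uni t ψ := by
  have hdet : ∀ s : ℝ, (1 + s • (t • nn ψ)).det = 1 := by
    intro s
    have h1 : (1 : M2) + s • (t • nn ψ) = ((uni ((s : ℂ) * t) ψ : SL) : M2) := by
      rw [uni_coe, mul_smul]
      rfl
    rw [h1, Matrix.SpecialLinearGroup.det_coe]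
  have h1 := exh_snd hD h (fun s _ => by
    rw [hdet]
    exact Complex.one_mem_slitPlane)
  have hdet1 := hdet 1
  rw [one_smul] at hdet1
  rw [hdet1, Complex.log_one, zero_div] at h1
  apply Subtype.ext
  show (D (mvp D y (((uni t ψ : SL) : M2) - 1)) : M2) = (D y : M2) * ((uni t ψ : SL) : M2)
  rw [uni_coe, add_sub_cancel_left, D_mvp h, h1, neg_zero, Complex.exp_zero, one_smul]

theorem ac_uni (D : E → SL) (y : E) (t : ℂ) (ψ : V) : ac D y (uni t ψ) = mvp D y (t • nn ψ) := by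
  unfold ac
  rw [uni_coe, add_sub_cancel_left]

/-- A path in `E` over the null segment.

Proof. `s ↦ (c s, 0)` is a lift of the segment `D y * (1 + s τ n(ψ))` to `E × ℂ`;
`IsLift.ext_eq`. -/
theorem mem_St_of_path (hD : IsLocalHomeomorph (Dh D)) {y : E} {τ : ℂ} {ψ : V} {c : ℝ → E}
    (hc : ContinuousOn c (Icc (0:ℝ) 1)) (h0 : c 0 = y)
    (hcD : ∀ s ∈ Icc (0:ℝ) 1, D (c s) = D y * uni (s * τ) ψ) :
    τ • nn ψ ∈ St D y ∧ ∀ s ∈ Icc (0:ℝ) 1, ac D y (uni (s * τ) ψ) = c s := by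
  have hlift : IsLift (Dh D) (y, 0) ((D y : M2) * (τ • nn ψ)) (fun s => (c s, 0)) := by
    refine ⟨hc.prodMk continuousOn_const, by simp only [h0], ?_⟩
    intro s hs
    show Dh D (c s, 0) = _
    rw [Dh_zero, Dh_zero, hcD s hs]
    show (D y : M2) * ((uni (s * τ) ψ : SL) : M2) = _
    rw [uni_coe, mul_add, mul_one, mul_smul, ← mul_smul_comm]
    rfl
  have h1 := hlift.ext_eq hD
  refine ⟨?_, ?_⟩
  · have h2 := (h1 1 ⟨zero_le_one, le_rfl⟩).1
    rw [one_smul] at h2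
    exact h2
  · intro s hs
    have h2 := (h1 s hs).2
    have e : (D y : M2) * (((s : ℂ) * τ) • nn ψ) = s • ((D y : M2) * (τ • nn ψ)) := by
      rw [mul_smul, ← mul_smul_comm]
      rfl
    rw [ac_uni]
    show (ext (Dh D) (y, 0) ((D y : M2) * (((s : ℂ) * τ) • nn ψ))).1 = c s
    rw [e, ← h2]

/-- Unique lifting in `E` (used often). Two continuous maps on a preconnected set with the same
developing image which agree at one point agree. Proof. `lift_unique` for `Dh D` and the maps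
`t ↦ (c t, 0)`. -/
theorem eqOn_of_D (hD : IsLocalHomeomorph (Dh D)) {A : Type*} [TopologicalSpace A] {S : Set A}
    (hS : IsPreconnected S) {c c' : A → E} (hc : ContinuousOn c S) (hc' : ContinuousOn c' S)
    (h : ∀ t ∈ S, D (c t) = D (c' t)) {t₀ : A} (ht₀ : t₀ ∈ S) (h0 : c t₀ = c' t₀) :
    ∀ t ∈ S, c t = c' t := by
  have h1 := lift_unique hD hS (c := fun t => ((c t, 0) : E × ℂ)) (c' := fun t => ((c' t, 0) : E × ℂ))
    (hc.prodMk continuousOn_const) (hc'.prodMk continuousOn_const) (by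
      intro t ht
      show Dh D (c t, 0) = Dh D (c' t, 0)
      rw [Dh_zero, Dh_zero, h t ht]) ht₀ (by simp only [h0])
  intro t ht
  exact congrArg Prod.fst (h1 t ht)

end HRK
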