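import Pool.Agent.HRK.Defs2
import Pool.Agent.HRK.B3

/-!
# HRK-B4 : composition `y.g.g' = y.(g g')`, free balls, null discs
-/

namespace HRK

open Set Filter Topology Matrix

variable {E : Type*} [TopologicalSpace E] [T2Space E] {D : E → SL}

/-- the ball of the frame `k` is convex and open. -/
theorem convex_cj_ball (k : SL) (r : ℝ) : Convex ℝ {X : M2 | nm (cj k X) < r} := by
  intro X hX Y hY a b ha hb hab
  simp only [mem_ofPred_eq] at hX hY ⊢
  rw [cj_add, cj_real_smul, cj_real_smul]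
  refine lt_of_le_of_lt (nm_add_le _ _) ?_
  rw [nm_real_smul, nm_real_smul, abs_of_nonneg ha, abs_of_nonneg hb]
  rcases ha.eq_or_lt with h | h
  · have hb1 : b = 1 := by linarith
    rw [← h, hb1, zero_mul, zero_add, one_mul]
    exact hY
  · have h1 := mul_lt_mul_of_pos_left hX h
    have h2 := mul_le_mul_of_nonneg_left hY.le hb
    have h3 : a * r + b * r = r := by rw [← add_mul, hab, one_mul]
    linarith

theorem isOpen_cj_ball (k : SL) (r : ℝ) : IsOpen {X : M2 | nm (cj k X) < r} :=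
  isOpen_lt (continuous_nm.comp (continuous_cj k)) continuous_const

theorem FB.mono {y : E} {k : SL} {r r' : ℝ} (h : FB D y k r) (hr : r' ≤ r) : FB D y k r' :=
  fun X hX => h X (lt_of_lt_of_le hX hr)

theorem b4_mul (g g' : SL) :
    (1 + ((g : M2) - 1)) * (1 + ((g' : M2) - 1)) - 1 = ((g * g' : SL) : M2) - 1 := by
  rw [add_sub_cancel, add_sub_cancel, Matrix.SpecialLinearGroup.coe_mul]

/-- composition in a convex subset. Proof. `mvp_mvp_convex` with `X = g - 1`, `Y = g' - 1`: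
`(1+X)(1+Y) - 1 = g g' - 1`. -/
theorem ac_ac_convex (hD : IsLocalHomeomorph (Dh D)) {y : E} {C : Set M2} (hC : Convex ℝ C)
    (hCS : C ⊆ St D y) {g g' : SL} (hg : (g : M2) - 1 ∈ C)
    (hg' : ((g * g' : SL) : M2) - 1 ∈ C) :
    ((g' : M2) - 1) ∈ St D (ac D y g) ∧ ac D (ac D y g) g' = ac D y (g * g') := by
  have h := mvp_mvp_convex hD hC hCS (X := (g : M2) - 1) (Y := (g' : M2) - 1) hg
    (by rw [b4_mul]; exact hg')
  rw [b4_mul] at h
  exact h

/-- Proof. `ac_ac_convex` with `C` the ball of the frame `k`. -/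
theorem ac_ac (hD : IsLocalHomeomorph (Dh D)) {y : E} {k : SL} {r : ℝ}
    (hF : FB D y k r) {g g' : SL} (hg : nm (cj k ((g : M2) - 1)) < r)
    (hg' : nm (cj k (((g * g' : SL) : M2) - 1)) < r) :
    ((g' : M2) - 1) ∈ St D (ac D y g) ∧ ac D (ac D y g) g' = ac D y (g * g') :=
  ac_ac_convex hD (convex_cj_ball k r) (fun X hX => hF X hX) hg hg'

/-- Proof. `ac_ac` with `g' = g⁻¹`, `ac_one`. -/
theorem ac_inv (hD : IsLocalHomeomorph (Dh D)) {y : E} {k : SL} {r : ℝ}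
    (hF : FB D y k r) {g : SL} (hg : nm (cj k ((g : M2) - 1)) < r) :
    (((g⁻¹ : SL) : M2) - 1) ∈ St D (ac D y g) ∧ ac D (ac D y g) g⁻¹ = y := by
  have hr : 0 < r := lt_of_le_of_lt (nm_nonneg _) hg
  have h := ac_ac hD hF hg (g' := g⁻¹) (by
    rw [mul_inv_cancel, Matrix.SpecialLinearGroup.coe_one, sub_self, cj_zero, nm_zero]
    exact hr)
  rw [mul_inv_cancel, ac_one hD] at h
  exact h

/-- the developing map at `y.g`. Proof. `D_ac'`. -/
theorem D_ac (hD : IsLocalHomeomorph (Dh D)) {y : E} {k : SL} {r : ℝ}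
    (hr : r ≤ 1 / 2) (hF : FB D y k r) {g : SL} (hg : nm (cj k ((g : M2) - 1)) < r) :
    D (ac D y g) = D y * g :=
  D_ac' hD (hF _ hg) (k := k) (by linarith)

/-- free balls at neighbours. Proof. For `|Y|_k < r/4`, `X = g - 1`, `|X|_k < r/4`:
`(1+X)(1+Y) - 1 = X + Y + XY` has frame norm `< r/4 + r/4 + r²/16 < r` (`nm_mul_le`, `cj_mul`);
`mvp_mvp_convex`. -/
theorem FB_ac (hD : IsLocalHomeomorph (Dh D)) {y : E} {k : SL} {r : ℝ}
    (hr0 : 0 < r) (hr : r ≤ 1 / 2) (hF : FB D y k r) {g : SL}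
    (hg : nm (cj k ((g : M2) - 1)) < r / 4) : FB D (ac D y g) k (r / 4) := by
  intro Y hY
  refine (mvp_mvp_convex hD (convex_cj_ball k r) (fun X hX => hF X hX) (X := (g : M2) - 1)
    (Y := Y) ?_ ?_).1
  · show nm (cj k ((g : M2) - 1)) < r
    linarith
  · show nm (cj k ((1 + ((g : M2) - 1)) * (1 + Y) - 1)) < r
    have e : (1 + ((g : M2) - 1)) * (1 + Y) - 1 = (((g : M2) - 1) + Y) + ((g : M2) - 1) * Y := by
      noncomm_ring
    rw [e, cj_add, cj_add, cj_mul]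
    have h1 := nm_add_le (cj k ((g : M2) - 1) + cj k Y) (cj k ((g : M2) - 1) * cj k Y)
    have h2 := nm_add_le (cj k ((g : M2) - 1)) (cj k Y)
    have h3 := nm_mul_le (cj k ((g : M2) - 1)) (cj k Y)
    have h4 : nm (cj k ((g : M2) - 1)) * nm (cj k Y) ≤ r / 4 * (r / 4) :=
      mul_le_mul hg.le hY.le (nm_nonneg _) (by linarith)
    nlinarith

/-- `ac` is a chart: on the ball of radius `r/4` the map `g ↦ y.g` is open, so every neighbourhood
of `y` contains (and is contained in …) such balls: if `O` is a neighbourhood of `y` there is `c > 0`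
with `y.g ∈ O` for `|g-1|_k < c`, and for every `c > 0` the set `{y.g | |g - 1|_k < c}` is a
neighbourhood of `y`.

Proof. First part: continuity of `g ↦ ac D y g` at `1` (`continuousOn_ac`), `exists_SL_ball`,
`nm_cj_le` for `k⁻¹`. Second part: near `y` put `g(y') = (D y)⁻¹ D(y')`, continuous, `g(y) = 1`;
the two maps `y' ↦ y'` and `y' ↦ ac D y (g(y'))` agree near `y`: both are continuous near `y`, have
the same image under `D` and agree at `y`; `D` is locally injective at `y`: choose a neighbourhood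
`U` of `y` with `D` injective on `U` and `N ⊆ U` with `ac D y (g(y')) ∈ U` for `y' ∈ N`. -/
theorem ac_nhds (hD : IsLocalHomeomorph (Dh D)) (y : E) (k : SL) :
    (∀ O ∈ 𝓝 y, ∃ c > 0, ∀ g : SL, nm (cj k ((g : M2) - 1)) < c → ac D y g ∈ O) ∧
      ∀ c > 0, {y' : E | ∃ g : SL, nm (cj k ((g : M2) - 1)) < c ∧ y' = ac D y g} ∈ 𝓝 y := by
  have hcoe : Continuous (fun g : SL => (g : M2)) := isEmbedding_coe.continuous
  have hop : IsOpen {q : E × SL | ((q.2 : SL) : M2) - 1 ∈ St D q.1} :=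
    (isOpen_StGraph hD).preimage (f := fun q : E × SL => (q.1, ((q.2 : SL) : M2) - 1)) (by
      have : Continuous fun q : E × SL => ((q.2 : SL) : M2) := hcoe.comp continuous_snd
      exact continuous_fst.prodMk (this.sub continuous_const))
  have hmem : (y, (1 : SL)) ∈ {q : E × SL | ((q.2 : SL) : M2) - 1 ∈ St D q.1} := by
    show (((1 : SL) : SL) : M2) - 1 ∈ St D y
    rw [Matrix.SpecialLinearGroup.coe_one, sub_self]
    exact zero_mem_St y
  have hcont0 : ContinuousAt (fun q : E × SL => ac D q.1 q.2) (y, 1) :=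
    (continuousOn_ac hD).continuousAt (hop.mem_nhds hmem)
  have hcont : ContinuousAt (fun g : SL => ac D y g) 1 :=
    ContinuousAt.comp (f := fun g : SL => (y, g)) (x := 1) hcont0
      (continuous_const.prodMk continuous_id).continuousAt
  refine ⟨fun O hO => ?_, fun c hc => ?_⟩
  · have h1 : (fun g : SL => ac D y g) ⁻¹' O ∈ 𝓝 (1 : SL) := by
      apply hcont
      show O ∈ 𝓝 (ac D y 1)
      rw [ac_one hD]
      exact hO
    obtain ⟨r, hr, h2⟩ := exists_SL_ball h1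
    have hk : 0 < nm (k : M2) ^ 2 + 1 := by positivity
    refine ⟨r / (nm (k : M2) ^ 2 + 1), by positivity, fun g hg => h2 g ?_⟩
    rw [Matrix.SpecialLinearGroup.coe_one]
    have h3 := nm_cj_le k⁻¹ (cj k ((g : M2) - 1))
    rw [cj_cj, inv_mul_cancel, one_cj, nm_inv] at h3
    rw [lt_div_iff₀ hk] at hg
    nlinarith [nm_nonneg (cj k ((g : M2) - 1))]
  · -- local injectivity
    obtain ⟨U, hU1, hU2, hU3⟩ := hD.isLocallyInjective (y, (0 : ℂ))
    have hN : IsOpen {y' : E | (y', (0 : ℂ)) ∈ U} :=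
      hU1.preimage (continuous_id.prodMk continuous_const)
    have hDc := continuous_D hD
    have hgc : Continuous fun y' : E => (D y)⁻¹ * D y' := continuous_const.mul hDc
    have hg1 : (D y)⁻¹ * D y = 1 := inv_mul_cancel _
    have hφ : ContinuousAt (fun y' : E => ac D y ((D y)⁻¹ * D y')) y := by
      refine ContinuousAt.comp (f := fun y' : E => (D y)⁻¹ * D y') (x := y)
        (g := fun g : SL => ac D y g) ?_ hgc.continuousAt
      show ContinuousAt (fun g : SL => ac D y g) ((D y)⁻¹ * D y)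
      rw [hg1]
      exact hcont
    have hφy : ac D y ((D y)⁻¹ * D y) = y := by rw [hg1, ac_one hD]
    have e1 : ∀ᶠ y' in 𝓝 y, ac D y ((D y)⁻¹ * D y') ∈ {y' : E | (y', (0 : ℂ)) ∈ U} := by
      apply hφ
      show {y' : E | (y', (0 : ℂ)) ∈ U} ∈ 𝓝 (ac D y ((D y)⁻¹ * D y))
      rw [hφy]
      exact hN.mem_nhds hU2
    have e2 : ∀ᶠ y' in 𝓝 y, y' ∈ {y' : E | (y', (0 : ℂ)) ∈ U} := hN.mem_nhds hU2
    have hmc : Continuous fun y' : E => (((D y)⁻¹ * D y' : SL) : M2) - 1 :=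
      (hcoe.comp hgc).sub continuous_const
    have hm0 : (((D y)⁻¹ * D y : SL) : M2) - 1 = 0 := by
      rw [hg1, Matrix.SpecialLinearGroup.coe_one, sub_self]
    have e3 : ∀ᶠ y' in 𝓝 y, (((D y)⁻¹ * D y' : SL) : M2) - 1 ∈ St D y := by
      have := (isOpen_St hD y).preimage hmc
      apply this.mem_nhds
      show (((D y)⁻¹ * D y : SL) : M2) - 1 ∈ St D y
      rw [hm0]
      exact zero_mem_St y
    have e4 : ∀ᶠ y' in 𝓝 y, nm (cj k ((((D y)⁻¹ * D y' : SL) : M2) - 1)) < min c (1 / 2) := by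
      have := (isOpen_cj_ball k (min c (1 / 2))).preimage hmc
      apply this.mem_nhds
      show nm (cj k ((((D y)⁻¹ * D y : SL) : M2) - 1)) < min c (1 / 2)
      rw [hm0, cj_zero, nm_zero]
      exact lt_min hc (by norm_num)
    filter_upwards [e1, e2, e3, e4] with y' f1 f2 f3 f4
    refine ⟨(D y)⁻¹ * D y', lt_of_lt_of_le f4 (min_le_left _ _), ?_⟩
    have h1 : D (ac D y ((D y)⁻¹ * D y')) = D y' := by
      rw [D_ac' hD f3 (k := k) (f4.le.trans (min_le_right _ _)), mul_inv_cancel_left]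
    have h2 : Dh D (y', (0 : ℂ)) = Dh D (ac D y ((D y)⁻¹ * D y'), (0 : ℂ)) := by
      rw [Dh_zero, Dh_zero, h1]
    have h3 := hU3 f2 f1 h2
    exact congrArg Prod.fst h3

/-! ### null discs -/

/-- Base change along a null disc. Suppose `t • nn ψ ∈ St D y` for all `|t| < R`. Then for
`|t| < R`, `|t + t'| < R`: `t' • nn ψ ∈ St D (y.(uni t ψ))` and
`y.(uni t ψ).(uni t' ψ) = y.(uni (t + t') ψ)`.

Proof. `C = {t • nn ψ : |t| < R}` is convex; `ac_ac_convex`, `uni_mul`. -/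
theorem null_ac (hD : IsLocalHomeomorph (Dh D)) {y : E} {ψ : V} {R : ℝ}
    (h : ∀ t : ℂ, ‖t‖ < R → t • nn ψ ∈ St D y) {t t' : ℂ} (ht : ‖t‖ < R) (ht' : ‖t + t'‖ < R) :
    t' • nn ψ ∈ St D (ac D y (uni t ψ)) ∧
      ac D (ac D y (uni t ψ)) (uni t' ψ) = ac D y (uni (t + t') ψ) := by
  have hu : ∀ t : ℂ, ((uni t ψ : SL) : M2) - 1 = t • nn ψ := fun t => by
    rw [uni_coe, add_sub_cancel_left]
  have hconv : Convex ℝ ((fun t : ℂ => t • nn ψ) '' {t | ‖t‖ < R}) := by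
    rintro _ ⟨s, hs, rfl⟩ _ ⟨s', hs', rfl⟩ a b ha hb hab
    have hball : Convex ℝ (Metric.ball (0 : ℂ) R) := convex_ball 0 R
    have h1 : a • s + b • s' ∈ Metric.ball (0 : ℂ) R :=
      hball (mem_ball_zero_iff.2 hs) (mem_ball_zero_iff.2 hs') ha hb hab
    refine ⟨a • s + b • s', mem_ball_zero_iff.1 h1, ?_⟩
    show (a • s + b • s') • nn ψ = a • s • nn ψ + b • s' • nn ψ
    rw [add_smul, smul_assoc, smul_assoc]
  have h1 := ac_ac_convex hD hconv (by
    rintro _ ⟨s, hs, rfl⟩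
    exact h s hs) (g := uni t ψ) (g' := uni t' ψ) ⟨t, ht, (hu t).symm⟩
    ⟨t + t', ht', by rw [uni_mul]; exact (hu _).symm⟩
  rw [hu, uni_mul] at h1
  exact h1

theorem b4_exh (hD : IsLocalHomeomorph (Dh D)) {y : E} {ψ : V} {t : ℂ}
    (ht : t • nn ψ ∈ St D y) : exh D y (t • nn ψ) = (ac D y (uni t ψ), 0) := by
  have hdet : ∀ c : ℂ, (1 + c • nn ψ).det = 1 := by
    intro c
    have := (uni c ψ).2
    rwa [← uni_coe]
  have h2 : (exh D y (t • nn ψ)).2 = 0 := by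
    rw [exh_snd hD ht ?_, hdet, Complex.log_one, zero_div]
    intro s _
    have e : (1 : M2) + s • (t • nn ψ) = 1 + ((s : ℂ) * t) • nn ψ := by
      rw [mul_smul]
      rfl
    rw [e, hdet]
    exact Complex.one_mem_slitPlane
  have h1 : (exh D y (t • nn ψ)).1 = ac D y (uni t ψ) := by
    rw [ac_uni]
    rfl
  rw [← h1, ← h2]

/-- Concatenation of collinear null segments.

Proof. Concatenation of collinear segments (`concat` of A3 in the generic setting) and the shift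
lemma; note `(exh y (t n)).2 = 0`. -/
theorem null_concat (hD : IsLocalHomeomorph (Dh D)) {y : E} {ψ : V} {t : ℂ} {ρ : ℝ} (hρ : 0 ≤ ρ)
    (ht : t • nn ψ ∈ St D y) (ht' : ((ρ : ℂ) * t) • nn ψ ∈ St D (ac D y (uni t ψ))) :
    ((1 + (ρ : ℂ)) * t) • nn ψ ∈ St D y ∧
      ac D y (uni ((1 + (ρ : ℂ)) * t) ψ) = ac D (ac D y (uni t ψ)) (uni ((ρ : ℂ) * t) ψ) := by
  have hx := b4_exh hD ht
  have hx' : ext (Dh D) (y, 0) ((1 : ℝ) • ((D y : M2) * (t • nn ψ))) = (ac D y (uni t ψ), 0) := by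
    rw [one_smul]
    exact hx
  have hw : (D (ac D y (uni t ψ)) : M2) * (((ρ : ℂ) * t) • nn ψ) =
      ρ • ((D y : M2) * (t • nn ψ)) := by
    rw [D_ac_uni hD ht, Matrix.SpecialLinearGroup.coe_mul, uni_coe, mul_assoc, add_mul, one_mul,
      smul_mul_smul_comm, nn_mul_self, smul_zero, add_zero, mul_smul, mul_smul_comm]
    rfl
  have h2 : ρ • ((D y : M2) * (t • nn ψ)) ∈
      Star (Dh D) (ext (Dh D) (y, 0) ((1 : ℝ) • ((D y : M2) * (t • nn ψ)))) := by
    rw [hx', ← hw]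
    exact ht'
  have h1 : (1 : ℝ) • ((D y : M2) * (t • nn ψ)) ∈ Star (Dh D) (y, 0) := by
    rw [one_smul]
    exact ht
  obtain ⟨h3, h4⟩ := concat hD zero_le_one hρ h1 h2
  have e : (D y : M2) * (((1 + (ρ : ℂ)) * t) • nn ψ) = (1 + ρ) • ((D y : M2) * (t • nn ψ)) := by
    have e1 : ((1 + (ρ : ℂ)) * t) • nn ψ = (1 + ρ) • (t • nn ψ) := by
      rw [mul_smul]
      have e2 : (1 + (ρ : ℂ)) = ((1 + ρ : ℝ) : ℂ) := by push_cast; rfl
      rw [e2]
      rfl
    rw [e1, mul_smul_comm]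
  have h5 : ((1 + (ρ : ℂ)) * t) • nn ψ ∈ St D y := by
    show (D y : M2) * (((1 + (ρ : ℂ)) * t) • nn ψ) ∈ Star (Dh D) (y, 0)
    rw [e]
    exact h3
  refine ⟨h5, ?_⟩
  rw [hx', ← hw, ← e] at h4
  rw [ac_uni, ac_uni D (ac D y (uni t ψ))]
  exact congrArg Prod.fst h4

/-- Uniform extension along a null segment. If for all `s ∈ [0,1)` with `s τ n(ψ) ∈ St D y` the
disc `{t n(ψ) : |t| < ρ}` is in `St` at `y.(uni (s τ) ψ)` (`ρ > 0` fixed) then `τ n(ψ) ∈ St D y`.

Proof. As in `mem_star_of_uniform` (A4): induction with steps `τ/N`, `‖τ‖/N < ρ`. -/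
theorem null_uniform (hD : IsLocalHomeomorph (Dh D)) {y : E} {ψ : V} {τ : ℂ} {ρ : ℝ} (hρ : 0 < ρ)
    (h : ∀ s ∈ Ico (0:ℝ) 1, ((s : ℂ) * τ) • nn ψ ∈ St D y → ∀ t : ℂ, ‖t‖ < ρ →
      t • nn ψ ∈ St D (ac D y (uni ((s : ℂ) * τ) ψ))) : τ • nn ψ ∈ St D y := by
  obtain ⟨n, hn⟩ : ∃ n : ℕ, ‖τ‖ / ρ < (n : ℝ) := exists_nat_gt _
  have hn0 : (0 : ℝ) < (n : ℝ) + 1 := by positivity
  have hn1 : ‖((1 / ((n : ℝ) + 1) : ℝ) : ℂ) * τ‖ < ρ := by
    rw [norm_mul, Complex.norm_real, Real.norm_of_nonneg (by positivity), one_div_mul_eq_div,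
      div_lt_iff₀ hn0]
    rw [div_lt_iff₀ hρ] at hn
    nlinarith
  have h0 : ((1 / ((n : ℝ) + 1) : ℝ) : ℂ) * τ = ((1 / ((n : ℝ) + 1) : ℝ) : ℂ) * τ := rfl
  have hz : (((0 : ℝ) : ℂ) * τ) • nn ψ = 0 := by
    rw [Complex.ofReal_zero, zero_mul, zero_smul]
  have hstart : (((1 / ((n : ℝ) + 1) : ℝ) : ℂ) * τ) • nn ψ ∈ St D y := by
    have h1 := h 0 ⟨le_rfl, zero_lt_one⟩ (by rw [hz]; exact zero_mem_St y) _ hn1
    rw [Complex.ofReal_zero, zero_mul, uni_zero, ac_one hD] at h1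
    exact h1
  have key : ∀ k : ℕ, k ≤ n → ((((k : ℝ) + 1) / ((n : ℝ) + 1) : ℝ) : ℂ) • τ • nn ψ ∈ St D y := by
    intro k
    induction k with
    | zero =>
      intro _
      rw [Nat.cast_zero, zero_add, smul_smul]
      exact hstart
    | succ k ih =>
      intro hk
      have h1 := ih (by omega)
      rw [smul_smul] at h1
      have hk' : (k : ℝ) + 1 < (n : ℝ) + 1 := by
        have : k < n := by omega
        have : (k : ℝ) < n := by exact_mod_cast this
        linarith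
      have hk0 : (0 : ℝ) < (k : ℝ) + 1 := by positivity
      have h2 := h _ ⟨by positivity, (div_lt_one hn0).2 hk'⟩ h1 _ hn1
      have e : ((1 / ((n : ℝ) + 1) : ℝ) : ℂ) * τ =
          ((1 / ((k : ℝ) + 1) : ℝ) : ℂ) * (((((k : ℝ) + 1) / ((n : ℝ) + 1) : ℝ) : ℂ) * τ) := by
        rw [← mul_assoc, ← Complex.ofReal_mul]
        congr 2
        field_simp
      rw [e] at h2
      have h3 := (null_concat hD (by positivity) h1 h2).1
      have e' : (1 + ((1 / ((k : ℝ) + 1) : ℝ) : ℂ)) *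
          (((((k : ℝ) + 1) / ((n : ℝ) + 1) : ℝ) : ℂ) * τ) =
          ((((k + 1 : ℕ) : ℝ) + 1) / ((n : ℝ) + 1) : ℝ) * τ := by
        rw [← mul_assoc]
        congr 1
        rw [← Complex.ofReal_one, ← Complex.ofReal_add, ← Complex.ofReal_mul]
        congr 1
        rw [Nat.cast_add, Nat.cast_one]
        field_simp
      rw [e'] at h3
      rw [smul_smul]
      exact h3
  have h4 := key n le_rfl
  rw [div_self hn0.ne', Complex.ofReal_one, one_smul] at h4
  exact h4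

end HRK
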