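import Pool.Agent.HRK.B4

/-!
# HRK-B5 : topology of `E` near a point
-/

namespace HRK

open Set Filter Topology Matrix

variable {E : Type*} [TopologicalSpace E] [T2Space E] {D : E → SL}

/-- continuity of `(z,g) ↦ z.g`. -/
theorem b5_continuousAt (hD : IsLocalHomeomorph (Dh D)) {y : E} {g : SL}
    (hg : (g : M2) - 1 ∈ St D y) : ContinuousAt (fun q : E × SL => ac D q.1 q.2) (y, g) := by
  refine (continuousOn_ac hD).continuousAt (IsOpen.mem_nhds ?_ hg)
  have hcont : Continuous (fun q : E × SL => (q.1, ((q.2 : SL) : M2) - 1)) :=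
    continuous_fst.prodMk ((isEmbedding_coe.continuous.comp continuous_snd).sub continuous_const)
  exact (isOpen_StGraph hD).preimage hcont

omit [T2Space E] in
/-- `D` is locally injective. -/
theorem b5_inj (hD : IsLocalHomeomorph (Dh D)) (y : E) :
    ∃ U : Set E, IsOpen U ∧ y ∈ U ∧ ∀ a ∈ U, ∀ b ∈ U, D a = D b → a = b := by
  obtain ⟨e, he, hfe⟩ := hD (y, 0)
  refine ⟨(fun a : E => (a, (0 : ℂ))) ⁻¹' e.source,
    e.open_source.preimage (continuous_id.prodMk continuous_const), he, ?_⟩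
  intro a ha b hb hab
  have h : e (a, 0) = e (b, 0) := by
    rw [← hfe]
    show Dh D (a, 0) = Dh D (b, 0)
    rw [Dh_zero, Dh_zero, hab]
  have h2 := e.injOn ha hb h
  exact (Prod.mk.inj h2).1

theorem b5_main (hD : IsLocalHomeomorph (Dh D)) (y : E) :
    ∀ᶠ p : E × E in 𝓝 (y, y), (((D p.1)⁻¹ * D p.2 : SL) : M2) - 1 ∈ St D p.1 ∧
      ac D p.1 ((D p.1)⁻¹ * D p.2) = p.2 := by
  have hDc := continuous_D hD
  have hG : Continuous (fun p : E × E => (D p.1)⁻¹ * D p.2) :=
    (hDc.comp continuous_fst).inv.mul (hDc.comp continuous_snd)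
  have hGM : Continuous (fun p : E × E => (((D p.1)⁻¹ * D p.2 : SL) : M2) - 1) :=
    (isEmbedding_coe.continuous.comp hG).sub continuous_const
  have hG0 : (D y)⁻¹ * D y = 1 := inv_mul_cancel _
  have hGM0 : (((D y)⁻¹ * D y : SL) : M2) - 1 = 0 := by
    rw [hG0]
    simp
  have h1 : ∀ᶠ p : E × E in 𝓝 (y, y), (((D p.1)⁻¹ * D p.2 : SL) : M2) - 1 ∈ St D p.1 := by
    have hcont : Continuous (fun p : E × E => (p.1, (((D p.1)⁻¹ * D p.2 : SL) : M2) - 1)) :=
      continuous_fst.prodMk hGM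
    have ho := (isOpen_StGraph hD).preimage hcont
    refine ho.mem_nhds ?_
    show (((D y)⁻¹ * D y : SL) : M2) - 1 ∈ St D y
    rw [hGM0]
    exact zero_mem_St y
  have h2 : ∀ᶠ p : E × E in 𝓝 (y, y),
      nm (cj 1 ((((D p.1)⁻¹ * D p.2 : SL) : M2) - 1)) < 1 / 2 := by
    have hcont : Continuous (fun p : E × E =>
        nm (cj 1 ((((D p.1)⁻¹ * D p.2 : SL) : M2) - 1))) :=
      continuous_nm.comp ((continuous_cj 1).comp hGM)
    refine hcont.continuousAt.eventually_lt continuousAt_const ?_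
    show nm (cj 1 ((((D y)⁻¹ * D y : SL) : M2) - 1)) < 1 / 2
    rw [hGM0, cj_zero, nm_zero]
    norm_num
  obtain ⟨U, hU, hyU, hinj⟩ := b5_inj hD y
  have h3 : ∀ᶠ p : E × E in 𝓝 (y, y), p.2 ∈ U :=
    continuous_snd.continuousAt.eventually (hU.mem_nhds hyU)
  have h4 : ∀ᶠ p : E × E in 𝓝 (y, y), ac D p.1 ((D p.1)⁻¹ * D p.2) ∈ U := by
    have hca : ContinuousAt (fun p : E × E => ac D p.1 ((D p.1)⁻¹ * D p.2)) (y, y) := by
      have ha : ContinuousAt (fun q : E × SL => ac D q.1 q.2)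
          ((fun p : E × E => (p.1, (D p.1)⁻¹ * D p.2)) (y, y)) := by
        refine b5_continuousAt hD ?_
        show (((D y)⁻¹ * D y : SL) : M2) - 1 ∈ St D y
        rw [hGM0]
        exact zero_mem_St y
      exact ContinuousAt.comp (f := fun p : E × E => (p.1, (D p.1)⁻¹ * D p.2)) ha
        (continuous_fst.prodMk hG).continuousAt
    refine hca.eventually (hU.mem_nhds ?_)
    show ac D y ((D y)⁻¹ * D y) ∈ U
    rw [hG0, ac_one hD]
    exact hyU
  filter_upwards [h1, h2, h3, h4] with p p1 p2 p3 p4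
  refine ⟨p1, hinj _ p4 _ p3 ?_⟩
  rw [D_ac' hD p1 p2.le]
  exact mul_inv_cancel_left _ _

omit [T2Space E] in
/-- `E` is first countable. Proof. `D` is continuous and `Dh D` is a local homeomorphism; the points
of `E × ℂ` have countable neighbourhood bases (`𝓝 p = map e.symm (𝓝 (e p))` for a local inverse `e`,
and `M2` is first countable), and `𝓝 y = comap (fun y => (y,0)) (𝓝 (y,0))`
(the map `y ↦ (y, (0:ℂ))` is an embedding). -/
theorem firstCountable (hD : IsLocalHomeomorph (Dh D)) : FirstCountableTopology E := by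
  refine ⟨fun y => ?_⟩
  obtain ⟨e, he, hfe⟩ := hD (y, 0)
  have h1 : (𝓝 ((y, 0) : E × ℂ)).IsCountablyGenerated := by
    rw [← e.symm_map_nhds_eq he]
    have hF : FirstCountableTopology M2 :=
      inferInstanceAs (FirstCountableTopology (Fin 2 → Fin 2 → ℂ))
    have h0 : (𝓝 (e (y, (0 : ℂ)))).IsCountablyGenerated := hF.nhds_generated_countable _
    exact Filter.map.isCountablyGenerated _ _
  have hind : IsInducing (fun a : E => (a, (0 : ℂ))) := isInducing_prodMkLeft 0
  rw [hind.nhds_eq_comap y]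
  infer_instance

/-- Near `y` every point `y'` is `y.g` with `g = (D y)⁻¹ D y'`.

Proof. Both maps `y' ↦ ac D y ((D y)⁻¹ * D y')` and `id` are continuous at `y` with value `y`
(`ac_one`; `continuousOn_ac`, `isOpen_St`, `continuous_D`), and have the same image under `D` near
`y` (`D_ac'`: `(g - 1) ∈ St D y` and small). `D` is locally injective at `y`
(`Dh D` is locally injective at `(y,0)`). -/
theorem ac_eq_near (hD : IsLocalHomeomorph (Dh D)) (y : E) :
    ∀ᶠ y' in 𝓝 y, (((D y)⁻¹ * D y' : SL) : M2) - 1 ∈ St D y ∧ ac D y ((D y)⁻¹ * D y') = y' := by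
  have h := b5_main hD y
  have hc : ContinuousAt (fun y' : E => (y, y')) y :=
    (continuous_const.prodMk continuous_id).continuousAt
  exact hc.eventually h

/-- A point `y'` near `y` seen from all points `z` near `y`: for `z, y'` near `y`,
`ac D z ((D z)⁻¹ * D y') = y'`.

Proof. `(z, y') ↦ ac D z ((D z)⁻¹ D y')` is continuous at `(y,y)` with value `y`
(`continuousOn_ac`, the condition `(D z)⁻¹ D y' - 1 ∈ St D z` is open by `isOpen_StGraph`), same
image under `D` as `y'`, local injectivity of `D` at `y`. -/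
theorem ac_eq_near' (hD : IsLocalHomeomorph (Dh D)) (y : E) :
    ∀ᶠ p : E × E in 𝓝 (y, y), (((D p.1)⁻¹ * D p.2 : SL) : M2) - 1 ∈ St D p.1 ∧
      ac D p.1 ((D p.1)⁻¹ * D p.2) = p.2 := by
  exact b5_main hD y

/-- `z.g` for `z` near `y` and `g` near `g₀`, where `g₀ - 1 ∈ St D y`: joint continuity. Proof.
`continuousOn_ac` and openness. -/
theorem continuousAt_ac (hD : IsLocalHomeomorph (Dh D)) {y : E} {g : SL}
    (hg : (g : M2) - 1 ∈ St D y) : ContinuousAt (fun q : E × SL => ac D q.1 q.2) (y, g) := by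
  exact b5_continuousAt hD hg

end HRK
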