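import Pool.Agent.HRK.Defs2
import Pool.Agent.HRK.B3

/-!
# HRK-B6 : equivariance and change of frames
-/

namespace HRK

open Set Filter Topology Matrix

variable {E : Type*} [TopologicalSpace E] [T2Space E] {D : E → SL}

/-- `M ↦ A M B⁻¹`. -/
def b6_L (A B : SL) : M2 →ₗ[ℝ] M2 where
  toFun M := (A : M2) * M * ((B⁻¹ : SL) : M2)
  map_add' M N := by rw [mul_add, add_mul]
  map_smul' r M := by
    rw [mul_smul_comm, smul_mul_assoc]
    rfl

/-- right multiplication by `k⁻¹`. -/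
def b6_R (k : SL) : M2 ≃ₜ M2 where
  toFun M := M * ((k⁻¹ : SL) : M2)
  invFun M := M * (k : M2)
  left_inv M := by
    show M * ((k⁻¹ : SL) : M2) * (k : M2) = M
    rw [mul_assoc, coe_inv_mul, mul_one]
  right_inv M := by
    show M * (k : M2) * ((k⁻¹ : SL) : M2) = M
    rw [mul_assoc, coe_mul_inv, mul_one]
  continuous_toFun := continuous_id.mul continuous_const
  continuous_invFun := continuous_id.mul continuous_const

omit [TopologicalSpace E] [T2Space E] in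
theorem b6_Dh (k : SL) (p : E × ℂ) :
    Dh (fun y => D y * k⁻¹) p = Dh D p * ((k⁻¹ : SL) : M2) := by
  show Complex.exp p.2 • ((D p.1 : M2) * ((k⁻¹ : SL) : M2)) = Complex.exp p.2 • (D p.1 : M2) * _
  rw [smul_mul_assoc]

theorem b6_cj_inv (k : SL) (X : M2) : cj k⁻¹ X = ((k⁻¹ : SL) : M2) * X * (k : M2) := by
  unfold cj
  rw [inv_inv]

theorem b6_cj_coe (k g : SL) : cj k⁻¹ ((g : M2) - 1) = ((k⁻¹ * g * k : SL) : M2) - 1 := by
  rw [cj_sub, cj_one, cj_coe, inv_inv]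

omit [T2Space E] in
theorem b6_lift (k : SL) {y : E} {X : M2} {c : ℝ → E × ℂ} :
    IsLift (Dh (fun y => D y * k⁻¹)) (y, 0) (((D y * k⁻¹ : SL) : M2) * X) c ↔
      IsLift (Dh D) (y, 0) ((D y : M2) * cj k⁻¹ X) c := by
  have hv : ((D y * k⁻¹ : SL) : M2) * X = ((D y : M2) * cj k⁻¹ X) * ((k⁻¹ : SL) : M2) := by
    rw [b6_cj_inv, Matrix.SpecialLinearGroup.coe_mul]
    simp only [mul_assoc]
    rw [coe_mul_inv, mul_one]
  unfold IsLift
  rw [hv]
  refine and_congr Iff.rfl (and_congr Iff.rfl (forall_congr' fun t => forall_congr' fun ht => ?_))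
  rw [b6_Dh, b6_Dh, ← smul_mul_assoc, ← add_mul]
  constructor
  · intro h
    have h1 := congrArg (fun M : M2 => M * (k : M2)) h
    simp only [mul_assoc] at h1
    rw [coe_inv_mul, mul_one, mul_one] at h1
    exact h1
  · intro h
    rw [h]

/-- Equivariance.

Proof. `ext_equiv` (A4) for `Dh D` on `E × ℂ`, the map `(y,z) ↦ (T y, z)` and the linear map
`M ↦ A M B⁻¹`: `Dh D (T y, z) = A (Dh D (y,z)) B⁻¹`, and
`A (D y X) B⁻¹ = D(T y) (B X B⁻¹)`. -/
theorem mvp_equiv (hD : IsLocalHomeomorph (Dh D)) {T : E → E} (hT : Continuous T) {A B : SL}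
    (hTD : ∀ y, D (T y) = A * D y * B⁻¹) {y : E} {X : M2} (hX : X ∈ St D y) :
    cj B X ∈ St D (T y) ∧ mvp D (T y) (cj B X) = T (mvp D y X) := by
  have h := ext_equiv hD (T := fun p : E × ℂ => (T p.1, p.2)) (by fun_prop) (L := b6_L A B) (by
      intro p
      show Complex.exp p.2 • (D (T p.1) : M2) = (A : M2) * (Complex.exp p.2 • (D p.1 : M2)) *
        ((B⁻¹ : SL) : M2)
      rw [hTD, Matrix.SpecialLinearGroup.coe_mul, Matrix.SpecialLinearGroup.coe_mul, mul_smul_comm,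
        smul_mul_assoc]) hX
  have e : (b6_L A B) ((D y : M2) * X) = (D (T y) : M2) * cj B X := by
    show (A : M2) * ((D y : M2) * X) * ((B⁻¹ : SL) : M2) = _
    rw [hTD, Matrix.SpecialLinearGroup.coe_mul, Matrix.SpecialLinearGroup.coe_mul]
    unfold cj
    have e1 : (A : M2) * (D y : M2) * ((B⁻¹ : SL) : M2) * ((B : M2) * X * ((B⁻¹ : SL) : M2)) =
        (A : M2) * (D y : M2) * (((B⁻¹ : SL) : M2) * (B : M2)) * X * ((B⁻¹ : SL) : M2) := by
      simp only [mul_assoc]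
    rw [e1, coe_inv_mul, mul_one]
    simp only [mul_assoc]
  rw [e] at h
  refine ⟨h.1, ?_⟩
  exact congrArg Prod.fst h.2

theorem ac_equiv (hD : IsLocalHomeomorph (Dh D)) {T : E → E} (hT : Continuous T) {A B : SL}
    (hTD : ∀ y, D (T y) = A * D y * B⁻¹) {y : E} {g : SL} (hX : (g : M2) - 1 ∈ St D y) :
    ac D (T y) (B * g * B⁻¹) = T (ac D y g) := by
  have h := (mvp_equiv hD hT hTD hX).2
  have e : cj B ((g : M2) - 1) = ((B * g * B⁻¹ : SL) : M2) - 1 := by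
    rw [cj_sub, cj_one, cj_coe]
  rw [e] at h
  exact h

/-! ### change of frame: `D' y = D y * k⁻¹` -/

/-- Proof. `Dh D' = (· * k⁻¹) ∘ Dh D`, and right multiplication by `k⁻¹` is a homeomorphism of
`M₂`. -/
theorem isLocalHomeomorph_conj (hD : IsLocalHomeomorph (Dh D)) (k : SL) :
    IsLocalHomeomorph (Dh (fun y => D y * k⁻¹)) := by
  have h := (b6_R k).isLocalHomeomorph.comp hD
  have e : Dh (fun y => D y * k⁻¹) = (b6_R k) ∘ Dh D := by
    funext p
    exact b6_Dh k p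
  rw [e]
  exact h

/-- Proof. A curve `c` in `E × ℂ` is a lift of `D(y)(1 + s X)` for `Dh D` iff it is a lift of
`D(y)(1+sX)k⁻¹ = D'(y)(1 + s k X k⁻¹)` for `Dh D'`. -/
theorem mem_St_conj (k : SL) {y : E} {X : M2} :
    X ∈ St (fun y => D y * k⁻¹) y ↔ cj k⁻¹ X ∈ St D y := by
  constructor
  · rintro ⟨c, hc⟩
    exact ⟨c, (b6_lift k).1 hc⟩
  · rintro ⟨c, hc⟩
    exact ⟨c, (b6_lift k).2 hc⟩

theorem exh_conj (hD : IsLocalHomeomorph (Dh D)) (k : SL) {y : E} {X : M2}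
    (hX : cj k⁻¹ X ∈ St D y) : exh (fun y => D y * k⁻¹) y X = exh D y (cj k⁻¹ X) := by
  obtain ⟨c, hc⟩ := hX
  have h1 := hc.ext_eq hD 1 ⟨zero_le_one, le_rfl⟩
  have h2 := ((b6_lift k).2 hc).ext_eq (isLocalHomeomorph_conj hD k) 1 ⟨zero_le_one, le_rfl⟩
  rw [one_smul] at h1 h2
  exact h2.2.symm.trans h1.2

theorem mvp_conj (hD : IsLocalHomeomorph (Dh D)) (k : SL) {y : E} {X : M2}
    (hX : cj k⁻¹ X ∈ St D y) : mvp (fun y => D y * k⁻¹) y X = mvp D y (cj k⁻¹ X) := by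
  unfold mvp
  rw [exh_conj hD k hX]

theorem ac_conj (hD : IsLocalHomeomorph (Dh D)) (k : SL) {y : E} {g : SL}
    (hX : cj k⁻¹ ((g : M2) - 1) ∈ St D y) :
    ac (fun y => D y * k⁻¹) y g = ac D y (k⁻¹ * g * k) := by
  unfold ac
  rw [mvp_conj hD k hX, b6_cj_coe]

/-- `eD` in the new frame. Proof. `t • nn ψ ∈ St D' y ↔ t • nn (k⁻¹ ψ) ∈ St D y`. -/
theorem eD_conj (k : SL) (y : E) (ψ : V) :
    eD (fun y => D y * k⁻¹) y ψ = eD D y (((k⁻¹ : SL) : M2) *ᵥ ψ) := by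
  unfold eD
  congr 1
  ext ρ
  refine and_congr Iff.rfl (forall_congr' fun t => forall_congr' fun _ => ?_)
  rw [mem_St_conj, cj_smul, cj_nn]

theorem mD_conj (k k' : SL) (y : E) : mD (fun y => D y * k⁻¹) y k' = mD D y (k' * k) := by
  unfold mD
  congr 1
  refine Set.image_congr fun ψ _ => ?_
  rw [eD_conj, Matrix.mulVec_mulVec, _root_.mul_inv_rev, Matrix.SpecialLinearGroup.coe_mul]

theorem vD_conj (k k' : SL) (y : E) : vD (fun y => D y * k⁻¹) y k' = vD D y (k' * k) := by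
  unfold vD
  rw [mD_conj]

theorem FB_conj (k k' : SL) (y : E) (r : ℝ) :
    FB (fun y => D y * k⁻¹) y k' r ↔ FB D y (k' * k) r := by
  unfold FB
  constructor
  · intro h X hX
    have h1 := h (cj k X) (by rwa [cj_cj])
    rw [mem_St_conj, cj_cj, inv_mul_cancel, one_cj] at h1
    exact h1
  · intro h X hX
    rw [mem_St_conj]
    apply h
    rw [cj_cj, mul_assoc, mul_inv_cancel, mul_one]
    exact hX

end HRK
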