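import Pool.Agent.HRK.N3
import Pool.Agent.HRK.B6

/-!
# HRK-Cj : change of frame of a `Geo` structure
-/

namespace HRK

open Set Filter Topology Matrix

variable {E : Type*} [TopologicalSpace E] [T2Space E] {r0 L : ℝ}

/-- Proof. Frames of `fcj k0 (J y)` are `k k0⁻¹`, `k` a frame of `J y` (`Fr.of_conj`); `mem_St_conj`
and `nm (cj (k k0) (cj k0⁻¹ X)) = nm (cj k X)`. -/
theorem conj_slab (G : Geo E r0 L) (k0 : SL) (y : E) (k : SL) (hk : Fr (fcj k0 (G.J y)) k)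
    (X : M2) (hX : nm (cj k X) < r0) : X ∈ St (fun y => G.D y * k0⁻¹) y := by
  rw [mem_St_conj]
  apply G.slab y (k * k0) hk.of_conj
  rwa [cj_cj, mul_inv_cancel_right]

theorem Cj_coe_inv_sub (k0 g : SL) :
    ((k0⁻¹ * g * k0 : SL) : M2) - 1 = cj k0⁻¹ ((g : M2) - 1) := by
  rw [cj_sub, cj_one, cj_coe, inv_inv]

/-- Proof. `ac_conj` (the hypothesis is `conj_slab`), `fcj_fcj`, `G.lip` for the frame `k k0`. -/
theorem conj_lip (G : Geo E r0 L) (k0 : SL) (y : E) (k : SL) (hk : Fr (fcj k0 (G.J y)) k)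
    (g : SL) (hg : nm (cj k ((g : M2) - 1)) < r0) :
    nm (fcj k (fcj k0 (G.J (ac (fun y => G.D y * k0⁻¹) y g))) - 1) ≤
      L * nm (cj k ((g : M2) - 1)) := by
  have h1 : cj k0⁻¹ ((g : M2) - 1) ∈ St G.D y := by
    have := conj_slab G k0 y k hk _ hg
    rwa [mem_St_conj] at this
  have h2 : cj (k * k0) (((k0⁻¹ * g * k0 : SL) : M2) - 1) = cj k ((g : M2) - 1) := by
    rw [Cj_coe_inv_sub, cj_cj, mul_inv_cancel_right]
  rw [ac_conj G.hD k0 h1, fcj_fcj]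
  have h3 := G.lip y (k * k0) hk.of_conj (k0⁻¹ * g * k0) (by rw [h2]; exact hg)
  rwa [h2] at h3

/-- the structure seen in the frame `k0`. -/
noncomputable def Geo.conj (G : Geo E r0 L) (k0 : SL) : Geo E r0 L where
  D := fun y => G.D y * k0⁻¹
  hD := isLocalHomeomorph_conj G.hD k0
  J := fun y => fcj k0 (G.J y)
  form := fun y => by
    obtain ⟨k, hk⟩ := G.form y
    exact ⟨k * k0⁻¹, hk.conj k0⟩
  slab := conj_slab G k0
  lip := conj_lip G k0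

/-- Proof. `ac_conj`, `hf_fcj`, `qP_cj`-type identities: for `ψ' = k0 ψ`, `P' = cj k0 P`,
`qP P' ψ' = qP P ψ`, `P' ψ' = k0 (P ψ)`. -/
theorem SVis_conj (G : Geo E r0 L) (k0 : SL) (y : E) (ψ : V) (P : M2) (C : ℝ) :
    SVis (G.conj k0) y ((k0 : M2) *ᵥ ψ) (cj k0 P) C ↔ SVis G y ψ P C := by
  have hq : qP (cj k0 P) ((k0 : M2) *ᵥ ψ) = qP P ψ := by
    unfold qP
    rw [← cj_nn, ← cj_mul, trace_cj]
  have hP : cj k0 P *ᵥ ((k0 : M2) *ᵥ ψ) = (k0 : M2) *ᵥ (P *ᵥ ψ) := by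
    unfold cj
    rw [Matrix.mulVec_mulVec, Matrix.mulVec_mulVec, Matrix.mul_assoc, Matrix.mul_assoc,
      coe_inv_mul, Matrix.mul_one]
  have hn : ∀ c : ℂ, cj k0⁻¹ (c • nn ((k0 : M2) *ᵥ ψ)) = c • nn ψ := by
    intro c
    rw [cj_smul, ← cj_nn, cj_cj, inv_mul_cancel, one_cj]
  have hu : ∀ c : ℂ, k0⁻¹ * uni c ((k0 : M2) *ᵥ ψ) * k0 = uni c ψ := by
    intro c
    apply Subtype.ext
    have h1 := cj_coe k0⁻¹ (uni c ((k0 : M2) *ᵥ ψ))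
    rw [inv_inv] at h1
    rw [← h1]
    show cj k0⁻¹ (1 + c • nn ((k0 : M2) *ᵥ ψ)) = 1 + c • nn ψ
    rw [cj_add, cj_one, hn]
  unfold SVis
  rw [hq]
  refine and_congr_right fun _ => forall₂_congr fun s _ => ?_
  have hmem : (-(s : ℂ) / qP P ψ) • nn ((k0 : M2) *ᵥ ψ) ∈ St (G.conj k0).D y ↔
      (-(s : ℂ) / qP P ψ) • nn ψ ∈ St G.D y := by
    show (-(s : ℂ) / qP P ψ) • nn ((k0 : M2) *ᵥ ψ) ∈ St (fun y => G.D y * k0⁻¹) y ↔ _
    rw [mem_St_conj, hn]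
  rw [hmem]
  refine and_congr_right fun hm => ?_
  have hac : ac (G.conj k0).D y (uni (-(s : ℂ) / qP P ψ) ((k0 : M2) *ᵥ ψ)) =
      ac G.D y (uni (-(s : ℂ) / qP P ψ) ψ) := by
    show ac (fun y => G.D y * k0⁻¹) y (uni (-(s : ℂ) / qP P ψ) ((k0 : M2) *ᵥ ψ)) = _
    rw [ac_conj G.hD k0, hu]
    have h1 : ((uni (-(s : ℂ) / qP P ψ) ((k0 : M2) *ᵥ ψ) : SL) : M2) - 1 =
        (-(s : ℂ) / qP P ψ) • nn ((k0 : M2) *ᵥ ψ) := by
      show 1 + (-(s : ℂ) / qP P ψ) • nn ((k0 : M2) *ᵥ ψ) - 1 = _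
      rw [add_sub_cancel_left]
    rw [h1, hn]
    exact hm
  rw [hac, hP]
  show hf (fcj k0 (G.J _)) _ ≤ C ^ 2 * (1 - s) ^ 2 * hf (fcj k0 (G.J _)) _ ↔ _
  rw [hf_fcj, hf_fcj]

end HRK
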