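import Pool.Agent.HRK.B4

/-!
# HRK-CovA : path lifting from uniform free balls
-/

namespace HRK

open Set Filter Topology Matrix

variable {E : Type*} [TopologicalSpace E] [T2Space E] {D : E → SL}

/-- One step: a path `p` on `[a, b]` with `|p(a)⁻¹ p(t) - 1| < r` lifts from any `y` over `p(a)`:
`c t = ac D y ((p a)⁻¹ * p t)` (`D_ac` with `k = 1`, `continuousOn_ac`/`continuousOn_mvp_right`,
`ac_one`, `one_cj`). -/
theorem lift_step (hD : IsLocalHomeomorph (Dh D)) {r : ℝ} (hr : r ≤ 1 / 2)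
    {y : E} (hFB : FB D y 1 r) {p : ℝ → SL} {a b : ℝ} (hp : ContinuousOn p (Icc a b))
    (ha : p a = D y)
    (hs : ∀ t ∈ Icc a b, nm ((((p a)⁻¹ * p t : SL) : M2) - 1) < r) :
    ∃ c : ℝ → E, ContinuousOn c (Icc a b) ∧ c a = y ∧ ∀ t ∈ Icc a b, D (c t) = p t := by
  have hs' : ∀ t ∈ Icc a b, nm (cj 1 ((((p a)⁻¹ * p t : SL) : M2) - 1)) < r := by
    intro t ht
    rw [one_cj]
    exact hs t ht
  refine ⟨fun t => ac D y ((p a)⁻¹ * p t), ?_, ?_, ?_⟩
  · have h1 : ContinuousOn (fun t => ((y, (p a)⁻¹ * p t) : E × SL)) (Icc a b) :=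
      continuousOn_const.prodMk (continuousOn_const.mul hp)
    exact (continuousOn_ac hD).comp h1 (fun t ht => hFB _ (hs' t ht))
  · show ac D y ((p a)⁻¹ * p a) = y
    rw [inv_mul_cancel]
    exact ac_one hD y
  · intro t ht
    show D (ac D y ((p a)⁻¹ * p t)) = p t
    rw [D_ac hD hr hFB (hs' t ht), ← ha, mul_inv_cancel_left]

/-- Path lifting. Proof. `(s, t) ↦ |p(s)⁻¹ p(t) - 1|` is continuous on the compact square, zero on
the diagonal: there is `n` with `|p(s)⁻¹ p(t) - 1| < r` for `|s - t| ≤ 1/n`. Induction over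
`j ≤ n`: a lift on `[0, j/n]`; extend it by `lift_step` on `[j/n, (j+1)/n]`
(`ContinuousOn.if` / gluing at `j/n`). -/
theorem lift_path (hD : IsLocalHomeomorph (Dh D)) {r : ℝ} (hr0 : 0 < r) (hr : r ≤ 1 / 2)
    (hFB : ∀ y, FB D y 1 r) {y : E} {p : ℝ → SL} (hp : ContinuousOn p (Icc 0 1))
    (h0 : p 0 = D y) :
    ∃ c : ℝ → E, ContinuousOn c (Icc 0 1) ∧ c 0 = y ∧ ∀ t ∈ Icc (0:ℝ) 1, D (c t) = p t := by
  classical
  have hF : ContinuousOn (fun q : ℝ × ℝ => nm ((((p q.1)⁻¹ * p q.2 : SL) : M2) - 1))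
      (Icc (0:ℝ) 1 ×ˢ Icc (0:ℝ) 1) := by
    have h1 : ContinuousOn (fun q : ℝ × ℝ => p q.1) (Icc (0:ℝ) 1 ×ˢ Icc (0:ℝ) 1) :=
      hp.comp continuousOn_fst (fun q hq => hq.1)
    have h2 : ContinuousOn (fun q : ℝ × ℝ => p q.2) (Icc (0:ℝ) 1 ×ˢ Icc (0:ℝ) 1) :=
      hp.comp continuousOn_snd (fun q hq => hq.2)
    have h3 : ContinuousOn (fun q : ℝ × ℝ => (p q.1)⁻¹ * p q.2)
        (Icc (0:ℝ) 1 ×ˢ Icc (0:ℝ) 1) := h1.inv.mul h2
    have h4 : Continuous (fun g : SL => nm ((g : M2) - 1)) :=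
      continuous_nm.comp (continuous_subtype_val.sub continuous_const)
    exact h4.comp_continuousOn h3
  have hU := (isCompact_Icc.prod isCompact_Icc).uniformContinuousOn_of_continuous hF
  rw [Metric.uniformContinuousOn_iff] at hU
  obtain ⟨δ, hδ, hU⟩ := hU r hr0
  have hclose : ∀ s ∈ Icc (0:ℝ) 1, ∀ t ∈ Icc (0:ℝ) 1, |t - s| < δ →
      nm ((((p s)⁻¹ * p t : SL) : M2) - 1) < r := by
    intro s hs t ht hst
    have h1 := hU (s, t) ⟨hs, ht⟩ (s, s) ⟨hs, hs⟩ (by
      rw [Prod.dist_eq]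
      simp only [dist_self]
      rw [Real.dist_eq]
      exact max_lt hδ hst)
    have h2 : nm ((((p s)⁻¹ * p s : SL) : M2) - 1) = 0 := by
      rw [inv_mul_cancel, Matrix.SpecialLinearGroup.coe_one, sub_self]
      exact nm_zero
    rw [Real.dist_eq] at h1
    simp only at h1
    rw [h2, sub_zero] at h1
    exact (le_abs_self _).trans_lt h1
  obtain ⟨n, hn⟩ := exists_nat_one_div_lt hδ
  have hn0 : (0:ℝ) < (n:ℝ) + 1 := by positivity
  have key : ∀ j : ℕ, j ≤ n + 1 → ∃ c : ℝ → E, ContinuousOn c (Icc 0 ((j:ℝ) / (n + 1))) ∧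
      c 0 = y ∧ ∀ t ∈ Icc (0:ℝ) ((j:ℝ) / (n + 1)), D (c t) = p t := by
    intro j
    induction j with
    | zero =>
      intro _
      refine ⟨fun _ => y, continuousOn_const, rfl, ?_⟩
      intro t ht
      rw [Nat.cast_zero, zero_div] at ht
      have : t = 0 := le_antisymm ht.2 ht.1
      rw [this, h0]
    | succ j ih =>
      intro hj
      obtain ⟨c, hc, hc0, hcD⟩ := ih (by omega)
      set a : ℝ := (j:ℝ) / (n + 1) with ha
      set b : ℝ := ((j + 1 : ℕ) : ℝ) / (n + 1) with hb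
      have ha0 : 0 ≤ a := by positivity
      have hab : b = a + 1 / ((n:ℝ) + 1) := by
        rw [ha, hb]
        push_cast
        ring
      have hab' : a ≤ b := by
        rw [hab]
        have : 0 < 1 / ((n:ℝ) + 1) := by positivity
        linarith
      have hb1 : b ≤ 1 := by
        rw [hb, div_le_one hn0]
        exact_mod_cast hj
      have hsub : Icc a b ⊆ Icc (0:ℝ) 1 := Icc_subset_Icc ha0 hb1
      have haI : a ∈ Icc a b := ⟨le_refl a, hab'⟩
      obtain ⟨c', hc', hc'0, hc'D⟩ := lift_step hD hr (hFB (c a)) (hp.mono hsub)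
        (hcD a ⟨ha0, le_refl a⟩).symm (fun t ht => hclose a (hsub haI) t (hsub ht) (by
          rw [abs_of_nonneg (by linarith [ht.1])]
          have := ht.2
          linarith))
      refine ⟨fun t => if t ≤ a then c t else c' t, ?_, ?_, ?_⟩
      · have hu : Icc (0:ℝ) b = Icc 0 a ∪ Icc a b := (Icc_union_Icc_eq_Icc ha0 hab').symm
        rw [hu]
        apply ContinuousOn.union_of_isClosed _ _ isClosed_Icc isClosed_Icc
        · apply hc.congr
          intro t ht
          exact if_pos ht.2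
        · apply hc'.congr
          intro t ht
          show (if t ≤ a then c t else c' t) = c' t
          by_cases hta : t ≤ a
          · rw [if_pos hta]
            have : t = a := le_antisymm hta ht.1
            rw [this, hc'0]
          · rw [if_neg hta]
      · show (if (0:ℝ) ≤ a then c 0 else c' 0) = y
        rw [if_pos ha0, hc0]
      · intro t ht
        show D (if t ≤ a then c t else c' t) = p t
        by_cases hta : t ≤ a
        · rw [if_pos hta]
          exact hcD t ⟨ht.1, hta⟩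
        · rw [if_neg hta]
          exact hc'D t ⟨(not_le.mp hta).le, ht.2⟩
  obtain ⟨c, hc, hc0, hcD⟩ := key (n + 1) le_rfl
  have h1 : (((n + 1 : ℕ) : ℝ)) / ((n:ℝ) + 1) = 1 := by
    push_cast
    exact div_self hn0.ne'
  rw [h1] at hc hcD
  exact ⟨c, hc, hc0, hcD⟩

end HRK
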