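import Pool.Agent.HRK.N1b

/-!
# HRK-N2 : algebra of `SL(2,ℂ)`, conjugations, nilpotent matrices
-/

namespace HRK

open Set Filter Topology Matrix

/-- inverse of an element of `SL(2,ℂ)`. -/
theorem coe_inv_eq (k : SL) : ((k⁻¹ : SL) : M2) = !![(k : M2) 1 1, -(k : M2) 0 1;
    -(k : M2) 1 0, (k : M2) 0 0] := by
  rw [Matrix.SpecialLinearGroup.coe_inv, Matrix.adjugate_fin_two]

theorem coe_mul_inv (k : SL) : (k : M2) * ((k⁻¹ : SL) : M2) = 1 := by
  rw [← Matrix.SpecialLinearGroup.coe_mul, mul_inv_cancel, Matrix.SpecialLinearGroup.coe_one]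

theorem coe_inv_mul (k : SL) : ((k⁻¹ : SL) : M2) * (k : M2) = 1 := by
  rw [← Matrix.SpecialLinearGroup.coe_mul, inv_mul_cancel, Matrix.SpecialLinearGroup.coe_one]

theorem cj_zero (k : SL) : cj k 0 = 0 := by
  simp [cj]

theorem cj_one (k : SL) : cj k 1 = 1 := by
  rw [cj, mul_one, coe_mul_inv]

theorem one_cj (X : M2) : cj 1 X = X := by
  rw [cj, inv_one, Matrix.SpecialLinearGroup.coe_one, one_mul, mul_one]

theorem cj_add (k : SL) (X Y : M2) : cj k (X + Y) = cj k X + cj k Y := by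
  rw [cj, cj, cj, mul_add, add_mul]

theorem cj_sub (k : SL) (X Y : M2) : cj k (X - Y) = cj k X - cj k Y := by
  rw [cj, cj, cj, mul_sub, sub_mul]

theorem cj_smul (k : SL) (c : ℂ) (X : M2) : cj k (c • X) = c • cj k X := by
  rw [cj, cj, Matrix.mul_smul, Matrix.smul_mul]

theorem cj_real_smul (k : SL) (c : ℝ) (X : M2) : cj k (c • X) = c • cj k X := by
  rw [cj, cj, Matrix.mul_smul, Matrix.smul_mul]

theorem cj_mul (k : SL) (X Y : M2) : cj k (X * Y) = cj k X * cj k Y := by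
  have h : ((k⁻¹ : SL) : M2) * ((k : M2) * Y * ((k⁻¹ : SL) : M2)) =
      Y * ((k⁻¹ : SL) : M2) := by
    rw [← mul_assoc, ← mul_assoc, coe_inv_mul, one_mul]
  rw [cj, cj, cj, mul_assoc ((k : M2) * X), h, ← mul_assoc, ← mul_assoc]

theorem cj_cj (k k' : SL) (X : M2) : cj k (cj k' X) = cj (k * k') X := by
  rw [cj, cj, cj, _root_.mul_inv_rev, Matrix.SpecialLinearGroup.coe_mul,
    Matrix.SpecialLinearGroup.coe_mul]
  simp only [mul_assoc]

theorem cj_coe (k g : SL) : cj k (g : M2) = ((k * g * k⁻¹ : SL) : M2) := by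
  rw [cj, Matrix.SpecialLinearGroup.coe_mul, Matrix.SpecialLinearGroup.coe_mul]

theorem trace_cj (k : SL) (X : M2) : (cj k X).trace = X.trace := by
  rw [cj, Matrix.trace_mul_comm, ← mul_assoc, coe_inv_mul, one_mul]

theorem det_cj (k : SL) (X : M2) : (cj k X).det = X.det := by
  rw [cj, Matrix.det_mul, Matrix.det_mul, Matrix.SpecialLinearGroup.det_coe,
    Matrix.SpecialLinearGroup.det_coe, one_mul, mul_one]

theorem n2_continuous_coe : Continuous fun k : SL => (k : M2) := continuous_subtype_val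

theorem n2_continuous_coe_inv : Continuous fun k : SL => ((k⁻¹ : SL) : M2) := by
  have h : (fun k : SL => ((k⁻¹ : SL) : M2)) = fun k : SL => ((k : M2)).adjugate := by
    funext k
    rw [Matrix.SpecialLinearGroup.coe_inv]
  rw [h]
  exact n2_continuous_coe.matrix_adjugate

theorem continuous_cj (k : SL) : Continuous (cj k) := by
  unfold cj
  exact (continuous_const.matrix_mul continuous_id).matrix_mul continuous_const

/-- joint continuity. -/
theorem continuous_cj' : Continuous fun p : SL × M2 => cj p.1 p.2 := by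
  unfold cj
  exact ((n2_continuous_coe.comp continuous_fst).matrix_mul continuous_snd).matrix_mul
    (n2_continuous_coe_inv.comp continuous_fst)

theorem n2_det (k : SL) : (k : M2) 0 0 * (k : M2) 1 1 - (k : M2) 0 1 * (k : M2) 1 0 = 1 := by
  have h := k.det_coe
  rwa [Matrix.det_fin_two] at h

theorem n2_ext {A B : M2} (h00 : A 0 0 = B 0 0) (h01 : A 0 1 = B 0 1) (h10 : A 1 0 = B 1 0)
    (h11 : A 1 1 = B 1 1) : A = B := by
  ext i j
  fin_cases i <;> fin_cases j <;> assumption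

theorem n2_mul (A B : M2) (i j : Fin 2) : (A * B) i j = A i 0 * B 0 j + A i 1 * B 1 j := by
  rw [Matrix.mul_apply, Fin.sum_univ_two]

theorem n2_mulVec (A : M2) (v : V) (i : Fin 2) : (A *ᵥ v) i = A i 0 * v 0 + A i 1 * v 1 := by
  rw [Matrix.mulVec, dotProduct, Fin.sum_univ_two]

theorem n2_nn00 (ψ : V) : nn ψ 0 0 = -(ψ 0 * ψ 1) := rfl
theorem n2_nn01 (ψ : V) : nn ψ 0 1 = ψ 0 ^ 2 := rfl
theorem n2_nn10 (ψ : V) : nn ψ 1 0 = -(ψ 1 ^ 2) := rfl
theorem n2_nn11 (ψ : V) : nn ψ 1 1 = ψ 0 * ψ 1 := rfl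

theorem n2_inv00 (k : SL) : ((k⁻¹ : SL) : M2) 0 0 = (k : M2) 1 1 := by
  rw [coe_inv_eq]; rfl
theorem n2_inv01 (k : SL) : ((k⁻¹ : SL) : M2) 0 1 = -(k : M2) 0 1 := by
  rw [coe_inv_eq]; rfl
theorem n2_inv10 (k : SL) : ((k⁻¹ : SL) : M2) 1 0 = -(k : M2) 1 0 := by
  rw [coe_inv_eq]; rfl
theorem n2_inv11 (k : SL) : ((k⁻¹ : SL) : M2) 1 1 = (k : M2) 0 0 := by
  rw [coe_inv_eq]; rfl

/-- `n(k ψ) = k n(ψ) k⁻¹`. Proof. Compute the entries, use `det k = 1`. -/
theorem cj_nn (k : SL) (ψ : V) : cj k (nn ψ) = nn ((k : M2) *ᵥ ψ) := by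
  rw [cj]
  apply n2_ext
  · simp only [n2_mul, n2_nn00, n2_nn01, n2_nn10, n2_nn11, n2_inv00, n2_inv10, n2_mulVec]
    ring
  · simp only [n2_mul, n2_nn00, n2_nn01, n2_nn10, n2_nn11, n2_inv01, n2_inv11, n2_mulVec]
    ring
  · simp only [n2_mul, n2_nn00, n2_nn01, n2_nn10, n2_nn11, n2_inv00, n2_inv10, n2_mulVec]
    ring
  · simp only [n2_mul, n2_nn00, n2_nn01, n2_nn10, n2_nn11, n2_inv01, n2_inv11, n2_mulVec]
    ring

theorem nn_smul (c : ℂ) (ψ : V) : nn (c • ψ) = c ^ 2 • nn ψ := by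
  apply n2_ext <;>
    simp only [n2_nn00, n2_nn01, n2_nn10, n2_nn11, Matrix.smul_apply, Pi.smul_apply,
      smul_eq_mul] <;> ring

theorem nn_mul_self (ψ : V) : nn ψ * nn ψ = 0 := by
  apply n2_ext <;>
    simp only [n2_mul, n2_nn00, n2_nn01, n2_nn10, n2_nn11, Matrix.zero_apply] <;> ring

theorem nn_mulVec (ψ v : V) : nn ψ *ᵥ v = om ψ v • ψ := by
  ext i
  fin_cases i
  · show (nn ψ *ᵥ v) 0 = (om ψ v • ψ) 0
    rw [n2_mulVec, n2_nn00, n2_nn01, Pi.smul_apply, smul_eq_mul, om]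
    ring
  · show (nn ψ *ᵥ v) 1 = (om ψ v • ψ) 1
    rw [n2_mulVec, n2_nn10, n2_nn11, Pi.smul_apply, smul_eq_mul, om]
    ring

theorem nm_nn (ψ : V) : nm (nn ψ) = nsq ψ := by
  have h : fro (nn ψ) = nsq ψ ^ 2 := by
    rw [fro_eq, nsq_eq, n2_nn00, n2_nn01, n2_nn10, n2_nn11]
    simp only [Complex.normSq_neg, Complex.normSq_mul, pow_two]
    ring
  rw [nm, h, Real.sqrt_sq (nsq_nonneg ψ)]

theorem nn_e1 : nn e1 = !![0, 1; 0, 0] := by
  simp [nn, e1]

theorem trace_nn (ψ : V) : (nn ψ).trace = 0 := by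
  rw [Matrix.trace_fin_two, n2_nn00, n2_nn11]
  ring

theorem det_nn (ψ : V) : (nn ψ).det = 0 := by
  rw [Matrix.det_fin_two, n2_nn00, n2_nn01, n2_nn10, n2_nn11]
  ring

/-- the tensor `v ⊗ w^⊥`. -/
def n2_T (v w : V) : M2 := !![-(v 0 * w 1), v 0 * w 0; -(v 1 * w 1), v 1 * w 0]

theorem n2_nm_T (v w : V) : nm (n2_T v w) = vn v * vn w := by
  have h : fro (n2_T v w) = nsq v * nsq w := by
    rw [fro_eq, nsq_eq, nsq_eq]
    show Complex.normSq (-(v 0 * w 1)) + Complex.normSq (v 0 * w 0) +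
      Complex.normSq (-(v 1 * w 1)) + Complex.normSq (v 1 * w 0) = _
    simp only [Complex.normSq_neg, Complex.normSq_mul]
    ring
  rw [nm, h, Real.sqrt_mul (nsq_nonneg v), vn, vn]

/-- `|n(ψ) - n(φ)| ≤ (|ψ| + |φ|) |ψ - φ|` up to a factor. Proof. `n(ψ) = ψ ⊗ (-ψ₁, ψ₀)`, bilinear:
`n(ψ) - n(φ) = (ψ-φ) ⊗ ψ^⊥ + φ ⊗ (ψ-φ)^⊥`. -/
theorem nm_nn_sub_le (ψ φ : V) : nm (nn ψ - nn φ) ≤ (vn ψ + vn φ) * vn (ψ - φ) := by
  have h : nn ψ - nn φ = n2_T (ψ - φ) ψ + n2_T φ (ψ - φ) := by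
    apply n2_ext
    · show -(ψ 0 * ψ 1) - -(φ 0 * φ 1) = -((ψ 0 - φ 0) * ψ 1) + -(φ 0 * (ψ 1 - φ 1))
      ring
    · show ψ 0 ^ 2 - φ 0 ^ 2 = (ψ 0 - φ 0) * ψ 0 + φ 0 * (ψ 0 - φ 0)
      ring
    · show -(ψ 1 ^ 2) - -(φ 1 ^ 2) = -((ψ 1 - φ 1) * ψ 1) + -(φ 1 * (ψ 1 - φ 1))
      ring
    · show ψ 0 * ψ 1 - φ 0 * φ 1 = (ψ 1 - φ 1) * ψ 0 + φ 1 * (ψ 0 - φ 0)
      ring
  rw [h]
  refine (nm_add_le _ _).trans (le_of_eq ?_)
  rw [n2_nm_T, n2_nm_T]
  ring

theorem continuous_nn : Continuous nn := by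
  refine continuous_pi fun i => continuous_pi fun j => ?_
  have h0 : Continuous fun ψ : V => ψ 0 := continuous_apply 0
  have h1 : Continuous fun ψ : V => ψ 1 := continuous_apply 1
  fin_cases i <;> fin_cases j
  · exact (h0.mul h1).neg
  · exact h0.pow 2
  · exact (h1.pow 2).neg
  · exact h0.mul h1

theorem om_smul_left (c : ℂ) (v w : V) : om (c • v) w = c * om v w := by
  simp only [om, Pi.smul_apply, smul_eq_mul]
  ring

theorem om_smul_right (c : ℂ) (v w : V) : om v (c • w) = c * om v w := by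
  simp only [om, Pi.smul_apply, smul_eq_mul]
  ring

theorem om_self (v : V) : om v v = 0 := by
  simp only [om]
  ring

theorem om_mulVec (k : SL) (v w : V) : om ((k : M2) *ᵥ v) ((k : M2) *ᵥ w) = om v w := by
  simp only [om, n2_mulVec]
  linear_combination (v 0 * w 1 - v 1 * w 0) * n2_det k

/-- `ω(v,w) = 0` iff proportional. -/
theorem om_eq_zero {v w : V} (hv : v ≠ 0) : om v w = 0 ↔ ∃ c : ℂ, w = c • v := by
  constructor
  · intro h
    have h' : v 0 * w 1 = v 1 * w 0 := sub_eq_zero.mp h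
    by_cases h0 : v 0 = 0
    · have h1 : v 1 ≠ 0 := by
        intro h1
        apply hv
        ext i
        fin_cases i
        · exact h0
        · exact h1
      refine ⟨w 1 / v 1, ?_⟩
      ext i
      fin_cases i
      · show w 0 = w 1 / v 1 * v 0
        rw [h0, zero_mul] at h'
        rw [h0, mul_zero]
        rcases mul_eq_zero.mp h'.symm with h2 | h2
        · exact absurd h2 h1
        · exact h2
      · show w 1 = w 1 / v 1 * v 1
        rw [div_mul_cancel₀ _ h1]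
    · refine ⟨w 0 / v 0, ?_⟩
      ext i
      fin_cases i
      · show w 0 = w 0 / v 0 * v 0
        rw [div_mul_cancel₀ _ h0]
      · show w 1 = w 0 / v 0 * v 1
        rw [div_mul_eq_mul_div, eq_div_iff h0, mul_comm (w 1), h', mul_comm]
  · rintro ⟨c, rfl⟩
    rw [om_smul_right, om_self, mul_zero]

end HRK
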