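import Pool.Agent.HRK.N2

/-!
# HRK-N2b : unipotent and diagonal elements, norms of conjugates, topology of `SL(2,ℂ)`
-/

namespace HRK

open Set Filter Topology Matrix

theorem isEmbedding_coe : IsEmbedding (fun g : SL => (g : M2)) :=
  Topology.IsEmbedding.subtypeVal

theorem uni_coe (t : ℂ) (ψ : V) : ((uni t ψ : SL) : M2) = 1 + t • nn ψ := rfl

theorem uni_zero (ψ : V) : uni 0 ψ = 1 := by
  apply Subtype.ext
  change ((uni 0 ψ : SL) : M2) = ((1 : SL) : M2)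
  rw [uni_coe, zero_smul, add_zero, Matrix.SpecialLinearGroup.coe_one]

theorem uni_mul (s t : ℂ) (ψ : V) : uni s ψ * uni t ψ = uni (s + t) ψ := by
  apply Subtype.ext
  change ((uni s ψ * uni t ψ : SL) : M2) = ((uni (s+t) ψ : SL) : M2)
  rw [Matrix.SpecialLinearGroup.coe_mul, uni_coe, uni_coe, uni_coe, add_mul, mul_add, mul_add,
    mul_one, one_mul, mul_one, smul_mul_smul_comm, nn_mul_self, smul_zero, add_zero, add_smul]
  abel

theorem uni_inv (t : ℂ) (ψ : V) : (uni t ψ)⁻¹ = uni (-t) ψ := by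
  apply inv_eq_of_mul_eq_one_right
  rw [uni_mul, add_neg_cancel, uni_zero]

theorem uni_smul (t c : ℂ) (ψ : V) : uni t (c • ψ) = uni (t * c ^ 2) ψ := by
  apply Subtype.ext
  change ((uni t (c • ψ) : SL) : M2) = ((uni (t * c ^ 2) ψ : SL) : M2)
  rw [uni_coe, uni_coe, nn_smul, smul_smul]

theorem uni_conj (k : SL) (t : ℂ) (ψ : V) :
    k * uni t ψ * k⁻¹ = uni t ((k : M2) *ᵥ ψ) := by
  apply Subtype.ext
  change ((k * uni t ψ * k⁻¹ : SL) : M2) = ((uni t ((k : M2) *ᵥ ψ) : SL) : M2)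
  rw [← cj_coe, uni_coe, uni_coe, cj_add, cj_one, cj_smul, cj_nn]

theorem continuous_uni : Continuous fun p : ℂ × V => uni p.1 p.2 := by
  rw [isEmbedding_coe.continuous_iff]
  change Continuous fun p : ℂ × V => (1 + p.1 • nn p.2 : M2)
  exact continuous_const.add (continuous_fst.smul (continuous_nn.comp continuous_snd))

theorem n2b_dg_coe (s : ℝ) : ((dg s : SL) : M2) =
    !![(Real.exp (s / 2) : ℂ), 0; 0, (Real.exp (-(s / 2)) : ℂ)] := rfl

theorem dg_add (s t : ℝ) : dg s * dg t = dg (s + t) := by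
  apply Subtype.ext
  change ((dg s * dg t : SL) : M2) = ((dg (s+t) : SL) : M2)
  rw [Matrix.SpecialLinearGroup.coe_mul, n2b_dg_coe, n2b_dg_coe, n2b_dg_coe, Matrix.mul_fin_two]
  have h1 : (Real.exp (s / 2) : ℂ) * (Real.exp (t / 2) : ℂ) = (Real.exp ((s + t) / 2) : ℂ) := by
    rw [← Complex.ofReal_mul, ← Real.exp_add]; congr 2; ring
  have h2 : (Real.exp (-(s / 2)) : ℂ) * (Real.exp (-(t / 2)) : ℂ)
      = (Real.exp (-((s + t) / 2)) : ℂ) := by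
    rw [← Complex.ofReal_mul, ← Real.exp_add]; congr 2; ring
  rw [h1, h2]
  simp

theorem dg_zero : dg 0 = 1 := by
  apply Subtype.ext
  change ((dg 0 : SL) : M2) = ((1 : SL) : M2)
  rw [n2b_dg_coe, Matrix.SpecialLinearGroup.coe_one, Matrix.one_fin_two]
  simp

theorem dg_inv (s : ℝ) : (dg s)⁻¹ = dg (-s) := by
  apply inv_eq_of_mul_eq_one_right
  rw [dg_add, add_neg_cancel, dg_zero]

theorem continuous_dg : Continuous dg := by
  rw [isEmbedding_coe.continuous_iff]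
  change Continuous fun s : ℝ => !![(Real.exp (s / 2) : ℂ), 0; 0, (Real.exp (-(s / 2)) : ℂ)]
  apply continuous_matrix
  intro i j
  fin_cases i <;> fin_cases j <;> simp <;> fun_prop

/-- `nm k⁻¹ = nm k` for `k ∈ SL(2,ℂ)`. -/
theorem nm_inv (k : SL) : nm ((k⁻¹ : SL) : M2) = nm (k : M2) := by
  unfold nm
  congr 1
  rw [fro_eq, fro_eq, coe_inv_eq]
  simp [Complex.normSq_neg]
  ring

/-- `|g⁻¹ - 1| = |g - 1|` for `g ∈ SL(2,ℂ)`. Proof. `g⁻¹ - 1 = adj(g - 1)`. -/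
theorem nm_inv_sub_one (g : SL) : nm (((g⁻¹ : SL) : M2) - 1) = nm ((g : M2) - 1) := by
  unfold nm
  congr 1
  rw [fro_eq, fro_eq, coe_inv_eq]
  simp [Complex.normSq_neg, Matrix.sub_apply]
  ring

theorem nm_cj_inv_sub_one (k g : SL) : nm (cj k (((g⁻¹ : SL) : M2) - 1)) =
    nm (cj k ((g : M2) - 1)) := by
  rw [cj_sub, cj_sub, cj_one, cj_coe, cj_coe]
  have : k * g⁻¹ * k⁻¹ = (k * g * k⁻¹)⁻¹ := by group
  rw [this]
  exact nm_inv_sub_one _

/-- `|k X k⁻¹| ≤ |k|^2 |X|`. -/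
theorem nm_cj_le (k : SL) (X : M2) : nm (cj k X) ≤ nm (k : M2) ^ 2 * nm X := by
  unfold cj
  calc nm ((k : M2) * X * ((k⁻¹ : SL) : M2)) ≤ nm ((k : M2) * X) * nm ((k⁻¹ : SL) : M2) :=
        nm_mul_le _ _
    _ ≤ (nm (k : M2) * nm X) * nm ((k⁻¹ : SL) : M2) :=
        mul_le_mul_of_nonneg_right (nm_mul_le _ _) (nm_nonneg _)
    _ = nm (k : M2) ^ 2 * nm X := by rw [nm_inv]; ring

/-- `|k1 X k1⁻¹| ≤ (1 + 3 ε)|X|` type bound near `1`: if `|k1 - 1| ≤ ε ≤ 1` then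
`|k1 X k1⁻¹ - X| ≤ 3 ε |X|`.

Proof. `k1 X k1⁻¹ - X = (k1 - 1) X k1⁻¹ + X (k1⁻¹ - 1)`, `|k1⁻¹ - 1| = |k1 - 1| ≤ ε`, and
`|A k1⁻¹| ≤ |A| + |A||k1⁻¹ - 1| ≤ 2|A|`. -/
theorem nm_cj_sub_le {k1 : SL} {ε : ℝ} (hε : ε ≤ 1) (h : nm ((k1 : M2) - 1) ≤ ε) (X : M2) :
    nm (cj k1 X - X) ≤ 3 * ε * nm X := by
  have h0 : 0 ≤ ε := le_trans (nm_nonneg _) h
  have hX := nm_nonneg X
  have hi : nm (((k1⁻¹ : SL) : M2) - 1) ≤ ε := by rw [nm_inv_sub_one]; exact h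
  have e1 : cj k1 X - X = ((k1 : M2) - 1) * X * ((k1⁻¹ : SL) : M2)
      + X * (((k1⁻¹ : SL) : M2) - 1) := by
    unfold cj
    noncomm_ring
  have e2 : nm (((k1 : M2) - 1) * X) ≤ ε * nm X :=
    le_trans (nm_mul_le _ _) (mul_le_mul_of_nonneg_right h hX)
  have e3 : nm (((k1 : M2) - 1) * X * ((k1⁻¹ : SL) : M2)) ≤ 2 * (ε * nm X) := by
    have e4 : ((k1 : M2) - 1) * X * ((k1⁻¹ : SL) : M2)
        = ((k1 : M2) - 1) * X + (((k1 : M2) - 1) * X) * (((k1⁻¹ : SL) : M2) - 1) := by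
      noncomm_ring
    rw [e4]
    have e5 : nm ((((k1 : M2) - 1) * X) * (((k1⁻¹ : SL) : M2) - 1)) ≤ (ε * nm X) * 1 :=
      le_trans (nm_mul_le _ _) (mul_le_mul e2 (le_trans hi hε) (nm_nonneg _) (by positivity))
    have e6 := nm_add_le (((k1 : M2) - 1) * X) ((((k1 : M2) - 1) * X) * (((k1⁻¹ : SL) : M2) - 1))
    linarith
  have e7 : nm (X * (((k1⁻¹ : SL) : M2) - 1)) ≤ nm X * ε :=
    le_trans (nm_mul_le _ _) (mul_le_mul_of_nonneg_left hi hX)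
  rw [e1]
  have e8 := nm_add_le (((k1 : M2) - 1) * X * ((k1⁻¹ : SL) : M2)) (X * (((k1⁻¹ : SL) : M2) - 1))
  linarith

theorem n2b_IsU_inv_coe {u : SL} (hu : IsU u) : ((u⁻¹ : SL) : M2) = (u : M2)ᴴ := by
  have h1 : (u : M2)ᴴ * (u : M2) = 1 := hu
  calc ((u⁻¹ : SL) : M2) = ((u : M2)ᴴ * (u : M2)) * ((u⁻¹ : SL) : M2) := by rw [h1, one_mul]
    _ = (u : M2)ᴴ * ((u : M2) * ((u⁻¹ : SL) : M2)) := by rw [mul_assoc]
    _ = (u : M2)ᴴ := by rw [coe_mul_inv, mul_one]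

/-- invariance under unitary frames. -/
theorem nm_cj_unitary {u : SL} (hu : IsU u) (X : M2) : nm (cj u X) = nm X := by
  have h1 : (u : M2)ᴴ * (u : M2) = 1 := hu
  unfold nm
  congr 1
  rw [fro_eq_trace, fro_eq_trace]
  unfold cj
  rw [n2b_IsU_inv_coe hu]
  congr 1
  calc (((u : M2) * X * (u : M2)ᴴ)ᴴ * ((u : M2) * X * (u : M2)ᴴ)).trace
      = ((u : M2) * (Xᴴ * ((u : M2)ᴴ * (u : M2)) * X) * (u : M2)ᴴ).trace := by
        simp only [Matrix.conjTranspose_mul, Matrix.conjTranspose_conjTranspose, mul_assoc]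
    _ = ((u : M2) * (Xᴴ * X) * (u : M2)ᴴ).trace := by rw [h1, mul_one]
    _ = ((u : M2)ᴴ * ((u : M2) * (Xᴴ * X))).trace := by rw [Matrix.trace_mul_comm]
    _ = (Xᴴ * X).trace := by rw [← mul_assoc, h1, one_mul]

theorem nsq_mulVec_unitary {u : SL} (hu : IsU u) (v : V) : nsq ((u : M2) *ᵥ v) = nsq v := by
  have h1 : (u : M2)ᴴ * (u : M2) = 1 := hu
  have key : ∀ w : V, ((nsq w : ℝ) : ℂ) = star w ⬝ᵥ w := by
    intro w
    rw [nsq_eq]
    simp [dotProduct, Fin.sum_univ_two, Complex.normSq_eq_conj_mul_self]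
  have h2 : ((nsq ((u : M2) *ᵥ v) : ℝ) : ℂ) = ((nsq v : ℝ) : ℂ) := by
    rw [key, key, Matrix.star_mulVec, Matrix.dotProduct_mulVec, Matrix.vecMul_vecMul, h1,
      Matrix.vecMul_one]
  exact_mod_cast h2

theorem IsU_one : IsU 1 := by
  unfold IsU
  rw [Matrix.SpecialLinearGroup.coe_one, Matrix.conjTranspose_one, one_mul]

theorem IsU_mul {u u' : SL} (h : IsU u) (h' : IsU u') : IsU (u * u') := by
  have h1 : (u : M2)ᴴ * (u : M2) = 1 := h
  have h2 : (u' : M2)ᴴ * (u' : M2) = 1 := h'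
  unfold IsU
  rw [Matrix.SpecialLinearGroup.coe_mul, Matrix.conjTranspose_mul]
  calc (u' : M2)ᴴ * (u : M2)ᴴ * ((u : M2) * (u' : M2))
      = (u' : M2)ᴴ * ((u : M2)ᴴ * (u : M2)) * (u' : M2) := by simp only [mul_assoc]
    _ = 1 := by rw [h1, mul_one, h2]

theorem IsU_inv {u : SL} (h : IsU u) : IsU u⁻¹ := by
  unfold IsU
  rw [n2b_IsU_inv_coe h, Matrix.conjTranspose_conjTranspose, ← n2b_IsU_inv_coe h, coe_mul_inv]

/-- balls `{g | nm (g - 1) < r}` of `SL`, basis of neighbourhoods of `g0`. -/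
theorem exists_SL_ball {O : Set SL} {g₀ : SL} (hO : O ∈ 𝓝 g₀) :
    ∃ r > 0, ∀ g : SL, nm ((g : M2) - (g₀ : M2)) < r → g ∈ O := by
  rw [isEmbedding_coe.nhds_eq_comap, Filter.mem_comap] at hO
  obtain ⟨O', hO', hsub⟩ := hO
  obtain ⟨r, hr, h⟩ := exists_nm_ball' hO'
  exact ⟨r, hr, fun g hg => hsub (h _ hg)⟩

/-- closed balls of `SL` are compact. Proof. `SL` is closed in `M2` (`det = 1`). -/
theorem isCompact_SL_ball (g₀ : SL) (r : ℝ) :
    IsCompact {g : SL | nm ((g : M2) - (g₀ : M2)) ≤ r} := by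
  have hcl : IsClosed {X : M2 | X.det = 1} := by
    have hc : Continuous fun X : M2 => X.det := Continuous.matrix_det continuous_id
    exact isClosed_eq hc continuous_const
  have hce : IsClosedEmbedding (fun g : SL => (g : M2)) := by
    refine ⟨isEmbedding_coe, ?_⟩
    have : Set.range (fun g : SL => (g : M2)) = {X : M2 | X.det = 1} := by
      ext X
      constructor
      · rintro ⟨g, rfl⟩
        exact g.2
      · intro hX
        exact ⟨⟨X, hX⟩, rfl⟩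
    rw [this]
    exact hcl
  exact hce.isCompact_preimage (isCompact_nm_ball (g₀ : M2) r)

end HRK
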