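import Pool.Agent.HRK.Defs2
import Pool.Agent.HRK.N2
import Pool.Agent.HRK.N2b

/-!
# HRK-VolDefs : definitions for the volume lemma and for the coordinates of `SL(2,ℂ)`
-/

namespace HRK

open Set Filter Topology Matrix MeasureTheory

noncomputable instance instMeasurableSpaceSL : MeasurableSpace SL := borel SL

noncomputable instance instBorelSpaceSL : BorelSpace SL := ⟨rfl⟩

/-- the matrix with columns `p.1`, `p.2` -/
def Cl (p : V × V) : M2 := !![p.1 0, p.2 0; p.1 1, p.2 1]

/-- the cone over `B ⊆ SL`: all `e^z x`, `x ∈ B`, `|z| < 1` (as pairs of columns). -/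
def cone (B : Set SL) : Set (V × V) :=
  {p | ∃ x ∈ B, ∃ z : ℂ, ‖z‖ < 1 ∧ Cl p = Complex.exp z • (x : M2)}

open Classical in
/-- the projection of the cone over `SL` to `SL` (equal to `1` outside the cone). -/
noncomputable def kap (p : V × V) : SL :=
  if h : ∃ x : SL, ∃ z : ℂ, ‖z‖ < 1 ∧ Cl p = Complex.exp z • (x : M2) then Classical.choose h else 1

/-- the bi-invariant measure of `SL`: Lebesgue measure of the cone. -/
noncomputable def nuS : Measure SL := Measure.map kap ((volume : Measure (V × V)).restrict (cone univ))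

/-- the flow element `exp (τ T_c)`, `T_c = [[1/2, -c],[0, -1/2]]`; equal to
`[[e^{τ/2}, -c (e^{τ/2} - e^{-τ/2})],[0, e^{-τ/2}]]`. -/
noncomputable def fl (τ : ℝ) (c : ℂ) : SL := uni c e1 * dg τ * uni (-c) e1

/-- `wv0 v` is the vector orthogonal to `v` with `det (v | wv0 v) = 1` (`v ≠ 0`). -/
noncomputable def wv0 (v : V) : V := ![-(star (v 1)) / (nsq v : ℂ), star (v 0) / (nsq v : ℂ)]

/-- the coordinate of `w` along `v` in the basis `wv0 v, v`. -/
noncomputable def bc (v w : V) : ℂ := (star (v 0) * w 0 + star (v 1) * w 1) / (nsq v : ℂ)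

/-- coordinates `(v, (s, b))` of the pairs of columns `(v, w)`, `w = s wv0 v + b v`. -/
noncomputable def Lam (q : V × (ℂ × ℂ)) : V × V := (q.1, q.2.1 • wv0 q.1 + q.2.2 • q.1)

open Classical in
/-- the element of `SL` with first column `v` and second column `wv0 v + b v` (`1` if `v = 0`). -/
noncomputable def Qc (v : V) (b : ℂ) : SL :=
  if h : (Cl (v, wv0 v + b • v)).det = 1 then ⟨Cl (v, wv0 v + b • v), h⟩ else 1

end HRK
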