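import Pool.Agent.HRK.A4
import Pool.Agent.HRK.VolDefs

/-!
# HRK-CovB : a local homeomorphism to `(ℂ² - 0) × ℂ` with lifting of segments is a bijection

For `y : E` let `O y = {u | ∀ t ∈ [0,1], (D y).1 + t u.1 ≠ 0}`, contained in `Star D y`: an open set, star
shaped about `0`; `ext D y` is continuous on it (`continuousOn_ext_right`), so
`σ y p = ext D y (p - D y)` is a continuous section of `D` on `O' y = D y + O y`
`= {p | p.1 ∉ {-ρ (D y).1, ρ ≥ 0}}` (`D_ext`), with open image (`isOpen_image_ext`).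
Fix `y₀`, `v₀ = (D y₀).1 ≠ 0`, and `v₁` not in `ℝ v₀` (for instance `i v₀`), `y₁ = σ y₀ (v₁, 0)`
(`(v₁, 0) ∈ O' y₀`). Then
* `O' y₀ ∪ O' y₁ = {p | p.1 ≠ 0}` (a nonzero `p.1` is not both in `-ℝ≥0 v₀` and `-ℝ≥0 v₁`);
* `O' y₀ ∩ O' y₁` is preconnected: it contains the complement of the real subspace
  `{p | p.1 ∈ ℝ v₀ + ℝ v₁}` of codimension `2`, which is connected
  (`isConnected_compl_of_one_lt_codim`) and dense, so it is between a connected set and its closure
  (`IsPreconnected.subset_closure`);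
* so `σ y₀ = σ y₁` on the intersection (`lift_unique`: both are sections, equal at `(v₁, 0)`,
  `ext_zero`);
* glue them to a section `σ` on `{p | p.1 ≠ 0}`; the image `{y | σ (D y) = y}` is closed (`E` is
  Hausdorff, `σ ∘ D` is continuous since `D` takes values in `{p.1 ≠ 0}`), and open
  (it is the union of two open images), nonempty, so it is `E` (connected): `D` is injective, and
  surjective onto `{p | p.1 ≠ 0}` since `σ` is a section.
-/

namespace HRK

open Set Filter Topology Matrix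

/-- the star domain of a point over `v`, seen in the target. -/
def cvb_R (v : V) : Set (V × ℂ) := {p | ∀ ρ : ℝ, 0 ≤ ρ → p.1 ≠ -(ρ • v)}

theorem cvb_mem_iff {v : V} (hv : v ≠ 0) {p q : V × ℂ} (hq : q.1 = v) :
    p ∈ cvb_R v ↔ ∀ t ∈ Icc (0:ℝ) 1, q.1 + t • (p - q).1 ≠ 0 := by
  have hsub : (p - q).1 = p.1 - v := by rw [Prod.fst_sub, hq]
  rw [hsub, hq]
  constructor
  · intro h t ht h0
    rcases ht.1.eq_or_lt with ht0 | ht0
    · rw [← ht0, zero_smul, add_zero] at h0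
      exact hv h0
    · refine h ((1 - t) / t) (div_nonneg (by linarith [ht.2]) ht0.le) ?_
      have h1 : t • p.1 = -((1 - t) • v) := by
        have h2 : v + t • (p.1 - v) = t • p.1 + (1 - t) • v := by module
        rw [h2] at h0
        exact eq_neg_of_add_eq_zero_left h0
      have h3 : p.1 = t⁻¹ • (t • p.1) := (inv_smul_smul₀ ht0.ne' _).symm
      rw [h3, h1, smul_neg, smul_smul]
      congr 2
      field_simp
  · intro h ρ hρ hp
    have hpos : (0:ℝ) < 1 + ρ := by linarith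
    refine h (1 / (1 + ρ)) ⟨by positivity, ?_⟩ ?_
    · rw [div_le_one hpos]
      linarith
    · rw [hp]
      have h1 : -(ρ • v) - v = -((1 + ρ) • v) := by module
      rw [h1, smul_neg, smul_smul, one_div, inv_mul_cancel₀ hpos.ne', one_smul, add_neg_cancel]

theorem cvb_isOpen {v : V} (hv : v ≠ 0) : IsOpen (cvb_R v) := by
  have h1 : cvb_R v = {p : V × ℂ | ∀ t ∈ Icc (0:ℝ) 1, v + t • (p.1 - v) ≠ 0} := by
    ext p
    rw [cvb_mem_iff hv (q := (v, 0)) rfl]
    simp only [mem_ofPred_eq, Prod.fst_sub]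
  rw [h1, isOpen_iff_mem_nhds]
  intro p hp
  refine isCompact_Icc.eventually_forall_of_forall_eventually fun t ht => ?_
  have hc : ContinuousAt (fun z : (V × ℂ) × ℝ => v + z.2 • (z.1.1 - v)) (p, t) := by
    fun_prop
  exact hc.eventually_ne (hp t ht)

theorem cvb_base {v : V} (hv : v ≠ 0) (z : ℂ) : ((v, z) : V × ℂ) ∈ cvb_R v := by
  intro ρ hρ h
  have h1 : (1 + ρ) • v = 0 := by
    have h2 : v = -(ρ • v) := h
    calc (1 + ρ) • v = v + ρ • v := by module
      _ = -(ρ • v) + ρ • v := by rw [← h2]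
      _ = 0 := by rw [neg_add_cancel]
  rcases smul_eq_zero.1 h1 with h3 | h3
  · linarith
  · exact hv h3

theorem cvb_indep {v : V} (hv : v ≠ 0) {a b : ℝ} (h : a • v + b • (Complex.I • v) = 0) :
    a = 0 ∧ b = 0 := by
  have h1 : ((a : ℂ) + (b : ℂ) * Complex.I) • v = 0 := by
    rw [add_smul, mul_smul]
    exact h
  rcases smul_eq_zero.1 h1 with h2 | h2
  · constructor
    · simpa using congrArg Complex.re h2
    · simpa using congrArg Complex.im h2
  · exact absurd h2 hv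

theorem cvb_cover {v : V} (hv : v ≠ 0) {p : V × ℂ} (hp : p.1 ≠ 0) :
    p ∈ cvb_R v ∨ p ∈ cvb_R (Complex.I • v) := by
  by_contra hcon
  rw [not_or] at hcon
  obtain ⟨h1, h2⟩ := hcon
  simp only [cvb_R, mem_ofPred_eq, not_forall, not_not] at h1 h2
  obtain ⟨ρ, hρ, h1⟩ := h1
  obtain ⟨σ, hσ, h2⟩ := h2
  have h3 : ρ • v + (-σ) • (Complex.I • v) = 0 := by
    have h4 : -(ρ • v) = -(σ • (Complex.I • v)) := h1.symm.trans h2
    have h5 : ρ • v = σ • (Complex.I • v) := neg_injective h4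
    rw [h5]
    module
  have h4 := (cvb_indep hv h3).1
  apply hp
  rw [h1, h4, zero_smul, neg_zero]

theorem cvb_other {v : V} (hv : v ≠ 0) (z : ℂ) : ((Complex.I • v, z) : V × ℂ) ∈ cvb_R v := by
  intro ρ hρ h
  have h1 : ρ • v + (1:ℝ) • (Complex.I • v) = 0 := by
    have h2 : Complex.I • v = -(ρ • v) := h
    rw [h2]
    module
  have h3 := (cvb_indep hv h1).2
  exact one_ne_zero h3

variable {E : Type*} [TopologicalSpace E] [T2Space E]

/-- the intersection of the two star domains is preconnected. -/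
theorem isPreconnected_inter {v₀ v₁ : V} (h : ∀ a b : ℝ, a • v₀ + b • v₁ = 0 → a = 0 ∧ b = 0) :
    IsPreconnected {p : V × ℂ | (∀ ρ : ℝ, 0 ≤ ρ → p.1 ≠ -(ρ • v₀)) ∧
      ∀ ρ : ℝ, 0 ≤ ρ → p.1 ≠ -(ρ • v₁)} := by
  set S : Submodule ℝ V := Submodule.span ℝ {v₀, v₁} with hS
  set W : Submodule ℝ (V × ℂ) := S.comap (LinearMap.fst ℝ V ℂ) with hW
  have hSr : Module.finrank ℝ S ≤ 2 := by
    have h1 := finrank_span_le_card (R := ℝ) ({v₀, v₁} : Set V)
    refine h1.trans ?_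
    rw [Set.toFinset_insert, Set.toFinset_singleton]
    exact Finset.card_le_two
  have hV : Module.finrank ℝ V = 4 := by
    rw [Module.finrank_pi_fintype]
    simp [Complex.finrank_real_complex]
  have hq : 2 ≤ Module.finrank ℝ (V ⧸ S) := by
    have h1 := S.finrank_quotient_add_finrank
    omega
  have heq : W = LinearMap.ker (S.mkQ ∘ₗ LinearMap.fst ℝ V ℂ) := by
    rw [LinearMap.ker_comp, Submodule.ker_mkQ]
  have hsurj : Function.Surjective (S.mkQ ∘ₗ LinearMap.fst ℝ V ℂ) := by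
    intro x
    obtain ⟨v, rfl⟩ := S.mkQ_surjective x
    exact ⟨(v, 0), rfl⟩
  have hqW : 2 ≤ Module.finrank ℝ ((V × ℂ) ⧸ W) := by
    have e : ((V × ℂ) ⧸ W) ≃ₗ[ℝ] (V ⧸ S) :=
      (Submodule.quotEquivOfEq _ _ heq).trans
        ((S.mkQ ∘ₗ LinearMap.fst ℝ V ℂ).quotKerEquivOfSurjective hsurj)
    rw [e.finrank_eq]
    exact hq
  have hrank : 1 < Module.rank ℝ ((V × ℂ) ⧸ W) := by
    rw [← Module.finrank_eq_rank]
    exact_mod_cast (lt_of_lt_of_le one_lt_two hqW)
  have hconn := isConnected_compl_of_one_lt_codim hrank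
  have hdense : Dense ((W : Set (V × ℂ))ᶜ) := by
    rw [← interior_eq_empty_iff_dense_compl]
    by_contra hne
    have h1 := Submodule.eq_top_of_nonempty_interior' W (nonempty_iff_ne_empty.2 hne)
    rw [h1] at hqW
    have h2 : Module.finrank ℝ ((V × ℂ) ⧸ (⊤ : Submodule ℝ (V × ℂ))) = 0 :=
      Module.finrank_zero_of_subsingleton
    omega
  refine hconn.isPreconnected.subset_closure ?_ ?_
  · intro p hp
    have hp' : p.1 ∉ S := hp
    refine ⟨fun ρ _ h1 => hp' ?_, fun ρ _ h1 => hp' ?_⟩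
    · rw [h1]
      exact S.neg_mem (S.smul_mem _ (Submodule.subset_span (by simp)))
    · rw [h1]
      exact S.neg_mem (S.smul_mem _ (Submodule.subset_span (by simp)))
  · rw [hdense.closure_eq]
    exact subset_univ _

theorem bij_of_segments [ConnectedSpace E] {D : E → V × ℂ} (hD : IsLocalHomeomorph D)
    (h0 : ∀ y, (D y).1 ≠ 0)
    (hlift : ∀ (y : E) (u : V × ℂ), (∀ t ∈ Icc (0:ℝ) 1, (D y).1 + t • u.1 ≠ 0) → u ∈ Star D y) :
    Function.Injective D ∧ ∀ p : V × ℂ, p.1 ≠ 0 → ∃ y, D y = p := by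
  -- general facts about the section `p ↦ ext D y (p - D y)` on `cvb_R (D y).1`
  have hmem : ∀ (y : E) (p : V × ℂ), p ∈ cvb_R (D y).1 → p - D y ∈ Star D y := fun y p hp =>
    hlift y _ ((cvb_mem_iff (h0 y) rfl).1 hp)
  have hsec : ∀ (y : E) (p : V × ℂ), p ∈ cvb_R (D y).1 → D (ext D y (p - D y)) = p := by
    intro y p hp
    rw [D_ext (hmem y p hp), add_sub_cancel]
  have hcont : ∀ y : E, ContinuousOn (fun p : V × ℂ => ext D y (p - D y)) (cvb_R (D y).1) := by
    intro y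
    exact (continuousOn_ext_right hD y).comp (by fun_prop) fun p hp => hmem y p hp
  have hopen : ∀ y : E, IsOpen ((fun p : V × ℂ => ext D y (p - D y)) '' cvb_R (D y).1) := by
    intro y
    have h1 : (fun p : V × ℂ => ext D y (p - D y)) '' cvb_R (D y).1 =
        ext D y '' ((fun p : V × ℂ => p - D y) '' cvb_R (D y).1) := by
      rw [image_image]
    rw [h1]
    refine isOpen_image_ext hD ?_ ?_
    · exact (Homeomorph.subRight (D y)).isOpenMap _ (cvb_isOpen (h0 y))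
    · rintro _ ⟨p, hp, rfl⟩
      exact hmem y p hp
  obtain ⟨y₀⟩ := (inferInstance : Nonempty E)
  set v₀ : V := (D y₀).1 with hv₀
  have hv0 : v₀ ≠ 0 := h0 y₀
  have hv1 : Complex.I • v₀ ≠ 0 := smul_ne_zero Complex.I_ne_zero hv0
  set q : V × ℂ := (Complex.I • v₀, 0) with hq
  have hqR : q ∈ cvb_R (D y₀).1 := cvb_other hv0 0
  set y₁ : E := ext D y₀ (q - D y₀) with hy₁
  have hDy₁ : D y₁ = q := hsec y₀ q hqR
  have hD1 : (D y₁).1 = Complex.I • v₀ := by rw [hDy₁]
  have hcov : ∀ p : V × ℂ, p.1 ≠ 0 → p ∈ cvb_R (D y₀).1 ∨ p ∈ cvb_R (D y₁).1 := by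
    intro p hp
    rw [hD1]
    exact cvb_cover hv0 hp
  have hagree : ∀ p ∈ cvb_R (D y₀).1 ∩ cvb_R (D y₁).1,
      ext D y₀ (p - D y₀) = ext D y₁ (p - D y₁) := by
    have hpc : IsPreconnected (cvb_R (D y₀).1 ∩ cvb_R (D y₁).1) := by
      rw [hD1]
      exact isPreconnected_inter fun a b hab => cvb_indep hv0 hab
    refine lift_unique hD hpc ((hcont y₀).mono inter_subset_left)
      ((hcont y₁).mono inter_subset_right) (fun p hp => ?_) (t₀ := q) ⟨hqR, ?_⟩ ?_
    · rw [hsec y₀ p hp.1, hsec y₁ p hp.2]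
    · rw [hD1]
      exact cvb_base hv1 0
    · rw [hDy₁, sub_self, ext_zero hD]
  set Sg : Set E := ((fun p : V × ℂ => ext D y₀ (p - D y₀)) '' cvb_R (D y₀).1) ∪
    ((fun p : V × ℂ => ext D y₁ (p - D y₁)) '' cvb_R (D y₁).1) with hSg
  have hSopen : IsOpen Sg := (hopen y₀).union (hopen y₁)
  have hfix : ∀ y ∈ Sg, (D y ∈ cvb_R (D y₀).1 → ext D y₀ (D y - D y₀) = y) ∧
      (D y ∈ cvb_R (D y₁).1 → ext D y₁ (D y - D y₁) = y) := by
    intro y hy
    rcases hy with ⟨p, hp, rfl⟩ | ⟨p, hp, rfl⟩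
    · refine ⟨fun _ => ?_, fun hp1 => ?_⟩
      · show ext D y₀ (D (ext D y₀ (p - D y₀)) - D y₀) = _
        rw [hsec y₀ p hp]
      · change D (ext D y₀ (p - D y₀)) ∈ _ at hp1
        show ext D y₁ (D (ext D y₀ (p - D y₀)) - D y₁) = ext D y₀ (p - D y₀)
        rw [hsec y₀ p hp] at hp1 ⊢
        exact (hagree p ⟨hp, hp1⟩).symm
    · refine ⟨fun hp1 => ?_, fun _ => ?_⟩
      · change D (ext D y₁ (p - D y₁)) ∈ _ at hp1
        show ext D y₀ (D (ext D y₁ (p - D y₁)) - D y₀) = ext D y₁ (p - D y₁)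
        rw [hsec y₁ p hp] at hp1 ⊢
        exact hagree p ⟨hp1, hp⟩
      · show ext D y₁ (D (ext D y₁ (p - D y₁)) - D y₁) = _
        rw [hsec y₁ p hp]
  have hloc : ∀ (z y : E), D y ∈ cvb_R (D z).1 → ext D z (D y - D z) ≠ y →
      ∀ᶠ y' in 𝓝 y, D y' ∈ cvb_R (D z).1 ∧ ext D z (D y' - D z) ≠ y' := by
    intro z y hy hne
    have hev : ∀ᶠ y' in 𝓝 y, D y' ∈ cvb_R (D z).1 :=
      hD.continuous.continuousAt.eventually ((cvb_isOpen (h0 z)).mem_nhds hy)
    have hc : ContinuousAt (fun y' => ext D z (D y' - D z)) y :=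
      ((hcont z).continuousAt ((cvb_isOpen (h0 z)).mem_nhds hy)).comp hD.continuous.continuousAt
    have hne' : ∀ᶠ y' in 𝓝 y, ext D z (D y' - D z) ≠ y' := (hc.prodMk continuousAt_id).eventually (isClosed_diagonal.isOpen_compl.mem_nhds hne)
    exact hev.and hne'
  have hSclosed : IsClosed Sg := by
    rw [← isOpen_compl_iff, isOpen_iff_mem_nhds]
    intro y hy
    rcases hcov (D y) (h0 y) with h1 | h1
    · have hne : ext D y₀ (D y - D y₀) ≠ y := fun h => hy (Or.inl ⟨D y, h1, h⟩)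
      filter_upwards [hloc y₀ y h1 hne] with y' hy' hmem'
      exact hy'.2 ((hfix y' hmem').1 hy'.1)
    · have hne : ext D y₁ (D y - D y₁) ≠ y := fun h => hy (Or.inr ⟨D y, h1, h⟩)
      filter_upwards [hloc y₁ y h1 hne] with y' hy' hmem'
      exact hy'.2 ((hfix y' hmem').2 hy'.1)
  have hne : Sg.Nonempty := ⟨y₁, Or.inl ⟨q, hqR, rfl⟩⟩
  have huniv : Sg = univ := IsClopen.eq_univ ⟨hSclosed, hSopen⟩ hne
  have hall : ∀ y, y ∈ Sg := fun y => by rw [huniv]; exact mem_univ y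
  constructor
  · intro y y' hyy
    rcases hcov (D y) (h0 y) with h1 | h1
    · rw [← (hfix y (hall y)).1 h1, ← (hfix y' (hall y')).1 (hyy ▸ h1), hyy]
    · rw [← (hfix y (hall y)).2 h1, ← (hfix y' (hall y')).2 (hyy ▸ h1), hyy]
  · intro p hp
    rcases hcov p hp with h1 | h1
    · exact ⟨_, hsec y₀ p h1⟩
    · exact ⟨_, hsec y₁ p h1⟩

end HRK
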