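import Pool.Agent.HRK.CrdA

/-!
# HRK-CrdB : coordinates `(v, b)` of `SL(2,ℂ)`

`x ∈ SL` has first column `v = x e₁ ≠ 0` and second column `wv0 v + b v` with `b = bc v (x e₂)`.
-/

namespace HRK

open Set Filter Topology Matrix

/-- Proof. `det_Cl_Lam` with `s = 1` shows that the `dif` condition holds. -/
theorem Qc_coe {v : V} (hv : v ≠ 0) (b : ℂ) : ((Qc v b : SL) : M2) = Cl (v, wv0 v + b • v) := by
  have h : (Cl (v, wv0 v + b • v)).det = 1 := by
    have h1 := det_Cl_Lam hv 1 b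
    rw [Lam] at h1
    simpa using h1
  rw [Qc, dif_pos h]

theorem col_ne_zero (x : SL) : (x : M2) *ᵥ e1 ≠ 0 := by
  intro h
  have h1 : ((x⁻¹ : SL) : M2) *ᵥ ((x : M2) *ᵥ e1) = e1 := by
    rw [Matrix.mulVec_mulVec, coe_inv_mul, Matrix.one_mulVec]
  rw [h, Matrix.mulVec_zero] at h1
  have h2 := congrFun h1 0
  simp [e1] at h2

/-- Proof. `eq_w0_add` for `v = x e₁`, `w = x e₂` with `det = 1`, `Cl_cols`. -/
theorem Qc_eq (x : SL) : Qc ((x : M2) *ᵥ e1) (bc ((x : M2) *ᵥ e1) ((x : M2) *ᵥ e2)) = x := by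
  apply Subtype.ext
  show ((Qc ((x : M2) *ᵥ e1) (bc ((x : M2) *ᵥ e1) ((x : M2) *ᵥ e2)) : SL) : M2) = (x : M2)
  rw [Qc_coe (col_ne_zero x)]
  have h1 := eq_w0_add (col_ne_zero x) ((x : M2) *ᵥ e2)
  have h2 : ((x : M2) *ᵥ e1) 0 * ((x : M2) *ᵥ e2) 1 - ((x : M2) *ᵥ e2) 0 * ((x : M2) *ᵥ e1) 1
      = 1 := by
    have h3 := det_Cl ((x : M2) *ᵥ e1, (x : M2) *ᵥ e2)
    rw [Cl_cols, x.det_coe] at h3
    exact h3.symm
  rw [h2, one_smul] at h1
  rw [← h1, Cl_cols]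

theorem Qc_e1 {v : V} (hv : v ≠ 0) (b : ℂ) : ((Qc v b : SL) : M2) *ᵥ e1 = v := by
  rw [Qc_coe hv, Cl_mulVec_e1]

theorem Qc_bc {v : V} (hv : v ≠ 0) (b : ℂ) : bc v (((Qc v b : SL) : M2) *ᵥ e2) = b := by
  rw [Qc_coe hv, Cl_mulVec_e2]
  have h := bc_Lam hv 1 b
  rwa [one_smul] at h

/-- Proof. `x (1 + t E₁₂)` has columns `x e₁`, `x e₂ + t x e₁`. -/
theorem Qc_mul_uni {v : V} (hv : v ≠ 0) (b t : ℂ) : Qc v b * uni t e1 = Qc v (b + t) := by
  apply Subtype.ext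
  show ((Qc v b * uni t e1 : SL) : M2) = ((Qc v (b + t) : SL) : M2)
  rw [Matrix.SpecialLinearGroup.coe_mul, uni_coe, nn_e1, Qc_coe hv, Qc_coe hv]
  ext i j
  fin_cases i <;> fin_cases j <;>
    simp [Cl, Matrix.mul_apply, Fin.sum_univ_two, Matrix.one_apply, Matrix.add_apply,
      Matrix.smul_apply] <;> ring

/-- Proof. `fl τ c = uni c e1 * dg τ * uni (-c) e1`; `Qc v b * uni c e1 = Qc v (b + c)`;
`Qc v b' * dg τ = Qc (λ v) (λ⁻² b')`, `λ = e^{τ/2}` (columns `λ v`, `λ⁻¹ (wv0 v + b' v)`, and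
`wv0 (λ v) = λ⁻¹ wv0 v`); then `* uni (-c) e1` subtracts `c`. -/
theorem Qc_mul_fl {v : V} (hv : v ≠ 0) (b c : ℂ) (τ : ℝ) :
    Qc v b * fl τ c =
      Qc (((Real.exp (τ / 2) : ℝ) : ℂ) • v) (((Real.exp (-τ) : ℝ) : ℂ) * (b + c) - c) := by
  have hl : (((Real.exp (τ / 2) : ℝ) : ℂ)) ≠ 0 := by
    exact_mod_cast (Real.exp_pos _).ne'
  have hlv : (((Real.exp (τ / 2) : ℝ) : ℂ)) • v ≠ 0 := smul_ne_zero hl hv
  have e1' : (((Real.exp (τ / 2) : ℝ) : ℂ)) * ((Real.exp (-(τ / 2)) : ℝ) : ℂ) = 1 := by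
    rw [← Complex.ofReal_mul, ← Real.exp_add]
    simp
  have e2' : ((Real.exp (-τ) : ℝ) : ℂ) = ((Real.exp (-(τ / 2)) : ℝ) : ℂ) *
      ((Real.exp (-(τ / 2)) : ℝ) : ℂ) := by
    rw [← Complex.ofReal_mul, ← Real.exp_add]
    ring_nf
  have e3' : (((Real.exp (τ / 2) : ℝ) : ℂ))⁻¹ = ((Real.exp (-(τ / 2)) : ℝ) : ℂ) :=
    inv_eq_of_mul_eq_one_right e1'
  have hdg : ∀ b' : ℂ, Qc v b' * dg τ = Qc (((Real.exp (τ / 2) : ℝ) : ℂ) • v)
      (((Real.exp (-τ) : ℝ) : ℂ) * b') := by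
    intro b'
    apply Subtype.ext
    show ((Qc v b' * dg τ : SL) : M2) = ((Qc (((Real.exp (τ / 2) : ℝ) : ℂ) • v)
      (((Real.exp (-τ) : ℝ) : ℂ) * b') : SL) : M2)
    rw [Matrix.SpecialLinearGroup.coe_mul, Qc_coe hv, Qc_coe hlv, wv0_smul hl, e3', e2']
    show Cl (v, wv0 v + b' • v) * !![(Real.exp (τ / 2) : ℂ), 0; 0, (Real.exp (-(τ / 2)) : ℂ)] = _
    generalize ((Real.exp (-(τ / 2)) : ℝ) : ℂ) = l' at *
    generalize (((Real.exp (τ / 2) : ℝ) : ℂ)) = l at *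
    ext i j
    fin_cases i <;> fin_cases j
    · simp [Cl, Matrix.mul_apply, Fin.sum_univ_two]
      ring
    · simp [Cl, Matrix.mul_apply, Fin.sum_univ_two]
      linear_combination (-(l' * b' * v 0)) * e1'
    · simp [Cl, Matrix.mul_apply, Fin.sum_univ_two]
      ring
    · simp [Cl, Matrix.mul_apply, Fin.sum_univ_two]
      linear_combination (-(l' * b' * v 1)) * e1'
  rw [fl, ← mul_assoc, ← mul_assoc, Qc_mul_uni hv, hdg, Qc_mul_uni hlv, ← sub_eq_add_neg]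

/-- `e^z Qc v b` in the coordinates `Lam`: `e^z wv0 v = e^{2z} wv0 (e^z v)`. -/
theorem exp_smul_Qc {v : V} (hv : v ≠ 0) (b z : ℂ) :
    Complex.exp z • ((Qc v b : SL) : M2) =
      Cl (Lam (Complex.exp z • v, (Complex.exp (2 * z), b))) := by
  rw [Qc_coe hv, ← Cl_smul, Lam]
  congr 1
  have h1 : wv0 (Complex.exp z • v) = (Complex.exp z)⁻¹ • wv0 v := wv0_smul (Complex.exp_ne_zero z) v
  have h2 : Complex.exp (2 * z) * (Complex.exp z)⁻¹ = Complex.exp z := by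
    rw [two_mul, Complex.exp_add, mul_assoc, mul_inv_cancel₀ (Complex.exp_ne_zero z), mul_one]
  show (Complex.exp z • v, Complex.exp z • (wv0 v + b • v)) =
    (Complex.exp z • v, Complex.exp (2 * z) • wv0 (Complex.exp z • v) + b • (Complex.exp z • v))
  rw [h1, smul_smul, h2, smul_add, smul_comm b]

/-- Proof. The composition with `SL → M₂` (an embedding, `isEmbedding_coe`) is
`Cl (v, wv0 v + b v)` on `v ≠ 0`. -/
theorem continuousOn_Qc : ContinuousOn (fun p : V × ℂ => Qc p.1 p.2) {p | p.1 ≠ 0} := by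
  rw [isEmbedding_coe.isInducing.continuousOn_iff]
  have h1 : ContinuousOn (fun p : V × ℂ => Cl (p.1, wv0 p.1 + p.2 • p.1)) {p | p.1 ≠ 0} := by
    apply isHomeomorph_Cl.continuous.comp_continuousOn
    refine ContinuousOn.prodMk continuousOn_fst (ContinuousOn.add ?_ ?_)
    · exact continuousOn_w0.comp continuousOn_fst (fun p hp => hp)
    · exact continuousOn_snd.smul continuousOn_fst
  refine h1.congr ?_
  intro p hp
  exact Qc_coe hp p.2

/-- the coordinates of `x` -/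
noncomputable def vb (x : SL) : V × ℂ := ((x : M2) *ᵥ e1, bc ((x : M2) *ᵥ e1) ((x : M2) *ᵥ e2))

theorem continuous_vb : Continuous vb := by
  have h1 : Continuous fun x : SL => (x : M2) *ᵥ e1 :=
    isEmbedding_coe.continuous.matrix_mulVec continuous_const
  have h2 : Continuous fun x : SL => (x : M2) *ᵥ e2 :=
    isEmbedding_coe.continuous.matrix_mulVec continuous_const
  refine h1.prodMk ?_
  unfold bc
  have hns : Continuous fun x : SL => ((nsq ((x : M2) *ᵥ e1) : ℝ) : ℂ) :=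
    Complex.continuous_ofReal.comp (continuous_nsq.comp h1)
  refine Continuous.div ?_ hns (fun x => nsq_ne_zero (col_ne_zero x))
  exact (((continuous_apply 0).comp h1).star.mul ((continuous_apply 0).comp h2)).add
    (((continuous_apply 1).comp h1).star.mul ((continuous_apply 1).comp h2))

theorem Qc_vb (x : SL) : Qc (vb x).1 (vb x).2 = x := by
  exact Qc_eq x

theorem vb_Qc {v : V} (hv : v ≠ 0) (b : ℂ) : vb (Qc v b) = (v, b) := by
  rw [vb, Qc_e1 hv, Qc_bc hv]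

theorem range_vb : range vb = {p : V × ℂ | p.1 ≠ 0} := by
  ext p
  constructor
  · rintro ⟨x, rfl⟩
    exact col_ne_zero x
  · intro hp
    exact ⟨Qc p.1 p.2, vb_Qc hp p.2⟩

/-- Proof. Injective, continuous, with inverse `Qc` continuous on the open range. -/
theorem isOpenEmbedding_vb : IsOpenEmbedding vb := by
  have hinj : Function.Injective vb := by
    intro x y hxy
    rw [← Qc_vb x, ← Qc_vb y, hxy]
  have hopen : IsOpen {p : V × ℂ | p.1 ≠ 0} := isOpen_ne.preimage continuous_fst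
  refine IsOpenEmbedding.of_continuous_injective_isOpenMap continuous_vb hinj ?_
  intro O hO
  have h1 : vb '' O = {p : V × ℂ | p.1 ≠ 0} ∩ (fun p : V × ℂ => Qc p.1 p.2) ⁻¹' O := by
    ext p
    constructor
    · rintro ⟨x, hx, rfl⟩
      refine ⟨col_ne_zero x, ?_⟩
      show Qc (vb x).1 (vb x).2 ∈ O
      rw [Qc_vb]
      exact hx
    · rintro ⟨hp, hpO⟩
      exact ⟨Qc p.1 p.2, hpO, vb_Qc hp p.2⟩
  rw [h1]
  exact continuousOn_Qc.isOpen_inter_preimage hopen hO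

end HRK
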