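import Pool.Agent.HRK.B1
import Pool.Agent.HRK.CovA
import Pool.Agent.HRK.CovB
import Pool.Agent.HRK.CrdB

/-!
# HRK-CovC : uniform free balls imply that `D` is bijective

`D' y = vb (D y) : E → V × ℂ` (`isOpenEmbedding_vb`, `range_vb`) is a local homeomorphism, with
`(D' y).1 ≠ 0`. If the segment `t ↦ D' y + t u` stays in `{p.1 ≠ 0}` then
`p t = Qc ((D' y + t u).1) ((D' y + t u).2)` is a continuous path in `SL` (`continuousOn_Qc`) with
`p 0 = D y` (`Qc_vb`), so it lifts (`lift_path`), `D (c t) = p t`, and `vb (p t) = D' y + t u`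
(`vb_Qc`): `u ∈ Star D' y`. `bij_of_segments`.
-/

namespace HRK

open Set Filter Topology Matrix

variable {E : Type*} [TopologicalSpace E] [T2Space E] {D : E → SL}

theorem covc_path (v : V) (b : ℂ) (u : V × ℂ) (hu : ∀ t ∈ Icc (0:ℝ) 1, v + t • u.1 ≠ 0) :
    ContinuousOn (fun t : ℝ => Qc (v + t • u.1) (b + t • u.2)) (Icc 0 1) := by
  have hc : ContinuousOn (fun t : ℝ => ((v + t • u.1, b + t • u.2) : V × ℂ)) (Icc 0 1) := by
    apply Continuous.continuousOn
    exact (continuous_const.add (continuous_id.smul continuous_const)).prodMk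
      (continuous_const.add (continuous_id.smul continuous_const))
  have hm : MapsTo (fun t : ℝ => ((v + t • u.1, b + t • u.2) : V × ℂ)) (Icc 0 1)
      {p | p.1 ≠ 0} := fun t ht => hu t ht
  have h := ContinuousOn.comp (g := fun p : V × ℂ => Qc p.1 p.2) continuousOn_Qc hc hm
  exact h

theorem bijective_of_FB [ConnectedSpace E] (hD : IsLocalHomeomorph (Dh D)) {r : ℝ} (hr0 : 0 < r)
    (hr : r ≤ 1 / 2) (hFB : ∀ y, FB D y 1 r) : Function.Bijective D := by
  have hD1 : IsLocalHomeomorph D := isLocalHomeomorph_of_Dh hD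
  have hDv : IsLocalHomeomorph fun y => vb (D y) :=
    isOpenEmbedding_vb.isLocalHomeomorph.comp hD1
  have h0 : ∀ y, (vb (D y)).1 ≠ 0 := fun y => col_ne_zero (D y)
  have hlift : ∀ (y : E) (u : V × ℂ), (∀ t ∈ Icc (0:ℝ) 1, (vb (D y)).1 + t • u.1 ≠ 0) →
      u ∈ Star (fun y => vb (D y)) y := by
    intro y u hu
    generalize hv : (vb (D y)).1 = v at hu
    generalize hb : (vb (D y)).2 = b
    have hQ : Qc v b = D y := by
      rw [← hv, ← hb]
      exact Qc_vb (D y)
    have hp := covc_path v b u hu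
    have hp0 : (fun t : ℝ => Qc (v + t • u.1) (b + t • u.2)) 0 = D y := by
      show Qc (v + (0:ℝ) • u.1) (b + (0:ℝ) • u.2) = D y
      rw [zero_smul, zero_smul, add_zero, add_zero]
      exact hQ
    obtain ⟨c, hc, hc0, hcD⟩ := lift_path hD hr0 hr hFB hp hp0
    refine ⟨c, hc, hc0, fun t ht => ?_⟩
    show vb (D (c t)) = vb (D y) + t • u
    have h1 : vb (D (c t)) = (v + t • u.1, b + t • u.2) := by
      rw [hcD t ht]
      exact vb_Qc (hu t ht) _
    rw [h1, ← hv, ← hb]
    rfl
  obtain ⟨hinj, hsurj⟩ := bij_of_segments hDv h0 hlift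
  constructor
  · intro y y' h
    apply hinj
    show vb (D y) = vb (D y')
    rw [h]
  · intro x
    obtain ⟨y, hy⟩ := hsurj (vb x) (col_ne_zero x)
    refine ⟨y, ?_⟩
    have h1 : vb (D y) = vb x := hy
    have h2 := Qc_vb (D y)
    rw [h1, Qc_vb] at h2
    exact h2.symm

end HRK
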