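import Pool.Agent.HRK.U2
import Pool.Agent.HRK.CovC

/-!
# HRK-CovE : if `e = 0` everywhere then the developing map is bijective
-/

namespace HRK

open Set Filter Topology Matrix

universe u

theorem bijective_of_eD_zero {E : Type u} [TopologicalSpace E] [T2Space E] [ConnectedSpace E]
    {r0 L : ℝ} (hc : Cst r0 L) (G : Geo E r0 L)
    (h : ∀ y ψ, eD G.D y ψ = 0) : Function.Bijective G.D := by
  obtain ⟨c, hc0, hc1, hF⟩ := good_frame.{u} hc 0
  refine bijective_of_FB G.hD hc0 (hc1.trans (by norm_num)) fun y => hF E G y 1 ?_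
  exact mD_le hc G y 1 fun ψ _ => (h y _).le

end HRK
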