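import Pool.Agent.HRK.VolDefs

/-!
# HRK-CrdA : pairs of columns, the vectors `wv0 v`, coordinates `(v, (s, b))`

Everything is elementary algebra: `wv0 v = (-conj v₁, conj v₀)/|v|²`, `nsq v = |v₀|² + |v₁|²`
(`nsq_eq`), `Complex.normSq_eq_conj_mul_self`, `Complex.star_def`.
-/

namespace HRK

open Set Filter Topology Matrix

theorem crda_nsq (v : V) : (nsq v : ℂ) = star (v 0) * v 0 + star (v 1) * v 1 := by
  rw [nsq_eq, Complex.ofReal_add, Complex.normSq_eq_conj_mul_self,
    Complex.normSq_eq_conj_mul_self]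
  rfl

theorem crda_Cl_00 (p : V × V) : Cl p 0 0 = p.1 0 := rfl
theorem crda_Cl_01 (p : V × V) : Cl p 0 1 = p.2 0 := rfl
theorem crda_Cl_10 (p : V × V) : Cl p 1 0 = p.1 1 := rfl
theorem crda_Cl_11 (p : V × V) : Cl p 1 1 = p.2 1 := rfl

theorem crda_w0_0 (v : V) : wv0 v 0 = -(star (v 1)) / (nsq v : ℂ) := rfl
theorem crda_w0_1 (v : V) : wv0 v 1 = star (v 0) / (nsq v : ℂ) := rfl

theorem Cl_injective : Function.Injective Cl := by
  intro p q h
  have h00 := congrFun (congrFun h 0) 0
  have h01 := congrFun (congrFun h 0) 1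
  have h10 := congrFun (congrFun h 1) 0
  have h11 := congrFun (congrFun h 1) 1
  rw [crda_Cl_00, crda_Cl_00] at h00
  rw [crda_Cl_01, crda_Cl_01] at h01
  rw [crda_Cl_10, crda_Cl_10] at h10
  rw [crda_Cl_11, crda_Cl_11] at h11
  refine Prod.ext (funext fun i => ?_) (funext fun i => ?_)
  · fin_cases i
    · exact h00
    · exact h10
  · fin_cases i
    · exact h01
    · exact h11

theorem crda_mulVec_e1 (X : M2) (i : Fin 2) : (X *ᵥ e1) i = X i 0 := by
  simp [Matrix.mulVec, dotProduct, e1, Fin.sum_univ_two]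

theorem crda_mulVec_e2 (X : M2) (i : Fin 2) : (X *ᵥ e2) i = X i 1 := by
  simp [Matrix.mulVec, dotProduct, e2, Fin.sum_univ_two]

theorem Cl_mulVec_e1 (p : V × V) : Cl p *ᵥ e1 = p.1 := by
  funext i
  rw [crda_mulVec_e1]
  fin_cases i <;> rfl

theorem Cl_mulVec_e2 (p : V × V) : Cl p *ᵥ e2 = p.2 := by
  funext i
  rw [crda_mulVec_e2]
  fin_cases i <;> rfl

theorem Cl_cols (X : M2) : Cl (X *ᵥ e1, X *ᵥ e2) = X := by
  ext i j
  fin_cases i <;> fin_cases j
  · exact crda_mulVec_e1 X 0
  · exact crda_mulVec_e2 X 0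
  · exact crda_mulVec_e1 X 1
  · exact crda_mulVec_e2 X 1

theorem det_Cl (p : V × V) : (Cl p).det = p.1 0 * p.2 1 - p.2 0 * p.1 1 := by
  rw [Matrix.det_fin_two]
  rfl

theorem Cl_smul (c : ℂ) (p : V × V) : Cl (c • p) = c • Cl p := by
  ext i j
  fin_cases i <;> fin_cases j <;> rfl

theorem Cl_add (p q : V × V) : Cl (p + q) = Cl p + Cl q := by
  ext i j
  fin_cases i <;> fin_cases j <;> rfl

/-- `Cl (A p₁, A p₂) = A * Cl p`. -/
theorem mul_Cl (A : M2) (p : V × V) : A * Cl p = Cl (A *ᵥ p.1, A *ᵥ p.2) := by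
  ext i j
  fin_cases i <;> fin_cases j <;>
    simp [Matrix.mul_apply, Matrix.mulVec, dotProduct, Fin.sum_univ_two, Cl]

/-- homeomorphism `V × V ≃ M₂`; inverse `X ↦ (X e₁, X e₂)`. -/
theorem isHomeomorph_Cl : IsHomeomorph Cl := by
  have h1 : Continuous Cl := by
    refine continuous_matrix fun i j => ?_
    fin_cases i <;> fin_cases j
    · show Continuous fun p : V × V => p.1 0
      exact (continuous_apply (0 : Fin 2)).comp continuous_fst
    · show Continuous fun p : V × V => p.2 0
      exact (continuous_apply (0 : Fin 2)).comp continuous_snd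
    · show Continuous fun p : V × V => p.1 1
      exact (continuous_apply (1 : Fin 2)).comp continuous_fst
    · show Continuous fun p : V × V => p.2 1
      exact (continuous_apply (1 : Fin 2)).comp continuous_snd
  have h2 : Continuous fun X : M2 => (X *ᵥ e1, X *ᵥ e2) := by
    refine Continuous.prodMk ?_ ?_
    · exact Continuous.matrix_mulVec continuous_id continuous_const
    · exact Continuous.matrix_mulVec continuous_id continuous_const
  let H : V × V ≃ₜ M2 :=
    { toFun := Cl
      invFun := fun X : M2 => (X *ᵥ e1, X *ᵥ e2)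
      left_inv := fun p => by
        show (Cl p *ᵥ e1, Cl p *ᵥ e2) = p
        rw [Cl_mulVec_e1, Cl_mulVec_e2]
      right_inv := fun X => Cl_cols X
      continuous_toFun := h1
      continuous_invFun := h2 }
  exact H.isHomeomorph

theorem nsq_ne_zero {v : V} (hv : v ≠ 0) : (nsq v : ℂ) ≠ 0 := by
  rw [Complex.ofReal_ne_zero, ← vn_sq]
  exact pow_ne_zero 2 (fun h => hv (vn_eq_zero.mp h))

/-- every `w` is `s wv0 v + b v` with `s = det (v | w)`, `b = bc v w`. -/
theorem eq_w0_add {v : V} (hv : v ≠ 0) (w : V) :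
    w = (v 0 * w 1 - w 0 * v 1) • wv0 v + bc v w • v := by
  have hN := nsq_ne_zero hv
  have hN2 := crda_nsq v
  funext i
  fin_cases i
  · show w 0 = (v 0 * w 1 - w 0 * v 1) * (-(star (v 1)) / (nsq v : ℂ)) +
      (star (v 0) * w 0 + star (v 1) * w 1) / (nsq v : ℂ) * v 0
    field_simp
    rw [hN2]
    ring
  · show w 1 = (v 0 * w 1 - w 0 * v 1) * (star (v 0) / (nsq v : ℂ)) +
      (star (v 0) * w 0 + star (v 1) * w 1) / (nsq v : ℂ) * v 1
    field_simp
    rw [hN2]
    ring

theorem det_Cl_Lam {v : V} (hv : v ≠ 0) (s b : ℂ) : (Cl (Lam (v, (s, b)))).det = s := by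
  have hN := nsq_ne_zero hv
  have hN2 := crda_nsq v
  rw [det_Cl]
  show v 0 * (s * (star (v 0) / (nsq v : ℂ)) + b * v 1) -
    (s * (-(star (v 1)) / (nsq v : ℂ)) + b * v 0) * v 1 = s
  field_simp
  rw [hN2]
  ring

theorem bc_Lam {v : V} (hv : v ≠ 0) (s b : ℂ) : bc v (s • wv0 v + b • v) = b := by
  have hN := nsq_ne_zero hv
  have hN2 := crda_nsq v
  show (star (v 0) * (s * (-(star (v 1)) / (nsq v : ℂ)) + b * v 0) +
    star (v 1) * (s * (star (v 0) / (nsq v : ℂ)) + b * v 1)) / (nsq v : ℂ) = b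
  field_simp
  rw [hN2]
  ring

theorem wv0_smul {c : ℂ} (hc : c ≠ 0) (v : V) : wv0 (c • v) = c⁻¹ • wv0 v := by
  have hc2 : star c ≠ 0 := star_ne_zero.mpr hc
  have hN : (nsq (c • v) : ℂ) = star c * c * (nsq v : ℂ) := by
    rw [crda_nsq, crda_nsq]
    show star (c * v 0) * (c * v 0) + star (c * v 1) * (c * v 1) = _
    rw [star_mul, star_mul]
    ring
  by_cases hv : (nsq v : ℂ) = 0
  · funext i
    fin_cases i
    · show -(star (c * v 1)) / (nsq (c • v) : ℂ) = c⁻¹ * (-(star (v 1)) / (nsq v : ℂ))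
      rw [hN, hv, mul_zero, div_zero, div_zero, mul_zero]
    · show star (c * v 0) / (nsq (c • v) : ℂ) = c⁻¹ * (star (v 0) / (nsq v : ℂ))
      rw [hN, hv, mul_zero, div_zero, div_zero, mul_zero]
  · funext i
    fin_cases i
    · show -(star (c * v 1)) / (nsq (c • v) : ℂ) = c⁻¹ * (-(star (v 1)) / (nsq v : ℂ))
      rw [hN, star_mul]
      field_simp
    · show star (c * v 0) / (nsq (c • v) : ℂ) = c⁻¹ * (star (v 0) / (nsq v : ℂ))
      rw [hN, star_mul]
      field_simp

theorem crda_continuous_nsq : Continuous fun v : V => (nsq v : ℂ) :=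
  Complex.continuous_ofReal.comp continuous_nsq

theorem continuousOn_w0 : ContinuousOn wv0 {v | v ≠ 0} := by
  refine continuousOn_pi.mpr fun i => ?_
  fin_cases i
  · show ContinuousOn (fun v : V => -(star (v 1)) / (nsq v : ℂ)) {v | v ≠ 0}
    refine ContinuousOn.div ?_ crda_continuous_nsq.continuousOn fun v hv => nsq_ne_zero hv
    exact ((continuous_star.comp (continuous_apply 1)).neg).continuousOn
  · show ContinuousOn (fun v : V => star (v 0) / (nsq v : ℂ)) {v | v ≠ 0}
    refine ContinuousOn.div ?_ crda_continuous_nsq.continuousOn fun v hv => nsq_ne_zero hv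
    exact (continuous_star.comp (continuous_apply 0)).continuousOn

theorem measurable_w0 : Measurable wv0 := by
  refine measurable_pi_iff.mpr fun i => ?_
  fin_cases i
  · show Measurable (fun v : V => -(star (v 1)) / (nsq v : ℂ))
    refine Measurable.div ?_ crda_continuous_nsq.measurable
    exact ((continuous_star.comp (continuous_apply 1)).neg).measurable
  · show Measurable (fun v : V => star (v 0) / (nsq v : ℂ))
    refine Measurable.div ?_ crda_continuous_nsq.measurable
    exact (continuous_star.comp (continuous_apply 0)).measurable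

end HRK
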