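import Mathlib

/-!
# HRK : completeness of compact manifolds locally modelled on `SL(2,ℂ)`

Definitions shared by all files of the project. The paper proof is `PROOF.md`.
-/

namespace HRK

open Set Filter Topology Matrix

/-- `ℂ²`. -/
abbrev V := Fin 2 → ℂ

/-- complex `2 × 2` matrices. -/
abbrev M2 := Matrix (Fin 2) (Fin 2) ℂ

/-- `SL(2,ℂ)`. -/
abbrev SL := Matrix.SpecialLinearGroup (Fin 2) ℂ

/-! ### norms and elementary algebra -/

/-- `|X|^2 = ∑ |X i j|^2`. -/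
noncomputable def fro (X : M2) : ℝ := ∑ i, ∑ j, Complex.normSq (X i j)

/-- `|X|` (Hilbert-Schmidt norm). -/
noncomputable def nm (X : M2) : ℝ := Real.sqrt (fro X)

/-- `|v|^2`. -/
noncomputable def nsq (v : V) : ℝ := ∑ i, Complex.normSq (v i)

/-- `|v|`. -/
noncomputable def vn (v : V) : ℝ := Real.sqrt (nsq v)

/-- conjugation `k X k⁻¹`; the frame `k` norm of `X` is `nm (cj k X)`. -/
def cj (k : SL) (X : M2) : M2 := (k : M2) * X * ((k⁻¹ : SL) : M2)

/-- the symplectic form `ω(v,w) = v₀ w₁ - v₁ w₀`. -/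
def om (v w : V) : ℂ := v 0 * w 1 - v 1 * w 0

/-- the nilpotent matrix `n(ψ)`, `n(ψ) v = ω(ψ,v) ψ`. -/
def nn (ψ : V) : M2 := !![-(ψ 0 * ψ 1), ψ 0 ^ 2; -(ψ 1 ^ 2), ψ 0 * ψ 1]

/-- `e₁ = (1,0)`. -/
def e1 : V := ![1, 0]

/-- `e₂ = (0,1)`. -/
def e2 : V := ![0, 1]

/-- the unipotent element `1 + t n(ψ)` of `SL(2,ℂ)`. -/
def uni (t : ℂ) (ψ : V) : SL :=
  ⟨1 + t • nn ψ, by
    rw [Matrix.det_fin_two]
    simp [nn, Matrix.add_apply]
    ring⟩

/-- the diagonal frame `diag (exp (s/2), exp (-s/2))`. -/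
noncomputable def dg (s : ℝ) : SL :=
  ⟨!![(Real.exp (s / 2) : ℂ), 0; 0, (Real.exp (-(s / 2)) : ℂ)], by
    rw [Matrix.det_fin_two_of]
    rw [mul_zero, sub_zero, ← Complex.ofReal_mul, ← Real.exp_add]
    simp⟩

/-- unitary elements of `SL(2,ℂ)`. -/
def IsU (u : SL) : Prop := (u : M2)ᴴ * (u : M2) = 1

/-! ### Hermitian forms of determinant one -/

/-- value `v^* J v` of the form `J` (real part). -/
noncomputable def hf (J : M2) (v : V) : ℝ := (star v ⬝ᵥ (J *ᵥ v)).re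

/-- `k` is a frame of the form `J`: `J = k^* k`. -/
def Fr (J : M2) (k : SL) : Prop := J = (k : M2)ᴴ * (k : M2)

/-- coordinate `T > 0` of a form: `h(v) = (|v₀ - ζ v₁|^2 + T^2 |v₁|^2) / T`. -/
noncomputable def Tc (J : M2) : ℝ := 1 / (J 0 0).re

/-- coordinate `ζ` of a form. -/
noncomputable def Zc (J : M2) : ℂ := - (J 0 1) / (J 0 0)

/-- the transported form `k^{-*} J k^{-1}` (the form `J` seen in the frame `k`). -/
def fcj (k : SL) (J : M2) : M2 := (((k⁻¹ : SL) : M2))ᴴ * J * ((k⁻¹ : SL) : M2)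

/-! ### lifts of segments, star domains (generic) -/

section Star

variable {E : Type*} [TopologicalSpace E] {W : Type*} [TopologicalSpace W] [AddCommGroup W]
  [Module ℝ W]

/-- `c` is a continuous lift (on `[0,1]`), starting at `x`, of the segment `t ↦ D x + t • v`. -/
def IsLift (D : E → W) (x : E) (v : W) (c : ℝ → E) : Prop :=
  ContinuousOn c (Icc (0:ℝ) 1) ∧ c 0 = x ∧ ∀ t ∈ Icc (0:ℝ) 1, D (c t) = D x + t • v

/-- The star domain of `x`. -/
def Star (D : E → W) (x : E) : Set W := {v | ∃ c, IsLift D x v c}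

open Classical in
/-- The end point of the lift of the segment `[D x, D x + v]` starting at `x`
(equal to `x` when there is no lift). -/
noncomputable def ext (D : E → W) (x : E) (v : W) : E :=
  if h : ∃ c, IsLift D x v c then (Classical.choose h) 1 else x

end Star

/-! ### the linear trick -/

section Dev

variable {E : Type*} [TopologicalSpace E]

/-- `D^ (y, z) = e^z D y`, a map `E × ℂ → M₂`. -/
noncomputable def Dh (D : E → SL) : E × ℂ → M2 := fun p => Complex.exp p.2 • (D p.1 : M2)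

/-- The set `S(y)` of all `X ∈ M₂` such that the segment `s ↦ D(y)(1 + s X)`, `s ∈ [0,1]`, lifts to
`E × ℂ` from `(y, 0)`. -/
def St (D : E → SL) (y : E) : Set M2 := {X | (D y : M2) * X ∈ Star (Dh D) (y, 0)}

/-- end point in `E × ℂ`. -/
noncomputable def exh (D : E → SL) (y : E) (X : M2) : E × ℂ := ext (Dh D) (y, 0) ((D y : M2) * X)

/-- end point `y.(1+X)` in `E`. -/
noncomputable def mvp (D : E → SL) (y : E) (X : M2) : E := (exh D y X).1

/-- `y.g` for `g ∈ SL(2,ℂ)` (meaningful when `g - 1 ∈ St D y`). -/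
noncomputable def ac (D : E → SL) (y : E) (g : SL) : E := mvp D y ((g : M2) - 1)

/-- admissible constants. -/
structure Cst (r0 L : ℝ) : Prop where
  r0pos : 0 < r0
  r0le : r0 ≤ 1 / 4
  Lpos : 0 < L
  Lr0 : L * r0 ≤ 1 / 4

/-- The geometric structure: developing map, Hermitian structure `J` with constants `r0, L`. -/
structure Geo (E : Type*) [TopologicalSpace E] (r0 L : ℝ) where
  /-- the developing map -/
  D : E → SL
  hD : IsLocalHomeomorph (Dh D)
  /-- the Hermitian form at `y` -/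
  J : E → M2
  form : ∀ y, ∃ k : SL, Fr (J y) k
  /-- (h1) free balls -/
  slab : ∀ y (k : SL), Fr (J y) k → ∀ X : M2, nm (cj k X) < r0 → X ∈ St D y
  /-- (h2) Lipschitz -/
  lip : ∀ y (k : SL), Fr (J y) k → ∀ g : SL, nm (cj k ((g : M2) - 1)) < r0 →
    nm (fcj k (J (ac D y g)) - 1) ≤ L * nm (cj k ((g : M2) - 1))

/-- `e(y,ψ) = 1 / R(y,ψ)`, `R` the radius of the largest disc `{t n(ψ) : |t| < R}` in `S`. -/
noncomputable def eD (D : E → SL) (y : E) (ψ : V) : ℝ :=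
  sInf {ρ : ℝ | 0 ≤ ρ ∧ ∀ t : ℂ, ‖t‖ * ρ < 1 → t • nn ψ ∈ St D y}

/-- `m(y,k) = max_{|ψ|=1} e(y, k⁻¹ ψ)`. -/
noncomputable def mD (D : E → SL) (y : E) (k : SL) : ℝ :=
  sSup ((fun ψ : V => eD D y (((k⁻¹ : SL) : M2) *ᵥ ψ)) '' {ψ | nsq ψ = 1})

/-- `v(y,k) = (m - 1/(4m))^2`. -/
noncomputable def vD (D : E → SL) (y : E) (k : SL) : ℝ := (mD D y k - 1 / (4 * mD D y k)) ^ 2

/-! ### planes -/

/-- planes = rank one idempotents `P`. -/
def IsPl (P : M2) : Prop := P.trace = 1 ∧ P.det = 0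

/-- `q_P(ψ) = tr (P n(ψ))`; the null line `y(1 + t n(ψ))` meets the plane at `t = -1/q_P(ψ)`. -/
def qP (P : M2) (ψ : V) : ℂ := (P * nn ψ).trace

/-- the same plane seen from `y.g`: `P^g = P g / tr (P g)`. -/
noncomputable def pmv (P : M2) (g : SL) : M2 := ((P * (g : M2)).trace)⁻¹ • (P * (g : M2))

/-- `P` is strongly visible at `(y,ψ)` with constant `C`. -/
def SVis {r0 L : ℝ} (G : Geo E r0 L) (y : E) (ψ : V) (P : M2) (C : ℝ) : Prop :=
  qP P ψ ≠ 0 ∧ ∀ s ∈ Ico (0:ℝ) 1, (-(s : ℂ) / qP P ψ) • nn ψ ∈ St G.D y ∧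
    hf (G.J (ac G.D y (uni (-(s : ℂ) / qP P ψ) ψ))) (P *ᵥ ψ) ≤
      C ^ 2 * (1 - s) ^ 2 * hf (G.J (ac G.D y (uni (-(s : ℂ) / qP P ψ) ψ))) ψ

end Dev

end HRK
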