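import Pool.Agent.HRK.Defs

/-!
# HRK : more definitions (HS functions, group data)
-/

namespace HRK

open Set Filter Topology Matrix

section Dev

variable {E : Type*} [TopologicalSpace E]

/-- free ball of radius `r` in the frame `k` at `y`. -/
def FB (D : E → SL) (y : E) (k : SL) (r : ℝ) : Prop := ∀ X : M2, nm (cj k X) < r → X ∈ St D y

/-- `EVis`: `P` is a plane, Hermitian in the frame `k`, strongly visible near every point `ψ` of its
circle, uniformly (constants `c`, `C`). -/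
def EVis {r0 L : ℝ} (G : Geo E r0 L) (y : E) (k : SL) (P : M2) (c C : ℝ) : Prop :=
  IsPl P ∧ (cj k P).IsHermitian ∧ ∀ ψ : V, nsq ψ = 1 → ‖qP (cj k P) ψ‖ = 1 / 2 →
    ∀ (g : SL) (ψ' : V), nm (cj k ((g : M2) - 1)) < c → vn (ψ' - ψ) < c →
      SVis G (ac G.D y g) (((k⁻¹ : SL) : M2) *ᵥ ψ') (pmv P g) C

/-- the frame with coordinates `(z,t)`: `k = diag(t^{-1/2}, t^{1/2}) [[1,-z],[0,1]]`. -/
noncomputable def fz (z : ℂ) (t : ℝ) : SL := dg (-Real.log t) * uni (-z) e1

/-- the plane of the rank one matrix `U` seen from `y`. -/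
noncomputable def plU (D : E → SL) (U : M2) (y : E) : M2 :=
  ((U * (D y : M2)).trace)⁻¹ • (U * (D y : M2))

/-- `f` is a function with holomorphic supports on the (open) set `W ⊆ E`: near every point `y`
with `f y > 0` there is a holomorphic `F` with `|F| ≤ f`, `|F| = f` at `y`. The complex structure of
`E` is seen through `X ↦ y.(1+X)`, along complex lines of `M₂`. -/
def HS (D : E → SL) (W : Set E) (f : E → ℝ) : Prop :=
  ContinuousOn f W ∧ (∀ y ∈ W, 0 ≤ f y) ∧ ∀ y ∈ W, 0 < f y →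
    ∃ (r : ℝ) (F : M2 → ℂ), 0 < r ∧ ‖F 0‖ = f y ∧
      (∀ X, nm X < r → X ∈ St D y ∧ mvp D y X ∈ W ∧ ‖F X‖ ≤ f (mvp D y X)) ∧
      ∀ X Z : M2, DifferentiableOn ℂ (fun l : ℂ => F (X + l • Z)) {l | nm (X + l • Z) < r}

/-- Developing data of a compact manifold locally modelled on `SL(2,ℂ)` with the group of maps
`x ↦ A x B⁻¹`. -/
structure Dev (Γ E : Type*) [Group Γ] [TopologicalSpace E] [MulAction Γ E] where
  /-- the developing map -/
  D : E → SL
  hD : IsLocalHomeomorph D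
  /-- left holonomy -/
  A : Γ → SL
  /-- right holonomy -/
  B : Γ → SL
  equiv : ∀ γ y, D (γ • y) = A γ * D y * (B γ)⁻¹
  A_mul : ∀ γ γ', ((A (γ * γ') : SL) : M2) = (A γ : M2) * (A γ' : M2) ∨
    ((A (γ * γ') : SL) : M2) = -((A γ : M2) * (A γ' : M2))
  B_mul : ∀ γ γ', ((B (γ * γ') : SL) : M2) = (B γ : M2) * (B γ' : M2) ∨
    ((B (γ * γ') : SL) : M2) = -((B γ : M2) * (B γ' : M2))
  cont : ∀ γ : Γ, Continuous fun x : E => γ • x
  /-- freeness -/
  free : ∀ (γ : Γ) (x : E), γ • x = x → γ = 1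
  /-- proper discontinuity -/
  pd : ∀ C : Set E, IsCompact C → {γ : Γ | ∃ x ∈ C, γ • x ∈ C}.Finite
  /-- a compact set meeting all orbits -/
  K : Set E
  hK : IsCompact K
  cover : ∀ x : E, ∃ γ : Γ, γ • x ∈ K

end Dev

end HRK
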