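import Pool.Agent.HRK.Defs2
import Pool.Agent.HRK.Cj

/-!
# HRK : definitions used in part P1
-/

namespace HRK

open Set Filter Topology Matrix

universe u

variable {E : Type*} [TopologicalSpace E] [T2Space E] {r0 L : ℝ}

/-- the plane `P0 = [[0,0],[-1,1]]` (range `e₂`, kernel `e₁ + e₂`). -/
def P0 : M2 := !![0, 0; -1, 1]

/-- the point `y_t = y.(1 + t n(e₁))` of the null disc of the direction `e₁`. -/
noncomputable def yt (D : E → SL) (y : E) (t : ℂ) : E := ac D y (uni t e1)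

/-- Normalised situation: the null disc of direction `e₁` has radius exactly `1`, the point `t = 1`
is ideal, and `ζ → 0` at the ideal point. -/
structure NormAt (G : Geo E r0 L) (y : E) : Prop where
  disc : ∀ t : ℂ, ‖t‖ < 1 → t • nn e1 ∈ St G.D y
  ideal : nn e1 ∉ St G.D y
  zeta : ∀ w ∈ Ioc (0:ℝ) 1, ‖Zc (G.J (yt G.D y ((1 - w : ℝ) : ℂ)))‖ ≤ 2 * L * w
  tc : ∀ w ∈ Ioc (0:ℝ) 1, Tc (G.J (yt G.D y ((1 - w : ℝ) : ℂ))) ≤ w / r0

/-- `G_w = (1 + (1-w) E₁₂)⁻¹ g (1 + (1-w) t' n(ψ'))`, `t' = -1 / q_{P0^g}(ψ')`. -/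
noncomputable def Gw (g : SL) (ψ : V) (w : ℝ) : SL :=
  uni (-((1 - w : ℝ) : ℂ)) e1 * g * uni (-((1 - w : ℝ) : ℂ) / qP (pmv P0 g) ψ) ψ

/-- The facts of section 7.2 with common constants `c, C`. -/
structure VisPkg (r0 L c C : ℝ) : Prop where
  c_pos : 0 < c
  C_pos : 0 < C
  /-- (7.2) EXACT: if `m(y,k) = 1/2` (`v = 0`) every contact plane is Hermitian in the frame and
  strongly visible along its circle. -/
  exact_circle : ∀ (C1 : ℝ) (E : Type u) [TopologicalSpace E] [T2Space E] (G : Geo E r0 L) (y : E)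
    (k : SL) (ψ : V) (P : M2), mD G.D y k = 1 / 2 → nsq ψ = 1 → IsPl P →
    ‖qP (cj k P) ψ‖ = 1 / 2 → SVis G y (((k⁻¹ : SL) : M2) *ᵥ ψ) P C1 → EVis G y k P c C
  /-- (7.2') existence of a contact plane when `v = 0`. -/
  exists_contact : ∀ (E : Type u) [TopologicalSpace E] [T2Space E] (G : Geo E r0 L) (y : E)
    (k : SL), mD G.D y k = 1 / 2 → ∃ P, EVis G y k P c C
  /-- (7.2'') the lower bound given by exact visibility. -/
  lower : ∃ c4 > 0, ∀ (E : Type u)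
    [TopologicalSpace E] [T2Space E] (G : Geo E r0 L) (y : E) (k : SL) (P : M2),
    EVis G y k P c C → ∀ g k1 : SL,
      nm (cj k ((g : M2) - 1)) < c4 → nm ((k1 : M2) - 1) < c4 →
      fro (cj (k1 * k) (pmv P g)) - 1 ≤ vD G.D (ac G.D y g) (k1 * k)

/-- inner radius function of the open set `O` at `y` (in the fixed frame `1`). -/
noncomputable def dlt (D : E → SL) (O : Set E) (y : E) : ℝ :=
  sSup {r : ℝ | 0 ≤ r ∧ r ≤ 1 / 4 ∧ ∀ X : M2, nm X < r → X ∈ St D y ∧ mvp D y X ∈ O}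

/-- the form `∑_γ δ(γ⁻¹ y) (B_γ⁻¹)^* B_γ⁻¹`. -/
noncomputable def Hs {Γ : Type*} [Group Γ] [MulAction Γ E] (S : Dev Γ E) (O : Set E) (y : E) : M2 :=
  ∑ᶠ γ : Γ, ((dlt S.D O (γ⁻¹ • y) : ℝ) : ℂ) •
    ((((S.B γ)⁻¹ : SL) : M2)ᴴ * (((S.B γ)⁻¹ : SL) : M2))

/-- normalisation to determinant one. -/
noncomputable def nrmH (H : M2) : M2 := ((1 / Real.sqrt H.det.re : ℝ) : ℂ) • H

end HRK
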