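import Pool.Agent.HRK.N3
import Pool.Agent.HRK.B4
import Pool.Agent.HRK.B6

/-!
# HRK-E1 : the function `eD`
-/

namespace HRK

open Set Filter Topology Matrix

variable {E : Type*} [TopologicalSpace E] {r0 L : ℝ}

/-- Proof. `Real.sInf_nonneg`. -/
theorem eD_nonneg (D : E → SL) (y : E) (ψ : V) : 0 ≤ eD D y ψ := by
  exact Real.sInf_nonneg (fun ρ h => h.1)

theorem eD_le {D : E → SL} {y : E} {ψ : V} {ρ : ℝ} (h0 : 0 ≤ ρ)
    (h : ∀ t : ℂ, ‖t‖ * ρ < 1 → t • nn ψ ∈ St D y) : eD D y ψ ≤ ρ := by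
  exact csInf_le ⟨0, fun x hx => hx.1⟩ ⟨h0, h⟩

/-- The defining set is not empty. Proof. `St D y` is an open set containing `0`, so it contains
`{X | nm X < r}`; take `ρ = (nsq ψ + 1)/r`: `nm (t • nn ψ) = ‖t‖ nsq ψ < r` if `‖t‖ ρ < 1`. -/
theorem eD_set_nonempty [T2Space E] {D : E → SL} (hD : IsLocalHomeomorph (Dh D)) (y : E) (ψ : V) :
    {ρ : ℝ | 0 ≤ ρ ∧ ∀ t : ℂ, ‖t‖ * ρ < 1 → t • nn ψ ∈ St D y}.Nonempty := by
  obtain ⟨r, hr, hball⟩ := exists_nm_ball ((isOpen_St hD y).mem_nhds (zero_mem_St y))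
  have hn : 0 ≤ nsq ψ := nsq_nonneg ψ
  refine ⟨(nsq ψ + 1) / r, by positivity, ?_⟩
  intro t ht
  apply hball
  rw [nm_smul, nm_nn]
  rw [mul_div_assoc', div_lt_one hr] at ht
  have h1 : 0 ≤ ‖t‖ := norm_nonneg t
  nlinarith

/-- Proof. If `‖t‖ e < 1` there is `ρ` in the defining set, close to the infimum, with
`‖t‖ ρ < 1`. -/
theorem mem_St_of_eD [T2Space E] {D : E → SL} (hD : IsLocalHomeomorph (Dh D)) {y : E} {ψ : V}
    {t : ℂ} (h : ‖t‖ * eD D y ψ < 1) : t • nn ψ ∈ St D y := by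
  have hne := eD_set_nonempty hD y ψ
  rcases eq_or_lt_of_le (norm_nonneg t) with ht | ht
  · obtain ⟨ρ, h0, h1⟩ := hne
    apply h1
    rw [← ht]
    norm_num
  · have h2 : eD D y ψ < 1 / ‖t‖ := by
      rw [lt_div_iff₀ ht, mul_comm]
      exact h
    obtain ⟨ρ, hρ, hlt⟩ := exists_lt_of_csInf_lt hne h2
    apply hρ.2
    rw [lt_div_iff₀ ht, mul_comm] at hlt
    exact hlt

/-- Proof. For `a = 0`: `nn 0 = 0 ∈ St D y`, so the set is `[0,∞)`. For `a ≠ 0` the defining set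
for `a ψ` is `‖a‖²` times the one for `ψ` (`nn_smul`, substitute `t = t' / a²`);
`Real.sInf_smul_of_nonneg`. -/
theorem eD_smul (D : E → SL) (y : E) (ψ : V) (a : ℂ) : eD D y (a • ψ) = ‖a‖ ^ 2 * eD D y ψ := by
  by_cases ha : a = 0
  · subst ha
    have h1 : nn ((0 : ℂ) • ψ) = 0 := by
      rw [nn_smul]
      simp
    have h2 : eD D y ((0 : ℂ) • ψ) ≤ 0 := by
      apply eD_le le_rfl
      intro t _
      rw [h1, smul_zero]
      exact zero_mem_St y
    have h3 := eD_nonneg D y ((0 : ℂ) • ψ)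
    rw [norm_zero]
    nlinarith
  · have hna : 0 < ‖a‖ := norm_pos_iff.mpr ha
    have hna2 : 0 < ‖a‖ ^ 2 := by positivity
    open scoped Pointwise in
    have hset : {ρ : ℝ | 0 ≤ ρ ∧ ∀ t : ℂ, ‖t‖ * ρ < 1 → t • nn (a • ψ) ∈ St D y}
        = (‖a‖ ^ 2) • {ρ : ℝ | 0 ≤ ρ ∧ ∀ t : ℂ, ‖t‖ * ρ < 1 → t • nn ψ ∈ St D y} := by
      ext ρ
      rw [Set.mem_smul_set_iff_inv_smul_mem₀ (ne_of_gt hna2)]
      simp only [Set.mem_setOf_eq, smul_eq_mul]
      constructor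
      · rintro ⟨h0, h1⟩
        refine ⟨by positivity, ?_⟩
        intro t ht
        have h2 := h1 (t / a ^ 2) (by
          rw [norm_div, norm_pow]
          calc ‖t‖ / ‖a‖ ^ 2 * ρ = ‖t‖ * ((‖a‖ ^ 2)⁻¹ * ρ) := by ring
            _ < 1 := ht)
        rw [nn_smul, smul_smul, div_mul_cancel₀ _ (pow_ne_zero 2 ha)] at h2
        exact h2
      · rintro ⟨h0, h1⟩
        have hρ : 0 ≤ ρ := by
          have h3 : ρ = ‖a‖ ^ 2 * ((‖a‖ ^ 2)⁻¹ * ρ) := by
            rw [← mul_assoc, mul_inv_cancel₀ (ne_of_gt hna2), one_mul]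
          rw [h3]
          positivity
        refine ⟨hρ, ?_⟩
        intro t ht
        rw [nn_smul, smul_smul]
        apply h1
        rw [norm_mul, norm_pow]
        calc ‖t‖ * ‖a‖ ^ 2 * ((‖a‖ ^ 2)⁻¹ * ρ) = ‖t‖ * ρ := by
              field_simp
          _ < 1 := ht
    unfold eD
    rw [hset, Real.sInf_smul_of_nonneg (le_of_lt hna2), smul_eq_mul]

/-- Proof. If `‖t‖ e < 1` then `t • nn ψ ∈ St`, by `mem_St_of_eD`. -/
theorem one_le_of_not_mem [T2Space E] {D : E → SL} (hD : IsLocalHomeomorph (Dh D)) {y : E} {ψ : V}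
    {t : ℂ} (h : t • nn ψ ∉ St D y) : 1 ≤ ‖t‖ * eD D y ψ := by
  by_contra hcon
  exact h (mem_St_of_eD hD (not_le.mp hcon))

/-- Upper semicontinuity.

Proof. Let `eD D y ψ < b`; choose `b'` with `max 0 e < b' < b`. The compact disc
`{‖t‖ ≤ 1/b'}` is contained in `{‖t‖ e < 1}`, so `t • nn ψ ∈ St D y` there. The set
`{(y', ψ', t) | t • nn ψ' ∈ St D y'}` is open (`isOpen_StGraph`), tube lemma
(`generalized_tube_lemma` / `IsCompact.eventually_forall_of_forall_eventually`): for `(y',ψ')` near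
`(y,ψ)` all `t` of the disc are fine, so `eD D y' ψ' ≤ b' < b` (`eD_le`). -/
theorem eD_usc [T2Space E] {D : E → SL} (hD : IsLocalHomeomorph (Dh D)) (y : E) (ψ : V) {b : ℝ}
    (h : eD D y ψ < b) : ∀ᶠ p : E × V in 𝓝 (y, ψ), eD D p.1 p.2 < b := by
  have he : 0 ≤ eD D y ψ := eD_nonneg D y ψ
  obtain ⟨b', hb1, hb2⟩ : ∃ b', eD D y ψ < b' ∧ b' < b := exists_between h
  have hb0 : 0 < b' := lt_of_le_of_lt he hb1
  have hK : IsCompact (Metric.closedBall (0 : ℂ) (1 / b')) := isCompact_closedBall _ _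
  have hcont : Continuous fun q : (E × V) × ℂ => (q.1.1, q.2 • nn q.1.2) :=
    (continuous_fst.comp continuous_fst).prodMk
      (continuous_snd.smul (continuous_nn.comp (continuous_snd.comp continuous_fst)))
  have hO := (isOpen_StGraph hD).preimage hcont
  have h1 : ∀ᶠ p : E × V in 𝓝 (y, ψ), ∀ t ∈ Metric.closedBall (0 : ℂ) (1 / b'),
      t • nn p.2 ∈ St D p.1 := by
    apply hK.eventually_forall_of_forall_eventually
    intro t ht
    have hmem : ((y, ψ), t) ∈ (fun q : (E × V) × ℂ => (q.1.1, q.2 • nn q.1.2)) ⁻¹'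
        {q : E × M2 | q.2 ∈ St D q.1} := by
      show t • nn ψ ∈ St D y
      apply mem_St_of_eD hD
      have ht' : ‖t‖ ≤ 1 / b' := by
        rw [mem_closedBall_zero_iff] at ht
        exact ht
      calc ‖t‖ * eD D y ψ ≤ 1 / b' * eD D y ψ := mul_le_mul_of_nonneg_right ht' he
        _ < 1 := by
          rw [one_div, inv_mul_lt_iff₀ hb0, mul_one]
          exact hb1
    exact hO.mem_nhds hmem
  filter_upwards [h1] with p hp
  refine lt_of_le_of_lt (eD_le (le_of_lt hb0) ?_) hb2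
  intro t ht
  apply hp
  rw [mem_closedBall_zero_iff, le_div_iff₀ hb0]
  exact le_of_lt ht

/-- Existence of ideal points.

Proof. Otherwise all `t` with `‖t‖ e ≤ 1` have `t • nn ψ ∈ St D y` (for `‖t‖ e < 1` by
`mem_St_of_eD`). The closed disc `{‖t‖ ≤ 1/e}` is compact and `{t | t • nn ψ ∈ St D y}` is open, so
it contains a disc `{‖t‖ < 1/e + ε}` (`IsCompact.exists_thickening_subset_open` or
`exists_infDist…`), hence `eD ≤ 1/(1/e + ε) < e`. -/
theorem exists_ideal [T2Space E] {D : E → SL} (hD : IsLocalHomeomorph (Dh D)) {y : E} {ψ : V}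
    (h : 0 < eD D y ψ) : ∃ t0 : ℂ, ‖t0‖ * eD D y ψ = 1 ∧ t0 • nn ψ ∉ St D y := by
  by_contra hcon
  push Not at hcon
  have hall : Metric.closedBall (0 : ℂ) (1 / eD D y ψ) ⊆ {t : ℂ | t • nn ψ ∈ St D y} := by
    intro t ht
    rw [mem_closedBall_zero_iff, le_div_iff₀ h] at ht
    rcases lt_or_eq_of_le ht with h1 | h1
    · exact mem_St_of_eD hD h1
    · exact hcon t h1
  have hopen : IsOpen {t : ℂ | t • nn ψ ∈ St D y} := by
    have hc : Continuous fun t : ℂ => t • nn ψ := continuous_id.smul continuous_const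
    exact (isOpen_St hD y).preimage hc
  obtain ⟨δ, hδ, hsub⟩ :=
    (isCompact_closedBall (0 : ℂ) (1 / eD D y ψ)).exists_thickening_subset_open hopen hall
  rw [thickening_closedBall hδ (by positivity)] at hsub
  have hpos : 0 < δ + 1 / eD D y ψ := by positivity
  have h1 : eD D y ψ ≤ 1 / (δ + 1 / eD D y ψ) := by
    apply eD_le (by positivity)
    intro t ht
    apply hsub
    rw [mem_ball_zero_iff]
    rw [mul_one_div, div_lt_one hpos] at ht
    exact ht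
  rw [le_div_iff₀ hpos] at h1
  have h2 : eD D y ψ * (δ + 1 / eD D y ψ) = eD D y ψ * δ + 1 := by
    field_simp
  rw [h2] at h1
  have h3 : 0 < eD D y ψ * δ := by positivity
  linarith

/-- Proof. A frame `k` of `J y`: `nm (cj k (t • nn ψ)) = ‖t‖ hf (J y) ψ < r0` if
`‖t‖ (hf/r0) < 1` (`Fr.nm_cj_nn`); `G.slab`. -/
theorem eD_le_hf [T2Space E] (hc : Cst r0 L) (G : Geo E r0 L) (y : E) (ψ : V) :
    eD G.D y ψ ≤ hf (G.J y) ψ / r0 := by
  obtain ⟨k, hk⟩ := G.form y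
  have hr : 0 < r0 := hc.r0pos
  have hn : 0 ≤ hf (G.J y) ψ := hf_nonneg hk ψ
  apply eD_le (by positivity)
  intro t ht
  apply G.slab y k hk
  rw [cj_smul, nm_smul, hk.nm_cj_nn ψ]
  rw [mul_div_assoc', div_lt_one hr] at ht
  exact ht

/-- Equivariance. Proof. `mvp_equiv` for `T = γ • ·` and (for the other inclusion) for
`T = γ⁻¹ • ·`, where `D (γ⁻¹ • y) = (A γ)⁻¹ D y (B γ)` follows from `S.equiv γ (γ⁻¹ • y)`. Also
`cj B (t • nn ψ) = t • nn (B ψ)`. -/
theorem eD_equiv [T2Space E] {Γ : Type*} [Group Γ] [MulAction Γ E] (S : Dev Γ E)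
    (hD : IsLocalHomeomorph (Dh S.D)) (γ : Γ) (y : E) (ψ : V) :
    eD S.D (γ • y) ((S.B γ : M2) *ᵥ ψ) = eD S.D y ψ := by
  have key : ∀ t : ℂ, t • nn ((S.B γ : M2) *ᵥ ψ) ∈ St S.D (γ • y) ↔ t • nn ψ ∈ St S.D y := by
    intro t
    constructor
    · intro h
      have hT : Continuous fun x : E => γ⁻¹ • x := S.cont γ⁻¹
      have hTD : ∀ y' : E, S.D (γ⁻¹ • y') = (S.A γ)⁻¹ * S.D y' * ((S.B γ)⁻¹)⁻¹ := by
        intro y'
        have h1 := S.equiv γ (γ⁻¹ • y')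
        rw [smul_inv_smul] at h1
        rw [h1]
        group
      have h2 := (mvp_equiv hD hT hTD h).1
      have h3 : cj (S.B γ)⁻¹ (t • nn ((S.B γ : M2) *ᵥ ψ)) = t • nn ψ := by
        rw [cj_smul, cj_nn, Matrix.mulVec_mulVec, coe_inv_mul, Matrix.one_mulVec]
      rw [h3] at h2
      simp only [inv_smul_smul] at h2
      exact h2
    · intro h
      have h2 := (mvp_equiv hD (S.cont γ) (S.equiv γ) h).1
      have h3 : cj (S.B γ) (t • nn ψ) = t • nn ((S.B γ : M2) *ᵥ ψ) := by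
        rw [cj_smul, cj_nn]
      rw [h3] at h2
      exact h2
  unfold eD
  congr 1
  ext ρ
  simp only [Set.mem_setOf_eq, key]

/-- `eD` at the points of a null disc: `R' ≥ R - |t|`.

Proof. Let `e = eD D y ψ`, `‖t‖ e < 1`. If `e = 0` all of the null line is free at `y`, hence at
`y'` (`null_ac` with arbitrarily large `R`), `eD = 0`. If `e > 0`, `R = 1/e`: `null_ac` gives
`t' • nn ψ ∈ St D y'` for `‖t'‖ < R - ‖t‖`, so `eD D y' ψ ≤ 1/(R - ‖t‖) = e/(1 - ‖t‖ e)`. -/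
theorem eD_ac_uni_le [T2Space E] {D : E → SL} (hD : IsLocalHomeomorph (Dh D)) {y : E} {ψ : V}
    {t : ℂ} (h : ‖t‖ * eD D y ψ < 1) :
    eD D (ac D y (uni t ψ)) ψ ≤ eD D y ψ / (1 - ‖t‖ * eD D y ψ) := by
  have he : 0 ≤ eD D y ψ := eD_nonneg D y ψ
  rcases eq_or_lt_of_le he with he0 | he0
  · rw [← he0] at h ⊢
    rw [zero_div]
    apply eD_le le_rfl
    intro t' _
    have h1 : ∀ s : ℂ, ‖s‖ < ‖t‖ + ‖t'‖ + 1 → s • nn ψ ∈ St D y := by
      intro s _
      apply mem_St_of_eD hD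
      rw [← he0]
      norm_num
    exact (null_ac hD h1 (by
      have := norm_nonneg t'
      linarith) (by
      have := norm_add_le t t'
      linarith)).1
  · have h1 : ∀ s : ℂ, ‖s‖ < 1 / eD D y ψ → s • nn ψ ∈ St D y := by
      intro s hs
      apply mem_St_of_eD hD
      rw [lt_div_iff₀ he0] at hs
      exact hs
    have hd : 0 < 1 - ‖t‖ * eD D y ψ := by linarith
    apply eD_le (by positivity)
    intro t' ht'
    have h2 : ‖t‖ + ‖t'‖ < 1 / eD D y ψ := by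
      rw [lt_div_iff₀ he0]
      rw [mul_div_assoc', div_lt_one hd] at ht'
      linarith
    refine (null_ac hD h1 ?_ ?_).1
    · have := norm_nonneg t'
      linarith
    · have := norm_add_le t t'
      linarith

/-- free balls bound `eD`: `eD D y (k⁻¹ ψ) ≤ |ψ|²/r`. Proof. `nm (cj k (t • nn (k⁻¹ψ))) = ‖t‖ |ψ|²`. -/
theorem eD_le_of_FB {D : E → SL} {y : E} {k : SL} {r : ℝ} (hr : 0 < r) (h : FB D y k r) (ψ : V) :
    eD D y (((k⁻¹ : SL) : M2) *ᵥ ψ) ≤ nsq ψ / r := by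
  have hn : 0 ≤ nsq ψ := nsq_nonneg ψ
  apply eD_le (by positivity)
  intro t ht
  apply h
  rw [cj_smul, nm_smul, cj_nn, Matrix.mulVec_mulVec, coe_mul_inv, Matrix.one_mulVec, nm_nn]
  rw [mul_div_assoc', div_lt_one hr] at ht
  exact ht

end HRK
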