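import Pool.Agent.HRK.E1
import Pool.Agent.HRK.Cj

/-!
# HRK-E2 : the function `mD`
-/

namespace HRK

open Set Filter Topology Matrix

variable {E : Type*} [TopologicalSpace E] {r0 L : ℝ}

theorem e2_sphere_nonempty : ({ψ : V | nsq ψ = 1} : Set V).Nonempty := by
  refine ⟨e1, ?_⟩
  rw [mem_ofPred_eq, nsq_eq]
  simp [e1]

theorem e2_cont (k : SL) : Continuous fun ψ : V => ((k⁻¹ : SL) : M2) *ᵥ ψ :=
  Continuous.matrix_mulVec continuous_const continuous_id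

theorem e2_usc [T2Space E] (G : Geo E r0 L) (y : E) (k : SL) :
    UpperSemicontinuous fun ψ : V => eD G.D y (((k⁻¹ : SL) : M2) *ᵥ ψ) := by
  intro ψ b hb
  have h := eD_usc G.hD y (((k⁻¹ : SL) : M2) *ᵥ ψ) hb
  have hc : Continuous fun ψ : V => ((y, ((k⁻¹ : SL) : M2) *ᵥ ψ) : E × V) :=
    Continuous.prodMk continuous_const (e2_cont k)
  exact (hc.tendsto ψ).eventually h

theorem e2_normSq {ψ : V} (h : nsq ψ ≠ 0) :
    ∃ (a : ℂ) (φ : V), nsq φ = 1 ∧ ψ = a • φ ∧ ‖a‖ ^ 2 = nsq ψ := by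
  have hpos : 0 < nsq ψ := lt_of_le_of_ne (nsq_nonneg ψ) (Ne.symm h)
  have hs : 0 < Real.sqrt (nsq ψ) := Real.sqrt_pos.mpr hpos
  have hsq : Real.sqrt (nsq ψ) ^ 2 = nsq ψ := Real.sq_sqrt hpos.le
  have hne : ((Real.sqrt (nsq ψ) : ℝ) : ℂ) ≠ 0 := by
    exact_mod_cast hs.ne'
  refine ⟨(Real.sqrt (nsq ψ) : ℂ), ((Real.sqrt (nsq ψ) : ℂ))⁻¹ • ψ, ?_, ?_, ?_⟩
  · rw [nsq_smul, norm_inv, Complex.norm_real, Real.norm_of_nonneg hs.le, inv_pow, hsq]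
    exact inv_mul_cancel₀ h
  · rw [smul_smul, mul_inv_cancel₀ hne, one_smul]
  · rw [Complex.norm_real, Real.norm_of_nonneg hs.le, hsq]

theorem e2_le_csSup [T2Space E] (hc : Cst r0 L) (G : Geo E r0 L) (y : E) (k : SL)
    (hb : BddAbove ((fun ψ : V => eD G.D y (((k⁻¹ : SL) : M2) *ᵥ ψ)) '' {ψ | nsq ψ = 1}))
    {ψ : V} (h : nsq ψ = 1) : eD G.D y (((k⁻¹ : SL) : M2) *ᵥ ψ) ≤ mD G.D y k :=
  le_csSup hb ⟨ψ, h, rfl⟩

/-- Proof. `eD_le_hf`, `hf` is continuous and the sphere is compact. -/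
theorem bddAbove_eD [T2Space E] (hc : Cst r0 L) (G : Geo E r0 L) (y : E) (k : SL) :
    BddAbove ((fun ψ : V => eD G.D y (((k⁻¹ : SL) : M2) *ᵥ ψ)) '' {ψ | nsq ψ = 1}) := by
  obtain ⟨ψ, hψ, hmax⟩ := UpperSemicontinuousOn.exists_isMaxOn e2_sphere_nonempty
    isCompact_sphere ((e2_usc G y k).upperSemicontinuousOn _)
  refine ⟨eD G.D y (((k⁻¹ : SL) : M2) *ᵥ ψ), ?_⟩
  rintro _ ⟨φ, hφ, rfl⟩
  exact hmax hφ

/-- the maximum is attained. Proof. The function is upper semicontinuous (`eD_usc` composed with the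
continuous map `ψ ↦ (y, k⁻¹ ψ)`) and the sphere is compact and not empty
(`UpperSemicontinuousOn.exists_isMaxOn` if available; otherwise: take `ψ_n` with values tending to
the supremum, a convergent subsequence, and `eD_usc`). -/
theorem mD_attained [T2Space E] (hc : Cst r0 L) (G : Geo E r0 L) (y : E) (k : SL) :
    ∃ ψ : V, nsq ψ = 1 ∧ eD G.D y (((k⁻¹ : SL) : M2) *ᵥ ψ) = mD G.D y k := by
  obtain ⟨ψ, hψ, hmax⟩ := UpperSemicontinuousOn.exists_isMaxOn e2_sphere_nonempty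
    isCompact_sphere ((e2_usc G y k).upperSemicontinuousOn _)
  refine ⟨ψ, hψ, le_antisymm (le_csSup (bddAbove_eD hc G y k) ⟨ψ, hψ, rfl⟩) ?_⟩
  refine csSup_le (e2_sphere_nonempty.image _) ?_
  rintro _ ⟨φ, hφ, rfl⟩
  exact hmax hφ

/-- Proof. Scale: `ψ = |ψ| ψ'`, `eD_smul`; `ψ = 0`: `eD_smul` with `a = 0`. -/
theorem eD_le_mD [T2Space E] (hc : Cst r0 L) (G : Geo E r0 L) (y : E) (k : SL) (ψ : V) :
    eD G.D y (((k⁻¹ : SL) : M2) *ᵥ ψ) ≤ mD G.D y k * nsq ψ := by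
  by_cases h : nsq ψ = 0
  · have hv : vn ψ = 0 := by
      rw [vn, h, Real.sqrt_zero]
    have h0 : ψ = 0 := vn_eq_zero.mp hv
    have h1 : (((k⁻¹ : SL) : M2) *ᵥ ψ) = (0 : ℂ) • (((k⁻¹ : SL) : M2) *ᵥ ψ) := by
      rw [h0]
      simp
    rw [h, mul_zero, h1, eD_smul]
    simp
  · obtain ⟨a, φ, hφ, hψ, ha⟩ := e2_normSq h
    have h2 : (((k⁻¹ : SL) : M2) *ᵥ ψ) = a • (((k⁻¹ : SL) : M2) *ᵥ φ) := by
      rw [hψ, Matrix.mulVec_smul]
    rw [h2, eD_smul, ha, mul_comm]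
    exact mul_le_mul_of_nonneg_right
      (e2_le_csSup hc G y k (bddAbove_eD hc G y k) hφ) (nsq_nonneg ψ)

theorem mD_nonneg [T2Space E] (hc : Cst r0 L) (G : Geo E r0 L) (y : E) (k : SL) :
    0 ≤ mD G.D y k := by
  obtain ⟨ψ, _, hψ⟩ := mD_attained hc G y k
  rw [← hψ]
  exact eD_nonneg _ _ _

theorem mD_le [T2Space E] (hc : Cst r0 L) (G : Geo E r0 L) (y : E) (k : SL) {C : ℝ}
    (h : ∀ ψ : V, nsq ψ = 1 → eD G.D y (((k⁻¹ : SL) : M2) *ᵥ ψ) ≤ C) : mD G.D y k ≤ C := by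
  obtain ⟨ψ, h1, hψ⟩ := mD_attained hc G y k
  rw [← hψ]
  exact h ψ h1

theorem e2_inv_mul (k k1 : SL) (ψ : V) :
    (((k1 * k)⁻¹ : SL) : M2) *ᵥ ψ = ((k⁻¹ : SL) : M2) *ᵥ (((k1⁻¹ : SL) : M2) *ᵥ ψ) := by
  rw [_root_.mul_inv_rev, Matrix.SpecialLinearGroup.coe_mul, Matrix.mulVec_mulVec]

theorem e2_unitary_le [T2Space E] (hc : Cst r0 L) (G : Geo E r0 L) (y : E) (k u : SL)
    (hu : IsU u) : mD G.D y (u * k) ≤ mD G.D y k := by
  refine mD_le hc G y (u * k) fun ψ hψ => ?_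
  rw [e2_inv_mul]
  have h := eD_le_mD hc G y k (((u⁻¹ : SL) : M2) *ᵥ ψ)
  rwa [nsq_mulVec_unitary (IsU_inv hu), hψ, mul_one] at h

/-- Proof. The unitary `u` permutes the sphere. -/
theorem mD_unitary [T2Space E] (hc : Cst r0 L) (G : Geo E r0 L) (y : E) (k u : SL) (hu : IsU u) :
    mD G.D y (u * k) = mD G.D y k := by
  refine le_antisymm (e2_unitary_le hc G y k u hu) ?_
  have h := e2_unitary_le hc G y (u * k) u⁻¹ (IsU_inv hu)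
  rwa [inv_mul_cancel_left] at h

/-- Proof. `(k1 k)⁻¹ ψ = k⁻¹ (k1⁻¹ ψ)`, `nsq (k1⁻¹ ψ) ≤ nm k1⁻¹ ^2 nsq ψ`, `nm_inv`. -/
theorem mD_mul_le [T2Space E] (hc : Cst r0 L) (G : Geo E r0 L) (y : E) (k k1 : SL) :
    mD G.D y (k1 * k) ≤ nm (k1 : M2) ^ 2 * mD G.D y k := by
  refine mD_le hc G y (k1 * k) fun ψ hψ => ?_
  rw [e2_inv_mul]
  refine (eD_le_mD hc G y k (((k1⁻¹ : SL) : M2) *ᵥ ψ)).trans ?_
  rw [mul_comm]
  refine mul_le_mul_of_nonneg_right ?_ (mD_nonneg hc G y k)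
  have h1 := vn_mulVec_le ((k1⁻¹ : SL) : M2) ψ
  have h2 : vn ψ = 1 := by
    rw [vn, hψ, Real.sqrt_one]
  rw [h2, mul_one, nm_inv] at h1
  rw [← vn_sq]
  exact pow_le_pow_left₀ (vn_nonneg _) h1 2

/-- a free ball bounds `m`. Proof. `eD_le_of_FB`. -/
theorem mD_le_of_FB [T2Space E] (hc : Cst r0 L) (G : Geo E r0 L) {y : E} {k : SL} {r : ℝ}
    (hr : 0 < r) (h : FB G.D y k r) : mD G.D y k ≤ 1 / r := by
  refine mD_le hc G y k fun ψ hψ => ?_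
  have h1 := eD_le_of_FB hr h ψ
  rwa [hψ] at h1

/-- `m(y,k) ≤ 1/r0` for a frame `k` of `J y`. -/
theorem mD_le_of_Fr [T2Space E] (hc : Cst r0 L) (G : Geo E r0 L) {y : E} {k : SL}
    (h : Fr (G.J y) k) : mD G.D y k ≤ 1 / r0 :=
  mD_le_of_FB hc G hc.r0pos (G.slab y k h)

theorem mD_equiv [T2Space E] {Γ : Type*} [Group Γ] [MulAction Γ E] (S : Dev Γ E)
    (hD : IsLocalHomeomorph (Dh S.D)) (γ : Γ) (y : E) (k : SL) :
    mD S.D (γ • y) (k * (S.B γ)⁻¹) = mD S.D y k := by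
  have h : (fun ψ : V => eD S.D (γ • y) ((((k * (S.B γ)⁻¹)⁻¹ : SL) : M2) *ᵥ ψ)) =
      fun ψ : V => eD S.D y (((k⁻¹ : SL) : M2) *ᵥ ψ) := by
    funext ψ
    have h1 : (((k * (S.B γ)⁻¹)⁻¹ : SL) : M2) *ᵥ ψ =
        (S.B γ : M2) *ᵥ (((k⁻¹ : SL) : M2) *ᵥ ψ) := by
      rw [_root_.mul_inv_rev, inv_inv, Matrix.SpecialLinearGroup.coe_mul, Matrix.mulVec_mulVec]
    rw [h1, eD_equiv S hD]
  rw [mD, mD, h]

theorem vD_equiv [T2Space E] {Γ : Type*} [Group Γ] [MulAction Γ E] (S : Dev Γ E)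
    (hD : IsLocalHomeomorph (Dh S.D)) (γ : Γ) (y : E) (k : SL) :
    vD S.D (γ • y) (k * (S.B γ)⁻¹) = vD S.D y k := by
  rw [vD, vD, mD_equiv S hD]

theorem e2_geo_ext {G G' : Geo E r0 L} (h1 : G.D = G'.D) (h2 : G.J = G'.J) : G = G' := by
  cases G
  cases G'
  cases h1
  cases h2
  rfl

/-- composition of changes of frame. Proof. `D y * k0⁻¹ * k1⁻¹ = D y * (k1 k0)⁻¹`, `fcj_fcj`; the
other fields are propositions (`Geo` has no ext lemma: use `cases`/`congr` after rewriting the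
fields `D` and `J`). -/
theorem conj_conj [T2Space E] (G : Geo E r0 L) (k0 k1 : SL) :
    (G.conj k0).conj k1 = G.conj (k1 * k0) := by
  refine e2_geo_ext ?_ ?_
  · funext y
    change G.D y * k0⁻¹ * k1⁻¹ = G.D y * (k1 * k0)⁻¹
    rw [_root_.mul_inv_rev, mul_assoc]
  · funext y
    change fcj k1 (fcj k0 (G.J y)) = fcj (k1 * k0) (G.J y)
    rw [fcj_fcj]

theorem conj_one [T2Space E] (G : Geo E r0 L) : G.conj 1 = G := by
  refine e2_geo_ext ?_ ?_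
  · funext y
    change G.D y * (1 : SL)⁻¹ = G.D y
    rw [inv_one, mul_one]
  · funext y
    change fcj 1 (G.J y) = G.J y
    simp [fcj]

end HRK
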