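import Pool.Agent.HRK.MDefs

/-!
# HRK-M1 : the group of isometries of the quadric is rigid; atlases
-/

namespace HRK

open Set Filter Topology Matrix

universe u

/-- Proof. `(A v) ⬝ᵥ (A w) = v ⬝ᵥ (Aᵀ A w)`. -/
theorem dot_mulVec {A : Matrix (Fin 4) (Fin 4) ℂ} (hA : Aᵀ * A = 1) (v w : Fin 4 → ℂ) :
    (A *ᵥ v) ⬝ᵥ (A *ᵥ w) = v ⬝ᵥ w := by
  rw [dotProduct_mulVec, ← vecMul_transpose, vecMul_vecMul, hA, vecMul_one]

/-- Proof. `z ↦ A z` with inverse `z ↦ Aᵀ z`. -/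
theorem exists_QI_of_matrix {A : Matrix (Fin 4) (Fin 4) ℂ} (hA : Aᵀ * A = 1) :
    ∃ g ∈ QI, ∀ z : Q, ((g z : Q) : Fin 4 → ℂ) = A *ᵥ (z : Fin 4 → ℂ) := by
  have hA' : A * Aᵀ = 1 := mul_eq_one_comm.mp hA
  have hAT : (Aᵀ)ᵀ * Aᵀ = 1 := by rw [transpose_transpose, hA']
  refine ⟨⟨fun z => ⟨A *ᵥ (z : Fin 4 → ℂ), by rw [dot_mulVec hA]; exact z.2⟩,
    fun z => ⟨Aᵀ *ᵥ (z : Fin 4 → ℂ), by rw [dot_mulVec hAT]; exact z.2⟩, fun z => ?_, fun z => ?_⟩,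
    ⟨A, hA, fun z => rfl⟩, fun z => rfl⟩
  · refine Subtype.ext ?_
    show Aᵀ *ᵥ (A *ᵥ (z : Fin 4 → ℂ)) = z
    rw [mulVec_mulVec, hA, one_mulVec]
  · refine Subtype.ext ?_
    show A *ᵥ (Aᵀ *ᵥ (z : Fin 4 → ℂ)) = z
    rw [mulVec_mulVec, hA', one_mulVec]

/-- Two matrices which agree near a point of the quadric are equal. Proof. `B = A - A'` vanishes on
the points of `Q` near `z₀`. `B z₀ = 0`. Let `v ⬝ᵥ z₀ = 0`; for small real `t` the number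
`1 + t² v ⬝ᵥ v` is near `1`, `s(t) = (1 + t² v ⬝ᵥ v)^{1/2}` (`Complex.cpow` or
`Complex.exp (log / 2)`, continuous near `1`, nonzero), and `z(t) = s(t)⁻¹ (z₀ + t v) ∈ Q` tends to
`z₀`. So `B (z₀ + t v) = 0`, `B v = 0`. Every vector is `(w ⬝ᵥ z₀) z₀ + v` with `v ⬝ᵥ z₀ = 0`. -/
theorem matrix_eq_of_eventually {A A' : Matrix (Fin 4) (Fin 4) ℂ} {z₀ : Q}
    (h : ∀ᶠ z : Q in 𝓝 z₀, A *ᵥ (z : Fin 4 → ℂ) = A' *ᵥ (z : Fin 4 → ℂ)) : A = A' := by
  have hz : (z₀ : Fin 4 → ℂ) ⬝ᵥ (z₀ : Fin 4 → ℂ) = 1 := z₀.2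
  have h0 : (A - A') *ᵥ (z₀ : Fin 4 → ℂ) = 0 := by
    rw [sub_mulVec, h.self_of_nhds, sub_self]
  rw [nhds_subtype_eq_comap, eventually_comap] at h
  have horth : ∀ v : Fin 4 → ℂ, v ⬝ᵥ (z₀ : Fin 4 → ℂ) = 0 → (A - A') *ᵥ v = 0 := by
    intro v hv
    have hv' : (z₀ : Fin 4 → ℂ) ⬝ᵥ v = 0 := by rw [dotProduct_comm]; exact hv
    have c1 : ContinuousAt (fun t : ℂ => 1 + t ^ 2 * (v ⬝ᵥ v)) 0 := by fun_prop
    have e1 : (1 + (0 : ℂ) ^ 2 * (v ⬝ᵥ v)) = 1 := by simp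
    have c2 : ContinuousAt (fun t : ℂ => Complex.log (1 + t ^ 2 * (v ⬝ᵥ v))) 0 := by
      refine c1.clog ?_
      rw [e1]
      exact Complex.one_mem_slitPlane
    have c3 : ContinuousAt (fun t : ℂ => (Complex.exp (Complex.log (1 + t ^ 2 * (v ⬝ᵥ v)) / 2))⁻¹ •
        ((z₀ : Fin 4 → ℂ) + t • v)) 0 := by
      have c4 : ContinuousAt (fun t : ℂ =>
          (Complex.exp (Complex.log (1 + t ^ 2 * (v ⬝ᵥ v)) / 2))⁻¹) 0 :=
        ContinuousAt.inv₀ (Complex.continuous_exp.continuousAt.comp (c2.div_const 2))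
          (Complex.exp_ne_zero _)
      have c5 : ContinuousAt (fun t : ℂ => (z₀ : Fin 4 → ℂ) + t • v) 0 :=
        (continuous_const.add (continuous_id.smul continuous_const)).continuousAt
      exact c4.smul c5
    have e3 : (Complex.exp (Complex.log (1 + (0 : ℂ) ^ 2 * (v ⬝ᵥ v)) / 2))⁻¹ •
        ((z₀ : Fin 4 → ℂ) + (0 : ℂ) • v) = z₀ := by
      simp
    have t1 : Tendsto (fun t : ℂ => (Complex.exp (Complex.log (1 + t ^ 2 * (v ⬝ᵥ v)) / 2))⁻¹ •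
        ((z₀ : Fin 4 → ℂ) + t • v)) (𝓝 0) (𝓝 (z₀ : Fin 4 → ℂ)) := by
      have := c3.tendsto
      rwa [e3] at this
    have t2 : ∀ᶠ t : ℂ in 𝓝 0, 1 + t ^ 2 * (v ⬝ᵥ v) ≠ 0 := by
      refine c1.eventually_ne ?_
      rw [e1]
      exact one_ne_zero
    have t3 : ∀ᶠ t : ℂ in 𝓝[≠] 0, t ≠ 0 := self_mem_nhdsWithin
    obtain ⟨t, ht1, ht2, ht3⟩ := (((t1.eventually h).filter_mono nhdsWithin_le_nhds).and
      ((t2.filter_mono nhdsWithin_le_nhds).and t3)).exists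
    obtain ⟨s, hs⟩ : ∃ s, s = Complex.exp (Complex.log (1 + t ^ 2 * (v ⬝ᵥ v)) / 2) := ⟨_, rfl⟩
    have hs0 : s ≠ 0 := by
      rw [hs]
      exact Complex.exp_ne_zero _
    have hss : s * s = 1 + t ^ 2 * (v ⬝ᵥ v) := by
      rw [hs, ← Complex.exp_add, add_halves, Complex.exp_log ht2]
    rw [← hs] at ht1
    have hq : (s⁻¹ • ((z₀ : Fin 4 → ℂ) + t • v)) ⬝ᵥ (s⁻¹ • ((z₀ : Fin 4 → ℂ) + t • v)) = 1 := by
      rw [smul_dotProduct, dotProduct_smul, add_dotProduct, dotProduct_add, dotProduct_add,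
        smul_dotProduct, smul_dotProduct, dotProduct_smul, dotProduct_smul, hz, hv, hv']
      simp only [smul_eq_mul, mul_zero, add_zero, zero_add]
      field_simp
      linear_combination -hss
    have h1 := ht1 ⟨_, hq⟩ rfl
    have h2 : (A - A') *ᵥ (s⁻¹ • ((z₀ : Fin 4 → ℂ) + t • v)) = 0 := by
      rw [sub_mulVec]
      exact sub_eq_zero.2 h1
    rw [mulVec_smul, mulVec_add, h0, zero_add, mulVec_smul] at h2
    rcases smul_eq_zero.1 h2 with h3 | h3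
    · exact absurd h3 (inv_ne_zero hs0)
    · rcases smul_eq_zero.1 h3 with h4 | h4
      · exact absurd h4 ht3
      · exact h4
  have hall : ∀ w : Fin 4 → ℂ, (A - A') *ᵥ w = 0 := by
    intro w
    have e : w = (w ⬝ᵥ (z₀ : Fin 4 → ℂ)) • (z₀ : Fin 4 → ℂ) +
        (w - (w ⬝ᵥ (z₀ : Fin 4 → ℂ)) • (z₀ : Fin 4 → ℂ)) := by
      rw [add_sub_cancel]
    have h1 : (w - (w ⬝ᵥ (z₀ : Fin 4 → ℂ)) • (z₀ : Fin 4 → ℂ)) ⬝ᵥ (z₀ : Fin 4 → ℂ) = 0 := by
      rw [sub_dotProduct, smul_dotProduct, hz, smul_eq_mul, mul_one, sub_self]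
    rw [e, mulVec_add, mulVec_smul, h0, smul_zero, zero_add]
    exact horth _ h1
  refine ext_of_mulVec_single fun i => ?_
  have h1 := hall (Pi.single i 1)
  rw [sub_mulVec] at h1
  exact sub_eq_zero.1 h1

/-- Proof. Continuity: `z ↦ A z` on a subtype. Rigidity: `matrix_eq_of_eventually`. -/
theorem rig_QI : GX.Rig QI := by
  constructor
  · rintro g ⟨A, hA, hg⟩
    refine continuous_induced_rng.2 ?_
    have e : (Subtype.val ∘ (g : Q → Q)) = fun z : Q => A *ᵥ (z : Fin 4 → ℂ) := by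
      funext z
      exact hg z
    rw [e]
    exact Continuous.matrix_mulVec continuous_const continuous_subtype_val
  · rintro g ⟨A, hA, hg⟩ g' ⟨A', hA', hg'⟩ z₀ h
    have h1 : A = A' := by
      refine matrix_eq_of_eventually (z₀ := z₀) ?_
      filter_upwards [h] with z hz
      rw [← hg, ← hg', hz]
    refine Equiv.ext fun z => Subtype.ext ?_
    rw [hg, hg', h1]

/-- Proof. For `m` in both sources let `x = e m`, `A` from `hM` and `g` from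
`exists_QI_of_matrix`; for `m'` near `m`, `e' m' = e' (e.symm (e m')) = A (e m')`. -/
theorem atl_of_QAtlas (M : Type u) [TopologicalSpace M] [ChartedSpace Q M] (hM : QAtlas M) :
    GX.Atl QI M := by
  intro e he e' he' m hm hm'
  have hx : e m ∈ (e.symm.trans e').source := by
    rw [OpenPartialHomeomorph.trans_source, mem_inter_iff, mem_preimage, e.left_inv hm]
    exact ⟨e.map_source hm, hm'⟩
  obtain ⟨A, hA, hev⟩ := hM e he e' he' (e m) hx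
  obtain ⟨g, hg, hgA⟩ := exists_QI_of_matrix hA
  refine ⟨g, hg, ?_⟩
  have h1 := (e.continuousAt hm).eventually hev
  filter_upwards [h1, e.open_source.mem_nhds hm] with m' h2 h3
  refine Subtype.ext ?_
  rw [hgA, ← h2]
  show _ = ((e' (e.symm (e m')) : Q) : Fin 4 → ℂ)
  rw [e.left_inv h3]

end HRK
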