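import Pool.Agent.HRK.MDefs
import Pool.Agent.HRK.N2

/-!
# HRK-M3 : structure of `O(4,ℂ)`

`T X = qm (A (qmi X))` is a linear map `M₂ → M₂` with `det (T X) = det X`, so it preserves the
bilinear form `⟨X, Y⟩ = det (X + Y) - det X - det Y = X₀₀ Y₁₁ + X₁₁ Y₀₀ - X₀₁ Y₁₀ - X₁₀ Y₀₁`.
(1) `p = T 1`, `det p = 1`; `T' X = p⁻¹ (T X)` preserves `det`, `T' 1 = 1`.
(2) `⟨X, 1⟩ = tr X`. `n₁ = T' (nn e1)`, `n₂ = T' (nn e2)` have trace `0`, determinant `0`, and are not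
`0` (`T'` is injective). A nonzero matrix with trace `0` and determinant `0` is `nn ψ` for some
`ψ ≠ 0` (`nn ψ = [[-ψ₀ψ₁, ψ₀²],[-ψ₁², ψ₀ψ₁]]`; take a square root of the entry `01` or of minus the entry `10`). Let
`n₁ = nn ψ₁`, `n₂ = nn ψ₂`. `⟨nn ψ, nn φ⟩ = om ψ φ ^ 2`. So `om ψ₁ ψ₂ ^ 2 = om e1 e2 ^ 2 = 1`; replace `ψ₂` by
`-ψ₂` if necessary: `om ψ₁ ψ₂ = 1`. `k` = matrix with columns `ψ₁, ψ₂` (`det = 1`):
`cj k (nn e1) = nn ψ₁`, `cj k (nn e2) = nn ψ₂` (`cj_nn`).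
(3) `T'' X = cj k⁻¹ (T' X)` fixes `1`, `nn e1`, `nn e2` and preserves `det`; `H = diag (1, -1)` is orthogonal
to `1, nn e1, nn e2`, so is `T'' H`, hence `T'' H = c H`, and `-c² = det (T'' H) = -1`: `c = ±1`. Every `X` is a
linear combination of `1, nn e1, nn e2, H`. If `c = 1`: `T'' = id`, `T X = p (cj k X)`:
`a = p k`, `b = k`. If `c = -1`: `T'' [[x, y],[z, w]] = [[w, y],[z, x]] = J adj(X) J⁻¹`, `J = diag (i, -i)`, and
`adj(X) = X⁻¹` for `X ∈ SL`: `a = p k J`, `b = k J`.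
-/

namespace HRK

open Set Filter Topology Matrix

/-- Proof. See above (2). -/
theorem eq_nn_of_trace_det {X : M2} (h1 : X.trace = 0) (h2 : X.det = 0) : ∃ ψ : V, X = nn ψ := by
  rw [Matrix.trace_fin_two] at h1
  rw [Matrix.det_fin_two] at h2
  have h11 : X 1 1 = - X 0 0 := by linear_combination h1
  rw [h11] at h2
  by_cases hq : X 0 1 = 0
  · have hp : X 0 0 = 0 := by
      rw [hq] at h2
      have : X 0 0 ^ 2 = 0 := by linear_combination -h2
      exact pow_eq_zero_iff (two_ne_zero) |>.1 this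
    obtain ⟨s, hs⟩ := IsAlgClosed.exists_pow_nat_eq (-(X 1 0)) (n := 2) (by norm_num)
    refine ⟨![0, s], ?_⟩
    ext i j
    fin_cases i <;> fin_cases j <;> simp [nn, hp, hq, h11, hs]
  · obtain ⟨s, hs⟩ := IsAlgClosed.exists_pow_nat_eq (X 0 1) (n := 2) (by norm_num)
    have hs0 : s ≠ 0 := by
      intro h
      rw [h] at hs
      apply hq
      rw [← hs]
      norm_num
    have e1' : s * (-(X 0 0) / s) = -(X 0 0) := by field_simp
    have e2' : (-(X 0 0) / s) ^ 2 = -(X 1 0) := by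
      rw [div_pow, hs, div_eq_iff hq]
      linear_combination -h2
    refine ⟨![s, -(X 0 0) / s], ?_⟩
    ext i j
    fin_cases i <;> fin_cases j
    · show X 0 0 = -(s * (-(X 0 0) / s))
      rw [e1', neg_neg]
    · show X 0 1 = s ^ 2
      exact hs.symm
    · show X 1 0 = -((-(X 0 0) / s) ^ 2)
      rw [e2', neg_neg]
    · show X 1 1 = s * (-(X 0 0) / s)
      rw [e1', h11]

theorem m3_sq {x : ℂ} (h : x ^ 2 = 1) : x = 1 ∨ x = -1 := by
  have h1 : (x - 1) * (x + 1) = 0 := by linear_combination h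
  rcases mul_eq_zero.1 h1 with h2 | h2
  · left; linear_combination h2
  · right; linear_combination h2

/-- the bilinear form of `det` -/
def m3B (X Y : M2) : ℂ := X 0 0 * Y 1 1 + X 1 1 * Y 0 0 - X 0 1 * Y 1 0 - X 1 0 * Y 0 1

theorem m3B_eq (X Y : M2) : m3B X Y = (X + Y).det - X.det - Y.det := by
  simp only [Matrix.det_fin_two, Matrix.add_apply, m3B]
  ring

theorem m3B_one (X : M2) : m3B X 1 = X.trace := by
  simp [m3B, Matrix.trace_fin_two]

theorem m3B_nn (ψ φ : V) : m3B (nn ψ) (nn φ) = om ψ φ ^ 2 := by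
  simp only [m3B, nn, om, Matrix.of_apply, Matrix.cons_val', Matrix.cons_val_zero,
    Matrix.cons_val_one, Matrix.cons_val_fin_one]
  ring

/-- linear maps preserving `det` -/
structure m3T (T : M2 → M2) : Prop where
  add : ∀ X Y, T (X + Y) = T X + T Y
  smul : ∀ (c : ℂ) X, T (c • X) = c • T X
  det : ∀ X, (T X).det = X.det

theorem m3T.B {T : M2 → M2} (h : m3T T) (X Y : M2) : m3B (T X) (T Y) = m3B X Y := by
  rw [m3B_eq, ← h.add, h.det, h.det, h.det, ← m3B_eq]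

theorem m3T.left {T : M2 → M2} (h : m3T T) (p : SL) : m3T (fun X => (p : M2) * T X) where
  add X Y := by rw [h.add, mul_add]
  smul c X := by rw [h.smul, Matrix.mul_smul]
  det X := by rw [Matrix.det_mul, p.2, one_mul, h.det]

theorem m3T.cj {T : M2 → M2} (h : m3T T) (k : SL) : m3T (fun X => HRK.cj k (T X)) where
  add X Y := by rw [h.add, cj_add]
  smul c X := by rw [h.smul, cj_smul]
  det X := by rw [det_cj, h.det]

theorem m3_om_e : om e1 e2 = 1 := by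
  simp [om, e1, e2]

theorem m3_step2 {T : M2 → M2} (h : m3T T) (h1 : T 1 = 1) :
    ∃ k : SL, T (nn e1) = HRK.cj k (nn e1) ∧ T (nn e2) = HRK.cj k (nn e2) := by
  have htr : ∀ X, (T X).trace = X.trace := by
    intro X
    rw [← m3B_one, ← m3B_one]
    have := h.B X 1
    rwa [h1] at this
  obtain ⟨ψ, hψ⟩ := eq_nn_of_trace_det (X := T (nn e1)) (by rw [htr, trace_nn])
    (by rw [h.det, det_nn])
  obtain ⟨φ, hφ⟩ := eq_nn_of_trace_det (X := T (nn e2)) (by rw [htr, trace_nn])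
    (by rw [h.det, det_nn])
  have hom : om ψ φ ^ 2 = 1 := by
    rw [← m3B_nn, ← hψ, ← hφ, h.B, m3B_nn, m3_om_e, one_pow]
  obtain ⟨φ', hφ', hom'⟩ : ∃ φ' : V, T (nn e2) = nn φ' ∧ om ψ φ' = 1 := by
    rcases m3_sq hom with h2 | h2
    · exact ⟨φ, hφ, h2⟩
    · refine ⟨(-1 : ℂ) • φ, ?_, ?_⟩
      · rw [nn_smul, hφ]; norm_num
      · rw [om_smul_right, h2]; norm_num
  refine ⟨⟨!![ψ 0, φ' 0; ψ 1, φ' 1], ?_⟩, ?_, ?_⟩
  · rw [Matrix.det_fin_two_of]
    rw [← hom']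
    unfold om
    ring
  · rw [cj_nn, hψ]
    congr 1
    ext i
    fin_cases i <;> simp [e1, Matrix.mulVec, dotProduct, Fin.sum_univ_two]
  · rw [cj_nn, hφ']
    congr 1
    ext i
    fin_cases i <;> simp [e2, Matrix.mulVec, dotProduct, Fin.sum_univ_two]

theorem m3_step3 {T : M2 → M2} (h : m3T T) (h1 : T 1 = 1) (he1 : T (nn e1) = nn e1)
    (he2 : T (nn e2) = nn e2) :
    (∀ X, T X = X) ∨ ∀ X, T X = !![X 1 1, X 0 1; X 1 0, X 0 0] := by
  have hB1 := h.B !![1, 0; 0, -1] 1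
  have hB2 := h.B !![1, 0; 0, -1] (nn e1)
  have hB3 := h.B !![1, 0; 0, -1] (nn e2)
  have hd := h.det !![1, 0; 0, -1]
  rw [h1] at hB1
  rw [he1] at hB2
  rw [he2] at hB3
  generalize hH : T !![1, 0; 0, -1] = H at hB1 hB2 hB3 hd
  have t1 : H 1 1 = - H 0 0 := by
    simp [m3B] at hB1
    linear_combination hB1
  have t2 : H 1 0 = 0 := by
    simpa [m3B, nn, e1] using hB2
  have t3 : H 0 1 = 0 := by
    simpa [m3B, nn, e2] using hB3
  have hc : H 0 0 = 1 ∨ H 0 0 = -1 := by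
    rw [Matrix.det_fin_two, Matrix.det_fin_two_of, t1, t2, t3] at hd
    have : H 0 0 ^ 2 = 1 := by linear_combination -hd
    exact m3_sq this
  have hX : ∀ X : M2, T X = ((X 0 0 + X 1 1) / 2) • (1 : M2) + ((X 0 0 - X 1 1) / 2) • H +
      (X 0 1) • nn e1 + (-(X 1 0)) • nn e2 := by
    intro X
    have hdec : X = ((X 0 0 + X 1 1) / 2) • (1 : M2) + ((X 0 0 - X 1 1) / 2) • !![1, 0; 0, -1] +
      (X 0 1) • nn e1 + (-(X 1 0)) • nn e2 := by
      ext i j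
      fin_cases i <;> fin_cases j <;> simp [nn, e1, e2] <;> ring
    conv_lhs => rw [hdec]
    rw [h.add, h.add, h.add, h.smul, h.smul, h.smul, h.smul, h1, he1, he2, hH]
  rcases hc with hc | hc
  · left
    intro X
    rw [hX]
    ext i j
    fin_cases i <;> fin_cases j <;> simp [nn, e1, e2, t1, t2, t3, hc] <;> ring
  · right
    intro X
    rw [hX]
    ext i j
    fin_cases i <;> fin_cases j <;> simp [nn, e1, e2, t1, t2, t3, hc] <;> ring

/-- the matrix `diag (i, -i)` -/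
noncomputable def m3J : SL := ⟨!![Complex.I, 0; 0, -Complex.I], by
  rw [Matrix.det_fin_two_of]
  have h : Complex.I ^ 2 = -1 := Complex.I_sq
  linear_combination -h⟩

theorem m3J_adj (X : M2) : HRK.cj m3J X.adjugate = !![X 1 1, X 0 1; X 1 0, X 0 0] := by
  have h : Complex.I * Complex.I = -1 := Complex.I_mul_I
  unfold HRK.cj
  rw [coe_inv_eq, Matrix.adjugate_fin_two]
  ext i j
  fin_cases i <;> fin_cases j <;>
    simp [m3J, Matrix.mul_apply, Fin.sum_univ_two]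
  · linear_combination (-(X 1 1)) * h
  · linear_combination (-(X 0 1)) * h
  · linear_combination (-(X 1 0)) * h
  · linear_combination (-(X 0 0)) * h

theorem m3_key {T : M2 → M2} (h : m3T T) :
    (∃ a b : SL, ∀ X : M2, T X = (a : M2) * X * ((b⁻¹ : SL) : M2)) ∨
      ∃ a b : SL, ∀ X : M2, T X = (a : M2) * X.adjugate * ((b⁻¹ : SL) : M2) := by
  obtain ⟨p, hp⟩ : ∃ p : SL, (p : M2) = T 1 := ⟨⟨T 1, by rw [h.det, Matrix.det_one]⟩, rfl⟩
  have hT' := h.left p⁻¹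
  have h1 : ((p⁻¹ : SL) : M2) * T 1 = 1 := by rw [← hp, coe_inv_mul]
  obtain ⟨k, hk1, hk2⟩ := m3_step2 hT' h1
  have hT'' := hT'.cj k⁻¹
  have g1 : HRK.cj k⁻¹ (((p⁻¹ : SL) : M2) * T 1) = 1 := by rw [h1, cj_one]
  have g2 : HRK.cj k⁻¹ (((p⁻¹ : SL) : M2) * T (nn e1)) = nn e1 := by
    rw [hk1, cj_cj, inv_mul_cancel, one_cj]
  have g3 : HRK.cj k⁻¹ (((p⁻¹ : SL) : M2) * T (nn e2)) = nn e2 := by
    rw [hk2, cj_cj, inv_mul_cancel, one_cj]
  have hrec : ∀ X, T X = (p : M2) * HRK.cj k (HRK.cj k⁻¹ (((p⁻¹ : SL) : M2) * T X)) := by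
    intro X
    rw [cj_cj, mul_inv_cancel, one_cj, ← mul_assoc, coe_mul_inv, one_mul]
  rcases m3_step3 hT'' g1 g2 g3 with h3 | h3
  · left
    refine ⟨p * k, k, fun X => ?_⟩
    have h4 : HRK.cj k⁻¹ (((p⁻¹ : SL) : M2) * T X) = X := h3 X
    rw [hrec X, h4]
    unfold HRK.cj
    rw [Matrix.SpecialLinearGroup.coe_mul]
    simp only [mul_assoc]
  · right
    refine ⟨p * k * m3J, k * m3J, fun X => ?_⟩
    have h4 : HRK.cj k⁻¹ (((p⁻¹ : SL) : M2) * T X) = !![X 1 1, X 0 1; X 1 0, X 0 0] := h3 X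
    rw [hrec X, h4, ← m3J_adj, cj_cj]
    unfold HRK.cj
    simp only [Matrix.SpecialLinearGroup.coe_mul, mul_assoc]

theorem m3_qm_add (z w : Fin 4 → ℂ) : qm (z + w) = qm z + qm w := by
  ext i j
  fin_cases i <;> fin_cases j <;> simp [qm] <;> ring

theorem m3_qm_smul (c : ℂ) (z : Fin 4 → ℂ) : qm (c • z) = c • qm z := by
  ext i j
  fin_cases i <;> fin_cases j <;> simp [qm] <;> ring

theorem m3_qmi_add (X Y : M2) : qmi (X + Y) = qmi X + qmi Y := by
  ext i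
  fin_cases i <;> simp [qmi] <;> ring

theorem m3_qmi_smul (c : ℂ) (X : M2) : qmi (c • X) = c • qmi X := by
  ext i
  fin_cases i <;> simp [qmi] <;> ring

theorem m3_dot {A : Matrix (Fin 4) (Fin 4) ℂ} (hA : Aᵀ * A = 1) (v : Fin 4 → ℂ) :
    (A *ᵥ v) ⬝ᵥ (A *ᵥ v) = v ⬝ᵥ v := by
  rw [Matrix.dotProduct_mulVec, ← Matrix.mulVec_transpose, Matrix.mulVec_mulVec, hA,
    Matrix.one_mulVec]

theorem m3_T {A : Matrix (Fin 4) (Fin 4) ℂ} (hA : Aᵀ * A = 1) :
    m3T (fun X => qm (A *ᵥ qmi X)) where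
  add X Y := by rw [m3_qmi_add, Matrix.mulVec_add, m3_qm_add]
  smul c X := by rw [m3_qmi_smul, Matrix.mulVec_smul, m3_qm_smul]
  det X := by rw [det_qm, m3_dot hA, ← det_qm, qm_qmi]

/-- **Structure of `O(4,ℂ)`.** -/
theorem QI_type {g : Equiv.Perm Q} (hg : g ∈ QI) :
    (∃ a b : SL, ∀ z : Q, qs (g z) = a * qs z * b⁻¹) ∨
      ∃ a b : SL, ∀ z : Q, qs (g z) = a * (qs z)⁻¹ * b⁻¹ := by
  obtain ⟨A, hA, hgA⟩ := hg
  have hq : ∀ z : Q, ((qs (g z) : SL) : M2) = qm (A *ᵥ qmi (qs z : M2)) := by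
    intro z
    show qm (g z) = qm (A *ᵥ qmi (qm z))
    rw [qmi_qm, hgA]
  rcases m3_key (m3_T hA) with ⟨a, b, h⟩ | ⟨a, b, h⟩
  · left
    refine ⟨a, b, fun z => Subtype.ext ?_⟩
    rw [hq, Matrix.SpecialLinearGroup.coe_mul, Matrix.SpecialLinearGroup.coe_mul]
    exact h _
  · right
    refine ⟨a, b, fun z => Subtype.ext ?_⟩
    rw [hq, Matrix.SpecialLinearGroup.coe_mul, Matrix.SpecialLinearGroup.coe_mul,
      Matrix.SpecialLinearGroup.coe_inv (qs z)]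
    exact h _

/-- Proof. `c = a'⁻¹ a`, `d = b'⁻¹ b`: `c x = x d` for all `x ∈ SL`; `x = 1`: `c = d`; `c` commutes
with `[[1,1],[0,1]]` and `[[1,0],[1,1]]`, so it is scalar, `c = ±1`. -/
theorem pair_unique {a b a' b' : SL} (h : ∀ x : SL, a * x * b⁻¹ = a' * x * b'⁻¹) :
    ((a : M2) = a' ∧ (b : M2) = b') ∨ ((a : M2) = -(a' : M2) ∧ (b : M2) = -(b' : M2)) := by
  have hcd : ∀ x : SL, (a'⁻¹ * a) * x = x * (b'⁻¹ * b) := by
    intro x
    have h1 := h x
    calc (a'⁻¹ * a) * x = a'⁻¹ * (a * x * b⁻¹) * b := by group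
      _ = a'⁻¹ * (a' * x * b'⁻¹) * b := by rw [h1]
      _ = x * (b'⁻¹ * b) := by group
  have hd : b'⁻¹ * b = a'⁻¹ * a := by
    have := hcd 1
    rw [mul_one, one_mul] at this
    exact this.symm
  obtain ⟨c, hc⟩ : ∃ c : SL, c = a'⁻¹ * a := ⟨_, rfl⟩
  rw [hd, ← hc] at hcd
  have ha : a = a' * c := by rw [hc]; group
  have hb : b = b' * c := by rw [hc, ← hd]; group
  have q1 := congrArg (fun y : SL => (y : M2)) (hcd ⟨!![1, 1; 0, 1], by
    rw [Matrix.det_fin_two_of]; norm_num⟩)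
  have q2 := congrArg (fun y : SL => (y : M2)) (hcd ⟨!![1, 0; 1, 1], by
    rw [Matrix.det_fin_two_of]; norm_num⟩)
  simp only [Matrix.SpecialLinearGroup.coe_mul] at q1 q2
  have r1 := congrFun (congrFun q1 0) 0
  have r2 := congrFun (congrFun q1 0) 1
  have r3 := congrFun (congrFun q2 0) 0
  simp [Matrix.mul_apply, Fin.sum_univ_two] at r1 r2 r3
  have c10 : (c : M2) 1 0 = 0 := r1
  have c01 : (c : M2) 0 1 = 0 := r3
  have c11 : (c : M2) 1 1 = (c : M2) 0 0 := by linear_combination -r2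
  have hdet := c.2
  rw [Matrix.det_fin_two] at hdet
  have hsq : (c : M2) 0 0 ^ 2 = 1 := by
    have e : (c : M2) 0 0 * (c : M2) 1 1 - (c : M2) 0 1 * (c : M2) 1 0 = 1 := hdet
    rw [c11, c10] at e
    linear_combination e
  rcases m3_sq hsq with h0 | h0
  · left
    have hc1 : (c : M2) = 1 := by
      ext i j
      fin_cases i <;> fin_cases j <;> simp [c10, c01, c11, h0]
    rw [ha, hb, Matrix.SpecialLinearGroup.coe_mul, Matrix.SpecialLinearGroup.coe_mul, hc1,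
      mul_one, mul_one]
    exact ⟨rfl, rfl⟩
  · right
    have hc1 : (c : M2) = -1 := by
      ext i j
      fin_cases i <;> fin_cases j <;> simp [c10, c01, c11, h0]
    rw [ha, hb, Matrix.SpecialLinearGroup.coe_mul, Matrix.SpecialLinearGroup.coe_mul, hc1,
      mul_neg, mul_neg, mul_one, mul_one]
    exact ⟨rfl, rfl⟩

end HRK
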