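import Pool.Agent.HRK.M2
import Pool.Agent.HRK.M3

/-!
# HRK-M4 : completeness for a group of isometries of the quadric

Hypothesis `hmain`: the developing map of every `Dev` is bijective (theorem `main_dev`).
Proof. Call `γ ∈ Γ` of type I if `∃ a b, ∀ z, qs (γ z) = a * qs z * b⁻¹`. By `QI_type` the other
elements are of type II: `qs (γ z) = a * (qs z)⁻¹ * b⁻¹`, and the product of two elements of type II
is of type I: `a (a' x⁻¹ b'⁻¹)⁻¹ b⁻¹ = (a b') x (a'⁻¹ b⁻¹) = (a b') x (b a')⁻¹`. The elements of type I form a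
subgroup `Γp : Subgroup Γ` (inverse: `qs (γ⁻¹ z) = a⁻¹ * qs z * b`). Choose `a γ, b γ` for `γ ∈ Γp`;
`A_mul`, `B_mul` up to a common sign by `pair_unique` (`qs` is surjective). `D' = qs ∘ D`, a local
homeomorphism (`isHomeomorph_qs`). Cocompactness of `Γp`: if all elements are of type I take
`K`; otherwise choose `γ₁` of type II and take `K ∪ γ₁ • K` (if `γ • x ∈ K` with `γ` of type II then
`γ₁ γ` is of type I and `(γ₁ γ) • x ∈ γ₁ • K`). `Dev Γp E`; `D' = qs ∘ D` is bijective, so `D` is. The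
proof of `bijective_of_group` in `Pool/Agent/HRF/H4.lean` is a model.
-/

namespace HRK

open Set Filter Topology Matrix

universe u

/-- elements of type I -/
def M4I (g : Equiv.Perm Q) : Prop := ∃ a b : SL, ∀ z : Q, qs (g z) = a * qs z * b⁻¹

theorem m4_mul {g g' : Equiv.Perm Q} (h : M4I g) (h' : M4I g') : M4I (g * g') := by
  obtain ⟨a, b, hab⟩ := h
  obtain ⟨a', b', hab'⟩ := h'
  refine ⟨a * a', b * b', fun z => ?_⟩
  rw [Equiv.Perm.mul_apply, hab, hab']
  group

theorem m4_mul2 {g g' : Equiv.Perm Q} (h : ∃ a b : SL, ∀ z : Q, qs (g z) = a * (qs z)⁻¹ * b⁻¹)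
    (h' : ∃ a b : SL, ∀ z : Q, qs (g' z) = a * (qs z)⁻¹ * b⁻¹) : M4I (g * g') := by
  obtain ⟨a, b, hab⟩ := h
  obtain ⟨a', b', hab'⟩ := h'
  refine ⟨a * b', b * a', fun z => ?_⟩
  rw [Equiv.Perm.mul_apply, hab, hab']
  group

theorem m4_inv {g : Equiv.Perm Q} (h : M4I g) : M4I g⁻¹ := by
  obtain ⟨a, b, hab⟩ := h
  refine ⟨a⁻¹, b⁻¹, fun z => ?_⟩
  have h1 := hab (g⁻¹ z)
  have h2 : g (g⁻¹ z) = z := by simp
  rw [h2] at h1
  rw [h1]
  group

theorem bijective_of_QI
    (hmain : ∀ (Γ : Type) (E : Type u) [Group Γ] [TopologicalSpace E] [MulAction Γ E] [T2Space E]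
      [ConnectedSpace E] (S : Dev Γ E), Function.Bijective S.D)
    {E : Type u} [TopologicalSpace E] [T2Space E] [ConnectedSpace E]
    {D : E → Q} (hD : IsLocalHomeomorph D) (Γ : Subgroup (Equiv.Perm Q))
    (hΓ : ∀ g ∈ Γ, g ∈ QI) [MulAction Γ E] (hc : ∀ γ : Γ, Continuous fun x : E => γ • x)
    (he : ∀ (γ : Γ) (x : E), D (γ • x) = (γ : Equiv.Perm Q) (D x))
    (free : ∀ (γ : Γ) (x : E), γ • x = x → γ = 1)
    (pd : ∀ C : Set E, IsCompact C → {γ : Γ | ∃ x ∈ C, γ • x ∈ C}.Finite) (K : Set E)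
    (hK : IsCompact K) (hcov : ∀ x : E, ∃ γ : Γ, γ • x ∈ K) : Function.Bijective D := by
  classical
  have hmul : ∀ γ γ' : Γ, M4I (γ : Equiv.Perm Q) → M4I (γ' : Equiv.Perm Q) →
      M4I ((γ * γ' : Γ) : Equiv.Perm Q) := by
    intro γ γ' h h'
    rw [Subgroup.coe_mul]
    exact m4_mul h h'
  let Γp : Subgroup Γ :=
    { carrier := {γ | M4I (γ : Equiv.Perm Q)}
      mul_mem' := by
        intro γ γ' h h'
        exact hmul γ γ' h h'
      one_mem' := ⟨1, 1, fun z => by simp⟩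
      inv_mem' := by
        intro γ h
        change M4I ((γ⁻¹ : Γ) : Equiv.Perm Q)
        rw [Subgroup.coe_inv]
        exact m4_inv h }
  have hcov' : ∃ K' : Set E, IsCompact K' ∧ ∀ x : E, ∃ γ : Γp, γ • x ∈ K' := by
    by_cases hall : ∀ γ : Γ, M4I (γ : Equiv.Perm Q)
    · refine ⟨K, hK, fun x => ?_⟩
      obtain ⟨γ, hγ⟩ := hcov x
      exact ⟨⟨γ, hall γ⟩, hγ⟩
    · push Not at hall
      obtain ⟨γ₁, hγ₁⟩ := hall
      have hd1 := (QI_type (hΓ γ₁.1 γ₁.2)).resolve_left hγ₁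
      refine ⟨K ∪ (fun x : E => γ₁ • x) '' K, hK.union (hK.image (hc γ₁)), fun x => ?_⟩
      obtain ⟨γ, hγ⟩ := hcov x
      rcases QI_type (hΓ γ.1 γ.2) with h | h
      · exact ⟨⟨γ, h⟩, Or.inl hγ⟩
      · have h2 : M4I ((γ₁ * γ : Γ) : Equiv.Perm Q) := by
          rw [Subgroup.coe_mul]
          exact m4_mul2 hd1 h
        refine ⟨⟨γ₁ * γ, h2⟩, Or.inr ⟨γ • x, hγ, ?_⟩⟩
        change γ₁ • (γ • x) = (γ₁ * γ) • x
        rw [mul_smul]
  obtain ⟨K', hK', hcov''⟩ := hcov'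
  have hex : ∀ γ : Γp, ∃ a b : SL, ∀ z : Q, qs ((γ.1 : Equiv.Perm Q) z) = a * qs z * b⁻¹ :=
    fun γ => γ.2
  choose A B hAB using hex
  have huniq : ∀ γ γ' : Γp,
      (((A (γ * γ') : SL) : M2) = ((A γ * A γ' : SL) : M2) ∧
        ((B (γ * γ') : SL) : M2) = ((B γ * B γ' : SL) : M2)) ∨
      (((A (γ * γ') : SL) : M2) = -((A γ * A γ' : SL) : M2) ∧
        ((B (γ * γ') : SL) : M2) = -((B γ * B γ' : SL) : M2)) := by
    intro γ γ'
    apply pair_unique
    intro x
    have h1 := hAB (γ * γ') (qsi x)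
    have h2 : (((γ * γ' : Γp) : Γ) : Equiv.Perm Q) (qsi x) =
        (γ.1 : Equiv.Perm Q) ((γ'.1 : Equiv.Perm Q) (qsi x)) := rfl
    rw [h2, hAB γ, hAB γ', qs_qsi] at h1
    rw [← h1]
    group
  let S : Dev Γp E :=
    { D := fun x => qs (D x)
      hD := isHomeomorph_qs.homeomorph.isLocalHomeomorph.comp hD
      A := A
      B := B
      equiv := fun γ x => by
        change qs (D ((γ : Γ) • x)) = A γ * qs (D x) * (B γ)⁻¹
        rw [he, hAB]
      A_mul := fun γ γ' => by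
        rcases huniq γ γ' with h | h
        · left
          rw [h.1, Matrix.SpecialLinearGroup.coe_mul]
        · right
          rw [h.1, Matrix.SpecialLinearGroup.coe_mul]
      B_mul := fun γ γ' => by
        rcases huniq γ γ' with h | h
        · left
          rw [h.2, Matrix.SpecialLinearGroup.coe_mul]
        · right
          rw [h.2, Matrix.SpecialLinearGroup.coe_mul]
      cont := fun γ => hc γ.1
      free := fun γ x h => Subtype.ext (free γ.1 x h)
      pd := fun C hC => by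
        refine Set.Finite.preimage (f := (Subtype.val : Γp → Γ)) ?_ (pd C hC)
        exact Subtype.val_injective.injOn
      K := K'
      hK := hK'
      cover := hcov'' }
  have hb : Function.Bijective (fun x => qs (D x)) := hmain Γp E S
  have hinj : Function.Injective qs := fun z w h => by
    rw [← qsi_qs z, ← qsi_qs w, h]
  refine ⟨fun x y h => hb.1 (by simp only [h]), fun z => ?_⟩
  obtain ⟨x, hx⟩ := hb.2 (qs z)
  exact ⟨x, hinj hx⟩

end HRK
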