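import Pool.Agent.HRK.GX5
import Pool.Agent.HRK.M1
import Pool.Agent.HRK.M4

/-!
# HRK-M5 : completeness of compact manifolds modelled on the quadric
-/

namespace HRK

open Set Filter Topology Matrix

universe u

/-- Every compact connected Hausdorff manifold modelled on `(O(4,ℂ), quadric)` is complete,
provided that the developing maps are bijective. -/
theorem quadric_complete_of
    (hmain : ∀ (Γ : Type) (E : Type u) [Group Γ] [TopologicalSpace E] [MulAction Γ E] [T2Space E]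
      [ConnectedSpace E] (S : Dev Γ E), Function.Bijective S.D)
    (M : Type u) [TopologicalSpace M] [T2Space M] [CompactSpace M] [ConnectedSpace M]
    [ChartedSpace Q M] (hM : QAtlas M) :
    ∃ (Γ : Subgroup (Equiv.Perm Q)) (Φ : MulAction.orbitRel.Quotient Γ Q ≃ₜ M),
      (∀ g ∈ Γ, ∃ A : Matrix (Fin 4) (Fin 4) ℂ, Aᵀ * A = 1 ∧
        ∀ z : Q, ((g z : Q) : Fin 4 → ℂ) = A *ᵥ (z : Fin 4 → ℂ)) ∧
      (∀ g ∈ Γ, ∀ z : Q, g z = z → g = 1) ∧
      (∀ C : Set Q, IsCompact C → {g : Equiv.Perm Q | g ∈ Γ ∧ ∃ z ∈ C, g z ∈ C}.Finite) ∧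
      ∀ z : Q, ∀ e ∈ atlas Q M, Φ (Quotient.mk'' z) ∈ e.source →
        ∃ A : Matrix (Fin 4) (Fin 4) ℂ, Aᵀ * A = 1 ∧
          ∀ᶠ w in 𝓝 z, ((e (Φ (Quotient.mk'' w)) : Q) : Fin 4 → ℂ) = A *ᵥ (w : Fin 4 → ℂ) := by
  have := locallyConnected_Q
  have := locallyCompact_Q
  obtain ⟨Γ, Φ, h1, h2, h3, h4⟩ := GX.complete_of_bijective (X := Q) (G := QI) rig_QI
    (fun E _ _ _ D hD Γ hΓ _ hc he free pd K hK hcov =>
      bijective_of_QI hmain hD Γ hΓ hc he free pd K hK hcov) M (atl_of_QAtlas M hM)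
  refine ⟨Γ, Φ, fun g hg => h1 g hg, h2, h3, ?_⟩
  intro z e he hz
  obtain ⟨g, ⟨A, hA, hg⟩, hgw⟩ := h4 z e he hz
  exact ⟨A, hA, hgw.mono fun w hw => by rw [hw, hg]⟩

end HRK
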