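import Pool.Agent.HRK.MainDev
import Pool.Agent.HRK.M5

/-!
# HRK : final theorem for the quadric
-/

namespace HRK

open Set Filter Topology Matrix

universe u

theorem quadric_complete (M : Type u) [TopologicalSpace M] [T2Space M] [CompactSpace M]
    [ConnectedSpace M] [ChartedSpace Q M] (hM : QAtlas M) :
    ∃ (Γ : Subgroup (Equiv.Perm Q)) (Φ : MulAction.orbitRel.Quotient Γ Q ≃ₜ M),
      (∀ g ∈ Γ, ∃ A : Matrix (Fin 4) (Fin 4) ℂ, Aᵀ * A = 1 ∧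
        ∀ z : Q, ((g z : Q) : Fin 4 → ℂ) = A *ᵥ (z : Fin 4 → ℂ)) ∧
      (∀ g ∈ Γ, ∀ z : Q, g z = z → g = 1) ∧
      (∀ C : Set Q, IsCompact C → {g : Equiv.Perm Q | g ∈ Γ ∧ ∃ z ∈ C, g z ∈ C}.Finite) ∧
      ∀ z : Q, ∀ e ∈ atlas Q M, Φ (Quotient.mk'' z) ∈ e.source →
        ∃ A : Matrix (Fin 4) (Fin 4) ℂ, Aᵀ * A = 1 ∧
          ∀ᶠ w in 𝓝 z, ((e (Φ (Quotient.mk'' w)) : Q) : Fin 4 → ℂ) = A *ᵥ (w : Fin 4 → ℂ) :=
  quadric_complete_of (fun Γ E _ _ _ _ _ S => main_dev S) M hM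

end HRK
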