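import Pool.Agent.HRK.GXDefs

/-!
# HRK-GX2 : the space of germs of `(G, X)`-charts
-/

namespace HRK.GX

open Set Filter Topology

set_option linter.unusedSectionVars false

universe u

variable {X : Type} [TopologicalSpace X] {G : Subgroup (Equiv.Perm X)}

/-- **Transition elements.** -/
theorem exists_unique_transition {M : Type*} [TopologicalSpace M] [ChartedSpace X M] (hG : Rig G)
    (hM : Atl G M) {e e' : OpenPartialHomeomorph M X} (he : e ∈ atlas X M)
    (he' : e' ∈ atlas X M) {m : M} (hm : m ∈ e.source) (hm' : m ∈ e'.source) :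
    ∃! g : Equiv.Perm X, g ∈ G ∧ ∀ᶠ m' in 𝓝 m, e' m' = g (e m') := by
  obtain ⟨g, hg, hgm⟩ := hM e he e' he' m hm hm'
  refine ⟨g, ⟨hg, hgm⟩, ?_⟩
  rintro g' ⟨hg', hgm'⟩
  have hsymm : Tendsto e.symm (𝓝 (e m)) (𝓝 m) := by
    have h1 := e.symm.continuousAt (x := e m) (e.map_source hm)
    rw [ContinuousAt, e.left_inv hm] at h1
    exact h1
  refine hG.ext g' hg' g hg (e m) ?_
  filter_upwards [hsymm.eventually hgm, hsymm.eventually hgm',
    e.open_target.mem_nhds (e.map_source hm)] with z h1 h2 h3
  rw [e.right_inv h3] at h1 h2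
  rw [← h1, ← h2]

/-- the group `G` with the discrete topology -/
def h2_F (G : Subgroup (Equiv.Perm X)) : Type := G

instance h2_group : Group (h2_F G) := inferInstanceAs (Group G)

instance h2_top : TopologicalSpace (h2_F G) := ⊥

instance h2_disc : DiscreteTopology (h2_F G) := ⟨rfl⟩

section core

variable {M : Type u} [TopologicalSpace M] [ChartedSpace X M] (hG : Rig G) (hM : Atl G M)

open Classical in
/-- the transition element: `i = τ ∘ j` near `m` -/
noncomputable def h2_tau (i j : atlas X M) (m : M) : (h2_F G) :=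
  if h : m ∈ i.1.source ∧ m ∈ j.1.source then
    (⟨Classical.choose (exists_unique_transition hG hM j.2 i.2 h.2 h.1).exists,
      (Classical.choose_spec (exists_unique_transition hG hM j.2 i.2 h.2 h.1).exists).1⟩ : G)
  else 1

/-- the underlying permutation -/
def h2_perm (g : (h2_F G)) : Equiv.Perm X := (show G from g : G).1

theorem h2_perm_mul (g g' : (h2_F G)) (z : X) : h2_perm (g * g') z = h2_perm g (h2_perm g' z) := rfl

theorem h2_perm_one (z : X) : h2_perm (1 : h2_F G) z = z := rfl

theorem h2_perm_mem (g : (h2_F G)) : h2_perm g ∈ G := (show G from g : G).2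

theorem h2_ext {g g' : (h2_F G)} (h : h2_perm g = h2_perm g') : g = g' := Subtype.ext h

theorem h2_tau_spec {i j : atlas X M} {m : M} (hi : m ∈ i.1.source) (hj : m ∈ j.1.source) :
    ∀ᶠ m' in 𝓝 m, i.1 m' = h2_perm (h2_tau hG hM i j m) (j.1 m') := by
  unfold h2_tau
  rw [dif_pos ⟨hi, hj⟩]
  exact (Classical.choose_spec (exists_unique_transition hG hM j.2 i.2 hj hi).exists).2

theorem h2_tau_unique {i j : atlas X M} {m : M} (hi : m ∈ i.1.source) (hj : m ∈ j.1.source)
    {g : (h2_F G)} (hg : ∀ᶠ m' in 𝓝 m, i.1 m' = h2_perm g (j.1 m')) : h2_tau hG hM i j m = g := by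
  apply h2_ext
  exact (exists_unique_transition hG hM j.2 i.2 hj hi).unique
    ⟨h2_perm_mem _, h2_tau_spec hG hM hi hj⟩ ⟨h2_perm_mem _, hg⟩

theorem h2_tau_self {i : atlas X M} {m : M} (hi : m ∈ i.1.source) : h2_tau hG hM i i m = 1 :=
  h2_tau_unique hG hM hi hi (Eventually.of_forall fun _ => rfl)

theorem h2_tau_comp {i j k : atlas X M} {m : M} (hi : m ∈ i.1.source) (hj : m ∈ j.1.source)
    (hk : m ∈ k.1.source) : h2_tau hG hM i j m * h2_tau hG hM j k m = h2_tau hG hM i k m := by
  symm
  apply h2_tau_unique hG hM hi hk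
  filter_upwards [h2_tau_spec hG hM hi hj, h2_tau_spec hG hM hj hk] with m' h1 h2
  rw [h2_perm_mul, ← h2, ← h1]

theorem h2_tau_loc {i j : atlas X M} {m : M} (hi : m ∈ i.1.source) (hj : m ∈ j.1.source) :
    ∀ᶠ m' in 𝓝 m, h2_tau hG hM i j m' = h2_tau hG hM i j m := by
  filter_upwards [(h2_tau_spec hG hM hi hj).eventually_nhds, i.1.open_source.mem_nhds hi,
    j.1.open_source.mem_nhds hj] with m' h1 h2 h3
  exact h2_tau_unique hG hM h2 h3 h1

/-- the bundle core -/
noncomputable def h2_core : FiberBundleCore (atlas X M) M (h2_F G) where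
  baseSet i := i.1.source
  isOpen_baseSet i := i.1.open_source
  indexAt m := ⟨chartAt X m, chart_mem_atlas X m⟩
  mem_baseSet_at m := mem_chart_source X m
  coordChange i j m g := g * h2_tau hG hM i j m
  coordChange_self i m hm g := by rw [h2_tau_self hG hM hm, mul_one]
  continuousOn_coordChange i j := by
    rintro ⟨m, g⟩ ⟨⟨hi, hj⟩, _⟩
    apply ContinuousAt.continuousWithinAt
    have h1 : ∀ᶠ q : M × (h2_F G) in 𝓝 (m, g), q.2 * h2_tau hG hM i j q.1 = g * h2_tau hG hM i j m := by
      have h2 : ∀ᶠ q : M × (h2_F G) in 𝓝 (m, g), q.2 = g := by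
        have : ∀ᶠ g' in 𝓝 g, g' = g := by
          rw [nhds_discrete]
          exact rfl
        exact (continuous_snd.tendsto (m, g)).eventually this
      have h3 : ∀ᶠ q : M × (h2_F G) in 𝓝 (m, g), h2_tau hG hM i j q.1 = h2_tau hG hM i j m :=
        (continuous_fst.tendsto (m, g)).eventually (h2_tau_loc hG hM hi hj)
      filter_upwards [h2, h3] with q h4 h5
      rw [h4, h5]
    exact (continuousAt_const (y := g * h2_tau hG hM i j m)).congr
      (h1.mono fun q hq => hq.symm)
  coordChange_comp i j k m hm g := by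
    rw [mul_assoc, h2_tau_comp hG hM hm.1.1 hm.1.2 hm.2]

/-- the total space -/
abbrev h2_E : Type u := (h2_core hG hM).TotalSpace

/-- evaluation -/
noncomputable def h2_D (x : h2_E hG hM) : X := h2_perm (show (h2_F G) from x.2) (chartAt X x.1 x.1)

theorem h2_D_eq (x : h2_E hG hM) (i : atlas X M) (hi : x.1 ∈ i.1.source) :
    h2_D hG hM x = h2_perm ((h2_core hG hM).localTriv i x).2 (i.1 x.1) := by
  have h1 := (h2_tau_spec hG hM (i := ⟨chartAt X x.1, chart_mem_atlas X x.1⟩) (j := i)
    (mem_chart_source X x.1) hi).self_of_nhds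
  change h2_perm (show (h2_F G) from x.2) (chartAt X x.1 x.1) = h2_perm
    ((show (h2_F G) from x.2) * h2_tau hG hM ⟨chartAt X x.1, chart_mem_atlas X x.1⟩ i x.1) (i.1 x.1)
  rw [h2_perm_mul, ← h1]

/-- the action -/
def h2_smul (γ : (h2_F G)) (x : h2_E hG hM) : h2_E hG hM := ⟨x.1, γ * (show (h2_F G) from x.2)⟩

theorem h2_smul_eq (γ : (h2_F G)) (x : h2_E hG hM) (i : atlas X M) (hi : x.1 ∈ i.1.source) :
    h2_smul hG hM γ x = ((h2_core hG hM).localTriv i).toOpenPartialHomeomorph.symm
      (x.1, γ * ((h2_core hG hM).localTriv i x).2) := by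
  rw [FiberBundleCore.localTriv_symm_apply]
  have h1 := h2_tau_comp hG hM (i := ⟨chartAt X x.1, chart_mem_atlas X x.1⟩) (j := i)
    (k := ⟨chartAt X x.1, chart_mem_atlas X x.1⟩) (mem_chart_source X x.1) hi
    (mem_chart_source X x.1)
  rw [h2_tau_self hG hM (i := ⟨chartAt X x.1, chart_mem_atlas X x.1⟩) (mem_chart_source X x.1)] at h1
  change (⟨x.1, γ * (show (h2_F G) from x.2)⟩ : h2_E hG hM) = ⟨x.1, (γ * ((show (h2_F G) from x.2) *
    h2_tau hG hM ⟨chartAt X x.1, chart_mem_atlas X x.1⟩ i x.1)) *
    h2_tau hG hM i ⟨chartAt X x.1, chart_mem_atlas X x.1⟩ x.1⟩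
  rw [mul_assoc, mul_assoc, h1, mul_one]

theorem h2_smul_cont (γ : (h2_F G)) : Continuous (h2_smul hG hM γ) := by
  rw [continuous_iff_continuousAt]
  intro x₀
  set i : atlas X M := ⟨chartAt X x₀.1, chart_mem_atlas X x₀.1⟩ with hi
  set T := ((h2_core hG hM).localTriv i).toOpenPartialHomeomorph with hT
  have hx₀ : x₀ ∈ T.source := mem_chart_source X x₀.1
  have hev : ∀ᶠ x in 𝓝 x₀, x ∈ T.source := T.open_source.mem_nhds hx₀
  have h1 : ContinuousAt (fun x : h2_E hG hM => T.symm (x.1, γ * (T x).2)) x₀ := by
    have h2 : ContinuousAt T x₀ := T.continuousAt hx₀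
    have h3 : ContinuousAt (fun x : h2_E hG hM => (x.1, γ * (T x).2)) x₀ := by
      refine ContinuousAt.prodMk ?_ ?_
      · exact (h2_core hG hM).continuous_proj.continuousAt
      · exact (continuous_of_discreteTopology (f := fun g : (h2_F G) => γ * g)).continuousAt.comp
          (continuous_snd.continuousAt.comp h2)
    have h4 : ContinuousAt T.symm (x₀.1, γ * (T x₀).2) := by
      apply T.symm.continuousAt
      change (x₀.1, γ * (T x₀).2) ∈ ((h2_core hG hM).localTriv i).target
      rw [(h2_core hG hM).mem_localTriv_target]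
      exact mem_chart_source X x₀.1
    exact ContinuousAt.comp (f := fun x : h2_E hG hM => (x.1, γ * (T x).2)) (g := T.symm) h4 h3
  refine h1.congr ?_
  filter_upwards [hev] with x hx
  exact (h2_smul_eq hG hM γ x i hx).symm

end core

theorem h2_FI_homeo (hG : Rig G) (g : (h2_F G)) : ∃ H : X ≃ₜ X, ∀ z, H z = h2_perm g z :=
  ⟨{ toEquiv := h2_perm g
     continuous_toFun := hG.cont _ (h2_perm_mem g)
     continuous_invFun := by
       have : h2_perm g⁻¹ = (h2_perm g)⁻¹ := rfl
       have h1 := hG.cont _ (h2_perm_mem g⁻¹)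
       rw [this] at h1
       exact h1 }, fun _ => rfl⟩

/-- **Existence of the germ space.**

Construction. `ι = atlas X M` (as a type), `F = ↥G` with the discrete topology. For
`i j : ι` and `m` in both sources let `τ i j m ∈ G` be the element with
`i = τ ∘ j` near `m` (`exists_unique_transition`), and `1` outside. `FiberBundleCore ι M F`:
`baseSet i = i.source`, `indexAt m = chartAt X m`, `coordChange i j m g = g * τ i j m`.
* `coordChange_self`: `τ i i m = 1` by uniqueness.
* `coordChange_comp`: `τ i j m * τ j k m = τ i k m` by uniqueness (`i = τ_ij ∘ j = τ_ij ∘ τ_jk ∘ k`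
  near `m`).
* continuity: `m ↦ τ i j m` is locally constant on the overlap (if `i = g ∘ j` on a neighbourhood of
  `m`, it is so near every point `m'` of an open neighbourhood, so `τ i j m' = g` there), and `F` is
  discrete: `continuousOn` because the map is locally `(m', g') ↦ g' * g`.
`E = Z.TotalSpace` with `p = Z.proj`, `E` is T2: `M` should be Hausdorff (hypothesis `T2Space M`)
and `p` is a covering map (`FiberBundle.isCoveringMap`), so separated
(`IsCoveringMap.isSeparatedMap`). `hp`: `IsCoveringMap.isLocalHomeomorph`.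
`D ⟨m, g⟩ = g (chartAt X m m)`. In the trivialization `i`: if `x = ⟨m, g⟩` and
`g_i = coordChange (indexAt m) i m g = g * τ (chartAt m) i m` is its second coordinate then
`g_i (i m) = g (τ (i m)) = g (chartAt m m) = D x`. So near `x₀`, `D = g_i ∘ i ∘ p` with `g_i`
constant (discrete fibre, trivialization continuous): composition of local homeomorphisms, so `D`
is a local homeomorphism (`IsLocalHomeomorph.mk` or local-on-source arguments).
Action: `γ • ⟨m, g⟩ = ⟨m, γ * g⟩`; it is continuous: in each trivialization it is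
`(m, g) ↦ (m, γ * g)` (`coordChange` is right multiplication). `free`, `trans`: left
multiplication in the group `G`.
`sec`: for `e ∈ atlas`, `s m' = (Z.localTriv e).symm (m', 1)`, i.e. `⟨m', coordChange e
(indexAt m') m' 1⟩`; continuous on `e.source`, `D (s m') = 1 (e m') = e m'`. -/
theorem exists_germSpace (M : Type u) [TopologicalSpace M] [T2Space M] [ChartedSpace X M]
    (hG : Rig G) (hM : Atl G M) : Nonempty (GermSpace G M) := by
  have hcov : IsCoveringMap (h2_core hG hM).proj :=
    IsFiberBundle.isCoveringMap (F := (h2_F G)) fun m => ⟨(h2_core hG hM).localTriv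
      ⟨chartAt X m, chart_mem_atlas X m⟩, mem_chart_source X m⟩
  have hT2 : T2Space (h2_E hG hM) := by
    refine ⟨fun x y hxy => ?_⟩
    by_cases hp : (h2_core hG hM).proj x = (h2_core hG hM).proj y
    · obtain ⟨s, t, hs, ht, hxs, hyt, hd⟩ := hcov.isSeparatedMap x y hp hxy
      exact ⟨s, t, hs, ht, hxs, hyt, hd⟩
    · obtain ⟨s, t, hs, ht, hxs, hyt, hd⟩ := t2_separation hp
      exact ⟨_, _, hs.preimage (h2_core hG hM).continuous_proj,
        ht.preimage (h2_core hG hM).continuous_proj, hxs, hyt, hd.preimage _⟩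
  have hploc : IsLocalHomeomorph (h2_core hG hM).proj := hcov.isLocalHomeomorph
  have hDloc : IsLocalHomeomorph (h2_D hG hM) := by
    apply IsLocalHomeomorph.mk
    intro x₀
    obtain ⟨q, hq, hqe⟩ := hploc x₀
    set i : atlas X M := ⟨chartAt X x₀.1, chart_mem_atlas X x₀.1⟩ with hi
    set T := ((h2_core hG hM).localTriv i).toOpenPartialHomeomorph with hT
    have hx₀ : x₀ ∈ T.source := mem_chart_source X x₀.1
    have hO : IsOpen (T.source ∩ T ⁻¹' {w | w.2 = (T x₀).2}) := by
      apply T.isOpen_inter_preimage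
      have : {w : M × (h2_F G) | w.2 = (T x₀).2} = Prod.snd ⁻¹' {(T x₀).2} := rfl
      rw [this]
      exact (isOpen_discrete _).preimage continuous_snd
    obtain ⟨H, hH⟩ := h2_FI_homeo hG (T x₀).2
    refine ⟨((q.restrOpen _ hO).trans i.1).trans H.toOpenPartialHomeomorph, ?_, ?_⟩
    · simp only [OpenPartialHomeomorph.trans_source, OpenPartialHomeomorph.restrOpen_source,
        Homeomorph.toOpenPartialHomeomorph_source, Set.preimage_univ, Set.inter_univ,
        Set.mem_inter_iff, Set.mem_preimage]
      refine ⟨⟨hq, hx₀, rfl⟩, ?_⟩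
      have : (q.restrOpen _ hO) x₀ = q x₀ := rfl
      rw [this, ← hqe]
      exact mem_chart_source X x₀.1
    · intro x hx
      simp only [OpenPartialHomeomorph.trans_source, OpenPartialHomeomorph.restrOpen_source,
        Homeomorph.toOpenPartialHomeomorph_source, Set.preimage_univ, Set.inter_univ,
        Set.mem_inter_iff, Set.mem_preimage] at hx
      obtain ⟨⟨hxq, hxT, hx2⟩, hxi⟩ := hx
      change h2_D hG hM x = H (i.1 (q x))
      rw [hH, ← hqe, h2_D_eq hG hM x i hxT]
      have hx3 : (T x).2 = (T x₀).2 := hx2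
      change h2_perm (T x).2 (i.1 x.1) = h2_perm (T x₀).2 (i.1 x.1)
      rw [hx3]
  let act : MulAction G (h2_E hG hM) :=
    { smul := fun γ x => h2_smul hG hM (show (h2_F G) from γ) x
      one_smul := by
        rintro ⟨m, g⟩
        change (⟨m, (1 : (h2_F G)) * (show (h2_F G) from g)⟩ : h2_E hG hM) = ⟨m, g⟩
        rw [one_mul]
      mul_smul := by
        rintro γ γ' ⟨m, g⟩
        change (⟨m, ((show (h2_F G) from γ) * (show (h2_F G) from γ')) * (show (h2_F G) from g)⟩ : h2_E hG hM) =
          ⟨m, (show (h2_F G) from γ) * ((show (h2_F G) from γ') * (show (h2_F G) from g))⟩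
        rw [mul_assoc] }
  exact ⟨{ E := h2_E hG hM
           top := inferInstance
           t2 := hT2
           act := act
           p := (h2_core hG hM).proj
           D := h2_D hG hM
           hp := hploc
           hD := hDloc
           cont := fun g => h2_smul_cont hG hM g
           p_smul := fun g x => rfl
           D_smul := fun g x => rfl
           free := by
             rintro g ⟨m, a⟩ h
             have h1 : (⟨m, (show (h2_F G) from g) * (show (h2_F G) from a)⟩ : h2_E hG hM) = ⟨m, a⟩ := h
             have h2 : (show (h2_F G) from g) * (show (h2_F G) from a) = (show (h2_F G) from a) :=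
               congrArg (fun x : h2_E hG hM => (show (h2_F G) from x.2)) h1
             have h3 : (show (h2_F G) from g) = 1 := by
               have h4 := congrArg (fun b : (h2_F G) => b * (show (h2_F G) from a)⁻¹) h2
               simpa using h4
             exact h3
           trans := by
             rintro ⟨m, a⟩ ⟨m', a'⟩ h
             have h1 : m = m' := h
             subst h1
             refine ⟨((show (h2_F G) from a') * (show (h2_F G) from a)⁻¹ : (h2_F G)), ?_⟩
             change (⟨m, ((show (h2_F G) from a') * (show (h2_F G) from a)⁻¹) * (show (h2_F G) from a)⟩ :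
               h2_E hG hM) = ⟨m, a'⟩
             rw [inv_mul_cancel_right]
           sec := by
             intro e he m hm
             refine ⟨fun m' => ((h2_core hG hM).localTriv ⟨e, he⟩).toOpenPartialHomeomorph.symm
               (m', 1), ?_, fun m' _ => rfl, ?_⟩
             · refine (((h2_core hG hM).localTriv
                 ⟨e, he⟩).toOpenPartialHomeomorph.symm.continuousOn).comp
                 (by fun_prop) ?_
               intro m' hm'
               change (m', (1 : (h2_F G))) ∈ ((h2_core hG hM).localTriv ⟨e, he⟩).target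
               rw [(h2_core hG hM).mem_localTriv_target]
               exact hm'
             · intro m' hm'
               have h1 := (h2_tau_spec hG hM (i := ⟨e, he⟩)
                 (j := ⟨chartAt X m', chart_mem_atlas X m'⟩) hm'
                 (mem_chart_source X m')).self_of_nhds
               change h2_perm (1 * h2_tau hG hM ⟨e, he⟩ ⟨chartAt X m', chart_mem_atlas X m'⟩ m')
                 (chartAt X m' m') = e m'
               rw [one_mul]
               exact h1.symm }⟩

end HRK.GX
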