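import Pool.Agent.HRK.GX2

/-!
# HRK-GX3 : existence of the developing pair
-/

namespace HRK.GX

open Set Filter Topology

set_option linter.unusedSectionVars false

universe u

variable {X : Type} [TopologicalSpace X] {G : Subgroup (Equiv.Perm X)}

theorem h3a_nhd [LocallyConnectedSpace X] {Y : Type u} [TopologicalSpace Y]
    (φ : OpenPartialHomeomorph Y X) {x : Y}
    (hx : x ∈ φ.source) {U : Set Y} (hU : U ∈ 𝓝 x) :
    ∃ W ∈ 𝓝 x, IsOpen W ∧ IsConnected W ∧ W ⊆ U ∧ W ⊆ φ.source := by
  have h1 : φ.target ∩ φ.symm ⁻¹' (U ∩ φ.source) ∈ 𝓝 (φ x) := by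
    have h2 : φ.target ∈ 𝓝 (φ x) := φ.open_target.mem_nhds (φ.map_source hx)
    have h3 : ContinuousAt φ.symm (φ x) := φ.symm.continuousAt (φ.map_source hx)
    have h4 : U ∩ φ.source ∈ 𝓝 (φ.symm (φ x)) := by
      rw [φ.left_inv hx]
      exact inter_mem hU (φ.open_source.mem_nhds hx)
    exact inter_mem h2 (h3 h4)
  obtain ⟨B, hBs, hBo, hxB, hBc⟩ :=
    (locallyConnectedSpace_iff_subsets_isOpen_isConnected.1 inferInstance) (φ x) _ h1
  have heq : φ.symm '' B = φ.source ∩ φ ⁻¹' B := by
    ext y
    constructor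
    · rintro ⟨z, hz, rfl⟩
      refine ⟨(hBs hz).2.2, ?_⟩
      change φ (φ.symm z) ∈ B
      rw [φ.right_inv (hBs hz).1]
      exact hz
    · rintro ⟨hy1, hy2⟩
      exact ⟨φ y, hy2, φ.left_inv hy1⟩
  have ho : IsOpen (φ.symm '' B) := by
    rw [heq]
    exact φ.isOpen_inter_preimage hBo
  refine ⟨φ.symm '' B, ho.mem_nhds ⟨φ x, hxB, φ.left_inv hx⟩, ho, ?_, ?_, ?_⟩
  · exact hBc.image _ (φ.symm.continuousOn.mono fun z hz => (hBs hz).1)
  · rintro _ ⟨z, hz, rfl⟩
    exact (hBs hz).2.1
  · rintro _ ⟨z, hz, rfl⟩
    exact (hBs hz).2.2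

theorem h3a_locConn [LocallyConnectedSpace X] {Y : Type u} [TopologicalSpace Y] (f : Y → X)
    (hf : IsLocalHomeomorph f) : LocallyConnectedSpace Y := by
  rw [locallyConnectedSpace_iff_subsets_isOpen_isConnected]
  intro x U hU
  obtain ⟨φ, hx, _⟩ := hf x
  obtain ⟨W, hW, hWo, hWc, hWU, hWs⟩ := h3a_nhd φ hx hU
  exact ⟨W, hWU, hWo, mem_of_mem_nhds hW, hWc⟩

section main

variable {M : Type u} [TopologicalSpace M] [T2Space M] [ConnectedSpace M] [ChartedSpace X M]
  [LocallyConnectedSpace X]
  {E : Type u} [TopologicalSpace E] [T2Space E] [MulAction G E]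

theorem h3a_key (cont : ∀ g : G, Continuous fun x : E => g • x) (x₀ : E) (γ : G) {y : E}
    (hy : y ∈ connectedComponent x₀) (hγ : γ • y ∈ connectedComponent x₀) {z : E}
    (hz : z ∈ connectedComponent x₀) : γ • z ∈ connectedComponent x₀ := by
  have h1 : IsPreconnected ((fun x : E => γ • x) '' connectedComponent x₀) :=
    isPreconnected_connectedComponent.image _ (cont γ).continuousOn
  have h2 : (fun x : E => γ • x) '' connectedComponent x₀ ⊆ connectedComponent (γ • y) :=
    h1.subset_connectedComponent ⟨y, hy, rfl⟩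
  have h3 : connectedComponent x₀ = connectedComponent (γ • y) := connectedComponent_eq hγ
  rw [h3]
  exact h2 ⟨z, hz, rfl⟩

/-- the group of the component of `x₀` -/
def h3a_Gam (cont : ∀ g : G, Continuous fun x : E => g • x) (x₀ : E) :
    Subgroup (Equiv.Perm X) where
  carrier := {g | ∃ h : g ∈ G, (⟨g, h⟩ : G) • x₀ ∈ connectedComponent x₀}
  mul_mem' := by
    rintro a b ⟨ha, ha'⟩ ⟨hb, hb'⟩
    refine ⟨G.mul_mem ha hb, ?_⟩
    have h1 : (⟨a * b, G.mul_mem ha hb⟩ : G) = ⟨a, ha⟩ * ⟨b, hb⟩ := rfl
    rw [h1, mul_smul]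
    exact h3a_key cont x₀ ⟨a, ha⟩ mem_connectedComponent ha' hb'
  one_mem' := by
    refine ⟨G.one_mem, ?_⟩
    have h1 : (⟨1, G.one_mem⟩ : G) = 1 := rfl
    rw [h1, one_smul]
    exact mem_connectedComponent
  inv_mem' := by
    rintro a ⟨ha, ha'⟩
    refine ⟨G.inv_mem ha, ?_⟩
    have h1 : (⟨a⁻¹, G.inv_mem ha⟩ : G) = (⟨a, ha⟩ : G)⁻¹ := rfl
    rw [h1]
    refine h3a_key cont x₀ _ ha' ?_ mem_connectedComponent
    rw [inv_smul_smul]
    exact mem_connectedComponent

/-- the action on the component -/
@[instance_reducible]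
def h3a_act (cont : ∀ g : G, Continuous fun x : E => g • x) (x₀ : E) :
    MulAction (h3a_Gam cont x₀) (connectedComponent x₀) where
  smul g x := ⟨(⟨g.1, g.2.1⟩ : G) • x.1,
    h3a_key cont x₀ ⟨g.1, g.2.1⟩ mem_connectedComponent g.2.2 x.2⟩
  one_smul x := by
    apply Subtype.ext
    change (⟨1, _⟩ : G) • x.1 = x.1
    have h1 : ∀ h, (⟨1, h⟩ : G) = 1 := fun _ => rfl
    rw [h1, one_smul]
  mul_smul g g' x := by
    apply Subtype.ext
    change (⟨g.1 * g'.1, _⟩ : G) • x.1 = (⟨g.1, _⟩ : G) • ((⟨g'.1, _⟩ : G) • x.1)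
    rw [← mul_smul]
    rfl

theorem h3a_main (p : E → M) (D : E → X)
    (hp : IsLocalHomeomorph p) (hD : IsLocalHomeomorph D)
    (cont : ∀ g : G, Continuous fun x : E => g • x)
    (p_smul : ∀ (g : G) (x : E), p (g • x) = p x)
    (D_smul : ∀ (g : G) (x : E), D (g • x) = (g : Equiv.Perm X) (D x))
    (free : ∀ (g : G) (x : E), g • x = x → g = 1)
    (trans : ∀ x y : E, p x = p y → ∃ g : G, g • x = y)
    (sec : ∀ e ∈ atlas X M, ∀ m ∈ e.source, ∃ s : M → E, ContinuousOn s e.source ∧
      (∀ m' ∈ e.source, p (s m') = m') ∧ ∀ m' ∈ e.source, D (s m') = e m') :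
    Nonempty (DevPair G M) := by
  obtain ⟨m₀⟩ : Nonempty M := inferInstance
  obtain ⟨s₀, hs₀, hs₀p, hs₀D⟩ := sec (chartAt X m₀) (chart_mem_atlas X m₀) m₀
    (mem_chart_source X m₀)
  set x₀ : E := s₀ m₀ with hx₀
  have : LocallyConnectedSpace E := h3a_locConn D hD
  have hCo : IsOpen (connectedComponent x₀) := isOpen_connectedComponent
  have hemb : IsOpenEmbedding (Subtype.val : connectedComponent x₀ → E) :=
    hCo.isOpenEmbedding_subtypeVal
  have hpC : IsLocalHomeomorph (fun x : connectedComponent x₀ => p x.1) :=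
    hp.comp hemb.isLocalHomeomorph
  have hDC : IsLocalHomeomorph (fun x : connectedComponent x₀ => D x.1) :=
    hD.comp hemb.isLocalHomeomorph
  have hconn : ConnectedSpace (connectedComponent x₀) :=
    Subtype.connectedSpace isConnected_connectedComponent
  -- surjectivity
  have hsurj : Function.Surjective (fun x : connectedComponent x₀ => p x.1) := by
    rw [← Set.range_eq_univ]
    refine IsClopen.eq_univ ⟨?_, hpC.isOpenMap.isOpen_range⟩ ⟨_, ⟨⟨x₀, mem_connectedComponent⟩, rfl⟩⟩
    rw [← closure_subset_iff_isClosed]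
    intro m hm
    obtain ⟨W, hW, -, hWc0, -, hWs⟩ := h3a_nhd (chartAt X m) (mem_chart_source X m)
      (univ_mem (f := 𝓝 m))
    have hWc := hWc0.isPreconnected
    obtain ⟨m₁, hm₁W, ⟨⟨x, hx⟩, hxm⟩⟩ := mem_closure_iff_nhds.1 hm W hW
    obtain ⟨s, hs, hsp, hsD⟩ := sec (chartAt X m) (chart_mem_atlas X m) m (mem_chart_source X m)
    have hxm' : p x = m₁ := hxm
    obtain ⟨γ, hγ⟩ := trans (s m₁) x (by rw [hsp m₁ (hWs hm₁W), hxm'])
    have hpre : IsPreconnected ((fun m' => γ • s m') '' W) := by
      refine hWc.image _ ?_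
      exact (cont γ).comp_continuousOn (hs.mono hWs)
    have hsub : (fun m' => γ • s m') '' W ⊆ connectedComponent x :=
      hpre.subset_connectedComponent ⟨m₁, hm₁W, hγ⟩
    rw [← connectedComponent_eq hx] at hsub
    have hmW : m ∈ W := mem_of_mem_nhds hW
    refine ⟨⟨γ • s m, hsub ⟨m, hmW, rfl⟩⟩, ?_⟩
    change p (γ • s m) = m
    rw [p_smul, hsp m (hWs hmW)]
  exact ⟨{ E := connectedComponent x₀
           top := inferInstance
           t2 := inferInstance
           conn := hconn
           Γ := h3a_Gam cont x₀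
           hΓ := fun g hg => hg.1
           act := h3a_act cont x₀
           p := fun x => p x.1
           D := fun x => D x.1
           hp := hpC
           hD := hDC
           cont := fun g => by
             refine Continuous.subtype_mk ((cont ⟨g.1, g.2.1⟩).comp continuous_subtype_val) _
           D_smul := fun g x => D_smul ⟨g.1, g.2.1⟩ x.1
           free := fun g x h => by
             have h1 : (⟨g.1, g.2.1⟩ : G) • x.1 = x.1 := congrArg Subtype.val h
             have h2 : (⟨g.1, g.2.1⟩ : G) = 1 := free ⟨g.1, g.2.1⟩ x.1 h1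
             apply Subtype.ext
             exact congrArg (fun k : G => (k : Equiv.Perm X)) h2
           surj := hsurj
           fibre := fun x y => by
             constructor
             · intro h
               obtain ⟨γ, hγ⟩ := trans x.1 y.1 h
               have hγC : γ • x₀ ∈ connectedComponent x₀ := by
                 refine h3a_key cont x₀ γ x.2 ?_ mem_connectedComponent
                 rw [hγ]
                 exact y.2
               refine ⟨⟨γ.1, γ.2, hγC⟩, ?_⟩
               apply Subtype.ext
               exact hγ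
             · rintro ⟨g, hg⟩
               rw [← hg]
               exact (p_smul ⟨g.1, g.2.1⟩ x.1).symm
           chart := fun x e he hx => by
             obtain ⟨s, hs, hsp, hsD⟩ := sec e he (p x.1) hx
             obtain ⟨γ, hγ⟩ := trans (s (p x.1)) x.1 (by rw [hsp _ hx])
             obtain ⟨φ, hφ, hφe⟩ := hp x.1
             have hcont : ContinuousAt (fun y : E => γ • s (p y)) x.1 := by
               refine (cont γ).continuousAt.comp ?_
               exact ContinuousAt.comp (f := p) (g := s)
                 (hs.continuousAt (e.open_source.mem_nhds hx)) hp.continuous.continuousAt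
             have h1 : ∀ᶠ y in 𝓝 x.1, γ • s (p y) ∈ φ.source := by
               apply hcont
               have : (fun y : E => γ • s (p y)) x.1 = x.1 := hγ
               rw [this]
               exact φ.open_source.mem_nhds hφ
             have h2 : ∀ᶠ y in 𝓝 x.1, y ∈ φ.source := φ.open_source.mem_nhds hφ
             have h3 : ∀ᶠ y in 𝓝 x.1, p y ∈ e.source :=
               hp.continuous.continuousAt (e.open_source.mem_nhds hx)
             have h4 : ∀ᶠ y in 𝓝 x.1, e (p y) = ((γ : Equiv.Perm X)⁻¹) (D y) := by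
               filter_upwards [h1, h2, h3] with y hy1 hy2 hy3
               have h5 : γ • s (p y) = y := by
                 apply φ.injOn hy1 hy2
                 rw [← hφe]
                 rw [p_smul, hsp _ hy3]
               have h6 : D y = (γ : Equiv.Perm X) (e (p y)) := by
                 conv_lhs => rw [← h5]
                 rw [D_smul, hsD _ hy3]
               rw [h6]
               exact (Equiv.symm_apply_apply (γ : Equiv.Perm X) (e (p y))).symm
             refine ⟨(γ : Equiv.Perm X)⁻¹, G.inv_mem γ.2, ?_⟩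
             exact continuous_subtype_val.continuousAt.eventually h4 }⟩

end main

/-- **Existence of the developing pair.**

Proof. Let `G` be a germ space (`exists_germSpace`), `x₀ : G.E` a point (`M` is nonempty: take a
point `m`, the chart at `m`, and the section `sec`). `G.E` is locally connected (locally
homeomorphic to `V` by `G.hD`), so the connected component `C` of `x₀` is open
(`isOpen_connectedComponent` with `LocallyConnectedSpace`); `E := C` (subtype).
`Γ := {g ∈ G | g • x₀ ∈ C}` (as a subgroup of `Equiv.Perm X`: elements `g` with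
`∃ h : g ∈ G, (⟨g, h⟩ : G) • x₀ ∈ C`): for `g ∈ Γ`, the homeomorphism `x ↦ g • x` maps the
connected set `C` to a connected set meeting `C`, so into `C`, and so does `g⁻¹`. Subgroup axioms
and the action on `C` follow.
`p, D` are restrictions to the open subset `C`, so local homeomorphisms.
`fibre`: if `p x = p y`, `x, y ∈ C`, `trans` gives `g ∈ G` with `g • x = y`; `g • C` is connected
and meets `C`, so `g • x₀ ∈ C`, `g ∈ Γ`.
`surj`: `p '' C` is open. It is closed: let `m ∈ closure (p '' C)`, `e` the chart at `m`,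
`W ⊆ e.source` a connected open neighbourhood of `m` (the `e`-preimage of a small ball). There is
`x ∈ C` with `p x ∈ W`. Let `s` be a section over `e.source` (`sec`) and `g` with
`g • s (p x) = x` (`trans`). The set `{g • s m' | m' ∈ W}` is connected (continuous image of `W`),
contains `x ∈ C`, so is contained in `C`, and `p (g • s m) = m`. As `M` is connected,
`p '' C = M`.
`chart`: let `x ∈ C`, `p x ∈ e.source`, `s` the section over `e.source`, `g • s (p x) = x`. The map
`y ↦ g • s (p y)` and the identity are two continuous maps near `x` with the same `p`, agreeing at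
`x`; as `p` is locally injective near `x`, `g • s (p y) = y` for `y` near `x` (both are close to
`x`). So `D y = g (e (p y))` and `e (p y) = g⁻¹ (D y)` near `x`. -/
theorem exists_devPair (M : Type u) [TopologicalSpace M] [T2Space M] [ConnectedSpace M]
    [ChartedSpace X M] [LocallyConnectedSpace X] (hG : Rig G) (hM : Atl G M) : Nonempty (DevPair G M) := by
  obtain ⟨S⟩ := exists_germSpace M hG hM
  exact @h3a_main X _ G M _ _ _ _ _ S.E S.top S.t2 S.act S.p S.D S.hp S.hD S.cont S.p_smul S.D_smul
    S.free S.trans S.sec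

end HRK.GX
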