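import Pool.Agent.HRK.GXDefs

/-!
# HRK-GX3b : proper discontinuity, cocompactness
-/

namespace HRK.GX

open Set Filter Topology

set_option linter.unusedSectionVars false

universe u

variable {X : Type} [TopologicalSpace X] {G : Subgroup (Equiv.Perm X)}

/-- **Proper discontinuity.**

Proof. Let `C ⊆ E` be compact. For every `(x, y) ∈ C × C` there are open sets `U ∋ x`, `U' ∋ y` such
that `{γ | ∃ z ∈ U, γ • z ∈ U'}` is finite: if `p x ≠ p y`, take disjoint neighbourhoods of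
`p x`, `p y` in the Hausdorff space `M` and pull back (`p (γ • z) = p z`): the set is empty. If
`p x = p y`, `y = γ₀ • x`; let `U ∋ x` be open with `p` injective on `U` and `U' = γ₀ • U`
(open). If `z ∈ U` and `γ • z = γ₀ • z'`, `z' ∈ U`, then `p z = p z'`, so `z = z'`, and
`γ₀⁻¹ γ` fixes `z`, so `γ = γ₀`. By compactness of `C × C` finitely many `U × U'` cover it. -/
theorem DevPair.pd {M : Type u} [TopologicalSpace M] [T2Space M] [ChartedSpace X M]
    (P : DevPair G M) :
    letI := P.top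
    letI := P.act
    ∀ C : Set P.E, IsCompact C → {γ : P.Γ | ∃ x ∈ C, γ • x ∈ C}.Finite := by
  letI := P.top
  letI := P.act
  intro C hC
  have hp_smul : ∀ (γ : P.Γ) (z : P.E), P.p (γ • z) = P.p z := fun γ z =>
    ((P.fibre z (γ • z)).2 ⟨γ, rfl⟩).symm
  -- local claim
  have hloc : ∀ x y : P.E, ∃ U ∈ 𝓝 x, ∃ U' ∈ 𝓝 y, {γ : P.Γ | ∃ z ∈ U, γ • z ∈ U'}.Finite := by
    intro x y
    have hpc : Continuous P.p := P.hp.continuous
    by_cases hxy : P.p x = P.p y
    · obtain ⟨γ₀, rfl⟩ := (P.fibre x y).1 hxy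
      obtain ⟨e, hx, he⟩ := P.hp x
      refine ⟨e.source, e.open_source.mem_nhds hx, (fun z => γ₀⁻¹ • z) ⁻¹' e.source, ?_, ?_⟩
      · apply (P.cont γ₀⁻¹).continuousAt.preimage_mem_nhds
        rw [inv_smul_smul]
        exact e.open_source.mem_nhds hx
      · refine (finite_singleton γ₀).subset ?_
        rintro γ ⟨z, hz, hz'⟩
        have hz'' : γ₀⁻¹ • γ • z ∈ e.source := hz'
        have h1 : P.p (γ₀⁻¹ • γ • z) = P.p z := by rw [hp_smul, hp_smul]
        rw [he] at h1
        have h2 : γ₀⁻¹ • γ • z = z := e.injOn hz'' hz h1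
        rw [smul_smul] at h2
        have h3 := P.free _ _ h2
        exact (inv_mul_eq_one.1 h3).symm
    · obtain ⟨U, W, hU, hW, hxU, hyW, hd⟩ := t2_separation hxy
      refine ⟨P.p ⁻¹' U, (hU.preimage hpc).mem_nhds hxU, P.p ⁻¹' W,
        (hW.preimage hpc).mem_nhds hyW, ?_⟩
      refine finite_empty.subset ?_
      rintro γ ⟨z, hz, hz'⟩
      have h1 : P.p z ∈ U := hz
      have h2 : P.p (γ • z) ∈ W := hz'
      rw [hp_smul] at h2
      exact (Set.disjoint_left.1 hd h1 h2).elim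
  have hmain : {γ : P.Γ | ∃ z, (z, γ • z) ∈ C ×ˢ C}.Finite := by
    refine (hC.prod hC).induction_on (p := fun s => {γ : P.Γ | ∃ z, (z, γ • z) ∈ s}.Finite)
      ?_ ?_ ?_ ?_
    · refine finite_empty.subset ?_
      rintro γ ⟨z, hz⟩
      exact hz.elim
    · intro s t hst ht
      exact ht.subset fun γ ⟨z, hz⟩ => ⟨z, hst hz⟩
    · intro s t hs ht
      refine (hs.union ht).subset ?_
      rintro γ ⟨z, hz | hz⟩
      · exact Or.inl ⟨z, hz⟩
      · exact Or.inr ⟨z, hz⟩
    · rintro ⟨x, y⟩ _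
      obtain ⟨U, hU, U', hU', hf⟩ := hloc x y
      refine ⟨U ×ˢ U', mem_nhdsWithin_of_mem_nhds (prod_mem_nhds hU hU'), ?_⟩
      exact hf.subset fun γ ⟨z, hz⟩ => ⟨z, hz.1, hz.2⟩
  exact hmain.subset fun γ ⟨z, hz, hz'⟩ => ⟨z, hz, hz'⟩


theorem h3c_cpt_nhds [LocallyCompactSpace X] {E : Type*} [TopologicalSpace E] {D : E → X}
    (hD : IsLocalHomeomorph D)
    (x : E) : ∃ N : Set E, IsCompact N ∧ N ∈ 𝓝 x := by
  obtain ⟨e, hx, -⟩ := hD x
  obtain ⟨N, hN, hNs, hNc⟩ := LocallyCompactSpace.local_compact_nhds (e x) e.target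
    (e.open_target.mem_nhds (e.map_source hx))
  refine ⟨e.symm '' N, ?_, ?_⟩
  · exact hNc.image_of_continuousOn (e.continuousOn_symm.mono hNs)
  · refine mem_of_superset (inter_mem (e.open_source.mem_nhds hx)
      (e.continuousAt hx hN)) ?_
    rintro y ⟨hy1, hy2⟩
    exact ⟨e y, hy2, e.left_inv hy1⟩

/-- **Cocompactness.**

Proof. `E` is locally compact (locally homeomorphic to `V`). For every `m : M` choose `x` with
`p x = m` and a compact neighbourhood `N_x`; `p '' N_x` is a neighbourhood of `m` (`p` is an open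
map). Finitely many `p '' N_x` cover the compact `M`; `K` = union of these `N_x`. For `y : E`,
`p y ∈ p '' N_x` for one of them, `p y = p x'`, `x' ∈ N_x`, and `fibre` gives `γ • y = x' ∈ K`. -/
theorem DevPair.cocompact {M : Type u} [TopologicalSpace M] [CompactSpace M] [ChartedSpace X M] [LocallyCompactSpace X]
    (P : DevPair G M) :
    letI := P.top
    letI := P.act
    ∃ K : Set P.E, IsCompact K ∧ ∀ x : P.E, ∃ γ : P.Γ, γ • x ∈ K := by
  letI := P.top
  letI := P.act
  choose N hN hN2 using fun x : P.E => h3c_cpt_nhds P.hD x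
  choose s hs using P.surj
  obtain ⟨t, ht⟩ := CompactSpace.elim_nhds_subcover (fun m : M => P.p '' N (s m)) (fun m => by
    have := P.hp.isOpenMap.image_mem_nhds (hN2 (s m))
    rwa [hs m] at this)
  refine ⟨⋃ m ∈ t, N (s m), t.isCompact_biUnion fun m _ => hN (s m), fun y => ?_⟩
  have hy : P.p y ∈ ⋃ m ∈ t, P.p '' N (s m) := by rw [ht]; exact mem_univ _
  simp only [mem_iUnion] at hy
  obtain ⟨m, hm, x', hx', hp⟩ := hy
  obtain ⟨γ, hγ⟩ := (P.fibre y x').1 hp.symm
  refine ⟨γ, ?_⟩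
  simp only [mem_iUnion]
  exact ⟨m, hm, by rw [hγ]; exact hx'⟩

end HRK.GX
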