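import Pool.Agent.HRK.GX3
import Pool.Agent.HRK.GX3b

/-!
# HRK-GX5 : the quotient `Γ \ X` when the developing map is bijective
-/

namespace HRK.GX

open Set Filter Topology

set_option linter.unusedSectionVars false

universe u

variable {X : Type} [TopologicalSpace X] {G : Subgroup (Equiv.Perm X)}

theorem h5_main {M : Type u} [TopologicalSpace M] [ChartedSpace X M]
    {E : Type u} [TopologicalSpace E] (Γ : Subgroup (Equiv.Perm X))
    (hΓ : ∀ g ∈ Γ, g ∈ G) [MulAction Γ E] (p : E → M) (D : E → X)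
    (hp : IsLocalHomeomorph p) (hD : IsLocalHomeomorph D)
    (D_smul : ∀ (g : Γ) (x : E), D (g • x) = (g : Equiv.Perm X) (D x))
    (free : ∀ (g : Γ) (x : E), g • x = x → g = 1)
    (surj : Function.Surjective p)
    (fibre : ∀ x y : E, p x = p y ↔ ∃ g : Γ, g • x = y)
    (chart : ∀ x : E, ∀ e ∈ atlas X M, p x ∈ e.source →
      ∃ g : Equiv.Perm X, g ∈ G ∧ ∀ᶠ y in 𝓝 x, e (p y) = g (D y))
    (hb : Function.Bijective D)
    (pd : ∀ C : Set E, IsCompact C → {γ : Γ | ∃ x ∈ C, γ • x ∈ C}.Finite) :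
    ∃ (Γ : Subgroup (Equiv.Perm X)) (Φ : MulAction.orbitRel.Quotient Γ X ≃ₜ M),
      (∀ g ∈ Γ, g ∈ G) ∧
      (∀ g ∈ Γ, ∀ z : X, g z = z → g = 1) ∧
      (∀ C : Set X, IsCompact C → {g : Equiv.Perm X | g ∈ Γ ∧ ∃ z ∈ C, g z ∈ C}.Finite) ∧
      ∀ z : X, ∀ e ∈ atlas X M, Φ (Quotient.mk'' z) ∈ e.source →
        ∃ g : Equiv.Perm X, g ∈ G ∧ ∀ᶠ w in 𝓝 z, e (Φ (Quotient.mk'' w)) = g w := by
  obtain ⟨H, hH⟩ : ∃ H : E ≃ₜ X, ∀ x, H x = D x :=
    ⟨(hD.isOpenEmbedding_of_injective hb.1).toHomeomorphOfSurjective hb.2, fun _ => rfl⟩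
  have hDs : ∀ z, D (H.symm z) = z := fun z => by rw [← hH, H.apply_symm_apply]
  have hact : ∀ (g : Γ) (z : X), H.symm ((g : Equiv.Perm X) z) = g • H.symm z := by
    intro g z
    apply hb.1
    rw [hDs, D_smul, hDs]
  have hfc : Continuous fun z : X => p (H.symm z) := hp.continuous.comp H.symm.continuous
  have hfo : IsOpenMap fun z : X => p (H.symm z) := hp.isOpenMap.comp H.symm.isOpenMap
  have hrel : ∀ z w : X, (MulAction.orbitRel Γ X) z w → p (H.symm z) = p (H.symm w) := by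
    intro z w h
    rw [MulAction.orbitRel_apply] at h
    obtain ⟨g, hg⟩ := h
    have hg' : (g : Equiv.Perm X) w = z := hg
    rw [← hg', hact]
    exact ((fibre _ _).2 ⟨g, rfl⟩).symm
  let F : MulAction.orbitRel.Quotient Γ X → M := Quotient.lift (fun z : X => p (H.symm z)) hrel
  have hF : ∀ z : X, F (Quotient.mk'' z) = p (H.symm z) := fun z => rfl
  have hFc : Continuous F := hfc.quotient_lift hrel
  have hFi : Function.Injective F := by
    intro a b
    refine Quotient.inductionOn₂' a b fun z w h => ?_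
    obtain ⟨g, hg⟩ := (fibre _ _).1 (show p (H.symm z) = p (H.symm w) from h)
    apply Quotient.sound'
    rw [MulAction.orbitRel_apply]
    refine ⟨g⁻¹, ?_⟩
    change ((g⁻¹ : Γ) : Equiv.Perm X) w = z
    apply H.symm.injective
    rw [hact, ← hg, inv_smul_smul]
  have hFo : IsOpenMap F := by
    intro U hU
    have h1 : F '' U = (fun z : X => p (H.symm z)) '' (Quotient.mk'' ⁻¹' U) := by
      ext m
      constructor
      · rintro ⟨a, ha, rfl⟩
        revert ha
        refine Quotient.inductionOn' a fun z ha => ?_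
        exact ⟨z, ha, rfl⟩
      · rintro ⟨z, hz, rfl⟩
        exact ⟨Quotient.mk'' z, hz, rfl⟩
    rw [h1]
    exact hfo _ (hU.preimage continuous_quotient_mk')
  have hFs : Function.Surjective F := by
    intro m
    obtain ⟨x, rfl⟩ := surj m
    exact ⟨Quotient.mk'' (D x), by rw [hF, ← hH, H.symm_apply_apply]⟩
  obtain ⟨Φ, hΦ⟩ : ∃ Φ : MulAction.orbitRel.Quotient Γ X ≃ₜ M, ∀ a, Φ a = F a :=
    ⟨(IsOpenEmbedding.of_continuous_injective_isOpenMap hFc hFi hFo).toHomeomorphOfSurjective hFs,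
      fun _ => rfl⟩
  refine ⟨Γ, Φ, hΓ, ?_, ?_, ?_⟩
  · intro g hg z hz
    have h1 : (⟨g, hg⟩ : Γ) • H.symm z = H.symm z := by
      rw [← hact]
      exact congrArg H.symm hz
    exact congrArg Subtype.val (free _ _ h1)
  · intro C hC
    have h1 := pd (H.symm '' C) (hC.image H.symm.continuous)
    refine (h1.image Subtype.val).subset ?_
    rintro g ⟨hg, z, hz, hgz⟩
    refine ⟨⟨g, hg⟩, ⟨H.symm z, ⟨z, hz, rfl⟩, ?_⟩, rfl⟩
    rw [← hact]
    exact ⟨g z, hgz, rfl⟩
  · intro z e he hz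
    rw [hΦ, hF] at hz
    obtain ⟨g, hg, hev⟩ := chart (H.symm z) e he hz
    refine ⟨g, hg, ?_⟩
    have h1 : ∀ᶠ w in 𝓝 z, e (p (H.symm w)) = g (D (H.symm w)) :=
      H.symm.continuous.continuousAt.eventually hev
    filter_upwards [h1] with w hw
    rw [hΦ, hF, hw, hDs]

/-- **General completeness theorem.** If for every connected Hausdorff space `E`, group
`Γ ⊆ G` acting on `E` freely, properly discontinuously and cocompactly, and every equivariant local
homeomorphism `D : E → X`, the map `D` is bijective, then every compact connected Hausdorff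
`(G, X)`-manifold is a quotient `Γ \ X`. -/
theorem complete_of_bijective [LocallyConnectedSpace X] [LocallyCompactSpace X] (hG : Rig G)
    (hbij : ∀ (E : Type u) [TopologicalSpace E] [T2Space E] [ConnectedSpace E]
      (D : E → X) (_ : IsLocalHomeomorph D) (Γ : Subgroup (Equiv.Perm X)) (_ : ∀ g ∈ Γ, g ∈ G)
      [MulAction Γ E] (_ : ∀ γ : Γ, Continuous fun x : E => γ • x)
      (_ : ∀ (γ : Γ) (x : E), D (γ • x) = (γ : Equiv.Perm X) (D x))
      (_ : ∀ (γ : Γ) (x : E), γ • x = x → γ = 1)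
      (_ : ∀ C : Set E, IsCompact C → {γ : Γ | ∃ x ∈ C, γ • x ∈ C}.Finite) (K : Set E)
      (_ : IsCompact K) (_ : ∀ x : E, ∃ γ : Γ, γ • x ∈ K), Function.Bijective D)
    (M : Type u) [TopologicalSpace M] [T2Space M] [CompactSpace M]
    [ConnectedSpace M] [ChartedSpace X M] (hM : Atl G M) :
    ∃ (Γ : Subgroup (Equiv.Perm X)) (Φ : MulAction.orbitRel.Quotient Γ X ≃ₜ M),
      (∀ g ∈ Γ, g ∈ G) ∧
      (∀ g ∈ Γ, ∀ z : X, g z = z → g = 1) ∧
      (∀ C : Set X, IsCompact C → {g : Equiv.Perm X | g ∈ Γ ∧ ∃ z ∈ C, g z ∈ C}.Finite) ∧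
      ∀ z : X, ∀ e ∈ atlas X M, Φ (Quotient.mk'' z) ∈ e.source →
        ∃ g : Equiv.Perm X, g ∈ G ∧ ∀ᶠ w in 𝓝 z, e (Φ (Quotient.mk'' w)) = g w := by
  obtain ⟨P⟩ := exists_devPair M hG hM
  obtain ⟨K, hK, hcov⟩ := P.cocompact
  have hb : Function.Bijective P.D :=
    @hbij P.E P.top P.t2 P.conn P.D P.hD P.Γ P.hΓ P.act P.cont P.D_smul P.free P.pd K
      hK hcov
  exact @h5_main X _ G M _ _ P.E P.top P.Γ P.hΓ P.act P.p P.D P.hp P.hD P.D_smul P.free P.surj
    P.fibre P.chart hb P.pd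

end HRK.GX
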