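import Mathlib

/-!
# HRK-GXDefs : `(G, X)`-structures (germs of charts, developing pairs), general definitions
-/

namespace HRK.GX

open Set Filter Topology

universe u

variable {X : Type} [TopologicalSpace X]

/-- `G` is a group of homeomorphisms of `X` such that two elements which agree near a point are
equal. -/
structure Rig (G : Subgroup (Equiv.Perm X)) : Prop where
  cont : ∀ g ∈ G, Continuous g
  ext : ∀ g ∈ G, ∀ g' ∈ G, ∀ z₀ : X, (∀ᶠ z in 𝓝 z₀, g z = g' z) → g = g'

/-- `M` is a `(G, X)`-manifold. -/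
def Atl (G : Subgroup (Equiv.Perm X)) (M : Type u) [TopologicalSpace M] [ChartedSpace X M] : Prop :=
  ∀ e ∈ atlas X M, ∀ e' ∈ atlas X M, ∀ m ∈ e.source, m ∈ e'.source →
    ∃ g ∈ G, ∀ᶠ m' in 𝓝 m, e' m' = g (e m')

/-- The space `E` of germs of `(G, X)`-charts. -/
structure GermSpace (G : Subgroup (Equiv.Perm X)) (M : Type u) [TopologicalSpace M]
    [ChartedSpace X M] where
  E : Type u
  [top : TopologicalSpace E]
  [t2 : T2Space E]
  [act : MulAction G E]
  p : E → M
  D : E → X
  hp : IsLocalHomeomorph p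
  hD : IsLocalHomeomorph D
  cont : ∀ g : G, Continuous fun x : E => g • x
  p_smul : ∀ (g : G) (x : E), p (g • x) = p x
  D_smul : ∀ (g : G) (x : E), D (g • x) = (g : Equiv.Perm X) (D x)
  free : ∀ (g : G) (x : E), g • x = x → g = 1
  trans : ∀ x y : E, p x = p y → ∃ g : G, g • x = y
  /-- sections over the domains of the charts -/
  sec : ∀ e ∈ atlas X M, ∀ m ∈ e.source, ∃ s : M → E, ContinuousOn s e.source ∧
    (∀ m' ∈ e.source, p (s m') = m') ∧ ∀ m' ∈ e.source, D (s m') = e m'

/-- A developing pair of `M`. -/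
structure DevPair (G : Subgroup (Equiv.Perm X)) (M : Type u) [TopologicalSpace M]
    [ChartedSpace X M] where
  E : Type u
  [top : TopologicalSpace E]
  [t2 : T2Space E]
  [conn : ConnectedSpace E]
  Γ : Subgroup (Equiv.Perm X)
  hΓ : ∀ g ∈ Γ, g ∈ G
  [act : MulAction Γ E]
  p : E → M
  D : E → X
  hp : IsLocalHomeomorph p
  hD : IsLocalHomeomorph D
  cont : ∀ g : Γ, Continuous fun x : E => g • x
  D_smul : ∀ (g : Γ) (x : E), D (g • x) = (g : Equiv.Perm X) (D x)
  free : ∀ (g : Γ) (x : E), g • x = x → g = 1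
  surj : Function.Surjective p
  fibre : ∀ x y : E, p x = p y ↔ ∃ g : Γ, g • x = y
  /-- in the charts of `M`, `p` is an element of `G` composed with `D` -/
  chart : ∀ x : E, ∀ e ∈ atlas X M, p x ∈ e.source →
    ∃ g : Equiv.Perm X, g ∈ G ∧ ∀ᶠ y in 𝓝 x, e (p y) = g (D y)

end HRK.GX
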