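import Pool.Agent.HRK.B5
import Pool.Agent.HRK.Defs3

/-!
# HRK-H1 : the inner radius function `dlt D O`
-/

namespace HRK

open Set Filter Topology Matrix

variable {E : Type*} [TopologicalSpace E] [T2Space E] {D : E → SL}

theorem dlt_nonneg (D : E → SL) (O : Set E) (y : E) : 0 ≤ dlt D O y := by
  unfold dlt
  exact Real.sSup_nonneg fun r hr => hr.1

theorem dlt_le (D : E → SL) (O : Set E) (y : E) : dlt D O y ≤ 1 / 4 := by
  unfold dlt
  exact Real.sSup_le (fun r hr => hr.2.1) (by norm_num)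

/-- Proof. `nm X < dlt` gives an `r` in the defining set with `nm X < r`. -/
theorem mem_of_lt_dlt {O : Set E} {y : E} {X : M2} (h : nm X < dlt D O y) :
    X ∈ St D y ∧ mvp D y X ∈ O := by
  unfold dlt at h
  have hne : {r : ℝ | 0 ≤ r ∧ r ≤ 1 / 4 ∧ ∀ X : M2, nm X < r → X ∈ St D y ∧ mvp D y X ∈ O}.Nonempty := by
    refine ⟨0, le_refl _, by norm_num, ?_⟩
    intro Y hY
    exact absurd hY (not_lt.mpr (nm_nonneg Y))
  obtain ⟨r, hr, hlt⟩ := exists_lt_of_lt_csSup hne h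
  exact hr.2.2 X hlt

theorem le_dlt {O : Set E} {y : E} {r : ℝ} (h0 : 0 ≤ r) (h1 : r ≤ 1 / 4)
    (h : ∀ X : M2, nm X < r → X ∈ St D y ∧ mvp D y X ∈ O) : r ≤ dlt D O y := by
  unfold dlt
  exact le_csSup ⟨1 / 4, fun r hr => hr.2.1⟩ ⟨h0, h1, h⟩

/-- Proof. If `dlt > 0` then `X = 0` gives `y ∈ O`. -/
theorem dlt_eq_zero (hD : IsLocalHomeomorph (Dh D)) {O : Set E} {y : E} (hy : y ∉ O) :
    dlt D O y = 0 := by
  by_contra hne
  have hpos : 0 < dlt D O y := lt_of_le_of_ne (dlt_nonneg D O y) (Ne.symm hne)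
  have h := mem_of_lt_dlt (D := D) (O := O) (y := y) (X := 0) (by rw [nm_zero]; exact hpos)
  rw [mvp_zero hD] at h
  exact hy h.2

/-- Proof. The set `{(y,X) | X ∈ St D y ∧ mvp D y X ∈ O}` is open (`isOpen_StGraph`,
`continuousOn_mvp`, `ContinuousOn.isOpen_inter_preimage`) and contains `K × {0}`; by compactness it
contains `K × {nm X < r}` for some `r > 0` (cover `K` by finitely many neighbourhoods; `exists_nm_ball`,
`generalized_tube_lemma`). -/
theorem exists_dlt_pos (hD : IsLocalHomeomorph (Dh D)) {O : Set E} (hO : IsOpen O) {K : Set E}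
    (hK : IsCompact K) (hKO : K ⊆ O) : ∃ d > 0, ∀ y ∈ K, d ≤ dlt D O y := by
  have hopen : IsOpen ({q : E × M2 | q.2 ∈ St D q.1} ∩ (fun q : E × M2 => mvp D q.1 q.2) ⁻¹' O) :=
    (continuousOn_mvp hD).isOpen_inter_preimage (isOpen_StGraph hD) hO
  have hsub : K ×ˢ ({0} : Set M2) ⊆
      {q : E × M2 | q.2 ∈ St D q.1} ∩ (fun q : E × M2 => mvp D q.1 q.2) ⁻¹' O := by
    rintro ⟨y, X⟩ ⟨hy, hX⟩
    have hX0 : X = 0 := hX
    subst hX0
    refine ⟨zero_mem_St y, ?_⟩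
    show mvp D y 0 ∈ O
    rw [mvp_zero hD]
    exact hKO hy
  obtain ⟨U, V', hU, hV', hKU, h0V, hUV⟩ :=
    generalized_tube_lemma hK isCompact_singleton hopen hsub
  obtain ⟨r, hr, hball⟩ := exists_nm_ball (hV'.mem_nhds (h0V (mem_singleton 0)))
  refine ⟨min r (1 / 4), lt_min hr (by norm_num), ?_⟩
  intro y hy
  refine le_dlt (le_min hr.le (by norm_num)) (min_le_right _ _) ?_
  intro X hX
  have hXV : X ∈ V' := hball X (lt_of_lt_of_le hX (min_le_left _ _))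
  exact hUV (mk_mem_prod (hKU hy) hXV)

/-- Going back: if `g - 1 ∈ St D y` then `g⁻¹ - 1 ∈ St D (y.g)` and `y.g.g⁻¹ = y`.

Proof. `mvp_mvp` with `X = g - 1`, `Y = g⁻¹ - 1`: `(1+X)(1+Y) - 1 = 0`, the segment from `X` to `0`
is in `St D y` (`smul_mem_St`). -/
theorem ac_ac_inv (hD : IsLocalHomeomorph (Dh D)) {y : E} {g : SL} (h : (g : M2) - 1 ∈ St D y) :
    ((g⁻¹ : SL) : M2) - 1 ∈ St D (ac D y g) ∧ ac D (ac D y g) g⁻¹ = y := by
  have hprod : (1 + ((g : M2) - 1)) * (1 + (((g⁻¹ : SL) : M2) - 1)) - 1 = 0 := by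
    rw [add_sub_cancel, add_sub_cancel, coe_mul_inv, sub_self]
  have hseg : segment ℝ ((g : M2) - 1)
      ((1 + ((g : M2) - 1)) * (1 + (((g⁻¹ : SL) : M2) - 1)) - 1) ⊆ St D y := by
    rw [hprod]
    rintro Z ⟨a, b, ha, hb, hab, rfl⟩
    rw [smul_zero, add_zero]
    exact smul_mem_St hD h ⟨ha, by linarith⟩
  have h2 := mvp_mvp hD hseg
  rw [hprod, mvp_zero hD] at h2
  exact h2

/-- One sided estimate: `dlt (y.g) ≥ dlt y - 2 |g - 1|`.

Proof. Let `d = dlt D O y`, `ρ = |g-1|`. If `d ≤ 2ρ` use `dlt_nonneg`. Otherwise let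
`0 ≤ r' < d - 2ρ`, `|Y| < r'`: `(1+X)(1+Y) - 1 = X + Y + XY` with `X = g - 1` has norm
`≤ ρ + r' + ρ r' ≤ ρ + r' + ρ/4 < d`. The ball `{|.| < d}` is convex and contained in `St D y`,
so `mvp_mvp_convex` gives `Y ∈ St D (y.g)` and `mvp (y.g) Y = mvp y (X + Y + XY) ∈ O`. So
`r' ≤ dlt (y.g)` (`le_dlt`, `r' ≤ 1/4`). -/
theorem dlt_ac_ge (hD : IsLocalHomeomorph (Dh D)) {O : Set E} {y : E} {g : SL} :
    dlt D O y - 2 * nm ((g : M2) - 1) ≤ dlt D O (ac D y g) := by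
  by_cases hd : dlt D O y ≤ 2 * nm ((g : M2) - 1)
  · have := dlt_nonneg D O (ac D y g)
    linarith
  · have hd' : 2 * nm ((g : M2) - 1) < dlt D O y := not_le.mp hd
    have hρ := nm_nonneg ((g : M2) - 1)
    have hle := dlt_le D O y
    refine le_dlt (by linarith) (by linarith) ?_
    intro Y hY
    have hY0 := nm_nonneg Y
    have hconv : Convex ℝ {X : M2 | nm (X - 0) < dlt D O y} := convex_nm_ball 0 _
    have hsub : {X : M2 | nm (X - 0) < dlt D O y} ⊆ St D y := by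
      intro X hX
      have hX' : nm X < dlt D O y := by
        have : nm (X - 0) < dlt D O y := hX
        rwa [sub_zero] at this
      exact (mem_of_lt_dlt hX').1
    have hXm : nm (((g : M2) - 1) - 0) < dlt D O y := by
      rw [sub_zero]
      linarith
    have hYm' : nm ((1 + ((g : M2) - 1)) * (1 + Y) - 1) < dlt D O y := by
      have e : (1 + ((g : M2) - 1)) * (1 + Y) - 1 =
          (((g : M2) - 1) + Y) + ((g : M2) - 1) * Y := by
        noncomm_ring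
      rw [e]
      have h1 := nm_add_le (((g : M2) - 1) + Y) (((g : M2) - 1) * Y)
      have h2 := nm_add_le ((g : M2) - 1) Y
      have h3 := nm_mul_le ((g : M2) - 1) Y
      have h4 : nm ((g : M2) - 1) * nm Y ≤ nm ((g : M2) - 1) * (1 / 4) := by
        refine mul_le_mul_of_nonneg_left ?_ hρ
        linarith
      nlinarith
    have hYm : nm (((1 + ((g : M2) - 1)) * (1 + Y) - 1) - 0) < dlt D O y := by
      rw [sub_zero]
      exact hYm'
    have h2 := mvp_mvp_convex hD hconv hsub (X := (g : M2) - 1) (Y := Y) hXm hYm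
    refine ⟨h2.1, ?_⟩
    show mvp D (mvp D y ((g : M2) - 1)) Y ∈ O
    rw [h2.2]
    exact (mem_of_lt_dlt hYm').2

/-- Lipschitz. Proof. `dlt_ac_ge` for `(y,g)` and for `(y.g, g⁻¹)` (`ac_ac_inv`,
`nm_inv_sub_one`). -/
theorem abs_dlt_ac_sub_le (hD : IsLocalHomeomorph (Dh D)) {O : Set E} {y : E} {g : SL}
    (h : (g : M2) - 1 ∈ St D y) :
    |dlt D O (ac D y g) - dlt D O y| ≤ 2 * nm ((g : M2) - 1) := by
  have h1 := dlt_ac_ge hD (O := O) (y := y) (g := g)
  have h2 := dlt_ac_ge hD (O := O) (y := ac D y g) (g := g⁻¹)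
  rw [(ac_ac_inv hD h).2, nm_inv_sub_one] at h2
  rw [abs_le]
  constructor <;> linarith

end HRK
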