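import Pool.Agent.HRK.N2b

/-!
# HRK-N3 : Hermitian forms of determinant one and their frames
-/

namespace HRK

open Set Filter Topology Matrix

theorem n3_star_dot (A : M2) (v w : V) :
    star v ⬝ᵥ ((Aᴴ * A) *ᵥ w) = star (A *ᵥ v) ⬝ᵥ (A *ᵥ w) := by
  rw [Matrix.star_mulVec, ← Matrix.mulVec_mulVec, Matrix.dotProduct_mulVec]

theorem n3_star_dot_self (w : V) : (star w ⬝ᵥ w) = ((nsq w : ℝ) : ℂ) := by
  simp only [nsq, dotProduct, Fin.sum_univ_two, Pi.star_apply, Complex.ofReal_add,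
    Complex.normSq_eq_conj_mul_self]
  rfl

theorem Fr.hf_eq {J : M2} {k : SL} (h : Fr J k) (v : V) : hf J v = nsq ((k : M2) *ᵥ v) := by
  unfold Fr at h
  rw [hf, h, n3_star_dot, n3_star_dot_self, Complex.ofReal_re]

theorem Fr.isHermitian {J : M2} {k : SL} (h : Fr J k) : J.IsHermitian := by
  unfold Fr at h
  rw [h]
  exact Matrix.isHermitian_conjTranspose_mul_self _

theorem Fr.det_eq {J : M2} {k : SL} (h : Fr J k) : J.det = 1 := by
  unfold Fr at h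
  rw [h, Matrix.det_mul, Matrix.det_conjTranspose, k.2]
  simp

/-- `J₀₀ = |k e₁|^2 > 0`. -/
theorem Fr.pos {J : M2} {k : SL} (h : Fr J k) : 0 < (J 0 0).re ∧ (J 0 0).im = 0 := by
  unfold Fr at h
  have e : J 0 0 = ((Complex.normSq ((k : M2) 0 0) + Complex.normSq ((k : M2) 1 0) : ℝ) : ℂ) := by
    rw [h, Matrix.mul_apply, Fin.sum_univ_two, Matrix.conjTranspose_apply,
      Matrix.conjTranspose_apply, Complex.ofReal_add, Complex.normSq_eq_conj_mul_self,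
      Complex.normSq_eq_conj_mul_self]
    rfl
  refine ⟨?_, ?_⟩
  · rw [e, Complex.ofReal_re]
    have h0 := Complex.normSq_nonneg ((k : M2) 0 0)
    have h1 := Complex.normSq_nonneg ((k : M2) 1 0)
    by_contra hc
    have z0 : Complex.normSq ((k : M2) 0 0) = 0 := by linarith
    have z1 : Complex.normSq ((k : M2) 1 0) = 0 := by linarith
    rw [Complex.normSq_eq_zero] at z0 z1
    have hd := k.2
    rw [Matrix.det_fin_two] at hd
    change (k : M2) 0 0 * (k : M2) 1 1 - (k : M2) 0 1 * (k : M2) 1 0 = 1 at hd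
    rw [z0, z1] at hd
    simp at hd
  · rw [e, Complex.ofReal_im]

/-- Criterion. A Hermitian matrix with `det = 1` and `J₀₀ > 0` has a frame, namely
`fz ζ T`-type: `k = [[T^{-1/2}, -ζ T^{-1/2}], [0, T^{1/2}]]`, `T = 1/J₀₀`, `ζ = -J₀₁/J₀₀`. -/
theorem exists_Fr {J : M2} (h1 : J.IsHermitian) (h2 : J.det = 1) (h3 : 0 < (J 0 0).re) :
    ∃ k : SL, Fr J k := by
  have hH : ∀ i j, star (J j i) = J i j := fun i j => by
    have := congrFun (congrFun h1 i) j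
    rwa [Matrix.conjTranspose_apply] at this
  obtain ⟨r, hr⟩ : ∃ r : ℝ, J 0 0 = (r : ℂ) := by
    refine ⟨(J 0 0).re, ?_⟩
    have := hH 0 0
    exact (Complex.conj_eq_iff_re.1 this).symm
  have hr0 : 0 < r := by rw [hr, Complex.ofReal_re] at h3; exact h3
  set a : ℝ := Real.sqrt r with ha
  have ha0 : 0 < a := Real.sqrt_pos.2 hr0
  have haa : a * a = r := Real.mul_self_sqrt hr0.le
  have haC : (a : ℂ) ≠ 0 := by exact_mod_cast ha0.ne'
  have haaC : (a : ℂ) * (a : ℂ) = (r : ℂ) := by exact_mod_cast haa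
  have hrC : (r : ℂ) ≠ 0 := by exact_mod_cast hr0.ne'
  have hdet : (r : ℂ) * J 1 1 - J 0 1 * star (J 0 1) = 1 := by
    rw [Matrix.det_fin_two, hr] at h2
    rw [hH 1 0]
    exact h2
  refine ⟨⟨!![(a : ℂ), J 0 1 / (a : ℂ); 0, (a : ℂ)⁻¹], ?_⟩, ?_⟩
  · rw [Matrix.det_fin_two_of, mul_zero, sub_zero, mul_inv_cancel₀ haC]
  · unfold Fr
    change J = (!![(a : ℂ), J 0 1 / (a : ℂ); 0, (a : ℂ)⁻¹])ᴴ *
      !![(a : ℂ), J 0 1 / (a : ℂ); 0, (a : ℂ)⁻¹]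
    have ca : (starRingEnd ℂ) (a : ℂ) = (a : ℂ) := Complex.conj_ofReal a
    ext i j
    fin_cases i <;> fin_cases j
    · simp [Matrix.mul_apply, Fin.sum_univ_two, ca, hr, haaC]
    · simp [Matrix.mul_apply, Fin.sum_univ_two, ca]
      field_simp
    · simp only [Matrix.mul_apply, Fin.sum_univ_two]
      simp [ca]
      rw [← hH 1 0]
      field_simp
      rfl
    · simp only [Matrix.mul_apply, Fin.sum_univ_two]
      simp [ca]
      have hJ11 : J 1 1 = (1 + J 0 1 * star (J 0 1)) / (r : ℂ) := by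
        field_simp
        linear_combination hdet
      rw [hJ11, ← haaC]
      field_simp
      rw [add_comm]
      congr 1

/-- two frames of the same form differ by a unitary: `u = k' k⁻¹`, `u^* u = k^{-*} J k^{-1} = 1`. -/
theorem Fr.unitary {J : M2} {k k' : SL} (h : Fr J k) (h' : Fr J k') :
    IsU (k' * k⁻¹) := by
  unfold IsU
  unfold Fr at h h'
  rw [Matrix.SpecialLinearGroup.coe_mul, Matrix.conjTranspose_mul]
  calc ((k⁻¹ : SL) : M2)ᴴ * (k' : M2)ᴴ * ((k' : M2) * ((k⁻¹ : SL) : M2))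
      = ((k⁻¹ : SL) : M2)ᴴ * ((k' : M2)ᴴ * (k' : M2)) * ((k⁻¹ : SL) : M2) := by
        simp only [Matrix.mul_assoc]
    _ = ((k⁻¹ : SL) : M2)ᴴ * ((k : M2)ᴴ * (k : M2)) * ((k⁻¹ : SL) : M2) := by rw [← h', h]
    _ = ((k : M2) * ((k⁻¹ : SL) : M2))ᴴ * ((k : M2) * ((k⁻¹ : SL) : M2)) := by
        rw [Matrix.conjTranspose_mul]
        simp only [Matrix.mul_assoc]
    _ = 1 := by rw [coe_mul_inv]; simp

theorem Fr.unitary_mul {J : M2} {k u : SL} (h : Fr J k) (hu : IsU u) : Fr J (u * k) := by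
  unfold IsU at hu
  unfold Fr at h ⊢
  rw [Matrix.SpecialLinearGroup.coe_mul, Matrix.conjTranspose_mul, h]
  calc (k : M2)ᴴ * (k : M2) = (k : M2)ᴴ * 1 * (k : M2) := by rw [Matrix.mul_one]
    _ = (k : M2)ᴴ * ((u : M2)ᴴ * (u : M2)) * (k : M2) := by rw [hu]
    _ = _ := by simp only [Matrix.mul_assoc]

/-- the frame norm only depends on the form. Proof. `k' = u k` with `u` unitary, `nm_cj_unitary`. -/
theorem Fr.nm_cj {J : M2} {k k' : SL} (h : Fr J k) (h' : Fr J k') (X : M2) :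
    nm (cj k X) = nm (cj k' X) := by
  have e : cj k' X = cj (k' * k⁻¹) (cj k X) := by
    rw [cj_cj, inv_mul_cancel_right]
  rw [e, nm_cj_unitary (h.unitary h')]

theorem Fr.fcj_self {J : M2} {k : SL} (h : Fr J k) : fcj k J = 1 := by
  unfold Fr at h
  unfold fcj
  rw [h]
  calc ((k⁻¹ : SL) : M2)ᴴ * ((k : M2)ᴴ * (k : M2)) * ((k⁻¹ : SL) : M2)
      = ((k : M2) * ((k⁻¹ : SL) : M2))ᴴ * ((k : M2) * ((k⁻¹ : SL) : M2)) := by
        rw [Matrix.conjTranspose_mul]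
        simp only [Matrix.mul_assoc]
    _ = 1 := by rw [coe_mul_inv]; simp

theorem Fr.conj {J : M2} {k : SL} (h : Fr J k) (k0 : SL) : Fr (fcj k0 J) (k * k0⁻¹) := by
  unfold Fr at h ⊢
  unfold fcj
  rw [h, Matrix.SpecialLinearGroup.coe_mul, Matrix.conjTranspose_mul]
  simp only [Matrix.mul_assoc]

theorem n3_fcj_fcj (k k' : SL) (J : M2) : fcj k (fcj k' J) = fcj (k * k') J := by
  unfold fcj
  rw [_root_.mul_inv_rev, Matrix.SpecialLinearGroup.coe_mul, Matrix.conjTranspose_mul]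
  simp only [Matrix.mul_assoc]

theorem n3_fcj_one (J : M2) : fcj 1 J = J := by
  unfold fcj
  simp

theorem Fr.of_conj {J : M2} {k k0 : SL} (h : Fr (fcj k0 J) k) : Fr J (k * k0) := by
  have h2 := Fr.conj h k0⁻¹
  rwa [n3_fcj_fcj, inv_mul_cancel, n3_fcj_one, inv_inv] at h2

theorem fcj_fcj (k k' : SL) (J : M2) : fcj k (fcj k' J) = fcj (k * k') J :=
  n3_fcj_fcj k k' J

/-- the sesquilinear form of `J`, seen in the frame `k`. -/
theorem n3_sesq (k : SL) (J : M2) (v w : V) :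
    star ((k : M2) *ᵥ v) ⬝ᵥ (fcj k J *ᵥ ((k : M2) *ᵥ w)) = star v ⬝ᵥ (J *ᵥ w) := by
  unfold fcj
  rw [Matrix.star_mulVec, Matrix.mulVec_mulVec, ← Matrix.dotProduct_mulVec, Matrix.mulVec_mulVec]
  congr 2
  calc (k : M2)ᴴ * (((k⁻¹ : SL) : M2)ᴴ * J * ((k⁻¹ : SL) : M2) * (k : M2))
      = (((k⁻¹ : SL) : M2) * (k : M2))ᴴ * J * (((k⁻¹ : SL) : M2) * (k : M2)) := by
        rw [Matrix.conjTranspose_mul]
        simp only [Matrix.mul_assoc]
    _ = J := by rw [coe_inv_mul]; simp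

theorem hf_fcj (k : SL) (J : M2) (v : V) : hf (fcj k J) ((k : M2) *ᵥ v) = hf J v := by
  unfold hf
  rw [n3_sesq]

theorem hf_nonneg {J : M2} {k : SL} (h : Fr J k) (v : V) : 0 ≤ hf J v := by
  rw [h.hf_eq]
  exact nsq_nonneg _

theorem n3_mulVec_ne {k : SL} {v : V} (hv : v ≠ 0) : (k : M2) *ᵥ v ≠ 0 := by
  intro h0
  apply hv
  have e : ((k⁻¹ : SL) : M2) *ᵥ ((k : M2) *ᵥ v) = v := by
    rw [Matrix.mulVec_mulVec, coe_inv_mul, Matrix.one_mulVec]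
  rw [← e, h0, Matrix.mulVec_zero]

theorem n3_nsq_pos {v : V} (hv : v ≠ 0) : 0 < nsq v := by
  rcases (nsq_nonneg v).lt_or_eq with h | h
  · exact h
  · exfalso
    apply hv
    rw [← vn_eq_zero, vn, ← h, Real.sqrt_zero]

theorem hf_pos {J : M2} {k : SL} (h : Fr J k) {v : V} (hv : v ≠ 0) : 0 < hf J v := by
  rw [h.hf_eq]
  exact n3_nsq_pos (n3_mulVec_ne hv)

theorem hf_smul (J : M2) (c : ℂ) (v : V) : hf J (c • v) = ‖c‖ ^ 2 * hf J v := by
  unfold hf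
  rw [star_smul, smul_dotProduct, Matrix.mulVec_smul, dotProduct_smul, smul_smul, smul_eq_mul]
  have e : star c * c = ((‖c‖ ^ 2 : ℝ) : ℂ) := by
    rw [← Complex.normSq_eq_norm_sq, Complex.normSq_eq_conj_mul_self]
    rfl
  rw [e, Complex.re_ofReal_mul]

theorem continuous_hf : Continuous fun p : M2 × V => hf p.1 p.2 := by
  have e : (fun p : M2 × V => hf p.1 p.2) = fun p : M2 × V =>
      (star (p.2 0) * (p.1 0 0 * p.2 0 + p.1 0 1 * p.2 1) +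
        star (p.2 1) * (p.1 1 0 * p.2 0 + p.1 1 1 * p.2 1)).re := by
    funext p
    simp only [hf, dotProduct, Matrix.mulVec, Fin.sum_univ_two, Pi.star_apply]
  rw [e]
  have h0 : Continuous fun p : M2 × V => p.2 0 := (continuous_apply 0).comp continuous_snd
  have h1 : Continuous fun p : M2 × V => p.2 1 := (continuous_apply 1).comp continuous_snd
  have hm : ∀ i j : Fin 2, Continuous fun p : M2 × V => p.1 i j := fun i j =>
    (continuous_apply j).comp ((continuous_apply i).comp continuous_fst)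
  have hs0 : Continuous fun p : M2 × V => star (p.2 0) := h0.star
  have hs1 : Continuous fun p : M2 × V => star (p.2 1) := h1.star
  exact Complex.continuous_re.comp
    ((hs0.mul (((hm 0 0).mul h0).add ((hm 0 1).mul h1))).add
      (hs1.mul (((hm 1 0).mul h0).add ((hm 1 1).mul h1))))

/-- `|n(ψ)|_J = h(ψ)`. Proof. `cj k (nn ψ) = nn (k ψ)`, `nm_nn`, `Fr.hf_eq`. -/
theorem Fr.nm_cj_nn {J : M2} {k : SL} (h : Fr J k) (ψ : V) : nm (cj k (nn ψ)) = hf J ψ := by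
  rw [cj_nn, nm_nn, h.hf_eq]

/-- `|ω(v,w)|^2 ≤ h(v) h(w)`. Proof. `ω(v,w) = ω(kv,kw)` and `norm_om_le`. -/
theorem Fr.norm_om_sq_le {J : M2} {k : SL} (h : Fr J k) (v w : V) :
    ‖om v w‖ ^ 2 ≤ hf J v * hf J w := by
  have e := norm_om_le ((k : M2) *ᵥ v) ((k : M2) *ᵥ w)
  rw [om_mulVec] at e
  rw [h.hf_eq, h.hf_eq, ← vn_sq, ← vn_sq, ← mul_pow]
  exact pow_le_pow_left₀ (norm_nonneg _) e 2

/-- triangle inequality for `√h`. -/
theorem Fr.sqrt_hf_add_le {J : M2} {k : SL} (h : Fr J k) (v w : V) :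
    Real.sqrt (hf J (v + w)) ≤ Real.sqrt (hf J v) + Real.sqrt (hf J w) := by
  rw [h.hf_eq, h.hf_eq, h.hf_eq, Matrix.mulVec_add]
  exact vn_add_le _ _

/-! ### the coordinates `ζ`, `T` -/

theorem Fr.Tc_pos {J : M2} {k : SL} (h : Fr J k) : 0 < Tc J := by
  unfold Tc
  exact one_div_pos.2 h.pos.1

theorem Fr.hf_e1 {J : M2} {k : SL} (h : Fr J k) : hf J e1 = 1 / Tc J := by
  simp [hf, e1, Tc, dotProduct, Matrix.mulVec, Fin.sum_univ_two]

theorem n3_entries {J : M2} {k : SL} (h : Fr J k) :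
    J 0 0 = ((1 / Tc J : ℝ) : ℂ) ∧ J 0 1 = -(Zc J) / (Tc J : ℂ) ∧
      J 1 0 = -(star (Zc J)) / (Tc J : ℂ) ∧
      J 1 1 = (((‖Zc J‖ ^ 2 + Tc J ^ 2) / Tc J : ℝ) : ℂ) := by
  have hT := h.Tc_pos
  have hp := h.pos
  have hH : ∀ i j, star (J j i) = J i j := fun i j => by
    have := congrFun (congrFun h.isHermitian i) j
    rwa [Matrix.conjTranspose_apply] at this
  have hd := h.det_eq
  rw [Matrix.det_fin_two] at hd
  have e00 : J 0 0 = ((1 / Tc J : ℝ) : ℂ) := by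
    unfold Tc
    rw [one_div_one_div]
    exact (Complex.conj_eq_iff_re.1 (hH 0 0)).symm
  have hTC : (Tc J : ℂ) ≠ 0 := by exact_mod_cast hT.ne'
  have e01 : J 0 1 = -(Zc J) / (Tc J : ℂ) := by
    unfold Zc
    rw [e00]
    push_cast
    field_simp
  have e10 : J 1 0 = -(star (Zc J)) / (Tc J : ℂ) := by
    rw [← hH 1 0, e01]
    simp only [Complex.star_def, map_div₀, map_neg, Complex.conj_ofReal]
  refine ⟨e00, e01, e10, ?_⟩
  have hn : ((‖Zc J‖ ^ 2 : ℝ) : ℂ) = star (Zc J) * Zc J := by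
    rw [← Complex.normSq_eq_norm_sq, Complex.normSq_eq_conj_mul_self]
    rfl
  have h11 : J 1 1 = (Tc J : ℂ) * (1 + J 0 1 * J 1 0) := by
    rw [e00] at hd
    have : (Tc J : ℂ) * (1 + J 0 1 * J 1 0) = (Tc J : ℂ) * (((1 / Tc J : ℝ) : ℂ) * J 1 1) := by
      rw [← hd]; ring
    rw [this]
    push_cast
    field_simp
  rw [h11, e01, e10, Complex.ofReal_div, Complex.ofReal_add, hn]
  push_cast
  field_simp
  ring

/-- `h(v) = (|v₀ - ζ v₁|^2 + T^2 |v₁|^2)/T`.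

Proof. `J = (1/T) [[1, -ζ], [-conj ζ, |ζ|^2 + T^2]]`: `J₀₀ = 1/T`, `J₀₁ = -ζ/T`,
`J₁₀ = conj J₀₁`, and `J₁₁` from `det J = 1`. -/
theorem Fr.hf_coord {J : M2} {k : SL} (h : Fr J k) (v : V) :
    hf J v = (‖v 0 - Zc J * v 1‖ ^ 2 + Tc J ^ 2 * ‖v 1‖ ^ 2) / Tc J := by
  obtain ⟨e00, e01, e10, e11⟩ := n3_entries h
  have hT := h.Tc_pos
  unfold hf
  simp only [dotProduct, Matrix.mulVec, Fin.sum_univ_two, Pi.star_apply]
  rw [e00, e01, e10, e11]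
  have hv : ∀ z : ℂ, ‖z‖ ^ 2 = Complex.normSq z := fun z => (Complex.normSq_eq_norm_sq z).symm
  rw [hv, hv, hv]
  have key : star (v 0) * (((1 / Tc J : ℝ) : ℂ) * v 0 + -(Zc J) / (Tc J : ℂ) * v 1) +
      star (v 1) * (-(star (Zc J)) / (Tc J : ℂ) * v 0 +
        (((Complex.normSq (Zc J) + Tc J ^ 2) / Tc J : ℝ) : ℂ) * v 1) =
      (((Complex.normSq (v 0 - Zc J * v 1) + Tc J ^ 2 * Complex.normSq (v 1)) / Tc J : ℝ) : ℂ) := by
    have hTC : (Tc J : ℂ) ≠ 0 := by exact_mod_cast hT.ne'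
    push_cast
    rw [Complex.normSq_eq_conj_mul_self, Complex.normSq_eq_conj_mul_self,
      Complex.normSq_eq_conj_mul_self, map_sub, map_mul]
    simp only [Complex.star_def]
    field_simp
    ring
  rw [key, Complex.ofReal_re]

/-- entries of `J`. -/
theorem Fr.entries {J : M2} {k : SL} (h : Fr J k) :
    J 0 0 = ((1 / Tc J : ℝ) : ℂ) ∧ J 0 1 = -(Zc J) / (Tc J : ℂ) ∧
      J 1 0 = -(star (Zc J)) / (Tc J : ℂ) ∧
      J 1 1 = (((‖Zc J‖ ^ 2 + Tc J ^ 2) / Tc J : ℝ) : ℂ) := n3_entries h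

/-- the triangular frame `k = diag(T^{-1/2}, T^{1/2}) [[1,-ζ],[0,1]]` (see `fz` in the interface). -/
theorem n3_tri_coe (z : ℂ) {t : ℝ} (ht : 0 < t) : ∃ a : ℝ, 0 < a ∧ a * a = 1 / t ∧
    ((dg (-Real.log t) * uni (-z) e1 : SL) : M2) = !![(a : ℂ), -(a : ℂ) * z; 0, (a : ℂ)⁻¹] := by
  refine ⟨Real.exp (-Real.log t / 2), Real.exp_pos _, ?_, ?_⟩
  · rw [← Real.exp_add]
    rw [show -Real.log t / 2 + -Real.log t / 2 = -Real.log t by ring, Real.exp_neg,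
      Real.exp_log ht, one_div]
  · rw [Matrix.SpecialLinearGroup.coe_mul, uni_coe, nn_e1]
    have hneg : (Real.exp (-(-Real.log t / 2)) : ℂ) = ((Real.exp (-Real.log t / 2) : ℝ) : ℂ)⁻¹ := by
      rw [Real.exp_neg, Complex.ofReal_inv]
    have hd : ((dg (-Real.log t) : SL) : M2) = !![(Real.exp (-Real.log t / 2) : ℂ), 0;
        0, (Real.exp (-(-Real.log t / 2)) : ℂ)] := rfl
    rw [hd, hneg]
    ext i j
    fin_cases i <;> fin_cases j <;>
      simp [Matrix.mul_apply, Fin.sum_univ_two, Matrix.add_apply]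

theorem Fr.tri {J : M2} {k : SL} (h : Fr J k) :
    Fr J (dg (-Real.log (Tc J)) * uni (-(Zc J)) e1) := by
  obtain ⟨a, ha, haa, e⟩ := n3_tri_coe (Zc J) h.Tc_pos
  obtain ⟨e00, e01, e10, e11⟩ := n3_entries h
  have hT := h.Tc_pos
  have hTC : (Tc J : ℂ) ≠ 0 := by exact_mod_cast hT.ne'
  have haC : (a : ℂ) ≠ 0 := by exact_mod_cast ha.ne'
  have haaC : (a : ℂ) * (a : ℂ) = 1 / (Tc J : ℂ) := by exact_mod_cast haa
  have hn : ((‖Zc J‖ ^ 2 : ℝ) : ℂ) = star (Zc J) * Zc J := by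
    rw [← Complex.normSq_eq_norm_sq, Complex.normSq_eq_conj_mul_self]
    rfl
  unfold Fr
  rw [e]
  have ca : (starRingEnd ℂ) (a : ℂ) = (a : ℂ) := Complex.conj_ofReal a
  ext i j
  fin_cases i <;> fin_cases j
  · simp only [Matrix.mul_apply, Fin.sum_univ_two]
    simp [ca, e00, haaC]
  · simp only [Matrix.mul_apply, Fin.sum_univ_two]
    simp [ca, e01]
    rw [← mul_assoc, haaC]
    field_simp
  · simp only [Matrix.mul_apply, Fin.sum_univ_two]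
    simp [ca, e10]
    rw [mul_right_comm, haaC]
    field_simp
  · simp only [Matrix.mul_apply, Fin.sum_univ_two]
    simp only [Matrix.conjTranspose_apply]
    simp only [Fin.mk_one, Fin.isValue, Matrix.of_apply, Matrix.cons_val', Matrix.cons_val_one,
      Matrix.cons_val_zero, Matrix.cons_val_fin_one, Complex.star_def, map_mul, map_neg, ca,
      map_inv₀, e11]
    rw [Complex.ofReal_div, Complex.ofReal_add, hn]
    have h2 : ((a : ℂ))⁻¹ * ((a : ℂ))⁻¹ = (Tc J : ℂ) := by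
      rw [← mul_inv, haaC, one_div, inv_inv]
    rw [h2, show -(a : ℂ) * (starRingEnd ℂ) (Zc J) * (-(a : ℂ) * Zc J) =
      ((a : ℂ) * (a : ℂ)) * ((starRingEnd ℂ) (Zc J) * Zc J) by ring, haaC]
    push_cast
    simp only [Complex.star_def]
    field_simp

/-- the frame norm in coordinates. For `k` the triangular frame,
`k X k⁻¹ = [[X₀₀ - ζ X₁₀, (X₀₁ + ζ (X₀₀ - X₁₁) - ζ² X₁₀)/T], [T X₁₀, X₁₁ + ζ X₁₀]]`. -/
theorem Fr.nm_cj_coord {J : M2} {k : SL} (h : Fr J k) (X : M2) :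
    nm (cj k X) = nm !![X 0 0 - Zc J * X 1 0,
      (X 0 1 + Zc J * (X 0 0 - X 1 1) - Zc J ^ 2 * X 1 0) / (Tc J : ℂ);
      (Tc J : ℂ) * X 1 0, X 1 1 + Zc J * X 1 0] := by
  rw [h.nm_cj h.tri]
  obtain ⟨a, ha, haa, e⟩ := n3_tri_coe (Zc J) h.Tc_pos
  have hT := h.Tc_pos
  have hTC : (Tc J : ℂ) ≠ 0 := by exact_mod_cast hT.ne'
  have haC : (a : ℂ) ≠ 0 := by exact_mod_cast ha.ne'
  have haaC : (a : ℂ) * (a : ℂ) = 1 / (Tc J : ℂ) := by exact_mod_cast haa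
  have h2 : ((a : ℂ))⁻¹ * ((a : ℂ))⁻¹ = (Tc J : ℂ) := by
    rw [← mul_inv, haaC, one_div, inv_inv]
  congr 1
  unfold cj
  rw [coe_inv_eq, e]
  ext i j
  fin_cases i <;> fin_cases j
  · simp only [Matrix.mul_apply, Fin.sum_univ_two]
    simp
    field_simp
    ring
  · simp only [Matrix.mul_apply, Fin.sum_univ_two]
    simp
    linear_combination (X 0 1 + Zc J * (X 0 0 - X 1 1) - Zc J ^ 2 * X 1 0) * haaC
  · simp only [Matrix.mul_apply, Fin.sum_univ_two]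
    simp
    linear_combination (X 1 0) * h2
  · simp only [Matrix.mul_apply, Fin.sum_univ_two]
    simp
    field_simp
    ring

/-- coordinates of the form of a triangular frame. -/
theorem coord_tri (z : ℂ) {t : ℝ} (ht : 0 < t) {J : M2}
    (h : Fr J (dg (-Real.log t) * uni (-z) e1)) : Zc J = z ∧ Tc J = t := by
  obtain ⟨a, ha, haa, e⟩ := n3_tri_coe z ht
  have haC : (a : ℂ) ≠ 0 := by exact_mod_cast ha.ne'
  have ca : (starRingEnd ℂ) (a : ℂ) = (a : ℂ) := Complex.conj_ofReal a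
  unfold Fr at h
  rw [e] at h
  have h00 : J 0 0 = ((1 / t : ℝ) : ℂ) := by
    rw [h, ← haa]
    simp [Matrix.mul_apply, Fin.sum_univ_two]
  have h01 : J 0 1 = -(((1 / t : ℝ) : ℂ) * z) := by
    rw [h, ← haa]
    simp [Matrix.mul_apply, Fin.sum_univ_two]
    ring
  have htC : (t : ℂ) ≠ 0 := by exact_mod_cast ht.ne'
  refine ⟨?_, ?_⟩
  · unfold Zc
    rw [h00, h01]
    push_cast
    field_simp
  · unfold Tc
    rw [h00, Complex.ofReal_re, one_div_one_div]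

theorem n3_norm_dot_le (x w : V) : ‖star x ⬝ᵥ w‖ ≤ vn x * vn w := by
  have h1 := norm_om_le (![-star (x 1), star (x 0)]) w
  have e1 : om (![-star (x 1), star (x 0)]) w = -(star x ⬝ᵥ w) := by
    simp only [om, dotProduct, Fin.sum_univ_two, Pi.star_apply, Matrix.cons_val_zero,
      Matrix.cons_val_one]
    ring
  have e2 : vn (![-star (x 1), star (x 0)]) = vn x := by
    unfold vn
    rw [nsq_eq, nsq_eq]
    congr 1
    simp only [Matrix.cons_val_zero, Matrix.cons_val_one, Complex.normSq_neg, Complex.star_def,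
      Complex.normSq_conj]
    ring
  rwa [e1, e2, norm_neg] at h1

theorem n3_norm_form_le (A : M2) (x w : V) : ‖star x ⬝ᵥ (A *ᵥ w)‖ ≤ nm A * (vn x * vn w) := by
  calc ‖star x ⬝ᵥ (A *ᵥ w)‖ ≤ vn x * vn (A *ᵥ w) := n3_norm_dot_le _ _
    _ ≤ vn x * (nm A * vn w) := mul_le_mul_of_nonneg_left (vn_mulVec_le _ _) (vn_nonneg _)
    _ = _ := by ring

/-- Comparison. Let `J, J'` be forms, `k` a frame of `J` and `|fcj k J' - 1| ≤ δ ≤ 1/2`. Then
`(1-δ) h ≤ h' ≤ (1+δ) h`, `T ≤ (1+δ) T'`, `T' ≤ 2 T`, `|T' - T| ≤ 2 δ T`,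
`|ζ' - ζ| ≤ 2 δ T`.

Proof. Put `A = fcj k J' - 1`, `|A| ≤ δ`. `h'(v) = (kv)^* (1+A) (kv)`, so
`|h'(v) - h(v)| ≤ |A| |kv|^2 ≤ δ h(v)`. With `v = e₁`: `|1/T' - 1/T| ≤ δ/T`; so
`T/T' ∈ [1-δ, 1+δ]`, `T' ≤ 2T` and `|T - T'| = T T' |1/T' - 1/T| ≤ δ T' ≤ 2 δ T`. For `ζ`: let
`w = ζ e₁ + e₂`, `h(w) = T`, `h(e₁, w) = 0` (sesquilinear form `e₁^* J w = J₀₀ ζ + J₀₁ = 0`), and
`e₁^* J' w = (ζ - ζ')/T'`; also `e₁^* J' w = (k e₁)^* (1+A)(k w)`, so
`|ζ - ζ'|/T' ≤ |A| |k e₁| |k w| ≤ δ T^{-1/2} T^{1/2} = δ`. -/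
theorem coord_compare {J J' : M2} {k k' : SL} (h : Fr J k) (h' : Fr J' k') {δ : ℝ} (hδ : δ ≤ 1 / 2)
    (hA : nm (fcj k J' - 1) ≤ δ) :
    (∀ v, (1 - δ) * hf J v ≤ hf J' v ∧ hf J' v ≤ (1 + δ) * hf J v) ∧
      Tc J' ≤ 2 * Tc J ∧ Tc J ≤ (1 + δ) * Tc J' ∧ |Tc J' - Tc J| ≤ 2 * δ * Tc J ∧
      ‖Zc J' - Zc J‖ ≤ 2 * δ * Tc J := by
  have hδ0 : 0 ≤ δ := le_trans (nm_nonneg _) hA
  set A : M2 := fcj k J' - 1 with hAdef
  have hfA : fcj k J' = 1 + A := by rw [hAdef]; abel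
  have hses : ∀ v w : V, star v ⬝ᵥ (J' *ᵥ w) = star v ⬝ᵥ (J *ᵥ w) +
      star ((k : M2) *ᵥ v) ⬝ᵥ (A *ᵥ ((k : M2) *ᵥ w)) := by
    intro v w
    rw [← n3_sesq k J', hfA, Matrix.add_mulVec, Matrix.one_mulVec, dotProduct_add]
    congr 1
    have hJ : J = (k : M2)ᴴ * (k : M2) := h
    rw [hJ, n3_star_dot]
  have hsq : ∀ v : V, vn ((k : M2) *ᵥ v) * vn ((k : M2) *ᵥ v) = hf J v := fun v => by
    rw [h.hf_eq, ← vn_sq, sq]
  have hdiff : ∀ v : V, |hf J' v - hf J v| ≤ δ * hf J v := by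
    intro v
    have e : hf J' v - hf J v = (star ((k : M2) *ᵥ v) ⬝ᵥ (A *ᵥ ((k : M2) *ᵥ v))).re := by
      unfold hf
      rw [hses v v, Complex.add_re]
      ring
    rw [e]
    calc |(star ((k : M2) *ᵥ v) ⬝ᵥ (A *ᵥ ((k : M2) *ᵥ v))).re|
        ≤ ‖star ((k : M2) *ᵥ v) ⬝ᵥ (A *ᵥ ((k : M2) *ᵥ v))‖ := Complex.abs_re_le_norm _
      _ ≤ nm A * (vn ((k : M2) *ᵥ v) * vn ((k : M2) *ᵥ v)) := n3_norm_form_le _ _ _
      _ ≤ δ * hf J v := by
        rw [hsq]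
        exact mul_le_mul_of_nonneg_right hA (hf_nonneg h v)
  have hT := h.Tc_pos
  have hT' := h'.Tc_pos
  have hAB : ∀ v, (1 - δ) * hf J v ≤ hf J' v ∧ hf J' v ≤ (1 + δ) * hf J v := by
    intro v
    have := abs_le.1 (hdiff v)
    constructor <;> nlinarith [this.1, this.2]
  have he1 := hAB e1
  rw [h.hf_e1, h'.hf_e1] at he1
  have hlo : (1 - δ) * Tc J' ≤ Tc J := by
    have := he1.1
    rw [mul_one_div, div_le_div_iff₀ hT hT'] at this
    linarith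
  have hup : Tc J ≤ (1 + δ) * Tc J' := by
    have := he1.2
    rw [mul_one_div, div_le_div_iff₀ hT' hT] at this
    linarith
  have h2T : Tc J' ≤ 2 * Tc J := by nlinarith
  refine ⟨hAB, h2T, hup, ?_, ?_⟩
  · rw [abs_le]
    constructor <;> nlinarith
  · obtain ⟨e00, e01, -, -⟩ := n3_entries h
    obtain ⟨f00, f01, -, -⟩ := n3_entries h'
    have hTC : (Tc J : ℂ) ≠ 0 := by exact_mod_cast hT.ne'
    have hTC' : (Tc J' : ℂ) ≠ 0 := by exact_mod_cast hT'.ne'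
    set w : V := ![Zc J, 1] with hw
    have hval : ∀ M : M2, star e1 ⬝ᵥ (M *ᵥ w) = M 0 0 * Zc J + M 0 1 := by
      intro M
      simp [hw, e1, dotProduct, Matrix.mulVec, Fin.sum_univ_two]
    have h1 := hses e1 w
    rw [hval, hval, e00, e01, f00, f01] at h1
    have h2 : (Zc J - Zc J') / (Tc J' : ℂ) =
        star ((k : M2) *ᵥ e1) ⬝ᵥ (A *ᵥ ((k : M2) *ᵥ w)) := by
      have h3 : ((1 / Tc J : ℝ) : ℂ) * Zc J + -(Zc J) / (Tc J : ℂ) = 0 := by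
        push_cast
        field_simp
        ring
      rw [h3, zero_add] at h1
      rw [← h1]
      push_cast
      field_simp
      ring
    have h4 := n3_norm_form_le A ((k : M2) *ᵥ e1) ((k : M2) *ᵥ w)
    rw [← h2, norm_div, Complex.norm_real, Real.norm_of_nonneg hT'.le] at h4
    have h5 : vn ((k : M2) *ᵥ e1) * vn ((k : M2) *ᵥ w) = 1 := by
      unfold vn
      rw [← h.hf_eq, ← h.hf_eq, ← Real.sqrt_mul (hf_nonneg h _), h.hf_e1, h.hf_coord w]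
      have : 1 / Tc J * ((‖w 0 - Zc J * w 1‖ ^ 2 + Tc J ^ 2 * ‖w 1‖ ^ 2) / Tc J) = 1 := by
        simp [hw]
        field_simp
      rw [this, Real.sqrt_one]
    rw [h5, mul_one, div_le_iff₀ hT'] at h4
    rw [norm_sub_rev]
    calc ‖Zc J - Zc J'‖ ≤ nm A * Tc J' := h4
      _ ≤ δ * (2 * Tc J) := mul_le_mul hA h2T hT'.le hδ0
      _ = _ := by ring

theorem n3_p_bound {p : SL} (hA : nm ((p : M2)ᴴ * (p : M2) - 1) ≤ 1 / 4) (v : V) :
    3 / 4 * nsq v ≤ nsq ((p : M2) *ᵥ v) ∧ nsq ((p : M2) *ᵥ v) ≤ 5 / 4 * nsq v := by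
  set A : M2 := (p : M2)ᴴ * (p : M2) - 1 with hAdef
  have hfA : (p : M2)ᴴ * (p : M2) = 1 + A := by rw [hAdef]; abel
  have e : ((nsq ((p : M2) *ᵥ v) : ℝ) : ℂ) = ((nsq v : ℝ) : ℂ) + star v ⬝ᵥ (A *ᵥ v) := by
    rw [← n3_star_dot_self, ← n3_star_dot, hfA, Matrix.add_mulVec, Matrix.one_mulVec,
      dotProduct_add, n3_star_dot_self]
  have e2 : nsq ((p : M2) *ᵥ v) - nsq v = (star v ⬝ᵥ (A *ᵥ v)).re := by
    have := congrArg Complex.re e
    rw [Complex.add_re, Complex.ofReal_re, Complex.ofReal_re] at this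
    linarith
  have e3 : |nsq ((p : M2) *ᵥ v) - nsq v| ≤ 1 / 4 * nsq v := by
    rw [e2]
    calc |(star v ⬝ᵥ (A *ᵥ v)).re| ≤ ‖star v ⬝ᵥ (A *ᵥ v)‖ := Complex.abs_re_le_norm _
      _ ≤ nm A * (vn v * vn v) := n3_norm_form_le _ _ _
      _ ≤ 1 / 4 * nsq v := by
        rw [← sq, vn_sq]
        exact mul_le_mul_of_nonneg_right hA (nsq_nonneg v)
  have := abs_le.1 e3
  constructor <;> linarith [this.1, this.2]

theorem n3_fro_mul_left (p : SL) (Y : M2) : fro ((p : M2) * Y) =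
    nsq ((p : M2) *ᵥ ![Y 0 0, Y 1 0]) + nsq ((p : M2) *ᵥ ![Y 0 1, Y 1 1]) := by
  rw [fro_eq, nsq_eq, nsq_eq]
  simp only [Matrix.mul_apply, Fin.sum_univ_two, Matrix.mulVec, dotProduct, Matrix.cons_val_zero,
    Matrix.cons_val_one]
  ring

theorem n3_fro_cols (Y : M2) : fro Y = nsq ![Y 0 0, Y 1 0] + nsq ![Y 0 1, Y 1 1] := by
  rw [fro_eq, nsq_eq, nsq_eq]
  simp only [Matrix.cons_val_zero, Matrix.cons_val_one]
  ring

theorem n3_fro_rows (Y : M2) : fro Y = nsq ![-Y 0 1, Y 0 0] + nsq ![-Y 1 1, Y 1 0] := by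
  rw [fro_eq, nsq_eq, nsq_eq]
  simp only [Matrix.cons_val_zero, Matrix.cons_val_one, Complex.normSq_neg]
  ring

theorem n3_fro_mul_right (p : SL) (Y : M2) : fro (Y * ((p⁻¹ : SL) : M2)) =
    nsq ((p : M2) *ᵥ ![-Y 0 1, Y 0 0]) + nsq ((p : M2) *ᵥ ![-Y 1 1, Y 1 0]) := by
  rw [fro_eq, nsq_eq, nsq_eq, coe_inv_eq]
  simp only [Matrix.mul_apply, Fin.sum_univ_two, Matrix.mulVec, dotProduct, Matrix.cons_val_zero,
    Matrix.cons_val_one, Matrix.of_apply, Matrix.cons_val', Matrix.cons_val_fin_one]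
  rw [show Y 0 0 * (p : M2) 1 1 + Y 0 1 * -(p : M2) 1 0 =
      (p : M2) 1 0 * -Y 0 1 + (p : M2) 1 1 * Y 0 0 by ring,
    show Y 0 0 * -(p : M2) 0 1 + Y 0 1 * (p : M2) 0 0 =
      -((p : M2) 0 0 * -Y 0 1 + (p : M2) 0 1 * Y 0 0) by ring,
    show Y 1 0 * (p : M2) 1 1 + Y 1 1 * -(p : M2) 1 0 =
      (p : M2) 1 0 * -Y 1 1 + (p : M2) 1 1 * Y 1 0 by ring,
    show Y 1 0 * -(p : M2) 0 1 + Y 1 1 * (p : M2) 0 0 =
      -((p : M2) 0 0 * -Y 1 1 + (p : M2) 0 1 * Y 1 0) by ring,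
    Complex.normSq_neg, Complex.normSq_neg]
  ring

/-- comparison of the frame norms. If `|fcj k J' - 1| ≤ 1/4` and `k'` is a frame of `J'` then
`|X|_{J'} ≤ 2 |X|_J` and `|X|_J ≤ 2 |X|_{J'}`.

Proof. Let `p = k' k⁻¹`, `p^* p = fcj k J' = 1 + A`, `|A| ≤ 1/4`. For every vector
`|p v|^2 ∈ [3/4, 5/4] |v|^2` and hence `|p⁻¹ v|^2 ≤ (4/3) |v|^2`. So for a matrix `Y`,
`|p Y p⁻¹|^2 ≤ (5/4)(4/3)|Y|^2 ≤ 4 |Y|^2` (apply the vector bound to the columns of `Y` and, for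
the right multiplication, to the rows: `|Y p⁻¹|^2 = |p^{-*} Y^*|^2` and the operator norm of
`p^{-*}` equals that of `p⁻¹`). -/
theorem frame_compare {J' : M2} {k k' : SL} (h' : Fr J' k')
    (hA : nm (fcj k J' - 1) ≤ 1 / 4) (X : M2) :
    nm (cj k' X) ≤ 2 * nm (cj k X) ∧ nm (cj k X) ≤ 2 * nm (cj k' X) := by
  set p : SL := k' * k⁻¹ with hp
  have hJ' : J' = (k' : M2)ᴴ * (k' : M2) := h'
  have hf : fcj k J' = (p : M2)ᴴ * (p : M2) := by
    have := h'.conj k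
    unfold Fr at this
    rw [this]
  rw [hf] at hA
  have e : cj k' X = cj p (cj k X) := by
    rw [cj_cj, hp, inv_mul_cancel_right]
  set Y : M2 := cj k X with hY
  have h1 := n3_p_bound hA ![Y 0 0, Y 1 0]
  have h2 := n3_p_bound hA ![Y 0 1, Y 1 1]
  have e1 := n3_fro_mul_left p Y
  have e2 := n3_fro_cols Y
  set Z : M2 := (p : M2) * Y with hZ
  have h3 := n3_p_bound hA ![-Z 0 1, Z 0 0]
  have h4 := n3_p_bound hA ![-Z 1 1, Z 1 0]
  have e3 := n3_fro_mul_right p Z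
  have e4 := n3_fro_rows Z
  have e5 : cj p Y = Z * ((p⁻¹ : SL) : M2) := rfl
  rw [e, e5]
  have hY0 := fro_nonneg Y
  have hZ0 := fro_nonneg Z
  have a1 : fro (Z * ((p⁻¹ : SL) : M2)) ≤ 2 ^ 2 * fro Y := by
    rw [e3]; nlinarith [h1.1, h1.2, h2.1, h2.2, h3.1, h3.2, h4.1, h4.2]
  have a2 : fro Y ≤ 2 ^ 2 * fro (Z * ((p⁻¹ : SL) : M2)) := by
    rw [e3]; nlinarith [h1.1, h1.2, h2.1, h2.2, h3.1, h3.2, h4.1, h4.2]
  have s2 : (2 : ℝ) = Real.sqrt (2 ^ 2) := by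
    rw [Real.sqrt_sq (by norm_num)]
  constructor
  · unfold nm
    calc Real.sqrt (fro (Z * ((p⁻¹ : SL) : M2))) ≤ Real.sqrt (2 ^ 2 * fro Y) :=
          Real.sqrt_le_sqrt a1
      _ = 2 * Real.sqrt (fro Y) := by
          rw [Real.sqrt_mul (by norm_num), Real.sqrt_sq (by norm_num)]
  · unfold nm
    calc Real.sqrt (fro Y) ≤ Real.sqrt (2 ^ 2 * fro (Z * ((p⁻¹ : SL) : M2))) :=
          Real.sqrt_le_sqrt a2
      _ = 2 * Real.sqrt (fro (Z * ((p⁻¹ : SL) : M2))) := by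
          rw [Real.sqrt_mul (by norm_num), Real.sqrt_sq (by norm_num)]

end HRK
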