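import Pool.Agent.HRK.H1
import Pool.Agent.HRK.B1
import Pool.Agent.HRK.B6
import Pool.Agent.HRK.N3

/-!
# HRK-H2 : the averaged form `Hs`
-/

namespace HRK

open Set Filter Topology Matrix

variable {E : Type*} [TopologicalSpace E] [T2Space E] {Γ : Type*} [Group Γ] [MulAction Γ E]

/-- `B_{γ⁻¹} = ± B_γ⁻¹` and `B_1 = ± 1`. Only the following consequence is needed: the matrix
`X^* X` for `X = B_{γ}⁻¹` satisfies the cocycle rule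
`(B_{ξγ}⁻¹)^* B_{ξγ}⁻¹ = (B_ξ⁻¹)^* (B_γ⁻¹)^* B_γ⁻¹ B_ξ⁻¹`.

Proof. `S.B_mul`: `B_{ξγ} = ± B_ξ B_γ` as matrices, so the inverse matrices are equal up to the same
sign; the sign disappears in `X^* X`. (`coe` of `SL` inverse: `coe_inv_eq`.) -/
theorem B_gram (S : Dev Γ E) (ξ γ : Γ) :
    (((S.B (ξ * γ))⁻¹ : SL) : M2)ᴴ * (((S.B (ξ * γ))⁻¹ : SL) : M2) =
      (((S.B ξ)⁻¹ : SL) : M2)ᴴ * ((((S.B γ)⁻¹ : SL) : M2)ᴴ * (((S.B γ)⁻¹ : SL) : M2)) *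
        (((S.B ξ)⁻¹ : SL) : M2) := by
  have hprod : ((((S.B γ)⁻¹ * (S.B ξ)⁻¹ : SL)) : M2) =
      (((S.B γ)⁻¹ : SL) : M2) * (((S.B ξ)⁻¹ : SL) : M2) := by
    simp
  have key : (((S.B (ξ * γ))⁻¹ : SL) : M2) =
        (((S.B γ)⁻¹ : SL) : M2) * (((S.B ξ)⁻¹ : SL) : M2) ∨
      (((S.B (ξ * γ))⁻¹ : SL) : M2) =
        -((((S.B γ)⁻¹ : SL) : M2) * (((S.B ξ)⁻¹ : SL) : M2)) := by
    rcases S.B_mul ξ γ with h | h
    · left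
      have h1 : (((S.B γ)⁻¹ : SL) : M2) * (((S.B ξ)⁻¹ : SL) : M2) * ((S.B (ξ * γ) : SL) : M2) = 1 := by
        rw [h]
        calc (((S.B γ)⁻¹ : SL) : M2) * (((S.B ξ)⁻¹ : SL) : M2) * ((S.B ξ : M2) * (S.B γ : M2))
            = (((S.B γ)⁻¹ : SL) : M2) * ((((S.B ξ)⁻¹ : SL) : M2) * (S.B ξ : M2)) * (S.B γ : M2) := by
              simp only [Matrix.mul_assoc]
          _ = 1 := by rw [coe_inv_mul, Matrix.mul_one, coe_inv_mul]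
      calc (((S.B (ξ * γ))⁻¹ : SL) : M2) = 1 * (((S.B (ξ * γ))⁻¹ : SL) : M2) := (Matrix.one_mul _).symm
        _ = (((S.B γ)⁻¹ : SL) : M2) * (((S.B ξ)⁻¹ : SL) : M2) * ((S.B (ξ * γ) : SL) : M2) *
            (((S.B (ξ * γ))⁻¹ : SL) : M2) := by rw [h1]
        _ = (((S.B γ)⁻¹ : SL) : M2) * (((S.B ξ)⁻¹ : SL) : M2) := by
            rw [Matrix.mul_assoc, coe_mul_inv, Matrix.mul_one]
    · right
      have h1 : (((S.B γ)⁻¹ : SL) : M2) * (((S.B ξ)⁻¹ : SL) : M2) * ((S.B (ξ * γ) : SL) : M2) = -1 := by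
        rw [h, Matrix.mul_neg]
        congr 1
        calc (((S.B γ)⁻¹ : SL) : M2) * (((S.B ξ)⁻¹ : SL) : M2) * ((S.B ξ : M2) * (S.B γ : M2))
            = (((S.B γ)⁻¹ : SL) : M2) * ((((S.B ξ)⁻¹ : SL) : M2) * (S.B ξ : M2)) * (S.B γ : M2) := by
              simp only [Matrix.mul_assoc]
          _ = 1 := by rw [coe_inv_mul, Matrix.mul_one, coe_inv_mul]
      have h2 : -(((S.B (ξ * γ))⁻¹ : SL) : M2) =
          (((S.B γ)⁻¹ : SL) : M2) * (((S.B ξ)⁻¹ : SL) : M2) := by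
        calc -(((S.B (ξ * γ))⁻¹ : SL) : M2) = (-1 : M2) * (((S.B (ξ * γ))⁻¹ : SL) : M2) := by
              rw [Matrix.neg_mul, Matrix.one_mul]
          _ = (((S.B γ)⁻¹ : SL) : M2) * (((S.B ξ)⁻¹ : SL) : M2) * ((S.B (ξ * γ) : SL) : M2) *
              (((S.B (ξ * γ))⁻¹ : SL) : M2) := by rw [h1]
          _ = (((S.B γ)⁻¹ : SL) : M2) * (((S.B ξ)⁻¹ : SL) : M2) := by
              rw [Matrix.mul_assoc, coe_mul_inv, Matrix.mul_one]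
      rw [← h2, neg_neg]
  rcases key with h | h
  · rw [h, Matrix.conjTranspose_mul]
    simp only [Matrix.mul_assoc]
  · rw [h, Matrix.conjTranspose_neg, Matrix.neg_mul, Matrix.mul_neg, neg_neg,
      Matrix.conjTranspose_mul]
    simp only [Matrix.mul_assoc]

theorem B_one_gram (S : Dev Γ E) : (((S.B 1)⁻¹ : SL) : M2)ᴴ * (((S.B 1)⁻¹ : SL) : M2) = 1 := by
  have h := B_gram S 1 1
  rw [mul_one] at h
  set X : M2 := (((S.B 1)⁻¹ : SL) : M2) with hX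
  have hXB : X * (S.B 1 : M2) = 1 := coe_inv_mul _
  have hdet : X.det = 1 := ((S.B 1)⁻¹ : SL).2
  -- `X^* X = X^* (X^* X) X`
  have h1 : X * (S.B 1 : M2) = 1 := hXB
  have h2 : (S.B 1 : M2)ᴴ * Xᴴ = 1 := by
    rw [← Matrix.conjTranspose_mul, hXB, Matrix.conjTranspose_one]
  calc Xᴴ * X = ((S.B 1 : M2)ᴴ * Xᴴ) * (Xᴴ * X) * (X * (S.B 1 : M2)) := by
        rw [h1, h2, Matrix.one_mul, Matrix.mul_one]
    _ = (S.B 1 : M2)ᴴ * (Xᴴ * (Xᴴ * X) * X) * (S.B 1 : M2) := by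
        simp only [Matrix.mul_assoc]
    _ = (S.B 1 : M2)ᴴ * (Xᴴ * X) * (S.B 1 : M2) := by rw [← h]
    _ = ((S.B 1 : M2)ᴴ * Xᴴ) * (X * (S.B 1 : M2)) := by simp only [Matrix.mul_assoc]
    _ = 1 := by rw [h1, h2, Matrix.one_mul]

/-- `(B_1)` is `±1`; `(B_η⁻¹)^* B_η⁻¹ = (B_{η⁻¹})^* B_{η⁻¹}`. -/
theorem B_gram_inv (S : Dev Γ E) (η : Γ) :
    (((S.B η)⁻¹ : SL) : M2)ᴴ * (((S.B η)⁻¹ : SL) : M2) =
      ((S.B η⁻¹ : SL) : M2)ᴴ * ((S.B η⁻¹ : SL) : M2) := by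
  have h := B_gram S η⁻¹ η
  rw [inv_mul_cancel, B_one_gram] at h
  set X : M2 := (((S.B η⁻¹)⁻¹ : SL) : M2) with hX
  set Y : M2 := (((S.B η)⁻¹ : SL) : M2) with hY
  have h1 : X * (S.B η⁻¹ : M2) = 1 := coe_inv_mul _
  have h2 : (S.B η⁻¹ : M2)ᴴ * Xᴴ = 1 := by
    rw [← Matrix.conjTranspose_mul, h1, Matrix.conjTranspose_one]
  calc Yᴴ * Y = ((S.B η⁻¹ : M2)ᴴ * Xᴴ) * (Yᴴ * Y) * (X * (S.B η⁻¹ : M2)) := by
        rw [h1, h2, Matrix.one_mul, Matrix.mul_one]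
    _ = (S.B η⁻¹ : M2)ᴴ * (Xᴴ * (Yᴴ * Y) * X) * (S.B η⁻¹ : M2) := by
        simp only [Matrix.mul_assoc]
    _ = (S.B η⁻¹ : M2)ᴴ * (S.B η⁻¹ : M2) := by rw [← h, Matrix.mul_one]

/-- The set of `γ` with `γ⁻¹ y ∈ C`, `C` compact, is finite.

Proof. If it is not empty choose `γ₀` in it, `x = γ₀⁻¹ y ∈ C`; `γ⁻¹ y = (γ⁻¹ γ₀) x`, so
`γ⁻¹ γ₀ ∈ {η | ∃ x ∈ C, η x ∈ C}` finite (`S.pd`), and `γ ↦ γ⁻¹ γ₀` is injective. -/
theorem finite_inv_mem (S : Dev Γ E) {C : Set E} (hC : IsCompact C) (y : E) :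
    {γ : Γ | γ⁻¹ • y ∈ C}.Finite := by
  rcases Set.eq_empty_or_nonempty {γ : Γ | γ⁻¹ • y ∈ C} with h0 | ⟨γ₀, hγ₀⟩
  · rw [h0]; exact Set.finite_empty
  · refine Set.Finite.of_finite_image ((S.pd C hC).subset ?_)
      (f := fun γ : Γ => γ⁻¹ * γ₀) ?_
    · rintro _ ⟨γ, hγ, rfl⟩
      refine ⟨γ₀⁻¹ • y, hγ₀, ?_⟩
      show (γ⁻¹ * γ₀) • (γ₀⁻¹ • y) ∈ C
      rw [mul_smul, smul_inv_smul]
      exact hγ
    · intro a _ b _ hab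
      have : a⁻¹ = b⁻¹ := mul_right_cancel hab
      exact inv_injective this

/-- the sum defining `Hs` has finite support when `O` is contained in a compact set. Proof.
`finite_inv_mem`, `dlt_eq_zero`. -/
theorem Hs_support (S : Dev Γ E) {O C : Set E} (hC : IsCompact C) (hOC : O ⊆ C) (y : E) :
    (Function.support fun γ : Γ => ((dlt S.D O (γ⁻¹ • y) : ℝ) : ℂ) •
      ((((S.B γ)⁻¹ : SL) : M2)ᴴ * (((S.B γ)⁻¹ : SL) : M2))).Finite := by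
  refine (finite_inv_mem S hC y).subset ?_
  intro γ hγ
  by_contra hc
  apply hγ
  have h1 : γ⁻¹ • y ∉ O := fun h => hc (hOC h)
  show ((dlt S.D O (γ⁻¹ • y) : ℝ) : ℂ) • _ = 0
  rw [dlt_eq_zero (isLocalHomeomorph_Dh S.hD) h1]
  simp

/-- Equivariance. Proof. Reindex the `finsum` by `γ = ξ γ'` (`finsum_comp_equiv (Equiv.mulLeft ξ)` or
`finsum_comp`), `(ξγ')⁻¹ ξ y = γ'⁻¹ y`, `B_gram`, and pull the constant matrices out of the finite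
sum (`Hs_support`; e.g. `AddMonoidHom.map_finsum` for the additive map
`M ↦ (B_ξ⁻¹)^* M B_ξ⁻¹`). -/
theorem Hs_equiv (S : Dev Γ E) {O C : Set E} (hC : IsCompact C) (hOC : O ⊆ C) (ξ : Γ) (y : E) :
    Hs S O (ξ • y) = fcj (S.B ξ) (Hs S O y) := by
  unfold Hs
  rw [← finsum_comp_equiv (Equiv.mulLeft ξ)]
  let φ : M2 →+ M2 :=
    { toFun := fun M => (((S.B ξ)⁻¹ : SL) : M2)ᴴ * M * (((S.B ξ)⁻¹ : SL) : M2)
      map_zero' := by simp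
      map_add' := fun a b => by rw [Matrix.mul_add, Matrix.add_mul] }
  have hφ : ∀ M, fcj (S.B ξ) M = φ M := fun M => rfl
  rw [hφ, AddMonoidHom.map_finsum φ (Hs_support S hC hOC y)]
  apply finsum_congr
  intro γ
  show ((dlt S.D O ((ξ * γ)⁻¹ • ξ • y) : ℝ) : ℂ) •
      ((((S.B (ξ * γ))⁻¹ : SL) : M2)ᴴ * (((S.B (ξ * γ))⁻¹ : SL) : M2)) =
    (((S.B ξ)⁻¹ : SL) : M2)ᴴ * (((dlt S.D O (γ⁻¹ • y) : ℝ) : ℂ) •
      ((((S.B γ)⁻¹ : SL) : M2)ᴴ * (((S.B γ)⁻¹ : SL) : M2))) * (((S.B ξ)⁻¹ : SL) : M2)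
  rw [_root_.mul_inv_rev, mul_smul, inv_smul_smul, B_gram, Matrix.mul_smul, Matrix.smul_mul]

/-- Finite expression valid near a compact set. Let `F = {η | ∃ x ∈ C, η x ∈ C}` (finite), as a
`Finset`. For all `x ∈ C`:
`Hs x = ∑_{η ∈ F} dlt (η x) • (B_η)^* B_η`.

Proof. In the `finsum` put `γ = η⁻¹`; the terms with `dlt (γ⁻¹ x) ≠ 0` have `γ⁻¹ x ∈ O ⊆ C`, so
`η = γ⁻¹ ∈ F`; `B_gram_inv`. `finsum_eq_sum_of_support_subset` after `finsum_comp_equiv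
(Equiv.inv Γ)`. -/
theorem Hs_eq_sum (S : Dev Γ E) {O C : Set E} (hC : IsCompact C) (hOC : O ⊆ C) {x : E}
    (hx : x ∈ C) : Hs S O x = ∑ η ∈ (S.pd C hC).toFinset, ((dlt S.D O (η • x) : ℝ) : ℂ) •
      (((S.B η : SL) : M2)ᴴ * ((S.B η : SL) : M2)) := by
  unfold Hs
  rw [← finsum_comp_equiv (Equiv.inv Γ)]
  have h1 : (fun η : Γ => ((dlt S.D O (((Equiv.inv Γ) η)⁻¹ • x) : ℝ) : ℂ) •
      ((((S.B ((Equiv.inv Γ) η))⁻¹ : SL) : M2)ᴴ * (((S.B ((Equiv.inv Γ) η))⁻¹ : SL) : M2))) =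
      fun η : Γ => ((dlt S.D O (η • x) : ℝ) : ℂ) •
        (((S.B η : SL) : M2)ᴴ * ((S.B η : SL) : M2)) := by
    funext η
    rw [Equiv.inv_apply, inv_inv, B_gram_inv S η⁻¹, inv_inv]
  rw [h1]
  apply finsum_eq_sum_of_support_subset
  intro η hη
  rw [Set.Finite.coe_toFinset]
  refine ⟨x, hx, ?_⟩
  by_contra hc
  apply hη
  have h2 : η • x ∉ O := fun h => hc (hOC h)
  show ((dlt S.D O (η • x) : ℝ) : ℂ) • _ = 0
  rw [dlt_eq_zero (isLocalHomeomorph_Dh S.hD) h2]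
  simp

end HRK
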