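import Pool.Agent.HRK.N3
import Pool.Agent.HRK.Defs3

/-!
# HRK-H3 : normalisation of positive Hermitian matrices (pure matrices)
-/

namespace HRK

open Set Filter Topology Matrix

/-- `H` is Hermitian, `a |v|² ≤ v^* H v` and `|H| ≤ b`. -/
structure PosH (H : M2) (a b : ℝ) : Prop where
  herm : H.IsHermitian
  lower : ∀ v : V, a * nsq v ≤ hf H v
  upper : nm H ≤ b

theorem H3_herm {H : M2} (h : H.IsHermitian) : (H 0 0).im = 0 ∧ (H 1 1).im = 0 ∧
    H 1 0 = star (H 0 1) := by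
  refine ⟨?_, ?_, ?_⟩
  · have h1 := h.apply 0 0
    have h2 := congrArg Complex.im h1
    simp only [Complex.star_def, Complex.conj_im] at h2
    linarith
  · have h1 := h.apply 1 1
    have h2 := congrArg Complex.im h1
    simp only [Complex.star_def, Complex.conj_im] at h2
    linarith
  · exact (h.apply 1 0).symm

theorem H3_hf (H : M2) (v : V) : hf H v = (star (v 0) * (H 0 0 * v 0 + H 0 1 * v 1) +
    star (v 1) * (H 1 0 * v 0 + H 1 1 * v 1)).re := by
  simp [hf, Matrix.mulVec, dotProduct, Fin.sum_univ_two]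

theorem H3_a_le {H : M2} {a b : ℝ} (h : PosH H a b) : a ≤ (H 0 0).re := by
  have h1 := h.lower e1
  rw [H3_hf, nsq_eq] at h1
  simpa [e1] using h1

theorem H3_det {H : M2} {a b : ℝ} (ha : 0 < a) (h : PosH H a b) :
    a ^ 2 ≤ H.det.re ∧ H.det.im = 0 ∧ H.det.re ≤ b ^ 2 := by
  obtain ⟨i0, i1, h10⟩ := H3_herm h.herm
  have h0 := H3_a_le h
  have hd : H.det = H 0 0 * H 1 1 - H 0 1 * star (H 0 1) := by
    rw [Matrix.det_fin_two, h10]
  have him : H.det.im = 0 := by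
    rw [hd]
    simp only [Complex.star_def, Complex.sub_im, Complex.mul_im, Complex.conj_re, Complex.conj_im,
      i0, i1]
    ring
  have hre : H.det.re = (H 0 0).re * (H 1 1).re - Complex.normSq (H 0 1) := by
    rw [hd]
    simp only [Complex.star_def, Complex.sub_re, Complex.mul_re, Complex.conj_re, Complex.conj_im,
      i0, i1, Complex.normSq_apply]
    ring
  refine ⟨?_, him, ?_⟩
  · have h1 := h.lower ![-(H 0 1), H 0 0]
    rw [H3_hf, nsq_eq] at h1
    simp only [Matrix.cons_val_zero, Matrix.cons_val_one] at h1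
    have e1 : H 0 0 * -(H 0 1) + H 0 1 * H 0 0 = 0 := by ring
    have e2 : H 1 0 * -(H 0 1) + H 1 1 * H 0 0 = H.det := by
      rw [Matrix.det_fin_two]; ring
    rw [e1, e2, mul_zero, zero_add] at h1
    simp only [Complex.star_def, Complex.mul_re, Complex.conj_re, Complex.conj_im, i0, him,
      Complex.normSq_apply] at h1
    have hp : 0 < (H 0 0).re := lt_of_lt_of_le ha h0
    have h2 : a * ((H 0 0).re * (H 0 0).re) ≤ (H 0 0).re * H.det.re := by
      have h3 : 0 ≤ a * ((H 0 1).re * (H 0 1).re + (H 0 1).im * (H 0 1).im) := by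
        have := mul_self_nonneg (H 0 1).re
        have := mul_self_nonneg (H 0 1).im
        positivity
      nlinarith
    have h4 : a * (H 0 0).re ≤ H.det.re := by
      have : (H 0 0).re * (a * (H 0 0).re) ≤ (H 0 0).re * H.det.re := by linarith
      exact le_of_mul_le_mul_left this hp
    nlinarith
  · have h1 := norm_det_le H
    have h2 := Complex.re_le_norm H.det
    have h3 : fro H ≤ b ^ 2 := by
      rw [← nm_sq]
      exact pow_le_pow_left₀ (nm_nonneg _) h.upper 2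
    have h4 := fro_nonneg H
    linarith

theorem H3_sqrt {H : M2} {a b : ℝ} (ha : 0 < a) (h : PosH H a b) : a ≤ Real.sqrt H.det.re :=
  Real.le_sqrt_of_sq_le (H3_det ha h).1

theorem H3_Fr {H : M2} {a b : ℝ} (ha : 0 < a) (h : PosH H a b) :
    ∃ k : SL, Fr (nrmH H) k := by
  obtain ⟨h1, h2, h3⟩ := H3_det ha h
  have hs := H3_sqrt ha h
  have hsp : 0 < Real.sqrt H.det.re := lt_of_lt_of_le ha hs
  have hD : 0 ≤ H.det.re := le_trans (sq_nonneg a) h1
  apply HRK.exists_Fr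
  · unfold nrmH
    rw [Matrix.IsHermitian, Matrix.conjTranspose_smul, h.herm.eq]
    simp
  · unfold nrmH
    rw [Matrix.det_smul, Fintype.card_fin]
    have h4 : H.det = ((H.det.re : ℝ) : ℂ) := by
      apply Complex.ext
      · simp
      · simp [h2]
    conv_lhs => rw [h4]
    simp only [Complex.ofReal_re]
    rw [← Complex.ofReal_pow, ← Complex.ofReal_mul, div_pow, one_pow, Real.sq_sqrt hD,
      one_div_mul_cancel (by nlinarith [sq_pos_of_pos ha]), Complex.ofReal_one]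
  · unfold nrmH
    rw [Matrix.smul_apply, smul_eq_mul, Complex.re_ofReal_mul]
    have := H3_a_le h
    have : 0 < (H 0 0).re := lt_of_lt_of_le ha this
    positivity

theorem H3_nm_le {H : M2} {a b : ℝ} (ha : 0 < a) (h : PosH H a b) : nm (nrmH H) ≤ b / a := by
  have hs := H3_sqrt ha h
  have hsp : 0 < Real.sqrt H.det.re := lt_of_lt_of_le ha hs
  unfold nrmH
  rw [nm_smul, Complex.norm_real, Real.norm_eq_abs, abs_of_pos (by positivity)]
  have hb : 0 ≤ b := le_trans (nm_nonneg H) h.upper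
  calc 1 / Real.sqrt H.det.re * nm H ≤ 1 / a * b :=
        mul_le_mul (one_div_le_one_div_of_le ha hs) h.upper (nm_nonneg _) (by positivity)
    _ = b / a := by ring

theorem H3_det_sub {H H' : M2} {b : ℝ} (h : nm H ≤ b) (h' : nm H' ≤ b) :
    ‖H'.det - H.det‖ ≤ 4 * b * nm (H' - H) := by
  have hb : 0 ≤ b := le_trans (nm_nonneg H) h
  have e : ∀ i j, ‖H' i j - H i j‖ ≤ nm (H' - H) := fun i j => norm_entry_le (H' - H) i j
  have f : ∀ i j, ‖H i j‖ ≤ b := fun i j => (norm_entry_le H i j).trans h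
  have f' : ∀ i j, ‖H' i j‖ ≤ b := fun i j => (norm_entry_le H' i j).trans h'
  have hn := nm_nonneg (H' - H)
  have key : H'.det - H.det = (H' 0 0 - H 0 0) * H' 1 1 + H 0 0 * (H' 1 1 - H 1 1) -
      ((H' 0 1 - H 0 1) * H' 1 0 + H 0 1 * (H' 1 0 - H 1 0)) := by
    rw [Matrix.det_fin_two, Matrix.det_fin_two]; ring
  rw [key]
  have g1 : ‖(H' 0 0 - H 0 0) * H' 1 1‖ ≤ nm (H' - H) * b := by
    rw [norm_mul]; exact mul_le_mul (e 0 0) (f' 1 1) (norm_nonneg _) hn
  have g2 : ‖H 0 0 * (H' 1 1 - H 1 1)‖ ≤ b * nm (H' - H) := by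
    rw [norm_mul]; exact mul_le_mul (f 0 0) (e 1 1) (norm_nonneg _) hb
  have g3 : ‖(H' 0 1 - H 0 1) * H' 1 0‖ ≤ nm (H' - H) * b := by
    rw [norm_mul]; exact mul_le_mul (e 0 1) (f' 1 0) (norm_nonneg _) hn
  have g4 : ‖H 0 1 * (H' 1 0 - H 1 0)‖ ≤ b * nm (H' - H) := by
    rw [norm_mul]; exact mul_le_mul (f 0 1) (e 1 0) (norm_nonneg _) hb
  have t1 := norm_sub_le ((H' 0 0 - H 0 0) * H' 1 1 + H 0 0 * (H' 1 1 - H 1 1))
    ((H' 0 1 - H 0 1) * H' 1 0 + H 0 1 * (H' 1 0 - H 1 0))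
  have t2 := norm_add_le ((H' 0 0 - H 0 0) * H' 1 1) (H 0 0 * (H' 1 1 - H 1 1))
  have t3 := norm_add_le ((H' 0 1 - H 0 1) * H' 1 0) (H 0 1 * (H' 1 0 - H 1 0))
  linarith

theorem H3_inv_sub {a s s' : ℝ} (ha : 0 < a) (hs : a ≤ s) (hs' : a ≤ s') :
    |1 / s' - 1 / s| ≤ |s' ^ 2 - s ^ 2| / (2 * a ^ 3) := by
  have hsp : 0 < s := lt_of_lt_of_le ha hs
  have hsp' : 0 < s' := lt_of_lt_of_le ha hs'
  have h1 : 1 / s' - 1 / s = -(s' ^ 2 - s ^ 2) / (s * s' * (s + s')) := by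
    field_simp
    ring
  rw [h1, abs_div, abs_neg, abs_of_pos (by positivity : 0 < s * s' * (s + s'))]
  refine div_le_div_of_nonneg_left (abs_nonneg _) (by positivity) ?_
  have h2 : a * a ≤ s * s' := mul_le_mul hs hs' ha.le hsp.le
  calc 2 * a ^ 3 = (a * a) * (a + a) := by ring
    _ ≤ s * s' * (s + s') := mul_le_mul h2 (by linarith) (by positivity) (by positivity)

/-- Proof. Let `a > 0`. `H₀₀ ≥ a`, `H₁₁ ≥ a` (vectors `e₁, e₂`), `det H = H₀₀ H₁₁ - |H₀₁|²` is real.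
With `v = (-H₀₁, H₀₀)`: `v^* H v = H₀₀ det H` (compute) and `nsq v ≥ H₀₀²`, so
`det H ≥ a H₀₀ ≥ a²`. Upper bound: `norm_det_le`. -/
theorem PosH.det {H : M2} {a b : ℝ} (ha : 0 < a) (h : PosH H a b) :
    a ^ 2 ≤ H.det.re ∧ H.det.im = 0 ∧ H.det.re ≤ b ^ 2 := by
  exact H3_det ha h

/-- Proof. `exists_Fr`: `nrmH H` is Hermitian with `det = det H/(det H) = 1` and `(0,0)` entry
positive. -/
theorem PosH.exists_Fr {H : M2} {a b : ℝ} (ha : 0 < a) (h : PosH H a b) :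
    ∃ k : SL, Fr (nrmH H) k := by
  exact H3_Fr ha h

/-- `|nrmH H| ≤ b/a`. -/
theorem PosH.nm_nrmH_le {H : M2} {a b : ℝ} (ha : 0 < a) (h : PosH H a b) : nm (nrmH H) ≤ b / a := by
  exact H3_nm_le ha h

/-- Lipschitz. Proof. With `D = det H`, `D' = det H'` (real, in `[a², b²]`):
`nrmH H' - nrmH H = (H' - H)/√D' + (1/√D' - 1/√D) H`,
`|1/√D' - 1/√D| = |D - D'|/(√D √D' (√D + √D')) ≤ |D - D'|/(2a³)` and `|D - D'| ≤ C b |H - H'|`:
`det` is bilinear in the rows, `|H₀₀H₁₁ - H'₀₀H'₁₁| ≤ 2b|H-H'|`, the same for the other product. -/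
theorem nrmH_lip {a b : ℝ} (ha : 0 < a) : ∃ C > 0, ∀ H H' : M2, PosH H a b → PosH H' a b →
    nm (nrmH H' - nrmH H) ≤ C * nm (H' - H) := by
  refine ⟨1 / a + 2 * b ^ 2 / a ^ 3, by positivity, ?_⟩
  intro H H' h h'
  obtain ⟨d1, d2, d3⟩ := H3_det ha h
  obtain ⟨d1', d2', d3'⟩ := H3_det ha h'
  have hs := H3_sqrt ha h
  have hs' := H3_sqrt ha h'
  have hsp : 0 < Real.sqrt H.det.re := lt_of_lt_of_le ha hs
  have hsp' : 0 < Real.sqrt H'.det.re := lt_of_lt_of_le ha hs'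
  have hb : 0 ≤ b := le_trans (nm_nonneg H) h.upper
  have hD : 0 ≤ H.det.re := le_trans (sq_nonneg a) d1
  have hD' : 0 ≤ H'.det.re := le_trans (sq_nonneg a) d1'
  have hn := nm_nonneg (H' - H)
  have key : nrmH H' - nrmH H = ((1 / Real.sqrt H'.det.re : ℝ) : ℂ) • (H' - H) +
      ((1 / Real.sqrt H'.det.re - 1 / Real.sqrt H.det.re : ℝ) : ℂ) • H := by
    unfold nrmH
    rw [smul_sub, Complex.ofReal_sub, sub_smul]
    abel
  rw [key]
  refine (nm_add_le _ _).trans ?_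
  rw [nm_smul, nm_smul, Complex.norm_real, Complex.norm_real, Real.norm_eq_abs, Real.norm_eq_abs,
    abs_of_pos (by positivity : 0 < 1 / Real.sqrt H'.det.re)]
  have h1 := H3_inv_sub ha hs hs'
  rw [Real.sq_sqrt hD, Real.sq_sqrt hD'] at h1
  have h2 : |H'.det.re - H.det.re| ≤ 4 * b * nm (H' - H) := by
    rw [← Complex.sub_re]
    exact (Complex.abs_re_le_norm _).trans (H3_det_sub h.upper h'.upper)
  have h3 : |1 / Real.sqrt H'.det.re - 1 / Real.sqrt H.det.re| ≤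
      (4 * b * nm (H' - H)) / (2 * a ^ 3) :=
    h1.trans (div_le_div_of_nonneg_right h2 (by positivity))
  calc 1 / Real.sqrt H'.det.re * nm (H' - H) +
        |1 / Real.sqrt H'.det.re - 1 / Real.sqrt H.det.re| * nm H
      ≤ 1 / a * nm (H' - H) + (4 * b * nm (H' - H)) / (2 * a ^ 3) * b :=
        add_le_add (mul_le_mul_of_nonneg_right (one_div_le_one_div_of_le ha hs') hn)
          (mul_le_mul h3 h.upper (nm_nonneg _) (by positivity))
    _ = (1 / a + 2 * b ^ 2 / a ^ 3) * nm (H' - H) := by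
        field_simp
        ring

/-- Proof. `det (fcj k H) = det H`. -/
theorem nrmH_fcj (k : SL) (H : M2) : nrmH (fcj k H) = fcj k (nrmH H) := by
  have h1 : (fcj k H).det = H.det := by
    unfold fcj
    have h2 : ((k⁻¹ : SL) : M2).det = 1 := (k⁻¹).2
    rw [Matrix.det_mul, Matrix.det_mul, Matrix.det_conjTranspose, h2, star_one, one_mul, mul_one]
  unfold nrmH
  rw [h1]
  unfold fcj
  rw [Matrix.mul_smul, Matrix.smul_mul]

/-- A frame of `J` is bounded by the norm of `J`: `|k|² ≤ 2 |J|`. Proof. `|k|² = Re tr (k^* k)`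
(`fro_eq_trace`) `≤ 2 |J|` (`norm_trace_le`). -/
theorem Fr.nm_sq_le {J : M2} {k : SL} (h : Fr J k) : nm (k : M2) ^ 2 ≤ 2 * nm J := by
  rw [nm_sq, fro_eq_trace, ← h]
  exact (Complex.re_le_norm _).trans (norm_trace_le J)

/-- `|fcj k A| ≤ |k|² |A|`. Proof. `|k⁻¹| = |k|` (`nm_inv`), `|M^*| = |M|`, `nm_mul_le`. -/
theorem nm_fcj_le (k : SL) (A : M2) : nm (fcj k A) ≤ nm (k : M2) ^ 2 * nm A := by
  have h1 : nm ((((k⁻¹ : SL) : M2))ᴴ) = nm (k : M2) := by
    rw [← nm_inv k]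
    unfold nm
    rw [fro_eq, fro_eq]
    congr 1
    simp only [Matrix.conjTranspose_apply, Complex.star_def, Complex.normSq_conj]
    ring
  unfold fcj
  calc nm ((((k⁻¹ : SL) : M2))ᴴ * A * ((k⁻¹ : SL) : M2))
      ≤ nm ((((k⁻¹ : SL) : M2))ᴴ * A) * nm ((k⁻¹ : SL) : M2) := nm_mul_le _ _
    _ ≤ (nm ((((k⁻¹ : SL) : M2))ᴴ) * nm A) * nm ((k⁻¹ : SL) : M2) :=
        mul_le_mul_of_nonneg_right (nm_mul_le _ _) (nm_nonneg _)
    _ = nm (k : M2) ^ 2 * nm A := by
        rw [h1, nm_inv]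
        ring

end HRK
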