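import Pool.Agent.HRK.H2
import Pool.Agent.HRK.H3

/-!
# HRK-H4 : estimates of the averaged form near the compact set `K`
-/

namespace HRK

open Set Filter Topology Matrix

variable {E : Type*} [TopologicalSpace E] [T2Space E] {Γ : Type*} [Group Γ] [MulAction Γ E]

/-! ### auxiliary facts -/

theorem h4_nm_ct (X : M2) : nm Xᴴ = nm X := by
  unfold nm
  congr 1
  rw [fro_eq, fro_eq]
  simp only [Matrix.conjTranspose_apply, RCLike.star_def, Complex.normSq_conj]
  ring

theorem h4_nm_sum_le {ι : Type*} (s : Finset ι) (f : ι → M2) :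
    nm (∑ i ∈ s, f i) ≤ ∑ i ∈ s, nm (f i) := by
  classical
  induction s using Finset.induction_on with
  | empty => simp [nm_zero]
  | insert a s ha ih =>
    rw [Finset.sum_insert ha, Finset.sum_insert ha]
    exact (nm_add_le _ _).trans (by linarith)

theorem h4_hf_add (A B : M2) (v : V) : hf (A + B) v = hf A v + hf B v := by
  unfold hf
  rw [Matrix.add_mulVec, dotProduct_add, Complex.add_re]

theorem h4_hf_zero (v : V) : hf 0 v = 0 := by
  unfold hf
  simp

theorem h4_hf_smul (r : ℝ) (A : M2) (v : V) : hf ((r : ℂ) • A) v = r * hf A v := by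
  unfold hf
  rw [Matrix.smul_mulVec, dotProduct_smul, smul_eq_mul, Complex.re_ofReal_mul]

theorem h4_hf_sum {ι : Type*} (s : Finset ι) (f : ι → M2) (v : V) :
    hf (∑ i ∈ s, f i) v = ∑ i ∈ s, hf (f i) v := by
  classical
  induction s using Finset.induction_on with
  | empty => simp [h4_hf_zero]
  | insert a s ha ih =>
    rw [Finset.sum_insert ha, Finset.sum_insert ha, h4_hf_add, ih]

theorem h4_hf_gram (k : SL) (v : V) : hf ((k : M2)ᴴ * (k : M2)) v = nsq ((k : M2) *ᵥ v) :=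
  Fr.hf_eq (J := (k : M2)ᴴ * (k : M2)) (k := k) rfl v

theorem h4_hf_one (v : V) : hf 1 v = nsq v := by
  have h : Fr (1 : M2) (1 : SL) := by
    unfold Fr
    simp
  rw [h.hf_eq]
  simp

theorem h4_B_one (S : Dev Γ E) : ((S.B 1 : SL) : M2)ᴴ * ((S.B 1 : SL) : M2) = 1 := by
  have h := B_gram_inv S 1
  rw [B_one_gram, inv_one] at h
  exact h.symm

/-- `E` is locally compact, so `K` has an open neighbourhood `O` contained in a compact set.

Proof. `E` is locally homeomorphic to `SL(2,ℂ)` (`S.hD`), which is locally compact (closed subset of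
`M₂`, `isCompact_SL_ball`): every point of `E` has a compact neighbourhood (the image of a small
compact ball under the local inverse). Cover `K` by finitely many interiors of compact sets. -/
theorem exists_open_in_compact (S : Dev Γ E) :
    ∃ O C : Set E, IsOpen O ∧ IsCompact C ∧ S.K ⊆ O ∧ O ⊆ C := by
  have : WeaklyLocallyCompactSpace E := by
    refine ⟨fun x => ?_⟩
    obtain ⟨e, hxe, hDe⟩ := S.hD x
    have htar : e.target ∈ 𝓝 (e x) := e.open_target.mem_nhds (e.map_source hxe)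
    obtain ⟨r, hr, hball⟩ := exists_SL_ball htar
    let Q : Set SL := {g : SL | nm ((g : M2) - ((e x : SL) : M2)) ≤ r / 2}
    have hQ : IsCompact Q := isCompact_SL_ball (e x) (r / 2)
    have hQt : Q ⊆ e.target := fun g hg => hball g (lt_of_le_of_lt hg (by linarith))
    refine ⟨e.symm '' Q, hQ.image_of_continuousOn (e.continuousOn_symm.mono hQt), ?_⟩
    have hcont : Continuous fun g : SL => nm ((g : M2) - ((e x : SL) : M2)) := by
      have h1 : Continuous fun g : SL => (g : M2) - ((e x : SL) : M2) :=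
        (isEmbedding_coe.continuous).sub continuous_const
      exact continuous_nm.comp h1
    have hQn : Q ∈ 𝓝 (e x) := by
      refine Filter.mem_of_superset ((isOpen_lt hcont continuous_const).mem_nhds
        (x := e x) (?_ : nm (((e x : SL) : M2) - ((e x : SL) : M2)) < r / 2)) ?_
      · rw [sub_self, nm_zero]; linarith
      · intro g (hg : nm ((g : M2) - ((e x : SL) : M2)) < r / 2)
        exact (le_of_lt hg : nm ((g : M2) - ((e x : SL) : M2)) ≤ r / 2)
    have h2 : e ⁻¹' Q ∈ 𝓝 x := (e.continuousAt hxe) hQn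
    filter_upwards [h2, e.open_source.mem_nhds hxe] with y hy hys
    exact ⟨e y, hy, e.left_inv hys⟩
  obtain ⟨C, hC, hKC⟩ := exists_compact_superset S.hK
  exact ⟨interior C, C, isOpen_interior, hC, hKC, interior_subset⟩

/-- Main estimate. Proof. Let `d > 0` with `d ≤ dlt` on `K` (`exists_dlt_pos`), `F` the finite set of
`Hs_eq_sum`, `β = 1 + max |B_η|` over `η ∈ F` (or a sum), `N = card F`. Let `x ∈ K`,
`|g-1| < ρ := d/4`. Then `g - 1 ∈ St x`, `x' = x.g ∈ O ⊆ C` (`mem_of_lt_dlt`). By `Hs_eq_sum` at `x`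
and `x'`: `Hs x' - Hs x = ∑_F (dlt (η x') - dlt (η x)) (B_η)^* B_η`; `η x' = (η x).(B_η g B_η⁻¹)`
(`ac_equiv`, `mvp_equiv` for the membership), so by `abs_dlt_ac_sub_le` the difference of the `dlt`
is `≤ 2 |B_η|² |g-1|` (`nm_cj_le`). So `|Hs x' - Hs x| ≤ 2 N β⁴ |g-1|`. Lower bound of `Hs x'` and
`Hs x`: the term `η = 1` gives `dlt(x') nsq v ≥ (d - 2ρ) nsq v = (d/2) nsq v`
(`B_gram_inv`/`B_one_gram`: `(B_1)^* B_1 = 1`; `1 ∈ F` since `x' ∈ C`), the other terms are
nonnegative. Hermitian: sum of Hermitian. Upper bound `N β²`. -/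
theorem Hs_estimate (S : Dev Γ E) : ∃ (O C : Set E) (a b ρ c : ℝ), IsCompact C ∧ O ⊆ C ∧ 0 < a ∧
    0 < b ∧ 0 < ρ ∧ 0 < c ∧ (∀ x ∈ S.K, PosH (Hs S O x) a b) ∧
    (∀ x ∈ S.K, ∀ X : M2, nm X < ρ → X ∈ St S.D x) ∧
    ∀ x ∈ S.K, ∀ g : SL, nm ((g : M2) - 1) < ρ →
      PosH (Hs S O (ac S.D x g)) a b ∧
      nm (Hs S O (ac S.D x g) - Hs S O x) ≤ c * nm ((g : M2) - 1) := by
  have hDh : IsLocalHomeomorph (Dh S.D) := isLocalHomeomorph_Dh S.hD
  obtain ⟨O, C, hO, hC, hKO, hOC⟩ := exists_open_in_compact S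
  obtain ⟨d, hd, hdK⟩ := exists_dlt_pos hDh hO S.hK hKO
  let F : Finset Γ := (S.pd C hC).toFinset
  have hF : F = (S.pd C hC).toFinset := rfl
  let β : ℝ := 1 + ∑ η ∈ F, nm ((S.B η : SL) : M2)
  have hsum0 : 0 ≤ ∑ η ∈ F, nm ((S.B η : SL) : M2) :=
    Finset.sum_nonneg fun _ _ => nm_nonneg _
  have hβ1 : 1 ≤ β := by show 1 ≤ 1 + _; linarith
  have hβ0 : 0 ≤ β := by linarith
  have hβF : ∀ η ∈ F, nm ((S.B η : SL) : M2) ≤ β := by
    intro η hη
    have := Finset.single_le_sum (f := fun η => nm ((S.B η : SL) : M2))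
      (fun i _ => nm_nonneg _) hη
    show nm ((S.B η : SL) : M2) ≤ 1 + _
    have h2 : nm ((S.B η : SL) : M2) ≤ ∑ η ∈ F, nm ((S.B η : SL) : M2) := this
    linarith
  have hgram : ∀ η ∈ F, nm (((S.B η : SL) : M2)ᴴ * ((S.B η : SL) : M2)) ≤ β ^ 2 := by
    intro η hη
    calc nm (((S.B η : SL) : M2)ᴴ * ((S.B η : SL) : M2))
        ≤ nm ((S.B η : SL) : M2)ᴴ * nm ((S.B η : SL) : M2) := nm_mul_le _ _
      _ = nm ((S.B η : SL) : M2) ^ 2 := by rw [h4_nm_ct]; ring
      _ ≤ β ^ 2 := pow_le_pow_left₀ (nm_nonneg _) (hβF η hη) 2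
  let N : ℝ := (F.card : ℝ)
  have hN0 : 0 ≤ N := Nat.cast_nonneg _
  -- positivity
  have hpos : ∀ x' ∈ C, d / 2 ≤ dlt S.D O x' → PosH (Hs S O x') (d / 2) (1 + N * β ^ 2) := by
    intro x' hx' hdx
    have hE := Hs_eq_sum S hC hOC hx'
    rw [← hF] at hE
    refine ⟨?_, ?_, ?_⟩
    · rw [hE]
      show (∑ η ∈ F, _)ᴴ = _
      rw [Matrix.conjTranspose_sum]
      apply Finset.sum_congr rfl
      intro η _
      rw [Matrix.conjTranspose_smul, Matrix.conjTranspose_mul, Matrix.conjTranspose_conjTranspose]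
      congr 1
      simp
    · intro v
      rw [hE, h4_hf_sum]
      have h1F : (1 : Γ) ∈ F := by
        rw [hF, Set.Finite.mem_toFinset]
        exact ⟨x', hx', by rw [one_smul]; exact hx'⟩
      have hterm : ∀ η ∈ F, 0 ≤ hf (((dlt S.D O (η • x') : ℝ) : ℂ) •
          (((S.B η : SL) : M2)ᴴ * ((S.B η : SL) : M2))) v := by
        intro η _
        rw [h4_hf_smul, h4_hf_gram]
        exact mul_nonneg (dlt_nonneg _ _ _) (nsq_nonneg _)
      refine le_trans ?_ (Finset.single_le_sum hterm h1F)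
      rw [h4_hf_smul, one_smul, h4_B_one, h4_hf_one]
      exact mul_le_mul_of_nonneg_right hdx (nsq_nonneg _)
    · rw [hE]
      refine (h4_nm_sum_le F _).trans ?_
      have hterm : ∀ η ∈ F, nm (((dlt S.D O (η • x') : ℝ) : ℂ) •
          (((S.B η : SL) : M2)ᴴ * ((S.B η : SL) : M2))) ≤ β ^ 2 := by
        intro η hη
        rw [nm_smul, Complex.norm_real, Real.norm_eq_abs, abs_of_nonneg (dlt_nonneg _ _ _)]
        have h1 := dlt_le S.D O (η • x')
        have h2 := hgram η hη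
        have h3 := dlt_nonneg S.D O (η • x')
        have h4 := nm_nonneg (((S.B η : SL) : M2)ᴴ * ((S.B η : SL) : M2))
        nlinarith
      have := Finset.sum_le_sum hterm
      rw [Finset.sum_const, nsmul_eq_mul] at this
      show _ ≤ 1 + (F.card : ℝ) * β ^ 2
      linarith
  refine ⟨O, C, d / 2, 1 + N * β ^ 2, d / 4, 1 + 2 * N * β ^ 4, hC, hOC, by linarith,
    by positivity, by linarith, by positivity, ?_, ?_, ?_⟩
  · intro x hx
    exact hpos x (hOC (hKO hx)) (by have := hdK x hx; linarith)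
  · intro x hx X hX
    exact (mem_of_lt_dlt (D := S.D) (O := O) (y := x) (X := X)
      (by have := hdK x hx; linarith)).1
  · intro x hx g hg
    have hdx := hdK x hx
    obtain ⟨hgS, hgO⟩ := mem_of_lt_dlt (D := S.D) (O := O) (y := x) (X := (g : M2) - 1)
      (by linarith)
    have hx'O : ac S.D x g ∈ O := hgO
    have hx'C : ac S.D x g ∈ C := hOC hx'O
    have hlow : d / 2 ≤ dlt S.D O (ac S.D x g) := by
      have := dlt_ac_ge (O := O) (y := x) (g := g) hDh
      linarith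
    refine ⟨hpos _ hx'C hlow, ?_⟩
    have hE' := Hs_eq_sum S hC hOC hx'C
    have hE := Hs_eq_sum S hC hOC (hOC (hKO hx))
    rw [← hF] at hE hE'
    rw [hE, hE', ← Finset.sum_sub_distrib]
    refine (h4_nm_sum_le F _).trans ?_
    have hterm : ∀ η ∈ F, nm (((dlt S.D O (η • ac S.D x g) : ℝ) : ℂ) •
          (((S.B η : SL) : M2)ᴴ * ((S.B η : SL) : M2)) - ((dlt S.D O (η • x) : ℝ) : ℂ) •
          (((S.B η : SL) : M2)ᴴ * ((S.B η : SL) : M2))) ≤ 2 * β ^ 4 * nm ((g : M2) - 1) := by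
      intro η hη
      have hac := ac_equiv hDh (S.cont η) (A := S.A η) (B := S.B η) (S.equiv η) hgS
      have hmem := (mvp_equiv hDh (S.cont η) (A := S.A η) (B := S.B η) (S.equiv η) hgS).1
      have hcj : cj (S.B η) ((g : M2) - 1) =
          ((S.B η * g * (S.B η)⁻¹ : SL) : M2) - 1 := by
        rw [cj_sub, cj_coe, cj_one]
      rw [hcj] at hmem
      have hlip := abs_dlt_ac_sub_le (O := O) hDh hmem
      rw [hac, ← hcj] at hlip
      have h1 := nm_cj_le (S.B η) ((g : M2) - 1)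
      have h2 := hgram η hη
      have hb := hβF η hη
      have hb2 : nm ((S.B η : SL) : M2) ^ 2 ≤ β ^ 2 := pow_le_pow_left₀ (nm_nonneg _) hb 2
      rw [← sub_smul, ← Complex.ofReal_sub, nm_smul, Complex.norm_real, Real.norm_eq_abs]
      have hg0 := nm_nonneg ((g : M2) - 1)
      have hA : |dlt S.D O (η • ac S.D x g) - dlt S.D O (η • x)| ≤
          2 * (β ^ 2 * nm ((g : M2) - 1)) := by
        refine hlip.trans ?_
        have := mul_le_mul_of_nonneg_right hb2 hg0
        linarith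
      calc |dlt S.D O (η • ac S.D x g) - dlt S.D O (η • x)| *
            nm (((S.B η : SL) : M2)ᴴ * ((S.B η : SL) : M2))
          ≤ 2 * (β ^ 2 * nm ((g : M2) - 1)) * β ^ 2 :=
            mul_le_mul hA h2 (nm_nonneg _) (by positivity)
        _ = 2 * β ^ 4 * nm ((g : M2) - 1) := by ring
    have h5 := Finset.sum_le_sum hterm
    rw [Finset.sum_const, nsmul_eq_mul] at h5
    refine h5.trans ?_
    have hg0 := nm_nonneg ((g : M2) - 1)
    show (F.card : ℝ) * (2 * β ^ 4 * nm ((g : M2) - 1)) ≤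
      (1 + 2 * (F.card : ℝ) * β ^ 4) * nm ((g : M2) - 1)
    nlinarith

end HRK
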