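import Pool.Agent.HRK.H4

/-!
# HRK-H5 : existence of the geometric structure
-/

namespace HRK

open Set Filter Topology Matrix

variable {E : Type*} [TopologicalSpace E] [T2Space E] {Γ : Type*} [Group Γ] [MulAction Γ E]

/-- (h1), (h2) at the points of `K`.

Proof. With the data of `Hs_estimate` and `J y = nrmH (Hs S O y)`. For `x ∈ K` and a frame `k` of
`J x`: `|k|² ≤ 2|J x| ≤ 2b/a =: β` (`Fr.nm_sq_le`, `PosH.nm_nrmH_le`). `nm X = nm (cj k⁻¹ (cj k X)) ≤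
β nm (cj k X)`. Slab: `r0 β ≤ ρ`. Lipschitz: `|g-1| ≤ β |g-1|_k < ρ`, so
`|J(x.g) - J x| ≤ C c β |g-1|_k` (`nrmH_lip`, `Hs_estimate`) and
`fcj k (J(x.g)) - 1 = fcj k (J(x.g) - J x)` (`Fr.fcj_self`, linearity), `nm_fcj_le`:
`≤ β² C c β |g-1|_k`... so `L = 1 + C c β³` and `r0 = min (1/4) (min (ρ/β) (1/(4L)))/1` work. -/
theorem geo_K (S : Dev Γ E) : ∃ (O C : Set E) (r0 L : ℝ), IsCompact C ∧ O ⊆ C ∧ Cst r0 L ∧
    (∀ x ∈ S.K, ∃ k : SL, Fr (nrmH (Hs S O x)) k) ∧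
    (∀ x ∈ S.K, ∀ k : SL, Fr (nrmH (Hs S O x)) k → ∀ X : M2, nm (cj k X) < r0 → X ∈ St S.D x) ∧
    (∀ x ∈ S.K, ∀ k : SL, Fr (nrmH (Hs S O x)) k → ∀ g : SL, nm (cj k ((g : M2) - 1)) < r0 →
      nm (fcj k (nrmH (Hs S O (ac S.D x g))) - 1) ≤ L * nm (cj k ((g : M2) - 1))) := by
  obtain ⟨O, C, a, b, ρ, c, hC, hOC, ha, hb, hρ, hc, hpos, hslab, hest⟩ := Hs_estimate S
  obtain ⟨C1, hC1, hlip⟩ := nrmH_lip (a := a) (b := b) ha
  set β : ℝ := 2 * (b / a) with hβ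
  have hβ0 : 0 < β := by positivity
  set L : ℝ := 1 + C1 * c * β ^ 2 with hL
  have hL0 : 0 < L := by positivity
  set r0 : ℝ := min (1 / 4) (min (ρ / β) (1 / (4 * L))) with hr0
  have hr0pos : 0 < r0 := lt_min (by norm_num) (lt_min (by positivity) (by positivity))
  have hkβ : ∀ x ∈ S.K, ∀ k : SL, Fr (nrmH (Hs S O x)) k → nm (k : M2) ^ 2 ≤ β := by
    intro x hx k hk
    have h1 := hk.nm_sq_le
    have h2 := (hpos x hx).nm_nrmH_le ha
    rw [hβ]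
    linarith
  have hX : ∀ x ∈ S.K, ∀ k : SL, Fr (nrmH (Hs S O x)) k → ∀ X : M2, nm X ≤ β * nm (cj k X) := by
    intro x hx k hk X
    have h3 := nm_cj_le k⁻¹ (cj k X)
    rw [cj_cj, inv_mul_cancel, one_cj, nm_inv] at h3
    exact h3.trans (mul_le_mul_of_nonneg_right (hkβ x hx k hk) (nm_nonneg _))
  have hXρ : ∀ x ∈ S.K, ∀ k : SL, Fr (nrmH (Hs S O x)) k → ∀ X : M2, nm (cj k X) < r0 →
      nm X < ρ := by
    intro x hx k hk X h
    have h1 := hX x hx k hk X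
    have h2 : r0 ≤ ρ / β := (min_le_right _ _).trans (min_le_left _ _)
    have h3 : nm (cj k X) < ρ / β := h.trans_le h2
    rw [lt_div_iff₀ hβ0] at h3
    linarith
  refine ⟨O, C, r0, L, hC, hOC, ⟨hr0pos, min_le_left _ _, hL0, ?_⟩, ?_, ?_, ?_⟩
  · have h2 : r0 ≤ 1 / (4 * L) := (min_le_right _ _).trans (min_le_right _ _)
    rw [le_div_iff₀ (by positivity)] at h2
    linarith
  · intro x hx
    exact (hpos x hx).exists_Fr ha
  · intro x hx k hk X h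
    exact hslab x hx X (hXρ x hx k hk X h)
  · intro x hx k hk g h
    have h1 := hXρ x hx k hk _ h
    obtain ⟨h2, h3⟩ := hest x hx g h1
    have h4 := hlip _ _ (hpos x hx) h2
    have h5 := hX x hx k hk ((g : M2) - 1)
    have h6 : fcj k (nrmH (Hs S O (ac S.D x g))) - 1 =
        fcj k (nrmH (Hs S O (ac S.D x g)) - nrmH (Hs S O x)) := by
      have h7 := hk.fcj_self
      rw [← h7]
      unfold fcj
      rw [Matrix.mul_sub, Matrix.sub_mul]
    rw [h6]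
    have h8 := nm_fcj_le k (nrmH (Hs S O (ac S.D x g)) - nrmH (Hs S O x))
    have h9 := hkβ x hx k hk
    have hn := nm_nonneg (cj k ((g : M2) - 1))
    have hn2 := nm_nonneg (nrmH (Hs S O (ac S.D x g)) - nrmH (Hs S O x))
    calc nm (fcj k (nrmH (Hs S O (ac S.D x g)) - nrmH (Hs S O x)))
        ≤ nm (k : M2) ^ 2 * nm (nrmH (Hs S O (ac S.D x g)) - nrmH (Hs S O x)) := h8
      _ ≤ β * nm (nrmH (Hs S O (ac S.D x g)) - nrmH (Hs S O x)) :=
          mul_le_mul_of_nonneg_right h9 hn2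
      _ ≤ β * (C1 * (c * (β * nm (cj k ((g : M2) - 1))))) := by
          refine mul_le_mul_of_nonneg_left (h4.trans ?_) hβ0.le
          refine mul_le_mul_of_nonneg_left (h3.trans ?_) hC1.le
          exact mul_le_mul_of_nonneg_left h5 hc.le
      _ = (C1 * c * β ^ 2) * nm (cj k ((g : M2) - 1)) := by ring
      _ ≤ L * nm (cj k ((g : M2) - 1)) := by
          refine mul_le_mul_of_nonneg_right ?_ hn
          rw [hL]
          linarith

/-- (1) the Hermitian structure.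

Proof. `J y = nrmH (Hs S O y)`; equivariance by `Hs_equiv` and `nrmH_fcj`. For `y` arbitrary choose
`γ` with `x = γ y ∈ K` (`S.cover`), `y = γ⁻¹ x`. If `k` is a frame of `J y` then `k (B_γ)⁻¹` is a
frame of `J x = fcj (B_γ) (J y)` (`Fr.conj`). `X ∈ St y` iff `cj (B_γ) X ∈ St x` (`mvp_equiv` for
`γ` and for `γ⁻¹`; the developing map satisfies `D (γ⁻¹ • x) = (A_γ)⁻¹ D x B_γ`, from
`S.equiv γ (γ⁻¹ • x)`), `nm (cj (k B_γ⁻¹) (cj B_γ X)) = nm (cj k X)`; `ac_equiv` and equivariance of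
`J` for (h2). `Dh S.D` is a local homeomorphism by `isLocalHomeomorph_Dh`. -/
theorem exists_geo (S : Dev Γ E) : ∃ r0 L : ℝ, Cst r0 L ∧ ∃ G : Geo E r0 L, G.D = S.D ∧
    ∀ γ y, G.J (γ • y) = fcj (S.B γ) (G.J y) := by
  obtain ⟨O, C, r0, L, hC, hOC, hcst, hform, hslab, hlip⟩ := geo_K S
  have hJ : ∀ γ y, nrmH (Hs S O (γ • y)) = fcj (S.B γ) (nrmH (Hs S O y)) := by
    intro γ y
    rw [Hs_equiv S hC hOC, nrmH_fcj]
  have hD := isLocalHomeomorph_Dh S.hD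
  have hinv : ∀ (γ : Γ) (x : E), S.D (γ⁻¹ • x) = (S.A γ)⁻¹ * S.D x * ((S.B γ)⁻¹)⁻¹ := by
    intro γ x
    have h := S.equiv γ (γ⁻¹ • x)
    rw [smul_inv_smul] at h
    rw [h]
    group
  have hone : ∀ J : M2, fcj 1 J = J := by
    intro J
    unfold fcj
    simp
  have hsl : ∀ y (k : SL), Fr (nrmH (Hs S O y)) k → ∀ X : M2, nm (cj k X) < r0 → X ∈ St S.D y := by
    intro y k hk X hX
    obtain ⟨γ, hγ⟩ := S.cover y
    have h1 := hk.conj (S.B γ)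
    rw [← hJ] at h1
    have h2 := hslab _ hγ _ h1 (cj (S.B γ) X) (by rw [cj_cj, inv_mul_cancel_right]; exact hX)
    have h3 := (mvp_equiv hD (S.cont γ⁻¹) (hinv γ) h2).1
    rw [cj_cj, inv_mul_cancel, one_cj, inv_smul_smul] at h3
    exact h3
  refine ⟨r0, L, hcst, ⟨S.D, hD, fun y => nrmH (Hs S O y), ?_, hsl, ?_⟩, rfl, hJ⟩
  · intro y
    obtain ⟨γ, hγ⟩ := S.cover y
    obtain ⟨k, hk⟩ := hform _ hγ
    have h := hk.conj (S.B γ)⁻¹
    rw [hJ, fcj_fcj, inv_mul_cancel, hone] at h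
    exact ⟨_, h⟩
  · intro y k hk g hg
    obtain ⟨γ, hγ⟩ := S.cover y
    have h1 := hk.conj (S.B γ)
    rw [← hJ] at h1
    have e : cj (k * (S.B γ)⁻¹) (((S.B γ * g * (S.B γ)⁻¹ : SL) : M2) - 1) =
        cj k ((g : M2) - 1) := by
      have e1 : (((S.B γ * g * (S.B γ)⁻¹ : SL) : M2) - 1) = cj (S.B γ) ((g : M2) - 1) := by
        rw [cj_sub, cj_one, cj_coe]
      rw [e1, cj_cj, inv_mul_cancel_right]
    have h2 := hlip _ hγ _ h1 (S.B γ * g * (S.B γ)⁻¹) (by rw [e]; exact hg)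
    rw [e, ac_equiv hD (S.cont γ) (S.equiv γ) (hsl y k hk _ hg), hJ, fcj_fcj,
      inv_mul_cancel_right] at h2
    exact h2

end HRK
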