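import Pool.Agent.HRK.J2

/-!
# HRK-J3 : normalisation
-/

namespace HRK

open Set Filter Topology Matrix

variable {E : Type*} [TopologicalSpace E] [T2Space E] {r0 L : ℝ}

/-- Coordinates in the frame `uni (-a) e1`: `ζ' = ζ - a`, `T' = T`.

Proof. `hf (fcj u J) (u v) = hf J v`, or compute the entries `(0,0)` and `(0,1)` of
`fcj (uni (-a) e1) J` : `J₀₀` and `J₀₁ + a J₀₀`. -/
theorem coord_uni {J : M2} {k : SL} (h : Fr J k) (a : ℂ) :
    Zc (fcj (uni (-a) e1) J) = Zc J - a ∧ Tc (fcj (uni (-a) e1) J) = Tc J := by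
  have hp := h.pos
  have hne : J 0 0 ≠ 0 := by
    intro h0
    rw [h0] at hp
    simp at hp
  have hm : (((uni (-a) e1)⁻¹ : SL) : M2) = !![1, a; 0, 1] := by
    rw [uni_inv, neg_neg, uni_coe, nn_e1]
    ext i j
    fin_cases i <;> fin_cases j <;> simp
  have e00 : (fcj (uni (-a) e1) J) 0 0 = J 0 0 := by
    unfold fcj
    rw [hm]
    simp [Matrix.mul_apply, Fin.sum_univ_two, Matrix.conjTranspose_apply]
  have e01 : (fcj (uni (-a) e1) J) 0 1 = J 0 0 * a + J 0 1 := by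
    unfold fcj
    rw [hm]
    simp [Matrix.mul_apply, Fin.sum_univ_two, Matrix.conjTranspose_apply]
  refine ⟨?_, ?_⟩
  · unfold Zc
    rw [e00, e01]
    field_simp
    ring
  · unfold Tc
    rw [e00]

/-- Coordinates in the frame `dg s`: `ζ' = e^s ζ`, `T' = e^s T`.

Proof. entries: `J'₀₀ = e^{-s} J₀₀`, `J'₀₁ = J₀₁`. -/
theorem coord_dg {J : M2} {k : SL} (h : Fr J k) (s : ℝ) :
    Zc (fcj (dg s) J) = (Real.exp s : ℂ) * Zc J ∧ Tc (fcj (dg s) J) = Real.exp s * Tc J := by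
  have hp := h.pos
  have hne : J 0 0 ≠ 0 := by
    intro h0
    rw [h0] at hp
    simp at hp
  have hm : (((dg s)⁻¹ : SL) : M2) =
      !![(Real.exp (-s / 2) : ℂ), 0; 0, (Real.exp (s / 2) : ℂ)] := by
    rw [dg_inv]
    have : -(-s / 2) = s / 2 := by ring
    simp only [dg, this]
  have hE : (Real.exp (-s / 2) : ℂ) * (Real.exp (-s / 2) : ℂ) = (Real.exp (-s) : ℂ) := by
    rw [← Complex.ofReal_mul, ← Real.exp_add]
    congr 2
    ring
  have hE2 : (Real.exp (-s / 2) : ℂ) * (Real.exp (s / 2) : ℂ) = 1 := by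
    rw [← Complex.ofReal_mul, ← Real.exp_add]
    have : -s / 2 + s / 2 = 0 := by ring
    rw [this]
    simp
  have e00 : (fcj (dg s) J) 0 0 = (Real.exp (-s) : ℂ) * J 0 0 := by
    unfold fcj
    rw [hm, ← hE]
    simp only [Matrix.mul_apply, Fin.sum_univ_two, Matrix.conjTranspose_apply, Matrix.of_apply,
      Matrix.cons_val', Matrix.cons_val_zero, Matrix.cons_val_one, Matrix.cons_val_fin_one,
      Complex.star_def, Complex.conj_ofReal, map_zero, mul_zero, zero_mul, add_zero]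
    ring
  have e01 : (fcj (dg s) J) 0 1 = J 0 1 := by
    unfold fcj
    rw [hm]
    simp only [Matrix.mul_apply, Fin.sum_univ_two, Matrix.conjTranspose_apply, Matrix.of_apply,
      Matrix.cons_val', Matrix.cons_val_zero, Matrix.cons_val_one, Matrix.cons_val_fin_one,
      Complex.star_def, Complex.conj_ofReal, map_zero, mul_zero, zero_mul, add_zero, zero_add]
    calc (Real.exp (-s / 2) : ℂ) * J 0 1 * (Real.exp (s / 2) : ℂ)
        = ((Real.exp (-s / 2) : ℂ) * (Real.exp (s / 2) : ℂ)) * J 0 1 := by ring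
      _ = J 0 1 := by rw [hE2, one_mul]
  have hEE : (Real.exp s : ℂ) * (Real.exp (-s) : ℂ) = 1 := by
    rw [← Complex.ofReal_mul, ← Real.exp_add]
    simp
  have hEs : (Real.exp (-s) : ℂ) ≠ 0 := by
    exact_mod_cast (Real.exp_pos _).ne'
  refine ⟨?_, ?_⟩
  · unfold Zc
    rw [e00, e01]
    rw [div_eq_iff (mul_ne_zero hEs hne)]
    calc -(J 0 1) = ((Real.exp s : ℂ) * (Real.exp (-s) : ℂ)) * (-(J 0 1) / J 0 0 * J 0 0) := by
          rw [hEE, div_mul_cancel₀ _ hne, one_mul]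
      _ = _ := by ring
  · unfold Tc
    rw [e00, Complex.re_ofReal_mul, Real.exp_neg]
    have h1 := Real.exp_pos s
    have h2 := hp.1
    field_simp

/-- `cj (dg s) (nn e1) = e^s nn e1`, `cj (uni a e1) (nn e1) = nn e1`. -/
theorem cj_dg_nn (s : ℝ) : cj (dg s) (nn e1) = (Real.exp s : ℂ) • nn e1 := by
  rw [cj_nn]
  have h : ((dg s : SL) : M2) *ᵥ e1 = (Real.exp (s / 2) : ℂ) • e1 := by
    ext i
    fin_cases i <;> simp [dg, e1, Matrix.mulVec, dotProduct, Fin.sum_univ_two]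
  rw [h, nn_smul, ← Complex.ofReal_pow, ← Real.exp_nat_mul]
  congr 3
  push_cast
  ring

theorem cj_uni_nn (a : ℂ) : cj (uni a e1) (nn e1) = nn e1 := by
  rw [cj_nn]
  have h : ((uni a e1 : SL) : M2) *ᵥ e1 = e1 := by
    rw [uni_coe, nn_e1]
    ext i
    fin_cases i <;> simp [e1, Matrix.mulVec, dotProduct, Fin.sum_univ_two, Matrix.one_apply]
  rw [h]

theorem j3_cj_inv (a t : ℂ) : cj (uni a e1)⁻¹ (t • nn e1) = t • nn e1 := by
  rw [uni_inv, cj_smul, cj_uni_nn]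

theorem j3_sub_one (t : ℂ) : ((uni t e1 : SL) : M2) - 1 = t • nn e1 := by
  rw [uni_coe]
  abel

/-- `yt` in a new frame `uni a e1`, for `t • nn e1 ∈ St`. Proof. `ac_conj`, `uni` of the same vector
commute. -/
theorem yt_conj_uni {D : E → SL} (hD : IsLocalHomeomorph (Dh D)) {y : E} {t : ℂ} (a : ℂ)
    (h : t • nn e1 ∈ St D y) : yt (fun y => D y * (uni a e1)⁻¹) y t = yt D y t := by
  unfold yt
  have hX : cj (uni a e1)⁻¹ (((uni t e1 : SL) : M2) - 1) ∈ St D y := by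
    rw [j3_sub_one, j3_cj_inv]
    exact h
  rw [ac_conj hD (uni a e1) hX, uni_inv, uni_mul, uni_mul]
  congr 2
  ring

/-- Normalisation: after a unipotent change of frame the limit of `ζ` is `0`.

Proof. Let `a` be the limit (`exists_limit`), `u = uni (-a) e1`. `mem_St_conj`, `cj_uni_nn`,
`yt_conj_uni`, `coord_uni`; the bound of `T` is `Tc_le_ideal` with `t = 1 - w`, `|1 - t| = w`. -/
theorem exists_NormAt (hc : Cst r0 L) (G : Geo E r0 L) {y : E}
    (h1 : ∀ t : ℂ, ‖t‖ < 1 → t • nn e1 ∈ St G.D y) (h2 : nn e1 ∉ St G.D y) :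
    ∃ a : ℂ, NormAt (G.conj (uni (-a) e1)) y := by
  obtain ⟨a, ha⟩ := exists_limit hc G h1
  have hw : ∀ w ∈ Ioc (0:ℝ) 1, ‖(((1 - w : ℝ) : ℂ))‖ < 1 := by
    intro w hw
    rw [Complex.norm_real, Real.norm_eq_abs, abs_of_nonneg (by linarith [hw.2])]
    linarith [hw.1]
  have hy : ∀ w ∈ Ioc (0:ℝ) 1,
      yt (fun y => G.D y * (uni (-a) e1)⁻¹) y ((1 - w : ℝ) : ℂ) = yt G.D y ((1 - w : ℝ) : ℂ) :=
    fun w hw' => yt_conj_uni G.hD (-a) (h1 _ (hw w hw'))
  refine ⟨a, ⟨?_, ?_, ?_, ?_⟩⟩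
  · intro t ht
    show t • nn e1 ∈ St (fun y => G.D y * (uni (-a) e1)⁻¹) y
    rw [mem_St_conj, j3_cj_inv]
    exact h1 t ht
  · show nn e1 ∉ St (fun y => G.D y * (uni (-a) e1)⁻¹) y
    rw [mem_St_conj]
    have := j3_cj_inv (-a) 1
    rw [one_smul] at this
    rw [this]
    exact h2
  · intro w hw'
    show ‖Zc (fcj (uni (-a) e1) (G.J (yt (fun y => G.D y * (uni (-a) e1)⁻¹) y
      ((1 - w : ℝ) : ℂ))))‖ ≤ 2 * L * w
    rw [hy w hw']
    obtain ⟨k, hk⟩ := G.form (yt G.D y ((1 - w : ℝ) : ℂ))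
    rw [(coord_uni hk a).1]
    exact ha w hw'
  · intro w hw'
    show Tc (fcj (uni (-a) e1) (G.J (yt (fun y => G.D y * (uni (-a) e1)⁻¹) y
      ((1 - w : ℝ) : ℂ)))) ≤ w / r0
    rw [hy w hw']
    obtain ⟨k, hk⟩ := G.form (yt G.D y ((1 - w : ℝ) : ℂ))
    rw [(coord_uni hk a).2]
    rw [le_div_iff₀ hc.r0pos]
    have h3 := Tc_le_ideal hc G h1 h2 (hw w hw')
    have h4 : (1 : ℂ) - ((1 - w : ℝ) : ℂ) = ((w : ℝ) : ℂ) := by
      push_cast
      ring
    rw [h4, Complex.norm_real, Real.norm_eq_abs, abs_of_pos hw'.1] at h3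
    linarith [mul_comm r0 (Tc (G.J (yt G.D y ((1 - w : ℝ) : ℂ))))]

end HRK
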