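import Pool.Agent.HRK.K8

/-!
# HRK-K9 : continuity of `eD` and `mD`
-/

namespace HRK

open Set Filter Topology Matrix

universe u

variable {E : Type u} [TopologicalSpace E] {r0 L : ℝ}

/-- Lower semicontinuity. If `b < eD y ψ` then `b < eD y' ψ'` for `(y',ψ')` near `(y,ψ)`.

Proof. If `b < 0` clear (`eD_nonneg`). Otherwise `e := eD y ψ > 0`; `normal_form` gives `k, P` and
`‖qP P ψ‖ = e`. The function `(g,ψ') ↦ ‖qP (pmv P g) ψ'‖` is continuous at `(1,ψ)`, with value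
`e > b` (`pmv_one`). So it is `> b` for `|g-1|_k < c'`, `ψ'` near `ψ`. By `ac_nhds` the points
`y.g`, `|g-1|_k < min c c'`, fill a neighbourhood of `y`, and `SVis.le` gives
`eD (y.g) ψ' ≥ ‖qP (pmv P g) ψ'‖ > b`. -/
theorem eD_lsc [T2Space E] (hc : Cst r0 L) (G : Geo E r0 L) (y : E) (ψ : V) {b : ℝ}
    (h : b < eD G.D y ψ) : ∀ᶠ p : E × V in 𝓝 (y, ψ), b < eD G.D p.1 p.2 := by
  rcases lt_or_ge b 0 with hb | hb
  · exact Filter.Eventually.of_forall fun p => lt_of_lt_of_le hb (eD_nonneg _ _ _)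
  obtain ⟨c, hc0, C, hC0, H⟩ := normal_form.{u} hc
  have he : 0 < eD G.D y ψ := lt_of_le_of_lt hb h
  obtain ⟨k, lam, P, hlam, hk, hcj, hPl, hq, hFB, hS⟩ := H E G y ψ he
  have hlam0 : lam ≠ 0 := by
    rintro rfl
    rw [norm_zero] at hlam
    norm_num at hlam
    exact he.ne hlam
  have hA : Continuous fun p : M2 × V => P * (1 + cj k⁻¹ p.1) := by
    have h1 : Continuous fun p : M2 × V => cj k⁻¹ p.1 := (continuous_cj k⁻¹).comp continuous_fst
    exact continuous_const.mul (continuous_const.add h1)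
  have hT : Continuous fun p : M2 × V => (P * (1 + cj k⁻¹ p.1)).trace := hA.matrix_trace
  have hA0 : P * (1 + cj k⁻¹ (0 : M2)) = P := by rw [cj_zero, add_zero, mul_one]
  have hcont : ContinuousAt (fun p : M2 × V =>
      ‖qP (((P * (1 + cj k⁻¹ p.1)).trace)⁻¹ • (P * (1 + cj k⁻¹ p.1))) p.2‖) (0, ψ) := by
    have h1 : ContinuousAt (fun p : M2 × V =>
        ((P * (1 + cj k⁻¹ p.1)).trace)⁻¹ • (P * (1 + cj k⁻¹ p.1))) (0, ψ) := by
      refine ContinuousAt.smul (ContinuousAt.inv₀ hT.continuousAt ?_) hA.continuousAt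
      change (P * (1 + cj k⁻¹ (0 : M2))).trace ≠ 0
      rw [hA0, hPl.1]
      exact one_ne_zero
    have h2 : ContinuousAt (fun p : M2 × V =>
        ((((P * (1 + cj k⁻¹ p.1)).trace)⁻¹ • (P * (1 + cj k⁻¹ p.1)), p.2) : M2 × V)) (0, ψ) :=
      h1.prodMk continuous_snd.continuousAt
    exact (ContinuousAt.comp (f := fun p : M2 × V =>
        ((((P * (1 + cj k⁻¹ p.1)).trace)⁻¹ • (P * (1 + cj k⁻¹ p.1)), p.2) : M2 × V))
      continuous_qP.continuousAt h2).norm
  have h0 : (fun p : M2 × V =>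
      ‖qP (((P * (1 + cj k⁻¹ p.1)).trace)⁻¹ • (P * (1 + cj k⁻¹ p.1))) p.2‖) (0, ψ)
        = eD G.D y ψ := by
    change ‖qP (((P * (1 + cj k⁻¹ (0 : M2))).trace)⁻¹ • (P * (1 + cj k⁻¹ (0 : M2)))) ψ‖ = _
    rw [hA0, hPl.1, inv_one, one_smul, hq]
  have hcont2 : Continuous fun p : M2 × V => vn (lam⁻¹ • ((k : M2) *ᵥ p.2) - e1) := by
    have h1 : Continuous fun p : M2 × V => (k : M2) *ᵥ p.2 :=
      Continuous.matrix_mulVec continuous_const continuous_snd
    have h2 : Continuous fun p : M2 × V => lam⁻¹ • ((k : M2) *ᵥ p.2) - e1 :=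
      Continuous.sub (Continuous.const_smul h1 lam⁻¹) continuous_const
    exact continuous_vn.comp h2
  have h02 : (fun p : M2 × V => vn (lam⁻¹ • ((k : M2) *ᵥ p.2) - e1)) (0, ψ) < c := by
    change vn (lam⁻¹ • ((k : M2) *ᵥ ψ) - e1) < c
    rw [hk, smul_smul, inv_mul_cancel₀ hlam0, one_smul, sub_self, vn_eq_zero.2 rfl]
    exact hc0
  have hev := (hcont.eventually_const_lt (h0.symm ▸ h)).and
    (hcont2.continuousAt.eventually_lt_const h02)
  obtain ⟨U, hU, W, hW, hUW⟩ := mem_nhds_prod_iff.1 hev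
  obtain ⟨r, hr0, hr⟩ := exists_nm_ball hU
  have hN := (ac_nhds G.hD y k).2 (min c r) (lt_min hc0 hr0)
  filter_upwards [prod_mem_nhds hN hW] with p hp
  obtain ⟨⟨g, hg, hy'⟩, hψ'⟩ := hp
  have h3 := hUW (Set.mk_mem_prod (hr _ (lt_of_lt_of_le hg (min_le_right _ _))) hψ')
  obtain ⟨h4, h5⟩ := h3
  have h6 : (1 : M2) + cj k⁻¹ (cj k ((g : M2) - 1)) = (g : M2) := by
    rw [cj_cj, inv_mul_cancel, one_cj]
    abel
  have h4' : b < ‖qP (((P * (1 + cj k⁻¹ (cj k ((g : M2) - 1)))).trace)⁻¹ •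
      (P * (1 + cj k⁻¹ (cj k ((g : M2) - 1))))) p.2‖ := h4
  rw [h6] at h4'
  have h7 := SVis.le hc (hS g p.2 (lt_of_lt_of_le hg (min_le_left _ _)) h5)
  rw [hy']
  exact lt_of_lt_of_le h4' h7

/-- Proof. `eD_usc`, `eD_lsc`. -/
theorem continuous_eD [T2Space E] (hc : Cst r0 L) (G : Geo E r0 L) :
    Continuous fun p : E × V => eD G.D p.1 p.2 := by
  rw [continuous_iff_continuousAt]
  rintro ⟨y, ψ⟩
  refine tendsto_order.2 ⟨fun b hb => eD_lsc hc G y ψ hb, fun b hb => eD_usc G.hD y ψ hb⟩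

private theorem k9_continuous_inv :
    Continuous fun k : SL => ((k⁻¹ : SL) : M2) := by
  have h1 : Continuous fun k : SL => (k : M2) := continuous_subtype_val
  have h2 : ∀ i j, Continuous fun k : SL => (k : M2) i j := fun i j =>
    (continuous_apply j).comp ((continuous_apply i).comp h1)
  simp_rw [coe_inv_eq]
  refine continuous_matrix fun i j => ?_
  fin_cases i <;> fin_cases j
  · exact h2 1 1
  · exact (h2 0 1).neg
  · exact (h2 1 0).neg
  · exact h2 0 0

/-- Proof. `mD y k` is the maximum over the compact sphere of a function continuous in `(y,k,ψ)`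
(`IsCompact.continuous_sSup`, Mathlib.Topology.Algebra.Order.Compact). -/
theorem continuous_mD [T2Space E] (hc : Cst r0 L) (G : Geo E r0 L) :
    Continuous fun p : E × SL => mD G.D p.1 p.2 := by
  have hf : Continuous (↿(fun (p : E × SL) (ψ : V) =>
      eD G.D p.1 (((p.2⁻¹ : SL) : M2) *ᵥ ψ))) := by
    have h1 : Continuous fun q : (E × SL) × V => (((q.1.2⁻¹ : SL) : M2) *ᵥ q.2) :=
      Continuous.matrix_mulVec
        (k9_continuous_inv.comp (continuous_snd.comp continuous_fst)) continuous_snd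
    exact (continuous_eD hc G).comp ((continuous_fst.comp continuous_fst).prodMk h1)
  exact IsCompact.continuous_sSup isCompact_sphere hf

end HRK
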