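import Pool.Agent.HRK.K8

/-!
# HRK-U1 : uniform supports (US) and good frames
-/

namespace HRK

open Set Filter Topology Matrix

universe u

variable {r0 L : ℝ}

/-- entries of an upper triangular element. -/
theorem u1_entries {k : SL} {lam : ℂ} (h : (k : M2) *ᵥ e1 = lam • e1) :
    (k : M2) 0 0 = lam ∧ (k : M2) 1 0 = 0 ∧ (k : M2) 1 1 = lam⁻¹ ∧ lam ≠ 0 := by
  have h0 : (k : M2) 0 0 = lam := by
    have := congrFun h 0
    simpa [e1, Matrix.mulVec, dotProduct, Fin.sum_univ_two] using this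
  have h1 : (k : M2) 1 0 = 0 := by
    have := congrFun h 1
    simpa [e1, Matrix.mulVec, dotProduct, Fin.sum_univ_two] using this
  have hd : (k : M2).det = 1 := k.2
  rw [Matrix.det_fin_two, h0, h1, mul_zero, sub_zero] at hd
  have hl : lam ≠ 0 := by
    intro h
    rw [h, zero_mul] at hd
    exact zero_ne_one hd
  refine ⟨h0, h1, ?_, hl⟩
  exact eq_inv_of_mul_eq_one_right hd

theorem u1_mulVec_e2 (k : SL) : (k : M2) *ᵥ e2 = ![(k : M2) 0 1, (k : M2) 1 1] := by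
  ext i
  fin_cases i <;> simp [e2, Matrix.mulVec, dotProduct, Fin.sum_univ_two]

theorem u1_nsq_e1 : nsq e1 = 1 := by
  rw [nsq_eq]; simp [e1]

theorem u1_nsq_e2 : nsq e2 = 1 := by
  rw [nsq_eq]; simp [e2]

theorem u1_vn_snd (z : ℂ) : vn ![0, z] = ‖z‖ := by
  have h : nsq ![0, z] = ‖z‖ ^ 2 := by
    rw [nsq_eq]; simp [Complex.normSq_eq_norm_sq]
  unfold vn
  rw [h]
  exact Real.sqrt_sq (norm_nonneg z)

theorem u1_nm_P0 : nm (!![0, 0; -1, 1] : M2) ≤ 2 := by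
  have : nm (!![0, 0; -1, 1] : M2) ≤ 2 * 1 := by
    apply nm_le_of_entries zero_le_one
    intro i j
    fin_cases i <;> fin_cases j <;> simp
  linarith

/-- Pure matrices. Let `k ∈ SL`, `k e₁ = lam e₁`, so `k = [[lam, b],[0, 1/lam]]`. Bound of `|k|`. -/
theorem nm_upper_le {k : SL} {lam : ℂ} (h : (k : M2) *ᵥ e1 = lam • e1) {B : ℝ} (hB : 0 ≤ B)
    (h1 : ‖lam‖ ≤ B) (h2 : ‖lam⁻¹‖ ≤ B) (h3 : ‖(k : M2) 0 1‖ ≤ B) : nm (k : M2) ≤ 2 * B := by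
  obtain ⟨h00, h10, h11, -⟩ := u1_entries h
  apply nm_le_of_entries hB
  intro i j
  fin_cases i <;> fin_cases j
  · change ‖(k : M2) 0 0‖ ≤ B
    rw [h00]; exact h1
  · exact h3
  · change ‖(k : M2) 1 0‖ ≤ B
    rw [h10, norm_zero]; exact hB
  · change ‖(k : M2) 1 1‖ ≤ B
    rw [h11]; exact h2

/-- US in the frame `1` and the direction `e₁`: the normal form frame is bounded.

Let `e(y,φ) ≤ C` for all unit `φ`, `e(y,e₁) ≥ ε`, and let `k, lam, P` be as in `normal_form_scaled`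
at `(y, e₁, t0)` (`k e₁ = lam e₁`, `‖lam‖² = e(y,e₁)`, `cj k P = P0`, visibility radius `c`). Then
`‖b‖ ≤ max (√(2C)) (1/(c √ε))` for `b = k₀₁`.

Proof. `k e₂ = (b, 1/lam)`. Suppose `‖b‖ > 1/(c√ε) ≥ 1/(c ‖lam‖)`. For `ψ' = (lam/b) e₂`:
`lam⁻¹ k ψ' = (1, 1/(b lam))`, at distance `1/‖b lam‖ < c` from `e₁`. With `g = 1`:
`SVis G y ψ' P` (`pmv_one`, `ac_one`), so `‖qP P ψ'‖ ≤ e(y,ψ') = ‖lam/b‖² e(y,e₂) ≤ ‖lam‖² C/‖b‖²`
(`SVis.le`, `eD_smul`). And `qP P ψ' = qP P0 (k ψ') = lam² qP P0 (1, 1/(b lam)) =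
lam² (-1 + 1/(b lam))`, of modulus `≥ ‖lam‖²/2` (as `1/‖b lam‖ < c ≤ 1/8`). So
`‖b‖² ≤ 2C`. -/
theorem us_bound (hc : Cst r0 L) {c C Cv ε : ℝ} (hc0 : 0 < c) (hc1 : c ≤ 1 / 8) (hε : 0 < ε)
    {E : Type u} [TopologicalSpace E] [T2Space E] (G : Geo E r0 L) (y : E) (k : SL) (lam : ℂ)
    (P : M2) (hC : ∀ φ : V, nsq φ = 1 → eD G.D y φ ≤ C) (he : ε ≤ eD G.D y e1)
    (hl : ‖lam‖ ^ 2 = eD G.D y e1) (hk : (k : M2) *ᵥ e1 = lam • e1)
    (hP : cj k P = !![0, 0; -1, 1]) (hPl : IsPl P)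
    (hv : ∀ ψ' : V, vn (lam⁻¹ • ((k : M2) *ᵥ ψ') - e1) < c → SVis G y ψ' P Cv) :
    ‖(k : M2) 0 1‖ ≤ max (Real.sqrt (2 * C)) (1 / (c * Real.sqrt ε)) := by
  obtain ⟨h00, h10, h11, hlam⟩ := u1_entries hk
  by_contra hcon
  push Not at hcon
  set b : ℂ := (k : M2) 0 1 with hb
  have hb1 : Real.sqrt (2 * C) < ‖b‖ := lt_of_le_of_lt (le_max_left _ _) hcon
  have hb2 : 1 / (c * Real.sqrt ε) < ‖b‖ := lt_of_le_of_lt (le_max_right _ _) hcon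
  have hsε : 0 < Real.sqrt ε := Real.sqrt_pos.mpr hε
  have hbpos : 0 < ‖b‖ := lt_of_le_of_lt (Real.sqrt_nonneg _) hb1
  have hbne : b ≠ 0 := norm_pos_iff.mp hbpos
  have hlpos : 0 < ‖lam‖ := norm_pos_iff.mpr hlam
  have hle : Real.sqrt ε ≤ ‖lam‖ := by
    rw [Real.sqrt_le_left hlpos.le, hl]
    exact he
  have hz : ‖(b * lam)⁻¹‖ < c := by
    rw [norm_inv, norm_mul]
    rw [inv_lt_comm₀ (mul_pos hbpos hlpos) hc0]
    have h1 : 1 / (c * Real.sqrt ε) * ‖lam‖ < ‖b‖ * ‖lam‖ := mul_lt_mul_of_pos_right hb2 hlpos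
    have h2 : c⁻¹ ≤ 1 / (c * Real.sqrt ε) * ‖lam‖ := by
      have h3 : 1 / (c * Real.sqrt ε) * Real.sqrt ε ≤ 1 / (c * Real.sqrt ε) * ‖lam‖ :=
        mul_le_mul_of_nonneg_left hle (by positivity)
      have h4 : 1 / (c * Real.sqrt ε) * Real.sqrt ε = c⁻¹ := by
        field_simp
      rw [h4] at h3
      exact h3
    linarith
  set ψ' : V := (lam / b) • e2 with hψ'
  have hkψ : (k : M2) *ᵥ ψ' = lam • ![1, (b * lam)⁻¹] := by
    rw [hψ', Matrix.mulVec_smul, u1_mulVec_e2, h11, ← hb]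
    ext i
    fin_cases i
    · simp
      field_simp
    · simp
      field_simp
  have hvis : SVis G y ψ' P Cv := by
    apply hv
    have : lam⁻¹ • ((k : M2) *ᵥ ψ') - e1 = ![0, (b * lam)⁻¹] := by
      rw [hkψ, smul_smul, inv_mul_cancel₀ hlam, one_smul]
      ext i
      fin_cases i <;> simp [e1]
    rw [this, u1_vn_snd]
    exact hz
  have h1 : ‖qP P ψ'‖ ≤ eD G.D y ψ' := hvis.le hc
  have h2 : eD G.D y ψ' ≤ ‖lam / b‖ ^ 2 * C := by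
    rw [hψ', eD_smul]
    exact mul_le_mul_of_nonneg_left (hC e2 u1_nsq_e2) (by positivity)
  have h3 : qP P ψ' = lam ^ 2 * (-1 + (b * lam)⁻¹) := by
    rw [← qP_cj k P ψ', hP, hkψ, qP_smul, qP_eq]
    simp
  have h4 : ‖lam‖ ^ 2 / 2 ≤ ‖qP P ψ'‖ := by
    rw [h3, norm_mul, norm_pow]
    have h5 : 1 - ‖(b * lam)⁻¹‖ ≤ ‖-1 + (b * lam)⁻¹‖ := by
      have := norm_sub_norm_le (1 : ℂ) ((b * lam)⁻¹)
      rw [norm_one] at this
      have h6 : ‖(1 : ℂ) - (b * lam)⁻¹‖ = ‖-1 + (b * lam)⁻¹‖ := by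
        rw [← norm_neg]
        congr 1
        ring
      rw [h6] at this
      exact this
    have h7 : (1:ℝ) / 2 ≤ ‖-1 + (b * lam)⁻¹‖ := by linarith
    have h8 : 0 ≤ ‖lam‖ ^ 2 := by positivity
    nlinarith [mul_le_mul_of_nonneg_left h7 h8]
  have h5 : ‖lam‖ ^ 2 / 2 ≤ ‖lam‖ ^ 2 / ‖b‖ ^ 2 * C := by
    have : ‖lam / b‖ ^ 2 = ‖lam‖ ^ 2 / ‖b‖ ^ 2 := by
      rw [norm_div, div_pow]
    rw [this] at h2
    linarith
  have h6 : ‖b‖ ^ 2 ≤ 2 * C := by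
    have hl2 : 0 < ‖lam‖ ^ 2 := by positivity
    have hb3 : 0 < ‖b‖ ^ 2 := by positivity
    have h7 : ‖lam‖ ^ 2 / ‖b‖ ^ 2 * C = ‖lam‖ ^ 2 * (C / ‖b‖ ^ 2) := by ring
    rw [h7] at h5
    have h8 : (1:ℝ) / 2 ≤ C / ‖b‖ ^ 2 := by
      by_contra hn
      push Not at hn
      have := mul_lt_mul_of_pos_left hn hl2
      linarith
    rw [div_le_div_iff₀ two_pos hb3] at h8
    linarith
  have h7 : ‖b‖ ≤ Real.sqrt (2 * C) := Real.le_sqrt_of_sq_le h6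
  linarith

/-- `uniform_support_e1` together with a free ball. -/
theorem u1_support_e1 (hc : Cst r0 L) (C : ℝ) {ε : ℝ} (hε : 0 < ε) :
    ∃ c > 0, ∃ C' > 0, ∀ (E : Type u)
    [TopologicalSpace E] [T2Space E] (G : Geo E r0 L) (y : E) (t0 : ℂ),
    mD G.D y 1 ≤ C → ε ≤ eD G.D y e1 → ‖t0‖ * eD G.D y e1 = 1 → t0 • nn e1 ∉ St G.D y →
    FB G.D y 1 c ∧ ∃ P : M2, IsPl P ∧ nm P ≤ C' ∧ qP P e1 * t0 = -1 ∧
      ∀ (g : SL) (ψ' : V), nm ((g : M2) - 1) < c → vn (ψ' - e1) < c →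
        SVis G (ac G.D y g) ψ' (pmv P g) C' := by
  obtain ⟨c0, hc0, hc08, C0, hC0, H⟩ := normal_form_scaled.{u} hc
  have hsε : 0 < Real.sqrt ε := Real.sqrt_pos.mpr hε
  obtain ⟨B, hBpos, hB1, hB2, hB3⟩ : ∃ B : ℝ, 0 < B ∧ Real.sqrt C ≤ B ∧ 1 / Real.sqrt ε ≤ B ∧
      max (Real.sqrt (2 * C)) (1 / (c0 * Real.sqrt ε)) ≤ B := by
    refine ⟨Real.sqrt C + 1 / Real.sqrt ε + max (Real.sqrt (2 * C)) (1 / (c0 * Real.sqrt ε)),
      ?_, ?_, ?_, ?_⟩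
    all_goals
      have a1 : 0 ≤ Real.sqrt C := Real.sqrt_nonneg _
      have a2 : 0 < 1 / Real.sqrt ε := by positivity
      have a3 : 0 ≤ max (Real.sqrt (2 * C)) (1 / (c0 * Real.sqrt ε)) :=
        le_trans (Real.sqrt_nonneg _) (le_max_left _ _)
      linarith
  have hB2pos : 0 < B ^ 2 := by positivity
  refine ⟨c0 / (4 * B ^ 2), by positivity, 8 * B ^ 2 + C0, by positivity, ?_⟩
  intro E _ _ G y t0 hm he ht hn
  have hepos : 0 < eD G.D y e1 := lt_of_lt_of_le hε he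
  obtain ⟨k, lam, P, hlt, hk, hP, hPl, hq, hFB, hv⟩ := H E G y e1 hepos t0 ht hn
  obtain ⟨h00, h10, h11, hlam⟩ := u1_entries hk
  have hlpos : 0 < ‖lam‖ := norm_pos_iff.mpr hlam
  have hl : ‖lam‖ ^ 2 = eD G.D y e1 := by
    have h1 : ‖lam‖ ^ 2 * ‖t0‖ = 1 := by
      rw [← norm_pow, ← norm_mul, hlt, norm_one]
    have ht0 : ‖t0‖ ≠ 0 := by
      intro h
      rw [h, mul_zero] at h1
      exact zero_ne_one h1
    have h2 : ‖lam‖ ^ 2 * ‖t0‖ = eD G.D y e1 * ‖t0‖ := by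
      rw [h1, mul_comm, ht]
    exact mul_right_cancel₀ ht0 h2
  have hCall : ∀ φ : V, nsq φ = 1 → eD G.D y φ ≤ C := by
    intro φ hφ
    have := eD_le_mD hc G y 1 φ
    rw [inv_one, Matrix.SpecialLinearGroup.coe_one, Matrix.one_mulVec, hφ, mul_one] at this
    exact this.trans hm
  have heC : eD G.D y e1 ≤ C := hCall e1 u1_nsq_e1
  have hl1 : ‖lam‖ ≤ B := by
    have : ‖lam‖ ≤ Real.sqrt C := Real.le_sqrt_of_sq_le (by rw [hl]; exact heC)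
    exact this.trans hB1
  have hl2 : ‖lam⁻¹‖ ≤ B := by
    have h1 : Real.sqrt ε ≤ ‖lam‖ := by
      rw [Real.sqrt_le_left hlpos.le, hl]
      exact he
    rw [norm_inv]
    have h2 : ‖lam‖⁻¹ ≤ (Real.sqrt ε)⁻¹ := inv_anti₀ hsε h1
    rw [← one_div (Real.sqrt ε)] at h2
    exact h2.trans hB2
  have hball : ∀ w ∈ Ioc (0:ℝ) 1, True := fun _ _ => trivial
  have hFB1 : FB G.D y k c0 := by
    have := hFB 1 ⟨zero_lt_one, le_refl 1⟩
    simpa [uni_zero, ac_one G.hD, dg_zero] using this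
  have hb : ‖(k : M2) 0 1‖ ≤ B := by
    refine le_trans ?_ hB3
    refine us_bound hc hc0 hc08 hε G y k lam P hCall he hl hk hP hPl (Cv := C0) ?_
    intro ψ' hψ'
    have h1 := hv 1 ψ' (by
      rw [Matrix.SpecialLinearGroup.coe_one, sub_self, cj_zero, nm_zero]
      exact hc0) hψ'
    rw [ac_one G.hD, pmv_one hPl] at h1
    exact h1
  have hnk : nm (k : M2) ≤ 2 * B := nm_upper_le hk hBpos.le hl1 hl2 hb
  have hnk2 : nm (k : M2) ^ 2 ≤ 4 * B ^ 2 := by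
    have h0 := nm_nonneg (k : M2)
    nlinarith [mul_le_mul hnk hnk h0 (by positivity : (0:ℝ) ≤ 2 * B)]
  have hcj : ∀ X : M2, nm X < c0 / (4 * B ^ 2) → nm (cj k X) < c0 := by
    intro X hX
    have h1 := nm_cj_le k X
    have h2 : nm (k : M2) ^ 2 * nm X ≤ 4 * B ^ 2 * nm X :=
      mul_le_mul_of_nonneg_right hnk2 (nm_nonneg X)
    have h3 : 4 * B ^ 2 * nm X < c0 := by
      rw [lt_div_iff₀ (by positivity)] at hX
      linarith
    linarith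
  refine ⟨?_, P, hPl, ?_, hq, ?_⟩
  · intro X hX
    rw [one_cj] at hX
    exact hFB1 X (hcj X hX)
  · have h1 : P = cj k⁻¹ (cj k P) := by
      rw [cj_cj, inv_mul_cancel, one_cj]
    have h2 := nm_cj_le k⁻¹ (cj k P)
    rw [← h1, nm_inv, hP] at h2
    have h3 : nm (k : M2) ^ 2 * nm (!![0, 0; -1, 1] : M2) ≤ 4 * B ^ 2 * 2 :=
      mul_le_mul hnk2 u1_nm_P0 (nm_nonneg _) (by positivity)
    linarith
  · intro g ψ' hg hψ'
    refine SVis.mono (hv g ψ' (hcj _ hg) ?_) hC0.le (by linarith)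
    have h1 : lam⁻¹ • ((k : M2) *ᵥ ψ') - e1 = lam⁻¹ • ((k : M2) *ᵥ (ψ' - e1)) := by
      rw [Matrix.mulVec_sub, smul_sub, hk, smul_smul, inv_mul_cancel₀ hlam, one_smul]
    rw [h1, vn_smul]
    have h2 := vn_mulVec_le (k : M2) (ψ' - e1)
    have h3 : nm (k : M2) * vn (ψ' - e1) ≤ 2 * B * vn (ψ' - e1) :=
      mul_le_mul_of_nonneg_right hnk (vn_nonneg _)
    have h4 : ‖lam⁻¹‖ * vn ((k : M2) *ᵥ (ψ' - e1)) ≤ B * (2 * B * vn (ψ' - e1)) :=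
      mul_le_mul hl2 (h2.trans h3) (vn_nonneg _) hBpos.le
    have h5 : 4 * B ^ 2 * vn (ψ' - e1) < c0 := by
      rw [lt_div_iff₀ (by positivity)] at hψ'
      linarith
    have h6 : 0 ≤ B ^ 2 * vn (ψ' - e1) := mul_nonneg (by positivity) (vn_nonneg _)
    nlinarith [h4, h5, h6]

/-- Uniform supports in the frame `1`, direction `e₁`.

Proof. `normal_form_scaled` at `(y, e₁, t0)`; `‖lam‖² = 1/‖t0‖ = e(y,e₁) ∈ [ε, C]`; `us_bound` and
`nm_upper_le` give `|k| ≤ B(C,ε)`. Then `|P| = |cj k⁻¹ P0| ≤ 2 B²` (`nm_cj_le`, `nm_inv`,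
`|P0| = √2`), and `|g-1| < c'` implies `|g-1|_k ≤ B² c' < c`, `|ψ'-e₁| < c'` implies
`|lam⁻¹ k ψ' - e₁| = |lam⁻¹ k (ψ' - e₁)| ≤ B c'/√ε < c`. Finally `qP P e1 * t0 = -1`. -/
theorem uniform_support_e1 (hc : Cst r0 L) (C : ℝ) {ε : ℝ} (hε : 0 < ε) :
    ∃ c > 0, ∃ C' > 0, ∀ (E : Type u)
    [TopologicalSpace E] [T2Space E] (G : Geo E r0 L) (y : E) (t0 : ℂ),
    mD G.D y 1 ≤ C → ε ≤ eD G.D y e1 → ‖t0‖ * eD G.D y e1 = 1 → t0 • nn e1 ∉ St G.D y →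
    ∃ P : M2, IsPl P ∧ nm P ≤ C' ∧ qP P e1 * t0 = -1 ∧
      ∀ (g : SL) (ψ' : V), nm ((g : M2) - 1) < c → vn (ψ' - e1) < c →
        SVis G (ac G.D y g) ψ' (pmv P g) C' := by
  obtain ⟨c, hc0, C', hC', H⟩ := u1_support_e1.{u} hc C hε
  refine ⟨c, hc0, C', hC', ?_⟩
  intro E _ _ G y t0 h1 h2 h3 h4
  exact (H E G y t0 h1 h2 h3 h4).2

/-- (US), general frame and direction.

Proof. Choose a unitary `u` with `u ψ = e₁` (`exists_unitary_e1`) and apply `uniform_support_e1` to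
`G.conj (u k)` (`mD_conj`, `mD_unitary`, `eD_conj`); translate with `ac_conj` (membership: the
statement only concerns `g` with `g - 1` in a free ball; if needed shrink `c` using the free ball of
the frame: `normal_form_scaled` with `w = 1` gives a free ball in the bounded frame `k`),
`SVis_conj`, `cj_pmv`, `nm_cj_unitary`. -/
theorem uniform_support (hc : Cst r0 L) (C : ℝ) {ε : ℝ} (hε : 0 < ε) :
    ∃ c > 0, ∃ C' > 0, ∀ (E : Type u)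
    [TopologicalSpace E] [T2Space E] (G : Geo E r0 L) (y : E) (k : SL) (ψ : V) (t0 : ℂ),
    mD G.D y k ≤ C → nsq ψ = 1 → ε ≤ eD G.D y (((k⁻¹ : SL) : M2) *ᵥ ψ) →
    ‖t0‖ * eD G.D y (((k⁻¹ : SL) : M2) *ᵥ ψ) = 1 →
    t0 • nn (((k⁻¹ : SL) : M2) *ᵥ ψ) ∉ St G.D y →
    ∃ P : M2, IsPl P ∧ nm (cj k P) ≤ C' ∧ qP (cj k P) ψ * t0 = -1 ∧
      ∀ (g : SL) (ψ' : V), nm (cj k ((g : M2) - 1)) < c → vn (ψ' - ψ) < c →
        SVis G (ac G.D y g) (((k⁻¹ : SL) : M2) *ᵥ ψ') (pmv P g) C' := by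
  obtain ⟨c, hc0, C', hC', H⟩ := u1_support_e1.{u} hc C hε
  refine ⟨c, hc0, C', hC', ?_⟩
  intro E _ _ G y k ψ t0 hm hψ he ht hn
  obtain ⟨u, hu, huψ⟩ := exists_unitary_e1 hψ
  have huinv : ((u⁻¹ : SL) : M2) *ᵥ e1 = ψ := by
    rw [← huψ, Matrix.mulVec_mulVec, coe_inv_mul, Matrix.one_mulVec]
  have hKinv : (((u * k)⁻¹ : SL) : M2) *ᵥ e1 = ((k⁻¹ : SL) : M2) *ᵥ ψ := by
    rw [_root_.mul_inv_rev, Matrix.SpecialLinearGroup.coe_mul, ← Matrix.mulVec_mulVec, huinv]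
  have hm' : mD (G.conj (u * k)).D y 1 ≤ C := by
    have h1 : mD (G.conj (u * k)).D y 1 = mD G.D y (1 * (u * k)) := mD_conj (D := G.D) (u * k) 1 y
    rw [h1, one_mul, mD_unitary hc G y k u hu]
    exact hm
  have he' : eD (G.conj (u * k)).D y e1 = eD G.D y (((k⁻¹ : SL) : M2) *ᵥ ψ) := by
    have h1 : eD (G.conj (u * k)).D y e1 = eD G.D y ((((u * k)⁻¹ : SL) : M2) *ᵥ e1) :=
      eD_conj (D := G.D) (u * k) y e1
    rw [h1, hKinv]
  have hn' : t0 • nn e1 ∉ St (G.conj (u * k)).D y := by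
    intro h
    have h1 : cj (u * k)⁻¹ (t0 • nn e1) ∈ St G.D y := (mem_St_conj (D := G.D) (u * k)).mp h
    rw [cj_smul, cj_nn, hKinv] at h1
    exact hn h1
  obtain ⟨hFB, P', hPl, hnP, hqP, hvis⟩ := H E (G.conj (u * k)) y t0 hm' (by rw [he']; exact he)
    (by rw [he']; exact ht) hn'
  have hFBK : FB G.D y (u * k) c := by
    have h1 : FB G.D y (1 * (u * k)) c := (FB_conj (D := G.D) (u * k) 1 y c).mp hFB
    rw [one_mul] at h1
    exact h1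
  have hkK : k * (u * k)⁻¹ = u⁻¹ := by group
  have hcjP : cj k (cj (u * k)⁻¹ P') = cj u⁻¹ P' := by rw [cj_cj, hkK]
  refine ⟨cj (u * k)⁻¹ P', hPl.conj _, ?_, ?_, ?_⟩
  · rw [hcjP, nm_cj_unitary (IsU_inv hu)]
    exact hnP
  · rw [hcjP, ← huinv, qP_cj]
    exact hqP
  · intro g ψ' hg hψ'
    have hcjK : ∀ X : M2, nm (cj (u * k) X) = nm (cj k X) := by
      intro X
      rw [← cj_cj, nm_cj_unitary hu]
    have hgK : nm (cj (u * k) ((g : M2) - 1)) < c := by rw [hcjK]; exact hg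
    have hcoe : cj (u * k) ((g : M2) - 1) = (((u * k) * g * (u * k)⁻¹ : SL) : M2) - 1 := by
      rw [cj_sub, cj_one, cj_coe]
    have hg' : nm ((((u * k) * g * (u * k)⁻¹ : SL) : M2) - 1) < c := by
      rw [← hcoe]; exact hgK
    have hψ'' : vn ((u : M2) *ᵥ ψ' - e1) < c := by
      have h1 : (u : M2) *ᵥ ψ' - e1 = (u : M2) *ᵥ (ψ' - ψ) := by
        rw [Matrix.mulVec_sub, huψ]
      have h2 : vn ((u : M2) *ᵥ (ψ' - ψ)) = vn (ψ' - ψ) := by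
        unfold vn
        rw [nsq_mulVec_unitary hu]
      rw [h1, h2]
      exact hψ'
    have h1 := hvis ((u * k) * g * (u * k)⁻¹) ((u : M2) *ᵥ ψ') hg' hψ''
    have hmem : cj (u * k)⁻¹ ((((u * k) * g * (u * k)⁻¹ : SL) : M2) - 1) ∈ St G.D y := by
      rw [← hcoe, cj_cj, inv_mul_cancel, one_cj]
      exact hFBK _ hgK
    have hac : ac (G.conj (u * k)).D y ((u * k) * g * (u * k)⁻¹) = ac G.D y g := by
      have h2 : ac (G.conj (u * k)).D y ((u * k) * g * (u * k)⁻¹) =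
          ac G.D y ((u * k)⁻¹ * ((u * k) * g * (u * k)⁻¹) * (u * k)) :=
        ac_conj (D := G.D) G.hD (u * k) hmem
      rw [h2]
      congr 1
      group
    rw [hac] at h1
    have hpm : pmv P' ((u * k) * g * (u * k)⁻¹) = cj (u * k) (pmv (cj (u * k)⁻¹ P') g) := by
      rw [cj_pmv, cj_cj, mul_inv_cancel, one_cj]
    have hvec : (u : M2) *ᵥ ψ' = ((u * k : SL) : M2) *ᵥ (((k⁻¹ : SL) : M2) *ᵥ ψ') := by
      rw [Matrix.mulVec_mulVec, ← Matrix.SpecialLinearGroup.coe_mul, mul_assoc, mul_inv_cancel,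
        mul_one]
    rw [hpm, hvec] at h1
    exact (SVis_conj G (u * k) _ _ _ _).mp h1

end HRK
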