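import Pool.Agent.HRK.N3

/-!
# HRK-N4 : unitary elements and decompositions
-/

namespace HRK

open Set Filter Topology Matrix

/-- The unitary element taking a unit vector to `e₁`.

Proof. `u = [[conj ψ₀, conj ψ₁], [-ψ₁, ψ₀]]`, `det u = |ψ|^2 = 1`. -/
theorem exists_unitary_e1 {ψ : V} (h : nsq ψ = 1) : ∃ u : SL, IsU u ∧ (u : M2) *ᵥ ψ = e1 := by
  have hn := nsq_eq ψ
  rw [h] at hn
  have hc : (starRingEnd ℂ) (ψ 0) * ψ 0 + (starRingEnd ℂ) (ψ 1) * ψ 1 = 1 := by
    rw [← Complex.normSq_eq_conj_mul_self, ← Complex.normSq_eq_conj_mul_self]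
    exact_mod_cast hn.symm
  refine ⟨⟨!![(starRingEnd ℂ) (ψ 0), (starRingEnd ℂ) (ψ 1); -(ψ 1), ψ 0], ?_⟩, ?_, ?_⟩
  · rw [Matrix.det_fin_two_of]
    linear_combination hc
  · unfold IsU
    ext i j
    fin_cases i <;> fin_cases j
    · simp [Matrix.mul_apply, Fin.sum_univ_two, Matrix.conjTranspose_apply]
      linear_combination hc
    · simp [Matrix.mul_apply, Fin.sum_univ_two, Matrix.conjTranspose_apply]
      ring
    · simp [Matrix.mul_apply, Fin.sum_univ_two, Matrix.conjTranspose_apply]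
      ring
    · simp [Matrix.mul_apply, Fin.sum_univ_two, Matrix.conjTranspose_apply]
      linear_combination hc
  · ext i
    fin_cases i
    · simp [Matrix.mulVec, dotProduct, Fin.sum_univ_two, e1]
      linear_combination hc
    · simp [Matrix.mulVec, dotProduct, Fin.sum_univ_two, e1]
      ring

/-- For `ψ ≠ 0` and every `lam ≠ 0` there is `k ∈ SL` with `k ψ = lam e₁`. Proof. `ψ = |ψ| u⁻¹ e₁`
for a unitary `u`, and `k = diag (lam/|ψ|, |ψ|/lam) u`. -/
theorem exists_SL_e1 {ψ : V} (h : ψ ≠ 0) {lam : ℂ} (hl : lam ≠ 0) :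
    ∃ k : SL, (k : M2) *ᵥ ψ = lam • e1 := by
  have hv : vn ψ ≠ 0 := fun h0 => h (vn_eq_zero.mp h0)
  have hvc : ((vn ψ : ℝ) : ℂ) ≠ 0 := by exact_mod_cast hv
  have hn : nsq ((((vn ψ : ℝ) : ℂ)⁻¹) • ψ) = 1 := by
    rw [nsq_smul, ← vn_sq, norm_inv, Complex.norm_real, Real.norm_eq_abs, inv_pow, sq_abs]
    exact inv_mul_cancel₀ (pow_ne_zero 2 hv)
  obtain ⟨u, _, hu⟩ := exists_unitary_e1 hn
  have hu2 : (u : M2) *ᵥ ψ = ((vn ψ : ℝ) : ℂ) • e1 := by
    rw [← hu, Matrix.mulVec_smul, smul_smul, mul_inv_cancel₀ hvc, one_smul]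
  obtain ⟨w, hw⟩ : ∃ w : SL, (w : M2) = !![lam / ((vn ψ : ℝ) : ℂ), 0;
      0, ((vn ψ : ℝ) : ℂ) / lam] :=
    ⟨⟨!![lam / ((vn ψ : ℝ) : ℂ), 0; 0, ((vn ψ : ℝ) : ℂ) / lam], by
      rw [Matrix.det_fin_two_of, mul_zero, sub_zero]
      field_simp⟩, rfl⟩
  refine ⟨w * u, ?_⟩
  rw [Matrix.SpecialLinearGroup.coe_mul, ← Matrix.mulVec_mulVec, hu2, hw]
  ext i
  fin_cases i
  · simp [Matrix.mulVec, dotProduct, Fin.sum_univ_two, e1]
    field_simp
  · simp [Matrix.mulVec, dotProduct, Fin.sum_univ_two, e1]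

/-- Diagonalisation of a form by a unitary element.

Proof. Spectral theorem for the Hermitian matrix `J = k^* k`: there is a unit vector `ψ` with
`J ψ = μ ψ`, `μ ≥ 1` the larger eigenvalue (`μ μ' = det J = 1`). For instance take `ψ` a unit vector
maximising `hf J` on the sphere (compactness), or use `Matrix.IsHermitian.spectral_theorem`. With
`u` from `exists_unitary_e1 ψ`: `fcj u J` is Hermitian with first column `(μ, 0)` and determinant
`1`, so it is `diag(μ, 1/μ)`. -/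
theorem exists_diag_form {J : M2} {k : SL} (h : Fr J k) :
    ∃ (u : SL) (μ : ℝ), IsU u ∧ 1 ≤ μ ∧ fcj u J = !![(μ : ℂ), 0; 0, ((1 / μ : ℝ) : ℂ)] := by
  have hH := h.isHermitian
  have hdet := h.det_eq
  obtain ⟨hpos, him⟩ := h.pos
  have h00 : J 0 0 = (((J 0 0).re : ℝ) : ℂ) := by
    apply Complex.ext
    · simp
    · simp [him]
  have h11 : J 1 1 = (((J 1 1).re : ℝ) : ℂ) := by
    have h1 := hH.apply 1 1
    have h2 : (J 1 1).im = 0 := by
      have h3 := congrArg Complex.im h1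
      simp only [RCLike.star_def, Complex.conj_im] at h3
      linarith
    apply Complex.ext
    · simp
    · simp [h2]
  have h10 : J 1 0 = (starRingEnd ℂ) (J 0 1) := (hH.apply 1 0).symm
  obtain ⟨a, ha⟩ : ∃ a : ℝ, a = (J 0 0).re := ⟨_, rfl⟩
  obtain ⟨d, hd⟩ : ∃ d : ℝ, d = (J 1 1).re := ⟨_, rfl⟩
  rw [← ha] at h00 hpos
  rw [← hd] at h11
  rw [Matrix.det_fin_two, h00, h11, h10, Complex.mul_conj] at hdet
  have hdet' : a * d - Complex.normSq (J 0 1) = 1 := by exact_mod_cast hdet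
  have hb := Complex.normSq_nonneg (J 0 1)
  have hdpos : 0 < d := by
    by_contra hneg
    push Not at hneg
    nlinarith
  have hdisc : 0 ≤ (a + d) ^ 2 - 4 := by nlinarith [sq_nonneg (a - d)]
  have hτ : 2 ≤ a + d := by
    by_contra hneg
    push Not at hneg
    nlinarith
  obtain ⟨r, hr⟩ : ∃ r : ℝ, r = Real.sqrt ((a + d) ^ 2 - 4) := ⟨_, rfl⟩
  have hr0 : 0 ≤ r := by rw [hr]; exact Real.sqrt_nonneg _
  have hr2 : r ^ 2 = (a + d) ^ 2 - 4 := by rw [hr]; exact Real.sq_sqrt hdisc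
  obtain ⟨μ, hμ⟩ : ∃ μ : ℝ, μ = (a + d + r) / 2 := ⟨_, rfl⟩
  have hμ1 : 1 ≤ μ := by rw [hμ]; linarith
  have hμq : μ ^ 2 - (a + d) * μ + 1 = 0 := by
    rw [hμ]
    nlinarith
  have hdetz : (J - (μ : ℂ) • (1 : M2)).det = 0 := by
    rw [Matrix.det_fin_two]
    simp only [Matrix.sub_apply, Matrix.smul_apply, Matrix.one_apply_eq, smul_eq_mul, mul_one,
      Matrix.one_apply_ne (show (0 : Fin 2) ≠ 1 by decide),
      Matrix.one_apply_ne (show (1 : Fin 2) ≠ 0 by decide), mul_zero, sub_zero]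
    rw [h10, Complex.mul_conj, h00, h11]
    have h5 : (a - μ) * (d - μ) - Complex.normSq (J 0 1) = 0 := by
      linear_combination hμq + hdet'
    exact_mod_cast h5
  obtain ⟨v, hv0, hv⟩ := Matrix.exists_mulVec_eq_zero_iff.mpr hdetz
  have hvn : vn v ≠ 0 := fun h0 => hv0 (vn_eq_zero.mp h0)
  have hvc : ((vn v : ℝ) : ℂ) ≠ 0 := by exact_mod_cast hvn
  have hn : nsq ((((vn v : ℝ) : ℂ)⁻¹) • v) = 1 := by
    rw [nsq_smul, ← vn_sq, norm_inv, Complex.norm_real, Real.norm_eq_abs, inv_pow, sq_abs]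
    exact inv_mul_cancel₀ (pow_ne_zero 2 hvn)
  obtain ⟨u, hU, hu⟩ := exists_unitary_e1 hn
  have hJv : J *ᵥ v = (μ : ℂ) • v := by
    rw [Matrix.sub_mulVec, Matrix.smul_mulVec, Matrix.one_mulVec, sub_eq_zero] at hv
    exact hv
  refine ⟨u, μ, hU, hμ1, ?_⟩
  have hinv : ((u⁻¹ : SL) : M2) *ᵥ e1 = (((vn v : ℝ) : ℂ)⁻¹) • v := by
    rw [← hu, Matrix.mulVec_mulVec, coe_inv_mul, Matrix.one_mulVec]
  have huH : (((u⁻¹ : SL) : M2))ᴴ = (u : M2) := by
    have h6 : ((u⁻¹ : SL) : M2) = (u : M2)ᴴ := by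
      calc ((u⁻¹ : SL) : M2) = ((u : M2)ᴴ * (u : M2)) * ((u⁻¹ : SL) : M2) := by
            rw [hU, Matrix.one_mul]
        _ = (u : M2)ᴴ := by rw [Matrix.mul_assoc, coe_mul_inv, Matrix.mul_one]
    rw [h6, Matrix.conjTranspose_conjTranspose]
  have hcol : fcj u J *ᵥ e1 = (μ : ℂ) • e1 := by
    unfold fcj
    rw [← Matrix.mulVec_mulVec, hinv, ← Matrix.mulVec_mulVec, Matrix.mulVec_smul, hJv, huH,
      smul_comm, Matrix.mulVec_smul, hu]
  have hf := h.conj u
  have hfH := hf.isHermitian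
  have hfd := hf.det_eq
  have e00 : fcj u J 0 0 = (μ : ℂ) := by
    have h7 := congrFun hcol 0
    simpa [Matrix.mulVec, dotProduct, Fin.sum_univ_two, e1] using h7
  have e10 : fcj u J 1 0 = 0 := by
    have h7 := congrFun hcol 1
    simpa [Matrix.mulVec, dotProduct, Fin.sum_univ_two, e1] using h7
  have e01 : fcj u J 0 1 = 0 := by
    have h8 := hfH.apply 0 1
    rw [e10] at h8
    rw [← h8]
    simp
  have hμ0 : (μ : ℂ) ≠ 0 := by
    have : μ ≠ 0 := by linarith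
    exact_mod_cast this
  have e11 : fcj u J 1 1 = ((1 / μ : ℝ) : ℂ) := by
    rw [Matrix.det_fin_two, e00, e01, e10] at hfd
    push_cast
    rw [eq_div_iff hμ0]
    linear_combination hfd
  ext i j
  fin_cases i <;> fin_cases j
  · simpa using e00
  · simpa using e01
  · simpa using e10
  · simpa using e11

/-- KAK decomposition. Proof. Apply `exists_diag_form` to `J = k^* k`: `J = u^* diag(e^s, e^-s) u`
with `μ = e^s`, so `dg s * u` is also a frame of `J` and `k = w * (dg s * u)` with `w` unitary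
(`Fr.unitary`). -/
theorem exists_KAK (k : SL) : ∃ (w u : SL) (s : ℝ), IsU w ∧ IsU u ∧ 0 ≤ s ∧ k = w * dg s * u := by
  obtain ⟨J, hJ⟩ : ∃ J : M2, J = (k : M2)ᴴ * (k : M2) := ⟨_, rfl⟩
  have h : Fr J k := hJ
  obtain ⟨u, μ, hU, hμ, hD⟩ := exists_diag_form h
  have hμ0 : 0 < μ := by linarith
  have hfr : Fr (fcj u J) (dg (Real.log μ)) := by
    unfold Fr
    rw [hD]
    have ha : Real.exp (Real.log μ / 2) * Real.exp (Real.log μ / 2) = μ := by
      rw [← Real.exp_add, add_halves, Real.exp_log hμ0]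
    have hb : Real.exp (-(Real.log μ / 2)) * Real.exp (-(Real.log μ / 2)) = 1 / μ := by
      rw [← Real.exp_add, ← neg_add, add_halves, Real.exp_neg, Real.exp_log hμ0, one_div]
    have hac : ((Real.exp (Real.log μ / 2) : ℝ) : ℂ) * ((Real.exp (Real.log μ / 2) : ℝ) : ℂ)
        = (μ : ℂ) := by exact_mod_cast ha
    have hbc : ((Real.exp (-(Real.log μ / 2)) : ℝ) : ℂ)
        * ((Real.exp (-(Real.log μ / 2)) : ℝ) : ℂ) = ((1 / μ : ℝ) : ℂ) := by exact_mod_cast hb
    have hstar : (dg (Real.log μ) : M2)ᴴ = (dg (Real.log μ) : M2) := by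
      ext i j
      fin_cases i <;> fin_cases j
      · simp only [dg, Matrix.conjTranspose_apply]
        exact Complex.conj_ofReal _
      · simp [dg, Matrix.conjTranspose_apply]
      · simp [dg, Matrix.conjTranspose_apply]
      · simp only [dg, Matrix.conjTranspose_apply]
        exact Complex.conj_ofReal _
    rw [hstar]
    ext i j
    fin_cases i <;> fin_cases j
    · rw [Matrix.mul_apply, Fin.sum_univ_two]
      simp only [dg, Matrix.of_apply, Matrix.cons_val', Matrix.cons_val_zero,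
        Matrix.cons_val_one, Matrix.cons_val_fin_one, Fin.zero_eta, Fin.isValue, mul_zero,
        add_zero]
      exact hac.symm
    · rw [Matrix.mul_apply, Fin.sum_univ_two]
      simp [dg]
    · rw [Matrix.mul_apply, Fin.sum_univ_two]
      simp [dg]
    · rw [Matrix.mul_apply, Fin.sum_univ_two]
      simp only [dg, Matrix.of_apply, Matrix.cons_val', Matrix.cons_val_zero,
        Matrix.cons_val_one, Matrix.cons_val_fin_one, Fin.mk_one, Fin.isValue, mul_zero,
        zero_add]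
      exact hbc.symm
  have hfr2 : Fr J (dg (Real.log μ) * u) := hfr.of_conj
  refine ⟨k * (dg (Real.log μ) * u)⁻¹, u, Real.log μ, hfr2.unitary h, hU, Real.log_nonneg hμ, ?_⟩
  rw [mul_assoc, inv_mul_cancel_right]

/-- A variant: the ray from the frame `1` to the form `J` ends at `e₁`-infinity backwards: there is a
unitary `u` such that in the frame `u` the form `J` has `ζ = 0`, `0 < T ≤ 1`.

Proof. `exists_diag_form`: `T = 1/μ ≤ 1`. -/
theorem exists_unitary_coord {J : M2} {k : SL} (h : Fr J k) :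
    ∃ u : SL, IsU u ∧ Zc (fcj u J) = 0 ∧ Tc (fcj u J) ≤ 1 := by
  obtain ⟨u, μ, hU, hμ, hD⟩ := exists_diag_form h
  have hμ0 : 0 < μ := by linarith
  refine ⟨u, hU, ?_, ?_⟩
  · rw [hD]
    simp [Zc]
  · rw [hD]
    simp only [Tc, Matrix.of_apply, Matrix.cons_val', Matrix.cons_val_zero,
      Matrix.cons_val_fin_one, Complex.ofReal_re]
    rw [div_le_one hμ0]
    exact hμ

/-- The other direction (`T ≥ 1`). Proof. Multiply the previous `u` by `[[0,1],[-1,0]]`. -/
theorem exists_unitary_coord' {J : M2} {k : SL} (h : Fr J k) :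
    ∃ u : SL, IsU u ∧ Zc (fcj u J) = 0 ∧ 1 ≤ Tc (fcj u J) := by
  obtain ⟨u, μ, hU, hμ, hD⟩ := exists_diag_form h
  have hμ0 : 0 < μ := by linarith
  obtain ⟨w, hw⟩ : ∃ w : SL, (w : M2) = !![0, 1; -1, 0] :=
    ⟨⟨!![0, 1; -1, 0], by rw [Matrix.det_fin_two_of]; norm_num⟩, rfl⟩
  have hwi : ((w⁻¹ : SL) : M2) = !![0, -1; 1, 0] := by
    rw [coe_inv_eq, hw]
    ext i j
    fin_cases i <;> fin_cases j <;> simp
  have hwU : IsU w := by
    unfold IsU
    rw [hw]
    ext i j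
    fin_cases i <;> fin_cases j <;>
      simp [Matrix.mul_apply, Fin.sum_univ_two, Matrix.conjTranspose_apply]
  have hfin : fcj (w * u) J = !![((1 / μ : ℝ) : ℂ), 0; 0, (μ : ℂ)] := by
    rw [← fcj_fcj, hD]
    unfold fcj
    rw [hwi]
    ext i j
    fin_cases i <;> fin_cases j <;>
      simp [Matrix.mul_apply, Fin.sum_univ_two, Matrix.conjTranspose_apply]
  refine ⟨w * u, IsU_mul hwU hU, ?_, ?_⟩
  · rw [hfin]
    simp [Zc]
  · rw [hfin]
    simp only [Tc, Matrix.of_apply, Matrix.cons_val', Matrix.cons_val_zero,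
      Matrix.cons_val_fin_one, Complex.ofReal_re]
    rw [one_div_one_div]
    exact hμ

/-- transitivity of frames: every frame `k` is, up to a unitary on the left, triangular:
`k = u * (dg (-log t) * uni (-z) e1)`. Proof. `Fr.tri` for the form `k^* k` and `Fr.unitary`. -/
theorem exists_tri (k : SL) : ∃ (u : SL) (z : ℂ) (t : ℝ), IsU u ∧ 0 < t ∧
    k = u * (dg (-Real.log t) * uni (-z) e1) := by
  obtain ⟨J, hJ⟩ : ∃ J : M2, J = (k : M2)ᴴ * (k : M2) := ⟨_, rfl⟩
  have h : Fr J k := hJ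
  refine ⟨k * (dg (-Real.log (Tc J)) * uni (-(Zc J)) e1)⁻¹, Zc J, Tc J, h.tri.unitary h,
    h.Tc_pos, ?_⟩
  rw [inv_mul_cancel_right]

end HRK
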