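import Pool.Agent.HRK.K2
import Pool.Agent.HRK.E2
import Pool.Agent.HRK.J3
import Pool.Agent.HRK.N4

/-!
# HRK-U2 : good frames have free balls
-/

namespace HRK

open Set Filter Topology Matrix

universe u

variable {r0 L : ℝ}

theorem u2_fro_dg (s : ℝ) : fro (dg s : M2) = Real.exp s + Real.exp (-s) := by
  have h1 : (dg s : M2) = !![(Real.exp (s / 2) : ℂ), 0; 0, (Real.exp (-(s / 2)) : ℂ)] := rfl
  rw [fro_eq, h1]
  simp only [Matrix.of_apply, Matrix.cons_val', Matrix.cons_val_zero, Matrix.cons_val_one,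
    Matrix.cons_val_fin_one, Complex.normSq_ofReal, Complex.normSq_zero]
  rw [← Real.exp_add, ← Real.exp_add]
  have h2 : s / 2 + s / 2 = s := by ring
  have h3 : -(s / 2) + -(s / 2) = -s := by ring
  rw [h2, h3]
  ring

theorem u2_dg_mulVec (s : ℝ) :
    (dg (-s) : M2) *ᵥ e1 = ((Real.exp (-s / 2) : ℝ) : ℂ) • e1 := by
  have h1 : (dg (-s) : M2) = !![(Real.exp (-s / 2) : ℂ), 0; 0, (Real.exp (-(-s / 2)) : ℂ)] := rfl
  rw [h1]
  ext i
  fin_cases i <;> simp [Matrix.mulVec, dotProduct, e1]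

theorem u2_nsq_e1 : nsq e1 = 1 := by
  rw [nsq_eq]
  simp [e1]

/-- Good frames: if `m(y,k) ≤ C` then the ball of radius `c(C)` of the frame `k` is free.

Proof. We may assume `C ≥ 1`. Let `k'` be a frame of the form `J' = fcj k (J y)` and `u` a unitary
with `Zc (fcj u J') = 0`, `Tc (fcj u J') ≤ 1` (`exists_unitary_coord`). Put `s = log C` and
`K = dg s * (u * k)`, `G' = G.conj K`. (1) the unit null disc of direction `e₁` is free for `G'` at
`y`: `t • nn e1 ∈ St G'.D y ↔ t • nn (K⁻¹ e₁) ∈ St G.D y`, and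
`K⁻¹ e₁ = e^{-s/2} (u k)⁻¹ e₁ = k⁻¹ (C^{-1/2} u⁻¹ e₁)`, so
`eD G.D y (K⁻¹ e₁) ≤ mD G.D y k * (1/C) ≤ 1` (`eD_le_mD`), `mem_St_of_eD`. (2) Coordinates of
`fcj K (J y) = fcj (dg s) (fcj u J')` (`fcj_fcj`): `ζ = 0`, `T = C T' ≤ C` (`coord_dg`). By
`natural_ball hc C` the ball `{|X| < c}` is free for `G'`, i.e. (`FB_conj`) `FB G.D y K c`. If
`|X|_k < c/(2C)` then `|X|_K ≤ |dg s|² |X|_{uk} ≤ 2 C |X|_k < c` (`nm_cj_le`, `nm_cj_unitary`,
`|dg s|² = e^s + e^{-s} ≤ 2C`). -/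
theorem good_frame (hc : Cst r0 L) (C : ℝ) : ∃ c > 0, c ≤ 1 / 4 ∧ ∀ (E : Type u)
    [TopologicalSpace E] [T2Space E] (G : Geo E r0 L) (y : E) (k : SL),
    mD G.D y k ≤ C → FB G.D y k c := by
  have hC1 : 1 ≤ max C 1 := le_max_right _ _
  have hC0 : 0 < max C 1 := lt_of_lt_of_le one_pos hC1
  obtain ⟨c₀, hc₀, hc₀8, hnat⟩ := natural_ball.{u} (r0 := r0) (L := L) hc (max C 1)
  have hes : Real.exp (Real.log (max C 1)) = max C 1 := Real.exp_log hC0
  have hfro : nm (dg (Real.log (max C 1)) : M2) ^ 2 ≤ 2 * max C 1 := by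
    rw [nm_sq, u2_fro_dg, hes]
    have h1 : Real.exp (-(Real.log (max C 1))) ≤ 1 := by
      rw [Real.exp_le_one_iff, neg_nonpos]
      exact Real.log_nonneg hC1
    linarith
  refine ⟨c₀ / (2 * max C 1), by positivity, ?_, ?_⟩
  · rw [div_le_iff₀ (by positivity)]
    linarith
  intro E _ _ G y k hm
  obtain ⟨k0, hk0⟩ := G.form y
  have hJ' : Fr (fcj k (G.J y)) (k0 * k⁻¹) := hk0.conj k
  obtain ⟨u, hu, hZ, hT⟩ := exists_unitary_coord hJ'
  have hJu : Fr (fcj u (fcj k (G.J y))) (k0 * k⁻¹ * u⁻¹) := hJ'.conj u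
  have hdg := coord_dg hJu (Real.log (max C 1))
  have hfcj : fcj (dg (Real.log (max C 1)) * (u * k)) (G.J y) =
      fcj (dg (Real.log (max C 1))) (fcj u (fcj k (G.J y))) := by
    rw [fcj_fcj, fcj_fcj, mul_assoc]
  have hGJ : (G.conj (dg (Real.log (max C 1)) * (u * k))).J y =
      fcj (dg (Real.log (max C 1))) (fcj u (fcj k (G.J y))) := hfcj
  have hdisc : ∀ t : ℂ, ‖t‖ < 1 →
      t • nn e1 ∈ St (G.conj (dg (Real.log (max C 1)) * (u * k))).D y := by
    intro t ht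
    have h1 : t • nn e1 ∈ St (fun y => G.D y * (dg (Real.log (max C 1)) * (u * k))⁻¹) y := by
      rw [mem_St_conj, cj_smul, cj_nn]
      refine mem_St_of_eD G.hD ?_
      have h2 : ((((dg (Real.log (max C 1)) * (u * k))⁻¹ : SL) : M2)) *ᵥ e1 =
          (((u * k)⁻¹ : SL) : M2) *ᵥ ((Real.exp (-(Real.log (max C 1)) / 2) : ℂ) • e1) := by
        rw [_root_.mul_inv_rev, dg_inv, ← u2_dg_mulVec, Matrix.mulVec_mulVec,
          Matrix.SpecialLinearGroup.coe_mul]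
      rw [h2]
      have h3 := eD_le_mD hc G y (u * k) ((Real.exp (-(Real.log (max C 1)) / 2) : ℂ) • e1)
      rw [mD_unitary hc G y k u hu, nsq_smul, u2_nsq_e1, mul_one] at h3
      have h4 : ‖((Real.exp (-(Real.log (max C 1)) / 2) : ℝ) : ℂ)‖ ^ 2 = (max C 1)⁻¹ := by
        rw [Complex.norm_real, Real.norm_eq_abs, abs_of_pos (Real.exp_pos _), ← Real.exp_nat_mul]
        have h5 : ((2 : ℕ) : ℝ) * (-(Real.log (max C 1)) / 2) = -(Real.log (max C 1)) := by
          push_cast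
          ring
        rw [h5, Real.exp_neg, hes]
      rw [h4] at h3
      have h6 : mD G.D y k * (max C 1)⁻¹ ≤ 1 := by
        rw [← div_eq_mul_inv, div_le_one hC0]
        exact hm.trans (le_max_left _ _)
      have h7 := h3.trans h6
      have h8 := eD_nonneg G.D y ((((u * k)⁻¹ : SL) : M2) *ᵥ
        ((Real.exp (-(Real.log (max C 1)) / 2) : ℂ) • e1))
      calc ‖t‖ * eD G.D y ((((u * k)⁻¹ : SL) : M2) *ᵥ
            ((Real.exp (-(Real.log (max C 1)) / 2) : ℂ) • e1)) ≤ ‖t‖ * 1 :=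
            mul_le_mul_of_nonneg_left h7 (norm_nonneg t)
        _ < 1 := by rw [mul_one]; exact ht
    exact h1
  have hZ' : ‖Zc ((G.conj (dg (Real.log (max C 1)) * (u * k))).J y)‖ ≤ max C 1 := by
    rw [hGJ, hdg.1, hZ, mul_zero, norm_zero]
    exact hC0.le
  have hT' : Tc ((G.conj (dg (Real.log (max C 1)) * (u * k))).J y) ≤ max C 1 := by
    rw [hGJ, hdg.2, hes]
    nlinarith
  have hFB := (hnat E (G.conj (dg (Real.log (max C 1)) * (u * k))) y hdisc hZ' hT').1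
  have hFB' : FB G.D y (dg (Real.log (max C 1)) * (u * k)) c₀ := by
    have h1 : FB (fun y => G.D y * (dg (Real.log (max C 1)) * (u * k))⁻¹) y 1 c₀ := hFB
    rw [FB_conj, one_mul] at h1
    exact h1
  intro X hX
  refine hFB' X ?_
  have h1 : nm (cj (dg (Real.log (max C 1)) * (u * k)) X) ≤ 2 * max C 1 * nm (cj k X) := by
    rw [← cj_cj, ← cj_cj]
    refine (nm_cj_le _ _).trans ?_
    rw [nm_cj_unitary hu]
    exact mul_le_mul_of_nonneg_right hfro (nm_nonneg _)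
  have h2 : 2 * max C 1 * nm (cj k X) < c₀ := by
    rw [lt_div_iff₀ (by positivity)] at hX
    linarith
  exact lt_of_le_of_lt h1 h2

/-- crude bound at nearby points. Proof. `good_frame`, `FB_ac`, `mD_le_of_FB`. -/
theorem mD_near (hc : Cst r0 L) (C : ℝ) : ∃ c > 0, ∃ C' > 0, ∀ (E : Type u)
    [TopologicalSpace E] [T2Space E] (G : Geo E r0 L) (y : E) (k : SL),
    mD G.D y k ≤ C → ∀ g : SL, nm (cj k ((g : M2) - 1)) < c →
      mD G.D (ac G.D y g) k ≤ C' ∧ (g : M2) - 1 ∈ St G.D y ∧ ac G.D (ac G.D y g) g⁻¹ = y := by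
  obtain ⟨c₁, hc₁, hc₁4, hgood⟩ := good_frame.{u} (r0 := r0) (L := L) hc C
  refine ⟨c₁ / 4, by positivity, 1 / (c₁ / 4), by positivity, ?_⟩
  intro E _ _ G y k hm g hg
  have hF := hgood E G y k hm
  have hg' : nm (cj k ((g : M2) - 1)) < c₁ := by linarith
  exact ⟨mD_le_of_FB hc G (by positivity) (FB_ac G.hD hc₁ (by linarith) hF hg),
    hF _ hg', (ac_inv G.hD hF hg').2⟩

end HRK
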