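import Pool.Agent.HRP.EDefs
import Pool.Agent.HRK.K9
import Pool.Agent.HRK.U1
import Pool.Agent.HRK.U2

/-!
# HRK-W1 : bridge from `Geo` to the abstract systems `HRP.ESys` of part P2
-/

namespace HRK

open Set Filter Topology Matrix

universe u

variable {E : Type u} [TopologicalSpace E] {r0 L : ℝ}

/-! ### translation of the notations -/

theorem vsq_eq (v : V) : HRP.vsq v = nsq v := by
  rw [nsq_eq]
  rfl

theorem Pnsq_eq (X : M2) : HRP.nsq X = fro X := by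
  rw [fro_eq]
  rfl

theorem PqP_eq (P : M2) (ψ : V) : HRP.qP P ψ = qP P ψ := rfl

theorem PmvP_eq (P : M2) (g : SL) : HRP.mvP P (g : M2) = pmv P g := rfl

theorem PIsPl_iff (P : M2) : HRP.IsPl P ↔ IsPl P := Iff.rfl

theorem PDg_eq (s : ℝ) : HRP.Dg s = (dg s : M2) := rfl

/-- matrix inverse of an element of `SL`. Proof. `Matrix.inv_eq_right_inv` and `coe_mul_inv`. -/
theorem coe_inv_matrix (k : SL) : ((k : M2))⁻¹ = ((k⁻¹ : SL) : M2) :=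
  Matrix.inv_eq_right_inv (coe_mul_inv k)

theorem mx_eq (D : E → SL) (y : E) (k : SL) : HRP.mx (fun ψ => eD D y ψ) (k : M2) = mD D y k := by
  unfold HRP.mx mD
  have h : {ψ : V | HRP.vsq ψ = 1} = {ψ : V | nsq ψ = 1} := by
    ext ψ
    simp only [Set.mem_setOf_eq, vsq_eq]
  rw [coe_inv_matrix]
  exact congrArg (fun s : Set V => sSup ((fun ψ : V => eD D y (((k⁻¹ : SL) : M2) *ᵥ ψ)) '' s)) h

theorem vv_eq (D : E → SL) (y : E) (k : SL) : HRP.vv (fun ψ => eD D y ψ) (k : M2) = vD D y k := by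
  unfold HRP.vv HRP.FF vD
  rw [mx_eq]

/-! ### the fields -/

theorem efun_eD [T2Space E] (hc : Cst r0 L) (G : Geo E r0 L) (y : E) :
    HRP.EFun (fun ψ => eD G.D y ψ) where
  nonneg := fun ψ => eD_nonneg G.D y ψ
  hom := fun c ψ => by
    rw [eD_smul, Complex.normSq_eq_norm_sq]
  usc := by
    intro ψ b hb
    have h := eD_usc G.hD y ψ hb
    have hcont : Continuous fun φ : V => ((y, φ) : E × V) := by fun_prop
    exact (hcont.tendsto ψ).eventually h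

/-- Proof. Take `k` a frame of `J y`: `mD_le_of_Fr`, `eD_le_mD`, `C = 1/r0`. -/
theorem bdd_eD [T2Space E] (hc : Cst r0 L) (G : Geo E r0 L) : ∃ C : ℝ, 0 < C ∧ ∀ y : E,
    ∃ k : M2, k.det = 1 ∧ ∀ ψ, eD G.D y (k⁻¹ *ᵥ ψ) ≤ C * HRP.vsq ψ := by
  refine ⟨1 / r0, one_div_pos.mpr hc.r0pos, fun y => ?_⟩
  obtain ⟨k, hk⟩ := G.form y
  refine ⟨(k : M2), k.2, fun ψ => ?_⟩
  rw [coe_inv_matrix, vsq_eq]
  exact (eD_le_mD hc G y k ψ).trans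
    (mul_le_mul_of_nonneg_right (mD_le_of_Fr hc G hk) (nsq_nonneg ψ))

/-- the bound of the frame in terms of `mD`. -/
theorem w1_mD_le [T2Space E] (hc : Cst r0 L) (G : Geo E r0 L) {y : E} {K : SL} {C : ℝ}
    (h : ∀ ψ, eD G.D y ((K : M2)⁻¹ *ᵥ ψ) ≤ C * HRP.vsq ψ) : mD G.D y K ≤ C := by
  refine mD_le hc G y K fun ψ hψ => ?_
  have h1 := h ψ
  rw [coe_inv_matrix, vsq_eq, hψ, mul_one] at h1
  exact h1

theorem w1_nm_lt {X : M2} {c : ℝ} (hc : 0 < c) (h : HRP.nsq X < c ^ 2) : nm X < c := by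
  rw [Pnsq_eq] at h
  unfold nm
  rwa [Real.sqrt_lt' hc]

theorem w1_vn_lt {v : V} {c : ℝ} (hc : 0 < c) (h : HRP.vsq v < c ^ 2) : vn v < c := by
  rw [vsq_eq] at h
  unfold vn
  rwa [Real.sqrt_lt' hc]

/-- the conjugate `k⁻¹ g k` as an element of `SL`. -/
theorem w1_coe_conj (K g : SL) : ((K⁻¹ * g * K : SL) : M2) = (K : M2)⁻¹ * (g : M2) * (K : M2) := by
  rw [coe_inv_matrix]
  rfl

theorem w1_cj_conj (K g : SL) : cj K (((K⁻¹ * g * K : SL) : M2) - 1) = (g : M2) - 1 := by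
  rw [cj_sub, cj_coe, cj_one]
  have : K * (K⁻¹ * g * K) * K⁻¹ = g := by group
  rw [this]

/-- Proof. A matrix `k` with `det k = 1` is `(k : SL)`. `mD_near` (U2) and `eD_le_mD`; the second
part is `ac_ac_inv`-like: `mvp D (mvp D y (g1 - 1)) (g1⁻¹ - 1) = y`, `g1 = k⁻¹ g k`. -/
theorem crude_eD [T2Space E] (hc : Cst r0 L) (G : Geo E r0 L) : ∀ C : ℝ, 0 < C → ∃ c : ℝ, 0 < c ∧
    ∃ C' : ℝ, 0 < C' ∧ ∀ (y : E) (k g : M2), k.det = 1 → g.det = 1 →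
    (∀ ψ, eD G.D y (k⁻¹ *ᵥ ψ) ≤ C * HRP.vsq ψ) → HRP.nsq (g - 1) < c →
    (∀ ψ, eD G.D (mvp G.D y (k⁻¹ * g * k - 1)) (k⁻¹ *ᵥ ψ) ≤ C' * HRP.vsq ψ) ∧
      mvp G.D (mvp G.D y (k⁻¹ * g * k - 1)) (k⁻¹ * g⁻¹ * k - 1) = y := by
  intro C hC
  obtain ⟨c0, hc0, C0, hC0, H⟩ := mD_near.{u} hc C
  refine ⟨c0 ^ 2, by positivity, C0, hC0, ?_⟩
  intro y k g hk hg hb hgc
  obtain ⟨K, rfl⟩ : ∃ K : SL, (K : M2) = k := ⟨⟨k, hk⟩, rfl⟩
  obtain ⟨g0, rfl⟩ : ∃ g0 : SL, (g0 : M2) = g := ⟨⟨g, hg⟩, rfl⟩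
  have hm : mD G.D y K ≤ C := w1_mD_le hc G hb
  have hn : nm (cj K (((K⁻¹ * g0 * K : SL) : M2) - 1)) < c0 := by
    rw [w1_cj_conj]
    exact w1_nm_lt hc0 hgc
  obtain ⟨h1, -, h3⟩ := H E G y K hm (K⁻¹ * g0 * K) hn
  have e1 : mvp G.D y ((K : M2)⁻¹ * (g0 : M2) * (K : M2) - 1) = ac G.D y (K⁻¹ * g0 * K) := by
    unfold ac
    rw [w1_coe_conj]
  rw [e1]
  refine ⟨fun ψ => ?_, ?_⟩
  · rw [coe_inv_matrix, vsq_eq]
    exact (eD_le_mD hc G _ K ψ).trans (mul_le_mul_of_nonneg_right h1 (nsq_nonneg ψ))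
  · have e2 : ((K⁻¹ * g0 * K)⁻¹ : SL) = K⁻¹ * g0⁻¹ * K := by group
    have e3 : (K : M2)⁻¹ * (g0 : M2)⁻¹ * (K : M2) - 1 = (((K⁻¹ * g0 * K)⁻¹ : SL) : M2) - 1 := by
      rw [e2, w1_coe_conj, coe_inv_matrix g0]
    rw [e3]
    exact h3

/-- Proof. `exists_ideal`, `uniform_support` (`P` there, seen in the frame: `cj k P`), `SVis.le`,
`qP_cj'`, `cj_pmv`. `mD ≤ C` by `mD_le`. The radius: `nsq (g-1) < c²` etc. -/
theorem us_eD [T2Space E] (hc : Cst r0 L) (G : Geo E r0 L) : ∀ C : ℝ, 0 < C → ∀ ε : ℝ, 0 < ε →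
    ∃ c : ℝ, 0 < c ∧ ∃ C' : ℝ, 0 < C' ∧
    ∀ (y : E) (k : M2) (ψ : V), k.det = 1 → (∀ φ, eD G.D y (k⁻¹ *ᵥ φ) ≤ C * HRP.vsq φ) →
      HRP.vsq ψ = 1 → ε ≤ eD G.D y (k⁻¹ *ᵥ ψ) →
      ∃ P : M2, HRP.IsPl P ∧ HRP.nsq P ≤ C' ∧ ‖HRP.qP P ψ‖ = eD G.D y (k⁻¹ *ᵥ ψ) ∧
        ∀ (g : M2) (φ : V), g.det = 1 → HRP.nsq (g - 1) < c → HRP.vsq (φ - ψ) < c →
          ‖HRP.qP (HRP.mvP P g) φ‖ ≤ eD G.D (mvp G.D y (k⁻¹ * g * k - 1)) (k⁻¹ *ᵥ φ) := by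
  intro C hC ε hε
  obtain ⟨c0, hc0, C0, hC0, H⟩ := uniform_support.{u} hc C hε
  refine ⟨c0 ^ 2, by positivity, C0 ^ 2, by positivity, ?_⟩
  intro y k ψ hk hb hψ he
  obtain ⟨K, rfl⟩ : ∃ K : SL, (K : M2) = k := ⟨⟨k, hk⟩, rfl⟩
  have hm : mD G.D y K ≤ C := w1_mD_le hc G hb
  rw [coe_inv_matrix] at he ⊢
  rw [vsq_eq] at hψ
  have hepos : 0 < eD G.D y (((K⁻¹ : SL) : M2) *ᵥ ψ) := lt_of_lt_of_le hε he
  obtain ⟨t0, ht0, ht1⟩ := exists_ideal G.hD hepos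
  obtain ⟨P, hP1, hP2, hP3, hP4⟩ := H E G y K ψ t0 hm hψ he ht0 ht1
  refine ⟨cj K P, hP1.conj K, ?_, ?_, ?_⟩
  · rw [Pnsq_eq, ← nm_sq]
    exact pow_le_pow_left₀ (nm_nonneg _) hP2 2
  · rw [PqP_eq]
    have h1 : ‖qP (cj K P) ψ‖ * ‖t0‖ = 1 := by
      rw [← norm_mul, hP3, norm_neg, norm_one]
    have ht : ‖t0‖ ≠ 0 := by
      intro h0
      rw [h0, mul_zero] at h1
      exact zero_ne_one h1
    apply mul_right_cancel₀ ht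
    rw [h1, mul_comm, ht0]
  · intro g φ hg hgc hφ
    obtain ⟨g0, rfl⟩ : ∃ g0 : SL, (g0 : M2) = g := ⟨⟨g, hg⟩, rfl⟩
    have hn : nm (cj K (((K⁻¹ * g0 * K : SL) : M2) - 1)) < c0 := by
      rw [w1_cj_conj]
      exact w1_nm_lt hc0 hgc
    have hv := hP4 (K⁻¹ * g0 * K) φ hn (w1_vn_lt hc0 hφ)
    have hle := hv.le hc
    rw [qP_cj', cj_pmv] at hle
    have e0 : K * (K⁻¹ * g0 * K) * K⁻¹ = g0 := by group
    rw [e0] at hle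
    have e1 : mvp G.D y (((K⁻¹ : SL) : M2) * (g0 : M2) * (K : M2) - 1) =
        ac G.D y (K⁻¹ * g0 * K) := by
      unfold ac
      rw [w1_coe_conj, coe_inv_matrix]
    rw [e1]
    exact hle

/-- the system of radius functions of a geometric structure. -/
noncomputable def toESys [T2Space E] (hc : Cst r0 L) (G : Geo E r0 L) : HRP.ESys E where
  e := fun y ψ => eD G.D y ψ
  mv := fun y g => mvp G.D y (g - 1)
  efun := efun_eD hc G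
  mv_one := fun y => by
    show mvp G.D y (1 - 1) = y
    rw [sub_self]
    exact mvp_zero G.hD y
  bdd := bdd_eD hc G
  crude := crude_eD hc G
  us := us_eD hc G

end HRK
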