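import Pool.Agent.HRP.F6
import Pool.Agent.HRP.E4
import Pool.Agent.HRK.W1

/-!
# HRK-W2 : the results of part P2 in the language of `Geo`
-/

namespace HRK

open Set Filter Topology Matrix

universe u

variable {E : Type u} [TopologicalSpace E] {r0 L : ℝ}

theorem w2_vv [T2Space E] (hc : Cst r0 L) (G : Geo E r0 L) (y : E) (k : SL) (s : ℝ) :
    HRP.vv ((toESys hc G).e y) (HRP.Dg s * (k : M2)) = vD G.D y (dg s * k) := by
  rw [PDg_eq, ← Matrix.SpecialLinearGroup.coe_mul]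
  exact vv_eq G.D y (dg s * k)

/-- (5.2) If `e` is not identically zero it is nonzero at every point.

Proof. `U = {y | ∃ ψ, e(y,ψ) ≠ 0}` is open (`continuous_eD`). It equals `{y | 1/2 ≤ mD y 1}`:
`HRP.ESys.half_le_mx` for `toESys` (with `mx_eq`, `k = 1`), and conversely `mD y 1 > 0` gives a `ψ`
with `e > 0` (`mD_attained`). The latter set is closed (`continuous_mD`). `E` is connected. -/
theorem eD_ne_zero_all [T2Space E] [ConnectedSpace E] (hc : Cst r0 L) (G : Geo E r0 L)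
    (hne : ∃ y ψ, 0 < eD G.D y ψ) (y : E) : ∃ ψ, eD G.D y ψ ≠ 0 := by
  -- the set of the points with a nonzero radius function
  have hhalf : ∀ y : E, (∃ ψ, eD G.D y ψ ≠ 0) → 1 / 2 ≤ mD G.D y 1 := by
    intro y hy
    have h1 := (toESys hc G).half_le_mx (y := y) hy (k := ((1 : SL) : M2)) (1 : SL).2
    have h2 := mx_eq G.D y 1
    exact h1.trans h2.le
  have hopen : IsOpen {y : E | ∃ ψ, eD G.D y ψ ≠ 0} := by
    have e : {y : E | ∃ ψ, eD G.D y ψ ≠ 0} = ⋃ ψ : V, {y | eD G.D y ψ ≠ 0} := by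
      ext y
      simp
    rw [e]
    refine isOpen_iUnion fun ψ => ?_
    have hpair : Continuous fun y : E => (y, ψ) := continuous_id.prodMk continuous_const
    have hcont := (continuous_eD hc G).comp hpair
    have hcont' : Continuous fun y : E => eD G.D y ψ := hcont
    exact isOpen_ne_fun hcont' continuous_const
  have hclosed : IsClosed {y : E | ∃ ψ, eD G.D y ψ ≠ 0} := by
    have key : ∀ y : E, 1 / 2 ≤ mD G.D y 1 → ∃ ψ, eD G.D y ψ ≠ 0 := by
      intro y hy
      obtain ⟨ψ, -, h2⟩ := mD_attained hc G y 1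
      by_contra h0
      push Not at h0
      rw [h0] at h2
      rw [← h2] at hy
      norm_num at hy
    have e : {y : E | ∃ ψ, eD G.D y ψ ≠ 0} = {y | 1 / 2 ≤ mD G.D y 1} :=
      Set.ext fun y => ⟨hhalf y, key y⟩
    rw [e]
    have hpair : Continuous fun y : E => (y, (1 : SL)) := continuous_id.prodMk continuous_const
    have hcont := (continuous_mD hc G).comp hpair
    have hcont' : Continuous fun y : E => mD G.D y 1 := hcont
    exact isClosed_le continuous_const hcont'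
  have huniv : {y : E | ∃ ψ, eD G.D y ψ ≠ 0} = univ := by
    refine IsClopen.eq_univ ⟨hclosed, hopen⟩ ?_
    obtain ⟨y0, ψ0, h0⟩ := hne
    exact ⟨y0, ψ0, h0.ne'⟩
  have hy : y ∈ {y : E | ∃ ψ, eD G.D y ψ ≠ 0} := by
    rw [huniv]
    exact mem_univ y
  exact hy

/-- (5.2) Proof. `HRP.ESys.half_le_mx`, `mx_eq`. -/
theorem half_le_mD [T2Space E] [ConnectedSpace E] (hc : Cst r0 L) (G : Geo E r0 L)
    (hne : ∃ y ψ, 0 < eD G.D y ψ) (y : E) (k : SL) : 1 / 2 ≤ mD G.D y k := by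
  have h1 := (toESys hc G).half_le_mx (y := y) (eD_ne_zero_all hc G hne y) (k := (k : M2)) k.2
  exact h1.trans (mx_eq G.D y k).le

/-- (5.5) convexity along geodesics. Proof. `HRP.ESys.convexOn_vv`, `vv_eq`, `PDg_eq`. -/
theorem convex_vD [T2Space E] [ConnectedSpace E] (hc : Cst r0 L) (G : Geo E r0 L)
    (hne : ∃ y ψ, 0 < eD G.D y ψ) (y : E) (k : SL) :
    ConvexOn ℝ univ (fun s : ℝ => vD G.D y (dg s * k)) := by
  have h1 := (toESys hc G).convexOn_vv (y := y) (eD_ne_zero_all hc G hne y) (k := (k : M2)) k.2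
  have e : (fun s : ℝ => HRP.vv ((toESys hc G).e y) (HRP.Dg s * (k : M2))) =
      fun s : ℝ => vD G.D y (dg s * k) := by
    funext s
    exact w2_vv hc G y k s
  rw [e] at h1
  exact h1

/-- (5.5) exponential interpolation. Proof. `HRP.ESys.exp_bound_vv`. -/
theorem vD_interp [T2Space E] [ConnectedSpace E] (hc : Cst r0 L) (G : Geo E r0 L)
    (hne : ∃ y ψ, 0 < eD G.D y ψ) (y : E) (k : SL) {l s : ℝ} (h0 : 0 ≤ s) (h1 : s ≤ l) :
    vD G.D y (dg s * k) ≤ vD G.D y k * Real.exp (-s) + vD G.D y (dg l * k) * Real.exp (s - l) := by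
  have h2 := (toESys hc G).exp_bound_vv (y := y) (eD_ne_zero_all hc G hne y) (k := (k : M2)) k.2
    h0 h1
  rw [w2_vv hc G y k s, w2_vv hc G y k l] at h2
  have h3 : HRP.vv ((toESys hc G).e y) (k : M2) = vD G.D y k := vv_eq G.D y k
  rw [h3] at h2
  exact h2

/-- (6) THEOREM B. Proof. `HRP.ESys.theoremB`. -/
theorem thmB [T2Space E] [ConnectedSpace E] (hc : Cst r0 L) (G : Geo E r0 L)
    (hne : ∃ y ψ, 0 < eD G.D y ψ) (y : E) : ∀ ε > 0, ∃ k : SL, vD G.D y k < ε := by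
  intro ε hε
  obtain ⟨k, hk, h⟩ := (toESys hc G).theoremB (eD_ne_zero_all hc G hne) y hε
  refine ⟨⟨k, hk⟩, ?_⟩
  have h3 : HRP.vv ((toESys hc G).e y) k = vD G.D y ⟨k, hk⟩ := vv_eq G.D y ⟨k, hk⟩
  rw [← h3]
  exact h

end HRK
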