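import Pool.Agent.HRK.X2

/-!
# HRK-X3 : assembly of the visibility package
-/

namespace HRK

open Set Filter Topology Matrix

universe u

variable {r0 L : ℝ}

/-- Proof. `exact_circle` (constants `c, C`), `exists_touch`, `EVis_lower`. -/
theorem vis_package (hc : Cst r0 L) : ∃ c C, VisPkg.{u} r0 L c C := by
  obtain ⟨c, hc0, C, hC0, hE⟩ := HRK.exact_circle.{u} hc
  obtain ⟨C1, hT⟩ := exists_touch.{u} hc
  obtain ⟨c4, hc4, hL⟩ := EVis_lower.{u} hc (c := c) (C := C) hc0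
  refine ⟨c, C, ?_⟩
  exact
    { c_pos := hc0
      C_pos := hC0
      exact_circle := fun C1 E _ _ G y k ψ P h1 h2 h3 h4 h5 => hE C1 E G y k ψ P h1 h2 h3 h4 h5
      exists_contact := by
        intro E _ _ G y k hm
        obtain ⟨ψ, P, h1, h2, h3, h4⟩ := hT E G y k hm
        exact ⟨P, hE C1 E G y k ψ P hm h1 h2 h3 h4⟩
      lower := ⟨c4, hc4, fun E _ _ G y k P h => hL E G y k P h⟩ }

/-- Transport of exact planes.

Proof. `c4` from `hV.lower` and `EVis_point`. `mD = 1/2` at `(y.g, k1 k)` gives `vD = 0`, so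
`fro (cj (k1 k) (pmv P g)) ≤ 1` and `cj (k1 k) (pmv P g)` is Hermitian (`IsPl.hermitian_of_nm`).
`EVis_point` gives a point `ψ` of the circle with `SVis`; `hV.exact_circle`. -/
theorem EVis.propagate (hc : Cst r0 L) {c C : ℝ} (hV : VisPkg.{u} r0 L c C) : ∃ c4 > 0,
    ∀ (E : Type u) [TopologicalSpace E] [T2Space E] (G : Geo E r0 L) (y : E) (k : SL) (P : M2),
    EVis G y k P c C → ∀ g k1 : SL,
      nm (cj k ((g : M2) - 1)) < c4 → nm ((k1 : M2) - 1) < c4 →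
      mD G.D (ac G.D y g) (k1 * k) = 1 / 2 → EVis G (ac G.D y g) (k1 * k) (pmv P g) c C := by
  obtain ⟨c1, hc1, hL⟩ := hV.lower
  obtain ⟨c2, hc2, hP⟩ := EVis_point.{u} hc (c := c) (C := C) hV.c_pos
  refine ⟨min c1 c2, lt_min hc1 hc2, ?_⟩
  intro E _ _ G y k P hE g k1 hg hk1 hm
  have h1 := hL E G y k P hE g k1 (lt_of_lt_of_le hg (min_le_left _ _))
    (lt_of_lt_of_le hk1 (min_le_left _ _))
  obtain ⟨hpl, hex⟩ := hP E G y k P hE g k1 (lt_of_lt_of_le hg (min_le_right _ _))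
    (lt_of_lt_of_le hk1 (min_le_right _ _))
  have h2 : vD G.D (ac G.D y g) (k1 * k) = 0 := by
    unfold vD
    rw [hm]
    norm_num
  rw [h2] at h1
  have h3 : nm (cj (k1 * k) (pmv P g)) ≤ 1 := by
    have h4 : nm (cj (k1 * k) (pmv P g)) ^ 2 ≤ 1 ^ 2 := by
      rw [nm_sq]
      linarith
    exact (pow_le_pow_iff_left₀ (nm_nonneg _) zero_le_one two_ne_zero).1 h4
  have hH : (cj (k1 * k) (pmv P g)).IsHermitian := (hpl.conj (k1 * k)).hermitian_of_nm h3
  obtain ⟨ψ, hψ, hq, hS⟩ := hex hH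
  exact hV.exact_circle C E G (ac G.D y g) (k1 * k) ψ (pmv P g) hm hψ hpl hq hS

end HRK
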