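import Pool.Agent.HRK.B1
import Pool.Agent.HRK.B5
import Pool.Agent.HRK.J3
import Pool.Agent.HRK.K9
import Pool.Agent.HRK.U1
import Pool.Agent.HRK.U2
import Pool.Agent.HRK.X3
import Pool.Agent.HRK.H5
import Pool.Agent.HRK.W2

/-!
# HRK : import hub of part P1 (and of the bridge to part P2)

* `N1`, `N1b`, `N2`, `N2b`, `N3`, `N4`, `N5` : norms, `SL`, forms and frames, decompositions, planes
* `B1` - `B6`, `Cj` : lifting, composition, topology, equivariance, change of frame
* `E1`, `E2` : `eD`, `mD`;  `J1` - `J3` : the Hermitian structure along null discs, `NormAt`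
* `K1` - `K7` : natural balls, normal form theorem (`normal_form_scaled`, `normal_form`)
* `K8` : `SVis.le`, `SVis.key`, `SVis.not_mem`; `K9` : `continuous_eD`, `continuous_mD`
* `U1` : `uniform_support`; `U2` : `good_frame`, `mD_near`
* `X1` - `X3` : `vis_package : ∃ c C, VisPkg r0 L c C`, `EVis.propagate`
* `H1` - `H5` : `exists_geo` (with equivariance of `J`)
* `W2` : `half_le_mD`, `convex_vD`, `vD_interp`, `thmB`, `eD_ne_zero_all`
-/
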