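import Pool.Agent.HRK.N2b

/-!
# HRK-J0 : a locally Lipschitz function on a segment is Lipschitz
-/

namespace HRK

open Set Filter Topology

/-- Proof. Let `A = {s ∈ [0,1] | ∀ s' ∈ [0,s], ‖φ s' - φ 0‖ ≤ K s'}`. It contains `0`, is an
interval; let `s₁ = sSup A`. By the local estimate at `s₁` (for `s' < s₁` close to `s₁` one has
`‖φ s₁ - φ s'‖ ≤ K (s₁ - s')`), `s₁ ∈ A`, and if `s₁ < 1` the local estimate at `s₁` extends beyond
`s₁`: contradiction. (Alternatively: the local estimate gives that `φ` is continuous and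
`‖(φ(s') - φ(s))/(s' - s)‖ ≤ K` near every `s`; use
`image_norm_le_of_liminf_right_slope_norm_lt_deriv_boundary` or `Convex` + Lebesgue number lemma.) -/
theorem lip_of_local {F : Type*} [NormedAddCommGroup F] {φ : ℝ → F} {K : ℝ} (hK : 0 ≤ K)
    (h : ∀ s ∈ Icc (0:ℝ) 1, ∃ ε > 0, ∀ s' ∈ Icc (0:ℝ) 1, |s' - s| < ε → ‖φ s' - φ s‖ ≤ K * |s' - s|) :
    ‖φ 1 - φ 0‖ ≤ K := by
  have hcont : ContinuousOn φ (Icc (0:ℝ) 1) := by
    intro s hs
    obtain ⟨ε, hε, hs'⟩ := h s hs
    rw [ContinuousWithinAt, tendsto_iff_norm_sub_tendsto_zero]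
    have hlim : Tendsto (fun s' : ℝ => K * |s' - s|) (𝓝[Icc (0:ℝ) 1] s) (𝓝 0) := by
      have hc : Continuous (fun s' : ℝ => K * |s' - s|) := by fun_prop
      have h1 := (hc.tendsto s).mono_left (nhdsWithin_le_nhds (s := Icc (0:ℝ) 1))
      simpa using h1
    refine squeeze_zero' (Eventually.of_forall fun _ => norm_nonneg _) ?_ hlim
    have hb : {s' : ℝ | |s' - s| < ε} ∈ 𝓝[Icc (0:ℝ) 1] s := by
      apply mem_nhdsWithin_of_mem_nhds
      have := Metric.ball_mem_nhds s hε
      filter_upwards [this] with t ht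
      simpa [Real.dist_eq] using ht
    filter_upwards [hb, self_mem_nhdsWithin] with t ht ht'
    exact hs' t ht' ht
  have hsub : Icc (0:ℝ) 1 ⊆ {s : ℝ | ‖φ s - φ 0‖ ≤ K * s} := by
    apply IsClosed.Icc_subset_of_forall_exists_gt
    · have hcl : IsClosed {x ∈ Icc (0:ℝ) 1 | ‖φ x - φ 0‖ ≤ K * x} := by
        apply IsClosed.isClosed_le isClosed_Icc
        · exact (hcont.sub continuousOn_const).norm
        · fun_prop
      convert hcl using 1
      ext x
      simp only [mem_inter_iff, mem_setOf_eq]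
      tauto
    · simp
    · rintro x ⟨hx, hx0, hx1⟩ y hy
      obtain ⟨ε, hε, hs'⟩ := h x ⟨hx0, hx1.le⟩
      have hy' : x < y := hy
      refine ⟨min y (min (x + ε / 2) 1), ?_, ?_, min_le_left _ _⟩
      · have hz1 : x < min y (min (x + ε / 2) 1) := lt_min hy' (lt_min (by linarith) hx1)
        have hz2 : min y (min (x + ε / 2) 1) ≤ x + ε / 2 :=
          (min_le_right _ _).trans (min_le_left _ _)
        have hz3 : min y (min (x + ε / 2) 1) ≤ 1 := (min_le_right _ _).trans (min_le_right _ _)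
        generalize min y (min (x + ε / 2) 1) = z at hz1 hz2 hz3
        have hzx := hs' z ⟨by linarith, hz3⟩ (by rw [abs_of_pos (by linarith)]; linarith)
        rw [abs_of_pos (by linarith)] at hzx
        have hx' : ‖φ x - φ 0‖ ≤ K * x := hx
        show ‖φ z - φ 0‖ ≤ K * z
        calc ‖φ z - φ 0‖ = ‖(φ z - φ x) + (φ x - φ 0)‖ := by rw [sub_add_sub_cancel]
          _ ≤ ‖φ z - φ x‖ + ‖φ x - φ 0‖ := norm_add_le _ _
          _ ≤ K * (z - x) + K * x := add_le_add hzx hx'
          _ = K * z := by ring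
      · exact lt_min hy' (lt_min (by linarith) hx1)
  have := hsub (right_mem_Icc.mpr zero_le_one)
  simpa using this

end HRK
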