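import Pool.Agent.HRK.E1
import Pool.Agent.HRK.Defs3

/-!
# HRK-J1 : local Lipschitz estimates of the Hermitian structure
-/

namespace HRK

open Set Filter Topology Matrix

variable {E : Type*} [TopologicalSpace E] [T2Space E] {r0 L : ℝ}

/-- Consequences of (h2). Let `k` be a frame of `J y` and `|g - 1|_k < r0`. Then
`δ := L |g-1|_k ≤ 1/4` and the coordinates of `J(y.g)` are close to those of `J y`.

Proof. `G.lip`, `coord_compare` (frame `k` of `J y`, a frame of `J (y.g)` exists by `G.form`). -/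
theorem J_compare (hc : Cst r0 L) (G : Geo E r0 L) {y : E} {k : SL} (hk : Fr (G.J y) k) {g : SL}
    (hg : nm (cj k ((g : M2) - 1)) < r0) :
    (∀ v, (1 / 2) * hf (G.J y) v ≤ hf (G.J (ac G.D y g)) v ∧
      hf (G.J (ac G.D y g)) v ≤ 2 * hf (G.J y) v) ∧
    Tc (G.J (ac G.D y g)) ≤ 2 * Tc (G.J y) ∧ Tc (G.J y) ≤ 2 * Tc (G.J (ac G.D y g)) ∧
    |Tc (G.J (ac G.D y g)) - Tc (G.J y)| ≤ 2 * L * nm (cj k ((g : M2) - 1)) * Tc (G.J y) ∧
    ‖Zc (G.J (ac G.D y g)) - Zc (G.J y)‖ ≤ 2 * L * nm (cj k ((g : M2) - 1)) * Tc (G.J y) := by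
  have hlip := G.lip y k hk g hg
  have hnn : 0 ≤ nm (cj k ((g : M2) - 1)) := nm_nonneg _
  have hδ : L * nm (cj k ((g : M2) - 1)) ≤ 1 / 4 :=
    (mul_le_mul_of_nonneg_left hg.le hc.Lpos.le).trans hc.Lr0
  have hδ0 : 0 ≤ L * nm (cj k ((g : M2) - 1)) := mul_nonneg hc.Lpos.le hnn
  obtain ⟨k', hk'⟩ := G.form (ac G.D y g)
  obtain ⟨h1, h2, h3, h4, h5⟩ := coord_compare hk hk' (by linarith) hlip
  have hT' := hk'.Tc_pos
  refine ⟨fun v => ⟨?_, ?_⟩, h2, ?_, ?_, ?_⟩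
  · refine le_trans ?_ (h1 v).1
    exact mul_le_mul_of_nonneg_right (by linarith) (hf_nonneg hk v)
  · refine (h1 v).2.trans ?_
    exact mul_le_mul_of_nonneg_right (by linarith) (hf_nonneg hk v)
  · refine h3.trans ?_
    exact mul_le_mul_of_nonneg_right (by linarith) hT'.le
  · refine h4.trans (le_of_eq ?_)
    ring
  · refine h5.trans (le_of_eq ?_)
    ring

/-- `J` is continuous.

Proof. At `y`, with a frame `k` of `J y`. Given `ε`, for `|g-1|_k < min r0 (ε')`: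
`|fcj k (J(y.g)) - 1| ≤ L |g-1|_k`, so `J(y.g) - J(y) = k^* (fcj k (J (y.g)) - 1) k` is small. The
set of such `y.g` is a neighbourhood of `y` (`ac_nhds`). -/
theorem continuous_J (hc : Cst r0 L) (G : Geo E r0 L) : Continuous G.J := by
  rw [continuous_iff_continuousAt]
  intro y
  obtain ⟨k, hk⟩ := G.form y
  rw [ContinuousAt, tendsto_def]
  intro O hO
  obtain ⟨ε, hε, hball⟩ := exists_nm_ball' hO
  obtain ⟨M, hM⟩ : ∃ M : ℝ, M = nm ((k : M2)ᴴ) * nm (k : M2) * L + 1 := ⟨_, rfl⟩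
  have hM0 : 0 ≤ nm ((k : M2)ᴴ) * nm (k : M2) :=
    mul_nonneg (nm_nonneg _) (nm_nonneg _)
  have hMpos : 0 < M := by
    have := mul_nonneg hM0 hc.Lpos.le
    linarith
  have hcpos : 0 < min r0 (ε / M) := lt_min hc.r0pos (div_pos hε hMpos)
  filter_upwards [(ac_nhds G.hD y k).2 _ hcpos] with y' hy'
  obtain ⟨g, hg, rfl⟩ := hy'
  have hg1 : nm (cj k ((g : M2) - 1)) < r0 := lt_of_lt_of_le hg (min_le_left _ _)
  have hg2 : nm (cj k ((g : M2) - 1)) < ε / M := lt_of_lt_of_le hg (min_le_right _ _)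
  have hlip := G.lip y k hk g hg1
  apply hball
  have e0 : (k : M2)ᴴ * (((k⁻¹ : SL) : M2))ᴴ = 1 := by
    rw [← Matrix.conjTranspose_mul, coe_inv_mul, Matrix.conjTranspose_one]
  have e1 : G.J (ac G.D y g) - G.J y =
      (k : M2)ᴴ * (fcj k (G.J (ac G.D y g)) - 1) * (k : M2) := by
    have e2 : (k : M2)ᴴ * fcj k (G.J (ac G.D y g)) * (k : M2) = G.J (ac G.D y g) := by
      rw [fcj]
      calc (k : M2)ᴴ * ((((k⁻¹ : SL) : M2))ᴴ * G.J (ac G.D y g) * ((k⁻¹ : SL) : M2)) * (k : M2)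
          = ((k : M2)ᴴ * (((k⁻¹ : SL) : M2))ᴴ) * G.J (ac G.D y g) *
            (((k⁻¹ : SL) : M2) * (k : M2)) := by simp only [mul_assoc]
        _ = G.J (ac G.D y g) := by rw [e0, coe_inv_mul, one_mul, mul_one]
    have e3 : G.J y = (k : M2)ᴴ * (k : M2) := hk
    rw [mul_sub, sub_mul, e2, mul_one, ← e3]
  rw [e1]
  have h1 : nm ((k : M2)ᴴ * (fcj k (G.J (ac G.D y g)) - 1) * (k : M2)) ≤
      nm ((k : M2)ᴴ) * nm (fcj k (G.J (ac G.D y g)) - 1) * nm (k : M2) :=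
    (nm_mul_le _ _).trans (mul_le_mul_of_nonneg_right (nm_mul_le _ _) (nm_nonneg _))
  have hnn : 0 ≤ nm (cj k ((g : M2) - 1)) := nm_nonneg _
  have h2 : nm ((k : M2)ᴴ) * nm (fcj k (G.J (ac G.D y g)) - 1) * nm (k : M2) ≤
      (nm ((k : M2)ᴴ) * nm (k : M2)) * (L * nm (cj k ((g : M2) - 1))) := by
    calc nm ((k : M2)ᴴ) * nm (fcj k (G.J (ac G.D y g)) - 1) * nm (k : M2)
        = (nm ((k : M2)ᴴ) * nm (k : M2)) * nm (fcj k (G.J (ac G.D y g)) - 1) := by ring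
      _ ≤ _ := mul_le_mul_of_nonneg_left hlip hM0
  have h3 : (nm ((k : M2)ᴴ) * nm (k : M2)) * (L * nm (cj k ((g : M2) - 1))) ≤
      M * nm (cj k ((g : M2) - 1)) := by
    rw [hM]
    nlinarith
  have h4 : M * nm (cj k ((g : M2) - 1)) < ε := by
    have := mul_lt_mul_of_pos_left hg2 hMpos
    rwa [mul_div_cancel₀ _ hMpos.ne'] at this
  linarith

/-- `Tc (J y) > 0`. -/
theorem Tc_J_pos (G : Geo E r0 L) (y : E) : 0 < Tc (G.J y) := by
  obtain ⟨k, hk⟩ := G.form y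
  exact hk.Tc_pos

/-- Completion (h3) along a null segment: Let `s τ n(ψ) ∈ S(y)` for all `s ∈ [0,1)` and suppose
there is a sequence `s_j → 1`, `s_j < 1`, such that `hf (J (y_{s_j})) ψ ≤ C` for all `j`. Then
`τ n(ψ) ∈ S(y)`.

Proof. At `y' = y_{s_j}` the disc `{t n(ψ) : |t| < r0/C}` is free (slab and
`Fr.nm_cj_nn`). If `(1 - s_j)|τ| < r0/(C+1)`, then `(1 - s_j) τ n(ψ) ∈ St(y')`; `null_concat` with
`t = s_j τ`, `ρ = (1 - s_j)/s_j` (`s_j > 0` for `j` large). -/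
theorem null_complete (hc : Cst r0 L) (G : Geo E r0 L) {y : E} {τ : ℂ} {ψ : V}
    (h : ∀ s ∈ Ico (0:ℝ) 1, ((s : ℂ) * τ) • nn ψ ∈ St G.D y) {C : ℝ} {u : ℕ → ℝ}
    (hu : ∀ j, u j ∈ Ico (0:ℝ) 1) (hu1 : Tendsto u atTop (𝓝 1))
    (hC : ∀ j, hf (G.J (ac G.D y (uni ((u j : ℂ) * τ) ψ))) ψ ≤ C) : τ • nn ψ ∈ St G.D y := by
  have hC0 : 0 ≤ C := by
    obtain ⟨k, hk⟩ := G.form (ac G.D y (uni ((u 0 : ℂ) * τ) ψ))
    exact (hf_nonneg hk ψ).trans (hC 0)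
  have hC1 : 0 < C + 1 := by linarith
  -- free discs
  have hdisc : ∀ j, ∀ t : ℂ, ‖t‖ < r0 / (C + 1) →
      t • nn ψ ∈ St G.D (ac G.D y (uni ((u j : ℂ) * τ) ψ)) := by
    intro j t ht
    obtain ⟨k, hk⟩ := G.form (ac G.D y (uni ((u j : ℂ) * τ) ψ))
    apply G.slab _ k hk
    rw [cj_smul, nm_smul, hk.nm_cj_nn]
    have h1 : ‖t‖ * hf (G.J (ac G.D y (uni ((u j : ℂ) * τ) ψ))) ψ ≤ ‖t‖ * (C + 1) :=
      mul_le_mul_of_nonneg_left ((hC j).trans (by linarith)) (norm_nonneg t)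
    have h2 : ‖t‖ * (C + 1) < r0 := (lt_div_iff₀ hC1).mp ht
    linarith
  have hρ : 0 < r0 / (C + 1) := div_pos hc.r0pos hC1
  have ht1 : Tendsto (fun j => (1 - u j) * ‖τ‖) atTop (𝓝 0) := by
    have h1 : Tendsto (fun j => (1 - u j) * ‖τ‖) atTop (𝓝 ((1 - 1) * ‖τ‖)) :=
      (tendsto_const_nhds.sub hu1).mul_const _
    simpa using h1
  have he1 : ∀ᶠ j in atTop, (1 - u j) * ‖τ‖ < r0 / (C + 1) := ht1.eventually_lt_const hρ
  have he2 : ∀ᶠ j in atTop, (1 / 2 : ℝ) < u j :=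
    hu1.eventually_const_lt (by norm_num)
  obtain ⟨j, hj1, hj2⟩ := (he1.and he2).exists
  have hu0 : 0 < u j := by linarith
  have huc : ((u j : ℝ) : ℂ) ≠ 0 := by
    exact_mod_cast hu0.ne'
  have hu1' : u j < 1 := (hu j).2
  have hρ0 : 0 ≤ (1 - u j) / u j := div_nonneg (by linarith) hu0.le
  have e1 : (((1 - u j) / u j : ℝ) : ℂ) * ((u j : ℂ) * τ) = ((1 - u j : ℝ) : ℂ) * τ := by
    rw [Complex.ofReal_div, ← mul_assoc, div_mul_cancel₀ _ huc]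
  have e2 : (1 + (((1 - u j) / u j : ℝ) : ℂ)) * ((u j : ℂ) * τ) = τ := by
    rw [add_mul, e1]
    push_cast
    ring
  have h1 := null_concat G.hD hρ0 (h (u j) (hu j)) (by
    rw [e1]
    apply hdisc j
    rw [norm_mul, Complex.norm_real, Real.norm_eq_abs, abs_of_nonneg (by linarith)]
    exact hj1)
  rw [e2] at h1
  exact h1.1

end HRK
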