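import Pool.Agent.HRK.J0
import Pool.Agent.HRK.J1

/-!
# HRK-J2 : the coordinates `ζ, T` are Lipschitz along the null disc of direction `e₁`
-/

namespace HRK

open Set Filter Topology Matrix

variable {E : Type*} [TopologicalSpace E] [T2Space E] {r0 L : ℝ}

/-- frame norm of a multiple of `n(e₁)`. -/
theorem j2_nm (G : Geo E r0 L) {y : E} {k : SL} (hk : Fr (G.J y) k) (τ : ℂ) :
    nm (cj k (τ • nn e1)) = ‖τ‖ / Tc (G.J y) := by
  rw [cj_smul, nm_smul, hk.nm_cj_nn, hk.hf_e1, mul_one_div]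

theorem j2_free (G : Geo E r0 L) (y : E) {τ : ℂ} (h : ‖τ‖ < r0 * Tc (G.J y)) :
    τ • nn e1 ∈ St G.D y := by
  obtain ⟨k, hk⟩ := G.form y
  apply G.slab y k hk
  rw [j2_nm G hk, div_lt_iff₀ hk.Tc_pos]
  exact h

/-- Local estimate at a point of the disc: for `|t| < R`, `|t'| < R`, `|t' - t| < r0 T_t`:
`|T_{t'} - T_t| ≤ 2 L |t' - t|` and `|ζ_{t'} - ζ_t| ≤ 2 L |t' - t|`.

Proof. `y_{t'} = y_t.(uni (t' - t) e₁)` (`null_ac`), the frame norm of `uni (t'-t) e₁ - 1` at `y_t`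
is `|t' - t| h(e₁) = |t'-t|/T_t < r0` (`Fr.nm_cj_nn`, `Fr.hf_e1`); `J_compare`. -/
theorem lip_disc_local (hc : Cst r0 L) (G : Geo E r0 L) {y : E} {R : ℝ}
    (hR : ∀ t : ℂ, ‖t‖ < R → t • nn e1 ∈ St G.D y) {t t' : ℂ} (ht : ‖t‖ < R) (ht' : ‖t'‖ < R)
    (h : ‖t' - t‖ < r0 * Tc (G.J (yt G.D y t))) :
    |Tc (G.J (yt G.D y t')) - Tc (G.J (yt G.D y t))| ≤ 2 * L * ‖t' - t‖ ∧
      ‖Zc (G.J (yt G.D y t')) - Zc (G.J (yt G.D y t))‖ ≤ 2 * L * ‖t' - t‖ := by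
  obtain ⟨k, hk⟩ := G.form (yt G.D y t)
  have hadd : ‖t + (t' - t)‖ < R := by
    rw [add_sub_cancel]
    exact ht'
  have h1 := null_ac G.hD hR ht hadd
  have h2 : ac G.D (yt G.D y t) (uni (t' - t) e1) = yt G.D y t' := by
    unfold yt
    rw [h1.2, add_sub_cancel]
  have hT : 0 < Tc (G.J (yt G.D y t)) := hk.Tc_pos
  have h3 : nm (cj k (((uni (t' - t) e1 : SL) : M2) - 1)) =
      ‖t' - t‖ / Tc (G.J (yt G.D y t)) := by
    rw [uni_coe, add_sub_cancel_left]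
    exact j2_nm G hk _
  have h4 : nm (cj k (((uni (t' - t) e1 : SL) : M2) - 1)) < r0 := by
    rw [h3, div_lt_iff₀ hT]
    exact h
  obtain ⟨-, -, -, h5, h6⟩ := J_compare hc G hk h4
  rw [h2, h3] at h5 h6
  have h7 : 2 * L * (‖t' - t‖ / Tc (G.J (yt G.D y t))) * Tc (G.J (yt G.D y t)) =
      2 * L * ‖t' - t‖ := by
    field_simp
  rw [h7] at h5 h6
  exact ⟨h5, h6⟩

/-- Global estimate. Proof. `lip_of_local` for `φ s = T_{t + s(t'-t)}` and `ζ_{t+s(t'-t)}`, with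
`K = 2 L |t' - t|`: at `s` take `ε` with `ε |t' - t| < r0 T_{t + s(t'-t)}`. -/
theorem lip_disc (hc : Cst r0 L) (G : Geo E r0 L) {y : E} {R : ℝ}
    (hR : ∀ t : ℂ, ‖t‖ < R → t • nn e1 ∈ St G.D y) {t t' : ℂ} (ht : ‖t‖ < R) (ht' : ‖t'‖ < R) :
    |Tc (G.J (yt G.D y t')) - Tc (G.J (yt G.D y t))| ≤ 2 * L * ‖t' - t‖ ∧
      ‖Zc (G.J (yt G.D y t')) - Zc (G.J (yt G.D y t))‖ ≤ 2 * L * ‖t' - t‖ := by
  have hK : 0 ≤ 2 * L * ‖t' - t‖ := by
    have := hc.Lpos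
    positivity
  have hin : ∀ s ∈ Icc (0:ℝ) 1, ‖t + (s : ℂ) * (t' - t)‖ < R := by
    intro s hs
    have hconv := (convex_ball (0 : ℂ) R).add_smul_sub_mem
      (mem_ball_zero_iff.mpr ht) (mem_ball_zero_iff.mpr ht') hs
    rw [mem_ball_zero_iff, Complex.real_smul] at hconv
    exact hconv
  have hdiff : ∀ s s' : ℝ, t + (s' : ℂ) * (t' - t) - (t + (s : ℂ) * (t' - t)) =
      ((s' - s : ℝ) : ℂ) * (t' - t) := by
    intro s s'
    push_cast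
    ring
  have hnorm : ∀ s s' : ℝ, ‖t + (s' : ℂ) * (t' - t) - (t + (s : ℂ) * (t' - t))‖ =
      |s' - s| * ‖t' - t‖ := by
    intro s s'
    rw [hdiff, norm_mul, Complex.norm_real, Real.norm_eq_abs]
  have hloc : ∀ s ∈ Icc (0:ℝ) 1, ∃ ε > 0, ∀ s' ∈ Icc (0:ℝ) 1, |s' - s| < ε →
      |Tc (G.J (yt G.D y (t + (s' : ℂ) * (t' - t)))) -
          Tc (G.J (yt G.D y (t + (s : ℂ) * (t' - t))))| ≤ 2 * L * ‖t' - t‖ * |s' - s| ∧
      ‖Zc (G.J (yt G.D y (t + (s' : ℂ) * (t' - t)))) -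
          Zc (G.J (yt G.D y (t + (s : ℂ) * (t' - t))))‖ ≤ 2 * L * ‖t' - t‖ * |s' - s| := by
    intro s hs
    have hT : 0 < Tc (G.J (yt G.D y (t + (s : ℂ) * (t' - t)))) := Tc_J_pos G _
    have hr := hc.r0pos
    refine ⟨r0 * Tc (G.J (yt G.D y (t + (s : ℂ) * (t' - t)))) / (‖t' - t‖ + 1),
      by positivity, ?_⟩
    intro s' hs' hlt
    have h1 : ‖t + (s' : ℂ) * (t' - t) - (t + (s : ℂ) * (t' - t))‖ <
        r0 * Tc (G.J (yt G.D y (t + (s : ℂ) * (t' - t)))) := by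
      rw [hnorm]
      have hp : 0 < ‖t' - t‖ + 1 := by positivity
      rw [lt_div_iff₀ hp] at hlt
      have h2 := abs_nonneg (s' - s)
      nlinarith [norm_nonneg (t' - t)]
    have h2 := lip_disc_local hc G hR (hin s hs) (hin s' hs') h1
    rw [hnorm] at h2
    have h3 : 2 * L * (|s' - s| * ‖t' - t‖) = 2 * L * ‖t' - t‖ * |s' - s| := by ring
    rw [h3] at h2
    exact h2
  have e0 : t + ((0 : ℝ) : ℂ) * (t' - t) = t := by
    push_cast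
    ring
  have e1' : t + ((1 : ℝ) : ℂ) * (t' - t) = t' := by
    push_cast
    ring
  constructor
  · have h := lip_of_local (φ := fun s : ℝ => Tc (G.J (yt G.D y (t + (s : ℂ) * (t' - t))))) hK
      (fun s hs => by
        obtain ⟨ε, hε, h⟩ := hloc s hs
        exact ⟨ε, hε, fun s' hs' hlt => by
          rw [Real.norm_eq_abs]
          exact (h s' hs' hlt).1⟩)
    simp only [e0, e1'] at h
    rw [Real.norm_eq_abs] at h
    exact h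
  · have h := lip_of_local (φ := fun s : ℝ => Zc (G.J (yt G.D y (t + (s : ℂ) * (t' - t))))) hK
      (fun s hs => by
        obtain ⟨ε, hε, h⟩ := hloc s hs
        exact ⟨ε, hε, fun s' hs' hlt => (h s' hs' hlt).2⟩)
    simp only [e0, e1'] at h
    exact h

/-- Bound of `T` by the distance to an ideal point. Let the open unit disc be free and `t = 1` ideal.
Then `r0 T_t ≤ |1 - t|` for `|t| < 1`.

Proof. Suppose `|1 - t| < r0 T_t`. At `y_t` the disc of radius `r0 T_t` is free (slab,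
`|t' n(e₁)| = |t'|/T_t`). Choose a real `s < 1` close to `1` with `|s - t| < r0 T_t` (and `s > 0`).
By `null_ac` (base `y`, `R = 1`) `y_s = y_t.(uni (s - t) e₁)`, and by `null_ac` (base `y_t`,
`R = r0 T_t`) `(1 - s) n(e₁) ∈ St (y_s)`. By `null_concat` (`t := s`, `ρ := (1-s)/s`)
`n(e₁) ∈ St y`: contradiction. -/
theorem Tc_le_ideal (hc : Cst r0 L) (G : Geo E r0 L) {y : E}
    (h1 : ∀ t : ℂ, ‖t‖ < 1 → t • nn e1 ∈ St G.D y) (h2 : nn e1 ∉ St G.D y) {t : ℂ} (ht : ‖t‖ < 1) :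
    r0 * Tc (G.J (yt G.D y t)) ≤ ‖1 - t‖ := by
  by_contra hcon
  push Not at hcon
  have hfree : ∀ τ : ℂ, ‖τ‖ < r0 * Tc (G.J (yt G.D y t)) → τ • nn e1 ∈ St G.D (yt G.D y t) :=
    fun τ hτ => j2_free G _ hτ
  set R' := r0 * Tc (G.J (yt G.D y t)) with hR'
  obtain ⟨δ, hδ, hδ1, hδ2⟩ : ∃ δ : ℝ, 0 < δ ∧ δ ≤ 1 / 2 ∧ ‖1 - t‖ + δ < R' := by
    refine ⟨min (1 / 2) ((R' - ‖1 - t‖) / 2), lt_min (by norm_num) (by linarith),
      min_le_left _ _, ?_⟩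
    have := min_le_right (1 / 2) ((R' - ‖1 - t‖) / 2)
    linarith
  have hs1 : ‖((1 - δ : ℝ) : ℂ)‖ < 1 := by
    rw [Complex.norm_real, Real.norm_eq_abs, abs_of_nonneg (by linarith)]
    linarith
  have hst : ‖((1 - δ : ℝ) : ℂ) - t‖ < R' := by
    have h3 : ((1 - δ : ℝ) : ℂ) - t = (1 - t) - (δ : ℂ) := by
      push_cast
      ring
    rw [h3]
    have h4 := norm_sub_le (1 - t) (δ : ℂ)
    rw [Complex.norm_real, Real.norm_eq_abs, abs_of_pos hδ] at h4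
    linarith
  have h3 := null_ac G.hD h1 ht (t' := ((1 - δ : ℝ) : ℂ) - t) (by
    rw [add_sub_cancel]
    exact hs1)
  have h4 : ac G.D (yt G.D y t) (uni (((1 - δ : ℝ) : ℂ) - t) e1) =
      ac G.D y (uni ((1 - δ : ℝ) : ℂ) e1) := by
    unfold yt
    rw [h3.2, add_sub_cancel]
  have h5 := null_ac G.hD hfree hst (t' := 1 - ((1 - δ : ℝ) : ℂ)) (by
    have h6 : ((1 - δ : ℝ) : ℂ) - t + (1 - ((1 - δ : ℝ) : ℂ)) = 1 - t := by ring
    rw [h6]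
    exact hcon)
  rw [h4] at h5
  have hs0 : ((1 - δ : ℝ) : ℂ) ≠ 0 := by
    have : (1 - δ : ℝ) ≠ 0 := by linarith
    exact_mod_cast this
  have hs0' : (1 - δ : ℝ) ≠ 0 := by
    intro h
    rw [h] at hs0
    exact hs0 Complex.ofReal_zero
  have hρ : 0 ≤ δ / (1 - δ) := div_nonneg hδ.le (by linarith)
  have hρs : ((δ / (1 - δ) : ℝ) : ℂ) * ((1 - δ : ℝ) : ℂ) = 1 - ((1 - δ : ℝ) : ℂ) := by
    rw [← Complex.ofReal_mul, div_mul_cancel₀ _ hs0']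
    push_cast
    ring
  have h7 := null_concat G.hD hρ (h1 _ hs1) (by
    rw [hρs]
    exact h5.1)
  apply h2
  have h8 : (1 + ((δ / (1 - δ) : ℝ) : ℂ)) * ((1 - δ : ℝ) : ℂ) = 1 := by
    rw [add_mul, hρs]
    ring
  have h9 := h7.1
  rw [h8, one_smul] at h9
  exact h9

/-- The limit of `ζ` at the ideal point. Proof. `w ↦ ζ_{1-w}` is Lipschitz on `(0,1)` (`lip_disc`),
hence Cauchy as `w → 0`; the estimate `|ζ_{1-w} - a| ≤ 2 L w` is the limit of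
`|ζ_{1-w} - ζ_{1-w'}| ≤ 2 L |w - w'|`; for `w = 1` use `t = 0` (`‖0‖ < 1`). -/
theorem exists_limit (hc : Cst r0 L) (G : Geo E r0 L) {y : E}
    (h1 : ∀ t : ℂ, ‖t‖ < 1 → t • nn e1 ∈ St G.D y) :
    ∃ a : ℂ, ∀ w ∈ Ioc (0:ℝ) 1, ‖Zc (G.J (yt G.D y ((1 - w : ℝ) : ℂ))) - a‖ ≤ 2 * L * w := by
  have hL := hc.Lpos
  have hlt : ∀ w ∈ Ioc (0:ℝ) 1, ‖((1 - w : ℝ) : ℂ)‖ < 1 := by
    intro w hw
    rw [Complex.norm_real, Real.norm_eq_abs, abs_of_nonneg (by linarith [hw.2])]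
    linarith [hw.1]
  have hlip : ∀ w ∈ Ioc (0:ℝ) 1, ∀ w' ∈ Ioc (0:ℝ) 1,
      ‖Zc (G.J (yt G.D y ((1 - w : ℝ) : ℂ))) - Zc (G.J (yt G.D y ((1 - w' : ℝ) : ℂ)))‖ ≤
        2 * L * |w - w'| := by
    intro w hw w' hw'
    have h2 := (lip_disc hc G h1 (hlt w' hw') (hlt w hw)).2
    have h3 : ‖((1 - w : ℝ) : ℂ) - ((1 - w' : ℝ) : ℂ)‖ = |w - w'| := by
      rw [← Complex.ofReal_sub, Complex.norm_real, Real.norm_eq_abs, ← abs_neg]
      congr 1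
      ring
    rw [h3] at h2
    exact h2
  have hu : ∀ n : ℕ, (1 / ((n : ℝ) + 1)) ∈ Ioc (0:ℝ) 1 := by
    intro n
    refine ⟨by positivity, ?_⟩
    rw [div_le_one (by positivity)]
    have : (0:ℝ) ≤ n := n.cast_nonneg
    linarith
  have hu0 : Tendsto (fun n : ℕ => 1 / ((n : ℝ) + 1)) atTop (𝓝 0) :=
    tendsto_one_div_add_atTop_nhds_zero_nat
  have hcau : CauchySeq fun n : ℕ => Zc (G.J (yt G.D y ((1 - 1 / ((n : ℝ) + 1) : ℝ) : ℂ))) := by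
    have hc1 := hu0.cauchySeq
    rw [Metric.cauchySeq_iff] at hc1 ⊢
    intro ε hε
    obtain ⟨N, hN⟩ := hc1 (ε / (2 * L)) (by positivity)
    refine ⟨N, fun m hm n hn => ?_⟩
    have h2 := hN m hm n hn
    rw [Real.dist_eq, lt_div_iff₀ (by positivity)] at h2
    rw [dist_eq_norm]
    have h3 := hlip _ (hu m) _ (hu n)
    linarith
  obtain ⟨a, ha⟩ := cauchySeq_tendsto_of_complete hcau
  refine ⟨a, fun w hw => ?_⟩
  have h2 : Tendsto (fun n : ℕ => ‖Zc (G.J (yt G.D y ((1 - w : ℝ) : ℂ))) -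
      Zc (G.J (yt G.D y ((1 - 1 / ((n : ℝ) + 1) : ℝ) : ℂ)))‖) atTop
      (𝓝 ‖Zc (G.J (yt G.D y ((1 - w : ℝ) : ℂ))) - a‖) :=
    (tendsto_const_nhds.sub ha).norm
  have h3 : Tendsto (fun n : ℕ => 2 * L * |w - 1 / ((n : ℝ) + 1)|) atTop (𝓝 (2 * L * |w - 0|)) :=
    ((tendsto_const_nhds.sub hu0).abs).const_mul _
  have h4 := le_of_tendsto_of_tendsto' h2 h3 (fun n => hlip w hw _ (hu n))
  rw [sub_zero, abs_of_pos hw.1] at h4
  exact h4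

end HRK
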