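import Pool.Agent.HRK.N1b

/-!
# HRK-K1 : the fixed point (contraction) for natural balls. Pure analysis.
-/

namespace HRK

open Set Filter Topology Matrix

/-- the map whose fixed point is wanted -/
noncomputable def k1_Xi (ζ : ℂ → ℂ) (Y : M2) (t : ℂ) : ℂ :=
  Y 0 1 + ζ t * (Y 0 0 - Y 1 1) - ζ t ^ 2 * Y 1 0 - t * (Y 1 1 - 1 + ζ t * Y 1 0)

theorem k1_four (a b c d : ℂ) {A B C D : ℝ} (ha : ‖a‖ ≤ A) (hb : ‖b‖ ≤ B) (hc : ‖c‖ ≤ C)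
    (hd : ‖d‖ ≤ D) : ‖a + b - c - d‖ ≤ A + B + C + D := by
  have h1 := norm_sub_le (a + b - c) d
  have h2 := norm_sub_le (a + b) c
  have h3 := norm_add_le a b
  linarith

theorem k1_entries (Y : M2) : ‖Y 0 1‖ ≤ nm (Y - 1) ∧ ‖Y 1 0‖ ≤ nm (Y - 1) ∧
    ‖Y 1 1 - 1‖ ≤ nm (Y - 1) ∧ ‖Y 0 0 - Y 1 1‖ ≤ 2 * nm (Y - 1) := by
  have h01 := norm_entry_le (Y - 1) 0 1
  have h10 := norm_entry_le (Y - 1) 1 0
  have h11 := norm_entry_le (Y - 1) 1 1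
  have h00 := norm_entry_le (Y - 1) 0 0
  simp only [Matrix.sub_apply] at h01 h10 h11 h00
  rw [Matrix.one_apply_ne (by decide), sub_zero] at h01
  rw [Matrix.one_apply_ne (by decide), sub_zero] at h10
  rw [Matrix.one_apply_eq] at h11
  rw [Matrix.one_apply_eq] at h00
  refine ⟨h01, h10, h11, ?_⟩
  have h := norm_sub_le (Y 0 0 - 1) (Y 1 1 - 1)
  rw [show Y 0 0 - 1 - (Y 1 1 - 1) = Y 0 0 - Y 1 1 by ring] at h
  linarith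

theorem k1_bound {ζ : ℂ → ℂ} {C : ℝ} (hC : 0 ≤ C) {Y : M2} {t : ℂ} (ht : ‖t‖ ≤ 1 / 2)
    (hζ : ‖ζ t‖ ≤ C) {δ : ℝ} (hδ : nm (Y - 1) ≤ δ) :
    ‖k1_Xi ζ Y t‖ ≤ δ * (2 + 3 * C + C ^ 2) := by
  obtain ⟨e01, e10, e11, e00⟩ := k1_entries Y
  have hδ0 : 0 ≤ δ := (nm_nonneg _).trans hδ
  have h1 : ‖Y 0 1‖ ≤ δ := e01.trans hδ
  have h2 : ‖ζ t * (Y 0 0 - Y 1 1)‖ ≤ C * (2 * δ) := by
    rw [norm_mul]
    exact mul_le_mul hζ (e00.trans (by linarith)) (norm_nonneg _) hC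
  have h3 : ‖ζ t ^ 2 * Y 1 0‖ ≤ C ^ 2 * δ := by
    rw [norm_mul, norm_pow]
    exact mul_le_mul (pow_le_pow_left₀ (norm_nonneg _) hζ 2) (e10.trans hδ) (norm_nonneg _)
      (by positivity)
  have h4 : ‖t * (Y 1 1 - 1 + ζ t * Y 1 0)‖ ≤ 1 / 2 * (δ + C * δ) := by
    rw [norm_mul]
    refine mul_le_mul ht ?_ (norm_nonneg _) (by norm_num)
    refine (norm_add_le _ _).trans (add_le_add (e11.trans hδ) ?_)
    rw [norm_mul]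
    exact mul_le_mul hζ (e10.trans hδ) (norm_nonneg _) hC
  have h5 := k1_four _ _ _ _ h1 h2 h3 h4
  refine h5.trans ?_
  nlinarith [mul_nonneg hC hδ0]

theorem k1_lip {ζ : ℂ → ℂ} {C K : ℝ} (hC : 0 ≤ C) (hK : 0 ≤ K) {Y : M2} {t t' : ℂ}
    (ht' : ‖t'‖ ≤ 1 / 2) (hζ : ‖ζ t‖ ≤ C) (hζ' : ‖ζ t'‖ ≤ C)
    (hL : ‖ζ t - ζ t'‖ ≤ K * ‖t - t'‖) {δ : ℝ} (hδ : nm (Y - 1) ≤ δ) :
    ‖k1_Xi ζ Y t - k1_Xi ζ Y t'‖ ≤ δ * (3 * K + 2 * C * K + 1 + C) * ‖t - t'‖ := by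
  obtain ⟨e01, e10, e11, e00⟩ := k1_entries Y
  have hδ0 : 0 ≤ δ := (nm_nonneg _).trans hδ
  have hn : 0 ≤ ‖t - t'‖ := norm_nonneg _
  have e : k1_Xi ζ Y t - k1_Xi ζ Y t' = (ζ t - ζ t') * (Y 0 0 - Y 1 1) +
      (-((ζ t - ζ t') * ((ζ t + ζ t') * Y 1 0))) - (t - t') * (Y 1 1 - 1 + ζ t * Y 1 0) -
      t' * ((ζ t - ζ t') * Y 1 0) := by
    unfold k1_Xi
    ring
  rw [e]
  have h1 : ‖(ζ t - ζ t') * (Y 0 0 - Y 1 1)‖ ≤ K * ‖t - t'‖ * (2 * δ) := by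
    rw [norm_mul]
    exact mul_le_mul hL (e00.trans (by linarith)) (norm_nonneg _) (by positivity)
  have h2 : ‖-((ζ t - ζ t') * ((ζ t + ζ t') * Y 1 0))‖ ≤ K * ‖t - t'‖ * ((C + C) * δ) := by
    rw [norm_neg, norm_mul, norm_mul]
    refine mul_le_mul hL ?_ (by positivity) (by positivity)
    exact mul_le_mul ((norm_add_le _ _).trans (add_le_add hζ hζ')) (e10.trans hδ) (norm_nonneg _)
      (by positivity)
  have h3 : ‖(t - t') * (Y 1 1 - 1 + ζ t * Y 1 0)‖ ≤ ‖t - t'‖ * (δ + C * δ) := by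
    rw [norm_mul]
    refine mul_le_mul le_rfl ?_ (norm_nonneg _) hn
    refine (norm_add_le _ _).trans (add_le_add (e11.trans hδ) ?_)
    rw [norm_mul]
    exact mul_le_mul hζ (e10.trans hδ) (norm_nonneg _) hC
  have h4 : ‖t' * ((ζ t - ζ t') * Y 1 0)‖ ≤ 1 / 2 * (K * ‖t - t'‖ * δ) := by
    rw [norm_mul, norm_mul]
    refine mul_le_mul ht' ?_ (by positivity) (by norm_num)
    exact mul_le_mul hL (e10.trans hδ) (norm_nonneg _) (by positivity)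
  refine (k1_four _ _ _ _ h1 h2 h3 h4).trans ?_
  have h5 : 0 ≤ K * ‖t - t'‖ * δ := by positivity
  nlinarith

theorem k1_diff {ζ : ℂ → ℂ} {C : ℝ} (hC : 0 ≤ C) (Y Y' : M2) {t : ℂ} (ht : ‖t‖ ≤ 1 / 2)
    (hζ : ‖ζ t‖ ≤ C) :
    ‖k1_Xi ζ Y t - k1_Xi ζ Y' t‖ ≤ (2 + 3 * C + C ^ 2) * nm (Y - Y') := by
  have h01 := norm_entry_le (Y - Y') 0 1
  have h10 := norm_entry_le (Y - Y') 1 0
  have h11 := norm_entry_le (Y - Y') 1 1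
  have h00 := norm_entry_le (Y - Y') 0 0
  simp only [Matrix.sub_apply] at h01 h10 h11 h00
  have hδ0 : 0 ≤ nm (Y - Y') := nm_nonneg _
  have e : k1_Xi ζ Y t - k1_Xi ζ Y' t = (Y 0 1 - Y' 0 1) +
      ζ t * ((Y 0 0 - Y' 0 0) - (Y 1 1 - Y' 1 1)) - ζ t ^ 2 * (Y 1 0 - Y' 1 0) -
      t * ((Y 1 1 - Y' 1 1) + ζ t * (Y 1 0 - Y' 1 0)) := by
    unfold k1_Xi
    ring
  rw [e]
  have h2 : ‖ζ t * ((Y 0 0 - Y' 0 0) - (Y 1 1 - Y' 1 1))‖ ≤ C * (2 * nm (Y - Y')) := by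
    rw [norm_mul]
    refine mul_le_mul hζ ?_ (norm_nonneg _) hC
    exact (norm_sub_le _ _).trans (by linarith)
  have h3 : ‖ζ t ^ 2 * (Y 1 0 - Y' 1 0)‖ ≤ C ^ 2 * nm (Y - Y') := by
    rw [norm_mul, norm_pow]
    exact mul_le_mul (pow_le_pow_left₀ (norm_nonneg _) hζ 2) h10 (norm_nonneg _)
      (by positivity)
  have h4 : ‖t * ((Y 1 1 - Y' 1 1) + ζ t * (Y 1 0 - Y' 1 0))‖ ≤
      1 / 2 * (nm (Y - Y') + C * nm (Y - Y')) := by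
    rw [norm_mul]
    refine mul_le_mul ht ?_ (norm_nonneg _) (by norm_num)
    refine (norm_add_le _ _).trans (add_le_add h11 ?_)
    rw [norm_mul]
    exact mul_le_mul hζ h10 (norm_nonneg _) hC
  refine (k1_four _ _ _ _ h01 h2 h3 h4).trans ?_
  nlinarith [mul_nonneg hC hδ0]

/-- Let `ζ` be `K`-Lipschitz and bounded by `C` on the disc `|t| ≤ 1/2`. For `Y` close to `1` the
equation `t (Y₁₁ + ζ(t) Y₁₀) = Y₀₁ + ζ(t)(Y₀₀ - Y₁₁) - ζ(t)² Y₁₀` has a solution `t = τ(Y)`,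
`|t| ≤ 1/2`, depending continuously on `Y`, with `τ(1) = 0`.

Proof. Put `Ξ_Y(t) = Y₀₁ + ζ(t)(Y₀₀ - Y₁₁) - ζ(t)² Y₁₀ - t (Y₁₁ - 1 + ζ(t) Y₁₀)`; the equation is
`t = Ξ_Y(t)`. If `|Y - 1| < c` all the numbers `Y₀₁, Y₁₀, Y₀₀ - Y₁₁, Y₁₁ - 1` are bounded by `2 c`,
so `|Ξ_Y(t)| ≤ 2c (1 + C + C² + 1/2 + C/2) ≤ 1/2` and `Ξ_Y` is Lipschitz on the disc with constant
`2c (K + 2 C K + 1 + C + K/2) ≤ 1/2` for `c` small. Banach's fixed point theorem in the complete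
metric space `closedBall 0 (1/2)` (`ContractingWith.exists_fixedPoint'` /
`ContractingWith.fixedPoint`). Uniqueness gives `τ 1 = 0` (`Ξ_1 = 0`). Continuity: for `Y, Y'` with
fixed points `t, t'`, `|t - t'| ≤ |Ξ_Y(t) - Ξ_Y(t')| + |Ξ_Y(t') - Ξ_{Y'}(t')| ≤ |t - t'|/2 +
C''|Y - Y'|`, so `|t - t'| ≤ 2 C'' |Y - Y'|` with `C'' = 2(1 + C + C² + 1 + C)`. Use choice to define
`τ`. (The same inequality with `Y' = 1` gives `|τ(Y)| ≤ 2 C'' |Y - 1|`, not needed.) -/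
theorem fix_point (C K : ℝ) : ∃ c > 0, c ≤ 1 / 8 ∧ ∀ ζ : ℂ → ℂ,
    (∀ t t' : ℂ, ‖t‖ ≤ 1 / 2 → ‖t'‖ ≤ 1 / 2 → ‖ζ t - ζ t'‖ ≤ K * ‖t - t'‖) →
    (∀ t : ℂ, ‖t‖ ≤ 1 / 2 → ‖ζ t‖ ≤ C) →
    ∃ τ : M2 → ℂ, ContinuousOn τ {Y | nm (Y - 1) < c} ∧ τ 1 = 0 ∧
      ∀ Y : M2, nm (Y - 1) < c → ‖τ Y‖ ≤ 1 / 2 ∧
        τ Y * (Y 1 1 + ζ (τ Y) * Y 1 0) =
          Y 0 1 + ζ (τ Y) * (Y 0 0 - Y 1 1) - ζ (τ Y) ^ 2 * Y 1 0 := by
  set C1 := |C| with hC1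
  set K1 := |K| with hK1
  have hC0 : 0 ≤ C1 := abs_nonneg C
  have hK0 : 0 ≤ K1 := abs_nonneg K
  set M := 4 + 3 * C1 + C1 ^ 2 + 3 * K1 + 2 * C1 * K1 with hM
  have hMpos : 4 ≤ M := by
    rw [hM]
    nlinarith [mul_nonneg hC0 hK0, sq_nonneg C1]
  refine ⟨1 / (2 * M), by positivity, ?_, ?_⟩
  · rw [div_le_div_iff₀ (by positivity) (by norm_num)]
    linarith
  intro ζ hL hB
  have hL' : ∀ t t' : ℂ, ‖t‖ ≤ 1 / 2 → ‖t'‖ ≤ 1 / 2 → ‖ζ t - ζ t'‖ ≤ K1 * ‖t - t'‖ := by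
    intro t t' ht ht'
    exact (hL t t' ht ht').trans (mul_le_mul_of_nonneg_right (le_abs_self K) (norm_nonneg _))
  have hB' : ∀ t : ℂ, ‖t‖ ≤ 1 / 2 → ‖ζ t‖ ≤ C1 := fun t ht => (hB t ht).trans (le_abs_self C)
  have hcM : 1 / (2 * M) * M = 1 / 2 := by field_simp
  -- bound and Lipschitz constant
  have hbd : ∀ Y : M2, nm (Y - 1) < 1 / (2 * M) → ∀ t : ℂ, ‖t‖ ≤ 1 / 2 →
      ‖k1_Xi ζ Y t‖ ≤ 1 / 2 := by
    intro Y hY t ht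
    refine (k1_bound hC0 ht (hB' t ht) hY.le).trans ?_
    rw [← hcM]
    refine mul_le_mul_of_nonneg_left ?_ (by positivity)
    rw [hM]
    nlinarith [mul_nonneg hC0 hK0]
  have hli : ∀ Y : M2, nm (Y - 1) < 1 / (2 * M) → ∀ t t' : ℂ, ‖t‖ ≤ 1 / 2 → ‖t'‖ ≤ 1 / 2 →
      ‖k1_Xi ζ Y t - k1_Xi ζ Y t'‖ ≤ 1 / 2 * ‖t - t'‖ := by
    intro Y hY t t' ht ht'
    refine (k1_lip hC0 hK0 ht' (hB' t ht) (hB' t' ht') (hL' t t' ht ht') hY.le).trans ?_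
    refine mul_le_mul_of_nonneg_right ?_ (norm_nonneg _)
    rw [← hcM]
    refine mul_le_mul_of_nonneg_left ?_ (by positivity)
    rw [hM]
    nlinarith [sq_nonneg C1]
  have hex : ∀ Y : M2, nm (Y - 1) < 1 / (2 * M) → ∃ t : ℂ, ‖t‖ ≤ 1 / 2 ∧ k1_Xi ζ Y t = t := by
    intro Y hY
    have hmaps : MapsTo (k1_Xi ζ Y) (Metric.closedBall (0:ℂ) (1 / 2))
        (Metric.closedBall (0:ℂ) (1 / 2)) := by
      intro t ht
      rw [Metric.mem_closedBall, dist_zero_right] at ht ⊢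
      exact hbd Y hY t ht
    have hcon : ContractingWith (1 / 2 : NNReal) (hmaps.restrict (k1_Xi ζ Y)
        (Metric.closedBall (0:ℂ) (1 / 2)) (Metric.closedBall (0:ℂ) (1 / 2))) := by
      refine ⟨?_, ?_⟩
      · rw [← NNReal.coe_lt_coe]
        norm_num
      · apply LipschitzWith.of_dist_le_mul
        rintro ⟨t, ht⟩ ⟨t', ht'⟩
        rw [Metric.mem_closedBall, dist_zero_right] at ht ht'
        have := hli Y hY t t' ht ht'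
        rw [Subtype.dist_eq, Subtype.dist_eq, dist_eq_norm, dist_eq_norm]
        have h12 : (((1 / 2 : NNReal) : NNReal) : ℝ) = 1 / 2 := by norm_num
        rw [h12]
        exact this
    obtain ⟨t, ht, hfix, -⟩ := ContractingWith.exists_fixedPoint'
      (Metric.isClosed_closedBall.isComplete) hmaps hcon
      (x := (0:ℂ)) (by rw [Metric.mem_closedBall, dist_self]; norm_num) (edist_ne_top _ _)
    rw [Metric.mem_closedBall, dist_zero_right] at ht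
    exact ⟨t, ht, hfix⟩
  choose! τ hτ1 hτ2 using hex
  have h1c : nm ((1 : M2) - 1) < 1 / (2 * M) := by
    rw [sub_self, nm_zero]
    positivity
  refine ⟨τ, ?_, ?_, ?_⟩
  · intro Y hY
    have hY' : nm (Y - 1) < 1 / (2 * M) := hY
    rw [ContinuousWithinAt, tendsto_iff_norm_sub_tendsto_zero]
    have hest : ∀ Y' ∈ {Y : M2 | nm (Y - 1) < 1 / (2 * M)},
        ‖τ Y' - τ Y‖ ≤ 2 * (2 + 3 * C1 + C1 ^ 2) * nm (Y' - Y) := by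
      intro Y' hY''
      have hY3 : nm (Y' - 1) < 1 / (2 * M) := hY''
      have a1 := hli Y' hY3 (τ Y') (τ Y) (hτ1 Y' hY3) (hτ1 Y hY')
      have a2 := k1_diff hC0 Y' Y (hτ1 Y hY') (hB' _ (hτ1 Y hY'))
      have a3 : τ Y' - τ Y = (k1_Xi ζ Y' (τ Y') - k1_Xi ζ Y' (τ Y)) +
          (k1_Xi ζ Y' (τ Y) - k1_Xi ζ Y (τ Y)) := by
        rw [hτ2 Y' hY3, hτ2 Y hY']
        ring
      have a4 : ‖τ Y' - τ Y‖ ≤ ‖k1_Xi ζ Y' (τ Y') - k1_Xi ζ Y' (τ Y)‖ +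
          ‖k1_Xi ζ Y' (τ Y) - k1_Xi ζ Y (τ Y)‖ := by
        conv_lhs => rw [a3]
        exact norm_add_le _ _
      linarith
    have hlim : Tendsto (fun Y' : M2 => 2 * (2 + 3 * C1 + C1 ^ 2) * nm (Y' - Y))
        (𝓝[{Y : M2 | nm (Y - 1) < 1 / (2 * M)}] Y) (𝓝 0) := by
      have hc : Continuous fun Y' : M2 => 2 * (2 + 3 * C1 + C1 ^ 2) * nm (Y' - Y) :=
        continuous_const.mul (continuous_nm.comp (continuous_id.sub continuous_const))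
      have := (hc.tendsto Y).mono_left (nhdsWithin_le_nhds (s := {Y : M2 | nm (Y - 1) < 1 / (2 * M)}))
      rw [sub_self, nm_zero, mul_zero] at this
      exact this
    refine squeeze_zero' (Eventually.of_forall fun _ => norm_nonneg _) ?_ hlim
    filter_upwards [self_mem_nhdsWithin] with Y' hY''
    exact hest Y' hY''
  · have h2 := hτ2 1 h1c
    rw [← h2]
    unfold k1_Xi
    simp
  · intro Y hY
    refine ⟨hτ1 Y hY, ?_⟩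
    have h2 := hτ2 Y hY
    unfold k1_Xi at h2
    linear_combination -h2

end HRK
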