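import Pool.Agent.HRK.K1
import Pool.Agent.HRK.J2

/-!
# HRK-K2 : natural balls (NB)
-/

namespace HRK

open Set Filter Topology Matrix

universe u

variable {r0 L : ℝ}

/-- The frame norm of `X' = (1 + tE₁₂)⁻¹ Y - 1` when `t` solves the equation of `fix_point`.

Let `J` be a form with frame `k`, `ζ = Zc J`, `T = Tc J`, and
`t (Y₁₁ + ζ Y₁₀) = Y₀₁ + ζ (Y₀₀ - Y₁₁) - ζ² Y₁₀`. Then with `X' = (uni (-t) e1) Y - 1`
`|X'|_k ≤ 2 (1 + |t| + |ζ| + T) · 2 |Y - 1|`.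

Proof. `Fr.nm_cj_coord` for `X'`: `X'₀₀ = Y₀₀ - tY₁₀ - 1`, `X'₀₁ = Y₀₁ - tY₁₁`, `X'₁₀ = Y₁₀`,
`X'₁₁ = Y₁₁ - 1`. The upper right entry is `(Y₀₁ - tY₁₁ + ζ(Y₀₀ - tY₁₀ - Y₁₁) - ζ²Y₁₀)/T = 0`. The
others are bounded by `(1 + |t| + |ζ| + T)|Y - 1|`; `nm_le_of_entries`. -/
theorem nm_slab_le {J : M2} {k : SL} (h : Fr J k) {Y : M2} {t : ℂ}
    (ht : t * (Y 1 1 + Zc J * Y 1 0) = Y 0 1 + Zc J * (Y 0 0 - Y 1 1) - Zc J ^ 2 * Y 1 0) :
    nm (cj k ((uni (-t) e1 : M2) * Y - 1)) ≤ 4 * (1 + ‖t‖ + ‖Zc J‖ + Tc J) * nm (Y - 1) := by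
  have hT := h.Tc_pos
  set ζ := Zc J with hζ
  set T := Tc J with hTdef
  set N := nm (Y - 1) with hN
  have hN0 : 0 ≤ N := nm_nonneg _
  have hU : ((uni (-t) e1 : SL) : M2) * Y = !![Y 0 0 - t * Y 1 0, Y 0 1 - t * Y 1 1; Y 1 0, Y 1 1] := by
    have h1 : (1 : M2) + (-t) • !![0, 1; 0, 0] = !![1, -t; 0, 1] := by
      ext i j
      fin_cases i <;> fin_cases j <;> simp
    rw [uni_coe, nn_e1, h1]
    conv_lhs => rw [Matrix.eta_fin_two Y, Matrix.mul_fin_two]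
    ext i j
    fin_cases i <;> fin_cases j
    · show 1 * Y 0 0 + -t * Y 1 0 = Y 0 0 - t * Y 1 0
      ring
    · show 1 * Y 0 1 + -t * Y 1 1 = Y 0 1 - t * Y 1 1
      ring
    · show 0 * Y 0 0 + 1 * Y 1 0 = Y 1 0
      ring
    · show 0 * Y 0 1 + 1 * Y 1 1 = Y 1 1
      ring
  have n00 : ‖Y 0 0 - 1‖ ≤ N := by
    have := norm_entry_le (Y - 1) 0 0
    simpa using this
  have n11 : ‖Y 1 1 - 1‖ ≤ N := by
    have := norm_entry_le (Y - 1) 1 1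
    simpa using this
  have n10 : ‖Y 1 0‖ ≤ N := by
    have := norm_entry_le (Y - 1) 1 0
    simpa using this
  have hζ0 := norm_nonneg ζ
  have ht0 := norm_nonneg t
  rw [h.nm_cj_coord, hU, ← hζ, ← hTdef]
  refine (nm_le_of_entries (B := (1 + ‖t‖ + ‖ζ‖ + T) * N) (by positivity) ?_).trans (by nlinarith [mul_nonneg (by positivity : 0 ≤ 1 + ‖t‖ + ‖ζ‖ + T) hN0])
  have e00 : ‖Y 0 0 - t * Y 1 0 - 1 - ζ * Y 1 0‖ ≤ (1 + ‖t‖ + ‖ζ‖ + T) * N := by
    have e : Y 0 0 - t * Y 1 0 - 1 - ζ * Y 1 0 = (Y 0 0 - 1) - t * Y 1 0 - ζ * Y 1 0 := by ring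
    rw [e]
    refine (norm_sub_le _ _).trans ?_
    have h1 := norm_sub_le (Y 0 0 - 1) (t * Y 1 0)
    rw [norm_mul] at h1
    rw [norm_mul]
    have h2 : ‖t‖ * ‖Y 1 0‖ ≤ ‖t‖ * N := mul_le_mul_of_nonneg_left n10 ht0
    have h3 : ‖ζ‖ * ‖Y 1 0‖ ≤ ‖ζ‖ * N := mul_le_mul_of_nonneg_left n10 hζ0
    have h4 : 0 ≤ T * N := by positivity
    nlinarith
  have e01 : ((Y 0 1 - t * Y 1 1) + ζ * ((Y 0 0 - t * Y 1 0 - 1) - (Y 1 1 - 1)) - ζ ^ 2 * Y 1 0) / (T : ℂ) = 0 := by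
    rw [div_eq_zero_iff]
    left
    linear_combination -ht
  have e10 : ‖(T : ℂ) * Y 1 0‖ ≤ (1 + ‖t‖ + ‖ζ‖ + T) * N := by
    rw [norm_mul, Complex.norm_real, Real.norm_eq_abs, abs_of_pos hT]
    have h2 : T * ‖Y 1 0‖ ≤ T * N := mul_le_mul_of_nonneg_left n10 hT.le
    have h3 : 0 ≤ ‖ζ‖ * N := by positivity
    have h4 : 0 ≤ ‖t‖ * N := by positivity
    nlinarith
  have e11 : ‖Y 1 1 - 1 + ζ * Y 1 0‖ ≤ (1 + ‖t‖ + ‖ζ‖ + T) * N := by
    refine (norm_add_le _ _).trans ?_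
    rw [norm_mul]
    have h3 : ‖ζ‖ * ‖Y 1 0‖ ≤ ‖ζ‖ * N := mul_le_mul_of_nonneg_left n10 hζ0
    have h4 : 0 ≤ T * N := by positivity
    have h5 : 0 ≤ ‖t‖ * N := by positivity
    nlinarith
  intro i j
  fin_cases i <;> fin_cases j
  · simpa using e00
  · have : ‖((Y 0 1 - t * Y 1 1) + ζ * ((Y 0 0 - t * Y 1 0 - 1) - (Y 1 1 - 1)) - ζ ^ 2 * Y 1 0) / (T : ℂ)‖ ≤ (1 + ‖t‖ + ‖ζ‖ + T) * N := by
      rw [e01, norm_zero]
      positivity
    simpa using this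
  · simpa using e10
  · simpa using e11

theorem k2_yt_zero {E : Type*} [TopologicalSpace E] [T2Space E] (G : Geo E r0 L) (y : E) :
    yt G.D y 0 = y := by
  unfold yt
  rw [uni_zero, ac_one G.hD]

theorem k2_bounds (hc : Cst r0 L) {E : Type*} [TopologicalSpace E] [T2Space E] (G : Geo E r0 L)
    {y : E} (h1 : ∀ t : ℂ, ‖t‖ < 1 → t • nn e1 ∈ St G.D y) {C : ℝ} (hZ : ‖Zc (G.J y)‖ ≤ C)
    (hT : Tc (G.J y) ≤ C) {t : ℂ} (ht : ‖t‖ ≤ 1 / 2) :
    ‖Zc (G.J (yt G.D y t))‖ ≤ |C| + L ∧ Tc (G.J (yt G.D y t)) ≤ |C| + L := by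
  have hL := hc.Lpos
  have h2 := lip_disc hc G h1 (t := 0) (t' := t) (by simp) (by linarith)
  rw [k2_yt_zero, sub_zero] at h2
  obtain ⟨hT1, hZ1⟩ := h2
  have h3 : 2 * L * ‖t‖ ≤ L := by nlinarith
  have hC := le_abs_self C
  constructor
  · have e : Zc (G.J (yt G.D y t)) = (Zc (G.J (yt G.D y t)) - Zc (G.J y)) + Zc (G.J y) := by ring
    rw [e]
    refine (norm_add_le _ _).trans ?_
    linarith
  · have := (abs_le.1 hT1).2
    linarith

/-- (NB), free ball. If the unit null disc of direction `e₁` is free at `y` and `|ζ|, T ≤ C` for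
`J y` then the ball `{|X| < c}` is free, `c = c(C)`; moreover every point `y.g`, `|g - 1| < c`, is of
the form `y_t.g'` with `|t| ≤ 1/2` and `g' = uni (-t) e1 * g` in the slab of `y_t`.

Proof. For `|t| ≤ 1/2`: `‖ζ_t‖ ≤ C + L =: C'`, `T_t ≤ C + L` (`lip_disc` from `0` to `t`, `yt y 0 = y`).
`fix_point` with the function `t ↦ Zc (J y_t)` (Lipschitz constant `2L`, bound `C'`): `c₀, τ`.
For `|Y - 1| < c`, `c ≤ c₀` with `4 (2 + 2C') c < r0`: `X'(Y) := (uni (-τY) e1) Y - 1` is in the slab of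
`y_{τ(Y)}` (`nm_slab_le`), so in `St (y_τ)`. Define `σ(X) = exh (y_{τ(1+X)}) (X'(1+X))` for
`|X| < c`. It is continuous (`continuousOn_exh` composed with the continuous maps `y_τ`
(`continuousOn_ac`) and `X'`); `Dh (σ X) = D(y_τ) (1 + X') = D(y) (uni τ e1)(uni (-τ) e1)(1+X) =
D(y)(1+X)` (`Dh_exh`, `D_ac_uni`), `σ 0 = exh y 0 = (y,0)`. `exh_of_section`. For the last claim
compare first components of `exh y (g-1) = σ(g-1)`. -/
theorem natural_ball (hc : Cst r0 L) (C : ℝ) : ∃ c > 0, c ≤ 1 / 8 ∧ ∀ (E : Type u)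
    [TopologicalSpace E] [T2Space E] (G : Geo E r0 L) (y : E),
    (∀ t : ℂ, ‖t‖ < 1 → t • nn e1 ∈ St G.D y) → ‖Zc (G.J y)‖ ≤ C → Tc (G.J y) ≤ C →
    FB G.D y 1 c ∧ ∀ g : SL, nm ((g : M2) - 1) < c → ∃ t : ℂ, ‖t‖ ≤ 1 / 2 ∧
      ac G.D y g = ac G.D (yt G.D y t) (uni (-t) e1 * g) ∧
      ∀ k : SL, Fr (G.J (yt G.D y t)) k → nm (cj k (((uni (-t) e1 * g : SL) : M2) - 1)) < r0 := by
  have hL := hc.Lpos
  have hr := hc.r0pos
  obtain ⟨c0, hc0, hc8, hfix⟩ := fix_point (|C| + L) (2 * L)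
  have hC0 := abs_nonneg C
  have hden : 0 < 8 * (2 + 2 * (|C| + L)) := by positivity
  set c := min c0 (r0 / (8 * (2 + 2 * (|C| + L)))) with hcdef
  have hcpos : 0 < c := lt_min hc0 (div_pos hr hden)
  have hcr : c * (8 * (2 + 2 * (|C| + L))) ≤ r0 := by
    rw [← le_div_iff₀ hden]
    exact min_le_right _ _
  have hcc0 : c ≤ c0 := min_le_left _ _
  refine ⟨c, hcpos, hcc0.trans hc8, ?_⟩
  intro E _ _ G y h1 hZ hT
  obtain ⟨τ, hτc, hτ1, hτ⟩ := hfix (fun t => Zc (G.J (yt G.D y t)))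
    (fun t t' ht ht' => (lip_disc hc G h1 (t := t') (t' := t) (by linarith) (by linarith)).2)
    (fun t ht => (k2_bounds hc G h1 hZ hT ht).1)
  -- the points in the slab
  have hslab : ∀ X : M2, nm X < c → ‖τ (1 + X)‖ ≤ 1 / 2 ∧ ∀ k : SL, Fr (G.J (yt G.D y (τ (1 + X)))) k →
      nm (cj k (((uni (-(τ (1 + X))) e1 : SL) : M2) * (1 + X) - 1)) < r0 := by
    intro X hX
    have hY : nm ((1 + X) - 1) < c := by
      rwa [add_sub_cancel_left]
    obtain ⟨hτn, hτe⟩ := hτ (1 + X) (hY.trans_le hcc0)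
    refine ⟨hτn, fun k hk => ?_⟩
    have h2 := nm_slab_le hk hτe
    obtain ⟨hb1, hb2⟩ := k2_bounds hc G h1 hZ hT hτn
    have hTp := hk.Tc_pos
    rw [add_sub_cancel_left] at h2
    have hX0 := nm_nonneg X
    have h3 : 4 * (1 + ‖τ (1 + X)‖ + ‖Zc (G.J (yt G.D y (τ (1 + X))))‖ + Tc (G.J (yt G.D y (τ (1 + X))))) * nm X ≤
        4 * (2 + 2 * (|C| + L)) * nm X := by
      refine mul_le_mul_of_nonneg_right ?_ hX0
      linarith
    have h4 : 4 * (2 + 2 * (|C| + L)) * nm X ≤ 4 * (2 + 2 * (|C| + L)) * c :=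
      mul_le_mul_of_nonneg_left hX.le (by positivity)
    have h5 : 4 * (2 + 2 * (|C| + L)) * c < r0 := by
      have : c * (8 * (2 + 2 * (|C| + L))) = 2 * (4 * (2 + 2 * (|C| + L)) * c) := by ring
      rw [this] at hcr
      have h6 : 0 < 4 * (2 + 2 * (|C| + L)) * c := by positivity
      linarith
    linarith
  have hSt : ∀ X : M2, nm X < c →
      ((uni (-(τ (1 + X))) e1 : SL) : M2) * (1 + X) - 1 ∈ St G.D (yt G.D y (τ (1 + X))) := by
    intro X hX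
    obtain ⟨k, hk⟩ := G.form (yt G.D y (τ (1 + X)))
    exact G.slab _ k hk _ ((hslab X hX).2 k hk)
  obtain ⟨σ, hσdef⟩ : ∃ σ : M2 → E × ℂ, σ = fun X => exh G.D (yt G.D y (τ (1 + X)))
    (((uni (-(τ (1 + X))) e1 : SL) : M2) * (1 + X) - 1) := ⟨_, rfl⟩
  have hτX : ContinuousOn (fun X : M2 => τ (1 + X)) {X | nm X < c} := by
    refine hτc.comp (by fun_prop) ?_
    intro X hX
    show nm ((1 + X) - 1) < c0
    rw [add_sub_cancel_left]
    exact lt_of_lt_of_le hX hcc0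
  have hu : ∀ s : ℂ, ((uni s e1 : SL) : M2) - 1 = s • nn e1 := fun s => by
    rw [uni_coe, add_sub_cancel_left]
  have huni : ContinuousOn (fun X : M2 => uni (τ (1 + X)) e1) {X | nm X < c} :=
    continuous_uni.comp_continuousOn (hτX.prodMk continuousOn_const)
  have huni' : ContinuousOn (fun X : M2 => uni (-(τ (1 + X))) e1) {X | nm X < c} :=
    continuous_uni.comp_continuousOn (hτX.neg.prodMk continuousOn_const)
  have hyt : ContinuousOn (fun X : M2 => yt G.D y (τ (1 + X))) {X | nm X < c} := by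
    have h2 := (continuousOn_ac G.hD).comp (s := {X : M2 | nm X < c})
      (f := fun X : M2 => (y, uni (τ (1 + X)) e1)) (continuousOn_const.prodMk huni) ?_
    · exact h2
    · intro X hX
      show ((uni (τ (1 + X)) e1 : SL) : M2) - 1 ∈ St G.D y
      rw [hu]
      exact h1 _ (by linarith [(hslab X hX).1])
  have hcont : ContinuousOn σ {X | nm X < c} := by
    rw [hσdef]
    have h2 : ContinuousOn (fun X : M2 => ((uni (-(τ (1 + X))) e1 : SL) : M2) * (1 + X) - 1) {X | nm X < c} := by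
      have h3 : ContinuousOn (fun X : M2 => ((uni (-(τ (1 + X))) e1 : SL) : M2)) {X | nm X < c} :=
        isEmbedding_coe.continuous.comp_continuousOn huni'
      exact (h3.mul (by fun_prop)).sub continuousOn_const
    have h4 := (continuousOn_exh G.hD).comp (s := {X : M2 | nm X < c})
      (f := fun X : M2 => (yt G.D y (τ (1 + X)), ((uni (-(τ (1 + X))) e1 : SL) : M2) * (1 + X) - 1))
      (hyt.prodMk h2) ?_
    · exact h4
    · intro X hX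
      exact hSt X hX
  have hDσ : ∀ X ∈ {X : M2 | nm X < c}, Dh G.D (σ X) = (G.D y : M2) * (1 + X) := by
    intro X hX
    have hX' : nm X < c := hX
    have h2 : (τ (1 + X)) • nn e1 ∈ St G.D y := h1 _ (by linarith [(hslab X hX').1])
    rw [hσdef]
    simp only
    rw [Dh_exh (hSt X hX')]
    have h3 : G.D (yt G.D y (τ (1 + X))) = G.D y * uni (τ (1 + X)) e1 := D_ac_uni G.hD h2
    rw [h3, add_sub_cancel, Matrix.SpecialLinearGroup.coe_mul, mul_assoc, ← mul_assoc (uni (τ (1 + X)) e1 : M2),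
      ← Matrix.SpecialLinearGroup.coe_mul, uni_mul, add_neg_cancel, uni_zero, Matrix.SpecialLinearGroup.coe_one,
      one_mul]
  have hseg : ∀ X ∈ {X : M2 | nm X < c}, ∀ t ∈ Icc (0:ℝ) 1, t • X ∈ {X : M2 | nm X < c} := by
    intro X hX t ht
    have hX' : nm X < c := hX
    show nm (t • X) < c
    rw [nm_real_smul, abs_of_nonneg ht.1]
    have := nm_nonneg X
    nlinarith [ht.2]
  have h0 : σ 0 = (y, 0) := by
    rw [hσdef]
    simp only
    rw [add_zero, hτ1, k2_yt_zero, neg_zero, uni_zero, Matrix.SpecialLinearGroup.coe_one, one_mul, sub_self,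
      exh_zero G.hD]
  have hmain := exh_of_section G.hD hcont hDσ hseg h0
  refine ⟨fun X hX => (hmain X (by rwa [one_cj] at hX)).1, fun g hg => ?_⟩
  have h2 := hmain ((g : M2) - 1) hg
  have h3 := hslab ((g : M2) - 1) hg
  rw [add_sub_cancel] at h3
  refine ⟨τ (g : M2), h3.1, ?_, ?_⟩
  · have h4 : ac G.D y g = (exh G.D y ((g : M2) - 1)).1 := rfl
    rw [h4, h2.2, hσdef]
    simp only
    rw [add_sub_cancel]
    rfl
  · intro k hk
    rw [Matrix.SpecialLinearGroup.coe_mul]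
    exact h3.2 k hk

/-- (NB), bounds. Proof. `natural_ball`, and `J_compare` at `y_t`: `Tc (J (y.g)) ≤ 2 T_t`,
`|ζ'| ≤ |ζ_t| + 2 L r0 T_t`. -/
theorem natural_ball_bound (hc : Cst r0 L) (C : ℝ) : ∃ c > 0, c ≤ 1 / 8 ∧ ∃ C' > 0, ∀ (E : Type u)
    [TopologicalSpace E] [T2Space E] (G : Geo E r0 L) (y : E),
    (∀ t : ℂ, ‖t‖ < 1 → t • nn e1 ∈ St G.D y) → ‖Zc (G.J y)‖ ≤ C → Tc (G.J y) ≤ C →
    FB G.D y 1 c ∧ ∀ g : SL, nm ((g : M2) - 1) < c →
      ‖Zc (G.J (ac G.D y g))‖ ≤ C' ∧ Tc (G.J (ac G.D y g)) ≤ C' := by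
  obtain ⟨c, hcpos, hc8, h⟩ := natural_ball.{u} hc C
  have hL := hc.Lpos
  have hr := hc.r0pos
  have hLr := hc.Lr0
  have hC0 := abs_nonneg C
  refine ⟨c, hcpos, hc8, 2 * (|C| + L), by positivity, ?_⟩
  intro E _ _ G y h1 hZ hT
  obtain ⟨hF, hg⟩ := h E G y h1 hZ hT
  refine ⟨hF, fun g hg' => ?_⟩
  obtain ⟨t, ht, he, hk⟩ := hg g hg'
  obtain ⟨k, hfr⟩ := G.form (yt G.D y t)
  have hn := hk k hfr
  obtain ⟨-, hT2, -, -, hZ2⟩ := J_compare hc G hfr hn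
  obtain ⟨hb1, hb2⟩ := k2_bounds hc G h1 hZ hT ht
  rw [← he] at hT2 hZ2
  have hTp := hfr.Tc_pos
  constructor
  · have e : Zc (G.J (ac G.D y g)) = (Zc (G.J (ac G.D y g)) - Zc (G.J (yt G.D y t))) + Zc (G.J (yt G.D y t)) := by ring
    rw [e]
    refine (norm_add_le _ _).trans ?_
    have h3 : 2 * L * nm (cj k (((uni (-t) e1 * g : SL) : M2) - 1)) * Tc (G.J (yt G.D y t)) ≤ |C| + L := by
      have h4 : 2 * L * nm (cj k (((uni (-t) e1 * g : SL) : M2) - 1)) ≤ 1 := by nlinarith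
      have h5 := nm_nonneg (cj k (((uni (-t) e1 * g : SL) : M2) - 1))
      calc 2 * L * nm (cj k (((uni (-t) e1 * g : SL) : M2) - 1)) * Tc (G.J (yt G.D y t)) ≤
            1 * Tc (G.J (yt G.D y t)) := mul_le_mul_of_nonneg_right h4 hTp.le
        _ ≤ |C| + L := by linarith
    linarith
  · linarith

end HRK
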