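import Pool.Agent.HRK.N4

/-!
# HRK-N5 : algebra of planes (rank one idempotents)
-/

namespace HRK

open Set Filter Topology Matrix

/-- `P² = P`. Proof. Cayley-Hamilton: `P² - tr P · P + det P = 0`; or compute entries:
`P₁₁ = 1 - P₀₀`, `P₀₀ P₁₁ = P₀₁ P₁₀`. -/
theorem IsPl.sq {P : M2} (h : IsPl P) : P * P = P := by
  obtain ⟨ht, hd⟩ := h
  rw [Matrix.trace_fin_two] at ht
  rw [Matrix.det_fin_two] at hd
  ext i j
  rw [Matrix.mul_apply, Fin.sum_univ_two]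
  fin_cases i <;> fin_cases j
  · show P 0 0 * P 0 0 + P 0 1 * P 1 0 = P 0 0
    linear_combination P 0 0 * ht - hd
  · show P 0 0 * P 0 1 + P 0 1 * P 1 1 = P 0 1
    linear_combination P 0 1 * ht
  · show P 1 0 * P 0 0 + P 1 1 * P 1 0 = P 1 0
    linear_combination P 1 0 * ht
  · show P 1 0 * P 0 1 + P 1 1 * P 1 1 = P 1 1
    linear_combination P 1 1 * ht - hd

theorem IsPl.ne_zero {P : M2} (h : IsPl P) : P ≠ 0 := by
  rintro rfl
  have := h.1
  simp at this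

/-- `|P| ≥ 1`. Proof. `P² = P`, `|P| ≤ |P|²`. -/
theorem IsPl.one_le_nm {P : M2} (h : IsPl P) : 1 ≤ nm P := by
  have h1 : nm P ≤ nm P * nm P := by
    have := nm_mul_le P P
    rwa [h.sq] at this
  have h2 : 0 < nm P := lt_of_le_of_ne (nm_nonneg P) (fun e => h.ne_zero (nm_eq_zero.mp e.symm))
  nlinarith

theorem IsPl.conj {P : M2} (h : IsPl P) (k : SL) : IsPl (cj k P) := by
  exact ⟨by rw [trace_cj]; exact h.1, by rw [det_cj]; exact h.2⟩

/-- explicit formula. -/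
theorem qP_eq (P : M2) (ψ : V) :
    qP P ψ = P 1 0 * ψ 0 ^ 2 + (P 1 1 - P 0 0) * ψ 0 * ψ 1 - P 0 1 * ψ 1 ^ 2 := by
  unfold qP nn
  rw [Matrix.trace_fin_two, Matrix.mul_apply, Matrix.mul_apply, Fin.sum_univ_two,
    Fin.sum_univ_two]
  simp only [Matrix.of_apply, Matrix.cons_val', Matrix.cons_val_zero, Matrix.cons_val_one,
    Matrix.cons_val_fin_one]
  ring

theorem qP_smul (P : M2) (c : ℂ) (ψ : V) : qP P (c • ψ) = c ^ 2 * qP P ψ := by
  rw [qP_eq, qP_eq]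
  simp only [Pi.smul_apply, smul_eq_mul]
  ring

theorem qP_cj (k : SL) (P : M2) (ψ : V) : qP (cj k P) ((k : M2) *ᵥ ψ) = qP P ψ := by
  unfold qP
  rw [← cj_nn, ← cj_mul, trace_cj]

theorem qP_cj' (k : SL) (P : M2) (ψ : V) : qP P (((k⁻¹ : SL) : M2) *ᵥ ψ) = qP (cj k P) ψ := by
  have := qP_cj k P (((k⁻¹ : SL) : M2) *ᵥ ψ)
  rw [Matrix.mulVec_mulVec, coe_mul_inv, Matrix.one_mulVec] at this
  exact this.symm

/-- `|q_P(ψ)| ≤ |P| |ψ|^2`. -/
theorem norm_qP_le (P : M2) (ψ : V) : ‖qP P ψ‖ ≤ nm P * nsq ψ := by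
  unfold qP
  have := norm_trace_mul_le P (nn ψ)
  rwa [nm_nn] at this

theorem norm_qP_sub_le (P P' : M2) (ψ : V) : ‖qP P ψ - qP P' ψ‖ ≤ nm (P - P') * nsq ψ := by
  have e : qP P ψ - qP P' ψ = qP (P - P') ψ := by
    unfold qP
    rw [sub_mul, Matrix.trace_sub]
  rw [e]
  exact norm_qP_le _ _

theorem norm_qP_sub_le' (P : M2) (ψ φ : V) :
    ‖qP P ψ - qP P φ‖ ≤ nm P * ((vn ψ + vn φ) * vn (ψ - φ)) := by
  have e : qP P ψ - qP P φ = (P * (nn ψ - nn φ)).trace := by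
    unfold qP
    rw [mul_sub, Matrix.trace_sub]
  rw [e]
  exact (norm_trace_mul_le _ _).trans
    (mul_le_mul_of_nonneg_left (nm_nn_sub_le ψ φ) (nm_nonneg P))

theorem continuous_qP : Continuous fun p : M2 × V => qP p.1 p.2 := by
  exact (continuous_fst.matrix_mul (continuous_nn.comp continuous_snd)).matrix_trace

/-- `P ψ = ` component along the range. If `q_P(ψ) ≠ 0` then `P ψ ≠ 0` and `ω(P ψ, ψ) ≠ 0`; in fact
`q_P(ψ) = ω(ψ, P ψ)`. Proof. `tr (P n(ψ))`, `n(ψ) v = ω(ψ,v) ψ`, so `tr (P n(ψ)) = ω(ψ, P ψ)`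
(trace of the rank one map `v ↦ ω(ψ,v) Pψ`). Check by entries. -/
theorem qP_eq_om (P : M2) (ψ : V) : qP P ψ = om ψ (P *ᵥ ψ) := by
  rw [qP_eq]
  unfold om
  simp only [Matrix.mulVec, dotProduct, Fin.sum_univ_two]
  ring

/-- A plane is determined by `q_P(ψ)`, and the direction of `P ψ`: if `q_P(ψ) = q_P'(ψ) ≠ 0` and
`P ψ, P' ψ` are proportional then `P = P'`.

Proof. By `qP_eq_om`, `ω(ψ, Pψ) = ω(ψ, P'ψ) ≠ 0` and `P'ψ = c Pψ`, so `c = 1`, `Pψ = P'ψ =: a`,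
`a` and `ψ` are a basis; `P a = P² ψ = Pψ = a` and the same for `P'`. So `P = P'` on a basis. -/
theorem IsPl.eq_of_range {P P' : M2} (h : IsPl P) (h' : IsPl P') {ψ : V} (hq : qP P ψ ≠ 0)
    (he : qP P ψ = qP P' ψ) {c : ℂ} (hc : P' *ᵥ ψ = c • (P *ᵥ ψ)) : P = P' := by
  have e1 : om ψ (P' *ᵥ ψ) = c * om ψ (P *ᵥ ψ) := by rw [hc, om_smul_right]
  rw [← qP_eq_om, ← qP_eq_om, ← he] at e1
  have hc1 : c = 1 := by
    have : (c - 1) * qP P ψ = 0 := by linear_combination -e1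
    have := (mul_eq_zero.mp this).resolve_right hq
    linear_combination this
  rw [hc1, one_smul] at hc
  set a : V := P *ᵥ ψ with ha
  have e2 : P *ᵥ a = a := by
    rw [ha, Matrix.mulVec_mulVec, h.sq]
  have e3 : P' *ᵥ a = a := by
    rw [← hc, Matrix.mulVec_mulVec, h'.sq]
  have hom : om ψ a ≠ 0 := by rwa [ha, ← qP_eq_om]
  have k1 : ∀ i, P i 0 * ψ 0 + P i 1 * ψ 1 = a i := by
    intro i
    have := congrFun ha i
    simp only [Matrix.mulVec, dotProduct, Fin.sum_univ_two] at this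
    exact this.symm
  have k2 : ∀ i, P' i 0 * ψ 0 + P' i 1 * ψ 1 = a i := by
    intro i
    have := congrFun hc i
    simp only [Matrix.mulVec, dotProduct, Fin.sum_univ_two] at this
    exact this
  have k3 : ∀ i, P i 0 * a 0 + P i 1 * a 1 = a i := by
    intro i
    have := congrFun e2 i
    simp only [Matrix.mulVec, dotProduct, Fin.sum_univ_two] at this
    exact this
  have k4 : ∀ i, P' i 0 * a 0 + P' i 1 * a 1 = a i := by
    intro i
    have := congrFun e3 i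
    simp only [Matrix.mulVec, dotProduct, Fin.sum_univ_two] at this
    exact this
  unfold om at hom
  have z0 : ∀ i, P i 0 = P' i 0 := by
    intro i
    apply mul_right_cancel₀ hom
    linear_combination a 1 * (k1 i) - a 1 * (k2 i) - ψ 1 * (k3 i) + ψ 1 * (k4 i)
  have z1 : ∀ i, P i 1 = P' i 1 := by
    intro i
    apply mul_right_cancel₀ hom
    linear_combination ψ 0 * (k3 i) - ψ 0 * (k4 i) - a 0 * (k1 i) + a 0 * (k2 i)
  ext i j
  fin_cases j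
  · exact z0 i
  · exact z1 i

/-! ### moving the base point -/

theorem pmv_one {P : M2} (h : IsPl P) : pmv P 1 = P := by
  unfold pmv
  rw [Matrix.SpecialLinearGroup.coe_one, mul_one, h.1, inv_one, one_smul]

/-- `|tr (P g) - 1| ≤ |P| |g - 1|`. -/
theorem norm_trace_pg_sub_le {P : M2} (h : IsPl P) (g : SL) :
    ‖(P * (g : M2)).trace - 1‖ ≤ nm P * nm ((g : M2) - 1) := by
  have e : (P * (g : M2)).trace - 1 = (P * ((g : M2) - 1)).trace := by
    rw [mul_sub, mul_one, Matrix.trace_sub, h.1]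
  rw [e]
  exact norm_trace_mul_le _ _

theorem IsPl.move {P : M2} (h : IsPl P) {g : SL} (hg : (P * (g : M2)).trace ≠ 0) :
    IsPl (pmv P g) := by
  refine ⟨?_, ?_⟩
  · unfold pmv
    rw [Matrix.trace_smul, smul_eq_mul, inv_mul_cancel₀ hg]
  · unfold pmv
    rw [Matrix.det_smul, Matrix.det_mul, h.2]
    simp

/-- composition. Proof. `P^g g' / tr(P^g g') = P g g'/ tr (P g g')`. -/
theorem pmv_pmv {P : M2} {g g' : SL} (hg : (P * (g : M2)).trace ≠ 0) :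
    pmv (pmv P g) g' = pmv P (g * g') := by
  unfold pmv
  rw [smul_mul_assoc, Matrix.trace_smul, smul_smul, smul_eq_mul, Matrix.mul_assoc,
    ← Matrix.SpecialLinearGroup.coe_mul]
  congr 1
  rw [mul_inv, inv_inv, mul_comm ((P * (g : M2)).trace) _, mul_assoc, mul_inv_cancel₀ hg, mul_one]

theorem trace_pmv_mul {P : M2} {g g' : SL} (hg : (P * (g : M2)).trace ≠ 0) :
    (pmv P g * (g' : M2)).trace = (P * ((g * g' : SL) : M2)).trace / (P * (g : M2)).trace := by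
  unfold pmv
  rw [smul_mul_assoc, Matrix.trace_smul, smul_eq_mul, Matrix.mul_assoc,
    ← Matrix.SpecialLinearGroup.coe_mul, div_eq_inv_mul]

/-- frames. -/
theorem cj_pmv (k : SL) (P : M2) (g : SL) : cj k (pmv P g) = pmv (cj k P) (k * g * k⁻¹) := by
  unfold pmv
  rw [← cj_coe, ← cj_mul, trace_cj, cj_smul]

/-- Lipschitz bound: if `|P| |g - 1| ≤ 1/2` then `|P^g - P| ≤ 4 |P|^2 |g - 1|`.

Proof. `P^g - P = (P g - P)/τ + (1/τ - 1) P`, `τ = tr (P g)`, `|τ - 1| ≤ |P||g-1| ≤ 1/2` so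
`|τ| ≥ 1/2`, `|1/τ - 1| ≤ 2 |P||g-1|`; `|Pg - P| ≤ |P||g-1|`. Total `≤ 2|P||g-1| + 2|P|^2|g-1|`,
and `|P| ≥ 1`. -/
theorem nm_pmv_sub_le {P : M2} (h : IsPl P) {g : SL} (hg : nm P * nm ((g : M2) - 1) ≤ 1 / 2) :
    nm (pmv P g - P) ≤ 4 * nm P ^ 2 * nm ((g : M2) - 1) := by
  set τ : ℂ := (P * (g : M2)).trace with hτ
  set δ : ℝ := nm ((g : M2) - 1) with hδ
  have hδ0 : 0 ≤ δ := nm_nonneg _
  have hC1 : 1 ≤ nm P := h.one_le_nm
  have h1 : ‖τ - 1‖ ≤ nm P * δ := norm_trace_pg_sub_le h g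
  have h2 : 1 / 2 ≤ ‖τ‖ := by
    have := norm_sub_norm_le (1 : ℂ) τ
    rw [norm_one, norm_sub_rev] at this
    linarith
  have hτ0 : τ ≠ 0 := by
    intro e; rw [e, norm_zero] at h2; linarith
  have hinv : ‖τ⁻¹‖ ≤ 2 := by
    rw [norm_inv]
    have : (‖τ‖)⁻¹ ≤ (1 / 2 : ℝ)⁻¹ := inv_anti₀ (by norm_num) h2
    norm_num at this
    exact this
  have hinv' : ‖τ⁻¹ - 1‖ ≤ 2 * (nm P * δ) := by
    have e : τ⁻¹ - 1 = -(τ⁻¹ * (τ - 1)) := by field_simp; ring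
    rw [e, norm_neg, norm_mul]
    exact mul_le_mul hinv h1 (norm_nonneg _) (by norm_num)
  have e : pmv P g - P = τ⁻¹ • (P * ((g : M2) - 1)) + (τ⁻¹ - 1) • P := by
    unfold pmv
    rw [← hτ, mul_sub, mul_one, smul_sub, sub_smul, one_smul]
    abel
  rw [e]
  have b1 := nm_add_le (τ⁻¹ • (P * ((g : M2) - 1))) ((τ⁻¹ - 1) • P)
  rw [nm_smul, nm_smul] at b1
  have b2 : ‖τ⁻¹‖ * nm (P * ((g : M2) - 1)) ≤ 2 * (nm P * δ) :=
    mul_le_mul hinv (nm_mul_le _ _) (nm_nonneg _) (by norm_num)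
  have b3 : ‖τ⁻¹ - 1‖ * nm P ≤ 2 * (nm P * δ) * nm P :=
    mul_le_mul_of_nonneg_right hinv' (nm_nonneg _)
  have b4 : 2 * (nm P * δ) + 2 * (nm P * δ) * nm P ≤ 4 * nm P ^ 2 * δ := by
    have : 0 ≤ nm P * δ * (nm P - 1) :=
      mul_nonneg (mul_nonneg (by linarith) hδ0) (by linarith)
    nlinarith
  linarith

/-- Lipschitz bound in `P`: for `|P|, |P'| ≤ C`, `C |g - 1| ≤ 1/2`:
`|P^g - P'^g| ≤ 16 C |P - P'|`  (`C ≥ 1` automatically).

Proof. `τ = tr(Pg)`, `τ' = tr(P'g)`, `|τ|,|τ'| ≥ 1/2`, `|g| ≤ 2 + 1/2 ≤ 3`,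
`Pg/τ - P'g/τ' = (P - P')g/τ + P'g (τ' - τ)/(ττ')`, `|τ' - τ| = |tr((P'-P) g)| = |tr((P' - P)(g-1))|`
(the traces of `P, P'` are equal) `≤ |P - P'| |g-1| ≤ |P-P'|/(2C)`. Total
`≤ 6|P-P'| + C·3·4·|P-P'|/(2C) = 12 |P - P'|`. -/
theorem nm_pmv_sub_pmv_le {P P' : M2} (h : IsPl P) (h' : IsPl P') {C : ℝ} (hC : nm P ≤ C)
    (hC' : nm P' ≤ C) {g : SL} (hg : C * nm ((g : M2) - 1) ≤ 1 / 2) :
    nm (pmv P g - pmv P' g) ≤ 16 * C * nm (P - P') := by
  set τ : ℂ := (P * (g : M2)).trace with hτ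
  set τ' : ℂ := (P' * (g : M2)).trace with hτ'
  set δ : ℝ := nm ((g : M2) - 1) with hδ
  set D : ℝ := nm (P - P') with hD
  have hδ0 : 0 ≤ δ := nm_nonneg _
  have hD0 : 0 ≤ D := nm_nonneg _
  have hC1 : 1 ≤ C := h.one_le_nm.trans hC
  have hC0 : 0 ≤ C := by linarith
  have h1 : ‖τ - 1‖ ≤ 1 / 2 :=
    ((norm_trace_pg_sub_le h g).trans (mul_le_mul_of_nonneg_right hC hδ0)).trans hg
  have h1' : ‖τ' - 1‖ ≤ 1 / 2 :=
    ((norm_trace_pg_sub_le h' g).trans (mul_le_mul_of_nonneg_right hC' hδ0)).trans hg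
  have h2 : 1 / 2 ≤ ‖τ‖ := by
    have := norm_sub_norm_le (1 : ℂ) τ
    rw [norm_one, norm_sub_rev] at this
    linarith
  have h2' : 1 / 2 ≤ ‖τ'‖ := by
    have := norm_sub_norm_le (1 : ℂ) τ'
    rw [norm_one, norm_sub_rev] at this
    linarith
  have hτ0 : τ ≠ 0 := by
    intro e; rw [e, norm_zero] at h2; linarith
  have hτ0' : τ' ≠ 0 := by
    intro e; rw [e, norm_zero] at h2'; linarith
  have hinv : ‖τ⁻¹‖ ≤ 2 := by
    rw [norm_inv]
    have : (‖τ‖)⁻¹ ≤ (1 / 2 : ℝ)⁻¹ := inv_anti₀ (by norm_num) h2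
    norm_num at this
    exact this
  have hinv' : ‖τ'⁻¹‖ ≤ 2 := by
    rw [norm_inv]
    have : (‖τ'‖)⁻¹ ≤ (1 / 2 : ℝ)⁻¹ := inv_anti₀ (by norm_num) h2'
    norm_num at this
    exact this
  have hdiff : ‖τ' - τ‖ ≤ D * δ := by
    have e : τ' - τ = -((P - P') * ((g : M2) - 1)).trace := by
      rw [mul_sub, mul_one, sub_mul, Matrix.trace_sub, Matrix.trace_sub, Matrix.trace_sub,
        h.1, h'.1, ← hτ, ← hτ']
      ring
    rw [e, norm_neg]
    exact norm_trace_mul_le _ _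
  have hid : ‖τ⁻¹ - τ'⁻¹‖ ≤ 4 * (D * δ) := by
    have e : τ⁻¹ - τ'⁻¹ = τ⁻¹ * τ'⁻¹ * (τ' - τ) := by field_simp
    rw [e, norm_mul, norm_mul]
    have : ‖τ⁻¹‖ * ‖τ'⁻¹‖ ≤ 4 := by
      have := mul_le_mul hinv hinv' (norm_nonneg _) (by norm_num : (0:ℝ) ≤ 2)
      linarith
    exact mul_le_mul this hdiff (norm_nonneg _) (by norm_num)
  have hone : nm (1 : M2) ≤ 2 := by
    have := nm_le_of_entries (X := (1 : M2)) (B := 1) (by norm_num) (by
      intro i j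
      fin_cases i <;> fin_cases j <;> simp)
    linarith
  have hδ1 : δ ≤ 1 / 2 := by
    have : 1 * δ ≤ C * δ := mul_le_mul_of_nonneg_right hC1 hδ0
    linarith
  have hgn : nm (g : M2) ≤ 3 := by
    have e : (g : M2) = ((g : M2) - 1) + 1 := by abel
    rw [e]
    have := nm_add_le ((g : M2) - 1) 1
    linarith
  have e : pmv P g - pmv P' g = τ⁻¹ • ((P - P') * (g : M2)) + (τ⁻¹ - τ'⁻¹) • (P' * (g : M2)) := by
    unfold pmv
    rw [← hτ, ← hτ', sub_mul, smul_sub, sub_smul]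
    abel
  rw [e]
  have b1 := nm_add_le (τ⁻¹ • ((P - P') * (g : M2))) ((τ⁻¹ - τ'⁻¹) • (P' * (g : M2)))
  rw [nm_smul, nm_smul] at b1
  have c1 : nm ((P - P') * (g : M2)) ≤ D * 3 :=
    (nm_mul_le _ _).trans (mul_le_mul_of_nonneg_left hgn hD0)
  have c2 : nm (P' * (g : M2)) ≤ C * 3 :=
    (nm_mul_le _ _).trans (mul_le_mul hC' hgn (nm_nonneg _) hC0)
  have b2 : ‖τ⁻¹‖ * nm ((P - P') * (g : M2)) ≤ 2 * (D * 3) :=
    mul_le_mul hinv c1 (nm_nonneg _) (by norm_num)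
  have b3 : ‖τ⁻¹ - τ'⁻¹‖ * nm (P' * (g : M2)) ≤ 4 * (D * δ) * (C * 3) :=
    mul_le_mul hid c2 (nm_nonneg _) (by positivity)
  have b4 : 4 * (D * δ) * (C * 3) ≤ 6 * D := by
    have : D * (C * δ) ≤ D * (1 / 2) := mul_le_mul_of_nonneg_left hg hD0
    nlinarith
  have b5 : 12 * D ≤ 16 * C * D := by
    have : 0 ≤ (C - 1) * D := mul_nonneg (by linarith) hD0
    nlinarith
  linarith

/-- The plane seen from a point of a null line: in the direction `ψ`,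
`q_{P^g}(ψ) = q_P(ψ)/(1 + t q_P(ψ))` for `g = uni t ψ`.

Proof. `tr (P g) = 1 + t q`, `P g n(ψ) = P n(ψ)` as `n(ψ)² = 0`. -/
theorem qP_pmv_uni {P : M2} (h : IsPl P) (t : ℂ) (ψ : V) :
    (P * (uni t ψ : M2)).trace = 1 + t * qP P ψ ∧
      qP (pmv P (uni t ψ)) ψ = qP P ψ / (1 + t * qP P ψ) := by
  have e1 : (P * (uni t ψ : M2)).trace = 1 + t * qP P ψ := by
    rw [uni_coe, mul_add, mul_one, Matrix.mul_smul, Matrix.trace_add, h.1, Matrix.trace_smul,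
      smul_eq_mul]
    rfl
  refine ⟨e1, ?_⟩
  unfold pmv
  rw [e1]
  unfold qP
  rw [smul_mul_assoc, Matrix.trace_smul, smul_eq_mul, Matrix.mul_assoc, uni_coe, add_mul, one_mul,
    Matrix.smul_mul, nn_mul_self, smul_zero, add_zero, div_eq_inv_mul]

/-- The range is unchanged: `P^g v` is proportional to `P v'`. Precisely
`P^g ψ` for `g = uni t ψ` equals `P ψ/(1 + t q_P(ψ))` (as `n(ψ) ψ = 0`). -/
theorem pmv_uni_mulVec {P : M2} (h : IsPl P) (t : ℂ) (ψ : V) :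
    pmv P (uni t ψ) *ᵥ ψ = (1 + t * qP P ψ)⁻¹ • (P *ᵥ ψ) := by
  unfold pmv
  rw [(qP_pmv_uni h t ψ).1, Matrix.smul_mulVec, ← Matrix.mulVec_mulVec, uni_coe,
    Matrix.add_mulVec, Matrix.one_mulVec, Matrix.smul_mulVec, nn_mulVec, om_self, zero_smul,
    smul_zero, add_zero]

/-! ### Hermitian planes -/

/-- A plane which is Hermitian is `v v^*` with a unit vector `v`; `|P| = 1`.
Proof. `|P|^2 = Re tr (P^* P) = Re tr P² = Re tr P = 1`. -/
theorem IsPl.nm_of_hermitian {P : M2} (h : IsPl P) (hH : P.IsHermitian) : nm P = 1 := by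
  have hf : fro P = 1 := by
    rw [fro_eq_trace, hH.eq, h.sq, h.1]
    simp
  unfold nm
  rw [hf, Real.sqrt_one]

/-- Conversely `|P| = 1` implies Hermitian. Proof. `P = P²`: entries: `P = [[a,b],[c,1-a]]`,
`a(1-a) = bc`, `|a|²+|1-a|²+|b|²+|c|² = 1`. `|b|²+|c|² ≥ 2|bc| = 2|a||1-a|`, so
`(|a| + |1-a|)² ≤ 1`, and `|a|+|1-a| ≥ 1`; equality forces `a ∈ [0,1]` real, `|b| = |c|` and
`bc = a(1-a) ≥ 0`, so `c = conj b`. -/
theorem IsPl.hermitian_of_nm {P : M2} (h : IsPl P) (h1 : nm P ≤ 1) : P.IsHermitian := by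
  obtain ⟨ht, hd⟩ := h
  rw [Matrix.trace_fin_two] at ht
  rw [Matrix.det_fin_two] at hd
  have hfro : fro P ≤ 1 := by
    rw [← nm_sq]
    have := nm_nonneg P
    nlinarith
  rw [fro_eq] at hfro
  simp only [Complex.normSq_apply] at hfro
  have t1 := congrArg Complex.re ht
  have t2 := congrArg Complex.im ht
  have d1 := congrArg Complex.re hd
  simp only [Complex.add_re, Complex.add_im, Complex.one_re, Complex.one_im, Complex.sub_re,
    Complex.mul_re, Complex.zero_re] at t1 t2 d1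
  have key : 4 * (P 0 0).im ^ 2 + 4 * (P 1 1).im ^ 2 + 2 * ((P 0 1).re - (P 1 0).re) ^ 2 +
      2 * ((P 0 1).im + (P 1 0).im) ^ 2 ≤ 0 := by
    nlinarith [t1, t2, d1, hfro]
  have s1 := sq_nonneg (P 0 0).im
  have s2 := sq_nonneg (P 1 1).im
  have s3 := sq_nonneg ((P 0 1).re - (P 1 0).re)
  have s4 := sq_nonneg ((P 0 1).im + (P 1 0).im)
  have z1 : (P 0 0).im = 0 := by
    have : (P 0 0).im ^ 2 = 0 := by linarith
    exact pow_eq_zero_iff two_ne_zero |>.mp this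
  have z2 : (P 1 1).im = 0 := by linarith
  have z3 : (P 0 1).re - (P 1 0).re = 0 := by
    have : ((P 0 1).re - (P 1 0).re) ^ 2 = 0 := by linarith
    exact pow_eq_zero_iff two_ne_zero |>.mp this
  have z4 : (P 0 1).im + (P 1 0).im = 0 := by
    have : ((P 0 1).im + (P 1 0).im) ^ 2 = 0 := by linarith
    exact pow_eq_zero_iff two_ne_zero |>.mp this
  ext i j
  rw [Matrix.conjTranspose_apply]
  fin_cases i <;> fin_cases j <;> apply Complex.ext <;>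
    simp only [Complex.star_def, Complex.conj_re, Complex.conj_im, Fin.zero_eta, Fin.mk_one,
      Fin.isValue] <;> linarith

/-- In a suitable unitary frame a Hermitian plane is `E11`. Proof. `P = v v^*`, `v` a unit vector
in the range; `exists_unitary_e1 v`. -/
theorem IsPl.exists_unitary {P : M2} (h : IsPl P) (hH : P.IsHermitian) :
    ∃ u : SL, IsU u ∧ cj u P = !![1, 0; 0, 0] := by
  obtain ⟨v, hv0, hPv⟩ : ∃ v : V, v ≠ 0 ∧ P *ᵥ v = v := by
    have ht := h.1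
    rw [Matrix.trace_fin_two] at ht
    by_cases c : P 0 0 = 0
    · have c1 : P 1 1 ≠ 0 := by
        intro e; rw [c, e] at ht; norm_num at ht
      refine ⟨P *ᵥ ![0, 1], ?_, by rw [Matrix.mulVec_mulVec, h.sq]⟩
      intro e
      have := congrFun e 1
      simp [Matrix.mulVec, dotProduct, Fin.sum_univ_two] at this
      exact c1 this
    · refine ⟨P *ᵥ ![1, 0], ?_, by rw [Matrix.mulVec_mulVec, h.sq]⟩
      intro e
      have := congrFun e 0
      simp [Matrix.mulVec, dotProduct, Fin.sum_univ_two] at this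
      exact c this
  have hvn : vn v ≠ 0 := fun e => hv0 (vn_eq_zero.mp e)
  set ψ : V := ((vn v)⁻¹ : ℂ) • v with hψ
  have hψ1 : nsq ψ = 1 := by
    rw [hψ, nsq_smul, norm_inv, Complex.norm_real, Real.norm_eq_abs, inv_pow, sq_abs, vn_sq]
    apply inv_mul_cancel₀
    rw [← vn_sq]
    exact pow_ne_zero _ hvn
  have hPψ : P *ᵥ ψ = ψ := by rw [hψ, Matrix.mulVec_smul, hPv]
  obtain ⟨u, hu, hue⟩ := exists_unitary_e1 hψ1
  refine ⟨u, hu, ?_⟩
  have hinv : ((u⁻¹ : SL) : M2) = (u : M2)ᴴ := by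
    have : (u : M2)ᴴ * ((u : M2) * ((u⁻¹ : SL) : M2)) = (u : M2)ᴴ := by
      rw [coe_mul_inv, mul_one]
    rw [← Matrix.mul_assoc, hu, Matrix.one_mul] at this
    exact this
  have hQH : (cj u P)ᴴ = cj u P := by
    unfold cj
    rw [hinv, Matrix.conjTranspose_mul, Matrix.conjTranspose_mul,
      Matrix.conjTranspose_conjTranspose, hH.eq, Matrix.mul_assoc]
  have hQe : (cj u P) *ᵥ e1 = e1 := by
    have e2 : ((u⁻¹ : SL) : M2) *ᵥ e1 = ψ := by
      rw [← hue, Matrix.mulVec_mulVec, coe_inv_mul, Matrix.one_mulVec]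
    unfold cj
    rw [← Matrix.mulVec_mulVec, e2, ← Matrix.mulVec_mulVec, hPψ, hue]
  have hQt := (h.conj u).1
  rw [Matrix.trace_fin_two] at hQt
  have q00 : cj u P 0 0 = 1 := by
    have := congrFun hQe 0
    simpa [Matrix.mulVec, dotProduct, Fin.sum_univ_two, e1] using this
  have q10 : cj u P 1 0 = 0 := by
    have := congrFun hQe 1
    simpa [Matrix.mulVec, dotProduct, Fin.sum_univ_two, e1] using this
  have q01 : cj u P 0 1 = 0 := by
    have := congrFun (congrFun hQH 0) 1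
    rw [Matrix.conjTranspose_apply, q10, star_zero] at this
    exact this.symm
  have q11 : cj u P 1 1 = 0 := by
    rw [q00] at hQt
    linear_combination hQt
  ext i j
  fin_cases i <;> fin_cases j <;> simp [q00, q01, q10, q11]

end HRK
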