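import Pool.Agent.HRK.K2
import Pool.Agent.HRK.J3
import Pool.Agent.HRK.N5

/-!
# HRK-K3 : scaled natural balls
-/

namespace HRK

open Set Filter Topology Matrix

universe u

variable {r0 L : ℝ}

/-- Scaled natural balls at the points `y_{1-w}`.

Proof. Fix `w ∈ (0,1]`, `z = y_{1-w}`, `k = dg (-log w)` and `G' = G.conj k`. The unit null disc of
direction `e₁` is free for `G'` at `z`: `t • nn e1 ∈ St G'.D z ↔ cj k⁻¹ (t nn e1) = (t w) nn e1 ∈
St G.D z` (`mem_St_conj`, `cj_dg_nn`), true as `|t w| < w` and `|1 - w + t w| < 1` (`null_ac` with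
`R = 1`). Coordinates in the frame `k` (`coord_dg`): `ζ_{1-w}/w`, `T_{1-w}/w`, bounded by `2L`, `1/r0`
(`NormAt`). Apply `natural_ball_bound` with `C = 2L + 1/r0`, and translate back with `FB_conj`,
`ac_conj`, `coord_dg`. -/
theorem scaled_ball (hc : Cst r0 L) : ∃ c > 0, c ≤ 1 / 8 ∧ ∃ C > 0, ∀ (E : Type u)
    [TopologicalSpace E] [T2Space E] (G : Geo E r0 L) (y : E), NormAt G y → ∀ w ∈ Ioc (0:ℝ) 1,
    FB G.D (yt G.D y ((1 - w : ℝ) : ℂ)) (dg (-Real.log w)) c ∧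
      ∀ g : SL, nm (cj (dg (-Real.log w)) ((g : M2) - 1)) < c →
        ‖Zc (G.J (ac G.D (yt G.D y ((1 - w : ℝ) : ℂ)) g))‖ ≤ C * w ∧
        Tc (G.J (ac G.D (yt G.D y ((1 - w : ℝ) : ℂ)) g)) ≤ C * w := by
  have hr0 := hc.r0pos
  have hL := hc.Lpos
  obtain ⟨c, c0, c8, C', C'0, H⟩ := natural_ball_bound.{u} hc (2 * L + 1 / r0)
  refine ⟨c, c0, c8, C', C'0, ?_⟩
  intro E _ _ G y hN w hw
  obtain ⟨hw0, hw1⟩ := hw
  set z : E := yt G.D y ((1 - w : ℝ) : ℂ) with hz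
  set k : SL := dg (-Real.log w) with hk
  have hexp : Real.exp (-Real.log w) = w⁻¹ := by
    rw [Real.exp_neg, Real.exp_log hw0]
  have hkinv : k⁻¹ = dg (Real.log w) := by
    rw [hk, dg_inv, neg_neg]
  have hnw : ‖((1 - w : ℝ) : ℂ)‖ = 1 - w := by
    rw [Complex.norm_real, Real.norm_eq_abs, abs_of_nonneg (by linarith)]
  -- the free disc
  have hdisc : ∀ t : ℂ, ‖t‖ < 1 → t • nn e1 ∈ St (G.conj k).D z := by
    intro t ht
    have h1 : t • nn e1 ∈ St (fun y => G.D y * k⁻¹) z := by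
      rw [mem_St_conj, cj_smul, hkinv, cj_dg_nn, Real.exp_log hw0, smul_smul]
      refine (null_ac G.hD hN.disc (t := ((1 - w : ℝ) : ℂ)) (t' := t * (w : ℂ)) ?_ ?_).1
      · rw [hnw]; linarith
      · calc ‖((1 - w : ℝ) : ℂ) + t * (w : ℂ)‖ ≤ ‖((1 - w : ℝ) : ℂ)‖ + ‖t * (w : ℂ)‖ :=
              norm_add_le _ _
          _ = (1 - w) + ‖t‖ * w := by
              rw [hnw, norm_mul, Complex.norm_real, Real.norm_eq_abs, abs_of_pos hw0]
          _ < 1 := by nlinarith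
    exact h1
  -- coordinates
  have hcoord : ∀ x : E, Zc ((G.conj k).J x) = ((w⁻¹ : ℝ) : ℂ) * Zc (G.J x) ∧
      Tc ((G.conj k).J x) = w⁻¹ * Tc (G.J x) := by
    intro x
    obtain ⟨k1, hk1⟩ := G.form x
    have h := coord_dg hk1 (-Real.log w)
    rw [hexp] at h
    exact h
  have hZ : ‖Zc ((G.conj k).J z)‖ ≤ 2 * L + 1 / r0 := by
    rw [(hcoord z).1, norm_mul, Complex.norm_real, Real.norm_eq_abs, abs_of_pos (inv_pos.mpr hw0)]
    have h1 := hN.zeta w ⟨hw0, hw1⟩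
    have h2 : w⁻¹ * ‖Zc (G.J z)‖ ≤ w⁻¹ * (2 * L * w) :=
      mul_le_mul_of_nonneg_left h1 (inv_pos.mpr hw0).le
    have h3 : w⁻¹ * (2 * L * w) = 2 * L := by
      field_simp
    have h4 : 0 < 1 / r0 := by positivity
    linarith
  have hT : Tc ((G.conj k).J z) ≤ 2 * L + 1 / r0 := by
    rw [(hcoord z).2]
    have h1 := hN.tc w ⟨hw0, hw1⟩
    have h2 : w⁻¹ * Tc (G.J z) ≤ w⁻¹ * (w / r0) :=
      mul_le_mul_of_nonneg_left h1 (inv_pos.mpr hw0).le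
    have h3 : w⁻¹ * (w / r0) = 1 / r0 := by
      field_simp
    linarith
  obtain ⟨hFB, hbd⟩ := H E (G.conj k) z hdisc hZ hT
  have hFB' : FB G.D z k c := by
    have h1 : FB (fun y => G.D y * k⁻¹) z 1 c := hFB
    rw [FB_conj, one_mul] at h1
    exact h1
  refine ⟨hFB', ?_⟩
  intro g hg
  have hg1 : ((k * g * k⁻¹ : SL) : M2) - 1 = cj k ((g : M2) - 1) := by
    rw [cj_sub, cj_one, cj_coe]
  have hg2 : nm (((k * g * k⁻¹ : SL) : M2) - 1) < c := by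
    rw [hg1]; exact hg
  have hX : cj k⁻¹ (((k * g * k⁻¹ : SL) : M2) - 1) ∈ St G.D z := by
    apply hFB'
    rw [cj_cj, mul_inv_cancel, one_cj]
    exact hg2
  have hac : ac (G.conj k).D z (k * g * k⁻¹) = ac G.D z g := by
    have h1 : ac (fun y => G.D y * k⁻¹) z (k * g * k⁻¹) =
        ac G.D z (k⁻¹ * (k * g * k⁻¹) * k) := ac_conj G.hD k hX
    have h2 : k⁻¹ * (k * g * k⁻¹) * k = g := by group
    rw [h2] at h1
    exact h1
  obtain ⟨b1, b2⟩ := hbd (k * g * k⁻¹) hg2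
  rw [hac] at b1 b2
  rw [(hcoord _).1, norm_mul, Complex.norm_real, Real.norm_eq_abs,
    abs_of_pos (inv_pos.mpr hw0)] at b1
  rw [(hcoord _).2] at b2
  constructor
  · have h1 : w * (w⁻¹ * ‖Zc (G.J (ac G.D z g))‖) ≤ w * C' :=
      mul_le_mul_of_nonneg_left b1 hw0.le
    have h2 : w * (w⁻¹ * ‖Zc (G.J (ac G.D z g))‖) = ‖Zc (G.J (ac G.D z g))‖ := by
      rw [← mul_assoc, mul_inv_cancel₀ hw0.ne', one_mul]
    linarith
  · have h1 : w * (w⁻¹ * Tc (G.J (ac G.D z g))) ≤ w * C' :=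
      mul_le_mul_of_nonneg_left b2 hw0.le
    have h2 : w * (w⁻¹ * Tc (G.J (ac G.D z g))) = Tc (G.J (ac G.D z g)) := by
      rw [← mul_assoc, mul_inv_cancel₀ hw0.ne', one_mul]
    linarith

end HRK
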