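import Pool.Agent.HRK.N5
import Pool.Agent.HRK.Defs3

/-!
# HRK-K4 : the matrices `G_w` (pure matrices)
-/

namespace HRK

open Set Filter Topology Matrix

theorem k4_diag (c d : ℂ) (h : c * d = 1) (X : M2) :
    !![c, 0; 0, d] * X * !![d, 0; 0, c] = !![X 0 0, c * c * X 0 1; d * d * X 1 0, X 1 1] := by
  rw [Matrix.eta_fin_two X, Matrix.mul_fin_two, Matrix.mul_fin_two]
  ext i j
  fin_cases i <;> fin_cases j
  · show (c * X 0 0 + 0 * X 1 0) * d + (c * X 0 1 + 0 * X 1 1) * 0 = X 0 0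
    linear_combination (X 0 0) * h
  · show (c * X 0 0 + 0 * X 1 0) * 0 + (c * X 0 1 + 0 * X 1 1) * c = c * c * X 0 1
    ring
  · show (0 * X 0 0 + d * X 1 0) * d + (0 * X 0 1 + d * X 1 1) * 0 = d * d * X 1 0
    ring
  · show (0 * X 0 0 + d * X 1 0) * 0 + (0 * X 0 1 + d * X 1 1) * c = X 1 1
    linear_combination (X 1 1) * h

theorem k4_cj_dg (s : ℝ) (X : M2) : cj (dg s) X = !![X 0 0, ((Real.exp s : ℝ) : ℂ) * X 0 1;
    ((Real.exp (-s) : ℝ) : ℂ) * X 1 0, X 1 1] := by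
  have h1 : ((dg s : SL) : M2) = !![((Real.exp (s / 2) : ℝ) : ℂ), 0; 0, ((Real.exp (-(s / 2)) : ℝ) : ℂ)] := rfl
  have h2 : (((dg s)⁻¹ : SL) : M2) = !![((Real.exp (-(s / 2)) : ℝ) : ℂ), 0; 0, ((Real.exp (s / 2) : ℝ) : ℂ)] := by
    rw [coe_inv_eq, h1]
    simp
  have e1 : ((Real.exp (s / 2) : ℝ) : ℂ) * ((Real.exp (-(s / 2)) : ℝ) : ℂ) = 1 := by
    rw [← Complex.ofReal_mul, ← Real.exp_add, add_neg_cancel, Real.exp_zero, Complex.ofReal_one]
  have e2 : ((Real.exp s : ℝ) : ℂ) = ((Real.exp (s / 2) : ℝ) : ℂ) * ((Real.exp (s / 2) : ℝ) : ℂ) := by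
    rw [← Complex.ofReal_mul, ← Real.exp_add, add_halves]
  have e3 : ((Real.exp (-s) : ℝ) : ℂ) = ((Real.exp (-(s / 2)) : ℝ) : ℂ) * ((Real.exp (-(s / 2)) : ℝ) : ℂ) := by
    rw [← Complex.ofReal_mul, ← Real.exp_add]
    congr 2
    ring
  unfold cj
  rw [h1, h2, e2, e3, k4_diag _ _ e1]

theorem k4_isPl : IsPl P0 := by
  constructor
  · simp [P0, Matrix.trace_fin_two]
  · simp [P0, Matrix.det_fin_two]

theorem k4_tr (M : M2) : (P0 * M).trace = M 1 1 - M 0 1 := by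
  rw [Matrix.trace_fin_two, Matrix.mul_apply, Matrix.mul_apply, Fin.sum_univ_two, Fin.sum_univ_two]
  simp [P0]
  ring

theorem k4_fro_P0 : fro P0 = 2 := by
  rw [fro_eq]
  simp [P0]
  norm_num

theorem k4_nm_P0 : nm P0 ≤ 2 := by
  have h := nm_sq P0
  rw [k4_fro_P0] at h
  have h0 := nm_nonneg P0
  nlinarith

theorem k4_nm_one : nm (1 : M2) ≤ 2 := by
  have h := nm_sq (1 : M2)
  rw [fro_eq] at h
  simp at h
  have h0 := nm_nonneg (1 : M2)
  nlinarith

theorem k4_nsq_e1 : nsq e1 = 1 := by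
  rw [nsq_eq]
  simp [e1]

theorem k4_vn_e1 : vn e1 = 1 := by
  unfold vn
  rw [k4_nsq_e1, Real.sqrt_one]

theorem k4_qP_e1 : qP P0 e1 = -1 := by
  rw [qP_eq]
  simp [P0, e1]

theorem k4_coe (g : SL) (ψ : V) (w : ℝ) : ((Gw g ψ w : SL) : M2) =
    (1 - ((1 - w : ℝ) : ℂ) • nn e1) * (g : M2) *
      (1 + (((1 - w : ℝ) : ℂ) * (-1 / qP (pmv P0 g) ψ)) • nn ψ) := by
  unfold Gw
  rw [Matrix.SpecialLinearGroup.coe_mul, Matrix.SpecialLinearGroup.coe_mul, uni_coe, uni_coe]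
  congr 2
  · rw [neg_smul, ← sub_eq_add_neg]
  · congr 2
    ring

/-- Pure matrices. For `g` near `1` and `ψ` near `e₁` the matrix `G_w` is close to `1` in the frame
`dg (-log w)`, uniformly in `w ∈ (0,1]`.

Proof. Let `δ = |g-1| + |ψ - e₁| ≤ 2c` small. `τ := tr (P0 g)`, `|τ - 1| ≤ 2δ`,
`q := q_{P0^g}(ψ)`, `|q + 1| ≤ C₁ δ` (`qP P0 e1 = -1`, Lipschitz bounds of N5), so `q ≠ 0`,
`t' = -1/q`, `|t' - 1| ≤ C₂ δ`. Write `G = G_w`. (1) All entries of `G - 1` are `O(δ)`: at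
`g = 1, ψ = e₁` (where `t' = 1`) `G = 1`, and `G` is a product of three factors bounded by `3`, each
Lipschitz in the parameters. (2) The `(0,1)` entry: `u(x) := tr (P0 x) = x₁₁ - x₀₁` satisfies
`u(g (1 + (1-w) t' n(ψ))) = u(g) (1 + (1-w) t' q) = w u(g)`, and
`u((1 + (1-w) E₁₂) G) = w G₁₁ - G₀₁`. Hence `G₀₁ = w (G₁₁ - u(g))`, `|G₀₁|/w ≤ |G₁₁ - 1| +
|u(g) - 1| = O(δ)`. (3) In the frame `dg (-log w) = diag(w^{-1/2}, w^{1/2})` the `(0,1)` entry is
multiplied by `1/w`, the `(1,0)` entry by `w ≤ 1`. -/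
theorem Gw_near : ∃ c > 0, ∃ C > 0, ∀ (g : SL) (ψ : V), nm ((g : M2) - 1) < c →
    vn (ψ - e1) < c → (P0 * (g : M2)).trace ≠ 0 ∧ ‖(P0 * (g : M2)).trace - 1‖ ≤ 1 / 4 ∧
      ‖qP (pmv P0 g) ψ + 1‖ ≤ 1 / 4 ∧
      ∀ w ∈ Ioc (0:ℝ) 1, nm (cj (dg (-Real.log w)) ((Gw g ψ w : M2) - 1)) ≤
        C * (nm ((g : M2) - 1) + vn (ψ - e1)) := by
  refine ⟨1 / 1000, by norm_num, 1000, by norm_num, fun g ψ hg hψ => ?_⟩
  set A := nm ((g : M2) - 1) with hA
  set B := vn (ψ - e1) with hB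
  have hA0 : 0 ≤ A := nm_nonneg _
  have hB0 : 0 ≤ B := vn_nonneg _
  have hP := k4_isPl
  have hP2 := k4_nm_P0
  have hP0 := nm_nonneg P0
  -- the trace
  have hτ : ‖(P0 * (g : M2)).trace - 1‖ ≤ 2 * A :=
    (norm_trace_pg_sub_le hP g).trans (mul_le_mul_of_nonneg_right hP2 hA0)
  have hτ0 : (P0 * (g : M2)).trace ≠ 0 := by
    intro h
    rw [h, zero_sub, norm_neg, norm_one] at hτ
    linarith
  -- the vector
  have hvψ : vn ψ ≤ 1 + B := by
    have e : ψ = (ψ - e1) + e1 := by simp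
    have h1 := vn_add_le (ψ - e1) e1
    rw [← e, k4_vn_e1] at h1
    linarith
  have hvψ0 := vn_nonneg ψ
  have hnsq : nsq ψ ≤ 4 := by
    rw [← vn_sq]
    nlinarith
  have hnsq0 := nsq_nonneg ψ
  -- the value q
  have hq : ‖qP (pmv P0 g) ψ + 1‖ ≤ 64 * A + 6 * B := by
    have e : qP (pmv P0 g) ψ + 1 = (qP (pmv P0 g) ψ - qP P0 ψ) + (qP P0 ψ - qP P0 e1) := by
      rw [k4_qP_e1]
      ring
    rw [e]
    refine (norm_add_le _ _).trans ?_
    have h1 := norm_qP_sub_le (pmv P0 g) P0 ψ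
    have h2 := norm_qP_sub_le' P0 ψ e1
    have h3 := nm_pmv_sub_le hP (g := g) (by nlinarith)
    have h4 : nm (pmv P0 g - P0) ≤ 16 * A := by
      refine h3.trans ?_
      have : nm P0 ^ 2 ≤ 4 := by nlinarith
      nlinarith
    have h5 : nm (pmv P0 g - P0) * nsq ψ ≤ 64 * A := by
      have := nm_nonneg (pmv P0 g - P0)
      nlinarith
    have h6 : nm P0 * ((vn ψ + vn e1) * vn (ψ - e1)) ≤ 6 * B := by
      rw [k4_vn_e1]
      have h7 : (vn ψ + 1) * B ≤ 3 * B := mul_le_mul_of_nonneg_right (by linarith) hB0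
      have h8 : 0 ≤ (vn ψ + 1) * B := by positivity
      nlinarith
    linarith
  have hq4 : ‖qP (pmv P0 g) ψ + 1‖ ≤ 1 / 4 := by linarith
  set q := qP (pmv P0 g) ψ with hqdef
  have hqn : 3 / 4 ≤ ‖q‖ := by
    have h1 : ‖(1 : ℂ)‖ ≤ ‖q + 1‖ + ‖q‖ := by
      have e : (1 : ℂ) = (q + 1) - q := by ring
      nth_rw 1 [e]
      exact norm_sub_le _ _
    rw [norm_one] at h1
    linarith
  have hq0 : q ≠ 0 := by
    intro h
    rw [h, norm_zero] at hqn
    linarith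
  obtain ⟨t, ht⟩ : ∃ t : ℂ, t = -1 / q := ⟨_, rfl⟩
  have htq : t * q = -1 := by
    rw [ht]
    field_simp
  have htn : ‖t‖ ≤ 2 := by
    have h1 : ‖t‖ * ‖q‖ = 1 := by rw [← norm_mul, htq, norm_neg, norm_one]
    have := norm_nonneg t
    nlinarith
  have ht1 : ‖t - 1‖ ≤ 128 * A + 12 * B := by
    have e : t - 1 = t * (q + 1) := by
      linear_combination -htq
    rw [e, norm_mul]
    have := norm_nonneg (q + 1)
    have := norm_nonneg t
    nlinarith
  refine ⟨hτ0, by linarith, hq4, fun w hw => ?_⟩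
  obtain ⟨hw0, hw1⟩ := hw
  obtain ⟨a, ha⟩ : ∃ a : ℂ, a = ((1 - w : ℝ) : ℂ) := ⟨_, rfl⟩
  have han : ‖a‖ ≤ 1 := by
    rw [ha, Complex.norm_real, Real.norm_eq_abs, abs_le]
    constructor <;> linarith
  have ha0 := norm_nonneg a
  have hG : ((Gw g ψ w : SL) : M2) = (1 - a • nn e1) * (g : M2) * (1 + (a * t) • nn ψ) := by
    rw [k4_coe, ← hqdef, ← ht, ← ha]
  have hNe : nm (nn e1) = 1 := by rw [nm_nn, k4_nsq_e1]
  -- (1)
  have hsq : nn e1 * nn e1 = 0 := nn_mul_self e1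
  have hG1 : ((Gw g ψ w : SL) : M2) - 1 = (1 - a • nn e1) *
      (((g : M2) - 1) * (1 + (a * t) • nn ψ) + (a • (t • (nn ψ - nn e1) + (t - 1) • nn e1))) := by
    have e1' : (1 - a • nn e1) * (1 + a • nn e1) = 1 := by
      rw [mul_add, mul_one, sub_mul, one_mul, smul_mul_smul_comm, hsq, smul_zero]
      abel
    calc ((Gw g ψ w : SL) : M2) - 1 = (1 - a • nn e1) * (g : M2) * (1 + (a * t) • nn ψ) -
          (1 - a • nn e1) * (1 + a • nn e1) := by rw [hG, e1']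
      _ = (1 - a • nn e1) * ((g : M2) * (1 + (a * t) • nn ψ) - (1 + a • nn e1)) := by
          rw [mul_sub, mul_assoc]
      _ = _ := by
          congr 1
          rw [sub_mul, one_mul]
          have e2 : a • (t • (nn ψ - nn e1) + (t - 1) • nn e1) = (a * t) • nn ψ - a • nn e1 := by
            rw [smul_add, smul_smul, smul_smul, smul_sub, mul_sub, sub_smul, mul_one]
            abel
          rw [e2]
          abel
  have hGn : nm (((Gw g ψ w : SL) : M2) - 1) ≤ 420 * (A + B) := by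
    rw [hG1]
    refine (nm_mul_le _ _).trans ?_
    have k1 : nm (1 - a • nn e1) ≤ 3 := by
      have h1 := nm_add_le 1 (-(a • nn e1))
      rw [← sub_eq_add_neg, nm_neg, nm_smul, hNe] at h1
      have := k4_nm_one
      linarith
    have k2 : nm (((g : M2) - 1) * (1 + (a * t) • nn ψ)) ≤ 10 * A := by
      refine (nm_mul_le _ _).trans ?_
      have h1 := nm_add_le 1 ((a * t) • nn ψ)
      rw [nm_smul, nm_nn, norm_mul] at h1
      have h2 := k4_nm_one
      have h3 : ‖a‖ * ‖t‖ ≤ 2 := by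
        have := norm_nonneg t
        nlinarith
      have h4 : ‖a‖ * ‖t‖ * nsq ψ ≤ 8 := by
        have : 0 ≤ ‖a‖ * ‖t‖ := by positivity
        nlinarith
      have h5 : nm (1 + (a * t) • nn ψ) ≤ 10 := by linarith
      rw [mul_comm 10 A]
      exact mul_le_mul_of_nonneg_left h5 hA0
    have k3 : nm (t • (nn ψ - nn e1) + (t - 1) • nn e1) ≤ 128 * A + 18 * B := by
      refine (nm_add_le _ _).trans ?_
      rw [nm_smul, nm_smul, hNe, mul_one]
      have h1 := nm_nn_sub_le ψ e1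
      rw [k4_vn_e1] at h1
      have h2 : nm (nn ψ - nn e1) ≤ 3 * B :=
        h1.trans (mul_le_mul_of_nonneg_right (by linarith) hB0)
      have h3 := nm_nonneg (nn ψ - nn e1)
      have h4 : ‖t‖ * nm (nn ψ - nn e1) ≤ 6 * B := by
        have := norm_nonneg t
        nlinarith
      linarith
    have k4 : nm (a • (t • (nn ψ - nn e1) + (t - 1) • nn e1)) ≤ 128 * A + 18 * B := by
      rw [nm_smul]
      have := nm_nonneg (t • (nn ψ - nn e1) + (t - 1) • nn e1)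
      nlinarith
    have k5 : nm (((g : M2) - 1) * (1 + (a * t) • nn ψ) + (a • (t • (nn ψ - nn e1) + (t - 1) • nn e1))) ≤
        138 * A + 18 * B := (nm_add_le _ _).trans (by linarith)
    have k6 := nm_nonneg (1 - a • nn e1)
    calc nm (1 - a • nn e1) * nm (((g : M2) - 1) * (1 + (a * t) • nn ψ) +
          (a • (t • (nn ψ - nn e1) + (t - 1) • nn e1))) ≤ 3 * (138 * A + 18 * B) :=
          mul_le_mul k1 k5 (nm_nonneg _) (by norm_num)
      _ ≤ 420 * (A + B) := by linarith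
  -- (2)
  obtain ⟨G, hGdef⟩ : ∃ G : M2, G = ((Gw g ψ w : SL) : M2) := ⟨_, rfl⟩
  rw [← hGdef] at hG hGn ⊢
  have hX : (1 + a • nn e1) * G = (g : M2) * (1 + (a * t) • nn ψ) := by
    rw [hG, ← mul_assoc, ← mul_assoc]
    have e1' : (1 + a • nn e1) * (1 - a • nn e1) = 1 := by
      rw [mul_sub, mul_one, add_mul, one_mul, smul_mul_smul_comm, hsq, smul_zero]
      abel
    rw [e1', one_mul]
  have hL : (P0 * ((1 + a • nn e1) * G)).trace = (1 - a) * G 1 1 - G 0 1 := by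
    rw [k4_tr, nn_e1, add_mul, one_mul, smul_mul_assoc, Matrix.add_apply, Matrix.add_apply, Matrix.smul_apply,
      Matrix.smul_apply, Matrix.mul_apply, Matrix.mul_apply, Fin.sum_univ_two, Fin.sum_univ_two]
    simp
    ring
  have hqt : (P0 * (g : M2) * nn ψ).trace = (P0 * (g : M2)).trace * q := by
    rw [hqdef]
    unfold qP pmv
    rw [smul_mul_assoc, Matrix.trace_smul, smul_eq_mul, ← mul_assoc, mul_inv_cancel₀ hτ0, one_mul]
  have hR : (P0 * ((g : M2) * (1 + (a * t) • nn ψ))).trace = (P0 * (g : M2)).trace * (1 - a) := by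
    rw [← mul_assoc, mul_add, mul_one, mul_smul_comm, Matrix.trace_add, Matrix.trace_smul, smul_eq_mul, hqt]
    linear_combination (a * (P0 * (g : M2)).trace) * htq
  have h01 : G 0 1 = (1 - a) * (G 1 1 - (P0 * (g : M2)).trace) := by
    rw [hX] at hL
    linear_combination hL - hR
  have haw : 1 - a = (w : ℂ) := by
    rw [ha]
    push_cast
    ring
  rw [haw] at h01
  have h11 : ‖G 1 1 - 1‖ ≤ 420 * (A + B) := by
    have h1 := norm_entry_le (G - 1) 1 1
    simp only [Matrix.sub_apply, Matrix.one_apply_eq] at h1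
    exact h1.trans hGn
  have h01n : ‖(w : ℂ)⁻¹ * G 0 1‖ ≤ 422 * (A + B) := by
    have hwc : (w : ℂ) ≠ 0 := by
      exact_mod_cast hw0.ne'
    rw [h01, ← mul_assoc, inv_mul_cancel₀ hwc, one_mul]
    have e : G 1 1 - (P0 * (g : M2)).trace = (G 1 1 - 1) - ((P0 * (g : M2)).trace - 1) := by ring
    rw [e]
    refine (norm_sub_le _ _).trans ?_
    linarith
  -- (3)
  have hE1 : Real.exp (-Real.log w) = w⁻¹ := by
    rw [Real.exp_neg, Real.exp_log hw0]
  have hE2 : Real.exp (- -Real.log w) = w := by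
    rw [neg_neg, Real.exp_log hw0]
  have hAB : 0 ≤ A + B := by positivity
  rw [k4_cj_dg, hE1, hE2]
  refine (nm_le_of_entries (B := 422 * (A + B)) (by positivity) ?_).trans (by linarith)
  intro i j
  fin_cases i <;> fin_cases j
  · have h1 := norm_entry_le (G - 1) 0 0
    simp only [Matrix.of_apply, Matrix.cons_val', Matrix.cons_val_zero, Matrix.cons_val_one, Fin.zero_eta,
      Matrix.cons_val_fin_one, Fin.isValue, Fin.mk_one]
    linarith
  · simp only [Matrix.of_apply, Matrix.cons_val', Matrix.cons_val_zero, Matrix.cons_val_one, Fin.zero_eta,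
      Matrix.cons_val_fin_one, Fin.isValue, Fin.mk_one, Matrix.sub_apply, Matrix.one_apply]
    simp only [Fin.isValue, zero_ne_one, if_false, sub_zero, Complex.ofReal_inv]
    exact h01n
  · have h1 := norm_entry_le (G - 1) 1 0
    simp only [Matrix.of_apply, Matrix.cons_val', Matrix.cons_val_zero, Matrix.cons_val_one, Fin.zero_eta,
      Matrix.cons_val_fin_one, Fin.isValue, Fin.mk_one]
    rw [norm_mul, Complex.norm_real, Real.norm_eq_abs, abs_of_pos hw0]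
    have := norm_nonneg ((G - 1) 1 0)
    nlinarith
  · have h1 := norm_entry_le (G - 1) 1 1
    simp only [Matrix.of_apply, Matrix.cons_val', Matrix.cons_val_zero, Matrix.cons_val_one, Fin.zero_eta,
      Matrix.cons_val_fin_one, Fin.isValue, Fin.mk_one]
    linarith

/-- `G_1 = g`; `(1 + (1-w)E₁₂) G_w = g (1 + (1-w) t' n(ψ))`. -/
theorem Gw_one (g : SL) (ψ : V) : Gw g ψ 1 = g := by
  unfold Gw
  simp [uni_zero]

theorem uni_mul_Gw (g : SL) (ψ : V) (w : ℝ) :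
    uni ((1 - w : ℝ) : ℂ) e1 * Gw g ψ w =
      g * uni (-((1 - w : ℝ) : ℂ) / qP (pmv P0 g) ψ) ψ := by
  unfold Gw
  rw [← mul_assoc, ← mul_assoc, uni_mul, add_neg_cancel, uni_zero, one_mul]

end HRK
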