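import Pool.Agent.HRK.K3
import Pool.Agent.HRK.K4

/-!
# HRK-K5 : the path `y_{1-w}.G_w`
-/

namespace HRK

open Set Filter Topology Matrix

universe u

variable {r0 L : ℝ}

/-- continuity of `w ↦ G_w`. -/
theorem k5_continuous_Gw (g : SL) (ψ : V) : Continuous (fun w : ℝ => Gw g ψ w) := by
  have h1 : Continuous fun w : ℝ => uni (-((1 - w : ℝ) : ℂ)) e1 := by
    have h : Continuous fun w : ℝ => ((-((1 - w : ℝ) : ℂ), e1) : ℂ × V) := by
      refine Continuous.prodMk ?_ continuous_const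
      exact (Complex.continuous_ofReal.comp (continuous_const.sub continuous_id)).neg
    exact continuous_uni.comp h
  have h2 : Continuous fun w : ℝ => uni (-((1 - w : ℝ) : ℂ) / qP (pmv P0 g) ψ) ψ := by
    have h : Continuous fun w : ℝ =>
        ((-((1 - w : ℝ) : ℂ) / qP (pmv P0 g) ψ, ψ) : ℂ × V) := by
      refine Continuous.prodMk ?_ continuous_const
      exact ((Complex.continuous_ofReal.comp (continuous_const.sub continuous_id)).neg).div_const _
    exact continuous_uni.comp h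
  exact (h1.mul continuous_const).mul h2

/-- The path. For `g` near `1` and `ψ` near `e₁` the null segment from `y.g` in the direction
`t' n(ψ)`, `t' = -1/q_{P0^g}(ψ)`, is free for `s ∈ [0,1)` and its points are
`y_{1-w}.G_w`, `w = 1 - s`.

Proof. Let `c(s) = y_{s}.G_{1-s}` (`y_s = yt D y s`), `s ∈ [0,1)`: well defined and continuous
(`scaled_ball`, `Gw_near`, `continuousOn_ac`, continuity of `Gw` in `w`), `c(0) = y.g`,
`D(c(s)) = D(y) uni(s) e1 G_{1-s} = D(y) g uni (s t') ψ` (`D_ac_uni`, `D_ac`, `uni_mul_Gw`). For fixed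
`s₁ < 1` apply `mem_St_of_path` to `s ↦ c(s s₁)`, base point `y.g`, `D(y.g) = D(y) g`. -/
theorem path_Gw (hc : Cst r0 L) : ∃ c > 0, ∃ C > 0, ∀ (E : Type u)
    [TopologicalSpace E] [T2Space E] (G : Geo E r0 L) (y : E), NormAt G y →
    ∀ (g : SL) (ψ : V), nm ((g : M2) - 1) < c → vn (ψ - e1) < c →
      qP (pmv P0 g) ψ ≠ 0 ∧ ∀ s ∈ Ico (0:ℝ) 1,
        (-(s : ℂ) / qP (pmv P0 g) ψ) • nn ψ ∈ St G.D (ac G.D y g) ∧
        ‖Zc (G.J (ac G.D (ac G.D y g) (uni (-(s : ℂ) / qP (pmv P0 g) ψ) ψ)))‖ ≤ C * (1 - s) ∧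
        Tc (G.J (ac G.D (ac G.D y g) (uni (-(s : ℂ) / qP (pmv P0 g) ψ) ψ))) ≤ C * (1 - s) := by
  obtain ⟨c1, c1pos, c1le, C, Cpos, H⟩ := scaled_ball.{u} hc
  obtain ⟨c2, c2pos, C2, C2pos, H2⟩ := Gw_near
  refine ⟨min c2 (c1 / (4 * C2)), lt_min c2pos (by positivity), C, Cpos, ?_⟩
  intro E _ _ G y hN g ψ hg hψ
  have hD := G.hD
  have hg1 : nm ((g : M2) - 1) < c2 := lt_of_lt_of_le hg (min_le_left _ _)
  have hψ1 : vn (ψ - e1) < c2 := lt_of_lt_of_le hψ (min_le_left _ _)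
  have hg2 : nm ((g : M2) - 1) < c1 / (4 * C2) := lt_of_lt_of_le hg (min_le_right _ _)
  have hψ2 : vn (ψ - e1) < c1 / (4 * C2) := lt_of_lt_of_le hψ (min_le_right _ _)
  obtain ⟨_, _, hq, hG⟩ := H2 g ψ hg1 hψ1
  have hq0 : qP (pmv P0 g) ψ ≠ 0 := by
    intro h0
    rw [h0, zero_add, norm_one] at hq
    norm_num at hq
  refine ⟨hq0, ?_⟩
  -- the frame norm of `G_w - 1` is small
  have hGw : ∀ w ∈ Ioc (0:ℝ) 1, nm (cj (dg (-Real.log w)) ((Gw g ψ w : M2) - 1)) < c1 := by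
    intro w hw
    have h1 := hG w hw
    have h2 : C2 * (nm ((g : M2) - 1) + vn (ψ - e1)) < C2 * (c1 / (4 * C2) + c1 / (4 * C2)) :=
      mul_lt_mul_of_pos_left (add_lt_add hg2 hψ2) C2pos
    have h3 : C2 * (c1 / (4 * C2) + c1 / (4 * C2)) = c1 / 2 := by
      field_simp
      norm_num
    linarith
  -- the path
  set cc : ℝ → E := fun s => ac G.D (yt G.D y (s : ℂ)) (Gw g ψ (1 - s)) with hcc
  have hw : ∀ s ∈ Ico (0:ℝ) 1, (1 - s) ∈ Ioc (0:ℝ) 1 := by
    intro s hs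
    exact ⟨by linarith [hs.2], by linarith [hs.1]⟩
  have hs1 : ∀ s : ℝ, ((1 - (1 - s) : ℝ) : ℂ) = (s : ℂ) := by
    intro s
    congr 1
    ring
  have hball : ∀ s ∈ Ico (0:ℝ) 1,
      FB G.D (yt G.D y (s : ℂ)) (dg (-Real.log (1 - s))) c1 ∧
      ‖Zc (G.J (cc s))‖ ≤ C * (1 - s) ∧ Tc (G.J (cc s)) ≤ C * (1 - s) := by
    intro s hs
    have h := H E G y hN (1 - s) (hw s hs)
    rw [hs1] at h
    exact ⟨h.1, h.2 _ (hGw _ (hw s hs))⟩
  have hSt : ∀ s ∈ Ico (0:ℝ) 1, (Gw g ψ (1 - s) : M2) - 1 ∈ St G.D (yt G.D y (s : ℂ)) := by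
    intro s hs
    exact (hball s hs).1 _ (hGw _ (hw s hs))
  have hdisc : ∀ s ∈ Ico (0:ℝ) 1, (s : ℂ) • nn e1 ∈ St G.D y := by
    intro s hs
    apply hN.disc
    rw [Complex.norm_real, Real.norm_eq_abs, abs_of_nonneg hs.1]
    exact hs.2
  -- continuity
  have hcont : ContinuousOn cc (Ico (0:ℝ) 1) := by
    have h1 : ContinuousOn (fun s : ℝ => yt G.D y (s : ℂ)) (Ico (0:ℝ) 1) := by
      have h := (continuousOn_ac hD).comp (f := fun s : ℝ => (y, uni (s : ℂ) e1))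
        (s := Ico (0:ℝ) 1) ?_ ?_
      · exact h
      · refine Continuous.continuousOn ?_
        refine Continuous.prodMk continuous_const ?_
        have h2 : Continuous fun s : ℝ => (((s : ℂ), e1) : ℂ × V) :=
          Continuous.prodMk Complex.continuous_ofReal continuous_const
        exact continuous_uni.comp h2
      · intro s hs
        change ((uni (s : ℂ) e1 : SL) : M2) - 1 ∈ St G.D y
        rw [uni_coe, add_sub_cancel_left]
        exact hdisc s hs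
    have h2 := (continuousOn_ac hD).comp
      (f := fun s : ℝ => (yt G.D y (s : ℂ), Gw g ψ (1 - s))) (s := Ico (0:ℝ) 1) ?_ ?_
    · exact h2
    · refine ContinuousOn.prodMk h1 ?_
      exact ((k5_continuous_Gw g ψ).comp (continuous_const.sub continuous_id)).continuousOn
    · intro s hs
      exact hSt s hs
  -- developing image
  have hDc : ∀ s ∈ Ico (0:ℝ) 1, G.D (cc s) = G.D y * g * uni (-(s : ℂ) / qP (pmv P0 g) ψ) ψ := by
    intro s hs
    have h1 : G.D (cc s) = G.D (yt G.D y (s : ℂ)) * Gw g ψ (1 - s) :=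
      D_ac hD (by linarith) (hball s hs).1 (hGw _ (hw s hs))
    have h2 : G.D (yt G.D y (s : ℂ)) = G.D y * uni (s : ℂ) e1 := D_ac_uni hD (hdisc s hs)
    have h3 := uni_mul_Gw g ψ (1 - s)
    rw [hs1] at h3
    rw [h1, h2, mul_assoc, h3, mul_assoc]
  have hyt0 : yt G.D y 0 = y := by
    unfold yt
    rw [uni_zero, ac_one hD]
  have hc0 : cc 0 = ac G.D y g := by
    have h1 : cc 0 = ac G.D (yt G.D y ((0:ℝ) : ℂ)) (Gw g ψ (1 - 0)) := rfl
    rw [h1, sub_zero, Gw_one, Complex.ofReal_zero, hyt0]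
  have hDg : G.D (ac G.D y g) = G.D y * g := by
    have h := hDc 0 ⟨le_refl _, zero_lt_one⟩
    rw [hc0, Complex.ofReal_zero, neg_zero, zero_div, uni_zero, mul_one] at h
    exact h
  intro s1 hs1'
  -- rescale
  have hmul : ∀ s ∈ Icc (0:ℝ) 1, s * s1 ∈ Ico (0:ℝ) 1 := by
    intro s hs
    refine ⟨mul_nonneg hs.1 hs1'.1, ?_⟩
    calc s * s1 ≤ 1 * s1 := mul_le_mul_of_nonneg_right hs.2 hs1'.1
      _ < 1 := by rw [one_mul]; exact hs1'.2
  have key := mem_St_of_path hD (y := ac G.D y g) (τ := -(s1 : ℂ) / qP (pmv P0 g) ψ) (ψ := ψ)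
    (c := fun s => cc (s * s1)) ?_ ?_ ?_
  · obtain ⟨k1, k2⟩ := key
    have h1 := k2 1 ⟨zero_le_one, le_refl _⟩
    rw [Complex.ofReal_one, one_mul, one_mul] at h1
    refine ⟨k1, ?_, ?_⟩
    · rw [h1]; exact (hball s1 hs1').2.1
    · rw [h1]; exact (hball s1 hs1').2.2
  · exact hcont.comp ((continuous_id.mul continuous_const).continuousOn) hmul
  · change cc (0 * s1) = _
    rw [zero_mul, hc0]
  · intro s hs
    change G.D (cc (s * s1)) = _
    rw [hDc _ (hmul s hs), hDg]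
    congr 2
    push_cast
    ring

end HRK
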