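import Pool.Agent.HRK.N5
import Pool.Agent.HRK.Defs3

/-!
# HRK-K6 : the form inequality (pure matrices)
-/

namespace HRK

open Set Filter Topology Matrix

theorem K6_pmv_vec (g : SL) (ψ : V) :
    pmv P0 g *ᵥ ψ = ![0, (((g : M2) 1 1 - (g : M2) 0 1))⁻¹ *
      (((g : M2) 1 0 - (g : M2) 0 0) * ψ 0 + ((g : M2) 1 1 - (g : M2) 0 1) * ψ 1)] := by
  have hm : P0 * (g : M2) = !![0, 0; (g : M2) 1 0 - (g : M2) 0 0,
      (g : M2) 1 1 - (g : M2) 0 1] := by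
    ext i j
    fin_cases i <;> fin_cases j <;> simp [P0, Matrix.mul_apply, Fin.sum_univ_two] <;> ring
  have ht : (P0 * (g : M2)).trace = (g : M2) 1 1 - (g : M2) 0 1 := by
    rw [hm, Matrix.trace_fin_two_of]; ring
  unfold pmv
  rw [ht, hm]
  ext i
  fin_cases i
  · simp [Matrix.mulVec, dotProduct, Fin.sum_univ_two, Matrix.smul_apply]
  · simp [Matrix.mulVec, dotProduct, Fin.sum_univ_two, Matrix.smul_apply]
    ring

theorem K6_lam {c : ℝ} (hc : c ≤ 1 / 16) {a b p q : ℂ} {x y : ℂ} (hc0 : 0 < c)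
    (ha : ‖a - 1‖ ≤ c) (hb : ‖b‖ ≤ c) (hp : ‖p‖ ≤ c) (hq : ‖q - 1‖ ≤ c)
    (hx : ‖x - 1‖ ≤ c) (hy : ‖y‖ ≤ c) :
    ‖(q - b)⁻¹ * ((p - a) * x + (q - b) * y)‖ ≤ 2 := by
  have ha' : ‖a‖ ≤ 1 + c := by
    have := norm_add_le (a - 1) 1
    rw [sub_add_cancel, norm_one] at this
    linarith
  have hq' : ‖q‖ ≤ 1 + c := by
    have := norm_add_le (q - 1) 1
    rw [sub_add_cancel, norm_one] at this
    linarith
  have hx' : ‖x‖ ≤ 1 + c := by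
    have := norm_add_le (x - 1) 1
    rw [sub_add_cancel, norm_one] at this
    linarith
  have hpa : ‖p - a‖ ≤ 1 + 2 * c := by
    have := norm_sub_le p a
    linarith
  have hqb : ‖q - b‖ ≤ 1 + 2 * c := by
    have := norm_sub_le q b
    linarith
  have hqb' : 1 - 2 * c ≤ ‖q - b‖ := by
    have h1 : (1 : ℂ) = (q - b) + (b - (q - 1)) := by ring
    have h2 : ‖(1 : ℂ)‖ ≤ ‖q - b‖ + ‖b - (q - 1)‖ := by
      conv_lhs => rw [h1]
      exact norm_add_le _ _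
    have h3 := norm_sub_le b (q - 1)
    rw [norm_one] at h2
    linarith
  have hpos : 0 < ‖q - b‖ := by linarith
  rw [norm_mul, norm_inv]
  have hnum : ‖(p - a) * x + (q - b) * y‖ ≤ (1 + 2 * c) * (1 + c) + (1 + 2 * c) * c := by
    refine (norm_add_le _ _).trans ?_
    rw [norm_mul, norm_mul]
    refine add_le_add ?_ ?_
    · exact mul_le_mul hpa hx' (norm_nonneg _) (by linarith)
    · exact mul_le_mul hqb hy (norm_nonneg _) (by linarith)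
  rw [inv_mul_le_iff₀ hpos]
  nlinarith

/-- The form inequality at the points of the path. If `|ζ|, T ≤ C w`, `w ≤ 1`, `v = P0^g ψ` and
`ψ` is near `e₁`, `g` near `1` then `h(v) ≤ (8 C)² w² h(ψ)` (for `c` small depending on `C`).

Proof. `P0 x = (0, x₁ - x₀)`, so `v = lam • e2` with `lam = ((gψ)₁ - (gψ)₀)/tr(P0 g)`, `|lam| ≤ 2`
for `c` small. `h(e2) = (|ζ|² + T²)/T ≤ 2 C² w²/T` and `h(ψ) ≥ |ψ₀ - ζ ψ₁|²/T ≥ (1/4)/T` as
`|ψ₀| ≥ 3/4` and `|ζ ψ₁| ≤ C c ≤ 1/4`. So `h(v) ≤ 4·2C²w²/T ≤ 32 C² w² h(ψ)`. -/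
theorem hf_ineq (C : ℝ) : ∃ c > 0, ∀ (J : M2) (k : SL), Fr J k → ∀ (w : ℝ), 0 < w → w ≤ 1 →
    ‖Zc J‖ ≤ C * w → Tc J ≤ C * w → ∀ (g : SL) (ψ : V), nm ((g : M2) - 1) < c →
    vn (ψ - e1) < c → hf J (pmv P0 g *ᵥ ψ) ≤ (8 * C) ^ 2 * w ^ 2 * hf J ψ := by
  refine ⟨1 / (16 * (1 + |C|)), by positivity, ?_⟩
  intro J k hk w hw hw1 hZ hT g ψ hg hψ
  set c : ℝ := 1 / (16 * (1 + |C|)) with hcdef
  have hC1 : 1 ≤ 1 + |C| := by linarith [abs_nonneg C]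
  have hc0 : 0 < c := by positivity
  have hcC : c * (16 * (1 + |C|)) = 1 := by
    rw [hcdef]; field_simp
  have hc16 : c ≤ 1 / 16 := by
    rw [hcdef]
    exact one_div_le_one_div_of_le (by norm_num) (by linarith)
  have hcC2 : |C| * c ≤ 1 / 16 := by nlinarith
  have hTp := hk.Tc_pos
  have hCw : 0 < C * w := lt_of_lt_of_le hTp hT
  have hCp : 0 < C := by
    by_contra hcon
    push Not at hcon
    nlinarith
  have hCa : |C| = C := abs_of_pos hCp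
  rw [hCa] at hcC2
  have h00 : ‖(g : M2) 0 0 - 1‖ ≤ c := by
    have := norm_entry_le ((g : M2) - 1) 0 0
    simp only [Matrix.sub_apply, Matrix.one_apply_eq] at this
    linarith
  have h11 : ‖(g : M2) 1 1 - 1‖ ≤ c := by
    have := norm_entry_le ((g : M2) - 1) 1 1
    simp only [Matrix.sub_apply, Matrix.one_apply_eq] at this
    linarith
  have h01 : ‖(g : M2) 0 1‖ ≤ c := by
    have := norm_entry_le ((g : M2) - 1) 0 1
    simp only [Matrix.sub_apply, Matrix.one_apply_ne (zero_ne_one), sub_zero] at this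
    linarith
  have h10 : ‖(g : M2) 1 0‖ ≤ c := by
    have := norm_entry_le ((g : M2) - 1) 1 0
    simp only [Matrix.sub_apply, Matrix.one_apply_ne (one_ne_zero), sub_zero] at this
    linarith
  have hx : ‖ψ 0 - 1‖ ≤ c := by
    have h1 := norm_coord_le (ψ - e1) 0
    have h2 : (ψ - e1) 0 = ψ 0 - 1 := by simp [e1]
    rw [h2] at h1
    linarith
  have hy : ‖ψ 1‖ ≤ c := by
    have h1 := norm_coord_le (ψ - e1) 1
    have h2 : (ψ - e1) 1 = ψ 1 := by simp [e1]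
    rw [h2] at h1
    linarith
  have hlam := K6_lam hc16 hc0 h00 h01 h10 h11 hx hy
  rw [K6_pmv_vec]
  set lam : ℂ := ((g : M2) 1 1 - (g : M2) 0 1)⁻¹ *
      (((g : M2) 1 0 - (g : M2) 0 0) * ψ 0 + ((g : M2) 1 1 - (g : M2) 0 1) * ψ 1) with hlamdef
  rw [hk.hf_coord, hk.hf_coord]
  simp only [Matrix.cons_val_zero, Matrix.cons_val_one, zero_sub, norm_neg, norm_mul]
  set z := Zc J
  set T := Tc J
  have hz0 := norm_nonneg z
  have hl0 := norm_nonneg lam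
  have hbig : 1 / 2 ≤ ‖ψ 0 - z * ψ 1‖ := by
    have h1 : (1 : ℂ) = (ψ 0 - z * ψ 1) + (z * ψ 1 - (ψ 0 - 1)) := by ring
    have h2 : ‖(1 : ℂ)‖ ≤ ‖ψ 0 - z * ψ 1‖ + ‖z * ψ 1 - (ψ 0 - 1)‖ := by
      conv_lhs => rw [h1]
      exact norm_add_le _ _
    have h3 := norm_sub_le (z * ψ 1) (ψ 0 - 1)
    rw [norm_one] at h2
    have h4 : ‖z * ψ 1‖ ≤ C * c := by
      rw [norm_mul]
      refine mul_le_mul ?_ hy (norm_nonneg _) hCp.le
      nlinarith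
    linarith
  have hden : (1 / 4) / T ≤ (‖ψ 0 - z * ψ 1‖ ^ 2 + T ^ 2 * ‖ψ 1‖ ^ 2) / T := by
    refine div_le_div_of_nonneg_right ?_ hTp.le
    have : (1 / 2 : ℝ) ^ 2 ≤ ‖ψ 0 - z * ψ 1‖ ^ 2 := pow_le_pow_left₀ (by norm_num) hbig 2
    have h5 : 0 ≤ T ^ 2 * ‖ψ 1‖ ^ 2 := by positivity
    linarith
  have hnum : ((‖z‖ * ‖lam‖) ^ 2 + T ^ 2 * ‖lam‖ ^ 2) / T ≤ (8 * C ^ 2 * w ^ 2) / T := by
    refine div_le_div_of_nonneg_right ?_ hTp.le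
    have h1 : ‖z‖ ^ 2 ≤ (C * w) ^ 2 := pow_le_pow_left₀ hz0 hZ 2
    have h2 : T ^ 2 ≤ (C * w) ^ 2 := pow_le_pow_left₀ hTp.le hT 2
    have h3 : ‖lam‖ ^ 2 ≤ 2 ^ 2 := pow_le_pow_left₀ hl0 hlam 2
    have h4 : (‖z‖ * ‖lam‖) ^ 2 + T ^ 2 * ‖lam‖ ^ 2 = (‖z‖ ^ 2 + T ^ 2) * ‖lam‖ ^ 2 := by ring
    rw [h4]
    calc (‖z‖ ^ 2 + T ^ 2) * ‖lam‖ ^ 2 ≤ ((C * w) ^ 2 + (C * w) ^ 2) * 2 ^ 2 :=
          mul_le_mul (by linarith) h3 (by positivity) (by positivity)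
      _ = 8 * C ^ 2 * w ^ 2 := by ring
  refine hnum.trans ?_
  calc (8 * C ^ 2 * w ^ 2) / T = (32 * C ^ 2 * w ^ 2) * ((1 / 4) / T) := by ring
    _ ≤ (32 * C ^ 2 * w ^ 2) * ((‖ψ 0 - z * ψ 1‖ ^ 2 + T ^ 2 * ‖ψ 1‖ ^ 2) / T) :=
        mul_le_mul_of_nonneg_left hden (by positivity)
    _ ≤ (8 * C) ^ 2 * w ^ 2 * ((‖ψ 0 - z * ψ 1‖ ^ 2 + T ^ 2 * ‖ψ 1‖ ^ 2) / T) := by
        refine mul_le_mul_of_nonneg_right ?_ (le_trans (by positivity) hden)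
        nlinarith [mul_pos hCw hCw]

end HRK
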