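import Pool.Agent.HRK.K5
import Pool.Agent.HRK.K6
import Pool.Agent.HRK.E2

/-!
# HRK-K7 : normal form theorem (NF)
-/

namespace HRK

open Set Filter Topology Matrix

universe u

variable {r0 L : ℝ}

/-- Normal form theorem in the normalised situation. Proof. `scaled_ball`, `path_Gw`, `hf_ineq`. -/
theorem normal_form_norm (hc : Cst r0 L) : ∃ c > 0, c ≤ 1 / 8 ∧ ∃ C > 0, ∀ (E : Type u)
    [TopologicalSpace E] [T2Space E] (G : Geo E r0 L) (y : E), NormAt G y →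
    (∀ w ∈ Ioc (0:ℝ) 1, FB G.D (yt G.D y ((1 - w : ℝ) : ℂ)) (dg (-Real.log w)) c) ∧
    ∀ (g : SL) (ψ : V), nm ((g : M2) - 1) < c → vn (ψ - e1) < c →
      SVis G (ac G.D y g) ψ (pmv P0 g) C := by
  obtain ⟨c1, hc1, hc18, C1, hC1, H1⟩ := scaled_ball.{u} hc
  obtain ⟨c2, hc2, C2, hC2, H2⟩ := path_Gw.{u} hc
  obtain ⟨c3, hc3, H3⟩ := hf_ineq C2
  refine ⟨min c1 (min c2 c3), lt_min hc1 (lt_min hc2 hc3), (min_le_left _ _).trans hc18,
    8 * C2, by positivity, ?_⟩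
  intro E _ _ G y hN
  refine ⟨fun w hw => ((H1 E G y hN w hw).1).mono (min_le_left _ _), ?_⟩
  intro g ψ hg hψ
  have hg2 : nm ((g : M2) - 1) < c2 := hg.trans_le ((min_le_right _ _).trans (min_le_left _ _))
  have hg3 : nm ((g : M2) - 1) < c3 := hg.trans_le ((min_le_right _ _).trans (min_le_right _ _))
  have hψ2 : vn (ψ - e1) < c2 := hψ.trans_le ((min_le_right _ _).trans (min_le_left _ _))
  have hψ3 : vn (ψ - e1) < c3 := hψ.trans_le ((min_le_right _ _).trans (min_le_right _ _))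
  obtain ⟨hq, hs⟩ := H2 E G y hN g ψ hg2 hψ2
  refine ⟨hq, fun s hs' => ?_⟩
  obtain ⟨h1, h2, h3⟩ := hs s hs'
  refine ⟨h1, ?_⟩
  obtain ⟨k, hk⟩ := G.form (ac G.D (ac G.D y g) (uni (-(s : ℂ) / qP (pmv P0 g) ψ) ψ))
  exact H3 _ k hk (1 - s) (by linarith [hs'.2]) (by linarith [hs'.1]) h2 h3 g ψ hg3 hψ3

theorem k7_svis_aux {E : Type u} [TopologicalSpace E] {G : Geo E r0 L} {y : E} {ψ : V} {P : M2}
    {C : ℝ} {a : ℂ} (ha : a ≠ 0) (h : SVis G y ψ P C) : SVis G y (a • ψ) P C := by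
  obtain ⟨hq, hs⟩ := h
  have hqa : qP P (a • ψ) = a ^ 2 * qP P ψ := qP_smul P a ψ
  have ha2 : a ^ 2 ≠ 0 := pow_ne_zero 2 ha
  refine ⟨by rw [hqa]; exact mul_ne_zero ha2 hq, fun s hs' => ?_⟩
  obtain ⟨h1, h2⟩ := hs s hs'
  have e1' : -(s : ℂ) / qP P (a • ψ) * a ^ 2 = -(s : ℂ) / qP P ψ := by
    rw [hqa]
    field_simp
  have hu : uni (-(s : ℂ) / qP P (a • ψ)) (a • ψ) = uni (-(s : ℂ) / qP P ψ) ψ := by
    rw [uni_smul, e1']
  have hn : (-(s : ℂ) / qP P (a • ψ)) • nn (a • ψ) = (-(s : ℂ) / qP P ψ) • nn ψ := by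
    rw [nn_smul, smul_smul, e1']
  refine ⟨by rw [hn]; exact h1, ?_⟩
  rw [hu, Matrix.mulVec_smul, hf_smul, hf_smul]
  have := mul_le_mul_of_nonneg_left h2 (sq_nonneg ‖a‖)
  calc _ ≤ _ := this
    _ = _ := by ring

/-- strong visibility does not depend on the scaling of `ψ`. Proof. `q_P(a ψ) = a² q_P(ψ)`,
`nn (a ψ) = a² nn ψ`, so the same point; both sides of the inequality scale with `‖a‖²`. -/
theorem SVis_smul {E : Type u} [TopologicalSpace E] {G : Geo E r0 L} {y : E} {ψ : V} {P : M2}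
    {C : ℝ} {a : ℂ} (ha : a ≠ 0) : SVis G y (a • ψ) P C ↔ SVis G y ψ P C := by
  constructor
  · intro h
    have h' := k7_svis_aux (inv_ne_zero ha) h
    rwa [smul_smul, inv_mul_cancel₀ ha, one_smul] at h'
  · exact k7_svis_aux ha

theorem k7_uni_e1 (s : ℂ) : ((uni s e1 : SL) : M2) *ᵥ e1 = e1 := by
  rw [uni_coe, Matrix.add_mulVec, Matrix.one_mulVec, Matrix.smul_mulVec, nn_mulVec, om_self]
  simp

theorem k7_IsPl_P0 : IsPl P0 := by
  constructor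
  · simp [P0, Matrix.trace_fin_two]
  · simp [P0, Matrix.det_fin_two]

theorem k7_qP_P0 : qP P0 e1 = -1 := by
  simp [qP, P0, nn_e1, Matrix.trace_fin_two, Matrix.mul_apply, Fin.sum_univ_two]

/-- (NF) General form at an ideal point `t0` (`|t0| e(y,ψ) = 1`, `t0 n(ψ) ∉ S(y)`): `k` is the normal
form frame.

Proof. Choose `lam` with `lam² t0 = 1` and `k0` with `k0 ψ = lam e₁` (`exists_SL_e1`). For
`G1 = G.conj k0`: `t • nn e1 ∈ St G1.D y ↔ (t t0) • nn ψ ∈ St G.D y` (`mem_St_conj`;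
`cj k0⁻¹ (nn e1) = nn (k0⁻¹ e₁) = nn (lam⁻¹ ψ) = t0 nn ψ`), true for `|t| < 1`, false for `t = 1`.
`exists_NormAt`: `a` with `NormAt (G1.conj u) y`, `u = uni (-a) e1`. By `conj_conj` this is
`G.conj k`, `k = u * k0`, and `k ψ = lam u e₁ = lam e₁`. Take `P = cj k⁻¹ P0`. Translate
`normal_form_norm` for `G.conj k` with `FB_conj`, `ac_conj` (the membership needed for `ac_conj` is
the free ball at `y`, i.e. `w = 1`), `SVis_conj`, `SVis` for scaled vectors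
(`SVis_smul` in this file), `cj_pmv`: a `g` with `|g - 1|_k < c` and `ψ'` with
`|lam⁻¹ k ψ' - e₁| < c` correspond to `g1 = k g k⁻¹`, `ψ1 = lam⁻¹ k ψ'`. For the balls:
`ac (G.conj k).D y (uni s e1) = ac G.D y (k⁻¹ uni s e1 k) = ac G.D y (uni (s t0) ψ)` (`uni_conj`,
`uni_smul`). -/
theorem normal_form_scaled (hc : Cst r0 L) : ∃ c > 0, c ≤ 1 / 8 ∧ ∃ C > 0, ∀ (E : Type u)
    [TopologicalSpace E] [T2Space E] (G : Geo E r0 L) (y : E) (ψ : V), 0 < eD G.D y ψ →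
    ∀ (t0 : ℂ), ‖t0‖ * eD G.D y ψ = 1 → t0 • nn ψ ∉ St G.D y →
    ∃ (k : SL) (lam : ℂ) (P : M2), lam ^ 2 * t0 = 1 ∧ (k : M2) *ᵥ ψ = lam • e1 ∧
      cj k P = !![0, 0; -1, 1] ∧ IsPl P ∧ qP P ψ * t0 = -1 ∧
      (∀ w ∈ Ioc (0:ℝ) 1, FB G.D (ac G.D y (uni ((1 - w) * t0) ψ)) (dg (-Real.log w) * k) c) ∧
      ∀ (g : SL) (ψ' : V), nm (cj k ((g : M2) - 1)) < c → vn (lam⁻¹ • ((k : M2) *ᵥ ψ') - e1) < c →
        SVis G (ac G.D y g) ψ' (pmv P g) C := by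
  obtain ⟨c, hcpos, hc8, C, hC, H⟩ := normal_form_norm.{u} hc
  refine ⟨c, hcpos, hc8, C, hC, ?_⟩
  intro E _ _ G y ψ he t0 ht0 hmem
  have ht0' : t0 ≠ 0 := by
    rintro rfl
    simp at ht0
  have hψ : ψ ≠ 0 := by
    rintro rfl
    apply hmem
    have : nn (0 : V) = 0 := by
      have := nn_smul 0 (0 : V)
      simpa using this
    rw [this, smul_zero]
    exact zero_mem_St y
  obtain ⟨lam, hlam⟩ := IsAlgClosed.exists_pow_nat_eq (t0⁻¹) (n := 2) (by norm_num)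
  have hlam0 : lam ≠ 0 := by
    rintro rfl
    have : t0⁻¹ = 0 := by rw [← hlam]; simp
    exact ht0' (inv_eq_zero.mp this)
  have hlt : lam ^ 2 * t0 = 1 := by rw [hlam, inv_mul_cancel₀ ht0']
  have hlinv : (lam⁻¹) ^ 2 = t0 := by rw [inv_pow, hlam, inv_inv]
  obtain ⟨k0, hk0⟩ := exists_SL_e1 hψ hlam0
  have key : ∀ k : SL, (k : M2) *ᵥ ψ = lam • e1 → ((k⁻¹ : SL) : M2) *ᵥ e1 = lam⁻¹ • ψ := by
    intro k hk
    have h1 : e1 = lam⁻¹ • ((k : M2) *ᵥ ψ) := by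
      rw [hk, smul_smul, inv_mul_cancel₀ hlam0, one_smul]
    rw [h1, Matrix.mulVec_smul, Matrix.mulVec_mulVec, coe_inv_mul, Matrix.one_mulVec]
  have keyn : ∀ k : SL, (k : M2) *ᵥ ψ = lam • e1 → ∀ t : ℂ,
      cj k⁻¹ (t • nn e1) = (t * t0) • nn ψ := by
    intro k hk t
    rw [cj_smul, cj_nn, key k hk, nn_smul, smul_smul, hlinv]
  have hSt : ∀ t : ℂ, ‖t‖ < 1 → (t * t0) • nn ψ ∈ St G.D y := by
    intro t ht
    apply mem_St_of_eD G.hD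
    rw [norm_mul, mul_assoc, ht0, mul_one]
    exact ht
  have h1 : ∀ t : ℂ, ‖t‖ < 1 → t • nn e1 ∈ St (G.conj k0).D y := by
    intro t ht
    refine (mem_St_conj (D := G.D) k0).mpr ?_
    rw [keyn k0 hk0]
    exact hSt t ht
  have h2 : nn e1 ∉ St (G.conj k0).D y := by
    intro h
    have h' := (mem_St_conj (D := G.D) k0).mp h
    have h3 := keyn k0 hk0 1
    rw [one_smul, one_mul] at h3
    rw [h3] at h'
    exact hmem h'
  obtain ⟨a, ha⟩ := exists_NormAt hc (G.conj k0) h1 h2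
  rw [conj_conj] at ha
  have hkψ : ((uni (-a) e1 * k0 : SL) : M2) *ᵥ ψ = lam • e1 := by
    rw [Matrix.SpecialLinearGroup.coe_mul, ← Matrix.mulVec_mulVec, hk0, Matrix.mulVec_smul,
      k7_uni_e1]
  generalize uni (-a) e1 * k0 = k at ha hkψ
  have hPk : cj k (cj k⁻¹ P0) = P0 := by
    rw [cj_cj, mul_inv_cancel, one_cj]
  obtain ⟨N1, N2⟩ := H E (G.conj k) y ha
  have hyt : ∀ w ∈ Ioc (0:ℝ) 1, yt (G.conj k).D y ((1 - w : ℝ) : ℂ) =
      ac G.D y (uni ((1 - w) * t0) ψ) := by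
    intro w hw
    have hn : ‖((1 - w : ℝ) : ℂ)‖ < 1 := by
      rw [Complex.norm_real, Real.norm_eq_abs, abs_of_nonneg (by linarith [hw.2])]
      linarith [hw.1]
    have h3 : cj k⁻¹ (((uni ((1 - w : ℝ) : ℂ) e1 : SL) : M2) - 1) ∈ St G.D y := by
      rw [uni_coe, add_sub_cancel_left, keyn k hkψ]
      exact hSt _ hn
    have h4 := ac_conj (D := G.D) G.hD k h3
    unfold yt
    refine h4.trans ?_
    have h5 := uni_conj k⁻¹ ((1 - w : ℝ) : ℂ) e1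
    rw [inv_inv] at h5
    rw [h5, key k hkψ, uni_smul, hlinv]
    push_cast
    rfl
  have hFB : ∀ w ∈ Ioc (0:ℝ) 1,
      FB G.D (ac G.D y (uni ((1 - w) * t0) ψ)) (dg (-Real.log w) * k) c := by
    intro w hw
    have h3 := N1 w hw
    rw [hyt w hw] at h3
    exact (FB_conj (D := G.D) k _ _ c).mp h3
  refine ⟨k, lam, cj k⁻¹ P0, hlt, hkψ, hPk, k7_IsPl_P0.conj k⁻¹, ?_, hFB, ?_⟩
  · have h3 := qP_cj k (cj k⁻¹ P0) ψ
    rw [hPk, hkψ, qP_smul, k7_qP_P0] at h3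
    rw [← h3]
    linear_combination -hlt
  · intro g ψ' hg hψ'
    have hFB1 : FB G.D y k c := by
      have h3 := hFB 1 ⟨one_pos, le_refl 1⟩
      have h4 : ((1 : ℂ) - ((1 : ℝ) : ℂ)) * t0 = 0 := by
        push_cast
        ring
      rw [h4, uni_zero, ac_one G.hD, Real.log_one, neg_zero, dg_zero, one_mul] at h3
      exact h3
    have hg1 : (((k * g * k⁻¹ : SL) : M2) - 1) = cj k ((g : M2) - 1) := by
      rw [cj_sub, cj_coe, cj_one]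
    have h3 := N2 (k * g * k⁻¹) (lam⁻¹ • ((k : M2) *ᵥ ψ')) (by rw [hg1]; exact hg) hψ'
    have hmem' : cj k⁻¹ (((k * g * k⁻¹ : SL) : M2) - 1) ∈ St G.D y := by
      rw [hg1, cj_cj, inv_mul_cancel, one_cj]
      exact hFB1 _ hg
    have h4 : ac (G.conj k).D y (k * g * k⁻¹) = ac G.D y g := by
      refine (ac_conj (D := G.D) G.hD k hmem').trans ?_
      congr 1
      group
    have h5 : pmv P0 (k * g * k⁻¹) = cj k (pmv (cj k⁻¹ P0) g) := by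
      rw [cj_pmv, hPk]
    have h6 : lam⁻¹ • ((k : M2) *ᵥ ψ') = (k : M2) *ᵥ (lam⁻¹ • ψ') := by
      rw [Matrix.mulVec_smul]
    rw [h4, h5, h6] at h3
    have h7 := (SVis_conj G k (ac G.D y g) (lam⁻¹ • ψ') (pmv (cj k⁻¹ P0) g) C).mp h3
    exact (SVis_smul (inv_ne_zero hlam0)).mp h7

/-- (NF) Proof. `exists_ideal` and `normal_form_scaled`; `‖lam‖² = 1/‖t0‖ = e`, free ball: `w = 1`
(`dg 0 = 1`, `uni 0 ψ = 1`, `ac_one`). -/
theorem normal_form (hc : Cst r0 L) : ∃ c > 0, ∃ C > 0, ∀ (E : Type u)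
    [TopologicalSpace E] [T2Space E] (G : Geo E r0 L) (y : E) (ψ : V), 0 < eD G.D y ψ →
    ∃ (k : SL) (lam : ℂ) (P : M2), ‖lam‖ ^ 2 = eD G.D y ψ ∧ (k : M2) *ᵥ ψ = lam • e1 ∧
      cj k P = !![0, 0; -1, 1] ∧ IsPl P ∧ ‖qP P ψ‖ = eD G.D y ψ ∧ FB G.D y k c ∧
      ∀ (g : SL) (ψ' : V), nm (cj k ((g : M2) - 1)) < c → vn (lam⁻¹ • ((k : M2) *ᵥ ψ') - e1) < c →
        SVis G (ac G.D y g) ψ' (pmv P g) C := by
  obtain ⟨c, hcpos, hc8, C, hC, H⟩ := normal_form_scaled.{u} hc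
  refine ⟨c, hcpos, C, hC, ?_⟩
  intro E _ _ G y ψ he
  obtain ⟨t0, ht0, hmem⟩ := exists_ideal G.hD he
  obtain ⟨k, lam, P, h1, h2, h3, h4, h5, h6, h7⟩ := H E G y ψ he t0 ht0 hmem
  have hn0 : ‖t0‖ ≠ 0 := by
    intro h
    rw [h, zero_mul] at ht0
    exact zero_ne_one ht0
  refine ⟨k, lam, P, ?_, h2, h3, h4, ?_, ?_, h7⟩
  · have h8 : ‖lam‖ ^ 2 * ‖t0‖ = 1 := by
      rw [← norm_pow, ← norm_mul, h1, norm_one]
    apply mul_right_cancel₀ hn0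
    rw [h8, mul_comm, ht0]
  · have h8 : ‖qP P ψ‖ * ‖t0‖ = 1 := by
      rw [← norm_mul, h5, norm_neg, norm_one]
    apply mul_right_cancel₀ hn0
    rw [h8, mul_comm, ht0]
  · have h8 := h6 1 ⟨one_pos, le_refl 1⟩
    have h9 : ((1 : ℂ) - ((1 : ℝ) : ℂ)) * t0 = 0 := by
      push_cast
      ring
    rw [h9, uni_zero, ac_one G.hD, Real.log_one, neg_zero, dg_zero, one_mul] at h8
    exact h8

end HRK
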