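import Pool.Agent.HRK.K7

/-!
# HRK-K8 : consequences of strong visibility: lower bound of `e`, KEY
-/

namespace HRK

open Set Filter Topology Matrix

universe u

variable {E : Type u} [TopologicalSpace E] {r0 L : ℝ}

/-- The ideal point of a strongly visible plane is not in `S(y)`.

Proof. Let `t_P = -1/q`, `q = qP P ψ ≠ 0`. Suppose `t_P n(ψ) ∈ St G.D y`. Then
`s ↦ z_s = y.(uni (s t_P) ψ)`, `s ∈ [0,1]`, is continuous (`smul_mem_St`, `continuousOn_mvp_right`),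
so `J(z_s)` is continuous on `[0,1]` (`continuous_J`) and the inequality
`h(Pψ) ≤ C² (1-s)² h(ψ)` passes to the limit `s → 1`: `h_{z_1}(P ψ) ≤ 0`, so `Pψ = 0`
(`hf_pos`), contradicting `q = ω(ψ, Pψ) ≠ 0` (`qP_eq_om`). -/
theorem SVis.not_mem [T2Space E] (hc : Cst r0 L) {G : Geo E r0 L} {y : E} {ψ : V} {P : M2} {C : ℝ}
    (h : SVis G y ψ P C) : (-1 / qP P ψ) • nn ψ ∉ St G.D y := by
  intro hm
  obtain ⟨hq, hs⟩ := h
  have hform : ∀ s : ℝ, (-(s : ℂ) / qP P ψ) • nn ψ = s • ((-1 / qP P ψ) • nn ψ) := by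
    intro s
    rw [← Complex.coe_smul, smul_smul]
    congr 1
    ring
  have hmem : ∀ s ∈ Icc (0:ℝ) 1, (-(s : ℂ) / qP P ψ) • nn ψ ∈ St G.D y := by
    intro s hs'
    rw [hform s]
    exact smul_mem_St G.hD hm hs'
  have hcX : Continuous fun s : ℝ => (-(s : ℂ) / qP P ψ) • nn ψ := by
    have h1 : Continuous fun s : ℝ => -(s : ℂ) / qP P ψ :=
      (Complex.continuous_ofReal.neg).div_const _
    exact h1.smul continuous_const
  have hcm : ContinuousOn (fun s : ℝ => mvp G.D y ((-(s : ℂ) / qP P ψ) • nn ψ)) (Icc (0:ℝ) 1) :=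
    (continuousOn_mvp_right G.hD y).comp hcX.continuousOn hmem
  have hcJ : ContinuousOn (fun s : ℝ => G.J (ac G.D y (uni (-(s : ℂ) / qP P ψ) ψ)))
      (Icc (0:ℝ) 1) := by
    have h1 := (continuous_J hc G).comp_continuousOn hcm
    refine h1.congr ?_
    intro s _
    simp only [Function.comp_apply]
    rw [ac_uni]
  have hcf : ∀ v : V, ContinuousOn
      (fun s : ℝ => hf (G.J (ac G.D y (uni (-(s : ℂ) / qP P ψ) ψ))) v) (Icc (0:ℝ) 1) := by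
    intro v
    have h1 : Continuous fun J : M2 => hf J v :=
      continuous_hf.comp (continuous_id.prodMk continuous_const)
    exact h1.comp_continuousOn hcJ
  have hmono : (Ico (0:ℝ) 1) ⊆ Icc (0:ℝ) 1 := Ico_subset_Icc_self
  have h1mem : (1:ℝ) ∈ closure (Ico (0:ℝ) 1) := by
    rw [closure_Ico (by norm_num)]
    exact ⟨by norm_num, le_refl _⟩
  have hone : (1:ℝ) ∈ Icc (0:ℝ) 1 := ⟨by norm_num, le_refl _⟩
  have hlim := ContinuousWithinAt.closure_le (f := fun s : ℝ =>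
      hf (G.J (ac G.D y (uni (-(s : ℂ) / qP P ψ) ψ))) (P *ᵥ ψ))
      (g := fun s : ℝ => C ^ 2 * (1 - s) ^ 2 * hf (G.J (ac G.D y (uni (-(s : ℂ) / qP P ψ) ψ))) ψ)
      h1mem ((hcf _ 1 hone).mono hmono) (by
        have h2 : Continuous fun s : ℝ => C ^ 2 * (1 - s) ^ 2 := by fun_prop
        exact (h2.continuousOn.mul (hcf ψ) 1 hone).mono hmono)
      (fun s hs' => (hs s hs').2)
  have hle : hf (G.J (ac G.D y (uni (-((1:ℝ) : ℂ) / qP P ψ) ψ))) (P *ᵥ ψ) ≤ 0 := by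
    have h3 : C ^ 2 * (1 - (1:ℝ)) ^ 2 *
        hf (G.J (ac G.D y (uni (-((1:ℝ) : ℂ) / qP P ψ) ψ))) ψ = 0 := by ring
    exact hlim.trans h3.le
  have hP0 : P *ᵥ ψ = 0 := by
    by_contra hne
    obtain ⟨k, hk⟩ := G.form (ac G.D y (uni (-((1:ℝ) : ℂ) / qP P ψ) ψ))
    exact absurd (hf_pos hk hne) (not_lt.mpr hle)
  apply hq
  rw [qP_eq_om, hP0]
  simp [om]

/-- Proof. `SVis.not_mem`, `one_le_of_not_mem`. -/
theorem SVis.le [T2Space E] (hc : Cst r0 L) {G : Geo E r0 L} {y : E} {ψ : V} {P : M2} {C : ℝ}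
    (h : SVis G y ψ P C) : ‖qP P ψ‖ ≤ eD G.D y ψ := by
  have h1 := one_le_of_not_mem G.hD (h.not_mem hc)
  have hq : 0 < ‖qP P ψ‖ := norm_pos_iff.mpr h.1
  rw [norm_div, norm_neg, norm_one, one_div, ← div_eq_inv_mul, le_div_iff₀ hq, one_mul] at h1
  exact h1

/-- KEY: the ideal point determines the plane.

Proof. Let `q = qP P ψ = qP P' ψ ≠ 0`, `a = Pψ`, `a' = P'ψ`: `ω(ψ,a) = ω(ψ,a') = q`, so
`a' - a = μ ψ` for some `μ ∈ ℂ` (`om_eq_zero`). At the points `z_s` of the null segment (`s < 1`),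
with `h = hf (J z_s)`: `√h(μψ) ≤ √h(a) + √h(a') ≤ (|C| + |C'|)(1-s) √h(ψ)` (`Fr.sqrt_hf_add_le`), and
`√h(μψ) = |μ| √h(ψ)`, `h(ψ) > 0`. So `|μ| ≤ (|C|+|C'|)(1-s)` for all `s < 1`: `μ = 0`, `a = a'`, and
`IsPl.eq_of_range` gives `P = P'`. -/
theorem SVis.key [T2Space E] (hc : Cst r0 L) {G : Geo E r0 L} {y : E} {ψ : V} {P P' : M2} {C C' : ℝ}
    (hP : IsPl P) (hP' : IsPl P') (h : SVis G y ψ P C) (h' : SVis G y ψ P' C')
    (he : qP P ψ = qP P' ψ) : P = P' := by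
  have _ := hc
  have hq : qP P ψ ≠ 0 := h.1
  have hψ : ψ ≠ 0 := by
    rintro rfl
    apply hq
    rw [qP_eq_om]
    simp [om]
  have hom : om ψ (P' *ᵥ ψ - P *ᵥ ψ) = 0 := by
    have h1 : om ψ (P *ᵥ ψ) = om ψ (P' *ᵥ ψ) := by rw [← qP_eq_om, ← qP_eq_om, he]
    have h2 : om ψ (P' *ᵥ ψ - P *ᵥ ψ) = om ψ (P' *ᵥ ψ) - om ψ (P *ᵥ ψ) := by
      simp only [om, Pi.sub_apply]
      ring
    rw [h2, h1, sub_self]
  obtain ⟨μ, hμ⟩ := (om_eq_zero hψ).mp hom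
  have hbound : ∀ s ∈ Ico (0:ℝ) 1, ‖μ‖ ≤ (|C| + |C'|) * (1 - s) := by
    intro s hs
    have hA := (h.2 s hs).2
    have hB := (h'.2 s hs).2
    rw [← he] at hB
    set J := G.J (ac G.D y (uni (-(s : ℂ) / qP P ψ) ψ)) with hJ
    obtain ⟨k, hk⟩ := G.form (ac G.D y (uni (-(s : ℂ) / qP P ψ) ψ))
    rw [← hJ] at hk
    have hpos : 0 < hf J ψ := hf_pos hk hψ
    have hs0 : 0 ≤ 1 - s := by linarith [hs.2]
    have hsq : ∀ (c : ℝ) (w : V), hf J w ≤ c ^ 2 * (1 - s) ^ 2 * hf J ψ →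
        Real.sqrt (hf J w) ≤ |c| * (1 - s) * Real.sqrt (hf J ψ) := by
      intro c w hw
      apply Real.sqrt_le_iff.mpr
      refine ⟨by positivity, ?_⟩
      rw [mul_pow, mul_pow, sq_abs, Real.sq_sqrt hpos.le]
      exact hw
    have h1 := hsq C _ hA
    have h2 := hsq C' _ hB
    have h3 : μ • ψ = P' *ᵥ ψ + (-1 : ℂ) • (P *ᵥ ψ) := by
      rw [← hμ]
      simp [sub_eq_add_neg]
    have h4 : hf J ((-1 : ℂ) • (P *ᵥ ψ)) = hf J (P *ᵥ ψ) := by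
      rw [hf_smul]
      simp
    have h5 := hk.sqrt_hf_add_le (P' *ᵥ ψ) ((-1 : ℂ) • (P *ᵥ ψ))
    rw [← h3, h4, hf_smul, Real.sqrt_mul (by positivity), Real.sqrt_sq (norm_nonneg _)] at h5
    have hsp : 0 < Real.sqrt (hf J ψ) := Real.sqrt_pos.mpr hpos
    have h6 : ‖μ‖ * Real.sqrt (hf J ψ) ≤ ((|C| + |C'|) * (1 - s)) * Real.sqrt (hf J ψ) := by
      nlinarith
    exact le_of_mul_le_mul_right h6 hsp
  have hμ0 : ‖μ‖ ≤ 0 := by
    have h1mem : (1:ℝ) ∈ closure (Ico (0:ℝ) 1) := by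
      rw [closure_Ico (by norm_num)]
      exact ⟨by norm_num, le_refl _⟩
    have hlim := ContinuousWithinAt.closure_le (f := fun _ : ℝ => ‖μ‖)
      (g := fun s : ℝ => (|C| + |C'|) * (1 - s)) h1mem continuousWithinAt_const
      (by
        have h2 : Continuous fun s : ℝ => (|C| + |C'|) * (1 - s) := by fun_prop
        exact h2.continuousWithinAt)
      hbound
    simpa using hlim
  have hμz : μ = 0 := norm_le_zero_iff.mp hμ0
  rw [hμz, zero_smul, sub_eq_zero] at hμ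
  exact hP.eq_of_range hP' hq he (c := 1) (by rw [one_smul, hμ])

/-- monotonicity in the constant. -/
theorem SVis.mono {G : Geo E r0 L} {y : E} {ψ : V} {P : M2} {C C' : ℝ}
    (h : SVis G y ψ P C) (hC : 0 ≤ C) (hCC : C ≤ C') : SVis G y ψ P C' := by
  refine ⟨h.1, fun s hs => ⟨(h.2 s hs).1, ?_⟩⟩
  refine (h.2 s hs).2.trans ?_
  obtain ⟨k, hk⟩ := G.form (ac G.D y (uni (-(s : ℂ) / qP P ψ) ψ))
  have h1 : 0 ≤ hf (G.J (ac G.D y (uni (-(s : ℂ) / qP P ψ) ψ))) ψ := hf_nonneg hk ψ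
  have h2 : C ^ 2 ≤ C' ^ 2 := pow_le_pow_left₀ hC hCC 2
  have h3 : C ^ 2 * (1 - s) ^ 2 ≤ C' ^ 2 * (1 - s) ^ 2 :=
    mul_le_mul_of_nonneg_right h2 (sq_nonneg _)
  exact mul_le_mul_of_nonneg_right h3 h1

end HRK
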