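import Pool.Agent.HRK.MDefs
import Pool.Agent.HRK.CrdB

/-!
# HRK-M2 : the quadric is homeomorphic to `SL(2,ℂ)`, topology of both
-/

namespace HRK

open Set Filter Topology Matrix

theorem m2_cont_qm : Continuous qm := by
  have h : ∀ i : Fin 4, Continuous fun z : Fin 4 → ℂ => z i := fun i => continuous_apply i
  refine continuous_matrix fun i j => ?_
  fin_cases i <;> fin_cases j
  · exact (h 0).add (continuous_const.mul (h 1))
  · exact (h 2).add (continuous_const.mul (h 3))
  · exact (h 2).neg.add (continuous_const.mul (h 3))
  · exact (h 0).sub (continuous_const.mul (h 1))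

theorem m2_cont_qmi : Continuous qmi := by
  have h : ∀ i j : Fin 2, Continuous fun X : M2 => X i j := fun i j =>
    continuous_id.matrix_elem i j
  refine continuous_pi fun i => ?_
  fin_cases i
  · exact ((h 0 0).add (h 1 1)).div_const _
  · exact ((h 0 0).sub (h 1 1)).div_const _
  · exact ((h 0 1).sub (h 1 0)).div_const _
  · exact ((h 0 1).add (h 1 0)).div_const _

/-- Proof. `qs`, `qsi` are inverse to each other (`qs_qsi`, `qsi_qs`) and continuous (the topology
of `SL` is induced by the inclusion in `M₂`, `isEmbedding_coe`). -/
theorem isHomeomorph_qs : IsHomeomorph qs := by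
  have h1 : Continuous qs := by
    rw [isEmbedding_coe.continuous_iff]
    exact m2_cont_qm.comp continuous_subtype_val
  have h2 : Continuous qsi :=
    Continuous.subtype_mk (m2_cont_qmi.comp isEmbedding_coe.continuous) _
  let e : Q ≃ₜ SL :=
    { toFun := qs
      invFun := qsi
      left_inv := qsi_qs
      right_inv := qs_qsi
      continuous_toFun := h1
      continuous_invFun := h2 }
  exact e.isHomeomorph

/-- Proof. `vb : SL → V × ℂ` is an open embedding (`isOpenEmbedding_vb`) in a normed space
(locally connected: `LocallyConnectedSpace` of a normed space; open embeddings transfer it: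
`IsOpenEmbedding.locallyConnectedSpace`). -/
theorem locallyConnected_SL : LocallyConnectedSpace SL := by
  have h : LocallyConnectedSpace (V × ℂ) := inferInstance
  exact isOpenEmbedding_vb.locallyConnectedSpace

theorem locallyConnected_Q : LocallyConnectedSpace Q := by
  have h := locallyConnected_SL
  exact isHomeomorph_qs.isOpenEmbedding.locallyConnectedSpace

/-- Proof. Closed subset of `ℂ⁴`. -/
theorem locallyCompact_Q : LocallyCompactSpace Q := by
  have h : IsClosed {z : Fin 4 → ℂ | z ⬝ᵥ z = 1} :=
    isClosed_eq (continuous_id.dotProduct continuous_id) continuous_const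
  exact h.isClosedEmbedding_subtypeVal.locallyCompactSpace

end HRK
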