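import Pool.Agent.HRK.GXDefs
import Pool.Agent.HRK.Defs2

/-!
# HRK-MDefs : the complex quadric, its isometries, atlases
-/

namespace HRK

open Set Filter Topology Matrix

/-- the complex quadric `X = {z ∈ ℂ⁴ | z₀² + z₁² + z₂² + z₃² = 1}` -/
abbrev Q := {z : Fin 4 → ℂ // z ⬝ᵥ z = 1}

/-- `g : Q → Q` is the restriction of an element of `O(4,ℂ)`. -/
def IsQI (g : Q → Q) : Prop := ∃ A : Matrix (Fin 4) (Fin 4) ℂ, Aᵀ * A = 1 ∧
  ∀ z : Q, ((g z : Q) : Fin 4 → ℂ) = A *ᵥ (z : Fin 4 → ℂ)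

/-- The group `O(4,ℂ)` acting on the quadric. -/
def QI : Subgroup (Equiv.Perm Q) where
  carrier := {g | IsQI g}
  mul_mem' := by
    rintro g h ⟨A, hA, hg⟩ ⟨B, hB, hh⟩
    refine ⟨A * B, ?_, fun z => ?_⟩
    · rw [transpose_mul, Matrix.mul_assoc, ← Matrix.mul_assoc Aᵀ, hA, Matrix.one_mul, hB]
    · rw [Equiv.Perm.mul_apply, hg, hh, mulVec_mulVec]
  one_mem' := ⟨1, by simp, fun z => by simp⟩
  inv_mem' := by
    rintro g ⟨A, hA, hg⟩
    have hA' : A * Aᵀ = 1 := mul_eq_one_comm.mp hA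
    refine ⟨Aᵀ, by rw [transpose_transpose, hA'], fun z => ?_⟩
    have h1 : (z : Fin 4 → ℂ) = A *ᵥ ((g⁻¹ z : Q) : Fin 4 → ℂ) := by
      rw [← hg]
      simp
    rw [h1, mulVec_mulVec, hA, one_mulVec]

/-- the charts of `M` take values in the quadric, the transition maps are locally restrictions of
elements of `O(4,ℂ)`. -/
def QAtlas (M : Type*) [TopologicalSpace M] [ChartedSpace Q M] : Prop :=
  ∀ e ∈ atlas Q M, ∀ e' ∈ atlas Q M, ∀ x ∈ (e.symm.trans e').source,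
    ∃ A : Matrix (Fin 4) (Fin 4) ℂ, Aᵀ * A = 1 ∧
      ∀ᶠ y in 𝓝 x, (((e.symm.trans e') y : Q) : Fin 4 → ℂ) = A *ᵥ (y : Fin 4 → ℂ)

/-- the linear isomorphism `ℂ⁴ → M₂`, `z ⬝ᵥ z = det (qm z)`. -/
def qm (z : Fin 4 → ℂ) : M2 :=
  !![z 0 + Complex.I * z 1, z 2 + Complex.I * z 3; -z 2 + Complex.I * z 3, z 0 - Complex.I * z 1]

theorem det_qm (z : Fin 4 → ℂ) : (qm z).det = z ⬝ᵥ z := by
  rw [Matrix.det_fin_two]
  simp only [qm, Matrix.of_apply, Matrix.cons_val', Matrix.cons_val_zero, Matrix.cons_val_one,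
    dotProduct, Fin.sum_univ_four, Matrix.cons_val_fin_one]
  have h : Complex.I ^ 2 = -1 := Complex.I_sq
  linear_combination (-(z 1) ^ 2 - (z 3) ^ 2) * h

/-- the inverse of `qm` -/
noncomputable def qmi (X : M2) : Fin 4 → ℂ :=
  ![(X 0 0 + X 1 1) / 2, (X 0 0 - X 1 1) / (2 * Complex.I), (X 0 1 - X 1 0) / 2,
    (X 0 1 + X 1 0) / (2 * Complex.I)]

theorem qm_qmi (X : M2) : qm (qmi X) = X := by
  have h : Complex.I ≠ 0 := Complex.I_ne_zero
  ext i j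
  fin_cases i <;> fin_cases j <;> simp [qm, qmi] <;> field_simp <;> ring

theorem qmi_qm (z : Fin 4 → ℂ) : qmi (qm z) = z := by
  have h : Complex.I ≠ 0 := Complex.I_ne_zero
  ext i
  fin_cases i <;> simp [qm, qmi] <;> field_simp <;> ring

/-- the point of `SL` of a point of the quadric -/
def qs (z : Q) : SL := ⟨qm z, by rw [det_qm]; exact z.2⟩

/-- the point of the quadric of a point of `SL` -/
noncomputable def qsi (x : SL) : Q := ⟨qmi x, by rw [← det_qm, qm_qmi]; exact x.2⟩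

theorem qs_qsi (x : SL) : qs (qsi x) = x := Subtype.ext (qm_qmi x)

theorem qsi_qs (z : Q) : qsi (qs z) = z := Subtype.ext (qmi_qm z)

end HRK
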