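import Pool.Agent.HRK.Iface
import Pool.Agent.HRK.B1

/-!
# HRK-Z11 : change of frame and inversion of the developing data
-/

namespace HRK

open Set Filter Topology Matrix

universe u

variable {E : Type u} [TopologicalSpace E] {Γ : Type*} [Group Γ] [MulAction Γ E]

/-- Proof. Right multiplication by `k⁻¹` is a homeomorphism of `SL`. -/
theorem z11_conj_hD (S : Dev Γ E) (k : SL) : IsLocalHomeomorph fun y => S.D y * k⁻¹ :=
  (Homeomorph.mulRight k⁻¹).isLocalHomeomorph.comp S.hD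

/-- the developing data in the frame `k`: `D' y = D y * k⁻¹`, `B' = k B k⁻¹`. -/
noncomputable def Dev.conj (S : Dev Γ E) (k : SL) : Dev Γ E where
  D := fun y => S.D y * k⁻¹
  hD := z11_conj_hD S k
  A := S.A
  B := fun γ => k * S.B γ * k⁻¹
  equiv := fun γ y => by rw [S.equiv]; group
  A_mul := S.A_mul
  B_mul := fun γ γ' => by
    have key : ∀ M : SL, ((k * M * k⁻¹ : SL) : M2) = (k : M2) * (M : M2) * ((k⁻¹ : SL) : M2) :=
      fun M => by rw [Matrix.SpecialLinearGroup.coe_mul, Matrix.SpecialLinearGroup.coe_mul]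
    have hk : ((k⁻¹ : SL) : M2) * (k : M2) = 1 := by
      rw [← Matrix.SpecialLinearGroup.coe_mul, inv_mul_cancel, Matrix.SpecialLinearGroup.coe_one]
    have h2 : (k : M2) * (S.B γ : M2) * ((k⁻¹ : SL) : M2) *
        ((k : M2) * (S.B γ' : M2) * ((k⁻¹ : SL) : M2)) =
        (k : M2) * ((S.B γ : M2) * (S.B γ' : M2)) * ((k⁻¹ : SL) : M2) := by
      calc _ = (k : M2) * (S.B γ : M2) * (((k⁻¹ : SL) : M2) * (k : M2)) * (S.B γ' : M2) *
            ((k⁻¹ : SL) : M2) := by simp only [Matrix.mul_assoc]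
        _ = _ := by rw [hk]; simp only [Matrix.mul_assoc, Matrix.one_mul]
    rw [key, key, key, h2]
    rcases S.B_mul γ γ' with h | h
    · left; rw [h]
    · right; rw [h]; simp only [Matrix.mul_neg, Matrix.neg_mul]
  cont := S.cont
  free := S.free
  pd := S.pd
  K := S.K
  hK := S.hK
  cover := S.cover

/-- Proof. Inversion is a homeomorphism of `SL`. -/
theorem z11_inv_hD (S : Dev Γ E) : IsLocalHomeomorph fun y => (S.D y)⁻¹ :=
  (Homeomorph.inv SL).isLocalHomeomorph.comp S.hD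

/-- the inverted developing data: `D' y = (D y)⁻¹`, `A` and `B` exchanged. -/
noncomputable def Dev.inv (S : Dev Γ E) : Dev Γ E where
  D := fun y => (S.D y)⁻¹
  hD := z11_inv_hD S
  A := S.B
  B := S.A
  equiv := fun γ y => by rw [S.equiv]; group
  A_mul := S.B_mul
  B_mul := S.A_mul
  cont := S.cont
  free := S.free
  pd := S.pd
  K := S.K
  hK := S.hK
  cover := S.cover

/-- one inclusion for `eD_inv`. -/
theorem z11_mem_inv [T2Space E] {D D' : E → SL} (hD : IsLocalHomeomorph D)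
    (hD' : IsLocalHomeomorph D') (hDD : ∀ y, D' y = (D y)⁻¹) {y : E} {ψ : V} {t : ℂ}
    (ht : t • nn ψ ∈ St D y) : (-t) • nn ((D y : M2) *ᵥ ψ) ∈ St D' y := by
  have hDh := isLocalHomeomorph_Dh hD
  have hDh' := isLocalHomeomorph_Dh hD'
  have hmem : ∀ s ∈ Icc (0:ℝ) 1, ((s : ℂ) * t) • nn ψ ∈ St D y := by
    intro s hs
    have h1 := smul_mem_St hDh ht hs
    have e : s • (t • nn ψ) = ((s : ℂ) * t) • nn ψ := by
      rw [← Complex.coe_smul, smul_smul]
    rwa [e] at h1
  have hcont : ContinuousOn (fun s : ℝ => ac D y (uni ((s : ℂ) * t) ψ)) (Icc (0:ℝ) 1) := by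
    have h2 : ContinuousOn (fun s : ℝ => ((y, uni ((s : ℂ) * t) ψ) : E × SL)) (Icc (0:ℝ) 1) := by
      apply Continuous.continuousOn
      refine continuous_const.prodMk ?_
      exact continuous_uni.comp
        (((Complex.continuous_ofReal).mul continuous_const).prodMk continuous_const)
    refine (continuousOn_ac hDh).comp h2 ?_
    intro s hs
    show ((uni ((s : ℂ) * t) ψ : SL) : M2) - 1 ∈ St D y
    rw [uni_coe, add_sub_cancel_left]
    exact hmem s hs
  have h0 : (fun s : ℝ => ac D y (uni ((s : ℂ) * t) ψ)) 0 = y := by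
    show ac D y (uni (((0 : ℝ) : ℂ) * t) ψ) = y
    rw [Complex.ofReal_zero, zero_mul, uni_zero, ac_one hDh]
  refine (mem_St_of_path hDh' (τ := -t) (ψ := (D y : M2) *ᵥ ψ) hcont h0 ?_).1
  intro s hs
  show D' (ac D y (uni ((s : ℂ) * t) ψ)) = D' y * uni ((s : ℂ) * -t) ((D y : M2) *ᵥ ψ)
  rw [hDD, hDD, D_ac_uni hDh (hmem s hs), ← uni_conj, mul_neg, ← uni_inv]
  group

/-- `e` for the inverted data: `e'(y, D(y) ψ) = e(y, ψ)`.

Proof. `t n(ψ) ∈ St D y` iff there is a path `c` in `E` with `c 0 = y`, `D (c s) = D y * uni (s t) ψ`,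
`s ∈ [0,1]` (`mem_St_of_path`, and conversely `c s = ac D y (uni (s t) ψ)`, `D_ac_uni`,
`smul_mem_St`, continuity). Then `(D (c s))⁻¹ = uni (-s t) ψ (D y)⁻¹ = (D y)⁻¹ * uni (-s t) (D y ψ)`
(`uni_conj`, `uni_inv`; `isLocalHomeomorph_Dh` of B1 for `D` and for `D⁻¹`). So `t n(ψ) ∈ St D y ↔ (-t) n(D y ψ) ∈ St D' y`; the conditions defining `eD` are
symmetric under `t ↦ -t`. -/
theorem eD_inv [T2Space E] {D : E → SL} (hD : IsLocalHomeomorph D) (y : E) (ψ : V) :
    eD (fun y => (D y)⁻¹) y ((D y : M2) *ᵥ ψ) = eD D y ψ := by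
  have hD' : IsLocalHomeomorph fun y => (D y)⁻¹ :=
    (Homeomorph.inv SL).isLocalHomeomorph.comp hD
  have key : ∀ t : ℂ, t • nn ψ ∈ St D y ↔
      (-t) • nn ((D y : M2) *ᵥ ψ) ∈ St (fun y => (D y)⁻¹) y := by
    intro t
    constructor
    · exact z11_mem_inv hD hD' (fun _ => rfl)
    · intro h
      have h1 := z11_mem_inv hD' hD (fun y => (inv_inv (D y)).symm) h
      have e : (((D y)⁻¹ : SL) : M2) *ᵥ ((D y : M2) *ᵥ ψ) = ψ := by
        rw [Matrix.mulVec_mulVec, coe_inv_mul, Matrix.one_mulVec]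
      rwa [neg_neg, e] at h1
  unfold eD
  congr 1
  ext ρ
  simp only [mem_ofPred_eq]
  refine and_congr_right fun _ => ?_
  constructor
  · intro h t ht
    rw [key]
    exact h (-t) (by rwa [norm_neg])
  · intro h t ht
    have h1 := (key (-t)).1 (h (-t) (by rwa [norm_neg]))
    rwa [neg_neg] at h1

end HRK
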