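import Pool.Agent.HRK.Z10
import Pool.Agent.HRK.Z11

/-!
# HRK-Z12 : there are no free directions
-/

namespace HRK

open Set Filter Topology Matrix

universe u

variable {E : Type u} [TopologicalSpace E]

/-- Proof. `exists_SL_e1`: `k a = e₁` (`lam = 1`). `S.conj k`: by `eD_conj`
`eD (S.conj k).D y e₁ = eD S.D y (k⁻¹ e₁) = eD S.D y a = 0`; `exists_geo (S.conj k)`, `free_e1_false`. -/
theorem not_free_a {Γ : Type*} [Group Γ] [MulAction Γ E] [T2Space E] [ConnectedSpace E]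
    (S : Dev Γ E) (hne : ∃ y ψ, 0 < eD S.D y ψ) {a : V} (ha : a ≠ 0)
    (hf : ∀ y, eD S.D y a = 0) : False := by
  obtain ⟨k, hk⟩ := exists_SL_e1 ha (one_ne_zero (α := ℂ))
  rw [one_smul] at hk
  have hinv : ∀ v : V, ((k⁻¹ : SL) : M2) *ᵥ ((k : M2) *ᵥ v) = v := by
    intro v
    rw [Matrix.mulVec_mulVec, ← Matrix.SpecialLinearGroup.coe_mul, inv_mul_cancel,
      Matrix.SpecialLinearGroup.coe_one, Matrix.one_mulVec]
  obtain ⟨r0, L, hc, G, hG⟩ := exists_geo (S.conj k)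
  refine free_e1_false (S.conj k) hc G hG.1 ?_ ?_
  · obtain ⟨y, ψ, h⟩ := hne
    refine ⟨y, (k : M2) *ᵥ ψ, ?_⟩
    have h1 : eD (S.conj k).D y ((k : M2) *ᵥ ψ) = eD S.D y ψ := by
      have := eD_conj (D := S.D) k y ((k : M2) *ᵥ ψ)
      rw [hinv] at this
      exact this
    rw [h1]
    exact h
  · intro y
    have h1 : eD (S.conj k).D y e1 = eD S.D y a := by
      have := eD_conj (D := S.D) k y e1
      rw [← hk, hinv, hk] at this
      exact this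
    rw [h1]
    exact hf y

/-- Proof. `S.inv` and `eD_inv`: `eD S.inv.D y b = eD S.D y ((D y)⁻¹ b) = 0`, and
`eD S.inv.D y (D y ψ) = eD S.D y ψ > 0` for some `y, ψ`; `not_free_a` for `S.inv`. -/
theorem not_free_b {Γ : Type*} [Group Γ] [MulAction Γ E] [T2Space E] [ConnectedSpace E]
    (S : Dev Γ E) (hne : ∃ y ψ, 0 < eD S.D y ψ) {b : V} (hb : b ≠ 0)
    (hf : ∀ y, eD S.D y ((((S.D y)⁻¹ : SL) : M2) *ᵥ b) = 0) : False := by
  refine not_free_a S.inv ?_ hb ?_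
  · obtain ⟨y, ψ, h⟩ := hne
    refine ⟨y, (S.D y : M2) *ᵥ ψ, ?_⟩
    have h1 : eD S.inv.D y ((S.D y : M2) *ᵥ ψ) = eD S.D y ψ := eD_inv S.hD y ψ
    rw [h1]
    exact h
  · intro y
    have h0 : (S.D y : M2) *ᵥ ((((S.D y)⁻¹ : SL) : M2) *ᵥ b) = b := by
      rw [Matrix.mulVec_mulVec, ← Matrix.SpecialLinearGroup.coe_mul, mul_inv_cancel,
        Matrix.SpecialLinearGroup.coe_one, Matrix.one_mulVec]
    have h1 : eD S.inv.D y ((S.D y : M2) *ᵥ ((((S.D y)⁻¹ : SL) : M2) *ᵥ b)) =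
        eD S.D y ((((S.D y)⁻¹ : SL) : M2) *ᵥ b) := eD_inv S.hD y _
    rw [h0] at h1
    rw [h1]
    exact hf y

end HRK
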