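import Pool.Agent.HRK.Q19
import Pool.Agent.HRK.Z12
import Pool.Agent.HRK.CovE

/-!
# HRK-MainDev : the developing map is bijective
-/

namespace HRK

open Set Filter Topology Matrix

universe u

variable {E : Type u} [TopologicalSpace E]

/-- **The developing map of a compact manifold locally modelled on `SL(2,ℂ)` (group of the maps
`x ↦ A x B⁻¹`) is bijective.** -/
theorem main_dev {Γ : Type*} [Group Γ] [MulAction Γ E] [T2Space E] [ConnectedSpace E]
    (S : Dev Γ E) : Function.Bijective S.D := by
  obtain ⟨r0, L, hc, G, hG, hJ⟩ := exists_geo S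
  by_cases hne : ∃ y ψ, 0 < eD G.D y ψ
  · exfalso
    rcases free_alternative S hc G hG hJ hne with ⟨a, ha, h⟩ | ⟨b, hb, h⟩
    · rw [hG] at hne h
      exact not_free_a S hne ha h
    · rw [hG] at hne h
      exact not_free_b S hne hb h
  · push Not at hne
    rw [← hG]
    exact bijective_of_eD_zero hc G fun y ψ => le_antisymm (hne y ψ) (eD_nonneg G.D y ψ)

end HRK
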