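import Pool.Agent.HRK.Defs

/-!
# HRK-N1 : the norms `fro`, `nm` on `M2` and `nsq`, `vn` on `V`
-/

namespace HRK

open Set Filter Topology Matrix

theorem fro_eq (X : M2) : fro X = Complex.normSq (X 0 0) + Complex.normSq (X 0 1) +
    Complex.normSq (X 1 0) + Complex.normSq (X 1 1) := by
  simp only [fro, Fin.sum_univ_two]
  ring

theorem nsq_eq (v : V) : nsq v = Complex.normSq (v 0) + Complex.normSq (v 1) := by
  simp only [nsq, Fin.sum_univ_two]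

theorem fro_nonneg (X : M2) : 0 ≤ fro X := by
  exact Finset.sum_nonneg fun i _ => Finset.sum_nonneg fun j _ => Complex.normSq_nonneg _

theorem nsq_nonneg (v : V) : 0 ≤ nsq v := by
  exact Finset.sum_nonneg fun i _ => Complex.normSq_nonneg _

theorem nm_nonneg (X : M2) : 0 ≤ nm X := by
  exact Real.sqrt_nonneg _

theorem vn_nonneg (v : V) : 0 ≤ vn v := by
  exact Real.sqrt_nonneg _

theorem nm_sq (X : M2) : nm X ^ 2 = fro X := by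
  exact Real.sq_sqrt (fro_nonneg X)

theorem vn_sq (v : V) : vn v ^ 2 = nsq v := by
  exact Real.sq_sqrt (nsq_nonneg v)

/-- `|X|^2 = Re tr (X^* X)`. -/
theorem fro_eq_trace (X : M2) : fro X = (Xᴴ * X).trace.re := by
  rw [fro_eq]
  simp only [Matrix.trace, Matrix.diag, Matrix.mul_apply, Fin.sum_univ_two,
    Matrix.conjTranspose_apply, Complex.star_def, Complex.add_re, Complex.mul_re,
    Complex.conj_re, Complex.conj_im, Complex.normSq_apply]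
  ring

/-- the family of the entries -/
noncomputable def n1_E (X : M2) : EuclideanSpace ℂ (Fin 2 × Fin 2) :=
  WithLp.toLp 2 (fun p => X p.1 p.2)

theorem n1_nm (X : M2) : nm X = ‖n1_E X‖ := by
  rw [EuclideanSpace.norm_eq, nm, fro]
  congr 1
  rw [Fintype.sum_prod_type]
  refine Finset.sum_congr rfl fun i _ => Finset.sum_congr rfl fun j _ => ?_
  rw [Complex.normSq_eq_norm_sq]
  rfl

theorem n1_E_add (X Y : M2) : n1_E (X + Y) = n1_E X + n1_E Y := rfl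

theorem n1_E_smul (c : ℂ) (X : M2) : n1_E (c • X) = c • n1_E X := rfl

/-- the vector -/
noncomputable def n1_F (v : V) : EuclideanSpace ℂ (Fin 2) := WithLp.toLp 2 v

theorem n1_vn (v : V) : vn v = ‖n1_F v‖ := by
  rw [EuclideanSpace.norm_eq, vn, nsq]
  congr 1
  refine Finset.sum_congr rfl fun i _ => ?_
  rw [Complex.normSq_eq_norm_sq]
  rfl

theorem n1_F_add (v w : V) : n1_F (v + w) = n1_F v + n1_F w := rfl

theorem n1_F_smul (c : ℂ) (v : V) : n1_F (c • v) = c • n1_F v := rfl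

theorem n1_cs (a b c d : ℂ) :
    ‖a * b + c * d‖ ^ 2 ≤ (‖a‖ ^ 2 + ‖c‖ ^ 2) * (‖b‖ ^ 2 + ‖d‖ ^ 2) := by
  have h1 : ‖a * b + c * d‖ ≤ ‖a‖ * ‖b‖ + ‖c‖ * ‖d‖ := by
    refine (norm_add_le _ _).trans ?_
    rw [norm_mul, norm_mul]
  have h2 : ‖a * b + c * d‖ ^ 2 ≤ (‖a‖ * ‖b‖ + ‖c‖ * ‖d‖) ^ 2 :=
    pow_le_pow_left₀ (norm_nonneg _) h1 2
  nlinarith [sq_nonneg (‖a‖ * ‖d‖ - ‖c‖ * ‖b‖)]

theorem n1_fro (X : M2) : fro X = ‖X 0 0‖ ^ 2 + ‖X 0 1‖ ^ 2 + ‖X 1 0‖ ^ 2 + ‖X 1 1‖ ^ 2 := by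
  rw [fro_eq, Complex.normSq_eq_norm_sq, Complex.normSq_eq_norm_sq, Complex.normSq_eq_norm_sq,
    Complex.normSq_eq_norm_sq]

theorem n1_nsq (v : V) : nsq v = ‖v 0‖ ^ 2 + ‖v 1‖ ^ 2 := by
  rw [nsq_eq, Complex.normSq_eq_norm_sq, Complex.normSq_eq_norm_sq]

theorem nm_zero : nm 0 = 0 := by
  rw [nm, fro_eq]
  simp

theorem nm_eq_zero {X : M2} : nm X = 0 ↔ X = 0 := by
  constructor
  · intro h
    have h1 : fro X = 0 := by rw [← nm_sq, h]; ring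
    rw [n1_fro] at h1
    have h2 := sq_nonneg ‖X 0 0‖
    have h3 := sq_nonneg ‖X 0 1‖
    have h4 := sq_nonneg ‖X 1 0‖
    have h5 := sq_nonneg ‖X 1 1‖
    have e1 : ‖X 0 0‖ ^ 2 = 0 := by linarith
    have e2 : ‖X 0 1‖ ^ 2 = 0 := by linarith
    have e3 : ‖X 1 0‖ ^ 2 = 0 := by linarith
    have e4 : ‖X 1 1‖ ^ 2 = 0 := by linarith
    ext i j
    fin_cases i <;> fin_cases j
    · exact norm_eq_zero.1 (pow_eq_zero_iff two_ne_zero |>.1 e1)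
    · exact norm_eq_zero.1 (pow_eq_zero_iff two_ne_zero |>.1 e2)
    · exact norm_eq_zero.1 (pow_eq_zero_iff two_ne_zero |>.1 e3)
    · exact norm_eq_zero.1 (pow_eq_zero_iff two_ne_zero |>.1 e4)
  · rintro rfl
    exact nm_zero

theorem vn_eq_zero {v : V} : vn v = 0 ↔ v = 0 := by
  constructor
  · intro h
    have h1 : nsq v = 0 := by rw [← vn_sq, h]; ring
    rw [n1_nsq] at h1
    have h2 := sq_nonneg ‖v 0‖
    have h3 := sq_nonneg ‖v 1‖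
    have e1 : ‖v 0‖ ^ 2 = 0 := by linarith
    have e2 : ‖v 1‖ ^ 2 = 0 := by linarith
    ext i
    fin_cases i
    · exact norm_eq_zero.1 (pow_eq_zero_iff two_ne_zero |>.1 e1)
    · exact norm_eq_zero.1 (pow_eq_zero_iff two_ne_zero |>.1 e2)
  · rintro rfl
    rw [vn, nsq_eq]
    simp

/-- Triangle inequality.

Proof. `nm X` is the Euclidean norm of the family of the 4 entries. Either identify with
`EuclideanSpace ℂ (Fin 2 × Fin 2)` (`EuclideanSpace.norm_eq`, `norm_add_le`), or Cauchy-Schwarz: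
`|X+Y|^2 = |X|^2 + 2 Re ⟨X,Y⟩ + |Y|^2`, `Re ⟨X,Y⟩ ≤ |X||Y|` (`Finset.sum_mul_sq_le_sq_mul_sq`). -/
theorem nm_add_le (X Y : M2) : nm (X + Y) ≤ nm X + nm Y := by
  rw [n1_nm, n1_nm, n1_nm, n1_E_add]
  exact norm_add_le _ _

theorem vn_add_le (v w : V) : vn (v + w) ≤ vn v + vn w := by
  rw [n1_vn, n1_vn, n1_vn, n1_F_add]
  exact norm_add_le _ _

theorem nm_neg (X : M2) : nm (-X) = nm X := by
  rw [nm, nm, n1_fro, n1_fro]
  simp

theorem vn_neg (v : V) : vn (-v) = vn v := by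
  rw [vn, vn, n1_nsq, n1_nsq]
  simp

theorem nm_sub_comm (X Y : M2) : nm (X - Y) = nm (Y - X) := by
  rw [← nm_neg (X - Y), neg_sub]

theorem vn_sub_comm (v w : V) : vn (v - w) = vn (w - v) := by
  rw [← vn_neg (v - w), neg_sub]

theorem nm_sub_le (X Y Z : M2) : nm (X - Z) ≤ nm (X - Y) + nm (Y - Z) := by
  have h1 := nm_add_le (X - Y) (Y - Z)
  rwa [sub_add_sub_cancel] at h1

theorem abs_nm_sub_le (X Y : M2) : |nm X - nm Y| ≤ nm (X - Y) := by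
  have h1 := nm_add_le (X - Y) Y
  have h2 := nm_add_le (Y - X) X
  rw [sub_add_cancel] at h1 h2
  rw [nm_sub_comm Y X] at h2
  rw [abs_le]
  constructor <;> linarith

theorem nm_smul (c : ℂ) (X : M2) : nm (c • X) = ‖c‖ * nm X := by
  rw [n1_nm, n1_nm, n1_E_smul, norm_smul]

theorem nm_real_smul (c : ℝ) (X : M2) : nm (c • X) = |c| * nm X := by
  have h1 : c • X = (c : ℂ) • X := by
    ext i j
    simp
  rw [h1, nm_smul, Complex.norm_real, Real.norm_eq_abs]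

theorem vn_smul (c : ℂ) (v : V) : vn (c • v) = ‖c‖ * vn v := by
  rw [n1_vn, n1_vn, n1_F_smul, norm_smul]

theorem nsq_smul (c : ℂ) (v : V) : nsq (c • v) = ‖c‖ ^ 2 * nsq v := by
  rw [← vn_sq, ← vn_sq, vn_smul]
  ring

/-- Submultiplicativity. Proof: Cauchy-Schwarz for each entry
`|(XY)_{ij}|^2 ≤ (∑_k |X_ik|^2)(∑_k |Y_kj|^2)`, sum over `i,j`. -/
theorem nm_mul_le (X Y : M2) : nm (X * Y) ≤ nm X * nm Y := by
  have h : fro (X * Y) ≤ fro X * fro Y := by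
    rw [n1_fro, n1_fro, n1_fro]
    simp only [Matrix.mul_apply, Fin.sum_univ_two]
    have h1 := n1_cs (X 0 0) (Y 0 0) (X 0 1) (Y 1 0)
    have h2 := n1_cs (X 0 0) (Y 0 1) (X 0 1) (Y 1 1)
    have h3 := n1_cs (X 1 0) (Y 0 0) (X 1 1) (Y 1 0)
    have h4 := n1_cs (X 1 0) (Y 0 1) (X 1 1) (Y 1 1)
    nlinarith
  rw [nm, nm, nm, ← Real.sqrt_mul (fro_nonneg X)]
  exact Real.sqrt_le_sqrt h

theorem vn_mulVec_le (X : M2) (v : V) : vn (X *ᵥ v) ≤ nm X * vn v := by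
  have h : nsq (X *ᵥ v) ≤ fro X * nsq v := by
    rw [n1_fro, n1_nsq, n1_nsq]
    simp only [Matrix.mulVec, dotProduct, Fin.sum_univ_two]
    have h1 := n1_cs (X 0 0) (v 0) (X 0 1) (v 1)
    have h2 := n1_cs (X 1 0) (v 0) (X 1 1) (v 1)
    nlinarith
  rw [vn, vn, nm, ← Real.sqrt_mul (fro_nonneg X)]
  exact Real.sqrt_le_sqrt h

theorem norm_entry_le (X : M2) (i j : Fin 2) : ‖X i j‖ ≤ nm X := by
  apply Real.le_sqrt_of_sq_le
  rw [n1_fro]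
  have h2 := sq_nonneg ‖X 0 0‖
  have h3 := sq_nonneg ‖X 0 1‖
  have h4 := sq_nonneg ‖X 1 0‖
  have h5 := sq_nonneg ‖X 1 1‖
  fin_cases i <;> fin_cases j <;> simp only [Fin.zero_eta, Fin.mk_one, Fin.isValue] <;> linarith

theorem norm_coord_le (v : V) (i : Fin 2) : ‖v i‖ ≤ vn v := by
  apply Real.le_sqrt_of_sq_le
  rw [n1_nsq]
  have h2 := sq_nonneg ‖v 0‖
  have h3 := sq_nonneg ‖v 1‖
  fin_cases i <;> simp only [Fin.zero_eta, Fin.mk_one, Fin.isValue] <;> linarith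

/-- Bound by the entries. -/
theorem nm_le_of_entries {X : M2} {B : ℝ} (hB : 0 ≤ B) (h : ∀ i j, ‖X i j‖ ≤ B) :
    nm X ≤ 2 * B := by
  rw [nm]
  apply Real.sqrt_le_iff.2 ⟨by positivity, ?_⟩
  rw [n1_fro]
  have e : ∀ i j, ‖X i j‖ ^ 2 ≤ B ^ 2 := fun i j => pow_le_pow_left₀ (norm_nonneg _) (h i j) 2
  have h1 := e 0 0
  have h2 := e 0 1
  have h3 := e 1 0
  have h4 := e 1 1
  nlinarith

theorem vn_le_of_coords {v : V} {B : ℝ} (hB : 0 ≤ B) (h : ∀ i, ‖v i‖ ≤ B) :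
    vn v ≤ 2 * B := by
  rw [vn]
  apply Real.sqrt_le_iff.2 ⟨by positivity, ?_⟩
  rw [n1_nsq]
  have e : ∀ i, ‖v i‖ ^ 2 ≤ B ^ 2 := fun i => pow_le_pow_left₀ (norm_nonneg _) (h i) 2
  have h1 := e 0
  have h2 := e 1
  have h3 := sq_nonneg B
  nlinarith

theorem norm_trace_le (X : M2) : ‖X.trace‖ ≤ 2 * nm X := by
  rw [Matrix.trace_fin_two]
  refine (norm_add_le _ _).trans ?_
  have h1 := norm_entry_le X 0 0
  have h2 := norm_entry_le X 1 1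
  linarith

/-- `|det X| ≤ |X|^2 / 2`. Proof. `|ad - bc| ≤ |a||d| + |b||c| ≤ (|a|^2+|d|^2+|b|^2+|c|^2)/2`. -/
theorem norm_det_le (X : M2) : ‖X.det‖ ≤ fro X / 2 := by
  rw [Matrix.det_fin_two, n1_fro]
  refine (norm_sub_le _ _).trans ?_
  rw [norm_mul, norm_mul]
  nlinarith [sq_nonneg (‖X 0 0‖ - ‖X 1 1‖), sq_nonneg (‖X 0 1‖ - ‖X 1 0‖)]

/-- Pairing. `|tr (X Y)| ≤ |X| |Y|`. Proof. Cauchy-Schwarz. -/
theorem norm_trace_mul_le (X Y : M2) : ‖(X * Y).trace‖ ≤ nm X * nm Y := by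
  rw [nm, nm, ← Real.sqrt_mul (fro_nonneg X)]
  apply Real.le_sqrt_of_sq_le
  have h1 : ‖(X * Y).trace‖ ≤ ‖X 0 0‖ * ‖Y 0 0‖ + ‖X 0 1‖ * ‖Y 1 0‖ + (‖X 1 0‖ * ‖Y 0 1‖ +
      ‖X 1 1‖ * ‖Y 1 1‖) := by
    rw [Matrix.trace_fin_two, Matrix.mul_apply, Matrix.mul_apply, Fin.sum_univ_two,
      Fin.sum_univ_two]
    refine (norm_add_le _ _).trans (add_le_add ?_ ?_)
    · refine (norm_add_le _ _).trans ?_
      rw [norm_mul, norm_mul]
    · refine (norm_add_le _ _).trans ?_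
      rw [norm_mul, norm_mul]
  have h2 := pow_le_pow_left₀ (norm_nonneg _) h1 2
  rw [n1_fro, n1_fro]
  refine h2.trans ?_
  generalize ‖X 0 0‖ = a1
  generalize ‖X 0 1‖ = a2
  generalize ‖X 1 0‖ = a3
  generalize ‖X 1 1‖ = a4
  generalize ‖Y 0 0‖ = b1
  generalize ‖Y 1 0‖ = b2
  generalize ‖Y 0 1‖ = b3
  generalize ‖Y 1 1‖ = b4
  have e : (a1 ^ 2 + a2 ^ 2 + a3 ^ 2 + a4 ^ 2) * (b1 ^ 2 + b3 ^ 2 + b2 ^ 2 + b4 ^ 2) -
      (a1 * b1 + a2 * b2 + (a3 * b3 + a4 * b4)) ^ 2 =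
      (a1 * b2 - a2 * b1) ^ 2 + (a1 * b3 - a3 * b1) ^ 2 + (a1 * b4 - a4 * b1) ^ 2 +
      (a2 * b3 - a3 * b2) ^ 2 + (a2 * b4 - a4 * b2) ^ 2 + (a3 * b4 - a4 * b3) ^ 2 := by ring
  have p : 0 ≤ (a1 * b2 - a2 * b1) ^ 2 + (a1 * b3 - a3 * b1) ^ 2 + (a1 * b4 - a4 * b1) ^ 2 +
      (a2 * b3 - a3 * b2) ^ 2 + (a2 * b4 - a4 * b2) ^ 2 + (a3 * b4 - a4 * b3) ^ 2 := by positivity
  linarith

theorem norm_om_le (v w : V) : ‖om v w‖ ≤ vn v * vn w := by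
  rw [vn, vn, ← Real.sqrt_mul (nsq_nonneg v)]
  apply Real.le_sqrt_of_sq_le
  rw [n1_nsq, n1_nsq, om]
  have h1 := n1_cs (v 0) (w 1) (-(v 1)) (w 0)
  have h2 : v 0 * w 1 - v 1 * w 0 = v 0 * w 1 + -(v 1) * w 0 := by ring
  rw [norm_neg] at h1
  rw [h2]
  linarith

end HRK
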