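import Pool.Agent.HRK.N1

/-!
# HRK-N1b : topology of `M2`, `V` with the norms `nm`, `vn`
-/

namespace HRK

open Set Filter Topology Matrix

theorem continuous_fro : Continuous fro := by
  unfold fro
  refine continuous_finsetSum _ fun i _ => continuous_finsetSum _ fun j _ => ?_
  exact Complex.continuous_normSq.comp (continuous_id.matrix_elem i j)

theorem continuous_nm : Continuous nm := Real.continuous_sqrt.comp continuous_fro

theorem continuous_nsq : Continuous nsq := by
  unfold nsq
  refine continuous_finsetSum _ fun i _ => ?_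
  exact Complex.continuous_normSq.comp (continuous_apply i)

theorem continuous_vn : Continuous vn := Real.continuous_sqrt.comp continuous_nsq

theorem n1b_dist_le (X Y : Fin 2 → Fin 2 → ℂ) :
    dist X Y ≤ nm ((X : M2) - (Y : M2)) := by
  rw [dist_pi_le_iff (nm_nonneg _)]
  intro i
  rw [dist_pi_le_iff (nm_nonneg _)]
  intro j
  rw [dist_eq_norm]
  exact norm_entry_le ((X : M2) - (Y : M2)) i j

theorem n1b_dist_le' (v w : V) : dist v w ≤ vn (v - w) := by
  rw [dist_pi_le_iff (vn_nonneg _)]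
  intro i
  rw [dist_eq_norm]
  exact norm_coord_le (v - w) i

/-- Same at a general point. Proof. Translation. -/
theorem exists_nm_ball' {O : Set M2} {X₀ : M2} (hO : O ∈ 𝓝 X₀) :
    ∃ r > 0, ∀ X : M2, nm (X - X₀) < r → X ∈ O := by
  obtain ⟨r, hr, hsub⟩ := (Metric.mem_nhds_iff (α := Fin 2 → Fin 2 → ℂ)).1 hO
  refine ⟨r, hr, fun X hX => hsub ?_⟩
  exact lt_of_le_of_lt (n1b_dist_le X X₀) hX

/-- The sets `{X | nm X < r}` form a basis of neighbourhoods of `0`.

Proof. The topology of `M2` is the product topology: a neighbourhood of `0` contains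
`{X | ∀ i j, ‖X i j‖ < r}` for some `r > 0` (`set_pi_mem_nhds_iff` or via the metric space
`Fin 2 → Fin 2 → ℂ`, `Metric.mem_nhds_iff`, `pi_norm_lt_iff`), which contains `{X | nm X < r}`
(`norm_entry_le`). -/
theorem exists_nm_ball {O : Set M2} (hO : O ∈ 𝓝 (0 : M2)) :
    ∃ r > 0, ∀ X : M2, nm X < r → X ∈ O := by
  obtain ⟨r, hr, h⟩ := exists_nm_ball' hO
  refine ⟨r, hr, fun X hX => h X ?_⟩
  rw [sub_zero]
  exact hX

theorem exists_vn_ball {O : Set V} {v₀ : V} (hO : O ∈ 𝓝 v₀) :
    ∃ r > 0, ∀ v : V, vn (v - v₀) < r → v ∈ O := by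
  obtain ⟨r, hr, hsub⟩ := Metric.mem_nhds_iff.1 hO
  exact ⟨r, hr, fun v hv => hsub (lt_of_le_of_lt (n1b_dist_le' v v₀) hv)⟩

theorem isOpen_nm_ball (X₀ : M2) (r : ℝ) : IsOpen {X : M2 | nm (X - X₀) < r} :=
  isOpen_lt (continuous_nm.comp (continuous_id.sub continuous_const)) continuous_const

/-- closed balls are compact. Proof. Closed and bounded in `Fin 2 → Fin 2 → ℂ`. -/
theorem isCompact_nm_ball (X₀ : M2) (r : ℝ) : IsCompact {X : M2 | nm (X - X₀) ≤ r} := by
  have h1 : IsCompact (Metric.closedBall (α := Fin 2 → Fin 2 → ℂ) X₀ r) :=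
    isCompact_closedBall (α := Fin 2 → Fin 2 → ℂ) X₀ r
  have h2 : IsClosed {X : M2 | nm (X - X₀) ≤ r} :=
    isClosed_le (continuous_nm.comp (continuous_id.sub continuous_const)) continuous_const
  exact IsCompact.of_isClosed_subset (X := Fin 2 → Fin 2 → ℂ) h1 h2
    (fun X hX => (n1b_dist_le X X₀).trans hX)

theorem isCompact_vn_ball (r : ℝ) : IsCompact {v : V | vn v ≤ r} := by
  have h2 : IsClosed {v : V | vn v ≤ r} := isClosed_le continuous_vn continuous_const
  refine IsCompact.of_isClosed_subset (isCompact_closedBall (0 : V) r) h2 (fun v hv => ?_)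
  rw [Metric.mem_closedBall]
  refine (n1b_dist_le' v 0).trans ?_
  rw [sub_zero]
  exact hv

theorem isCompact_sphere : IsCompact {v : V | nsq v = 1} := by
  refine IsCompact.of_isClosed_subset (isCompact_vn_ball 1)
    (isClosed_eq continuous_nsq continuous_const) (fun v hv => ?_)
  have hv' : nsq v = 1 := hv
  change vn v ≤ 1
  unfold vn
  rw [hv', Real.sqrt_one]

theorem convex_nm_ball (X₀ : M2) (r : ℝ) : Convex ℝ {X : M2 | nm (X - X₀) < r} := by
  intro X hX Y hY a b ha hb hab
  have hX' : nm (X - X₀) < r := hX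
  have hY' : nm (Y - X₀) < r := hY
  change nm (a • X + b • Y - X₀) < r
  have e : a • X + b • Y - X₀ = a • (X - X₀) + b • (Y - X₀) := by
    have h1 : X₀ = a • X₀ + b • X₀ := by
      rw [← add_smul, hab, one_smul]
    conv_lhs => rw [h1]
    rw [smul_sub, smul_sub]
    abel
  rw [e]
  have h1 := nm_add_le (a • (X - X₀)) (b • (Y - X₀))
  rw [nm_real_smul, nm_real_smul, abs_of_nonneg ha, abs_of_nonneg hb] at h1
  rcases eq_or_lt_of_le ha with ha0 | ha0
  · have hb1 : b = 1 := by linarith
    rw [← ha0, hb1, zero_mul, one_mul, zero_add] at h1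
    rw [← ha0, hb1]
    exact lt_of_le_of_lt h1 hY'
  · have h2 : a * nm (X - X₀) < a * r := mul_lt_mul_of_pos_left hX' ha0
    have h3 : b * nm (Y - X₀) ≤ b * r := mul_le_mul_of_nonneg_left hY'.le hb
    have h4 : a * r + b * r = r := by rw [← add_mul, hab, one_mul]
    linarith

end HRK
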