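import Pool.Agent.HRK.N5
import Pool.Agent.HRK.B4
import Pool.Agent.HRK.Cj

/-!
# HRK-Q0 : definitions for the files Q* (helper28)
-/

namespace HRK

open Set Filter Topology Matrix

/-- `exp(τ(P - 1/2)) = e^{τ/2} P + e^{-τ/2} (1 - P)` as a matrix (`P` a plane). -/
noncomputable def xpM (τ : ℝ) (P : M2) : M2 :=
  (Real.exp (τ / 2) : ℂ) • P + (Real.exp (-(τ / 2)) : ℂ) • (1 - P)

open Classical in
/-- `exp(τ(P - 1/2))` as an element of `SL(2,ℂ)` (junk value `1` if the determinant is not `1`). -/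
noncomputable def xp (τ : ℝ) (P : M2) : SL :=
  if h : (xpM τ P).det = 1 then ⟨xpM τ P, h⟩ else 1

open Classical in
/-- the diagonal element `diag(μ, μ⁻¹)` (junk value `1` if `μ = 0`). -/
noncomputable def dm (μ : ℂ) : SL :=
  if h : (!![μ, 0; 0, μ⁻¹] : M2).det = 1 then ⟨!![μ, 0; 0, μ⁻¹], h⟩ else 1

/-- lower unipotent element. -/
def lo (q : ℂ) : SL := ⟨!![1, 0; q, 1], by rw [Matrix.det_fin_two_of]; ring⟩

/-- upper unipotent element. -/
def up (q : ℂ) : SL := ⟨!![1, q; 0, 1], by rw [Matrix.det_fin_two_of]; ring⟩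

/-- the Weyl element. -/
def wy : SL := ⟨!![0, 1; -1, 0], by rw [Matrix.det_fin_two_of]; ring⟩

end HRK
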