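import Pool.Agent.HRK.Q0

/-!
# HRK-Q1 : elements of `SL(2,ℂ)` fixing a line, in deep frames
-/

namespace HRK

open Set Filter Topology Matrix

theorem q1_e1_mulVec (M : M2) (i : Fin 2) : (M *ᵥ e1) i = M i 0 := by
  simp [Matrix.mulVec, dotProduct, e1, Fin.sum_univ_two]

theorem q1_coe_mul (x y : SL) : ((x * y : SL) : M2) = (x : M2) * (y : M2) := rfl

/-- If `k a = c e₁` (`c ≠ 0`) and `g a = α a` then `k g k⁻¹ = [[α, β],[0, α⁻¹]]`.

Proof. `(k g k⁻¹) (c e₁) = k g a = α k a = α c e₁`, so the first column of `M = k g k⁻¹` is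
`(α, 0)`; `det M = 1` gives `α M₁₁ = 1`. -/
theorem borel_form {k g : SL} {a : V} {c α : ℂ} (hc : c ≠ 0) (hk : (k : M2) *ᵥ a = c • e1)
    (hg : (g : M2) *ᵥ a = α • a) :
    α ≠ 0 ∧ ∃ β : ℂ, ((k * g * k⁻¹ : SL) : M2) = !![α, β; 0, α⁻¹] := by
  have h1 : ((k * g * k⁻¹ : SL) : M2) *ᵥ (c • e1) = c • (α • e1) := by
    rw [← hk, Matrix.mulVec_mulVec, q1_coe_mul, q1_coe_mul, Matrix.mul_assoc, coe_inv_mul,
      Matrix.mul_one, ← Matrix.mulVec_mulVec, hg, Matrix.mulVec_smul, hk, smul_comm]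
  have h2 : ((k * g * k⁻¹ : SL) : M2) *ᵥ e1 = α • e1 := by
    rw [Matrix.mulVec_smul] at h1
    exact smul_right_injective _ hc h1
  have h3 : ((k * g * k⁻¹ : SL) : M2) 0 0 = α := by
    have := congrFun h2 0
    rw [q1_e1_mulVec] at this
    simpa [e1] using this
  have h4 : ((k * g * k⁻¹ : SL) : M2) 1 0 = 0 := by
    have := congrFun h2 1
    rw [q1_e1_mulVec] at this
    simpa [e1] using this
  have hd : ((k * g * k⁻¹ : SL) : M2).det = 1 := (k * g * k⁻¹ : SL).2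
  rw [Matrix.det_fin_two, h3, h4, mul_zero, sub_zero] at hd
  have hα : α ≠ 0 := by
    rintro rfl
    simp at hd
  refine ⟨hα, ((k * g * k⁻¹ : SL) : M2) 0 1, ?_⟩
  have h5 : ((k * g * k⁻¹ : SL) : M2) 1 1 = α⁻¹ := by
    field_simp
    rw [mul_comm]
    exact hd
  ext i j
  fin_cases i <;> fin_cases j
  · simpa using h3
  · rfl
  · simpa using h4
  · simpa using h5

theorem q1_cj_dg (s : ℝ) (X : M2) : cj (dg (-s)) X =
    !![X 0 0, (Real.exp (-s) : ℂ) * X 0 1; (Real.exp s : ℂ) * X 1 0, X 1 1] := by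
  have e1' : (Real.exp (-s / 2) : ℂ) * (Real.exp (s / 2) : ℂ) = 1 := by
    rw [← Complex.ofReal_mul, ← Real.exp_add, show -s / 2 + s / 2 = 0 by ring, Real.exp_zero,
      Complex.ofReal_one]
  have e2' : (Real.exp (-s / 2) : ℂ) * (Real.exp (-s / 2) : ℂ) = (Real.exp (-s) : ℂ) := by
    rw [← Complex.ofReal_mul, ← Real.exp_add]; congr 2; ring
  have e3' : (Real.exp (s / 2) : ℂ) * (Real.exp (s / 2) : ℂ) = (Real.exp s : ℂ) := by
    rw [← Complex.ofReal_mul, ← Real.exp_add]; congr 2; ring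
  unfold cj
  rw [coe_inv_eq]
  have hdg : ((dg (-s) : SL) : M2) =
      !![(Real.exp (-s / 2) : ℂ), 0; 0, (Real.exp (-(-s / 2)) : ℂ)] := rfl
  rw [hdg]
  have e4 : -(-s / 2) = s / 2 := by ring
  rw [e4]
  ext i j
  fin_cases i <;> fin_cases j
  · simp only [Matrix.mul_apply, Fin.sum_univ_two, Matrix.of_apply, Matrix.cons_val_zero,
      Matrix.cons_val_one, Fin.zero_eta, Fin.mk_one, Matrix.cons_val', Matrix.cons_val_fin_one]
    linear_combination X 0 0 * e1'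
  · simp only [Matrix.mul_apply, Fin.sum_univ_two, Matrix.of_apply, Matrix.cons_val_zero,
      Matrix.cons_val_one, Fin.zero_eta, Fin.mk_one, Matrix.cons_val', Matrix.cons_val_fin_one]
    linear_combination X 0 1 * e2'
  · simp only [Matrix.mul_apply, Fin.sum_univ_two, Matrix.of_apply, Matrix.cons_val_zero,
      Matrix.cons_val_one, Fin.zero_eta, Fin.mk_one, Matrix.cons_val', Matrix.cons_val_fin_one]
    linear_combination X 1 0 * e3'
  · simp only [Matrix.mul_apply, Fin.sum_univ_two, Matrix.of_apply, Matrix.cons_val_zero,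
      Matrix.cons_val_one, Fin.zero_eta, Fin.mk_one, Matrix.cons_val', Matrix.cons_val_fin_one]
    linear_combination X 1 1 * e1'

/-- The norm of `g - 1` in the frames `diag(e^{-s/2}, e^{s/2}) k`.

Proof. `cj (dg (-s) * k) (g - 1) = dg(-s) (k g k⁻¹ - 1) dg(s)` (`cj_cj`, `cj_coe`, `cj_sub`,
`cj_one`), and conjugation by `dg(-s) = diag(e^{-s/2}, e^{s/2})` multiplies the entry `(0,1)` by
`e^{-s}`. Then `nm_sq`, `fro_eq`. -/
theorem nm_borel_sq {k g : SL} {α β : ℂ}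
    (h : ((k * g * k⁻¹ : SL) : M2) = !![α, β; 0, α⁻¹]) (s : ℝ) :
    nm (cj (dg (-s) * k) ((g : M2) - 1)) ^ 2 =
      ‖α - 1‖ ^ 2 + ‖α⁻¹ - 1‖ ^ 2 + (Real.exp (-s) * ‖β‖) ^ 2 := by
  rw [← cj_cj, cj_sub, cj_one, cj_coe, h, q1_cj_dg, nm_sq, fro_eq]
  simp only [Matrix.sub_apply, Matrix.of_apply, Matrix.cons_val_zero,
      Matrix.cons_val_one, Matrix.cons_val', Matrix.cons_val_fin_one, Matrix.one_apply_eq,
      Matrix.one_apply_ne (zero_ne_one), Matrix.one_apply_ne (one_ne_zero), sub_zero, mul_zero]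
  rw [Complex.normSq_eq_norm_sq, Complex.normSq_eq_norm_sq, Complex.normSq_eq_norm_sq,
    Complex.normSq_eq_norm_sq, norm_mul, norm_zero, Complex.norm_real, Real.norm_eq_abs,
    abs_of_pos (Real.exp_pos _)]
  ring

/-- Deep frames do not see `β`.

Proof. `‖α - 1‖ < r/4 ≤ 1/4` so `‖α‖ ≥ 3/4` and `‖α⁻¹ - 1‖ = ‖α - 1‖/‖α‖ ≤ r/3`. So the square of the
norm is at most `r²/16 + r²/9 + (e^{-s}‖β‖)²`, which is `< r²` once `e^{-s} ‖β‖ ≤ r/2`, e.g. for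
`s ≥ s0 := max 0 (log (2‖β‖/r + 1))`. -/
theorem nm_borel_lt {k g : SL} {α β : ℂ}
    (h : ((k * g * k⁻¹ : SL) : M2) = !![α, β; 0, α⁻¹]) {r : ℝ} (hr : 0 < r) (hr1 : r ≤ 1)
    (hα : ‖α - 1‖ < r / 4) :
    ∃ s0 : ℝ, 0 ≤ s0 ∧ ∀ s, s0 ≤ s → nm (cj (dg (-s) * k) ((g : M2) - 1)) < r := by
  have hb : 0 ≤ 2 * ‖β‖ / r := by positivity
  refine ⟨Real.log (2 * ‖β‖ / r + 1), Real.log_nonneg (by linarith), fun s hs => ?_⟩
  have h1 : 2 * ‖β‖ / r + 1 ≤ Real.exp s := by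
    rw [← Real.exp_log (show (0:ℝ) < 2 * ‖β‖ / r + 1 by linarith)]
    exact Real.exp_le_exp.mpr hs
  have h2 : Real.exp (-s) * ‖β‖ ≤ r / 2 := by
    rw [Real.exp_neg, inv_mul_le_iff₀ (Real.exp_pos s)]
    have : 2 * ‖β‖ / r ≤ Real.exp s := by linarith
    rw [div_le_iff₀ hr] at this
    nlinarith
  have h3 : 0 ≤ Real.exp (-s) * ‖β‖ := by positivity
  have hα1 : 3 / 4 ≤ ‖α‖ := by
    have := norm_sub_norm_le (1 : ℂ) (1 - α)
    rw [sub_sub_cancel, norm_one, norm_sub_rev] at this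
    linarith
  have hα0 : α ≠ 0 := by
    rintro rfl
    rw [norm_zero] at hα1
    linarith
  have hαp : 0 < ‖α‖ := by linarith
  have h4 : ‖α⁻¹ - 1‖ ≤ r / 3 := by
    have : α⁻¹ - 1 = (1 - α) / α := by field_simp
    rw [this, norm_div, norm_sub_rev, div_le_iff₀ hαp]
    nlinarith
  have h5 := nm_borel_sq h s
  have h6 : nm (cj (dg (-s) * k) ((g : M2) - 1)) ^ 2 < r ^ 2 := by
    rw [h5]
    have a1 : ‖α - 1‖ ^ 2 ≤ (r / 4) ^ 2 := pow_le_pow_left₀ (norm_nonneg _) hα.le 2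
    have a2 : ‖α⁻¹ - 1‖ ^ 2 ≤ (r / 3) ^ 2 := pow_le_pow_left₀ (norm_nonneg _) h4 2
    have a3 : (Real.exp (-s) * ‖β‖) ^ 2 ≤ (r / 2) ^ 2 := pow_le_pow_left₀ h3 h2 2
    nlinarith [mul_pos hr hr]
  exact lt_of_pow_lt_pow_left₀ 2 hr.le h6

/-- an eigenvalue of an element near `1` is near `1`. Proof. `(α - 1) a = (g - 1) a`, so
`‖α - 1‖ |a| ≤ |g - 1| |a|` (`vn_smul`, `vn_mulVec_le`). -/
theorem norm_eigen_sub_one_le {g : SL} {a : V} {α : ℂ} (ha : a ≠ 0)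
    (hg : (g : M2) *ᵥ a = α • a) : ‖α - 1‖ ≤ nm ((g : M2) - 1) := by
  have h1 : ((g : M2) - 1) *ᵥ a = (α - 1) • a := by
    rw [Matrix.sub_mulVec, Matrix.one_mulVec, hg, sub_smul, one_smul]
  have h2 := vn_mulVec_le ((g : M2) - 1) a
  rw [h1, vn_smul] at h2
  have h3 : 0 < vn a := lt_of_le_of_ne (vn_nonneg a) (fun h => ha (vn_eq_zero.mp h.symm))
  exact le_of_mul_le_mul_right h2 h3

theorem inv_mulVec_mulVec (k : SL) (a : V) :
    ((k⁻¹ : SL) : M2) *ᵥ ((k : M2) *ᵥ a) = a := by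
  rw [Matrix.mulVec_mulVec, coe_inv_mul, Matrix.one_mulVec]

theorem mulVec_inv_mulVec (k : SL) (a : V) :
    (k : M2) *ᵥ (((k⁻¹ : SL) : M2) *ᵥ a) = a := by
  rw [Matrix.mulVec_mulVec, coe_mul_inv, Matrix.one_mulVec]

theorem mulVec_ne_zero (k : SL) {a : V} (ha : a ≠ 0) : (k : M2) *ᵥ a ≠ 0 := by
  intro h
  apply ha
  rw [← inv_mulVec_mulVec k a, h, Matrix.mulVec_zero]

theorem om_symm_zero {u v : V} (h : om u v = 0) : om v u = 0 := by
  unfold om at *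
  linear_combination -h

/-- If `x a` and `y a` are proportional (`ω(x a, y a) = 0`), `a ≠ 0`, then `a` is an eigenvector of
`y⁻¹ x`.

Proof. `y a ≠ 0`; by `om_eq_zero` (and antisymmetry of `om`) `x a = α • y a`, so
`y⁻¹ x a = α a`. -/
theorem eigen_of_om {x y : SL} {a : V} (ha : a ≠ 0)
    (h : om ((x : M2) *ᵥ a) ((y : M2) *ᵥ a) = 0) :
    ∃ α : ℂ, α ≠ 0 ∧ ((y⁻¹ * x : SL) : M2) *ᵥ a = α • a := by
  obtain ⟨α, hα⟩ := (om_eq_zero (mulVec_ne_zero y ha)).mp (om_symm_zero h)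
  refine ⟨α, ?_, ?_⟩
  · rintro rfl
    rw [zero_smul] at hα
    exact mulVec_ne_zero x ha hα
  · rw [q1_coe_mul, ← Matrix.mulVec_mulVec, hα, Matrix.mulVec_smul, inv_mulVec_mulVec]

/-- Transitivity of proportionality. -/
theorem om_trans {u v w : V} (hv : v ≠ 0) (h1 : om u v = 0) (h2 : om v w = 0) : om u w = 0 := by
  obtain ⟨c, rfl⟩ := (om_eq_zero hv).mp h2
  rw [om_smul_right, h1, mul_zero]

end HRK
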