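import Pool.Agent.HRK.Q9

/-!
# HRK-Q10 : case (B ii), difference quotients on the transversal do not accumulate at `m ≠ 0`
-/

namespace HRK

open Set Filter Topology Matrix

universe u

variable {E : Type u} [TopologicalSpace E]

/-- Proof. Write `D₀ = D y₀`, `y_s = y₀.(uni s e₁)`, `f(s) = ζ(s) + s`, `D(y_s) = D₀ * up s`
(`Tr.D_eq`). Let `ρ₁` be a square root of `m`, `y₁ = y_{s₁}`, `ζ₁ = ζ(s₁)`, `f₁ = f(s₁)`,
`a₁ = (ζ₁, 1) ∈ Σ(y₁)`, `k = wy * up (-ζ₁)`, `k a₁ = e₁` (`wy_frame`). `cross` for `y₁`, `a₁`, `k`,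
`μ = ρ₁⁻¹` gives `N ∈ 𝓝 y₁` and `O ∈ 𝓝 (D(y₁) k⁻¹ (dm μ) k)`, and by `wy_conj`, `up_mul`
`D(y₁) k⁻¹ (dm μ) k = D₀ up(s₁) up(ζ₁) dm(ρ₁) up(-ζ₁) = D₀ * (up f₁ * dm ρ₁ * up (-ζ₁))`.
By `aff_continuousAt`, `local_sqrt` (`R`), continuity of `ζ` and of `s ↦ y_s` at `s₁`, there is
`ε > 0`, such that for `|s - s₁| < ε`, `|s' - s₁| < ε`, `|Q - m| < ε`:
`y_s, y_{s'} ∈ N`, `s, s'` are in the ball, and
`x = D₀ * (up (f s) * dm (R Q) * up (-ζ s)) ∈ O`, `R(Q)² = Q`, `R(Q) ≠ 0`.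
Suppose `ζ s ≠ ζ s'` and `|(f s - f s') - m (ζ s - ζ s')| < ε |ζ s - ζ s'|`. Put
`Q = (f s - f s')/(ζ s - ζ s')`; then `|Q - m| < ε`. By `aff_mulVec` with `ρ = R Q`
`x (ζ s, 1) = ρ⁻¹ D₀ (f s, 1)`, and `D(y_s)(ζ s, 1) = D₀ (ζ s + s, 1) = D₀ (f s, 1)` (`up_mulVec`);
`x (ζ s', 1) = ρ⁻¹ D₀ (Q (ζ s' - ζ s) + f s, 1) = ρ⁻¹ D₀ (f s', 1)`, and
`D(y_{s'})(ζ s', 1) = D₀ (f s', 1)`. So both `om` are zero and `cross` gives
`om (ζ s, 1) (ζ s', 1) = ζ s - ζ s' = 0`, contradiction. -/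
theorem Tr.quot [T2Space E] [ConnectedSpace E] {r0 L : ℝ} (hc : Cst r0 L) (G : Geo E r0 L)
    (hne : ∃ y ψ, 0 < eD G.D y ψ) (hU : Uni G.D) {y0 : E} {r : ℝ} {ζ : ℂ → ℂ}
    (h : Tr G.D y0 r ζ) {s1 : ℂ} (hs1 : s1 ∈ Metric.ball (0:ℂ) r) {m : ℂ} (hm : m ≠ 0) :
    ∃ ε > 0, ∀ s s' : ℂ, ‖s - s1‖ < ε → ‖s' - s1‖ < ε → ζ s ≠ ζ s' →
      ε * ‖ζ s - ζ s'‖ ≤ ‖(ζ s + s - (ζ s' + s')) - m * (ζ s - ζ s')‖ := by
  obtain ⟨ρ₁, hρ₁⟩ : ∃ ρ : ℂ, ρ ^ 2 = m := IsAlgClosed.exists_pow_nat_eq m (by norm_num)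
  have hρ0 : ρ₁ ≠ 0 := by
    intro h0
    apply hm
    rw [← hρ₁, h0]
    ring
  obtain ⟨R, hRm, hRc, hR⟩ := local_sqrt hm hρ₁
  have hk : ((wy * up (-ζ s1) : SL) : M2) *ᵥ ![ζ s1, 1] = (1 : ℂ) • e1 := wy_frame (ζ s1)
  obtain ⟨N, hN, O, hO, hcr⟩ := cross hc G hne hU (one_ne_zero) hk (h.sig s1 hs1)
    (inv_ne_zero hρ0)
  have hpt : G.D (ac G.D y0 (uni s1 e1)) *
      ((wy * up (-ζ s1))⁻¹ * dm ρ₁⁻¹ * (wy * up (-ζ s1))) =
      G.D y0 * (up (ζ s1 + s1) * dm ρ₁ * up (-ζ s1)) := by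
    rw [wy_conj _ (inv_ne_zero hρ0), inv_inv, h.D_eq G.hD hs1]
    have e : up (ζ s1 + s1) = up s1 * up (ζ s1) := by rw [up_mul, add_comm]
    rw [e]
    simp only [mul_assoc]
  rw [hpt] at hO
  -- continuity of `s ↦ y_s` at `s₁`
  have hys : ContinuousAt (fun s : ℂ => ac G.D y0 (uni s e1)) s1 := by
    have h1 := continuousOn_ac G.hD
    have h2 : Continuous fun s : ℂ => (y0, uni s e1) :=
      Continuous.prodMk continuous_const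
        (continuous_uni.comp (Continuous.prodMk continuous_id continuous_const))
    have h3 : ContinuousOn (fun s : ℂ => ac G.D y0 (uni s e1)) (Metric.ball 0 r) := by
      refine h1.comp h2.continuousOn ?_
      intro s hs
      show ((uni s e1 : SL) : M2) - 1 ∈ St G.D y0
      rw [uni_coe, add_sub_cancel_left]
      exact h.mem s hs
    exact h3.continuousAt (Metric.isOpen_ball.mem_nhds hs1)
  have hζc : ContinuousAt ζ s1 := h.cont.continuousAt (Metric.isOpen_ball.mem_nhds hs1)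
  have hfc : ContinuousAt (fun s => ζ s + s) s1 := hζc.add continuousAt_id
  -- the point `x` as a function of `(s, Q)`
  have hx : ContinuousAt (fun p : ℂ × ℂ =>
      G.D y0 * (up (ζ p.1 + p.1) * dm (R p.2) * up (-ζ p.1))) (s1, m) := by
    have h1 : ContinuousAt (fun p : ℂ × ℂ => (R p.2, ζ p.1 + p.1, ζ p.1)) (s1, m) := by
      refine ContinuousAt.prodMk ?_ (ContinuousAt.prodMk ?_ ?_)
      · exact ContinuousAt.comp (x := (s1, m)) (f := Prod.snd) (g := R) hRc continuousAt_snd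
      · exact ContinuousAt.comp (x := (s1, m)) (f := Prod.fst) (g := fun s => ζ s + s) hfc
          continuousAt_fst
      · exact ContinuousAt.comp (x := (s1, m)) (f := Prod.fst) (g := ζ) hζc continuousAt_fst
    have h2 : ContinuousAt (fun p : ℂ × ℂ × ℂ => up p.2.1 * dm p.1 * up (-p.2.2))
        ((fun p : ℂ × ℂ => (R p.2, ζ p.1 + p.1, ζ p.1)) (s1, m)) := by
      show ContinuousAt (fun p : ℂ × ℂ × ℂ => up p.2.1 * dm p.1 * up (-p.2.2))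
        (R m, ζ s1 + s1, ζ s1)
      rw [hRm]
      exact aff_continuousAt hρ0 _ _
    have h3 : ContinuousAt (fun p : ℂ × ℂ => up (ζ p.1 + p.1) * dm (R p.2) * up (-ζ p.1))
        (s1, m) :=
      ContinuousAt.comp (x := (s1, m)) (f := fun p : ℂ × ℂ => (R p.2, ζ p.1 + p.1, ζ p.1))
        (g := fun p : ℂ × ℂ × ℂ => up p.2.1 * dm p.1 * up (-p.2.2)) h2 h1
    exact continuousAt_const.mul h3
  have hxO : ∀ᶠ p : ℂ × ℂ in 𝓝 (s1, m),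
      G.D y0 * (up (ζ p.1 + p.1) * dm (R p.2) * up (-ζ p.1)) ∈ O := by
    apply hx
    show O ∈ 𝓝 (G.D y0 * (up (ζ s1 + s1) * dm (R m) * up (-ζ s1)))
    rw [hRm]
    exact hO
  have hyN : ∀ᶠ s in 𝓝 s1, ac G.D y0 (uni s e1) ∈ N := hys hN
  have hsb : ∀ᶠ s in 𝓝 s1, s ∈ Metric.ball (0:ℂ) r := Metric.isOpen_ball.mem_nhds hs1
  obtain ⟨ε1, hε1, hb1⟩ := Metric.eventually_nhds_iff.1 (hyN.and hsb)
  obtain ⟨ε2, hε2, hb2⟩ := Metric.eventually_nhds_iff.1 hR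
  obtain ⟨ε3, hε3, hb3⟩ := Metric.eventually_nhds_iff.1 hxO
  refine ⟨min ε1 (min ε2 ε3), lt_min hε1 (lt_min hε2 hε3), ?_⟩
  intro s s' hs hs' hne'
  by_contra hcon
  push Not at hcon
  have hd : ζ s - ζ s' ≠ 0 := sub_ne_zero.2 hne'
  have hdn : 0 < ‖ζ s - ζ s'‖ := norm_pos_iff.2 hd
  obtain ⟨Q, hQ⟩ : ∃ Q : ℂ, Q = (ζ s + s - (ζ s' + s')) / (ζ s - ζ s') := ⟨_, rfl⟩
  have hQd : Q * (ζ s - ζ s') = ζ s + s - (ζ s' + s') := by
    rw [hQ, div_mul_cancel₀ _ hd]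
  have hQm : ‖Q - m‖ < min ε1 (min ε2 ε3) := by
    have e : ζ s + s - (ζ s' + s') - m * (ζ s - ζ s') = (Q - m) * (ζ s - ζ s') := by
      rw [sub_mul, hQd]
    rw [e, norm_mul] at hcon
    exact lt_of_mul_lt_mul_right hcon hdn.le
  have hsd : dist s s1 < min ε1 (min ε2 ε3) := by rw [dist_eq_norm]; exact hs
  have hsd' : dist s' s1 < min ε1 (min ε2 ε3) := by rw [dist_eq_norm]; exact hs'
  have hQdd : dist Q m < min ε1 (min ε2 ε3) := by rw [dist_eq_norm]; exact hQm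
  have l1 : min ε1 (min ε2 ε3) ≤ ε1 := min_le_left _ _
  have l2 : min ε1 (min ε2 ε3) ≤ ε2 := (min_le_right _ _).trans (min_le_left _ _)
  have l3 : min ε1 (min ε2 ε3) ≤ ε3 := (min_le_right _ _).trans (min_le_right _ _)
  obtain ⟨hysN, hsr⟩ := hb1 (hsd.trans_le l1)
  obtain ⟨hysN', hsr'⟩ := hb1 (hsd'.trans_le l1)
  obtain ⟨hRQ, hRQ0⟩ := hb2 (hQdd.trans_le l2)
  have hxQ : G.D y0 * (up (ζ s + s) * dm (R Q) * up (-ζ s)) ∈ O := by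
    have h5 : dist (s, Q) (s1, m) < ε3 := by
      rw [Prod.dist_eq]
      exact max_lt (hsd.trans_le l3) (hQdd.trans_le l3)
    have h6 := hb3 h5
    simp only at h6
    exact h6
  have hx1 : ∀ z : ℂ, ((G.D y0 * (up (ζ s + s) * dm (R Q) * up (-ζ s)) : SL) : M2) *ᵥ ![z, 1] =
      (R Q)⁻¹ • ((G.D y0 : M2) *ᵥ ![Q * (z - ζ s) + (ζ s + s), 1]) := by
    intro z
    have e1 : ((G.D y0 * (up (ζ s + s) * dm (R Q) * up (-ζ s)) : SL) : M2) =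
      (G.D y0 : M2) * ((up (ζ s + s) * dm (R Q) * up (-ζ s) : SL) : M2) := rfl
    rw [e1, ← Matrix.mulVec_mulVec, aff_mulVec hRQ0, hRQ, Matrix.mulVec_smul]
  have hy1 : ∀ t : ℂ, t ∈ Metric.ball (0:ℂ) r →
      ((G.D (ac G.D y0 (uni t e1)) : SL) : M2) *ᵥ ![ζ t, 1] =
        (G.D y0 : M2) *ᵥ ![ζ t + t, 1] := by
    intro t ht
    have e1 : ((G.D y0 * up t : SL) : M2) = (G.D y0 : M2) * ((up t : SL) : M2) := rfl
    rw [h.D_eq G.hD ht, e1, ← Matrix.mulVec_mulVec, up_mulVec]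
  have hom := hcr _ hysN _ hysN' ![ζ s, 1] ![ζ s', 1] _ hxQ (h.sig s hsr) (h.sig s' hsr') ?_ ?_
  · have h9 : ζ s * 1 - 1 * ζ s' = 0 := hom
    apply hd
    linear_combination h9
  · rw [hx1, hy1 s hsr, sub_self, mul_zero, zero_add, om_smul_left, om_self, mul_zero]
  · rw [hx1, hy1 s' hsr']
    have e2 : Q * (ζ s' - ζ s) + (ζ s + s) = ζ s' + s' := by
      linear_combination -hQd
    rw [e2, om_smul_left, om_self, mul_zero]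

end HRK
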