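import Pool.Agent.HRK.Q9

/-!
# HRK-Q11 : case (B ii), from the transversal to an open set
-/

namespace HRK

open Set Filter Topology Matrix

universe u

variable {E : Type u} [TopologicalSpace E]

/-- The leaf through a point `y'` near `y₀` meets the transversal.

Proof. Notation of Q10: `D₀ = D y₀`, `y_s`, `D(y_s) = D₀ up(s)`. Put `ζ₀ = ζ(0)`. By `Sig_near` at
`y₀ = y_0` for `y'` near `y₀` there is `a ∈ Σ(y')` near `(ζ₀,1)`; scale: `a = (z,1)`, `z` near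
`ζ₀`. Let `(u₀,u₁) = D₀⁻¹ D(y') (z,1)`, near `(ζ₀, 1)`, so `u₁ ≠ 0`; `f' = u₀/u₁`, `s = f' - z`, near
`0`. Let `g = D(y')⁻¹ D₀ up(s)`; `g` is near `1` and `g (z,1) = D(y')⁻¹ D₀ (f', 1) = u₁⁻¹ (z,1)`, with
`|u₁⁻¹ - 1| < cB` for `y'` near `y₀`. By BI `z' = y'.g`, near `y₀` (`ac_continuousAt`),
`D(z') = D(y') g = D₀ up(s) = D(y_s)`, and `y_s` is near `y₀`; as `D` is injective near `y₀`,
`z' = y_s`. So `(z,1) ∈ Σ(y_s)`, `z = ζ(s)`. Finally `D(y') (z,1) = u₁ D₀ (f',1)`, `f' = z + s`. -/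
theorem Tr.near [T2Space E] [ConnectedSpace E] {r0 L : ℝ} (hc : Cst r0 L) (G : Geo E r0 L)
    (hne : ∃ y ψ, 0 < eD G.D y ψ) (hU : Uni G.D) {y0 : E} {r : ℝ} {ζ : ℂ → ℂ}
    (h : Tr G.D y0 r ζ) {δ : ℝ} (hδ : 0 < δ) :
    ∀ᶠ y' in 𝓝 y0, ∃ s : ℂ, ‖s‖ < δ ∧ s ∈ Metric.ball (0:ℂ) r ∧ Sig G.D y' ![ζ s, 1] ∧
      om ((G.D y' : M2) *ᵥ ![ζ s, 1]) ((G.D y0 : M2) *ᵥ ![ζ s + s, 1]) = 0 := by
  obtain ⟨cB, hB⟩ := exists_BI hc G hne
  have hDc : Continuous G.D := continuous_D G.hD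
  obtain ⟨U, hU0, hUinj⟩ := isLocallyInjective_iff_nhds.1
    (isLocalHomeomorph_of_Dh G.hD).isLocallyInjective y0
  -- the vector `D₀⁻¹ D(y') (z,1)`
  let F : E × ℂ → V := fun p => (((G.D y0)⁻¹ * G.D p.1 : SL) : M2) *ᵥ ![p.2, 1]
  have hF : Continuous F := by
    have c1 : Continuous fun p : E × ℂ => (((G.D y0)⁻¹ * G.D p.1 : SL) : M2) :=
      isEmbedding_coe.continuous.comp (continuous_const.mul (hDc.comp continuous_fst))
    have c2 : Continuous fun p : E × ℂ => (![p.2, 1] : V) := by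
      refine continuous_pi fun i => ?_
      fin_cases i
      · exact continuous_snd
      · exact continuous_const
    exact c1.matrix_mulVec c2
  have hF0 : F (y0, ζ 0) = ![ζ 0, 1] := by
    show (((G.D y0)⁻¹ * G.D y0 : SL) : M2) *ᵥ ![ζ 0, 1] = _
    rw [inv_mul_cancel]
    show (1 : M2) *ᵥ ![ζ 0, 1] = _
    rw [Matrix.one_mulVec]
  have hF00 : F (y0, ζ 0) 0 = ζ 0 := by rw [hF0]; rfl
  have hF01 : F (y0, ζ 0) 1 = 1 := by rw [hF0]; rfl
  have cF0 : Continuous fun p => F p 0 := (continuous_apply 0).comp hF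
  have cF1 : Continuous fun p => F p 1 := (continuous_apply 1).comp hF
  have hF1 : F (y0, ζ 0) 1 ≠ 0 := by rw [hF01]; exact one_ne_zero
  -- the parameter `s`
  let S : E × ℂ → ℂ := fun p => F p 0 / F p 1 - p.2
  have cS : ContinuousAt S (y0, ζ 0) :=
    (cF0.continuousAt.div cF1.continuousAt hF1).sub continuousAt_snd
  have hS0 : S (y0, ζ 0) = 0 := by
    show F (y0, ζ 0) 0 / F (y0, ζ 0) 1 - ζ 0 = 0
    rw [hF00, hF01, div_one, sub_self]
  -- the group element `g`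
  have cup : Continuous up := by
    rw [isEmbedding_coe.continuous_iff]
    refine continuous_matrix fun i j => ?_
    fin_cases i <;> fin_cases j
    · exact continuous_const
    · exact continuous_id
    · exact continuous_const
    · exact continuous_const
  have hup0 : up 0 = 1 := by
    apply Subtype.ext
    show (!![1, 0; 0, 1] : M2) = 1
    exact Matrix.one_fin_two.symm
  let g : E × ℂ → SL := fun p => (G.D p.1)⁻¹ * (G.D y0 * up (S p))
  have cg : ContinuousAt g (y0, ζ 0) := by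
    have c1 : ContinuousAt (fun p : E × ℂ => (G.D p.1)⁻¹) (y0, ζ 0) :=
      ((hDc.comp continuous_fst).inv).continuousAt
    have c2 : ContinuousAt (fun p : E × ℂ => up (S p)) (y0, ζ 0) :=
      ContinuousAt.comp cup.continuousAt cS
    exact c1.mul (continuousAt_const.mul c2)
  have hg0 : g (y0, ζ 0) = 1 := by
    show (G.D y0)⁻¹ * (G.D y0 * up (S (y0, ζ 0))) = 1
    rw [hS0, hup0, mul_one, inv_mul_cancel]
  have ca : ContinuousAt (fun p : E × ℂ => ac G.D p.1 (g p)) (y0, ζ 0) := by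
    have h1 : ContinuousAt (fun q : E × SL => ac G.D q.1 q.2)
        ((fun p : E × ℂ => (p.1, g p)) (y0, ζ 0)) := by
      show ContinuousAt (fun q : E × SL => ac G.D q.1 q.2) (y0, g (y0, ζ 0))
      rw [hg0]
      apply ac_continuousAt G.hD
      show ((1 : SL) : M2) - 1 ∈ St G.D y0
      rw [show ((1 : SL) : M2) - 1 = 0 from sub_self _]
      exact zero_mem_St y0
    exact ContinuousAt.comp (x := (y0, ζ 0)) (f := fun p : E × ℂ => (p.1, g p))
      (g := fun q : E × SL => ac G.D q.1 q.2) h1 (continuousAt_fst.prodMk cg)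
  have ha0 : ac G.D y0 (g (y0, ζ 0)) = y0 := by rw [hg0, ac_one G.hD]
  have cb : ContinuousAt (fun p : E × ℂ => ac G.D y0 (uni (S p) e1)) (y0, ζ 0) := by
    have h1 : ContinuousAt (fun q : E × SL => ac G.D q.1 q.2)
        ((fun p : E × ℂ => (y0, uni (S p) e1)) (y0, ζ 0)) := by
      show ContinuousAt (fun q : E × SL => ac G.D q.1 q.2) (y0, uni (S (y0, ζ 0)) e1)
      rw [hS0, uni_zero]
      apply ac_continuousAt G.hD
      rw [show ((1 : SL) : M2) - 1 = 0 from sub_self _]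
      exact zero_mem_St y0
    have h2 : ContinuousAt (fun p : E × ℂ => (uni (S p) e1 : SL)) (y0, ζ 0) := by
      have h3 : Continuous fun s : ℂ => (uni s e1 : SL) :=
        continuous_uni.comp (Continuous.prodMk continuous_id continuous_const)
      exact ContinuousAt.comp h3.continuousAt cS
    exact ContinuousAt.comp (x := (y0, ζ 0)) (f := fun p : E × ℂ => (y0, uni (S p) e1))
      (g := fun q : E × SL => ac G.D q.1 q.2) h1 (continuousAt_const.prodMk h2)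
  have hb0 : ac G.D y0 (uni (S (y0, ζ 0)) e1) = y0 := by rw [hS0, uni_zero, ac_one G.hD]
  -- everything holds near `(y₀, ζ₀)`
  have ev1 : ∀ᶠ p in 𝓝 (y0, ζ 0), F p 1 ≠ 0 := cF1.continuousAt.eventually_ne hF1
  have ev2 : ∀ᶠ p in 𝓝 (y0, ζ 0), ‖(F p 1)⁻¹ - 1‖ < cB := by
    have c1 : ContinuousAt (fun p => ‖(F p 1)⁻¹ - 1‖) (y0, ζ 0) :=
      ((cF1.continuousAt.inv₀ hF1).sub continuousAt_const).norm
    have h1 : ‖(F (y0, ζ 0) 1)⁻¹ - 1‖ < cB := by
      rw [hF01, inv_one, sub_self, norm_zero]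
      exact hB.1
    exact c1.eventually_lt continuousAt_const h1
  have ev3 : ∀ᶠ p : E × ℂ in 𝓝 (y0, ζ 0), ac G.D p.1 (g p) ∈ U := by
    apply ca
    show U ∈ 𝓝 (ac G.D y0 (g (y0, ζ 0)))
    rw [ha0]
    exact hU0
  have ev4 : ∀ᶠ p : E × ℂ in 𝓝 (y0, ζ 0), ac G.D y0 (uni (S p) e1) ∈ U := by
    apply cb
    show U ∈ 𝓝 (ac G.D y0 (uni (S (y0, ζ 0)) e1))
    rw [hb0]
    exact hU0
  have ev5 : ∀ᶠ p : E × ℂ in 𝓝 (y0, ζ 0), ‖S p‖ < δ := by
    have h1 : ‖S (y0, ζ 0)‖ < δ := by rw [hS0, norm_zero]; exact hδ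
    exact cS.norm.eventually_lt continuousAt_const h1
  have ev6 : ∀ᶠ p : E × ℂ in 𝓝 (y0, ζ 0), ‖S p‖ < r := by
    have h1 : ‖S (y0, ζ 0)‖ < r := by rw [hS0, norm_zero]; exact h.r_pos
    exact cS.norm.eventually_lt continuousAt_const h1
  have ev := ev1.and (ev2.and (ev3.and (ev4.and (ev5.and ev6))))
  obtain ⟨N, hN, Z, hZ, hNZ⟩ := mem_nhds_prod_iff.1 ev
  have hO : {a : V | a 1 ≠ 0 ∧ a 0 / a 1 ∈ Z} ∈ 𝓝 (![ζ 0, 1] : V) := by
    have hca : ContinuousAt (fun a : V => a 0 / a 1) ![ζ 0, 1] := by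
      refine ContinuousAt.div (continuous_apply 0).continuousAt
        (continuous_apply 1).continuousAt ?_
      show (1:ℂ) ≠ 0
      exact one_ne_zero
    have hm1 : ∀ᶠ a : V in 𝓝 ![ζ 0, 1], a 1 ≠ 0 :=
      (continuous_apply (1 : Fin 2)).continuousAt.eventually_ne (by
        show (1:ℂ) ≠ 0
        exact one_ne_zero)
    have hm2 : ∀ᶠ a : V in 𝓝 ![ζ 0, 1], a 0 / a 1 ∈ Z := by
      apply hca
      show Z ∈ 𝓝 (ζ 0 / 1)
      rw [div_one]
      exact hZ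
    exact hm1.and hm2
  have hsig0 : Sig G.D y0 ![ζ 0, 1] := by
    have h1 := h.sig 0 (Metric.mem_ball_self h.r_pos)
    rw [uni_zero, ac_one G.hD] at h1
    exact h1
  filter_upwards [Sig_near hc G hne hU hsig0 hO, hN] with y' hy' hyN
  obtain ⟨a, ⟨ha1, haZ⟩, ha⟩ := hy'
  have hz : Sig G.D y' ![a 0 / a 1, 1] := by
    have h3 : (a 1)⁻¹ • a = ![a 0 / a 1, 1] := by
      ext i
      fin_cases i
      · show (a 1)⁻¹ * a 0 = a 0 / a 1
        rw [div_eq_inv_mul]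
      · show (a 1)⁻¹ * a 1 = 1
        exact inv_mul_cancel₀ ha1
    rw [← h3]
    exact (Sig_smul G.D _ a (inv_ne_zero ha1)).2 ha
  generalize a 0 / a 1 = z at haZ hz
  have hP := hNZ (mk_mem_prod hyN haZ)
  obtain ⟨p1, p2, p3, p4, p5, p6⟩ := hP
  have hFv : (((G.D y0)⁻¹ * G.D y' : SL) : M2) *ᵥ ![z, 1] = F (y', z) := rfl
  have hs1 : ![z + S (y', z), 1] = (F (y', z) 1)⁻¹ • F (y', z) := by
    ext i
    fin_cases i
    · show z + (F (y', z) 0 / F (y', z) 1 - z) = (F (y', z) 1)⁻¹ * F (y', z) 0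
      rw [add_sub_cancel, div_eq_inv_mul]
    · show 1 = (F (y', z) 1)⁻¹ * F (y', z) 1
      exact (inv_mul_cancel₀ p1).symm
  -- `D₀ (z + s, 1) = u₁⁻¹ D(y') (z,1)`
  have hD1 : (G.D y0 : M2) *ᵥ ![z + S (y', z), 1] =
      (F (y', z) 1)⁻¹ • ((G.D y' : M2) *ᵥ ![z, 1]) := by
    rw [hs1, Matrix.mulVec_smul, ← hFv]
    congr 1
    have e1 : (((G.D y0)⁻¹ * G.D y' : SL) : M2) =
      (((G.D y0)⁻¹ : SL) : M2) * (G.D y' : M2) := rfl
    rw [e1, Matrix.mulVec_mulVec, ← mul_assoc, coe_mul_inv, one_mul]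
  have hg : ((g (y', z) : SL) : M2) *ᵥ ![z, 1] = (F (y', z) 1)⁻¹ • ![z, 1] := by
    have e1 : ((g (y', z) : SL) : M2) = (((G.D y')⁻¹ : SL) : M2) *
      ((G.D y0 : M2) * ((up (S (y', z)) : SL) : M2)) := rfl
    rw [e1, ← Matrix.mulVec_mulVec, ← Matrix.mulVec_mulVec, up_mulVec, hD1,
      Matrix.mulVec_smul, Matrix.mulVec_mulVec, coe_inv_mul, Matrix.one_mulVec]
  obtain ⟨b1, b2, b3⟩ := hB.2 y' ![z, 1] (g (y', z)) _ hz hg p2
  have hsr : S (y', z) ∈ Metric.ball (0:ℂ) r := by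
    rw [mem_ball_zero_iff]
    exact p6
  have hDeq : G.D (ac G.D y' (g (y', z))) = G.D (ac G.D y0 (uni (S (y', z)) e1)) := by
    rw [b2, h.D_eq G.hD hsr]
    show G.D y' * ((G.D y')⁻¹ * (G.D y0 * up (S (y', z)))) = _
    rw [mul_inv_cancel_left]
  have heq := hUinj p3 p4 hDeq
  rw [heq] at b3
  have hom := hU.2 _ _ _ b3 (h.sig _ hsr)
  have hzζ : z = ζ (S (y', z)) := by
    have h9 : z * 1 - 1 * ζ (S (y', z)) = 0 := hom
    linear_combination h9
  refine ⟨S (y', z), p5, hsr, ?_, ?_⟩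
  · rw [← hzζ]
    exact hz
  · rw [← hzζ, hD1, om_smul_right, om_self, mul_zero]

end HRK
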