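import Pool.Agent.HRK.Q5
import Pool.Agent.HRK.Q10
import Pool.Agent.HRK.Q11

/-!
# HRK-Q12 : case (B ii), end
-/

namespace HRK

open Set Filter Topology Matrix

universe u

variable {E : Type u} [TopologicalSpace E]

/-- `Σ` contains a constant line (right or left) on a nonempty open set. -/
def LF (D : E → SL) : Prop :=
  (∃ a : V, a ≠ 0 ∧ ∃ O : Set E, IsOpen O ∧ O.Nonempty ∧ ∀ y ∈ O, Sig D y a) ∨
  (∃ b : V, b ≠ 0 ∧ ∃ O : Set E, IsOpen O ∧ O.Nonempty ∧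
    ∀ y ∈ O, Sig D y ((((D y)⁻¹ : SL) : M2) *ᵥ b))

theorem q12_inv (x k : SL) (b : V) :
    ((((x * k⁻¹)⁻¹ : SL)) : M2) *ᵥ b = (k : M2) *ᵥ (((x⁻¹ : SL) : M2) *ᵥ b) := by
  rw [_root_.mul_inv_rev, inv_inv, Matrix.SpecialLinearGroup.coe_mul, Matrix.mulVec_mulVec]

/-- change of frame. Proof. `Sig_conj`; `(D y * k⁻¹)⁻¹ b = k (D y)⁻¹ b`. -/
theorem LF_conj {D : E → SL} (k : SL) : LF (fun y => D y * k⁻¹) ↔ LF D := by
  unfold LF
  constructor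
  · rintro (⟨a, ha, O, hO, hne, h⟩ | ⟨b, hb, O, hO, hne, h⟩)
    · refine Or.inl ⟨((k⁻¹ : SL) : M2) *ᵥ a, mulVec_ne_zero _ ha, O, hO, hne, fun y hy => ?_⟩
      exact (Sig_conj' k y a).1 (h y hy)
    · refine Or.inr ⟨b, hb, O, hO, hne, fun y hy => ?_⟩
      have h1 := (Sig_conj' k y _).1 (h y hy)
      rw [q12_inv, inv_mulVec_mulVec] at h1
      exact h1
  · rintro (⟨a, ha, O, hO, hne, h⟩ | ⟨b, hb, O, hO, hne, h⟩)
    · refine Or.inl ⟨(k : M2) *ᵥ a, mulVec_ne_zero _ ha, O, hO, hne, fun y hy => ?_⟩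
      exact (Sig_conj k y a).2 (h y hy)
    · refine Or.inr ⟨b, hb, O, hO, hne, fun y hy => ?_⟩
      rw [q12_inv]
      exact (Sig_conj k y _).2 (h y hy)

/-- Proof. `Sig_conj`. -/
theorem Uni_conj {D : E → SL} (k : SL) : Uni (fun y => D y * k⁻¹) ↔ Uni D := by
  unfold Uni
  constructor
  · rintro ⟨h1, h2⟩
    refine ⟨fun y => ?_, fun y a a' ha ha' => ?_⟩
    · obtain ⟨a, ha⟩ := h1 y
      exact ⟨_, (Sig_conj' k y a).1 ha⟩
    · have h3 := h2 y _ _ ((Sig_conj k y a).2 ha) ((Sig_conj k y a').2 ha')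
      rwa [om_mulVec] at h3
  · rintro ⟨h1, h2⟩
    refine ⟨fun y => ?_, fun y a a' ha ha' => ?_⟩
    · obtain ⟨a, ha⟩ := h1 y
      exact ⟨_, (Sig_conj k y a).2 ha⟩
    · have h3 := h2 y _ _ ((Sig_conj' k y a).1 ha) ((Sig_conj' k y a').1 ha')
      rwa [om_mulVec] at h3

/-- Normalised case.

Proof. `exists_Tr` gives `r, ζ`; `rigidity` (its hypothesis is `Tr.quot`) gives `δ`. First
alternative `ζ s = ζ 0` for `|s| < δ`: by `Tr.near` the lines `(ζ 0, 1)` are in `Σ(y')` for `y'` near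
`y₀`; take for `O` an open neighbourhood. Second alternative `ζ s + s = ζ 0`: with `b = D(y₀) (ζ 0, 1)`,
`a = (ζ s, 1) ∈ Σ(y')` and `D(y') a ∥ b`, so `D(y')⁻¹ b ∥ a` (apply `D(y')⁻¹`, `om_mulVec`,
`om_eq_zero`) and `D(y')⁻¹ b ∈ Σ(y')` by `Sig_smul`. -/
theorem caseBii_e2 [T2Space E] [ConnectedSpace E] {r0 L : ℝ} (hc : Cst r0 L) (G : Geo E r0 L)
    (hne : ∃ y ψ, 0 < eD G.D y ψ) (hU : Uni G.D) {y0 : E} (h0 : Sig G.D y0 e2) : LF G.D := by
  obtain ⟨r, ζ, hT⟩ := exists_Tr hc G hne hU h0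
  obtain ⟨δ, hδ, hδr, hrig⟩ := rigidity hT.r_pos hT.cont
    (fun s1 hs1 m hm => hT.quot hc G hne hU hs1 hm)
  have hnear := hT.near hc G hne hU hδ
  obtain ⟨O, hOsub, hO, hy0⟩ := mem_nhds_iff.mp hnear
  rcases hrig with hrig | hrig
  · refine Or.inl ⟨![ζ 0, 1], ?_, O, hO, ⟨y0, hy0⟩, fun y hy => ?_⟩
    · intro h
      have := congrFun h 1
      simp at this
    · obtain ⟨s, hs, -, hsig, -⟩ := hOsub hy
      rw [← hrig s (by simpa using hs)]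
      exact hsig
  · refine Or.inr ⟨(G.D y0 : M2) *ᵥ ![ζ 0, 1], mulVec_ne_zero _ ?_, O, hO, ⟨y0, hy0⟩,
      fun y hy => ?_⟩
    · intro h
      have := congrFun h 1
      simp at this
    · obtain ⟨s, hs, -, hsig, hom⟩ := hOsub hy
      rw [hrig s (by simpa using hs)] at hom
      have hb0 : (![ζ 0, 1] : V) ≠ 0 := by
        intro h
        have := congrFun h 1
        simp at this
      refine hsig.of_om (mulVec_ne_zero _ (mulVec_ne_zero _ hb0)) ?_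
      rw [← om_mulVec (G.D y), mulVec_inv_mulVec]
      exact hom

/-- **Case (B ii).**

Proof. Take any `y₀`, `a ∈ Σ(y₀)` and a frame `k` with `k a = e₂` (`exists_SL_e1` gives `k'` with
`k' a = -e₁`... `k = wy * k'`, `wy e₁ = -e₂`; any nonzero multiple of `e₂` is fine, use `Sig_smul`).
Apply `caseBii_e2` to `G.conj k` (`Geo.conj`: `D y * k⁻¹`), with `Uni_conj`, `Sig_conj`, `eD_conj` (for
`hne`), and `LF_conj`. -/
theorem caseBii [T2Space E] [ConnectedSpace E] {r0 L : ℝ} (hc : Cst r0 L) (G : Geo E r0 L)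
    (hne : ∃ y ψ, 0 < eD G.D y ψ) (hU : Uni G.D) : LF G.D := by
  obtain ⟨y0, -⟩ := id hne
  obtain ⟨a, ha⟩ := hU.1 y0
  obtain ⟨k, hk⟩ := exists_SL_e2 ha.1
  have h1 : Sig (fun y => G.D y * k⁻¹) y0 ((k : M2) *ᵥ a) := (Sig_conj k y0 a).2 ha
  rw [hk] at h1
  have h2 : Sig (fun y => G.D y * k⁻¹) y0 e2 :=
    (Sig_smul _ y0 e2 (neg_ne_zero.mpr one_ne_zero)).mp h1
  have h3 : LF (G.conj k).D := caseBii_e2 hc (G.conj k) (hne_conj G k hne)
    ((Uni_conj k).2 hU) h2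
  exact (LF_conj k).1 h3

end HRK
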