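import Pool.Agent.HRK.Q6

/-!
# HRK-Q13 : case (B i), the points near a point `y` with `|Σ(y)| = 2`
-/

namespace HRK

open Set Filter Topology Matrix

universe u

variable {E : Type u} [TopologicalSpace E]

theorem q13_dg_e1 (s : ℝ) : ((dg s : SL) : M2) *ᵥ e1 = (Real.exp (s / 2) : ℂ) • e1 := by
  ext i
  fin_cases i <;> simp [dg, e1, Matrix.mulVec, dotProduct, Fin.sum_univ_two]

theorem q13_dg_e2 (s : ℝ) : ((dg s : SL) : M2) *ᵥ e2 = (Real.exp (-(s / 2)) : ℂ) • e2 := by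
  ext i
  fin_cases i <;> simp [dg, e2, Matrix.mulVec, dotProduct, Fin.sum_univ_two]

theorem q13_exists_s {B c : ℝ} (hB : 0 ≤ B) (hc : 0 < c) : ∃ s : ℝ, Real.exp (-s) * B < c := by
  have hB1 : 0 < B + 1 := by linarith
  refine ⟨-Real.log (c / (B + 1)), ?_⟩
  rw [neg_neg, Real.exp_log (div_pos hc hB1), div_mul_eq_mul_div, div_lt_iff₀ hB1]
  nlinarith

theorem q13_nm_lo (q : ℂ) : nm (((lo q : SL) : M2) - 1) = ‖q‖ := by
  have h := nm_lo q 0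
  rwa [dg_zero, one_cj, neg_zero, Real.exp_zero, one_mul] at h

theorem q13_nm_up (q : ℂ) : nm (((up q : SL) : M2) - 1) = ‖q‖ := by
  have h := nm_up q 0
  rwa [neg_zero, dg_zero, one_cj, Real.exp_zero, one_mul] at h

theorem q13_norm_exp_mul (s : ℝ) (w : ℂ) :
    ‖(Real.exp (-s) : ℂ) * (-w)‖ = Real.exp (-s) * ‖w‖ := by
  rw [norm_mul, norm_neg, Complex.norm_real, Real.norm_of_nonneg (Real.exp_pos _).le]

theorem q13_sq {x y : ℝ} (hx : 0 < x) (h : (1 + (x * y) ^ 2) - 1 ≤ 0) : y = 0 := by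
  have h1 : (x * y) ^ 2 ≤ 0 := by linarith
  have h2 : x * y = 0 := by
    have := sq_nonneg (x * y)
    exact pow_eq_zero_iff (two_ne_zero) |>.mp (le_antisymm h1 this)
  rcases mul_eq_zero.mp h2 with h3 | h3
  · exact absurd h3 hx.ne'
  · exact h3

theorem q13_unit {a : V} (h : a ≠ 0) : ∃ c : ℂ, c ≠ 0 ∧ nsq (c • a) = 1 := by
  have hne : nsq a ≠ 0 := by
    intro h0
    apply h
    apply vn_eq_zero.mp
    rw [vn, h0, Real.sqrt_zero]
  have hpos : 0 < nsq a := lt_of_le_of_ne (nsq_nonneg a) (Ne.symm hne)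
  have hs : 0 < Real.sqrt (nsq a) := Real.sqrt_pos.mpr hpos
  have hsq : Real.sqrt (nsq a) ^ 2 = nsq a := Real.sq_sqrt hpos.le
  have hne' : ((Real.sqrt (nsq a) : ℝ) : ℂ) ≠ 0 := by
    exact_mod_cast hs.ne'
  refine ⟨((Real.sqrt (nsq a) : ℝ) : ℂ)⁻¹, inv_ne_zero hne', ?_⟩
  rw [nsq_smul, norm_inv, Complex.norm_real, Real.norm_of_nonneg hs.le, inv_pow, hsq]
  exact inv_mul_cancel₀ hne

/-- An exact plane persists along its axis.

Proof. `m(y, dg s) = 1/2` for all `s` (`Sig_two` with the frame `dg s`: `dg s e₁ = e^{s/2} e₁`,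
`dg s e₂ = e^{-s/2} e₂`), and `Ct_min`. -/
theorem Ct_axis [T2Space E] [ConnectedSpace E] {r0 L c C : ℝ} (hc : Cst r0 L)
    (hV : VisPkg.{u} r0 L c C) (G : Geo E r0 L) (hne : ∃ y ψ, 0 < eD G.D y ψ) {y : E}
    (h1 : Sig G.D y e1) (h2 : Sig G.D y e2) (h : Ct G c C y 1 !![1, 0; 0, 0]) (s : ℝ) :
    Ct G c C y (dg s) !![1, 0; 0, 0] :=
  Ct_min hc hV G hne h (Sig_two hc G hne (q13_dg_e1 s) (q13_dg_e2 s) h1 h2)

/-- The lower case: `a` is far from `e₂`; then `a ∥ e₁`.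

Proof. Scale `a` to a unit vector, `|a₀| ≥ 1/2` (the statement is for unit vectors). Let `r ≤ 1/4` be
the constant of `good_frame hc 1`, so `FB y 1 r` (`hP 0`, `dg_zero`: `m(y,1) = 1/2`), and `cB` from
`exists_BI`. Suppose
`|h - 1| < ε` with `ε ≤ r/32`, `ε < 1/8`, `8 ε < cB`. `fac_low`: `q`, `κ`, `g2 = h⁻¹ (lo q)`,
`g2 a = κ a`, `|κ - 1| < cB`, `|q| < r/2`. `lo q` fixes `e₂` (`lo_e2`), so by BI at `y` (eigenvalue
`1`): `e₂ ∈ Σ(y'')`, `y'' = y.(lo q)`. By BI at `y.h` with `a`, `g2`: `a ∈ Σ((y.h).g2)`, and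
`(y.h).g2 = y.(h g2) = y''` by `ac_ac` in the frame `1` (`|h-1| < r`, `|lo q - 1| = |q| < r`,
`nm_lo` with `s = 0`). `om a e₂ = a₀ ≠ 0`. By `Sig_two` at `y''`, `m(y'', k) = 1/2` for the frames
`k = dg s * lo (-w)`, `w = a₁/a₀` (`lo_frame`), so `v(y'',k) = 0`. Let `c4` be the constant of
`Ct_lower`. `k = k1 * dg s`, `k1 = lo (-e^{-s} w)` (`dg_lo`), `|k1 - 1| = e^{-s}|w| < c4` and
`|lo q - 1|` in the frame `dg s` is `e^{-s}|q| < c4` (`nm_lo`) for `s` large. By `Ct_lower` (with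
`hP s`) and `vD_of_half`: `fro (cj k (pmv E11 (lo q))) ≤ 1`. By `fro_low` this is `1 + (e^{-s}|w|)²`, so
`w = 0`, `a₁ = 0`. -/
theorem Bi_low [T2Space E] [ConnectedSpace E] {r0 L c C : ℝ} (hc : Cst r0 L)
    (hV : VisPkg.{u} r0 L c C) (G : Geo E r0 L) (hne : ∃ y ψ, 0 < eD G.D y ψ) {y : E}
    (h1 : Sig G.D y e1) (h2 : Sig G.D y e2)
    (hP : ∀ s : ℝ, Ct G c C y (dg s) !![1, 0; 0, 0]) :
    ∃ ε > 0, ∀ (h : SL) (a : V), nm ((h : M2) - 1) < ε → nsq a = 1 → 1 / 2 ≤ ‖a 0‖ →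
      Sig G.D (ac G.D y h) a → a 1 = 0 := by
  obtain ⟨r, hr0, hr4, hgood⟩ := good_frame hc 1
  have hFB : FB G.D y 1 r := by
    refine hgood E G y 1 ?_
    have := (hP 0).1
    rw [dg_zero] at this
    rw [this]
    norm_num
  obtain ⟨cB, hBpos, hBI⟩ := exists_BI hc G hne
  obtain ⟨c4, hc4, hlower⟩ := Ct_lower.{u} hV
  refine ⟨min (r / 32) (min (1 / 9) (cB / 9)), by positivity, ?_⟩
  intro h a hh ha hx hS
  have hh1 : nm ((h : M2) - 1) < r / 32 := lt_of_lt_of_le hh (min_le_left _ _)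
  have hh2 : nm ((h : M2) - 1) < 1 / 9 :=
    lt_of_lt_of_le hh ((min_le_right _ _).trans (min_le_left _ _))
  have hh3 : nm ((h : M2) - 1) < cB / 9 :=
    lt_of_lt_of_le hh ((min_le_right _ _).trans (min_le_right _ _))
  have hnn := nm_nonneg ((h : M2) - 1)
  obtain ⟨-, κ, hκ, hκa, hq⟩ := fac_low (h := h) ha hx (by linarith)
  set q : ℂ := ((h : M2) *ᵥ a) 1 / ((h : M2) *ᵥ a) 0 - a 1 / a 0 with hqdef
  obtain ⟨-, -, hS2⟩ := hBI y e2 (lo q) 1 h2 (by rw [lo_e2, one_smul]) (by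
    rw [sub_self, norm_zero]
    exact hBpos)
  obtain ⟨-, -, hS1⟩ := hBI (ac G.D y h) a (h⁻¹ * lo q) κ hS hκa (by linarith)
  have hmul : h * (h⁻¹ * lo q) = lo q := mul_inv_cancel_left _ _
  have hac : ac G.D (ac G.D y h) (h⁻¹ * lo q) = ac G.D y (lo q) := by
    have := (ac_ac (g := h) (g' := h⁻¹ * lo q) G.hD hFB (by rw [one_cj]; linarith) (by
      rw [hmul, one_cj, q13_nm_lo]
      linarith)).2
    rwa [hmul] at this
  rw [hac] at hS1
  have ha0 : a 0 ≠ 0 := by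
    intro h0
    rw [h0, norm_zero] at hx
    linarith
  obtain ⟨s, hs⟩ := q13_exists_s (B := ‖q‖ + ‖a 1 / a 0‖) (by positivity) hc4
  have hes := Real.exp_pos (-s)
  have hs1 : Real.exp (-s) * ‖q‖ < c4 := by
    have := mul_nonneg hes.le (norm_nonneg (a 1 / a 0))
    rw [mul_add] at hs
    linarith
  have hs2 : Real.exp (-s) * ‖a 1 / a 0‖ < c4 := by
    have := mul_nonneg hes.le (norm_nonneg q)
    rw [mul_add] at hs
    linarith
  obtain ⟨⟨c1, hc1, hk1⟩, c2, hc2, hk2⟩ := lo_frame ha0 s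
  have hhalf := Sig_two hc G hne hk1 hk2 hS1 hS2
  have hv := vD_of_half hhalf
  have hl := hlower E G y (dg s) _ (hP s) (lo q) (lo ((Real.exp (-s) : ℂ) * (-(a 1 / a 0))))
    (by rw [nm_lo]; exact hs1) (by rw [q13_nm_lo, q13_norm_exp_mul]; exact hs2)
  rw [← dg_lo, hv, fro_low] at hl
  have hw := q13_sq hes hl
  rw [norm_eq_zero, div_eq_zero_iff] at hw
  exact hw.resolve_right ha0

/-- The upper case: `a` is far from `e₁`; then `h a ∥ e₂`.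

Proof. As in `Bi_low` with `up q`, `q = (h a)₀/(h a)₁ - a₀/a₁` (`fac_up`), `up q` fixes `e₁`
(`up_e1`), `y'' = y.(up q) = (y.h).g2`, `e₁, a ∈ Σ(y'')`, frames `k = dg (-s) * up (-w)`,
`w = a₀/a₁` (`up_frame`), `k = k1 * dg (-s)`, `k1 = up (-e^{-s} w)` (`dg_up`, `nm_up`). By `Ct_lower`
`fro (cj k (pmv E11 (up q))) ≤ 1`, by `fro_up` it is `1 + (e^{-s}|w + q|)²`; so `w + q = 0`, i.e.
`(h a)₀/(h a)₁ = 0`. -/
theorem Bi_up [T2Space E] [ConnectedSpace E] {r0 L c C : ℝ} (hc : Cst r0 L)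
    (hV : VisPkg.{u} r0 L c C) (G : Geo E r0 L) (hne : ∃ y ψ, 0 < eD G.D y ψ) {y : E}
    (h1 : Sig G.D y e1) (h2 : Sig G.D y e2)
    (hP : ∀ s : ℝ, Ct G c C y (dg s) !![1, 0; 0, 0]) :
    ∃ ε > 0, ∀ (h : SL) (a : V), nm ((h : M2) - 1) < ε → nsq a = 1 → 1 / 2 ≤ ‖a 1‖ →
      Sig G.D (ac G.D y h) a → ((h : M2) *ᵥ a) 0 = 0 := by
  obtain ⟨r, hr0, hr4, hgood⟩ := good_frame hc 1
  have hFB : FB G.D y 1 r := by
    refine hgood E G y 1 ?_
    have := (hP 0).1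
    rw [dg_zero] at this
    rw [this]
    norm_num
  obtain ⟨cB, hBpos, hBI⟩ := exists_BI hc G hne
  obtain ⟨c4, hc4, hlower⟩ := Ct_lower.{u} hV
  refine ⟨min (r / 32) (min (1 / 9) (cB / 9)), by positivity, ?_⟩
  intro h a hh ha hx hS
  have hh1 : nm ((h : M2) - 1) < r / 32 := lt_of_lt_of_le hh (min_le_left _ _)
  have hh2 : nm ((h : M2) - 1) < 1 / 9 :=
    lt_of_lt_of_le hh ((min_le_right _ _).trans (min_le_left _ _))
  have hh3 : nm ((h : M2) - 1) < cB / 9 :=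
    lt_of_lt_of_le hh ((min_le_right _ _).trans (min_le_right _ _))
  have hnn := nm_nonneg ((h : M2) - 1)
  obtain ⟨hne1, κ, hκ, hκa, hq⟩ := fac_up (h := h) ha hx (by linarith)
  set q : ℂ := ((h : M2) *ᵥ a) 0 / ((h : M2) *ᵥ a) 1 - a 0 / a 1 with hqdef
  obtain ⟨-, -, hS2⟩ := hBI y e1 (up q) 1 h1 (by rw [up_e1, one_smul]) (by
    rw [sub_self, norm_zero]
    exact hBpos)
  obtain ⟨-, -, hS1⟩ := hBI (ac G.D y h) a (h⁻¹ * up q) κ hS hκa (by linarith)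
  have hmul : h * (h⁻¹ * up q) = up q := mul_inv_cancel_left _ _
  have hac : ac G.D (ac G.D y h) (h⁻¹ * up q) = ac G.D y (up q) := by
    have := (ac_ac (g := h) (g' := h⁻¹ * up q) G.hD hFB (by rw [one_cj]; linarith) (by
      rw [hmul, one_cj, q13_nm_up]
      linarith)).2
    rwa [hmul] at this
  rw [hac] at hS1
  have ha1 : a 1 ≠ 0 := by
    intro h0
    rw [h0, norm_zero] at hx
    linarith
  obtain ⟨s, hs⟩ := q13_exists_s (B := ‖q‖ + ‖a 0 / a 1‖) (by positivity) hc4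
  have hes := Real.exp_pos (-s)
  have hs1 : Real.exp (-s) * ‖q‖ < c4 := by
    have := mul_nonneg hes.le (norm_nonneg (a 0 / a 1))
    rw [mul_add] at hs
    linarith
  have hs2 : Real.exp (-s) * ‖a 0 / a 1‖ < c4 := by
    have := mul_nonneg hes.le (norm_nonneg q)
    rw [mul_add] at hs
    linarith
  obtain ⟨⟨c1, hc1, hk1⟩, c2, hc2, hk2⟩ := up_frame ha1 s
  have hhalf := Sig_two hc G hne hk2 hk1 hS2 hS1
  have hv := vD_of_half hhalf
  have hl := hlower E G y (dg (-s)) _ (hP (-s)) (up q)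
    (up ((Real.exp (-s) : ℂ) * (-(a 0 / a 1))))
    (by rw [nm_up]; exact hs1) (by rw [q13_nm_up, q13_norm_exp_mul]; exact hs2)
  rw [← dg_up, hv, fro_up] at hl
  have hw := q13_sq hes hl
  rw [norm_eq_zero, hqdef, add_sub_cancel, div_eq_zero_iff] at hw
  exact hw.resolve_right hne1

/-- Proof. Normalise `a` (`Sig_smul`), `half_le_coord`, `Bi_low`, `Bi_up`, `Ct_axis`. -/
theorem Bi_local [T2Space E] [ConnectedSpace E] {r0 L c C : ℝ} (hc : Cst r0 L)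
    (hV : VisPkg.{u} r0 L c C) (G : Geo E r0 L) (hne : ∃ y ψ, 0 < eD G.D y ψ) {y : E}
    (h1 : Sig G.D y e1) (h2 : Sig G.D y e2) (h : Ct G c C y 1 !![1, 0; 0, 0]) :
    ∃ ε > 0, ∀ (h : SL) (a : V), nm ((h : M2) - 1) < ε →
      Sig G.D (ac G.D y h) a → a 1 = 0 ∨ ((h : M2) *ᵥ a) 0 = 0 := by
  have hP : ∀ s : ℝ, Ct G c C y (dg s) !![1, 0; 0, 0] := fun s => Ct_axis hc hV G hne h1 h2 h s
  obtain ⟨ε1, hε1, H1⟩ := Bi_low hc hV G hne h1 h2 hP
  obtain ⟨ε2, hε2, H2⟩ := Bi_up hc hV G hne h1 h2 hP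
  refine ⟨min ε1 ε2, lt_min hε1 hε2, ?_⟩
  intro h a hh hS
  obtain ⟨d, hd, hd1⟩ := q13_unit hS.1
  have hS' : Sig G.D (ac G.D y h) (d • a) := (Sig_smul _ _ _ hd).mpr hS
  rcases half_le_coord hd1 with hx | hx
  · left
    have h3 := H1 h (d • a) (lt_of_lt_of_le hh (min_le_left _ _)) hd1 hx hS'
    rw [Pi.smul_apply, smul_eq_mul] at h3
    exact (mul_eq_zero.mp h3).resolve_left hd
  · right
    have h3 := H2 h (d • a) (lt_of_lt_of_le hh (min_le_right _ _)) hd1 hx hS'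
    rw [Matrix.mulVec_smul, Pi.smul_apply, smul_eq_mul] at h3
    exact (mul_eq_zero.mp h3).resolve_left hd

end HRK
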