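import Pool.Agent.HRK.Q12
import Pool.Agent.HRK.Q13

/-!
# HRK-Q14 : case (B i), end; case B
-/

namespace HRK

open Set Filter Topology Matrix

universe u

variable {E : Type u} [TopologicalSpace E]

theorem q14_e1_ne : (e1 : V) ≠ 0 := by
  intro h
  have := congrFun h 0
  simp [e1] at this

theorem q14_e2_ne : (e2 : V) ≠ 0 := by
  intro h
  have := congrFun h 1
  simp [e2] at this

/-- Normalised case (B i).

Proof. `Bi_local` gives `ε`; by `ac_nhds` the set `{y.h : |h - 1| < ε}` is a neighbourhood of `y`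
(with `D(y.h) = D(y) h`, shrink `ε`, `D_ac`); let `N` be an open neighbourhood of `y` contained in
it. For `y' = y.h ∈ N` there is `a ∈ Σ(y')`, so (`Sig_smul`) `e₁ ∈ Σ(y')` or, with `b = D(y) e₂`,
`D(y')⁻¹ b = h⁻¹ e₂ ∥ a` is in `Σ(y')`. The set `A = {y' ∈ N | e₁ ∈ Σ(y')}` is closed in `N`
(`Sig_closed`). If `A = N` take `O = N`, first alternative; otherwise `O = N \ A` is open, nonempty and
the second alternative holds on `O`. -/
theorem caseBi_norm [T2Space E] [ConnectedSpace E] {r0 L c C : ℝ} (hc : Cst r0 L)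
    (hV : VisPkg.{u} r0 L c C) (G : Geo E r0 L) (hne : ∃ y ψ, 0 < eD G.D y ψ)
    (hall : ∀ y, ∃ a, Sig G.D y a) {y : E}
    (h1 : Sig G.D y e1) (h2 : Sig G.D y e2) (h : Ct G c C y 1 !![1, 0; 0, 0]) : LF G.D := by
  obtain ⟨ε, hε, hloc⟩ := Bi_local hc hV G hne h1 h2 h
  have hDc : Continuous G.D := continuous_D G.hD
  have hnear := ac_eq_near G.hD y
  have hsmall : ∀ᶠ y' in 𝓝 y, nm ((((G.D y)⁻¹ * G.D y' : SL) : M2) - 1) < ε := by
    have hcont : Continuous (fun y' : E => nm ((((G.D y)⁻¹ * G.D y' : SL) : M2) - 1)) :=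
      continuous_nm.comp
        ((isEmbedding_coe.continuous.comp (continuous_const.mul hDc)).sub continuous_const)
    refine hcont.continuousAt.eventually_lt continuousAt_const ?_
    show nm ((((G.D y)⁻¹ * G.D y : SL) : M2) - 1) < ε
    rw [inv_mul_cancel]
    have h0 : (((1 : SL) : M2) - 1) = 0 := by simp
    rw [h0, nm_zero]
    exact hε
  obtain ⟨N, hNsub, hNo, hyN⟩ := eventually_nhds_iff.mp (hnear.and hsmall)
  have halt : ∀ y' ∈ N, Sig G.D y' e1 ∨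
      Sig G.D y' ((((G.D y')⁻¹ : SL) : M2) *ᵥ ((G.D y : M2) *ᵥ e2)) := by
    intro y' hy'
    obtain ⟨⟨_, hac⟩, hnm⟩ := hNsub y' hy'
    obtain ⟨a, ha⟩ := hall y'
    have ha' : Sig G.D (ac G.D y ((G.D y)⁻¹ * G.D y')) a := by
      rw [hac]
      exact ha
    rcases hloc _ a hnm ha' with h0 | h0
    · left
      refine ha.of_om q14_e1_ne ?_
      simp [om, e1, h0]
    · right
      refine ha.of_om (mulVec_ne_zero _ (mulVec_ne_zero _ q14_e2_ne)) ?_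
      have e : (((G.D y')⁻¹ : SL) : M2) *ᵥ ((G.D y : M2) *ᵥ e2) =
          ((((G.D y)⁻¹ * G.D y')⁻¹ : SL) : M2) *ᵥ e2 := by
        rw [Matrix.mulVec_mulVec, ← Matrix.SpecialLinearGroup.coe_mul, _root_.mul_inv_rev, inv_inv]
      rw [e, ← om_mulVec ((G.D y)⁻¹ * G.D y'), mulVec_inv_mulVec]
      simp only [om, e2, h0]
      simp
  by_cases hA : N ⊆ {y' | Sig G.D y' e1}
  · left
    exact ⟨e1, q14_e1_ne, N, hNo, ⟨y, hyN⟩, fun y' hy' => hA hy'⟩
  · right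
    obtain ⟨y1, hy1, hy1n⟩ := not_subset.mp hA
    refine ⟨(G.D y : M2) *ᵥ e2, mulVec_ne_zero _ q14_e2_ne, N ∩ {y' | Sig G.D y' e1}ᶜ,
      hNo.inter (isClosed_Sig hc G hne q14_e1_ne).isOpen_compl, ⟨y1, hy1, hy1n⟩, ?_⟩
    rintro y' ⟨hy', hn⟩
    exact (halt y' hy').resolve_left hn

/-- **Case (B i).**

Proof. Let `k₀` be a frame with `k₀ a ∥ e₁`, `k₀ a' ∥ e₂` (for instance `k₀⁻¹` has the columns `a` and
`a'/om a a'`). `Sig_two`: `m(y,k₀) = 1/2`; `Sig_two_plane`: there is `P` with `Ct y k₀ P` and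
`cj k₀ P = E11` or `E22`. In the second case replace `k₀` by `wy * k₀` (`wy` unitary,
`cj wy E22 = E11`, and `wy k₀ a' ∥ e₁`, `wy k₀ a ∥ e₂`). So `Ct y k P`, `cj k P = E11`, and
`k⁻¹ e₁, k⁻¹ e₂ ∈ Σ(y)`. Apply `caseBi_norm` to `G.conj k` (`Ct_conj`, `Sig_conj`, `eD_conj`) and
`LF_conj`. -/
theorem caseBi [T2Space E] [ConnectedSpace E] {r0 L c C : ℝ} (hc : Cst r0 L)
    (hV : VisPkg.{u} r0 L c C) (G : Geo E r0 L) (hne : ∃ y ψ, 0 < eD G.D y ψ)
    (hall : ∀ y, ∃ a, Sig G.D y a) {y : E} {a a' : V} (h1 : Sig G.D y a) (h2 : Sig G.D y a')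
    (h : om a a' ≠ 0) : LF G.D := by
  obtain ⟨k, P, hCt, hP, hs1, hs2⟩ := exists_two_frame hc hV G hne h h1 h2
  have hCt' : Ct (G.conj k) c C y 1 !![1, 0; 0, 0] := by
    rw [← hP]
    exact Ct_conj G hCt
  have hall' : ∀ y, ∃ a, Sig (G.conj k).D y a := by
    intro y
    obtain ⟨b, hb⟩ := hall y
    exact ⟨(k : M2) *ᵥ b, (Sig_conj k y b).mpr hb⟩
  have hLF : LF (G.conj k).D := caseBi_norm hc hV (G.conj k) (hne_conj G k hne) hall'
    ((Sig_conj' k y e1).mpr hs1) ((Sig_conj' k y e2).mpr hs2) hCt'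
  exact (LF_conj k).mp hLF

/-- **Case B.** If `Σ(y) ≠ ∅` for all `y` then `E` is free.

Proof. If some `Σ(y)` contains two independent directions, `caseBi`, otherwise `caseBii`. On the open
set `O`: `Sig y a` gives `eD y a ≤ C ‖om a a‖ vn a = 0`, so `eD y a = 0`; conclude by
`eD_zero_of_open`, `eD_zero_of_open_b`. -/
theorem caseB [T2Space E] [ConnectedSpace E] {r0 L : ℝ} (hc : Cst r0 L)
    (G : Geo E r0 L) (hne : ∃ y ψ, 0 < eD G.D y ψ) (hall : ∀ y, ∃ a, Sig G.D y a) :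
    (∃ a : V, a ≠ 0 ∧ ∀ y, eD G.D y a = 0) ∨
    (∃ b : V, b ≠ 0 ∧ ∀ y, eD G.D y ((((G.D y)⁻¹ : SL) : M2) *ᵥ b) = 0) := by
  obtain ⟨c, C, hV⟩ := vis_package.{u} hc
  have hLF : LF G.D := by
    by_cases hex : ∃ y a a', Sig G.D y a ∧ Sig G.D y a' ∧ om a a' ≠ 0
    · obtain ⟨y, a, a', h1, h2, h⟩ := hex
      exact caseBi hc hV G hne hall h1 h2 h
    · refine caseBii hc G hne ⟨hall, ?_⟩
      intro y a a' h1 h2
      by_contra h
      exact hex ⟨y, a, a', h1, h2, h⟩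
  rcases hLF with ⟨a, ha, O, hO, hOn, h⟩ | ⟨b, hb, O, hO, hOn, h⟩
  · left
    exact ⟨a, ha, eD_zero_of_open hc G hO hOn (fun y hy => (h y hy).eD_zero)⟩
  · right
    exact ⟨b, hb, eD_zero_of_open_b hc G hO hOn (fun y hy => (h y hy).eD_zero)⟩

end HRK
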