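import Pool.Agent.HRK.Q6

/-!
# HRK-Q15 : case A, directions of `Σ` at the boundary of `Ω₀` along the plane flow
-/

namespace HRK

open Set Filter Topology Matrix

universe u

variable {E : Type u} [TopologicalSpace E]

theorem q15_mul (A B : M2) (i j : Fin 2) : (A * B) i j = A i 0 * B 0 j + A i 1 * B 1 j := by
  rw [Matrix.mul_apply, Fin.sum_univ_two]

theorem q15_dg_entries (Q : M2) (s : ℝ) :
    (cj (dg (-s)) Q) 0 1 = (Real.exp (-(s / 2)) : ℂ) * Q 0 1 * (Real.exp (-(s / 2)) : ℂ) ∧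
      (cj (dg (-s)) Q) 1 0 = (Real.exp (s / 2) : ℂ) * Q 1 0 * (Real.exp (s / 2) : ℂ) := by
  have hdg : ((dg (-s) : SL) : M2) = !![(Real.exp (-(s / 2)) : ℂ), 0; 0,
      (Real.exp (s / 2) : ℂ)] := by
    show !![(Real.exp (-s / 2) : ℂ), 0; 0, (Real.exp (-(-s / 2)) : ℂ)] = _
    rw [neg_div, neg_neg]
  have hdgi : (((dg (-s))⁻¹ : SL) : M2) = !![(Real.exp (s / 2) : ℂ), 0; 0,
      (Real.exp (-(s / 2)) : ℂ)] := by
    rw [dg_inv, neg_neg]
    rfl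
  constructor
  · rw [cj, hdg, hdgi, q15_mul, q15_mul, q15_mul]
    simp
  · rw [cj, hdg, hdgi, q15_mul, q15_mul, q15_mul]
    simp

theorem q15_norm (Q : M2) (s : ℝ) (h : (cj (dg (-s)) Q).IsHermitian) :
    ‖Q 1 0‖ = Real.exp (-(2 * s)) * ‖Q 0 1‖ := by
  obtain ⟨e01, e10⟩ := q15_dg_entries Q s
  have g2 : star ((cj (dg (-s)) Q) 0 1) = (cj (dg (-s)) Q) 1 0 := by
    have := congrFun (congrFun h 1) 0
    rwa [Matrix.conjTranspose_apply] at this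
  have h1 : ‖(cj (dg (-s)) Q) 0 1‖ = ‖(cj (dg (-s)) Q) 1 0‖ := by
    rw [← g2, norm_star]
  rw [e01, e10, norm_mul, norm_mul, norm_mul, norm_mul, Complex.norm_real, Complex.norm_real,
    Real.norm_eq_abs, Real.norm_eq_abs, abs_of_pos (Real.exp_pos _),
    abs_of_pos (Real.exp_pos _)] at h1
  have h2 : Real.exp (s / 2) * Real.exp (-(s / 2)) = 1 := by
    rw [← Real.exp_add]
    simp
  have h3 : Real.exp (-(2 * s)) = Real.exp (-(s / 2)) ^ 4 := by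
    rw [← Real.exp_nat_mul]
    congr 1
    push_cast
    ring
  rw [h3]
  generalize Real.exp (s / 2) = l at *
  generalize Real.exp (-(s / 2)) = l' at *
  have h4 : ‖Q 1 0‖ = (l * l') ^ 2 * ‖Q 1 0‖ := by rw [h2]; ring
  rw [h4]
  linear_combination (-(l' ^ 2)) * h1

/-- A limit of frames in which `P` is Hermitian.

Proof. Let `Q n = cj (u_ n) P → Q = cj u P` (`continuous_cj'`). By hypothesis
`cj (dg (-(s_ n))) (Q n) = [[p, e^{-s} q],[e^{s} r, 1-p]]` is Hermitian, so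
`‖(Q n) 1 0‖ = e^{-2 s_n} ‖(Q n) 0 1‖ → 0`; so `Q 1 0 = 0`, `Q = [[p, q],[0, 1-p]]`, `det Q = 0` gives
`p = 0` or `p = 1`, `Q e₁ = p e₁`, and `P (u⁻¹ e₁) = u⁻¹ Q e₁`. -/
theorem axis_limit {P : M2} (hP : IsPl P) {u_ : ℕ → SL} {u : SL}
    (hu : Tendsto u_ atTop (𝓝 u)) {s_ : ℕ → ℝ} (hs : Tendsto s_ atTop atTop)
    (hH : ∀ n, (cj (dg (-(s_ n)) * u_ n) P).IsHermitian) :
    P *ᵥ (((u⁻¹ : SL) : M2) *ᵥ e1) = ((u⁻¹ : SL) : M2) *ᵥ e1 ∨
      P *ᵥ (((u⁻¹ : SL) : M2) *ᵥ e1) = 0 := by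
  have hQ := hP.conj u
  have hlim : Tendsto (fun n => cj (u_ n) P) atTop (𝓝 (cj u P)) := by
    have h1 : Tendsto (fun n => ((u_ n, P) : SL × M2)) atTop (𝓝 (u, P)) :=
      hu.prodMk_nhds tendsto_const_nhds
    have h2 := continuous_cj'.tendsto (u, P)
    have h3 := h2.comp h1
    simp only [Function.comp_def] at h3
    exact h3
  have hij : ∀ i j : Fin 2, Tendsto (fun n => ‖(cj (u_ n) P) i j‖) atTop
      (𝓝 ‖(cj u P) i j‖) := by
    intro i j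
    have h0 : Continuous fun X : M2 => X i j := continuous_id.matrix_elem i j
    have h1 : Continuous fun X : M2 => ‖X i j‖ := h0.norm
    exact (h1.tendsto (cj u P)).comp hlim
  have hexp : Tendsto (fun n => Real.exp (-(2 * s_ n))) atTop (𝓝 0) := by
    have h1 : Tendsto (fun n => 2 * s_ n) atTop atTop := hs.const_mul_atTop (by norm_num)
    exact Real.tendsto_exp_neg_atTop_nhds_zero.comp h1
  have h10 : (cj u P) 1 0 = 0 := by
    have h1 : Tendsto (fun n => Real.exp (-(2 * s_ n)) * ‖(cj (u_ n) P) 0 1‖) atTop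
        (𝓝 (0 * ‖(cj u P) 0 1‖)) := hexp.mul (hij 0 1)
    have h2 : (fun n => Real.exp (-(2 * s_ n)) * ‖(cj (u_ n) P) 0 1‖) =
        fun n => ‖(cj (u_ n) P) 1 0‖ := by
      funext n
      have h3 := hH n
      rw [← cj_cj] at h3
      exact (q15_norm _ _ h3).symm
    rw [h2, zero_mul] at h1
    exact norm_eq_zero.mp (tendsto_nhds_unique (hij 1 0) h1)
  have htr := hQ.1
  rw [Matrix.trace_fin_two] at htr
  have hdet := hQ.2
  rw [Matrix.det_fin_two] at hdet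
  rw [h10, mul_zero, sub_zero] at hdet
  have hQe : (cj u P) *ᵥ e1 = (cj u P) 0 0 • e1 := by
    ext i
    fin_cases i
    · simp [Matrix.mulVec, dotProduct, Fin.sum_univ_two, e1]
    · simp [Matrix.mulVec, dotProduct, Fin.sum_univ_two, e1, h10]
  have hP1 : P *ᵥ (((u⁻¹ : SL) : M2) *ᵥ e1) = (cj u P) 0 0 • (((u⁻¹ : SL) : M2) *ᵥ e1) := by
    have h1 : ((u⁻¹ : SL) : M2) *ᵥ ((cj u P) *ᵥ e1) = P *ᵥ (((u⁻¹ : SL) : M2) *ᵥ e1) := by
      rw [cj, Matrix.mulVec_mulVec, Matrix.mulVec_mulVec, ← mul_assoc, ← mul_assoc, coe_inv_mul,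
        one_mul]
    rw [← h1, hQe, Matrix.mulVec_smul]
  rcases mul_eq_zero.mp hdet with h | h
  · right
    rw [hP1, h, zero_smul]
  · left
    have h4 : (cj u P) 0 0 = 1 := by
      rw [h, add_zero] at htr
      exact htr
    rw [hP1, h4, one_smul]

/-- Directions at the boundary. If `Σ(y) ≠ ∅`, `P` is a plane and the points
`y_n = y.exp(σ_n (P - 1/2))`, `σ_n → 0`, are in `Ω₀` with central plane `P`, then the range or the kernel
of `P` is in `Σ(y)`.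

Proof. `g n = xp (σ_ n) P → 1` (`continuousOn_xp`, `xp_zero`), `y_n → y` (`tendsto_ac_one`). Apply
`half_limit` to `y_n`, `k_ n` (`(hk n).1`).
First alternative: `w n * k_ (φ n) → k`, `m(y,k) = 1/2`. `Ct_exists`: a contact plane `P'` at `(y,k)`.
`Ct_lim` (for `g_ := g ∘ φ`, `k_ ∘ φ`, `w`) gives for large `n` that `P'^g` is a contact plane at
`(y_{φ n}, k_ (φ n))`, so `pmv P' (g (φ n)) = P` by `Ct_unique` at the point `y_{φ n} ∈ Ω₀`. The trace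
`(P' * g).trace` tends to `1`, so it is not zero for large `n`, and `P' = P` by `eq_of_pmv_xp`. So
`Ct y k P`, and `Ct_Sig` for the given direction `a ∈ Σ(y)`.
Second alternative: `w n * k_ (φ n) = dg (-(s_ n)) * u_ n`, `u⁻¹ e₁ ∈ Σ(y)`; `P` is Hermitian in the
frame `k_ (φ n)` (`Ct.herm`), and in `w n * k_ (φ n)` (`Ct.unitary`, `Ct.herm`): `axis_limit`. -/
theorem boundary_dir [T2Space E] [ConnectedSpace E] {r0 L c C : ℝ} (hc : Cst r0 L)
    (hV : VisPkg.{u} r0 L c C) (G : Geo E r0 L) (hne : ∃ y ψ, 0 < eD G.D y ψ) {y : E}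
    (hy : ∃ a, Sig G.D y a) {P : M2} (hP : IsPl P) {σ_ : ℕ → ℝ} (hσ : Tendsto σ_ atTop (𝓝 0))
    {k_ : ℕ → SL} (hn : ∀ n, ac G.D y (xp (σ_ n) P) ∈ Om0 G.D)
    (hk : ∀ n, Ct G c C (ac G.D y (xp (σ_ n) P)) (k_ n) P) :
    ∃ a, Sig G.D y a ∧ (P *ᵥ a = a ∨ P *ᵥ a = 0) := by
  have hg : Tendsto (fun n => xp (σ_ n) P) atTop (𝓝 1) := by
    have h1 : Tendsto (fun n => ((σ_ n, P) : ℝ × M2)) atTop
        (𝓝[{p : ℝ × M2 | IsPl p.2}] (0, P)) := by
      rw [tendsto_nhdsWithin_iff]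
      exact ⟨hσ.prodMk_nhds tendsto_const_nhds, Eventually.of_forall fun _ => hP⟩
    have h2 := (continuousOn_xp (0, P) hP).tendsto.comp h1
    have h3 : xp 0 P = 1 := xp_zero hP
    rw [← h3]
    exact h2
  have hyn : Tendsto (fun n => ac G.D y (xp (σ_ n) P)) atTop (𝓝 y) :=
    (tendsto_ac_one G.hD y).comp hg
  rcases half_limit hc G hne hyn (fun n => (hk n).1) with
    ⟨φ, w, k, hφ, hw, hlim, hhalf⟩ | ⟨φ, w, u_, u, s_, hφ, hw, _, _, hulim, hs, heq, hSig⟩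
  · obtain ⟨P', hP'⟩ := Ct_exists hV G hhalf
    have hg' : Tendsto (fun n => xp (σ_ (φ n)) P) atTop (𝓝 1) := hg.comp hφ.tendsto_atTop
    have h1 := Ct_lim hc hV G hne hP' hg' hw hlim (fun n => (hk (φ n)).1)
    have h2 : Tendsto (fun n => (P' * ((xp (σ_ (φ n)) P : SL) : M2)).trace) atTop
        (𝓝 (P' * ((1 : SL) : M2)).trace) := by
      have h3 : Continuous fun g : SL => (P' * (g : M2)).trace :=
        (continuous_const.matrix_mul isEmbedding_coe.continuous).matrix_trace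
      exact (h3.tendsto 1).comp hg'
    have h4 : (P' * ((1 : SL) : M2)).trace ≠ 0 := by
      rw [Matrix.SpecialLinearGroup.coe_one, mul_one, hP'.isPl.1]
      exact one_ne_zero
    obtain ⟨n, hn1, hn2⟩ := (h1.and (h2.eventually_ne h4)).exists
    have h5 : pmv P' (xp (σ_ (φ n)) P) = P :=
      Ct_unique hc hV G hne (hn (φ n)) hn1 (hk (φ n))
    have h6 : P' = P := eq_of_pmv_xp hP hP'.isPl hn2 h5
    rw [h6] at hP'
    obtain ⟨a, ha⟩ := hy
    exact ⟨a, ha, Ct_Sig hc hV G hne hP' ha⟩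
  · refine ⟨_, hSig, axis_limit hP hulim hs ?_⟩
    intro n
    rw [← heq n]
    exact ((hk (φ n)).unitary hc (hw n)).herm

/-- No exit. In the situation of `boundary_dir` we get a contradiction.

Proof. Let `a ∈ Σ(y)`, `P a = a` or `P a = 0` (`boundary_dir`). By `xp_range`, `xp_kernel`
`(xp σ P) a = e^{±σ/2} a`, and `‖e^{±σ_n/2} - 1‖ < cB` for large `n` (`exists_BI`). So
`a ∈ Σ(y.xp (σ_ n) P)`, which contradicts `y.xp (σ_ n) P ∈ Ω₀`. -/
theorem no_exit [T2Space E] [ConnectedSpace E] {r0 L c C : ℝ} (hc : Cst r0 L)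
    (hV : VisPkg.{u} r0 L c C) (G : Geo E r0 L) (hne : ∃ y ψ, 0 < eD G.D y ψ) {y : E}
    {P : M2} (hP : IsPl P) {σ_ : ℕ → ℝ} (hσ : Tendsto σ_ atTop (𝓝 0))
    {k_ : ℕ → SL} (hn : ∀ n, ac G.D y (xp (σ_ n) P) ∈ Om0 G.D)
    (hk : ∀ n, Ct G c C (ac G.D y (xp (σ_ n) P)) (k_ n) P) : y ∈ Om0 G.D := by
  by_contra hy
  have hy' : ∃ a, Sig G.D y a := by
    by_contra h
    exact hy (fun a ha => h ⟨a, ha⟩)
  obtain ⟨a, ha, hPa⟩ := boundary_dir hc hV G hne hy' hP hσ hn hk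
  obtain ⟨cB, hcB, hBI⟩ := exists_BI hc G hne
  have hcont : ∀ ε : ℝ, Tendsto (fun n => ‖((Real.exp (ε * (σ_ n / 2)) : ℝ) : ℂ) - 1‖) atTop
      (𝓝 0) := by
    intro ε
    have h1 : Continuous fun t : ℝ => ‖((Real.exp (ε * (t / 2)) : ℝ) : ℂ) - 1‖ := by
      fun_prop
    have h2 : Tendsto (fun n => ‖((Real.exp (ε * (σ_ n / 2)) : ℝ) : ℂ) - 1‖) atTop
        (𝓝 ‖((Real.exp (ε * ((0 : ℝ) / 2)) : ℝ) : ℂ) - 1‖) := (h1.tendsto 0).comp hσ
    have h3 : ‖((Real.exp (ε * ((0 : ℝ) / 2)) : ℝ) : ℂ) - 1‖ = 0 := by simp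
    rw [h3] at h2
    exact h2
  rcases hPa with hPa | hPa
  · obtain ⟨n, hn1⟩ := ((hcont 1).eventually_lt_const hcB).exists
    rw [one_mul] at hn1
    exact hn n a (hBI y a (xp (σ_ n) P) _ ha (xp_range hP (σ_ n) hPa) hn1).2.2
  · obtain ⟨n, hn1⟩ := ((hcont (-1)).eventually_lt_const hcB).exists
    rw [neg_one_mul] at hn1
    exact hn n a (hBI y a (xp (σ_ n) P) _ ha (xp_kernel hP (σ_ n) hPa) hn1).2.2

end HRK
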