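import Pool.Agent.HRK.Q15

/-!
# HRK-Q16 : case A, the plane flow stays in `Ω₀`
-/

namespace HRK

open Set Filter Topology Matrix

universe u

variable {E : Type u} [TopologicalSpace E]

theorem q16_continuous_xp {P : M2} (hP : IsPl P) : Continuous fun τ : ℝ => xp τ P := by
  have h1 : ContinuousOn (fun τ : ℝ => xp τ P) univ := by
    refine continuousOn_xp.comp (f := fun τ : ℝ => ((τ, P) : ℝ × M2))
      (Continuous.continuousOn (by fun_prop)) ?_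
    intro τ _
    exact hP
  exact continuousOn_univ.mp h1

theorem q16_tendsto_xp {P : M2} (hP : IsPl P) {ι : Type*} {F : Filter ι} {σ : ι → ℝ}
    (hσ : Tendsto σ F (𝓝 0)) : Tendsto (fun i => xp (σ i) P) F (𝓝 1) := by
  have h1 := ((q16_continuous_xp hP).tendsto 0).comp hσ
  rw [xp_zero hP] at h1
  exact h1

theorem q16_continuous_coe : Continuous fun g : SL => (g : M2) := isEmbedding_coe.continuous

theorem q16_nm_near {δ : ℝ} (hδ : 0 < δ) : ∀ᶠ g : SL in 𝓝 1, nm ((g : M2) - 1) < δ := by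
  have h1 : Continuous fun g : SL => nm ((g : M2) - 1) :=
    continuous_nm.comp (q16_continuous_coe.sub continuous_const)
  have h2 := h1.tendsto 1
  have h3 : nm (((1 : SL) : M2) - 1) = 0 := by
    rw [Matrix.SpecialLinearGroup.coe_one, sub_self, nm_zero]
  rw [h3] at h2
  exact h2.eventually (gt_mem_nhds hδ)

/-- Openness in time.

Proof. `y_τ = ac y (xp τ P)`. For `τ` near `τ₀` (`|τ| < r/8`): `y_τ = ac y_{τ₀} (xp (τ - τ₀) P)`
(`flow_add`), and `xp (τ - τ₀) P → 1`. `Om0` is open (`isOpen_Om0`) and `y_τ → y_{τ₀}`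
(`tendsto_ac_one`). `central_local` at `y_{τ₀}` and `pmv_xp`: `pmv P (xp σ P) = P`. -/
theorem flow_open [T2Space E] [ConnectedSpace E] {r0 L c C : ℝ} (hc : Cst r0 L)
    (hV : VisPkg.{u} r0 L c C) (G : Geo E r0 L) (hne : ∃ y ψ, 0 < eD G.D y ψ) {y : E} {k : SL}
    {P : M2} (hP : IsPl P) (hH : (cj k P).IsHermitian) {r : ℝ} (hr : 0 < r) (hr' : r ≤ 1 / 2)
    (hF : FB G.D y k r) {τ₀ : ℝ} (hτ : |τ₀| < r / 8)
    (h : ac G.D y (xp τ₀ P) ∈ Om0 G.D ∧ ∃ k', Ct G c C (ac G.D y (xp τ₀ P)) k' P) :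
    ∀ᶠ τ in 𝓝 τ₀, ac G.D y (xp τ P) ∈ Om0 G.D ∧ ∃ k', Ct G c C (ac G.D y (xp τ P)) k' P := by
  have h1 : ∀ᶠ τ in 𝓝 τ₀, |τ| < r / 8 :=
    (continuous_abs.tendsto τ₀).eventually (gt_mem_nhds hτ)
  have hσ : Tendsto (fun τ : ℝ => τ - τ₀) (𝓝 τ₀) (𝓝 0) := by
    have := (continuous_sub_right τ₀).tendsto τ₀
    rwa [sub_self] at this
  have hx : Tendsto (fun τ : ℝ => xp (τ - τ₀) P) (𝓝 τ₀) (𝓝 1) := q16_tendsto_xp hP hσ
  have h2 : ∀ᶠ τ in 𝓝 τ₀, ac G.D (ac G.D y (xp τ₀ P)) (xp (τ - τ₀) P) ∈ Om0 G.D :=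
    ((tendsto_ac_one G.hD (ac G.D y (xp τ₀ P))).comp hx).eventually
      ((isOpen_Om0 hc G hne).mem_nhds h.1)
  obtain ⟨δ, hδ, h3⟩ := central_local hc hV G hne h.1 h.2
  have h4 : ∀ᶠ τ in 𝓝 τ₀, nm (((xp (τ - τ₀) P : SL) : M2) - 1) < δ :=
    hx.eventually (q16_nm_near hδ)
  filter_upwards [h1, h2, h4] with τ a1 a2 a4
  have h5 := (flow_add G.hD hr hr' hF hP hH (τ := τ₀) (σ := τ - τ₀) hτ
    (by rw [add_sub_cancel]; exact a1)).2
  rw [add_sub_cancel] at h5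
  rw [← h5]
  refine ⟨a2, ?_⟩
  have h6 := h3 _ a4
  rw [(pmv_xp hP _).2] at h6
  exact h6

/-- Closedness in time.

Proof. Let `y* = y_{τ₀}`, `σ_n = τ_n - τ₀ → 0`; for large `n` `|τ_n| < r/8` and
`y_{τ_n} = ac y* (xp σ_n P)` (`flow_add`); shift the sequence so that this holds for all `n`. `no_exit`:
`y* ∈ Ω₀`. `exists_central`: a contact plane `P*` at `y*`. `central_local` at `y*`: for large `n` there
is `k` with `Ct (y_{τ_n}) k (pmv P* (xp σ_n P))`, so `pmv P* (xp σ_n P) = P` by `Ct_unique`. The trace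
`(P* * xp σ_n P).trace` tends to `(P*).trace = 1`, so it is not `0`, and `P* = P`
(`eq_of_pmv_xp`). -/
theorem flow_closed [T2Space E] [ConnectedSpace E] {r0 L c C : ℝ} (hc : Cst r0 L)
    (hV : VisPkg.{u} r0 L c C) (G : Geo E r0 L) (hne : ∃ y ψ, 0 < eD G.D y ψ) {y : E} {k : SL}
    {P : M2} (hP : IsPl P) (hH : (cj k P).IsHermitian) {r : ℝ} (hr : 0 < r) (hr' : r ≤ 1 / 2)
    (hF : FB G.D y k r) {τ₀ : ℝ} (hτ : |τ₀| < r / 8) {τ_ : ℕ → ℝ}
    (hτ_ : Tendsto τ_ atTop (𝓝 τ₀))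
    (h : ∀ n, ac G.D y (xp (τ_ n) P) ∈ Om0 G.D ∧ ∃ k', Ct G c C (ac G.D y (xp (τ_ n) P)) k' P) :
    ac G.D y (xp τ₀ P) ∈ Om0 G.D ∧ ∃ k', Ct G c C (ac G.D y (xp τ₀ P)) k' P := by
  have h1 : ∀ᶠ n in atTop, |τ_ n| < r / 8 :=
    ((continuous_abs.tendsto τ₀).comp hτ_).eventually (gt_mem_nhds hτ)
  obtain ⟨N, hN⟩ := eventually_atTop.mp h1
  have hσ : Tendsto (fun n : ℕ => τ_ (n + N) - τ₀) atTop (𝓝 0) := by
    have h2 := (tendsto_add_atTop_iff_nat N).mpr hτ_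
    have h3 := h2.sub_const τ₀
    rwa [sub_self] at h3
  have hpt : ∀ n : ℕ, ac G.D (ac G.D y (xp τ₀ P)) (xp (τ_ (n + N) - τ₀) P) =
      ac G.D y (xp (τ_ (n + N)) P) := by
    intro n
    have h5 := (flow_add G.hD hr hr' hF hP hH (τ := τ₀) (σ := τ_ (n + N) - τ₀) hτ
      (by rw [add_sub_cancel]; exact hN _ (Nat.le_add_left N n))).2
    rw [add_sub_cancel] at h5
    exact h5
  choose k_ hk_ using fun n => (h (n + N)).2
  have hy : ac G.D y (xp τ₀ P) ∈ Om0 G.D := by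
    refine no_exit hc hV G hne hP hσ (k_ := k_) (fun n => ?_) (fun n => ?_)
    · rw [hpt n]; exact (h (n + N)).1
    · rw [hpt n]; exact hk_ n
  refine ⟨hy, ?_⟩
  obtain ⟨Ps, ⟨ks, hks⟩, -⟩ := exists_central hc hV G hne hy
  have hPs : IsPl Ps := hks.2.1
  obtain ⟨δ, hδ, h3⟩ := central_local hc hV G hne hy ⟨ks, hks⟩
  have hx : Tendsto (fun n : ℕ => xp (τ_ (n + N) - τ₀) P) atTop (𝓝 1) := q16_tendsto_xp hP hσ
  have h4 : ∀ᶠ n : ℕ in atTop, nm (((xp (τ_ (n + N) - τ₀) P : SL) : M2) - 1) < δ :=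
    hx.eventually (q16_nm_near hδ)
  have h5 : ∀ᶠ n : ℕ in atTop, (Ps * ((xp (τ_ (n + N) - τ₀) P : SL) : M2)).trace ≠ 0 := by
    have h6 : Continuous fun g : SL => (Ps * (g : M2)).trace :=
      (continuous_const.mul q16_continuous_coe).matrix_trace
    have h7 := (h6.tendsto 1).comp hx
    have h8 : (Ps * ((1 : SL) : M2)).trace = 1 := by
      rw [Matrix.SpecialLinearGroup.coe_one, mul_one]
      exact hPs.1
    rw [h8] at h7
    exact h7.eventually_ne one_ne_zero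
  obtain ⟨n, a4, a5⟩ := (h4.and h5).exists
  obtain ⟨k1, hk1⟩ := h3 _ a4
  rw [hpt n] at hk1
  have h9 : pmv Ps (xp (τ_ (n + N) - τ₀) P) = P :=
    Ct_unique hc hV G hne (h (n + N)).1 hk1 (hk_ n)
  have h10 : Ps = P := eq_of_pmv_xp hP hPs a5 h9
  rw [← h10]
  rw [h10] at hks ⊢
  exact ⟨ks, hks⟩

/-- The flow stays in `Ω₀`, with the same central plane.

Proof. The set `T` of the good times in the interval `I = (-r/8, r/8)` contains `0` (`xp_zero`,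
`ac_one`), is open (`flow_open`) and closed in `I` (`flow_closed`); `I` is preconnected
(`isPreconnected_Ioo`; e.g. `IsPreconnected.subset_of_closure_inter_subset`). -/
theorem flow_stays [T2Space E] [ConnectedSpace E] {r0 L c C : ℝ} (hc : Cst r0 L)
    (hV : VisPkg.{u} r0 L c C) (G : Geo E r0 L) (hne : ∃ y ψ, 0 < eD G.D y ψ) {y : E} {k : SL}
    {P : M2} (hy : y ∈ Om0 G.D) (h : Ct G c C y k P) {r : ℝ} (hr : 0 < r) (hr' : r ≤ 1 / 2)
    (hF : FB G.D y k r) {τ : ℝ} (hτ : |τ| < r / 8) :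
    ac G.D y (xp τ P) ∈ Om0 G.D ∧ ∃ k', Ct G c C (ac G.D y (xp τ P)) k' P := by
  have hP : IsPl P := h.2.1
  have hH : (cj k P).IsHermitian := h.2.2.1
  let T : Set ℝ := {t | |t| < r / 8 ∧
    (ac G.D y (xp t P) ∈ Om0 G.D ∧ ∃ k', Ct G c C (ac G.D y (xp t P)) k' P)}
  have hTo : IsOpen T := by
    rw [isOpen_iff_mem_nhds]
    intro t ht
    have h1 : ∀ᶠ s in 𝓝 t, |s| < r / 8 :=
      (continuous_abs.tendsto t).eventually (gt_mem_nhds ht.1)
    filter_upwards [h1, flow_open hc hV G hne hP hH hr hr' hF ht.1 ht.2] with s a1 a2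
    exact ⟨a1, a2⟩
  have hTc : closure T ∩ Ioo (-(r / 8)) (r / 8) ⊆ T := by
    rintro t ⟨ht, ht2⟩
    obtain ⟨τ_, h1, h2⟩ := mem_closure_iff_seq_limit.mp ht
    have h3 : |t| < r / 8 := abs_lt.mpr ht2
    exact ⟨h3, flow_closed hc hV G hne hP hH hr hr' hF h3 h2 fun n => (h1 n).2⟩
  have h0 : (0 : ℝ) ∈ T := by
    refine ⟨by rw [abs_zero]; positivity, ?_⟩
    rw [xp_zero hP, ac_one G.hD]
    exact ⟨hy, k, h⟩
  have hI : Ioo (-(r / 8)) (r / 8) ⊆ T :=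
    isPreconnected_Ioo.subset_of_closure_inter_subset hTo
      ⟨0, ⟨by constructor <;> linarith, h0⟩⟩ hTc
  exact (hI (abs_lt.mp hτ)).2

end HRK
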