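import Pool.Agent.HRK.Q16

/-!
# HRK-Q17 : case A, the central plane as a function and the flow `Φ_τ` on `Ω₀`
-/

namespace HRK

open Set Filter Topology Matrix

universe u

variable {E : Type u} [TopologicalSpace E]

open Classical in
/-- the central plane (junk value `0` if there is no contact plane). -/
noncomputable def cpl {r0 L : ℝ} (G : Geo E r0 L) (c C : ℝ) (y : E) : M2 :=
  if h : ∃ P k, Ct G c C y k P then h.choose else 0

/-- the flow `Φ_τ`. -/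
noncomputable def Fl {r0 L : ℝ} (G : Geo E r0 L) (c C : ℝ) (τ : ℝ) (y : E) : E :=
  ac G.D y (xp τ (cpl G c C y))

variable [T2Space E] [ConnectedSpace E] {r0 L c C : ℝ}

/-- Proof. `exists_central`. -/
theorem cpl_spec (hc : Cst r0 L) (hV : VisPkg.{u} r0 L c C) (G : Geo E r0 L)
    (hne : ∃ y ψ, 0 < eD G.D y ψ) {y : E} (hy : y ∈ Om0 G.D) :
    ∃ k, Ct G c C y k (cpl G c C y) := by
  obtain ⟨P, ⟨k, hk⟩, _⟩ := exists_central hc hV G hne hy
  have h : ∃ P k, Ct G c C y k P := ⟨P, k, hk⟩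
  have h1 := h.choose_spec
  unfold cpl
  rw [dif_pos h]
  exact h1

/-- Proof. `cpl_spec`, `Ct_unique`. -/
theorem cpl_eq (hc : Cst r0 L) (hV : VisPkg.{u} r0 L c C) (G : Geo E r0 L)
    (hne : ∃ y ψ, 0 < eD G.D y ψ) {y : E} (hy : y ∈ Om0 G.D) {k : SL} {P : M2}
    (h : Ct G c C y k P) : cpl G c C y = P := by
  obtain ⟨k', hk'⟩ := cpl_spec hc hV G hne hy
  exact Ct_unique hc hV G hne hy hk' h

/-- The central plane near a point.

Proof. Let `g = (D y₀)⁻¹ D y`; for `y` near `y₀`, `g` is near `1` and `y = ac y₀ g` (`ac_eq_near` in B5,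
or `ac_nhds`). `isOpen_Om0`; `central_local` and `cpl_eq`; `(P * g).trace → P.trace = 1`. -/
theorem cpl_near (hc : Cst r0 L) (hV : VisPkg.{u} r0 L c C) (G : Geo E r0 L)
    (hne : ∃ y ψ, 0 < eD G.D y ψ) {y0 : E} (hy : y0 ∈ Om0 G.D) :
    ∀ᶠ y in 𝓝 y0, y ∈ Om0 G.D ∧
      (cpl G c C y0 * (((G.D y0)⁻¹ * G.D y : SL) : M2)).trace ≠ 0 ∧
      cpl G c C y = pmv (cpl G c C y0) ((G.D y0)⁻¹ * G.D y) := by
  have hcg : Continuous fun y : E => (((G.D y0)⁻¹ * G.D y : SL) : M2) :=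
    isEmbedding_coe.continuous.comp (continuous_const.mul (continuous_D G.hD))
  have hg0 : ((((G.D y0)⁻¹ * G.D y0 : SL)) : M2) = 1 := by
    rw [inv_mul_cancel]
    rfl
  have h1 := ac_eq_near G.hD y0
  have h2 : ∀ᶠ y in 𝓝 y0, y ∈ Om0 G.D := (isOpen_Om0 hc G hne).mem_nhds hy
  have hs := cpl_spec hc hV G hne hy
  obtain ⟨δ, hδ, hl⟩ := central_local hc hV G hne hy hs
  have h3 : ∀ᶠ y in 𝓝 y0, nm ((((G.D y0)⁻¹ * G.D y : SL) : M2) - 1) < δ := by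
    have hc1 : Continuous fun y : E => nm ((((G.D y0)⁻¹ * G.D y : SL) : M2) - 1) :=
      continuous_nm.comp (hcg.sub continuous_const)
    have ht : Tendsto (fun y : E => nm ((((G.D y0)⁻¹ * G.D y : SL) : M2) - 1)) (𝓝 y0)
        (𝓝 (nm ((((G.D y0)⁻¹ * G.D y0 : SL) : M2) - 1))) := hc1.tendsto y0
    rw [hg0, sub_self, nm_zero] at ht
    exact ht.eventually_lt_const hδ
  have h4 : ∀ᶠ y in 𝓝 y0, (cpl G c C y0 * (((G.D y0)⁻¹ * G.D y : SL) : M2)).trace ≠ 0 := by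
    have hc2 : Continuous fun y : E =>
        (cpl G c C y0 * (((G.D y0)⁻¹ * G.D y : SL) : M2)).trace :=
      (continuous_const.matrix_mul hcg).matrix_trace
    have ht : Tendsto (fun y : E => (cpl G c C y0 * (((G.D y0)⁻¹ * G.D y : SL) : M2)).trace)
        (𝓝 y0) (𝓝 ((cpl G c C y0 * (((G.D y0)⁻¹ * G.D y0 : SL) : M2)).trace)) := hc2.tendsto y0
    obtain ⟨k, hk⟩ := hs
    rw [hg0, mul_one, hk.isPl.1] at ht
    exact ht.eventually_ne one_ne_zero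
  filter_upwards [h1, h2, h3, h4] with y e1 e2 e3 e4
  refine ⟨e2, e4, ?_⟩
  obtain ⟨k, hk⟩ := hl _ e3
  rw [e1.2] at hk
  exact cpl_eq hc hV G hne e2 hk

/-- Proof. `cpl_near`: near `y₀` the function is `pmv P₀ ((D y₀)⁻¹ D y)`, continuous. -/
theorem continuousOn_cpl (hc : Cst r0 L) (hV : VisPkg.{u} r0 L c C) (G : Geo E r0 L)
    (hne : ∃ y ψ, 0 < eD G.D y ψ) : ContinuousOn (cpl G c C) (Om0 G.D) := by
  intro y0 hy
  have hcg : Continuous fun y : E => (((G.D y0)⁻¹ * G.D y : SL) : M2) :=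
    isEmbedding_coe.continuous.comp (continuous_const.mul (continuous_D G.hD))
  have hg0 : ((((G.D y0)⁻¹ * G.D y0 : SL)) : M2) = 1 := by
    rw [inv_mul_cancel]
    rfl
  obtain ⟨k, hk⟩ := cpl_spec hc hV G hne hy
  have hn := cpl_near hc hV G hne hy
  have hca : ContinuousAt (fun y : E => pmv (cpl G c C y0) ((G.D y0)⁻¹ * G.D y)) y0 := by
    unfold pmv
    have hc1 : Continuous fun y : E => cpl G c C y0 * (((G.D y0)⁻¹ * G.D y : SL) : M2) :=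
      continuous_const.matrix_mul hcg
    refine ContinuousAt.smul (ContinuousAt.inv₀ hc1.matrix_trace.continuousAt ?_)
      hc1.continuousAt
    rw [hg0, mul_one, hk.isPl.1]
    exact one_ne_zero
  have hca2 : ContinuousAt (cpl G c C) y0 := by
    refine hca.congr ?_
    filter_upwards [hn] with y hy'
    exact hy'.2.2.symm
  exact hca2.continuousWithinAt

/-- Facts on the flow. There is `ρ > 0` such that for `|τ| < ρ`, `y ∈ Ω₀`: `Φ_τ(y) ∈ Ω₀`, with the same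
central plane, `D(Φ_τ y) = D(y) exp(τ(P-1/2))`, `Φ_{-τ} Φ_τ y = y`.

Proof. Let `r ≤ 1/4` be the constant of `good_frame hc 1`, `ρ = r/8`. For `y ∈ Ω₀` and `k` from
`cpl_spec` `m(y,k) = 1/2 ≤ 1`, so `FB y k r`. `flow_stays` and `cpl_eq`; `flow_ball`; `flow_add` with
`σ = -τ`, `xp_zero`, `ac_one`. -/
theorem Fl_facts (hc : Cst r0 L) (hV : VisPkg.{u} r0 L c C) (G : Geo E r0 L)
    (hne : ∃ y ψ, 0 < eD G.D y ψ) : ∃ ρ > 0, ∀ τ : ℝ, |τ| < ρ → ∀ y ∈ Om0 G.D,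
      IsPl (cpl G c C y) ∧
      ((xp τ (cpl G c C y) : SL) : M2) - 1 ∈ St G.D y ∧
      Fl G c C τ y ∈ Om0 G.D ∧ cpl G c C (Fl G c C τ y) = cpl G c C y ∧
      G.D (Fl G c C τ y) = G.D y * xp τ (cpl G c C y) ∧ Fl G c C (-τ) (Fl G c C τ y) = y := by
  obtain ⟨r, hr0, hr4, hgf⟩ := good_frame.{u} hc 1
  refine ⟨r / 8, by positivity, fun τ hτ y hy => ?_⟩
  obtain ⟨k, hk⟩ := cpl_spec hc hV G hne hy
  have hF : FB G.D y k r := hgf E G y k (by rw [hk.1]; norm_num)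
  have hP := hk.isPl
  have hH := hk.herm
  obtain ⟨b1, b2, b3, b4⟩ := flow_ball G.hD hr0 (by linarith) hF hP hH hτ
  obtain ⟨s1, k', s2⟩ := flow_stays hc hV G hne hy hk hr0 (by linarith) hF hτ
  have hcp : cpl G c C (Fl G c C τ y) = cpl G c C y := cpl_eq hc hV G hne s1 s2
  refine ⟨hP, b2, s1, hcp, b3, ?_⟩
  have h1 : Fl G c C (-τ) (Fl G c C τ y) =
      ac G.D (ac G.D y (xp τ (cpl G c C y))) (xp (-τ) (cpl G c C (Fl G c C τ y))) := rfl
  rw [h1, hcp]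
  have h2 := (flow_add G.hD hr0 (by linarith) hF hP hH hτ (σ := -τ) (by
    rw [add_neg_cancel, abs_zero]
    positivity)).2
  rw [h2, add_neg_cancel, xp_zero hP, ac_one G.hD]

/-- Proof. `continuousOn_ac`, `continuousOn_cpl`, `continuousOn_xp`, and `Fl_facts`. -/
theorem continuousOn_Fl (hc : Cst r0 L) (hV : VisPkg.{u} r0 L c C) (G : Geo E r0 L)
    (hne : ∃ y ψ, 0 < eD G.D y ψ) {τ : ℝ}
    (h : ∀ y ∈ Om0 G.D, IsPl (cpl G c C y) ∧ ((xp τ (cpl G c C y) : SL) : M2) - 1 ∈ St G.D y) :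
    ContinuousOn (Fl G c C τ) (Om0 G.D) := by
  have h1 : ContinuousOn (fun y : E => ((τ, cpl G c C y) : ℝ × M2)) (Om0 G.D) :=
    continuousOn_const.prodMk (continuousOn_cpl hc hV G hne)
  have hm : MapsTo (fun y : E => ((τ, cpl G c C y) : ℝ × M2)) (Om0 G.D)
      {p : ℝ × M2 | IsPl p.2} := by
    intro y hy
    exact (h y hy).1
  have h2 : ContinuousOn (fun y : E => xp τ (cpl G c C y)) (Om0 G.D) :=
    ContinuousOn.comp (g := fun p : ℝ × M2 => xp p.1 p.2)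
      (f := fun y : E => ((τ, cpl G c C y) : ℝ × M2)) continuousOn_xp h1 hm
  have h3 : ContinuousOn (fun y : E => ((y, xp τ (cpl G c C y)) : E × SL)) (Om0 G.D) :=
    ContinuousOn.prodMk continuousOn_id h2
  have hm' : MapsTo (fun y : E => ((y, xp τ (cpl G c C y)) : E × SL)) (Om0 G.D)
      {q : E × SL | ((q.2 : SL) : M2) - 1 ∈ St G.D q.1} := by
    intro y hy
    exact (h y hy).2
  have h4 : ContinuousOn (fun y : E => ac G.D y (xp τ (cpl G c C y))) (Om0 G.D) :=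
    ContinuousOn.comp (g := fun q : E × SL => ac G.D q.1 q.2)
      (f := fun y : E => ((y, xp τ (cpl G c C y)) : E × SL)) (continuousOn_ac G.hD) h3 hm'
  exact h4

/-- Equivariance of the central plane. Proof. `Ct.smul` and `cpl_eq` at `γ • y ∈ Ω₀` (`Sig.smul` for
`γ⁻¹`: if `a ∈ Σ(γ y)` then `B_{γ⁻¹} a ∈ Σ(y)`, as `γ⁻¹ • γ • y = y`). -/
theorem Om0_smul {Γ : Type*} [Group Γ] [MulAction Γ E] (S : Dev Γ E) (G : Geo E r0 L)
    (hG : G.D = S.D) (γ : Γ) {y : E} (hy : y ∈ Om0 G.D) : γ • y ∈ Om0 G.D := by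
  have hD : IsLocalHomeomorph (Dh S.D) := hG ▸ G.hD
  intro a ha
  rw [hG] at ha
  have h1 := Sig.smul S hD γ⁻¹ ha
  rw [inv_smul_smul] at h1
  apply hy (((S.B γ⁻¹ : SL) : M2) *ᵥ a)
  rw [hG]
  exact h1

theorem cpl_smul {Γ : Type*} [Group Γ] [MulAction Γ E] (S : Dev Γ E) (hc : Cst r0 L)
    (hV : VisPkg.{u} r0 L c C) (G : Geo E r0 L) (hG : G.D = S.D)
    (hJ : ∀ (γ : Γ) (y : E), G.J (γ • y) = fcj (S.B γ) (G.J y))
    (hne : ∃ y ψ, 0 < eD G.D y ψ) (γ : Γ) {y : E} (hy : y ∈ Om0 G.D) :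
    cpl G c C (γ • y) = cj (S.B γ) (cpl G c C y) := by
  obtain ⟨k, hk⟩ := cpl_spec hc hV G hne hy
  exact cpl_eq hc hV G hne (Om0_smul S G hG γ hy) (Ct.smul hc S hG hJ γ hk)

/-- Equivariance of the flow. Proof. `cpl_smul`, `xp_conj`, `ac_smul`. -/
theorem Fl_smul {Γ : Type*} [Group Γ] [MulAction Γ E] (S : Dev Γ E) (hc : Cst r0 L)
    (hV : VisPkg.{u} r0 L c C) (G : Geo E r0 L) (hG : G.D = S.D)
    (hJ : ∀ (γ : Γ) (y : E), G.J (γ • y) = fcj (S.B γ) (G.J y))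
    (hne : ∃ y ψ, 0 < eD G.D y ψ) (γ : Γ) {y : E} (hy : y ∈ Om0 G.D) (τ : ℝ) :
    Fl G c C τ (γ • y) = γ • Fl G c C τ y := by
  have hD : IsLocalHomeomorph (Dh S.D) := hG ▸ G.hD
  obtain ⟨k, hk⟩ := cpl_spec hc hV G hne hy
  unfold Fl
  rw [cpl_smul S hc hV G hG hJ hne γ hy, ← xp_conj hk.isPl, hG]
  exact (ac_smul S hD γ y (xp τ (cpl G c C y))).2

end HRK
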