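import Pool.Agent.HRK.Q17

namespace HRK

open Set Filter Topology Matrix

universe u

variable {E : Type u} [TopologicalSpace E]

theorem q18_isPl (c : ℂ) : IsPl (!![1, -c; 0, 0] : M2) := by
  constructor
  · rw [Matrix.trace_fin_two_of]; simp
  · rw [Matrix.det_fin_two_of]; simp

theorem xp_normal (τ : ℝ) (c : ℂ) :
    xp τ !![1, -c; 0, 0] = uni c e1 * dg τ * uni (-c) e1 := by
  apply Matrix.SpecialLinearGroup.ext
  intro i j
  have h3 : ((dg τ : SL) : M2) = !![(Real.exp (τ / 2) : ℂ), 0; 0, (Real.exp (-(τ / 2)) : ℂ)] := rfl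
  rw [xp_coe (q18_isPl c), Matrix.SpecialLinearGroup.coe_mul, Matrix.SpecialLinearGroup.coe_mul,
    uni_coe, uni_coe, nn_e1, h3]
  fin_cases i <;> fin_cases j <;>
    simp [xpM, Matrix.mul_apply, Fin.sum_univ_two] <;> ring

theorem plane_of_range_e1 {Q : M2} (hQ : IsPl Q) (h : Q *ᵥ e1 = e1) :
    Q = !![1, -(-(Q 0 1)); 0, 0] := by
  have h0 : Q 0 0 = 1 := by
    have := congrFun h 0
    simpa [Matrix.mulVec, dotProduct, Fin.sum_univ_two, e1] using this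
  have h1 : Q 1 0 = 0 := by
    have := congrFun h 1
    simpa [Matrix.mulVec, dotProduct, Fin.sum_univ_two, e1] using this
  have h2 : Q 1 1 = 0 := by
    have := hQ.1
    rw [Matrix.trace_fin_two, h0] at this
    linear_combination this
  ext i j
  fin_cases i <;> fin_cases j <;> simp [h0, h1, h2]

theorem q18_coe_mulVec_mulVec (k : SL) (X : M2) (a : V) :
    cj k X *ᵥ ((k : M2) *ᵥ a) = (k : M2) *ᵥ (X *ᵥ a) := by
  rw [cj, Matrix.mulVec_mulVec, Matrix.mulVec_mulVec, Matrix.mul_assoc, Matrix.mul_assoc,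
    coe_inv_mul, Matrix.mul_one]

theorem pmv_range {P : M2} (hP : IsPl P) {a : V} (ha : a ≠ 0) (h : P *ᵥ a = a) {g : SL}
    (hg : (P * (g : M2)).trace ≠ 0) : pmv P g *ᵥ a = a := by
  obtain ⟨k, hk⟩ := exists_SL_e1 ha (one_ne_zero (α := ℂ))
  rw [one_smul] at hk
  have h1 : cj k P *ᵥ e1 = e1 := by
    rw [← hk, q18_coe_mulVec_mulVec, h]
  have h2 := plane_of_range_e1 (hP.conj k) h1
  set c : ℂ := -(cj k P 0 1) with hc
  set G : SL := k * g * k⁻¹ with hG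
  have h3 : cj k (pmv P g) = pmv (cj k P) G := cj_pmv k P g
  have h4 : (cj k P * (G : M2)).trace = (P * (g : M2)).trace := by
    rw [hG, ← cj_coe, ← cj_mul, trace_cj]
  have h5 : cj k (pmv P g) *ᵥ e1 = e1 := by
    rw [h3, pmv, h4]
    rw [h2] at h4 ⊢
    have h6 : (!![1, -c; 0, 0] * (G : M2)).trace = (G : M2) 0 0 - c * (G : M2) 1 0 := by
      rw [Matrix.trace_fin_two]
      simp [Matrix.mul_apply, Fin.sum_univ_two]
      ring
    rw [h6] at h4
    rw [Matrix.smul_mulVec]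
    have h7 : (!![1, -c; 0, 0] * (G : M2)) *ᵥ e1 = ((G : M2) 0 0 - c * (G : M2) 1 0) • e1 := by
      ext i
      fin_cases i <;>
        simp [Matrix.mulVec, dotProduct, Fin.sum_univ_two, e1, Matrix.mul_apply] <;> ring
    rw [h7, h4, smul_smul, inv_mul_cancel₀ hg, one_smul]
  rw [← hk, q18_coe_mulVec_mulVec] at h5
  rw [← inv_mulVec_mulVec k (pmv P g *ᵥ a), h5, inv_mulVec_mulVec]

theorem exists_range {P : M2} (hP : IsPl P) : ∃ a : V, a ≠ 0 ∧ P *ᵥ a = a := by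
  have h1 : ∃ v : V, P *ᵥ v ≠ 0 := by
    by_contra hcon
    push Not at hcon
    apply hP.ne_zero
    ext i j
    have := congrFun (hcon (Pi.single j 1)) i
    simpa using this
  obtain ⟨v, hv⟩ := h1
  exact ⟨P *ᵥ v, hv, by rw [Matrix.mulVec_mulVec, hP.sq]⟩

theorem pmv_uni_e1 (c b : ℂ) :
    (!![1, -c; 0, 0] * ((uni b e1 : SL) : M2)).trace ≠ 0 ∧
      pmv !![1, -c; 0, 0] (uni b e1) = !![1, -(c - b); 0, 0] := by
  have h : (!![1, -c; 0, 0] * ((uni b e1 : SL) : M2)).trace = 1 := by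
    rw [uni_coe, nn_e1, Matrix.trace_fin_two]
    simp [Matrix.mul_apply, Fin.sum_univ_two]
  refine ⟨by rw [h]; exact one_ne_zero, ?_⟩
  rw [pmv, h, inv_one, one_smul, uni_coe, nn_e1]
  ext i j
  fin_cases i <;> fin_cases j <;> simp [Matrix.mul_apply, Fin.sum_univ_two] <;> ring

theorem Fl_local [T2Space E] [ConnectedSpace E] {r0 L c C : ℝ} (hc : Cst r0 L)
    (hV : VisPkg.{u} r0 L c C) (G : Geo E r0 L) (hne : ∃ y ψ, 0 < eD G.D y ψ) {τ : ℝ}
    (hD : ∀ y ∈ Om0 G.D, G.D (Fl G c C τ y) = G.D y * xp τ (cpl G c C y)) {y0 : E}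
    (hy : y0 ∈ Om0 G.D) :
    ∃ (k0 : SL) (cc : E → ℂ) (N : Set E), IsOpen N ∧ y0 ∈ N ∧ N ⊆ Om0 G.D ∧
      ContinuousOn cc N ∧
      (∀ y ∈ N, G.D (Fl G c C τ y) =
        G.D y * (k0⁻¹ * (uni (cc y) e1 * dg τ * uni (-(cc y)) e1) * k0)) ∧
      ∀ y ∈ N, ∀ y' ∈ N, ∀ b : ℂ, G.D y' = G.D y * (k0⁻¹ * uni b e1 * k0) →
        cc y' = cc y - b := by
  obtain ⟨k, hk⟩ := cpl_spec hc hV G hne hy
  have hP : IsPl (cpl G c C y0) := hk.isPl
  obtain ⟨a, ha, hPa⟩ := exists_range hP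
  obtain ⟨k0, hk0⟩ := exists_SL_e1 ha (one_ne_zero (α := ℂ))
  rw [one_smul] at hk0
  obtain ⟨N, hN, hNo, hy0N⟩ := eventually_nhds_iff.1 (cpl_near hc hV G hne hy)
  have hpl : ∀ y ∈ N, IsPl (cpl G c C y) := by
    intro y hyN
    obtain ⟨k', hk'⟩ := cpl_spec hc hV G hne (hN y hyN).1
    exact hk'.isPl
  have hQ : ∀ y ∈ N, cj k0 (cpl G c C y) = !![1, -(-(cj k0 (cpl G c C y) 0 1)); 0, 0] := by
    intro y hyN
    refine plane_of_range_e1 ((hpl y hyN).conj k0) ?_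
    have h1 : cpl G c C y *ᵥ a = a := by
      rw [(hN y hyN).2.2]
      exact pmv_range hP ha hPa (hN y hyN).2.1
    rw [← hk0, q18_coe_mulVec_mulVec, h1]
  refine ⟨k0, fun y => -(cj k0 (cpl G c C y) 0 1), N, hNo, hy0N, fun y hyN => (hN y hyN).1, ?_, ?_, ?_⟩
  · have h1 : ContinuousOn (fun y => cj k0 (cpl G c C y)) N :=
      (continuous_cj k0).comp_continuousOn
        ((continuousOn_cpl hc hV G hne).mono fun y hyN => (hN y hyN).1)
    have h2 : Continuous fun M : M2 => -(M 0 1) := by fun_prop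
    exact h2.comp_continuousOn h1
  · intro y hyN
    rw [hD y (hN y hyN).1]
    congr 1
    have h1 : k0 * xp τ (cpl G c C y) * k0⁻¹ =
        uni (-(cj k0 (cpl G c C y) 0 1)) e1 * dg τ * uni (-(-(cj k0 (cpl G c C y) 0 1))) e1 := by
      rw [xp_conj (hpl y hyN), ← xp_normal, ← hQ y hyN]
    rw [← h1]
    group
  · intro y hyN y' hy'N b hb
    have h1 : (G.D y0)⁻¹ * G.D y' = (G.D y0)⁻¹ * G.D y * (k0⁻¹ * uni b e1 * k0) := by
      rw [hb, ← mul_assoc]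
    have h2 : cpl G c C y' = pmv (cpl G c C y) (k0⁻¹ * uni b e1 * k0) := by
      rw [(hN y' hy'N).2.2, h1, ← pmv_pmv (hN y hyN).2.1, ← (hN y hyN).2.2]
    have h3 : cj k0 (cpl G c C y') = pmv (cj k0 (cpl G c C y)) (uni b e1) := by
      rw [h2, cj_pmv]
      congr 1
      group
    change -(cj k0 (cpl G c C y') 0 1) = -(cj k0 (cpl G c C y) 0 1) - b
    rw [h3, hQ y hyN, (pmv_uni_e1 _ b).2]
    simp [sub_eq_add_neg]

end HRK
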