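import Pool.Agent.HRK.VolDefs

/-!
# HRK-VolG2 : two fundamental domains have the same measure
-/

namespace HRK

open Set Filter Topology Matrix MeasureTheory

/-- Two fundamental domains of the action on `Ω` have the same measure.
Proof. Let `m' = m.restrict Ω`. `F ∩ Ω` and `Φ '' (F ∩ Ω)` are fundamental domains for `m'`
(`MeasureTheory.IsFundamentalDomain`: measurable, covers `Ω`, translates disjoint: if
`γ • Φ x = Φ x'`, `x, x' ∈ F ∩ Ω`, then `Φ (γ • x) = Φ x'`, `γ • x = x'`, so `γ = 1`, `x = x'`); `m'` is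
invariant since `γ • Ω = Ω`. `IsFundamentalDomain.measure_eq`:
`m (F ∩ Ω) = m (Φ '' (F ∩ Ω)) = q * m (F ∩ Ω)`. `m (F ∩ Ω) ≤ m F < ⊤`; if it is `0` then
`m Ω ≤ ∑ γ, m (γ (F ∩ Ω)) = 0`, contradiction. So `q = 1`, contradiction. -/
theorem volume_contra {Γ E : Type*} [Group Γ] [Countable Γ] [MulAction Γ E]
    [TopologicalSpace E] [MeasurableSpace E] [BorelSpace E]
    (hcont : ∀ γ : Γ, Continuous fun x : E => γ • x) (m : Measure E)
    (hminv : ∀ (γ : Γ) (A : Set E), MeasurableSet A → m ((fun x => γ • x) '' A) = m A)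
    {F : Set E} (hF : MeasurableSet F) (hFfin : m F < ⊤) (hFc : ∀ x, ∃ γ : Γ, γ • x ∈ F)
    (hFd : ∀ (γ : Γ) (x : E), x ∈ F → γ • x ∈ F → γ = 1)
    {Ω : Set E} (hΩ : MeasurableSet Ω) (hΩpos : 0 < m Ω)
    (hinv : ∀ (γ : Γ), ∀ y ∈ Ω, γ • y ∈ Ω)
    {Φ Ψ : E → E} (hΦ : MapsTo Φ Ω Ω) (hΨ : MapsTo Ψ Ω Ω) (h1 : ∀ y ∈ Ω, Ψ (Φ y) = y)
    (h2 : ∀ y ∈ Ω, Φ (Ψ y) = y)
    (hcomm : ∀ (γ : Γ), ∀ y ∈ Ω, Φ (γ • y) = γ • Φ y)
    {q : ENNReal} (hq : 1 < q)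
    (hscale : ∀ A ⊆ Ω, MeasurableSet A → MeasurableSet (Φ '' A) ∧ m (Φ '' A) = q * m A) :
    False := by
  haveI : MeasurableConstSMul Γ E := ⟨fun c => (hcont c).measurable⟩
  have hinv' : ∀ (γ : Γ) (y : E), γ • y ∈ Ω → y ∈ Ω := by
    intro γ y hy
    have := hinv γ⁻¹ _ hy
    rwa [inv_smul_smul] at this
  haveI : SMulInvariantMeasure Γ E (m.restrict Ω) := by
    refine ⟨fun c s hs => ?_⟩
    have hms : MeasurableSet ((fun x => c • x) ⁻¹' s) := (hcont c).measurable hs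
    rw [Measure.restrict_apply hms, Measure.restrict_apply hs]
    have heq : (fun x => c • x) ⁻¹' s ∩ Ω = (fun x => c⁻¹ • x) '' (s ∩ Ω) := by
      ext x
      constructor
      · rintro ⟨hx1, hx2⟩
        exact ⟨c • x, ⟨hx1, hinv c x hx2⟩, inv_smul_smul c x⟩
      · rintro ⟨z, ⟨hz1, hz2⟩, rfl⟩
        refine ⟨?_, hinv c⁻¹ z hz2⟩
        change c • c⁻¹ • z ∈ s
        rwa [smul_inv_smul]
    rw [heq]
    exact hminv c⁻¹ _ (hs.inter hΩ)
  have hA : MeasurableSet (F ∩ Ω) := hF.inter hΩ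
  obtain ⟨hB, hBm⟩ := hscale (F ∩ Ω) inter_subset_right hA
  have hdisj : ∀ (γ γ' : Γ) (a a' : E), a ∈ F → a' ∈ F → γ • a = γ' • a' → γ = γ' := by
    intro γ γ' a a' ha ha' h
    have h3 : (γ'⁻¹ * γ) • a = a' := by
      rw [mul_smul, h, inv_smul_smul]
    have h4 := hFd (γ'⁻¹ * γ) a ha (by rw [h3]; exact ha')
    rw [inv_mul_eq_one] at h4
    exact h4.symm
  have hfA : IsFundamentalDomain Γ (F ∩ Ω) (m.restrict Ω) := by
    refine ⟨hA.nullMeasurableSet, ?_, ?_⟩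
    · refine ae_restrict_of_forall_mem hΩ fun x hx => ?_
      obtain ⟨γ, hγ⟩ := hFc x
      exact ⟨γ, hγ, hinv γ x hx⟩
    · intro γ γ' hne
      refine Disjoint.aedisjoint ?_
      rw [Set.disjoint_left]
      rintro _ ⟨a, ha, rfl⟩ ⟨a', ha', h⟩
      exact hne (hdisj γ γ' a a' ha.1 ha'.1 h.symm)
  have hfB : IsFundamentalDomain Γ (Φ '' (F ∩ Ω)) (m.restrict Ω) := by
    refine ⟨hB.nullMeasurableSet, ?_, ?_⟩
    · refine ae_restrict_of_forall_mem hΩ fun x hx => ?_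
      obtain ⟨γ, hγ⟩ := hFc (Ψ x)
      refine ⟨γ, γ • Ψ x, ⟨hγ, hinv γ _ (hΨ hx)⟩, ?_⟩
      rw [hcomm γ _ (hΨ hx), h2 x hx]
    · intro γ γ' hne
      refine Disjoint.aedisjoint ?_
      rw [Set.disjoint_left]
      rintro _ ⟨_, ⟨a, ha, rfl⟩, rfl⟩ ⟨_, ⟨a', ha', rfl⟩, h⟩
      have h' : γ' • Φ a' = γ • Φ a := h
      rw [← hcomm γ' a' ha'.2, ← hcomm γ a ha.2] at h'
      have h3 := congrArg Ψ h'
      rw [h1 _ (hinv γ' a' ha'.2), h1 _ (hinv γ a ha.2)] at h3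
      exact hne (hdisj γ γ' a a' ha.1 ha'.1 h3.symm)
  have hBΩ : Φ '' (F ∩ Ω) ⊆ Ω := by
    rintro _ ⟨a, ha, rfl⟩
    exact hΦ ha.2
  have hμ := hfA.measure_eq hfB
  rw [Measure.restrict_apply hA, Measure.restrict_apply hB, inter_assoc, inter_self,
    inter_eq_left.mpr hBΩ, hBm] at hμ
  have hfin : m (F ∩ Ω) ≠ ⊤ := ((measure_mono inter_subset_left).trans_lt hFfin).ne
  have hne0 : m (F ∩ Ω) ≠ 0 := by
    intro h0
    have hr : m.restrict Ω ≠ 0 := by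
      rw [Ne, Measure.restrict_eq_zero]
      exact hΩpos.ne'
    have h3 := hfA.measure_ne_zero hr
    rw [Measure.restrict_apply hA, inter_assoc, inter_self] at h3
    exact h3 h0
  have h3 : 1 * m (F ∩ Ω) < q * m (F ∩ Ω) := ENNReal.mul_lt_mul_left hne0 hfin hq
  rw [one_mul, ← hμ] at h3
  exact lt_irrefl _ h3

end HRK
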