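import Pool.Agent.HRK.VolDefs

/-!
# HRK-VolF : the measure of `E` obtained from a measure of `SL` by a local homeomorphism
-/

namespace HRK

open Set Filter Topology Matrix MeasureTheory

variable {E : Type*} [TopologicalSpace E] [T2Space E]

omit [TopologicalSpace E] [T2Space E] in
theorem volf_disj {F : Type*} {f : E → F} {N A B : Set E} (hi : InjOn f N) (h : Disjoint A B)
    (hA : A ⊆ N) (hB : B ⊆ N) : Disjoint (f '' A) (f '' B) := by
  rw [Set.disjoint_left] at h ⊢
  rintro _ ⟨x, hx, rfl⟩ ⟨y, hy, hxy⟩
  have h1 := hi (hB hy) (hA hx) hxy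
  rw [h1] at hy
  exact h hx hy

omit [T2Space E] in
/-- the restriction is a measurable embedding -/
theorem volf_emb {F : Type*} [TopologicalSpace F] [MeasurableSpace F] [BorelSpace F]
    [MeasurableSpace E] [BorelSpace E] {D : E → F} (hD : IsLocalHomeomorph D)
    {N : Set E} (hN : IsOpen N) (hi : InjOn D N) :
    MeasurableEmbedding (fun x : N => D x) := by
  have h1 : IsLocalHomeomorph (fun x : N => D x) :=
    hD.comp hN.isOpenEmbedding_subtypeVal.isLocalHomeomorph
  have h2 : IsOpenEmbedding (fun x : N => D x) := h1.isOpenEmbedding_of_injective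
    (fun x y hxy => Subtype.ext (hi x.2 y.2 hxy))
  exact h2.measurableEmbedding

/-- If `D` is a local homeomorphism, injective on the open set `N`, then it maps the Borel subsets
of `N` to Borel sets. Proof. `N.restrict D` is an open embedding, so a measurable embedding
(`IsOpenEmbedding.measurableEmbedding`). -/
theorem measurableSet_image {F : Type*} [TopologicalSpace F] [MeasurableSpace F] [BorelSpace F]
    [MeasurableSpace E] [BorelSpace E] {D : E → F} (hD : IsLocalHomeomorph D)
    {N : Set E} (hN : IsOpen N) (hi : InjOn D N) {A : Set E} (hA : A ⊆ N)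
    (hAm : MeasurableSet A) : MeasurableSet (D '' A) := by
  have h1 := volf_emb hD hN hi
  have h2 : D '' A = (fun x : N => D x) '' (Subtype.val ⁻¹' A) := by
    ext z
    constructor
    · rintro ⟨x, hx, rfl⟩
      exact ⟨⟨x, hA hx⟩, hx, rfl⟩
    · rintro ⟨x, hx, rfl⟩
      exact ⟨x.1, hx, rfl⟩
  rw [h2]
  exact h1.measurableSet_image.mpr (measurable_subtype_coe hAm)

/-- Proof. Choose countably many open sets `N n` covering `E`, `D` injective on `N n` (second
countable, `TopologicalSpace.isOpen_iUnion_countable` or `exists_seq`...), `A n = N n \ ⋃_{j<n} N j`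
(`disjointed`), a Borel partition of `E`. Put `m A = ∑' n, ν (D '' (A ∩ A n))`, as
`Measure.sum fun n => (Measure.comap (restriction of D to N n) ν).map Subtype.val` restricted to
`A n`. If `D` is injective on `N` and `A ⊆ N` is Borel then the sets `D '' (A ∩ A n)` are disjoint
Borel sets with union `D '' A`. -/
theorem exists_pullback [SecondCountableTopology E] [MeasurableSpace E] [BorelSpace E]
    {D : E → SL} (hD : IsLocalHomeomorph D) (ν : Measure SL) :
    ∃ m : Measure E, ∀ N : Set E, IsOpen N → InjOn D N → ∀ A ⊆ N, MeasurableSet A →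
      m A = ν (D '' A) := by
  rcases isEmpty_or_nonempty E with hE | hE
  · refine ⟨0, fun N _ _ A _ _ => ?_⟩
    have h1 : A = ∅ := Set.eq_empty_of_isEmpty A
    rw [h1, image_empty, measure_empty, measure_empty]
  have h0 : ∀ y : E, ∃ N : Set E, IsOpen N ∧ y ∈ N ∧ InjOn D N := by
    intro y
    obtain ⟨e, he, rfl⟩ := hD y
    exact ⟨e.source, e.open_source, he, e.injOn⟩
  choose N hNo hNy hNi using h0
  obtain ⟨s, hs, hsU⟩ := TopologicalSpace.countable_cover_nhds
    (fun y => (hNo y).mem_nhds (hNy y))
  have hsne : s.Nonempty := by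
    rw [Set.nonempty_iff_ne_empty]
    rintro rfl
    obtain ⟨y⟩ := hE
    have : y ∈ (univ : Set E) := mem_univ y
    rw [← hsU] at this
    simp at this
  obtain ⟨g, hg⟩ := hs.exists_eq_range hsne
  set M : ℕ → Set E := fun n => N (g n) with hM
  have hMU : ⋃ n, M n = univ := by
    rw [← hsU, hg, biUnion_range]
  have hMm : ∀ n, MeasurableSet (M n) := fun n => (hNo _).measurableSet
  have hdm : ∀ n, MeasurableSet (disjointed M n) := MeasurableSet.disjointed hMm
  have hdU : ⋃ n, disjointed M n = univ := by
    rw [iUnion_disjointed, hMU]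
  have hdd := disjoint_disjointed M
  let μ : ℕ → Measure E := fun n =>
    (Measure.map Subtype.val (Measure.comap (fun x : M n => D x) ν)).restrict (disjointed M n)
  have hμ : ∀ n A, MeasurableSet A → μ n A = ν (D '' (A ∩ disjointed M n)) := by
    intro n A hA
    change ((Measure.map Subtype.val (Measure.comap (fun x : M n => D x) ν)).restrict
      (disjointed M n)) A = _
    rw [Measure.restrict_apply hA, Measure.map_apply measurable_subtype_coe (hA.inter (hdm n)),
      (volf_emb hD (hNo _) (hNi _)).comap_apply]
    congr 1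
    ext z
    constructor
    · rintro ⟨x, hx, rfl⟩
      exact ⟨x.1, hx, rfl⟩
    · rintro ⟨x, hx, rfl⟩
      exact ⟨⟨x, disjointed_subset M n hx.2⟩, hx, rfl⟩
  refine ⟨Measure.sum μ, ?_⟩
  intro N' hN' hi A hA hAm
  rw [Measure.sum_apply _ hAm]
  have h1 : D '' A = ⋃ n, D '' (A ∩ disjointed M n) := by
    rw [← image_iUnion, ← inter_iUnion, hdU, inter_univ]
  rw [h1, measure_iUnion]
  · exact tsum_congr fun n => hμ n A hAm
  · intro i j hij
    have h2 : Disjoint (A ∩ disjointed M i) (A ∩ disjointed M j) :=
      (hdd hij).mono inter_subset_right inter_subset_right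
    exact volf_disj hi h2 (inter_subset_left.trans hA)
      (inter_subset_left.trans hA)
  · intro n
    exact measurableSet_image hD hN' hi (inter_subset_left.trans hA) (hAm.inter (hdm n))

/-- two measures which agree on small sets agree; more generally a countable additive identity can
be checked locally. `q` a constant, `Φ` injective on `Ω`. Proof. Countably many of the sets `N y`
cover `Ω` (second countable: Lindelöf); disjointify. -/
theorem scale_of_local [SecondCountableTopology E] [MeasurableSpace E] [BorelSpace E]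
    {m : Measure E} {Ω : Set E} (hΩ : IsOpen Ω) {Φ : E → E} (hi : InjOn Φ Ω) {q : ENNReal}
    (h : ∀ y ∈ Ω, ∃ N : Set E, IsOpen N ∧ y ∈ N ∧ ∀ A ⊆ N, MeasurableSet A → A ⊆ Ω →
      MeasurableSet (Φ '' A) ∧ m (Φ '' A) = q * m A) :
    ∀ A ⊆ Ω, MeasurableSet A → MeasurableSet (Φ '' A) ∧ m (Φ '' A) = q * m A := by
  intro A hA hAm
  rcases Ω.eq_empty_or_nonempty with hE | hE
  · have h1 : A = ∅ := by
      rw [hE] at hA
      exact subset_empty_iff.mp hA
    rw [h1, image_empty, measure_empty, mul_zero]
    exact ⟨MeasurableSet.empty, rfl⟩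
  choose! N hNo hNy hN using h
  obtain ⟨s, hsO, hs, hsU⟩ := TopologicalSpace.countable_cover_nhdsWithin
    (fun y hy => mem_nhdsWithin_of_mem_nhds ((hNo y hy).mem_nhds (hNy y hy)))
  have hsne : s.Nonempty := by
    rw [Set.nonempty_iff_ne_empty]
    rintro rfl
    obtain ⟨y, hy⟩ := hE
    have := hsU hy
    simp at this
  obtain ⟨g, hg⟩ := hs.exists_eq_range hsne
  have hgO : ∀ n, g n ∈ Ω := fun n => hsO (by rw [hg]; exact mem_range_self n)
  set M : ℕ → Set E := fun n => N (g n) with hM
  have hMU : Ω ⊆ ⋃ n, M n := by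
    rw [hg, biUnion_range] at hsU
    exact hsU
  have hMm : ∀ n, MeasurableSet (M n) := fun n => (hNo _ (hgO n)).measurableSet
  have hdm : ∀ n, MeasurableSet (disjointed M n) := MeasurableSet.disjointed hMm
  have hdd := disjoint_disjointed M
  have hAU : A = ⋃ n, A ∩ disjointed M n := by
    rw [← inter_iUnion, iUnion_disjointed]
    exact (inter_eq_left.mpr (hA.trans hMU)).symm
  have hpart : ∀ n, MeasurableSet (Φ '' (A ∩ disjointed M n)) ∧
      m (Φ '' (A ∩ disjointed M n)) = q * m (A ∩ disjointed M n) := by
    intro n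
    exact hN (g n) (hgO n) _ (inter_subset_right.trans (disjointed_subset M n))
      (hAm.inter (hdm n)) (inter_subset_left.trans hA)
  have hdis : Pairwise (Function.onFun Disjoint fun n => A ∩ disjointed M n) := by
    intro i j hij
    exact (hdd hij).mono inter_subset_right inter_subset_right
  have himg : Φ '' A = ⋃ n, Φ '' (A ∩ disjointed M n) := by
    rw [← image_iUnion, ← hAU]
  constructor
  · rw [himg]
    exact MeasurableSet.iUnion fun n => (hpart n).1
  · have h3 : m A = ∑' n, m (A ∩ disjointed M n) := by
      conv_lhs => rw [hAU]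
      exact measure_iUnion hdis fun n => hAm.inter (hdm n)
    rw [himg, measure_iUnion _ fun n => (hpart n).1, h3, ← ENNReal.tsum_mul_left]
    · exact tsum_congr fun n => (hpart n).2
    · intro i j hij
      exact volf_disj hi (hdis hij) (inter_subset_left.trans hA)
        (inter_subset_left.trans hA)

end HRK
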