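import Pool.Agent.HRK.VolB
import Pool.Agent.HRK.VolF

/-!
# HRK-VolH1 : the measure of `E` is invariant
-/

namespace HRK

open Set Filter Topology Matrix MeasureTheory

variable {Γ E : Type*} [Group Γ] [TopologicalSpace E] [T2Space E] [MulAction Γ E]

/-- `m` is invariant. Proof. By `scale_of_local` (`Ω = univ`, `q = 1`, `Φ x = γ • x`, injective): near
`y` take an open `N ∋ y` on which `D` is injective; `D` is injective on `γ N` too
(`S.equiv`), `γ N` is open (`x ↦ γ⁻¹ • x` is continuous) and
`m (γ A) = nuS (D '' (γ A)) = nuS (A_γ (D '' A) B_γ⁻¹) = nuS (D '' A) = m A` (`nuS_image_mul`). -/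
theorem m_invariant [SecondCountableTopology E] [MeasurableSpace E] [BorelSpace E]
    (S : Dev Γ E) {m : Measure E}
    (hm : ∀ N : Set E, IsOpen N → InjOn S.D N → ∀ A ⊆ N, MeasurableSet A → m A = nuS (S.D '' A))
    (γ : Γ) (A : Set E) (hA : MeasurableSet A) : m ((fun x => γ • x) '' A) = m A := by
  have himg : ∀ B : Set E, (fun x : E => γ • x) '' B = (fun x : E => γ⁻¹ • x) ⁻¹' B := by
    intro B
    ext x
    constructor
    · rintro ⟨b, hb, rfl⟩
      show γ⁻¹ • (γ • b) ∈ B
      rwa [inv_smul_smul]
    · intro hx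
      exact ⟨γ⁻¹ • x, hx, smul_inv_smul γ x⟩
  have key := scale_of_local (m := m) (Ω := univ) isOpen_univ (Φ := fun x => γ • x) (q := 1)
    (fun x _ y _ h => MulAction.injective γ h) ?_
  · have h1 := (key A (subset_univ _) hA).2
    rwa [one_mul] at h1
  · intro y _
    obtain ⟨e, hy, he⟩ := S.hD y
    refine ⟨e.source, e.open_source, hy, ?_⟩
    have hi : InjOn S.D e.source := by
      rw [he]
      exact e.injOn
    intro B hB hBm _
    have hBm' : MeasurableSet ((fun x : E => γ • x) '' B) := by
      rw [himg]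
      exact (S.cont γ⁻¹).measurable hBm
    refine ⟨hBm', ?_⟩
    have ho : IsOpen ((fun x : E => γ • x) '' e.source) := by
      rw [himg]
      exact e.open_source.preimage (S.cont γ⁻¹)
    have hi' : InjOn S.D ((fun x : E => γ • x) '' e.source) := by
      rintro _ ⟨x, hx, rfl⟩ _ ⟨z, hz, rfl⟩ h
      have h2 : S.D (γ • x) = S.D (γ • z) := h
      rw [S.equiv, S.equiv] at h2
      have h3 : S.D x = S.D z := mul_left_cancel (mul_right_cancel h2)
      show γ • x = γ • z
      rw [hi hx hz h3]
    rw [one_mul, hm _ ho hi' _ (image_mono hB) hBm', hm _ e.open_source hi B hB hBm]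
    have h4 : S.D '' ((fun x : E => γ • x) '' B) =
        (fun x : SL => S.A γ * x * (S.B γ)⁻¹) '' (S.D '' B) := by
      rw [image_image, image_image]
      apply image_congr
      intro x _
      exact S.equiv γ x
    rw [h4]
    exact (nuS_image_mul (S.A γ) (S.B γ)⁻¹
      (measurableSet_image S.hD e.open_source hi hB hBm)).2

end HRK
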