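import Pool.Agent.HRK.VolDefs

/-!
# HRK-VolE : countability
-/

namespace HRK

open Set Filter Topology Matrix

/-- `SL` is locally compact and second countable: closed embedding in `M₂` (`isEmbedding_coe`, the
range is `{det = 1}`, closed). -/
theorem locallyCompact_SL : LocallyCompactSpace SL := by
  have h0 : LocallyCompactSpace M2 := inferInstanceAs (LocallyCompactSpace (Fin 2 → Fin 2 → ℂ))
  have hr : range (fun g : SL => (g : M2)) = {X : M2 | X.det = 1} := by
    ext X
    constructor
    · rintro ⟨g, rfl⟩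
      exact g.2
    · intro hX
      exact ⟨⟨X, hX⟩, rfl⟩
  have hcl : IsClosed (range (fun g : SL => (g : M2))) := by
    rw [hr]
    have h1 : Continuous fun X : M2 => X.det := Continuous.matrix_det continuous_id
    exact isClosed_singleton.preimage h1
  have hce : IsClosedEmbedding (fun g : SL => (g : M2)) := ⟨isEmbedding_coe, hcl⟩
  exact hce.locallyCompactSpace

theorem secondCountable_SL : SecondCountableTopology SL := by
  have h0 : SecondCountableTopology M2 :=
    inferInstanceAs (SecondCountableTopology (Fin 2 → Fin 2 → ℂ))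
  exact isEmbedding_coe.secondCountableTopology

/-- the charts given by a local homeomorphism -/
@[instance_reducible] noncomputable def voleCharts {E : Type*} [TopologicalSpace E] {D : E → SL}
    (hD : IsLocalHomeomorph D) : ChartedSpace SL E where
  atlas := univ
  chartAt := fun y => Classical.choose (hD y)
  mem_chart_source := fun y => (Classical.choose_spec (hD y)).1
  chart_mem_atlas := fun _ => mem_univ _

variable {Γ E : Type*} [Group Γ] [TopologicalSpace E] [T2Space E] [MulAction Γ E]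

/-- `E` is locally compact (local homeomorphism to a locally compact Hausdorff space; e.g. every
point has an open neighbourhood homeomorphic to an open subset of `SL`). -/
theorem locallyCompact_of_localHomeo {D : E → SL} (hD : IsLocalHomeomorph D) :
    LocallyCompactSpace E := by
  have h1 := locallyCompact_SL
  let _ := voleCharts hD
  exact ChartedSpace.locallyCompactSpace SL E

/-- a compact neighbourhood of the compact set `K`: relatively compact open `U ⊇ K`. -/
theorem exists_open_nhd {D : E → SL} (hD : IsLocalHomeomorph D) {K : Set E} (hK : IsCompact K) :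
    ∃ U C : Set E, IsOpen U ∧ K ⊆ U ∧ U ⊆ C ∧ IsCompact C := by
  have h1 := locallyCompact_of_localHomeo hD
  obtain ⟨C, hC, hKC⟩ := exists_compact_superset hK
  exact ⟨interior C, C, isOpen_interior, hKC, interior_subset, hC⟩

/-- Proof. `U, C` as in `exists_open_nhd` for `K = S.K`. `T = {γ | γ U ∩ U ≠ ∅}` is finite (`S.pd C`).
Let `Γ₀ = Subgroup.closure T`, countable (finitely generated). `W = ⋃_{γ ∈ Γ₀} γ U` and
`W' = ⋃_{γ ∉ Γ₀} γ U` are open, `W ∪ W' = E` (`S.cover`), and disjoint: if `γ u = γ' u'` with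
`γ ∈ Γ₀`, `γ' ∉ Γ₀` then `γ⁻¹ γ' ∈ T ⊆ Γ₀`. `E` is connected and `W ≠ ∅` so `W' = ∅`: every
`γ ∈ Γ₀`, as `U ≠ ∅`. -/
theorem Dev.countable [ConnectedSpace E] (S : Dev Γ E) : Countable Γ := by
  obtain ⟨U, C, hU, hKU, hUC, hC⟩ := exists_open_nhd S.hD S.hK
  have hfin := S.pd C hC
  set T : Set Γ := {γ : Γ | ∃ x ∈ C, γ • x ∈ C} with hT
  set G0 : Subgroup Γ := Subgroup.closure T with hG0
  have hTc : Countable T := hfin.countable
  have hG0c : Countable G0 := by
    have h1 : (FreeGroup.lift (Subtype.val : T → Γ)).range = G0 := by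
      rw [FreeGroup.range_lift_eq_closure, Subtype.range_coe]
    rw [← h1]
    exact (MonoidHom.rangeRestrict_surjective _).countable
  have hW : IsOpen {x : E | ∃ γ ∈ G0, γ • x ∈ U} := by
    have h1 : {x : E | ∃ γ ∈ G0, γ • x ∈ U} = ⋃ γ ∈ G0, (fun x : E => γ • x) ⁻¹' U := by
      ext x
      simp
    rw [h1]
    exact isOpen_biUnion fun γ _ => hU.preimage (S.cont γ)
  have hW' : IsOpen {x : E | ∃ γ, γ ∉ G0 ∧ γ • x ∈ U} := by
    have h1 : {x : E | ∃ γ, γ ∉ G0 ∧ γ • x ∈ U} =
        ⋃ γ ∈ {γ : Γ | γ ∉ G0}, (fun x : E => γ • x) ⁻¹' U := by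
      ext x
      simp
    rw [h1]
    exact isOpen_biUnion fun γ _ => hU.preimage (S.cont γ)
  have hdis : ∀ x : E, (∃ γ ∈ G0, γ • x ∈ U) → ¬ ∃ γ, γ ∉ G0 ∧ γ • x ∈ U := by
    rintro x ⟨γ, hγ, hx⟩ ⟨γ', hγ', hx'⟩
    apply hγ'
    have h1 : γ' * γ⁻¹ ∈ T := by
      refine ⟨γ • x, hUC hx, ?_⟩
      rw [mul_smul, inv_smul_smul]
      exact hUC hx'
    have h2 : γ' * γ⁻¹ ∈ G0 := Subgroup.subset_closure h1
    have h3 := G0.mul_mem h2 hγ
    rwa [inv_mul_cancel_right] at h3
  have hcov : ∀ x : E, (∃ γ ∈ G0, γ • x ∈ U) ∨ ∃ γ, γ ∉ G0 ∧ γ • x ∈ U := by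
    intro x
    obtain ⟨γ, hγ⟩ := S.cover x
    by_cases h : γ ∈ G0
    · exact Or.inl ⟨γ, h, hKU hγ⟩
    · exact Or.inr ⟨γ, h, hKU hγ⟩
  have hclopen : IsClopen {x : E | ∃ γ ∈ G0, γ • x ∈ U} := by
    refine ⟨?_, hW⟩
    have h1 : {x : E | ∃ γ ∈ G0, γ • x ∈ U} = {x : E | ∃ γ, γ ∉ G0 ∧ γ • x ∈ U}ᶜ := by
      ext x
      constructor
      · intro h
        exact hdis x h
      · intro h
        exact (hcov x).resolve_right h
    rw [h1]
    exact hW'.isClosed_compl
  obtain ⟨x0⟩ : Nonempty E := inferInstance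
  obtain ⟨γ0, hγ0⟩ := S.cover x0
  have hU0 : γ0 • x0 ∈ U := hKU hγ0
  have huniv : {x : E | ∃ γ ∈ G0, γ • x ∈ U} = univ := by
    apply hclopen.eq_univ
    exact ⟨γ0 • x0, 1, G0.one_mem, by rw [one_smul]; exact hU0⟩
  have htop : ∀ γ : Γ, γ ∈ G0 := by
    intro γ
    by_contra h
    have h1 : γ⁻¹ • (γ0 • x0) ∈ {x : E | ∃ γ ∈ G0, γ • x ∈ U} := by
      rw [huniv]
      exact mem_univ _
    exact hdis _ h1 ⟨γ, h, by rw [smul_inv_smul]; exact hU0⟩
  have hinj : Function.Injective (fun γ : Γ => (⟨γ, htop γ⟩ : G0)) := by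
    intro a b hab
    exact congrArg Subtype.val hab
  exact hinj.countable

/-- Proof. `E = ⋃_γ γ C` is `σ`-compact; every point has an open neighbourhood homeomorphic to an
open subset of the second countable space `SL`; so `E` is covered by countably many open second
countable subsets: `TopologicalSpace.secondCountableTopology_of_countable_cover`. -/
theorem Dev.secondCountable [ConnectedSpace E] (S : Dev Γ E) : SecondCountableTopology E := by
  have h1 := S.countable
  have h2 : IsSigmaCompact (⋃ γ : Γ, (fun x : E => γ • x) '' S.K) :=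
    isSigmaCompact_iUnion_of_isCompact _ fun γ => S.hK.image (S.cont γ)
  have h3 : (⋃ γ : Γ, (fun x : E => γ • x) '' S.K) = univ := by
    rw [eq_univ_iff_forall]
    intro x
    obtain ⟨γ, hγ⟩ := S.cover x
    rw [mem_iUnion]
    exact ⟨γ⁻¹, γ • x, hγ, inv_smul_smul γ x⟩
  rw [h3, isSigmaCompact_univ_iff] at h2
  have h4 := secondCountable_SL
  let _ := voleCharts S.hD
  exact ChartedSpace.secondCountable_of_sigmaCompact SL E

end HRK
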