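import Pool.Agent.HRK.VolA
import Pool.Agent.HRK.VolE
import Pool.Agent.HRK.VolF

/-!
# HRK-VolH2 : the measure of `E` is finite on compact sets and positive on open sets
-/

namespace HRK

open Set Filter Topology Matrix MeasureTheory

variable {E : Type*} [TopologicalSpace E] [T2Space E]

/-- Proof. A compact set is covered by finitely many open sets `N` on which `D` is injective and
whose closure is compact and contained in an open set on which `D` is injective (locally compact):
`m N ≤ nuS (D '' closure N) < ⊤` (`nuS_lt_top`). -/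
theorem m_lt_top [MeasurableSpace E] [BorelSpace E] {D : E → SL} (hD : IsLocalHomeomorph D)
    {m : Measure E}
    (hm : ∀ N : Set E, IsOpen N → InjOn D N → ∀ A ⊆ N, MeasurableSet A → m A = nuS (D '' A))
    {C : Set E} (hC : IsCompact C) : m C < ⊤ := by
  have hlc : LocallyCompactSpace E := locallyCompact_of_localHomeo hD
  apply hC.measure_lt_top_of_nhdsWithin
  intro x _
  obtain ⟨e, hx, he⟩ := hD x
  have hi : InjOn D e.source := by
    rw [he]
    exact e.injOn
  obtain ⟨K, hK, hxK, hKN⟩ := exists_compact_subset e.open_source hx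
  refine ⟨K, mem_nhdsWithin_of_mem_nhds (mem_interior_iff_mem_nhds.mp hxK), ?_⟩
  rw [hm _ e.open_source hi K hKN hK.isClosed.measurableSet]
  exact nuS_lt_top (hK.image hD.continuous)

/-- Proof. `nuS_pos` for the image of a small nonempty open subset. -/
theorem m_pos [MeasurableSpace E] [BorelSpace E] {D : E → SL} (hD : IsLocalHomeomorph D)
    {m : Measure E}
    (hm : ∀ N : Set E, IsOpen N → InjOn D N → ∀ A ⊆ N, MeasurableSet A → m A = nuS (D '' A))
    {Ω : Set E} (hΩ : IsOpen Ω) (hne : Ω.Nonempty) : 0 < m Ω := by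
  obtain ⟨x, hx⟩ := hne
  obtain ⟨e, hxe, he⟩ := hD x
  have hi : InjOn D e.source := by
    rw [he]
    exact e.injOn
  have ho : IsOpen (e.source ∩ Ω) := e.open_source.inter hΩ
  have h1 : m (e.source ∩ Ω) = nuS (D '' (e.source ∩ Ω)) :=
    hm _ e.open_source hi _ inter_subset_left ho.measurableSet
  have h2 : 0 < nuS (D '' (e.source ∩ Ω)) :=
    nuS_pos (hD.isOpenMap _ ho) ⟨D x, x, ⟨hxe, hx⟩, rfl⟩
  rw [← h1] at h2
  exact h2.trans_le (measure_mono inter_subset_right)

end HRK
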