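import Pool.Agent.HRK.CrdA

/-!
# HRK-VolC : the coordinates `Lam` preserve the measure; shears
-/

namespace HRK

open Set Filter Topology Matrix MeasureTheory

/-- the fibre map of `Lam` -/
noncomputable def volc_g (v : V) (q : ℂ × ℂ) : V := q.1 • wv0 v + q.2 • v

theorem volc_measurable_g : Measurable (Function.uncurry volc_g) := by
  have h1 : Measurable fun p : V × (ℂ × ℂ) => p.2.1 • wv0 p.1 :=
    (measurable_fst.comp measurable_snd).smul (measurable_w0.comp measurable_fst)
  have h2 : Measurable fun p : V × (ℂ × ℂ) => p.2.2 • p.1 :=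
    (measurable_snd.comp measurable_snd).smul measurable_fst
  exact h1.add h2

theorem volc_det {v : V} (hv : v ≠ 0) : (Cl (wv0 v, v)).det = -1 := by
  have h1 := det_Cl_Lam hv 1 0
  have h2 := det_Cl (Lam (v, ((1 : ℂ), (0 : ℂ))))
  rw [h1] at h2
  have h3 := det_Cl (wv0 v, v)
  rw [h3]
  simp only [Lam, one_smul, zero_smul, add_zero] at h2
  linear_combination h2

theorem volc_map_lin {v : V} (hv : v ≠ 0) :
    Measure.map ((Matrix.toLin' (Cl (wv0 v, v))).restrictScalars ℝ) (volume : Measure V) =
      volume := by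
  have hd : LinearMap.det ((Matrix.toLin' (Cl (wv0 v, v))).restrictScalars ℝ) = 1 := by
    rw [LinearMap.det_restrictScalars, LinearMap.det_toLin', volc_det hv,
      Algebra.norm_complex_apply, Complex.normSq_neg, Complex.normSq_one]
  rw [Measure.map_linearMap_addHaar_eq_smul_addHaar volume (by rw [hd]; exact one_ne_zero), hd]
  simp

theorem volc_map_g {v : V} (hv : v ≠ 0) :
    Measure.map (volc_g v) (volume : Measure (ℂ × ℂ)) = (volume : Measure V) := by
  have h1 : volc_g v = (fun x => ((Matrix.toLin' (Cl (wv0 v, v))).restrictScalars ℝ) x) ∘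
      (MeasurableEquiv.finTwoArrow (α := ℂ)).symm := by
    funext q
    show q.1 • wv0 v + q.2 • v = (Matrix.toLin' (Cl (wv0 v, v))) ![q.1, q.2]
    rw [Matrix.toLin'_apply]
    ext i
    fin_cases i <;> simp [Cl, Matrix.mulVec, dotProduct, Fin.sum_univ_two] <;> ring
  have hL : Measurable fun x : V => ((Matrix.toLin' (Cl (wv0 v, v))).restrictScalars ℝ) x :=
    (LinearMap.continuous_of_finiteDimensional _).measurable
  rw [h1, ← Measure.map_map hL (MeasurableEquiv.measurable _),
    (volume_preserving_finTwoArrow ℂ).symm.map_eq]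
  exact volc_map_lin hv

/-- Proof. `MeasurePreserving.skew_product` with `f = id` and `g v (s, b) = s wv0 v + b v`
(measurable: `measurable_w0`). For `v ≠ 0` the map `g v : ℂ × ℂ → V` is the composition of the
measure preserving equivalence `ℂ × ℂ ≃ (Fin 2 → ℂ)`
(`MeasureTheory.volume_preserving_finTwoArrow`, `MeasurableEquiv.finTwoArrow`) and of the linear
map with matrix columns `wv0 v, v`, of determinant `wv0₀ v₁ - wv0₁ v₀ = -1`, whose real determinant is
`|-1|² = 1` (`LinearMap.det_restrictScalars`, `Measure.map_linearMap_addHaar_eq_smul_addHaar`). The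
set `{v = 0}` has measure zero. -/
theorem measurePreserving_Lam : MeasurePreserving Lam volume volume := by
  have h1 : ∀ᵐ v : V ∂volume, Measure.map (volc_g v) (volume : Measure (ℂ × ℂ)) = volume := by
    have h0 : ({0} : Set V)ᶜ ∈ ae (volume : Measure V) :=
      compl_mem_ae_iff.mpr (measure_singleton (0 : V))
    filter_upwards [h0] with v hv
    exact volc_map_g hv
  exact MeasurePreserving.skew_product (MeasurePreserving.id (volume : Measure V))
    volc_measurable_g h1

theorem Lam_injOn : InjOn Lam {q : V × (ℂ × ℂ) | q.1 ≠ 0} := by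
  rintro ⟨v, s, b⟩ hv ⟨v', s', b'⟩ hv' h
  have h1 : v = v' := congrArg Prod.fst h
  subst h1
  have hv0 : v ≠ 0 := hv
  have h2 : s = s' := by
    rw [← det_Cl_Lam hv0 s b, ← det_Cl_Lam hv0 s' b', h]
  have h3 : b = b' := by
    rw [← bc_Lam hv0 s b, ← bc_Lam hv0 s' b']
    exact congrArg (fun p : V × V => bc v p.2) h
  rw [h2, h3]

/-- Proof. `eq_w0_add`. -/
theorem Lam_surj {p : V × V} (hp : p.1 ≠ 0) : Lam (p.1, ((Cl p).det, bc p.1 p.2)) = p := by
  have h := eq_w0_add hp p.2
  rw [← det_Cl p] at h
  exact Prod.ext rfl h.symm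

/-- the shear with scaling `(v, (s, b)) ↦ (l v, (s, b + h (v, s)))`. -/
noncomputable def shr (l : ℝ) (h : V × ℂ → ℂ) (q : V × (ℂ × ℂ)) : V × (ℂ × ℂ) :=
  ((l : ℂ) • q.1, (q.2.1, q.2.2 + h (q.1, q.2.1)))

/-- Proof. `shr l h` is bijective with the inverse `(v, (s, b)) ↦ (l⁻¹ v, (s, b - h (l⁻¹ v, s)))`,
both measurable, so the image is measurable. `shr 1 h` preserves the volume
(`MeasurePreserving.skew_product` over `V × ℂ`, after the associativity equivalence
`MeasurableEquiv.prodAssoc`, `volume_preserving_prodAssoc`; translations preserve the volume of `ℂ`).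
The scaling of `V = Fin 2 → ℂ` (real dimension `4`) by `l` multiplies the volume by `l ^ 4`
(`Measure.addHaar_image_linearMap` / `Measure.addHaar_smul`). -/
theorem volume_shr {l : ℝ} (hl : 0 < l) {h : V × ℂ → ℂ} (hh : Measurable h)
    {Y : Set (V × (ℂ × ℂ))} (hY : MeasurableSet Y) :
    MeasurableSet (shr l h '' Y) ∧ volume (shr l h '' Y) = ENNReal.ofReal (l ^ 4) * volume Y := by
  have hlc : (l : ℂ) ≠ 0 := by exact_mod_cast hl.ne'
  -- the inverse
  obtain ⟨F, hF⟩ : ∃ F : V × (ℂ × ℂ) → V × (ℂ × ℂ), F = fun q =>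
      ((l : ℂ)⁻¹ • q.1, (q.2.1, q.2.2 - h ((l : ℂ)⁻¹ • q.1, q.2.1))) := ⟨_, rfl⟩
  have hFm : Measurable F := by
    rw [hF]
    have h1 : Measurable fun q : V × (ℂ × ℂ) => (l : ℂ)⁻¹ • q.1 :=
      (measurable_const_smul ((l : ℂ)⁻¹)).comp measurable_fst
    have h2 : Measurable fun q : V × (ℂ × ℂ) => ((l : ℂ)⁻¹ • q.1, q.2.1) :=
      h1.prodMk (measurable_fst.comp measurable_snd)
    exact h1.prodMk ((measurable_fst.comp measurable_snd).prodMk
      ((measurable_snd.comp measurable_snd).sub (hh.comp h2)))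
  have hFl : ∀ q, F (shr l h q) = q := by
    rintro ⟨v, s, b⟩
    rw [hF, shr]
    simp only [smul_smul, inv_mul_cancel₀ hlc, one_smul, add_sub_cancel_right]
  have hFr : ∀ q, shr l h (F q) = q := by
    rintro ⟨v, s, b⟩
    rw [hF, shr]
    simp only [smul_smul, mul_inv_cancel₀ hlc, one_smul, sub_add_cancel]
  have himg : shr l h '' Y = F ⁻¹' Y := by
    ext q
    constructor
    · rintro ⟨q', hq', rfl⟩
      show F (shr l h q') ∈ Y
      rw [hFl]
      exact hq'
    · intro hq
      exact ⟨F q, hq, hFr q⟩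
  have hmeas : MeasurableSet (shr l h '' Y) := by
    rw [himg]
    exact hFm hY
  refine ⟨hmeas, ?_⟩
  -- `shr` pushes the volume to a multiple
  obtain ⟨c, hc⟩ : ∃ c : ENNReal, c = ENNReal.ofReal (l ^ 4)⁻¹ := ⟨_, rfl⟩
  have hscale : MeasurePreserving (fun v : V => (l : ℂ) • v) (volume : Measure V)
      (c • (volume : Measure V)) := by
    refine ⟨measurable_const_smul (l : ℂ), ?_⟩
    have h1 : (fun v : V => (l : ℂ) • v) = fun v : V => l • v := by
      funext v i
      simp
    rw [h1, Measure.map_addHaar_smul volume hl.ne', hc]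
    have h2 : Module.finrank ℝ V = 4 := by
      rw [Module.finrank_pi_fintype]
      simp [Complex.finrank_real_complex]
    rw [h2, abs_of_pos (inv_pos.mpr (pow_pos hl 4))]
  obtain ⟨g, hg⟩ : ∃ g : V → ℂ × ℂ → ℂ × ℂ, g = fun v q => (q.1, q.2 + h (v, q.1)) := ⟨_, rfl⟩
  have hgm : Measurable (Function.uncurry g) := by
    rw [hg]
    have h2 : Measurable fun q : V × (ℂ × ℂ) => (q.1, q.2.1) :=
      measurable_fst.prodMk (measurable_fst.comp measurable_snd)
    exact (measurable_fst.comp measurable_snd).prodMk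
      ((measurable_snd.comp measurable_snd).add (hh.comp h2))
  have hgv : ∀ v, Measure.map (g v) (volume : Measure (ℂ × ℂ)) = volume := by
    intro v
    rw [hg]
    have h3 : MeasurePreserving (fun q : ℂ × ℂ => (q.1, q.2 + h (v, q.1)))
        ((volume : Measure ℂ).prod volume) ((volume : Measure ℂ).prod volume) := by
      refine MeasurePreserving.skew_product (MeasurePreserving.id (volume : Measure ℂ))
        (g := fun s b => b + h (v, s)) ?_ ?_
      · exact measurable_snd.add (hh.comp (measurable_const.prodMk measurable_fst))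
      · exact Filter.Eventually.of_forall fun s => map_add_right_eq_self volume _
    exact h3.map_eq
  have hmp : MeasurePreserving (shr l h) (volume : Measure (V × (ℂ × ℂ)))
      (c • (volume : Measure (V × (ℂ × ℂ)))) := by
    have h4 := MeasurePreserving.skew_product hscale hgm
      (μd := (volume : Measure (ℂ × ℂ))) (μc := (volume : Measure (ℂ × ℂ)))
      (Filter.Eventually.of_forall hgv)
    rw [Measure.prod_smul_left] at h4
    have h5 : (fun p : V × (ℂ × ℂ) => ((l : ℂ) • p.1, g p.1 p.2)) = shr l h := by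
      rw [hg]
      rfl
    rw [h5] at h4
    exact h4
  have h6 := hmp.measure_preimage hmeas.nullMeasurableSet
  have h7 : shr l h ⁻¹' (shr l h '' Y) = Y :=
    Set.preimage_image_eq Y (fun a b hab => by rw [← hFl a, ← hFl b, hab])
  rw [h7, Measure.smul_apply, smul_eq_mul] at h6
  rw [h6, ← mul_assoc, hc, ← ENNReal.ofReal_mul (pow_pos hl 4).le,
    mul_inv_cancel₀ (pow_pos hl 4).ne', ENNReal.ofReal_one, one_mul]

/-- Proof. `Lam` is injective on `{q.1 ≠ 0}` (complement of a null set) with measurable inverse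
`p ↦ (p.1, (det, bc))`; `measurePreserving_Lam`. -/
theorem volume_image_Lam {Y : Set (V × (ℂ × ℂ))} (hY : MeasurableSet Y) (h0 : ∀ q ∈ Y, q.1 ≠ 0) :
    MeasurableSet (Lam '' Y) ∧ volume (Lam '' Y) = volume Y := by
  obtain ⟨F, hF⟩ : ∃ F : V × V → V × (ℂ × ℂ), F = fun p => (p.1, ((Cl p).det, bc p.1 p.2)) :=
    ⟨_, rfl⟩
  have hFm : Measurable F := by
    have h1 : Measurable fun p : V × V => (Cl p).det := by
      have : (fun p : V × V => (Cl p).det) =
          fun p : V × V => p.1 0 * p.2 1 - p.2 0 * p.1 1 := funext det_Cl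
      rw [this]
      exact (((measurable_pi_apply 0).comp measurable_fst).mul
        ((measurable_pi_apply 1).comp measurable_snd)).sub
        (((measurable_pi_apply 0).comp measurable_snd).mul
        ((measurable_pi_apply 1).comp measurable_fst))
    have h2 : Measurable fun p : V × V => bc p.1 p.2 := by
      unfold bc
      have hs : Measurable fun z : ℂ => star z := continuous_star.measurable
      have hn : Measurable fun p : V × V => ((nsq p.1 : ℝ) : ℂ) :=
        Complex.measurable_ofReal.comp (continuous_nsq.measurable.comp measurable_fst)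
      exact (((hs.comp ((measurable_pi_apply 0).comp measurable_fst)).mul
        ((measurable_pi_apply 0).comp measurable_snd)).add
        ((hs.comp ((measurable_pi_apply 1).comp measurable_fst)).mul
        ((measurable_pi_apply 1).comp measurable_snd))).div hn
    rw [hF]
    exact measurable_fst.prodMk (h1.prodMk h2)
  have himg : Lam '' Y = {p : V × V | p.1 ≠ 0} ∩ F ⁻¹' Y := by
    ext p
    constructor
    · rintro ⟨q, hq, rfl⟩
      have hq0 := h0 q hq
      refine ⟨hq0, ?_⟩
      have : F (Lam q) = q := by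
        apply Lam_injOn (show (F (Lam q)).1 ≠ 0 by rw [hF]; exact hq0) hq0
        rw [hF]
        exact Lam_surj (p := Lam q) hq0
      show F (Lam q) ∈ Y
      rw [this]
      exact hq
    · rintro ⟨hp, hpY⟩
      refine ⟨F p, hpY, ?_⟩
      rw [hF]
      exact Lam_surj hp
  have hmeas : MeasurableSet (Lam '' Y) := by
    rw [himg]
    refine MeasurableSet.inter ?_ (hFm hY)
    exact measurable_fst (measurableSet_singleton (0 : V)).compl
  refine ⟨hmeas, ?_⟩
  have h6 := measurePreserving_Lam.measure_preimage hmeas.nullMeasurableSet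
  have h7 : Lam ⁻¹' (Lam '' Y) = Y := by
    ext q
    constructor
    · rintro ⟨q', hq', hqq⟩
      have h8 : q'.1 = q.1 := by
        show (Lam q').1 = (Lam q).1
        rw [hqq]
      have h9 : q'.1 ≠ 0 := h0 q' hq'
      have h10 : q.1 ≠ 0 := by rw [← h8]; exact h9
      rw [← Lam_injOn h9 h10 hqq]
      exact hq'
    · intro hq
      exact ⟨q, hq, rfl⟩
  rw [h7] at h6
  exact h6.symm

end HRK
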