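import Pool.Agent.HRK.VolA
import Pool.Agent.HRK.VolC
import Pool.Agent.HRK.CrdB

/-!
# HRK-VolD2 : the flow `x ↦ x exp (τ T_{c(x)})` in a box scales `nuS` by `e^{2τ}`

By `Qc_mul_fl` (`λ = e^{τ/2}`) `f (Qc v b) = Qc (λ v) (λ⁻² C v - C v + b)
= Qc (λ v) (b - (1 - λ⁻²) C v)` for `v ∈ B1`, `b ∈ B2`. With `exp_smul_Qc` (and `Cl_injective`):
`cone B = Lam '' Y`, `Y = Lam ⁻¹' (cone B) ∩ {q | q.1 ≠ 0}
= {(v, (s, b)) | ∃ z, |z| < 1, s = e^{2z}, e^{-z} v ≠ 0, Qc (e^{-z} v) b ∈ B}` (measurable, since `Lam` is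
measurable) and `cone (f '' B) = Lam '' (shr λ h '' Y)`, where `h (v, s) = -(1 - λ⁻²) C (e^{-z} v)` for
`s = e^{2z}`, `|z| < 1`, `e^{-z} v ∈ B1`, and `h = 0` elsewhere. As `z = log s / 2` for `|z| < 1`
(`Complex.log_exp`, `|Im 2z| < 2 < π`), define
`h (v, s) = if s ∈ slitPlane ∧ ‖log s / 2‖ < 1 ∧ e^{-log s / 2} v ∈ B1 then -(1 - λ⁻²) C (e^{-log s/2} v) else 0`:
the condition defines an open set on which the formula is continuous: `h` is measurable.
Measurability of `f '' B`: `f '' B = Qc`-image of the measurable image of `vb '' B` under the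
(measurable, injective) map `(v, b) ↦ (λ v, b - (1 - λ⁻²) C v)` on `B1 ×ˢ univ`, with measurable inverse; or:
`f '' B = {x | (vb x).1 ∈ λ B1, and x * fl (-τ) (c' x) ∈ B}` with `c' x = C (λ⁻¹ (vb x).1) - (the b-coordinate of
the preimage)`; in coordinates the inverse is `(v, b) ↦ (λ⁻¹ v, b + (1 - λ⁻²) C (λ⁻¹ v))`.
Conclude with `nuS_apply`, `volume_image_Lam`, `volume_shr` (`λ ^ 4 = e^{2τ}`).
-/

namespace HRK

open Set Filter Topology Matrix MeasureTheory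

theorem vold2_meas_Qc : Measurable (fun p : V × ℂ => Qc p.1 p.2) := by
  classical
  have hopen : IsOpen {p : V × ℂ | p.1 ≠ 0} :=
    isOpen_ne.preimage continuous_fst
  have h1 : (fun p : V × ℂ => Qc p.1 p.2) =
      {p : V × ℂ | p.1 ≠ 0}.piecewise (fun p => Qc p.1 p.2) (fun _ => 1) := by
    funext p
    by_cases hp : p ∈ {p : V × ℂ | p.1 ≠ 0}
    · rw [Set.piecewise_eq_of_mem _ _ _ hp]
    · rw [Set.piecewise_eq_of_notMem _ _ _ hp]
      have hp' : p.1 = 0 := by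
        by_contra h
        exact hp h
      unfold Qc
      rw [dif_neg]
      rw [det_Cl, hp']
      simp
  rw [h1]
  exact continuousOn_Qc.measurable_piecewise continuousOn_const hopen.measurableSet

theorem vold2_meas_ind {B1 : Set V} {C : V → ℂ} (h1 : IsOpen B1) (hC : ContinuousOn C B1) :
    Measurable (B1.indicator C) := by
  classical
  rw [← Set.piecewise_eq_indicator]
  exact hC.measurable_piecewise continuousOn_const h1.measurableSet

theorem vold2_flow {B1 : Set V} {B2 : Set ℂ} {C : V → ℂ}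
    (h0 : (0 : V) ∉ B1) {c : SL → ℂ}
    (hc : ∀ v ∈ B1, ∀ b ∈ B2, c (Qc v b) = C v - b) (τ : ℝ) {v : V} {b : ℂ} (hv : v ∈ B1)
    (hb : b ∈ B2) : Qc v b * fl τ (c (Qc v b)) = Qc (((Real.exp (τ / 2) : ℝ) : ℂ) • v)
      (b - (1 - ((Real.exp (-τ) : ℝ) : ℂ)) * C v) := by
  have hv0 : v ≠ 0 := by
    rintro rfl
    exact h0 hv
  rw [Qc_mul_fl hv0, hc v hv b hb]
  congr 1
  ring

/-- a point of the cone in the coordinates `Lam`. -/
theorem vold2_cone {p : V × V} {x : SL} {z : ℂ} (h : Cl p = Complex.exp z • (x : M2)) :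
    p = Lam (Complex.exp z • (vb x).1, (Complex.exp (2 * z), (vb x).2)) := by
  apply Cl_injective
  have hx : (vb x).1 ≠ 0 := col_ne_zero x
  rw [h, ← exp_smul_Qc hx, Qc_vb]

theorem vold2_cone' {x : SL} {z : ℂ} :
    Cl (Lam (Complex.exp z • (vb x).1, (Complex.exp (2 * z), (vb x).2))) =
      Complex.exp z • (x : M2) := by
  have hx : (vb x).1 ≠ 0 := col_ne_zero x
  rw [← exp_smul_Qc hx, Qc_vb]

theorem vold2_kap {v : V} (hv : v ≠ 0) {z : ℂ} (hz : ‖z‖ < 1) :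
    (vb (kap (Lam (Complex.exp z • v, (Complex.exp (2 * z), 0))))).1 = v := by
  have h1 : kap (Lam (Complex.exp z • v, (Complex.exp (2 * z), 0))) = Qc v 0 := by
    refine kap_eq hz ?_
    rw [exp_smul_Qc hv]
  rw [h1, vb_Qc hv]

theorem vold2_exp_smul_ne {v : V} (hv : v ≠ 0) (z : ℂ) : Complex.exp z • v ≠ 0 :=
  smul_ne_zero (Complex.exp_ne_zero z) hv

theorem vold2_cone_eq {B : Set SL} :
    cone B = Lam '' (Lam ⁻¹' (cone B) ∩ {q : V × (ℂ × ℂ) | q.1 ≠ 0}) := by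
  apply Set.Subset.antisymm
  · intro p hp
    obtain ⟨x, hx, z, hz, h⟩ := hp
    have h1 := vold2_cone h
    refine ⟨(Complex.exp z • (vb x).1, (Complex.exp (2 * z), (vb x).2)), ⟨?_, ?_⟩, h1.symm⟩
    · exact ⟨x, hx, z, hz, vold2_cone'⟩
    · exact vold2_exp_smul_ne (col_ne_zero x) z
  · rintro p ⟨q, ⟨hq, -⟩, rfl⟩
    exact hq

/-- the flow in a box. -/
theorem nuS_box {B1 : Set V} {B2 : Set ℂ} {C : V → ℂ} (h1 : IsOpen B1) (h2 : IsOpen B2)
    (h0 : (0 : V) ∉ B1) (hC : ContinuousOn C B1) {c : SL → ℂ}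
    (hc : ∀ v ∈ B1, ∀ b ∈ B2, c (Qc v b) = C v - b) (τ : ℝ) {B : Set SL} (hB : MeasurableSet B)
    (hBO : ∀ x ∈ B, (vb x).1 ∈ B1 ∧ (vb x).2 ∈ B2) :
    MeasurableSet ((fun x : SL => x * fl τ (c x)) '' B) ∧
      nuS ((fun x : SL => x * fl τ (c x)) '' B) = ENNReal.ofReal (Real.exp (2 * τ)) * nuS B := by
  have hl : (0 : ℝ) < Real.exp (τ / 2) := Real.exp_pos _
  have hlc : ((Real.exp (τ / 2) : ℝ) : ℂ) ≠ 0 := Complex.ofReal_ne_zero.mpr hl.ne'
  have hCt := vold2_meas_ind h1 hC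
  have hflow : ∀ x ∈ B, x * fl τ (c x) = Qc (((Real.exp (τ / 2) : ℝ) : ℂ) • (vb x).1)
      ((vb x).2 - (1 - ((Real.exp (-τ) : ℝ) : ℂ)) * C (vb x).1) := by
    intro x hx
    obtain ⟨hx1, hx2⟩ := hBO x hx
    have h3 := vold2_flow h0 hc τ hx1 hx2
    rw [Qc_vb] at h3
    exact h3
  -- measurability
  have himg : (fun x : SL => x * fl τ (c x)) '' B =
      (fun y : SL => Qc ((((Real.exp (τ / 2) : ℝ) : ℂ))⁻¹ • (vb y).1)
        ((vb y).2 + (1 - ((Real.exp (-τ) : ℝ) : ℂ)) *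
          B1.indicator C ((((Real.exp (τ / 2) : ℝ) : ℂ))⁻¹ • (vb y).1))) ⁻¹' B := by
    apply Set.Subset.antisymm
    · rintro y ⟨x, hx, rfl⟩
      have hx0 : (vb x).1 ≠ 0 := col_ne_zero x
      have h3 : vb (x * fl τ (c x)) = (((Real.exp (τ / 2) : ℝ) : ℂ) • (vb x).1,
          (vb x).2 - (1 - ((Real.exp (-τ) : ℝ) : ℂ)) * C (vb x).1) := by
        rw [hflow x hx]
        exact vb_Qc (smul_ne_zero hlc hx0) _
      show Qc _ _ ∈ B
      simp only [h3]
      rw [smul_smul, inv_mul_cancel₀ hlc, one_smul, Set.indicator_of_mem (hBO x hx).1,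
        sub_add_cancel, Qc_vb]
      exact hx
    · intro y hy
      have hy0 : (vb y).1 ≠ 0 := col_ne_zero y
      have hv0 : (((Real.exp (τ / 2) : ℝ) : ℂ))⁻¹ • (vb y).1 ≠ 0 :=
        smul_ne_zero (inv_ne_zero hlc) hy0
      refine ⟨_, hy, ?_⟩
      show _ * fl τ (c _) = y
      rw [hflow _ hy, vb_Qc hv0]
      have h4 := (hBO _ hy).1
      rw [vb_Qc hv0] at h4
      simp only
      rw [Set.indicator_of_mem h4, add_sub_cancel_right, smul_smul, mul_inv_cancel₀ hlc, one_smul,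
        Qc_vb]
  have hmeas : MeasurableSet ((fun x : SL => x * fl τ (c x)) '' B) := by
    rw [himg]
    have hvb : Measurable vb := continuous_vb.measurable
    have hv1 : Measurable fun y : SL => (((Real.exp (τ / 2) : ℝ) : ℂ))⁻¹ • (vb y).1 :=
      (measurable_fst.comp hvb).const_smul (((Real.exp (τ / 2) : ℝ) : ℂ))⁻¹
    have hv2 : Measurable fun y : SL => (vb y).2 + (1 - ((Real.exp (-τ) : ℝ) : ℂ)) *
          B1.indicator C ((((Real.exp (τ / 2) : ℝ) : ℂ))⁻¹ • (vb y).1) :=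
      (measurable_snd.comp hvb).add ((hCt.comp hv1).const_mul _)
    exact (vold2_meas_Qc.comp (hv1.prodMk hv2)) hB
  refine ⟨hmeas, ?_⟩
  -- the volume
  have hLam : Measurable Lam := measurePreserving_Lam.measurable
  have hh : Measurable fun p : V × ℂ => -((1 - ((Real.exp (-τ) : ℝ) : ℂ)) *
      B1.indicator C (vb (kap (Lam (p.1, (p.2, 0))))).1) := by
    have h5 : Measurable fun p : V × ℂ => Lam (p.1, (p.2, (0 : ℂ))) :=
      hLam.comp (measurable_fst.prodMk (measurable_snd.prodMk measurable_const))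
    have h6 : Measurable fun p : V × ℂ => (vb (kap (Lam (p.1, (p.2, 0))))).1 :=
      measurable_fst.comp (continuous_vb.measurable.comp (measurable_kap.comp h5))
    exact ((hCt.comp h6).const_mul _).neg
  have hopen : IsOpen {q : V × (ℂ × ℂ) | q.1 ≠ 0} := isOpen_ne.preimage continuous_fst
  have hY : MeasurableSet (Lam ⁻¹' (cone B) ∩ {q : V × (ℂ × ℂ) | q.1 ≠ 0}) :=
    (hLam (measurableSet_cone hB)).inter hopen.measurableSet
  have hhval : ∀ x ∈ B, ∀ z : ℂ, ‖z‖ < 1 →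
      shr (Real.exp (τ / 2)) (fun p : V × ℂ => -((1 - ((Real.exp (-τ) : ℝ) : ℂ)) *
        B1.indicator C (vb (kap (Lam (p.1, (p.2, 0))))).1))
        (Complex.exp z • (vb x).1, (Complex.exp (2 * z), (vb x).2)) =
      (Complex.exp z • (vb (x * fl τ (c x))).1,
        (Complex.exp (2 * z), (vb (x * fl τ (c x))).2)) := by
    intro x hx z hz
    have hx0 : (vb x).1 ≠ 0 := col_ne_zero x
    have h3 : vb (x * fl τ (c x)) = (((Real.exp (τ / 2) : ℝ) : ℂ) • (vb x).1,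
        (vb x).2 - (1 - ((Real.exp (-τ) : ℝ) : ℂ)) * C (vb x).1) := by
      rw [hflow x hx]
      exact vb_Qc (smul_ne_zero hlc hx0) _
    unfold shr
    simp only [h3]
    rw [vold2_kap hx0 hz, Set.indicator_of_mem (hBO x hx).1, smul_comm, ← sub_eq_add_neg]
  have hcone : cone ((fun x : SL => x * fl τ (c x)) '' B) =
      Lam '' (shr (Real.exp (τ / 2)) (fun p : V × ℂ => -((1 - ((Real.exp (-τ) : ℝ) : ℂ)) *
        B1.indicator C (vb (kap (Lam (p.1, (p.2, 0))))).1)) ''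
        (Lam ⁻¹' (cone B) ∩ {q : V × (ℂ × ℂ) | q.1 ≠ 0})) := by
    apply Set.Subset.antisymm
    · rintro p ⟨y, ⟨x, hx, rfl⟩, z, hz, hp⟩
      have h4 := vold2_cone hp
      rw [h4]
      refine ⟨_, ⟨(Complex.exp z • (vb x).1, (Complex.exp (2 * z), (vb x).2)), ⟨?_, ?_⟩, rfl⟩, ?_⟩
      · exact ⟨x, hx, z, hz, vold2_cone'⟩
      · exact vold2_exp_smul_ne (col_ne_zero x) z
      · rw [hhval x hx z hz]
    · rintro p ⟨q', ⟨q, ⟨⟨x, hx, z, hz, hq⟩, hq0⟩, rfl⟩, rfl⟩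
      have h4 := vold2_cone hq
      have h5 : q = (Complex.exp z • (vb x).1, (Complex.exp (2 * z), (vb x).2)) :=
        Lam_injOn hq0 (vold2_exp_smul_ne (col_ne_zero x) z) h4
      rw [h5, hhval x hx z hz]
      exact ⟨x * fl τ (c x), ⟨x, hx, rfl⟩, z, hz, vold2_cone'⟩
  have hvol := volume_shr hl hh hY
  have hne : ∀ q ∈ shr (Real.exp (τ / 2)) (fun p : V × ℂ => -((1 - ((Real.exp (-τ) : ℝ) : ℂ)) *
        B1.indicator C (vb (kap (Lam (p.1, (p.2, 0))))).1)) ''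
        (Lam ⁻¹' (cone B) ∩ {q : V × (ℂ × ℂ) | q.1 ≠ 0}), q.1 ≠ 0 := by
    rintro q ⟨q', ⟨-, hq'⟩, rfl⟩
    exact smul_ne_zero hlc hq'
  have hl4 : Real.exp (τ / 2) ^ 4 = Real.exp (2 * τ) := by
    rw [← Real.exp_nat_mul]
    congr 1
    push_cast
    ring
  rw [nuS_apply hmeas, nuS_apply hB, hcone, (volume_image_Lam hvol.1 hne).2, hvol.2, hl4]
  conv_rhs => rw [vold2_cone_eq]
  rw [(volume_image_Lam hY (fun q hq => hq.2)).2]

end HRK
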