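import Pool.Agent.HRK.VolD1
import Pool.Agent.HRK.VolD2

/-!
# HRK-VolD : the flow `x ↦ x exp (τ T_{c(x)})` scales `nuS` by `e^{2τ}`

`exists_box` (VolD1) and `nuS_box` (VolD2), `O' = {x | (vb x).1 ∈ B1 ∧ (vb x).2 ∈ B2}` (open:
`continuous_vb`; `x = Qc (vb x).1 (vb x).2 ∈ O` by `Qc_vb`). Injectivity on `O'`: by `Qc_mul_fl`
`f (Qc v b) = Qc (λ v) (b - (1 - λ⁻²) C v)`, `vb_Qc`.
-/

namespace HRK

open Set Filter Topology Matrix MeasureTheory

theorem nuS_scale {O : Set SL} (hO : IsOpen O) {x0 : SL} (hx0 : x0 ∈ O) {c : SL → ℂ}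
    (hc : ContinuousOn c O)
    (hcu : ∀ x ∈ O, ∀ b : ℂ, x * uni b e1 ∈ O → c (x * uni b e1) = c x - b) (τ : ℝ) :
    ∃ O' ⊆ O, IsOpen O' ∧ x0 ∈ O' ∧ InjOn (fun x : SL => x * fl τ (c x)) O' ∧
      ∀ B ⊆ O', MeasurableSet B → MeasurableSet ((fun x : SL => x * fl τ (c x)) '' B) ∧
        nuS ((fun x : SL => x * fl τ (c x)) '' B) =
          ENNReal.ofReal (Real.exp (2 * τ)) * nuS B := by
  obtain ⟨B1, B2, C, h1, h2, h0, hx1, hx2, hC, hbox⟩ := exists_box hO hx0 hc hcu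
  have hne : ∀ v ∈ B1, v ≠ 0 := by
    intro v hv h
    rw [h] at hv
    exact h0 hv
  refine ⟨{x | (vb x).1 ∈ B1 ∧ (vb x).2 ∈ B2}, ?_, ?_, ⟨hx1, hx2⟩, ?_, ?_⟩
  · rintro x ⟨hx, hx'⟩
    have h3 := (hbox _ hx _ hx').1
    rw [Qc_vb] at h3
    exact h3
  · exact (h1.preimage (continuous_fst.comp continuous_vb)).inter
      (h2.preimage (continuous_snd.comp continuous_vb))
  · have hval : ∀ x : SL, (vb x).1 ∈ B1 → (vb x).2 ∈ B2 → x * fl τ (c x) =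
        Qc (((Real.exp (τ / 2) : ℝ) : ℂ) • (vb x).1)
          (((Real.exp (-τ) : ℝ) : ℂ) * C (vb x).1 - (C (vb x).1 - (vb x).2)) := by
      intro x hx hx'
      have h3 := (hbox _ hx _ hx').2
      rw [Qc_vb] at h3
      have h4 := Qc_mul_fl (hne _ hx) (vb x).2 (C (vb x).1 - (vb x).2) τ
      rw [Qc_vb, add_sub_cancel] at h4
      rw [h3]
      exact h4
    have hl : ((Real.exp (τ / 2) : ℝ) : ℂ) ≠ 0 :=
      Complex.ofReal_ne_zero.mpr (Real.exp_pos _).ne'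
    rintro x ⟨hx, hx'⟩ y ⟨hy, hy'⟩ hxy
    change x * fl τ (c x) = y * fl τ (c y) at hxy
    rw [hval x hx hx', hval y hy hy'] at hxy
    have h5 := congrArg vb hxy
    rw [vb_Qc (smul_ne_zero hl (hne _ hx)), vb_Qc (smul_ne_zero hl (hne _ hy)), Prod.mk.injEq] at h5
    obtain ⟨h6, h7⟩ := h5
    have h8 : (vb x).1 = (vb y).1 := smul_right_injective V hl h6
    rw [h8] at h7
    have h9 : (vb x).2 = (vb y).2 := by linear_combination h7
    rw [← Qc_vb x, ← Qc_vb y, h8, h9]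
  · intro B hB hBm
    exact nuS_box h1 h2 h0 hC (fun v hv b hb => (hbox v hv b hb).2) τ hBm (fun x hx => hB hx)

end HRK
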