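import Pool.Agent.HRK.VolB
import Pool.Agent.HRK.VolD
import Pool.Agent.HRK.VolF

/-!
# HRK-VolH3 : the flow scales the measure of `E` locally
-/

namespace HRK

open Set Filter Topology Matrix MeasureTheory

variable {E : Type*} [TopologicalSpace E] [T2Space E]

/-- Local scaling. Proof. Shrink `N` so that `D` is injective on `N` and on an open set containing
`Φ '' N` (`Φ` continuous at `y₀`). Let `σ : SL → E` be the inverse of `D` on `D '' N`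
(`D '' N` is open). Put `x' = x k₀⁻¹`: `c' x' = c (σ (x' k₀))` on the open set `O = (D '' N) k₀⁻¹`;
`x' * uni b e1 ∈ O` means `x' uni b e1 k₀ = D y'` with `y' ∈ N`,
`D y' = D y * (k₀⁻¹ uni b e1 k₀)`, so `c' (x' * uni b e1) = c' x' - b`. `nuS_scale` gives `O'`;
`N' = N ∩ D⁻¹ (O' k₀)`. For Borel `A ⊆ N'`: `D '' (Φ '' A) = (f '' (D '' A k₀⁻¹)) k₀` with
`f x' = x' fl τ (c' x')`, so with `nuS_image_mul` (right multiplications by `k₀`, `k₀⁻¹`)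
`m (Φ '' A) = nuS (D '' (Φ '' A)) = e^{2τ} nuS (D '' A) = e^{2τ} m A`. `Φ '' A` is Borel:
`Φ '' A = Ω ∩ Ψ⁻¹ A`-type argument (`Ψ` continuous on the open set `Ω`, `Φ '' A = {y ∈ Ω | Ψ y ∈ A}`). -/
theorem flow_scale [MeasurableSpace E] [BorelSpace E] {D : E → SL} (hD : IsLocalHomeomorph D)
    {m : Measure E}
    (hm : ∀ N : Set E, IsOpen N → InjOn D N → ∀ A ⊆ N, MeasurableSet A → m A = nuS (D '' A))
    {Ω : Set E} (hΩ : IsOpen Ω) {Φ Ψ : E → E} (hΦ : MapsTo Φ Ω Ω) (hΨ : MapsTo Ψ Ω Ω)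
    (h1 : ∀ y ∈ Ω, Ψ (Φ y) = y) (h2 : ∀ y ∈ Ω, Φ (Ψ y) = y) (hΦc : ContinuousOn Φ Ω)
    (hΨc : ContinuousOn Ψ Ω) (τ : ℝ) {y0 : E} (hy0 : y0 ∈ Ω) {k0 : SL} {c : E → ℂ} {N : Set E}
    (hN : IsOpen N) (hyN : y0 ∈ N) (hNΩ : N ⊆ Ω) (hcN : ContinuousOn c N)
    (hDΦ : ∀ y ∈ N, D (Φ y) = D y * (k0⁻¹ * fl τ (c y) * k0))
    (hcb : ∀ y ∈ N, ∀ y' ∈ N, ∀ b : ℂ, D y' = D y * (k0⁻¹ * uni b e1 * k0) → c y' = c y - b) :
    ∃ N' : Set E, IsOpen N' ∧ y0 ∈ N' ∧ ∀ A ⊆ N', MeasurableSet A → A ⊆ Ω →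
      MeasurableSet (Φ '' A) ∧ m (Φ '' A) = ENNReal.ofReal (Real.exp (2 * τ)) * m A := by
  obtain ⟨U, hUo, hyU, hUi⟩ := hD.isLocallyInjective (Φ y0)
  obtain ⟨W, hWo, hyW, hWi⟩ := hD.isLocallyInjective y0
  set N1 : Set E := (N ∩ W) ∩ (Ω ∩ Φ ⁻¹' U) with hN1
  have hN1o : IsOpen N1 := (hN.inter hWo).inter (hΦc.isOpen_inter_preimage hΩ hUo)
  have hyN1 : y0 ∈ N1 := ⟨⟨hyN, hyW⟩, hy0, hyU⟩
  have hN1i : InjOn D N1 := hWi.mono fun y hy => hy.1.2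
  have hN1N : N1 ⊆ N := fun y hy => hy.1.1
  have hDN1 : IsOpen (D '' N1) := hD.isOpenMap _ hN1o
  have hmulc : ∀ k : SL, Continuous fun x : SL => x * k := fun k => continuous_mul_const k
  have : Nonempty E := ⟨y0⟩
  set σ : SL → E := Function.invFunOn D N1 with hσ
  have hσl : ∀ y ∈ N1, σ (D y) = y := fun y hy => hN1i.leftInvOn_invFunOn hy
  have hσm : ∀ x ∈ D '' N1, σ x ∈ N1 := fun x hx => Function.invFunOn_mem hx
  have hσr : ∀ x ∈ D '' N1, D (σ x) = x := fun x hx => Function.invFunOn_eq hx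
  have hσc : ContinuousOn σ (D '' N1) :=
    (hD.isOpenMap.domRestrict hN1o).continuousOn_image_of_leftInvOn hσl
  set O : Set SL := (fun x : SL => x * k0) ⁻¹' (D '' N1) with hO
  have hOo : IsOpen O := hDN1.preimage (hmulc k0)
  have hx0 : D y0 * k0⁻¹ ∈ O := by
    show D y0 * k0⁻¹ * k0 ∈ D '' N1
    rw [inv_mul_cancel_right]
    exact ⟨y0, hyN1, rfl⟩
  set c' : SL → ℂ := fun x => c (σ (x * k0)) with hc'
  have hcc : ContinuousOn c' O := by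
    refine (hcN.mono hN1N).comp (hσc.comp (hmulc k0).continuousOn fun x hx => hx) ?_
    intro x hx
    exact hσm _ hx
  have hcu : ∀ x ∈ O, ∀ b : ℂ, x * uni b e1 ∈ O → c' (x * uni b e1) = c' x - b := by
    intro x hx b hxb
    refine hcb _ (hN1N (hσm _ hx)) _ (hN1N (hσm _ hxb)) b ?_
    rw [hσr _ hxb, hσr _ hx]
    group
  obtain ⟨O', hO'O, hO'o, hx0', -, hO'⟩ := nuS_scale hOo hx0 hcc hcu τ
  have hDc : Continuous D := hD.continuous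
  refine ⟨N1 ∩ (fun y => D y * k0⁻¹) ⁻¹' O', hN1o.inter (hO'o.preimage ((hmulc _).comp hDc)),
    ⟨hyN1, hx0'⟩, ?_⟩
  intro A hA hAm hAΩ
  have hAN1 : A ⊆ N1 := fun y hy => (hA hy).1
  have hmeas : MeasurableSet (Φ '' A) := by
    have e : Φ '' A = (Subtype.val : Ω → E) '' ((fun y : Ω => Ψ y) ⁻¹' A) := by
      ext y
      constructor
      · rintro ⟨z, hz, rfl⟩
        refine ⟨⟨Φ z, hΦ (hAΩ hz)⟩, ?_, rfl⟩
        show Ψ (Φ z) ∈ A
        rw [h1 z (hAΩ hz)]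
        exact hz
      · rintro ⟨⟨z, hzΩ⟩, hz, rfl⟩
        exact ⟨Ψ z, hz, h2 z hzΩ⟩
    rw [e]
    refine MeasurableSet.subtype_image hΩ.measurableSet ?_
    exact (continuousOn_iff_continuous_domRestrict.1 hΨc).measurable hAm
  refine ⟨hmeas, ?_⟩
  have hDAm : MeasurableSet (D '' A) := measurableSet_image hD hN1o hN1i hAN1 hAm
  have hDA := nuS_image_mul 1 k0⁻¹ hDAm
  set B : Set SL := (fun x : SL => 1 * x * k0⁻¹) '' (D '' A) with hB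
  have hBO : B ⊆ O' := by
    rintro _ ⟨_, ⟨y, hy, rfl⟩, rfl⟩
    show 1 * D y * k0⁻¹ ∈ O'
    rw [one_mul]
    exact (hA hy).2
  have hfB := hO' B hBO hDA.1
  have hfB2 := nuS_image_mul 1 k0 hfB.1
  have himg : D '' (Φ '' A) = (fun x : SL => 1 * x * k0) ''
      ((fun x : SL => x * fl τ (c' x)) '' B) := by
    rw [hB]
    simp only [image_image]
    refine image_congr fun y hy => ?_
    have hy1 := hAN1 hy
    rw [hDΦ y (hN1N hy1)]
    have e2 : c' (1 * D y * k0⁻¹) = c y := by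
      show c (σ (1 * D y * k0⁻¹ * k0)) = c y
      rw [inv_mul_cancel_right, one_mul, hσl y hy1]
    rw [e2]
    group
  have hU : Φ '' A ⊆ U := by
    rintro _ ⟨y, hy, rfl⟩
    exact (hAN1 hy).2.2
  rw [hm U hUo hUi _ hU hmeas, himg, hfB2.2, hfB.2, hDA.2, hm N1 hN1o hN1i A hAN1 hAm]

end HRK
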