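import Pool.Agent.HRK.VolG1
import Pool.Agent.HRK.VolG2
import Pool.Agent.HRK.VolH1
import Pool.Agent.HRK.VolH2
import Pool.Agent.HRK.VolH3

/-!
# HRK-VolH : the volume lemma

`Ω ⊆ E` is open, nonempty and invariant, `Φ : Ω → Ω` a homeomorphism with inverse `Ψ` commuting
with the group, which locally is `D (Φ y) = D y * (k₀⁻¹ exp (τ T_{c(y)}) k₀)` with `c` continuous,
`c (y') = c y - b` when `D y' = D y * (k₀⁻¹ (1 + b E₁₂) k₀)`. Impossible for `τ > 0`.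
-/

namespace HRK

open Set Filter Topology Matrix MeasureTheory

variable {Γ E : Type*} [Group Γ] [TopologicalSpace E] [T2Space E] [MulAction Γ E]

/-- THE VOLUME LEMMA. -/
theorem END_flow [ConnectedSpace E] (S : Dev Γ E) (Ω : Set E) (hΩ : IsOpen Ω) (hne : Ω.Nonempty)
    (hinv : ∀ (γ : Γ), ∀ y ∈ Ω, γ • y ∈ Ω) (Φ Ψ : E → E) (hΦ : MapsTo Φ Ω Ω)
    (hΨ : MapsTo Ψ Ω Ω) (h1 : ∀ y ∈ Ω, Ψ (Φ y) = y) (h2 : ∀ y ∈ Ω, Φ (Ψ y) = y)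
    (hΦc : ContinuousOn Φ Ω) (hΨc : ContinuousOn Ψ Ω)
    (hcomm : ∀ (γ : Γ), ∀ y ∈ Ω, Φ (γ • y) = γ • Φ y) (τ : ℝ) (hτ : 0 < τ)
    (hloc : ∀ y0 ∈ Ω, ∃ (k0 : SL) (c : E → ℂ) (N : Set E), IsOpen N ∧ y0 ∈ N ∧ N ⊆ Ω ∧
      ContinuousOn c N ∧ (∀ y ∈ N, S.D (Φ y) = S.D y * (k0⁻¹ * fl τ (c y) * k0)) ∧
      ∀ y ∈ N, ∀ y' ∈ N, ∀ b : ℂ, S.D y' = S.D y * (k0⁻¹ * uni b e1 * k0) → c y' = c y - b) :
    False := by
  haveI := S.countable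
  haveI := S.secondCountable
  letI : MeasurableSpace E := borel E
  haveI : BorelSpace E := ⟨rfl⟩
  obtain ⟨m, hm⟩ := exists_pullback S.hD nuS
  obtain ⟨F, C, hF, hC, hFC, hFc, hFd⟩ := S.exists_fd
  refine volume_contra S.cont m (fun γ A hA => m_invariant S hm γ A hA) hF
    (lt_of_le_of_lt (measure_mono hFC) (m_lt_top S.hD hm hC)) hFc hFd hΩ.measurableSet
    (m_pos S.hD hm hΩ hne) hinv hΦ hΨ h1 h2 hcomm (q := ENNReal.ofReal (Real.exp (2 * τ))) ?_ ?_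
  · rw [ENNReal.one_lt_ofReal]
    exact Real.one_lt_exp_iff.mpr (by positivity)
  · refine scale_of_local hΩ (fun x hx y hy hxy => by rw [← h1 x hx, ← h1 y hy, hxy]) ?_
    intro y hy
    obtain ⟨k0, c, N, hN, hyN, hNΩ, hcN, hDΦ, hcb⟩ := hloc y hy
    exact flow_scale S.hD hm hΩ hΦ hΨ h1 h2 hΦc hΨc τ hy hN hyN hNΩ hcN hDΦ hcb

end HRK
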