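import Pool.Agent.HRK.Q18
import Pool.Agent.HRK.VolH
import Pool.Agent.HRK.Q14

/-!
# HRK-Q19 : case A is impossible
-/

namespace HRK

open Set Filter Topology Matrix

universe u

variable {E : Type u} [TopologicalSpace E]

/-- **Case A.** `Ω₀ = ∅`. -/
theorem caseA {Γ : Type*} [Group Γ] [MulAction Γ E] [T2Space E] [ConnectedSpace E] {r0 L : ℝ}
    (S : Dev Γ E) (hc : Cst r0 L) (G : Geo E r0 L) (hG : G.D = S.D)
    (hJ : ∀ (γ : Γ) (y : E), G.J (γ • y) = fcj (S.B γ) (G.J y))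
    (hne : ∃ y ψ, 0 < eD G.D y ψ) (y : E) : ∃ a, Sig G.D y a := by
  by_contra hcon
  have hy : y ∈ Om0 G.D := fun a ha => hcon ⟨a, ha⟩
  obtain ⟨c, C, hV⟩ := vis_package.{u} hc
  obtain ⟨ρ, hρ, hF⟩ := Fl_facts hc hV G hne
  have hτ : |ρ / 2| < ρ := by rw [abs_of_pos (by positivity)]; linarith
  have hτ' : |(-(ρ / 2))| < ρ := by rw [abs_neg]; exact hτ
  have h2 := hF (ρ / 2) hτ
  have h2' := hF (-(ρ / 2)) hτ'
  refine END_flow S (Om0 G.D) (isOpen_Om0 hc G hne) ⟨y, hy⟩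
    (fun γ z hz => Om0_smul S G hG γ hz) (Fl G c C (ρ / 2)) (Fl G c C (-(ρ / 2)))
    (fun z hz => (h2 z hz).2.2.1) (fun z hz => (h2' z hz).2.2.1)
    (fun z hz => (h2 z hz).2.2.2.2.2) (fun z hz => ?_)
    (continuousOn_Fl hc hV G hne fun z hz => ⟨(h2 z hz).1, (h2 z hz).2.1⟩)
    (continuousOn_Fl hc hV G hne fun z hz => ⟨(h2' z hz).1, (h2' z hz).2.1⟩)
    (fun γ z hz => Fl_smul S hc hV G hG hJ hne γ hz _) (ρ / 2) (by positivity) ?_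
  · have h := (h2' z hz).2.2.2.2.2
    rwa [neg_neg] at h
  · intro z hz
    obtain ⟨k0, cc, N, h1, h3, h4, h5, h6, h7⟩ :=
      Fl_local hc hV G hne (τ := ρ / 2) (fun w hw => (h2 w hw).2.2.2.2.1) hz
    refine ⟨k0, cc, N, h1, h3, h4, h5, ?_, ?_⟩
    · intro w hw
      rw [← hG]
      exact h6 w hw
    · intro w hw w' hw' b hb
      rw [← hG] at hb
      exact h7 w hw w' hw' b hb

/-- **Sections 8 - 11.** -/
theorem free_alternative {Γ : Type*} [Group Γ] [MulAction Γ E] [T2Space E] [ConnectedSpace E]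
    {r0 L : ℝ} (S : Dev Γ E) (hc : Cst r0 L) (G : Geo E r0 L) (hG : G.D = S.D)
    (hJ : ∀ (γ : Γ) (y : E), G.J (γ • y) = fcj (S.B γ) (G.J y))
    (hne : ∃ y ψ, 0 < eD G.D y ψ) :
    (∃ a : V, a ≠ 0 ∧ ∀ y, eD G.D y a = 0) ∨
    (∃ b : V, b ≠ 0 ∧ ∀ y, eD G.D y ((((G.D y)⁻¹ : SL) : M2) *ᵥ b) = 0) :=
  caseB hc G hne (caseA S hc G hG hJ hne)

end HRK
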