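import Pool.Agent.HRK.Q0

/-!
# HRK-Q2 : the one parameter groups `exp(τ(P - 1/2))`
-/

namespace HRK

open Set Filter Topology Matrix

theorem q2_ext {A B : M2} (h00 : A 0 0 = B 0 0) (h01 : A 0 1 = B 0 1) (h10 : A 1 0 = B 1 0)
    (h11 : A 1 1 = B 1 1) : A = B := by
  ext i j
  fin_cases i <;> fin_cases j <;> assumption

theorem q2_mul (A B : M2) (i j : Fin 2) : (A * B) i j = A i 0 * B 0 j + A i 1 * B 1 j := by
  rw [Matrix.mul_apply, Fin.sum_univ_two]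

theorem q2_cj_cj (k k' : SL) (X : M2) : cj k (cj k' X) = cj (k * k') X := cj_cj k k' X

theorem q2_tr {P : M2} (h : IsPl P) : P 0 0 + P 1 1 = 1 := by
  have := h.1
  rwa [Matrix.trace_fin_two] at this

theorem q2_det {P : M2} (h : IsPl P) : P 0 0 * P 1 1 - P 0 1 * P 1 0 = 0 := by
  have := h.2
  rwa [Matrix.det_fin_two] at this

theorem q2_ll (τ : ℝ) : (Real.exp (τ / 2) : ℂ) * (Real.exp (-(τ / 2)) : ℂ) = 1 := by
  rw [← Complex.ofReal_mul, ← Real.exp_add]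
  simp

theorem q2_isPl_one_sub {P : M2} (h : IsPl P) : IsPl (1 - P) := by
  have h1 := q2_tr h
  have h2 := q2_det h
  constructor
  · rw [Matrix.trace_fin_two]
    simp only [Matrix.sub_apply, Matrix.one_apply_eq]
    linear_combination (-1 : ℂ) * h1
  · rw [Matrix.det_fin_two]
    simp only [Matrix.sub_apply, Matrix.one_apply_eq,
      Matrix.one_apply_ne (show (0 : Fin 2) ≠ 1 by decide),
      Matrix.one_apply_ne (show (1 : Fin 2) ≠ 0 by decide)]
    linear_combination h2 - h1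

theorem q2_mul_one_sub {P : M2} (h : IsPl P) : P * (1 - P) = 0 := by
  rw [mul_sub, mul_one, h.sq, sub_self]

theorem q2_one_sub_mul {P : M2} (h : IsPl P) : (1 - P) * P = 0 := by
  rw [sub_mul, one_mul, h.sq, sub_self]

theorem q2_one_sub_sq {P : M2} (h : IsPl P) : (1 - P) * (1 - P) = 1 - P := by
  rw [mul_sub, mul_one, q2_one_sub_mul h, sub_zero]

theorem q2_P_mul_xpM {P : M2} (h : IsPl P) (τ : ℝ) :
    P * xpM τ P = (Real.exp (τ / 2) : ℂ) • P := by
  rw [xpM, mul_add, Matrix.mul_smul, Matrix.mul_smul, h.sq, q2_mul_one_sub h, smul_zero,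
    add_zero]

/-- Proof. Write `P = [[p, q],[r, 1 - p]]` with `p(1-p) = qr`, `l = e^{τ/2}`:
`det (l P + l⁻¹ (1 - P)) = (l p + l⁻¹(1-p))(l(1-p) + l⁻¹ p) - (l - l⁻¹)² q r
= p(1-p)(l² + l⁻² ) + p² + (1-p)² - (l - l⁻¹)² p (1-p) = 1`. -/
theorem det_xpM {P : M2} (h : IsPl P) (τ : ℝ) : (xpM τ P).det = 1 := by
  have h1 := q2_tr h
  have h2 := q2_det h
  have h3 := q2_ll τ
  have h4 : P 1 1 = 1 - P 0 0 := by linear_combination h1
  rw [h4] at h2
  rw [Matrix.det_fin_two]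
  simp only [xpM, Matrix.add_apply, Matrix.smul_apply, Matrix.sub_apply, Matrix.one_apply_eq,
    Matrix.one_apply_ne (show (0 : Fin 2) ≠ 1 by decide),
    Matrix.one_apply_ne (show (1 : Fin 2) ≠ 0 by decide), smul_eq_mul, h4]
  generalize (Real.exp (τ / 2) : ℂ) = l at *
  generalize (Real.exp (-(τ / 2)) : ℂ) = l' at *
  linear_combination h3 + (l - l') ^ 2 * h2

theorem xp_coe {P : M2} (h : IsPl P) (τ : ℝ) : ((xp τ P : SL) : M2) = xpM τ P := by
  rw [xp, dif_pos (det_xpM h τ)]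

theorem xp_zero {P : M2} (h : IsPl P) : xp 0 P = 1 := by
  apply Subtype.ext
  show ((xp 0 P : SL) : M2) = ((1 : SL) : M2)
  rw [xp_coe h, Matrix.SpecialLinearGroup.coe_one, xpM]
  simp

/-- Proof. `P² = P` (`IsPl.sq`), `P (1-P) = 0`. -/
theorem xp_mul {P : M2} (h : IsPl P) (τ σ : ℝ) : xp τ P * xp σ P = xp (τ + σ) P := by
  apply Subtype.ext
  show ((xp τ P * xp σ P : SL) : M2) = ((xp (τ + σ) P : SL) : M2)
  rw [Matrix.SpecialLinearGroup.coe_mul, xp_coe h, xp_coe h, xp_coe h, xpM, xpM, xpM]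
  have e1 : (Real.exp ((τ + σ) / 2) : ℂ) = (Real.exp (τ / 2) : ℂ) * (Real.exp (σ / 2) : ℂ) := by
    rw [← Complex.ofReal_mul, ← Real.exp_add]
    ring_nf
  have e2 : (Real.exp (-((τ + σ) / 2)) : ℂ) =
      (Real.exp (-(τ / 2)) : ℂ) * (Real.exp (-(σ / 2)) : ℂ) := by
    rw [← Complex.ofReal_mul, ← Real.exp_add]
    ring_nf
  rw [e1, e2, add_mul, mul_add, mul_add]
  simp only [Matrix.smul_mul, Matrix.mul_smul, h.sq, q2_mul_one_sub h, q2_one_sub_mul h,
    q2_one_sub_sq h, smul_zero, add_zero, zero_add, smul_smul]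
  rw [mul_comm (Real.exp (σ / 2) : ℂ), mul_comm (Real.exp (-(σ / 2)) : ℂ)]

theorem xp_inv {P : M2} (h : IsPl P) (τ : ℝ) : (xp τ P)⁻¹ = xp (-τ) P := by
  apply inv_eq_of_mul_eq_one_right
  rw [xp_mul h, add_neg_cancel, xp_zero h]

/-- change of frame. -/
theorem xp_conj {P : M2} (h : IsPl P) (k : SL) (τ : ℝ) : k * xp τ P * k⁻¹ = xp τ (cj k P) := by
  apply Subtype.ext
  show ((k * xp τ P * k⁻¹ : SL) : M2) = ((xp τ (cj k P) : SL) : M2)
  rw [← cj_coe, xp_coe h, xp_coe (h.conj k), xpM, xpM, cj_add, cj_smul, cj_smul, cj_sub, cj_one]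

/-- the plane is invariant. Proof. `P (xp τ P) = e^{τ/2} P`, trace `e^{τ/2}`. -/
theorem pmv_xp {P : M2} (h : IsPl P) (τ : ℝ) :
    (P * ((xp τ P : SL) : M2)).trace ≠ 0 ∧ pmv P (xp τ P) = P := by
  have hl : (Real.exp (τ / 2) : ℂ) ≠ 0 := by
    exact_mod_cast (Real.exp_pos _).ne'
  have h1 : (P * ((xp τ P : SL) : M2)) = (Real.exp (τ / 2) : ℂ) • P := by
    rw [xp_coe h, q2_P_mul_xpM h]
  have h2 : (P * ((xp τ P : SL) : M2)).trace = (Real.exp (τ / 2) : ℂ) := by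
    rw [h1, Matrix.trace_smul, h.1, smul_eq_mul, mul_one]
  refine ⟨by rw [h2]; exact hl, ?_⟩
  rw [pmv, h2, h1, smul_smul, inv_mul_cancel₀ hl, one_smul]

/-- If `Q^g = P` for `g = exp(τ(P - 1/2))` and the trace does not vanish then `Q = P`.

Proof. `Q g = t P` with `t = tr (Q g) ≠ 0`, so `Q = t P g⁻¹ = t e^{-τ/2} P` (`P g⁻¹ = e^{-τ/2} P`), and
traces: `1 = t e^{-τ/2}`. -/
theorem eq_of_pmv_xp {P Q : M2} (h : IsPl P) (hQ : IsPl Q) {τ : ℝ}
    (ht : (Q * ((xp τ P : SL) : M2)).trace ≠ 0) (he : pmv Q (xp τ P) = P) : Q = P := by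
  have h1 : Q * ((xp τ P : SL) : M2) = (Q * ((xp τ P : SL) : M2)).trace • P := by
    have h2 : (Q * ((xp τ P : SL) : M2)).trace • pmv Q (xp τ P) =
        (Q * ((xp τ P : SL) : M2)).trace • P := by rw [he]
    rw [pmv, smul_smul, mul_inv_cancel₀ ht, one_smul] at h2
    exact h2
  set t : ℂ := (Q * ((xp τ P : SL) : M2)).trace with htd
  have h3 : Q = (t * (Real.exp (-τ / 2) : ℂ)) • P := by
    have h4 : Q * ((xp τ P : SL) : M2) * (((xp τ P)⁻¹ : SL) : M2) = Q := by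
      rw [mul_assoc, coe_mul_inv, mul_one]
    rw [← h4, h1, xp_inv h, Matrix.smul_mul, xp_coe h, q2_P_mul_xpM h, smul_smul]
  have h5 : t * (Real.exp (-τ / 2) : ℂ) = 1 := by
    have h6 : Q.trace = ((t * (Real.exp (-τ / 2) : ℂ)) • P).trace := by rw [← h3]
    rw [Matrix.trace_smul, hQ.1, h.1, smul_eq_mul, mul_one] at h6
    exact h6.symm
  rw [h3, h5, one_smul]

/-- eigenvectors. -/
theorem xp_range {P : M2} (h : IsPl P) (τ : ℝ) {a : V} (ha : P *ᵥ a = a) :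
    ((xp τ P : SL) : M2) *ᵥ a = (Real.exp (τ / 2) : ℂ) • a := by
  rw [xp_coe h, xpM, Matrix.add_mulVec, Matrix.smul_mulVec, Matrix.smul_mulVec,
    Matrix.sub_mulVec, Matrix.one_mulVec, ha, sub_self, smul_zero, add_zero]

theorem xp_kernel {P : M2} (h : IsPl P) (τ : ℝ) {a : V} (ha : P *ᵥ a = 0) :
    ((xp τ P : SL) : M2) *ᵥ a = (Real.exp (-(τ / 2)) : ℂ) • a := by
  rw [xp_coe h, xpM, Matrix.add_mulVec, Matrix.smul_mulVec, Matrix.smul_mulVec,
    Matrix.sub_mulVec, Matrix.one_mulVec, ha, sub_zero, smul_zero, zero_add]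

/-- Size in a frame where `P` is Hermitian.

Proof. `cj k (xp τ P - 1) = (e^{τ/2} - 1) Q + (e^{-τ/2} - 1)(1 - Q)`, `Q = cj k P`. `Q` and `1 - Q` are
Hermitian planes, so `nm Q = nm (1 - Q) = 1` (`IsPl.nm_of_hermitian`); and
`|e^{x} - 1| ≤ |x| e^{|x|}`, with `x = ±τ/2`, `|x| ≤ 1/2`: the norm is at most
`2 (|τ|/2) e^{1/2} ≤ 2 |τ|` (`Real.abs_exp_sub_one_le`, or `Real.exp_bound`, `exp(1/2) ≤ 2`). -/
theorem nm_xp_sub_one_le {P : M2} (h : IsPl P) {k : SL} (hH : (cj k P).IsHermitian) {τ : ℝ}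
    (hτ : |τ| ≤ 1) : nm (cj k (((xp τ P : SL) : M2) - 1)) ≤ 2 * |τ| := by
  have h1 : ((xp τ P : SL) : M2) - 1 = ((Real.exp (τ / 2) - 1 : ℝ) : ℂ) • P +
      ((Real.exp (-(τ / 2)) - 1 : ℝ) : ℂ) • (1 - P) := by
    rw [xp_coe h, xpM]
    simp only [Complex.ofReal_sub, Complex.ofReal_one, sub_smul, one_smul]
    abel
  have h2 : cj k (((xp τ P : SL) : M2) - 1) = ((Real.exp (τ / 2) - 1 : ℝ) : ℂ) • cj k P +
      ((Real.exp (-(τ / 2)) - 1 : ℝ) : ℂ) • (1 - cj k P) := by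
    rw [h1, cj_add, cj_smul, cj_smul, cj_sub, cj_one]
  have hQ := h.conj k
  have n1 : nm (cj k P) = 1 := hQ.nm_of_hermitian hH
  have n2 : nm (1 - cj k P) = 1 :=
    (q2_isPl_one_sub hQ).nm_of_hermitian (Matrix.isHermitian_one.sub hH)
  have a1 : |Real.exp (τ / 2) - 1| ≤ |τ| := by
    have h3 : |τ / 2| ≤ 1 := by
      rw [abs_div, abs_of_pos (show (0 : ℝ) < 2 by norm_num)]
      linarith
    have h4 := Real.abs_exp_sub_one_le h3
    rw [abs_div, abs_of_pos (show (0 : ℝ) < 2 by norm_num)] at h4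
    linarith
  have a2 : |Real.exp (-(τ / 2)) - 1| ≤ |τ| := by
    have h3 : |-(τ / 2)| ≤ 1 := by
      rw [abs_neg, abs_div, abs_of_pos (show (0 : ℝ) < 2 by norm_num)]
      linarith
    have h4 := Real.abs_exp_sub_one_le h3
    rw [abs_neg, abs_div, abs_of_pos (show (0 : ℝ) < 2 by norm_num)] at h4
    linarith
  rw [h2]
  refine (nm_add_le _ _).trans ?_
  rw [nm_smul, nm_smul, n1, n2, Complex.norm_real, Complex.norm_real, Real.norm_eq_abs,
    Real.norm_eq_abs]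
  linarith

/-- joint continuity on planes. Proof. `SL → M₂` is an embedding (`isEmbedding_coe`),
`xp_coe`, and `xpM` is continuous. -/
theorem continuousOn_xp : ContinuousOn (fun p : ℝ × M2 => xp p.1 p.2) {p | IsPl p.2} := by
  rw [isEmbedding_coe.isInducing.continuousOn_iff]
  have h1 : ContinuousOn (fun p : ℝ × M2 => xpM p.1 p.2) {p | IsPl p.2} := by
    apply Continuous.continuousOn
    unfold xpM
    have c1 : Continuous fun p : ℝ × M2 => (Real.exp (p.1 / 2) : ℂ) • p.2 :=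
      (Complex.continuous_ofReal.comp (Real.continuous_exp.comp
        (continuous_fst.div_const 2))).smul continuous_snd
    have c2 : Continuous fun p : ℝ × M2 => (Real.exp (-(p.1 / 2)) : ℂ) • ((1 : M2) - p.2) :=
      (Complex.continuous_ofReal.comp (Real.continuous_exp.comp
        (continuous_fst.div_const 2).neg)).smul (continuous_const.sub continuous_snd)
    exact c1.add c2
  refine h1.congr ?_
  intro p hp
  exact xp_coe hp p.1

/-- The frames in which `P` is Hermitian form one geodesic. If `cj h P = E11` and `cj k P` is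
Hermitian then `k = u * dg s * h` with `u` unitary.

Proof. By `IsPl.exists_unitary` there is a unitary `u'` with `cj (u' k) P = E11`. Let
`w = u' k h⁻¹`; `cj w E11 = E11`, so `w` commutes with `E11` and is diagonal, `w = diag(d, d⁻¹)`.
Write `d = e^{s/2} ζ`, `|ζ| = 1`, `s = 2 log |d|`: `w = diag(ζ, ζ⁻¹) * dg s`, `diag(ζ,ζ⁻¹)` is
unitary, and `k = u'⁻¹ diag(ζ,ζ⁻¹) (dg s) h`. -/
theorem axis_frame {P : M2} (hP : IsPl P) {h k : SL} (hh : cj h P = !![1, 0; 0, 0])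
    (hk : (cj k P).IsHermitian) : ∃ (u : SL) (s : ℝ), IsU u ∧ k = u * (dg s * h) := by
  obtain ⟨u', hu', hu1⟩ := (hP.conj k).exists_unitary hk
  rw [cj_cj] at hu1
  obtain ⟨w, hw⟩ : ∃ w : SL, w = u' * k * h⁻¹ := ⟨_, rfl⟩
  have hw1 : cj w !![1, 0; 0, 0] = !![1, 0; 0, 0] := by
    rw [← hh, cj_cj, hw, mul_assoc (u' * k), inv_mul_cancel, mul_one, hu1, hh]
  have hw2 : (w : M2) * !![1, 0; 0, 0] = !![1, 0; 0, 0] * (w : M2) := by
    have h1 : (w : M2) * !![1, 0; 0, 0] * ((w⁻¹ : SL) : M2) * (w : M2) =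
        !![1, 0; 0, 0] * (w : M2) := by
      rw [← hw1]
      rw [hw1]
      rw [cj] at hw1
      rw [hw1]
    rw [mul_assoc, coe_inv_mul, mul_one] at h1
    exact h1
  have hw01 : (w : M2) 0 1 = 0 := by
    have h1 : ((w : M2) * (!![1, 0; 0, 0] : M2)) 0 1 = ((!![1, 0; 0, 0] : M2) * (w : M2)) 0 1 := by
      rw [hw2]
    rw [q2_mul, q2_mul] at h1
    simpa using h1.symm
  have hw10 : (w : M2) 1 0 = 0 := by
    have h1 : ((w : M2) * (!![1, 0; 0, 0] : M2)) 1 0 = ((!![1, 0; 0, 0] : M2) * (w : M2)) 1 0 := by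
      rw [hw2]
    rw [q2_mul, q2_mul] at h1
    simpa using h1
  have hdet : (w : M2) 0 0 * (w : M2) 1 1 = 1 := by
    have h1 := w.det_coe
    rw [Matrix.det_fin_two, hw01, zero_mul, sub_zero] at h1
    exact h1
  have hd0 : (w : M2) 0 0 ≠ 0 := by
    intro h0
    rw [h0, zero_mul] at hdet
    exact zero_ne_one hdet
  have hdpos : 0 < ‖(w : M2) 0 0‖ := norm_pos_iff.mpr hd0
  obtain ⟨s, hs⟩ : ∃ s : ℝ, Real.exp (s / 2) = ‖(w : M2) 0 0‖ := by
    refine ⟨2 * Real.log ‖(w : M2) 0 0‖, ?_⟩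
    rw [mul_div_cancel_left₀ _ (two_ne_zero), Real.exp_log hdpos]
  have hs' : Real.exp (-(s / 2)) = ‖(w : M2) 0 0‖⁻¹ := by
    rw [Real.exp_neg, hs]
  have hd' : ‖(w : M2) 1 1‖ = ‖(w : M2) 0 0‖⁻¹ := by
    have h1 : ‖(w : M2) 0 0‖ * ‖(w : M2) 1 1‖ = 1 := by
      rw [← norm_mul, hdet, norm_one]
    exact eq_inv_of_mul_eq_one_right h1
  -- the unitary part
  have hv : IsU (w * dg (-s)) := by
    have hdg : ((dg (-s) : SL) : M2) = !![((‖(w : M2) 0 0‖⁻¹ : ℝ) : ℂ), 0; 0,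
        ((‖(w : M2) 0 0‖ : ℝ) : ℂ)] := by
      show !![(Real.exp (-s / 2) : ℂ), 0; 0, (Real.exp (-(-s / 2)) : ℂ)] = _
      rw [neg_div, neg_neg, hs, hs']
    have hc : ((w * dg (-s) : SL) : M2) = !![(w : M2) 0 0 * ((‖(w : M2) 0 0‖⁻¹ : ℝ) : ℂ), 0; 0,
        (w : M2) 1 1 * ((‖(w : M2) 0 0‖ : ℝ) : ℂ)] := by
      rw [Matrix.SpecialLinearGroup.coe_mul, hdg]
      apply q2_ext
      · rw [q2_mul, hw01]; simp
      · rw [q2_mul, hw01]; simp
      · rw [q2_mul, hw10]; simp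
      · rw [q2_mul, hw10]; simp
    have hn : ∀ z : ℂ, ‖z‖ = 1 → star z * z = 1 := by
      intro z hz
      rw [Complex.star_def, ← Complex.normSq_eq_conj_mul_self, Complex.normSq_eq_norm_sq, hz]
      simp
    have z1 : ‖(w : M2) 0 0 * ((‖(w : M2) 0 0‖⁻¹ : ℝ) : ℂ)‖ = 1 := by
      rw [norm_mul, Complex.norm_real, Real.norm_eq_abs, abs_of_pos (inv_pos.mpr hdpos),
        mul_inv_cancel₀ hdpos.ne']
    have z2 : ‖(w : M2) 1 1 * ((‖(w : M2) 0 0‖ : ℝ) : ℂ)‖ = 1 := by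
      rw [norm_mul, Complex.norm_real, Real.norm_eq_abs, abs_of_pos hdpos, hd',
        inv_mul_cancel₀ hdpos.ne']
    rw [IsU, hc]
    apply q2_ext
    · rw [q2_mul]
      simp only [Matrix.conjTranspose_apply, Matrix.of_apply, Matrix.cons_val', Matrix.cons_val_zero,
        Matrix.cons_val_one, Matrix.cons_val_fin_one, Matrix.one_apply_eq]
      rw [hn _ z1]
      simp
    · rw [q2_mul]
      simp
    · rw [q2_mul]
      simp
    · rw [q2_mul]
      simp only [Matrix.conjTranspose_apply, Matrix.of_apply, Matrix.cons_val', Matrix.cons_val_zero,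
        Matrix.cons_val_one, Matrix.cons_val_fin_one, Matrix.one_apply_eq]
      rw [hn _ z2]
      simp
  refine ⟨u'⁻¹ * (w * dg (-s)), s, IsU_mul (IsU_inv hu') hv, ?_⟩
  have e1 : w * dg (-s) * dg s = w := by
    rw [mul_assoc, dg_add, neg_add_cancel, dg_zero, mul_one]
  calc k = u'⁻¹ * (w * h) := by rw [hw]; group
    _ = u'⁻¹ * ((w * dg (-s) * dg s) * h) := by rw [e1]
    _ = u'⁻¹ * (w * dg (-s)) * (dg s * h) := by group

/-- If `P` is a plane, Hermitian in the frames `k` and `dg (-s) k` for one `s ≠ 0`, and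
`k a = c e₁`, `c ≠ 0`, then `P a = a` or `P a = 0`.

Proof. `Q = cj k P = [[p, q],[conj q, 1-p]]` is Hermitian and so is
`dg(-s) Q dg(s) = [[p, e^{-s} q],[e^{s} conj q, 1-p]]`, so `e^{-s} q = e^{s} q`, `q = 0`; and
`p(1-p) = |q|² = 0`. So `Q = E11` or `Q = E22`. -/
theorem range_or_kernel {P : M2} (hP : IsPl P) {k : SL} {s : ℝ} (hs : s ≠ 0)
    (h1 : (cj k P).IsHermitian) (h2 : (cj (dg (-s) * k) P).IsHermitian) {a : V} {c : ℂ}
    (hc : c ≠ 0) (hk : (k : M2) *ᵥ a = c • e1) : P *ᵥ a = a ∨ P *ᵥ a = 0 := by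
  have hQ := hP.conj k
  rw [← cj_cj] at h2
  obtain ⟨Q, hQd⟩ : ∃ Q : M2, Q = cj k P := ⟨_, rfl⟩
  rw [← hQd] at h1 h2 hQ
  have hdg : ((dg (-s) : SL) : M2) = !![(Real.exp (-(s / 2)) : ℂ), 0; 0,
      (Real.exp (s / 2) : ℂ)] := by
    show !![(Real.exp (-s / 2) : ℂ), 0; 0, (Real.exp (-(-s / 2)) : ℂ)] = _
    rw [neg_div, neg_neg]
  have hdgi : (((dg (-s))⁻¹ : SL) : M2) = !![(Real.exp (s / 2) : ℂ), 0; 0,
      (Real.exp (-(s / 2)) : ℂ)] := by
    rw [dg_inv, neg_neg]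
    rfl
  have e01 : (cj (dg (-s)) Q) 0 1 = (Real.exp (-(s / 2)) : ℂ) * Q 0 1 *
      (Real.exp (-(s / 2)) : ℂ) := by
    rw [cj, hdg, hdgi, q2_mul, q2_mul, q2_mul]
    simp
  have e10 : (cj (dg (-s)) Q) 1 0 = (Real.exp (s / 2) : ℂ) * Q 1 0 *
      (Real.exp (s / 2) : ℂ) := by
    rw [cj, hdg, hdgi, q2_mul, q2_mul, q2_mul]
    simp
  have g1 : star (Q 0 1) = Q 1 0 := by
    have := congrFun (congrFun h1 1) 0
    rwa [Matrix.conjTranspose_apply] at this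
  have g2 : star ((cj (dg (-s)) Q) 0 1) = (cj (dg (-s)) Q) 1 0 := by
    have := congrFun (congrFun h2 1) 0
    rwa [Matrix.conjTranspose_apply] at this
  have hq10 : Q 1 0 = 0 := by
    rw [e01, e10, star_mul', star_mul', g1, Complex.star_def, Complex.conj_ofReal] at g2
    have h3 : ((Real.exp (s / 2) : ℂ) * (Real.exp (s / 2) : ℂ) -
        (Real.exp (-(s / 2)) : ℂ) * (Real.exp (-(s / 2)) : ℂ)) * Q 1 0 = 0 := by
      linear_combination (-1 : ℂ) * g2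
    rcases mul_eq_zero.mp h3 with h4 | h4
    · exfalso
      rw [← Complex.ofReal_mul, ← Complex.ofReal_mul, ← Complex.ofReal_sub, ← Real.exp_add,
        ← Real.exp_add] at h4
      have h5 : Real.exp (s / 2 + s / 2) - Real.exp (-(s / 2) + -(s / 2)) = 0 := by
        exact_mod_cast h4
      have h6 := Real.exp_injective (sub_eq_zero.mp h5)
      apply hs
      linarith
    · exact h4
  have hq01 : Q 0 1 = 0 := by
    rw [hq10] at g1
    exact star_eq_zero.mp g1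
  have hpp : Q 0 0 * Q 1 1 = 0 := by
    have h3 := q2_det hQ
    rw [hq01, zero_mul, sub_zero] at h3
    exact h3
  have htr := q2_tr hQ
  have hkP : (k : M2) *ᵥ (P *ᵥ a) = Q *ᵥ ((k : M2) *ᵥ a) := by
    rw [hQd, cj, Matrix.mulVec_mulVec, Matrix.mulVec_mulVec, mul_assoc, coe_inv_mul, mul_one]
  have hinj : ∀ v w : V, (k : M2) *ᵥ v = (k : M2) *ᵥ w → v = w := by
    intro v w hvw
    have h3 : ((k⁻¹ : SL) : M2) *ᵥ ((k : M2) *ᵥ v) = ((k⁻¹ : SL) : M2) *ᵥ ((k : M2) *ᵥ w) := by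
      rw [hvw]
    rwa [Matrix.mulVec_mulVec, Matrix.mulVec_mulVec, coe_inv_mul, Matrix.one_mulVec,
      Matrix.one_mulVec] at h3
  have hQe : Q *ᵥ (c • e1) = Q 0 0 • (c • e1) := by
    ext i
    fin_cases i
    · simp [Matrix.mulVec, dotProduct, Fin.sum_univ_two, e1]
    · simp [Matrix.mulVec, dotProduct, Fin.sum_univ_two, e1, hq10]
  rw [hk, hQe] at hkP
  rcases mul_eq_zero.mp hpp with h3 | h3
  · right
    apply hinj
    rw [hkP, h3, zero_smul, Matrix.mulVec_zero]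
  · left
    apply hinj
    have h4 : Q 0 0 = 1 := by
      rw [h3, add_zero] at htr
      exact htr
    rw [hkP, h4, one_smul, hk]

/-- A plane of norm at most one in a frame is Hermitian there (`IsPl.hermitian_of_nm`). -/
theorem hermitian_of_fro {P : M2} (hP : IsPl P) {k : SL} (h : fro (cj k P) ≤ 1) :
    (cj k P).IsHermitian := by
  apply (hP.conj k).hermitian_of_nm
  rw [nm, Real.sqrt_le_one]
  exact h

end HRK
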