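import Pool.Agent.HRK.Q2

/-!
# HRK-Q3 : the plane flow `y.exp(τ(P - 1/2))` inside a free ball
-/

namespace HRK

open Set Filter Topology Matrix

variable {E : Type*} [TopologicalSpace E] [T2Space E] {D : E → SL}

/-- Proof. `nm_xp_sub_one_le`: `|xp τ P - 1|_k ≤ 2|τ| < r/4`; `D_ac`, `FB_ac`. -/
theorem flow_ball (hD : IsLocalHomeomorph (Dh D)) {y : E} {k : SL} {r : ℝ} (hr : 0 < r)
    (hr' : r ≤ 1 / 2) (hF : FB D y k r) {P : M2} (hP : IsPl P) (hH : (cj k P).IsHermitian)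
    {τ : ℝ} (hτ : |τ| < r / 8) :
    nm (cj k (((xp τ P : SL) : M2) - 1)) < r / 4 ∧ ((xp τ P : SL) : M2) - 1 ∈ St D y ∧
      D (ac D y (xp τ P)) = D y * xp τ P ∧ FB D (ac D y (xp τ P)) k (r / 4) := by
  have h1 : nm (cj k (((xp τ P : SL) : M2) - 1)) < r / 4 := by
    have h2 := nm_xp_sub_one_le hP hH (τ := τ) (by linarith)
    linarith
  have h3 : nm (cj k (((xp τ P : SL) : M2) - 1)) < r := by linarith
  exact ⟨h1, hF _ h3, D_ac hD hr' hF h3, FB_ac hD hr hr' hF h1⟩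

/-- group law. Proof. `ac_ac` with `g = xp τ P`, `g' = xp σ P`, `g g' = xp (τ + σ) P`. -/
theorem flow_add (hD : IsLocalHomeomorph (Dh D)) {y : E} {k : SL} {r : ℝ} (hr : 0 < r)
    (hr' : r ≤ 1 / 2) (hF : FB D y k r) {P : M2} (hP : IsPl P) (hH : (cj k P).IsHermitian)
    {τ σ : ℝ} (hτ : |τ| < r / 8) (hτσ : |τ + σ| < r / 8) :
    ((xp σ P : SL) : M2) - 1 ∈ St D (ac D y (xp τ P)) ∧
      ac D (ac D y (xp τ P)) (xp σ P) = ac D y (xp (τ + σ) P) := by
  have h1 : nm (cj k (((xp τ P : SL) : M2) - 1)) < r := by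
    have h2 := nm_xp_sub_one_le hP hH (τ := τ) (by linarith)
    linarith
  have h2 : nm (cj k (((xp τ P * xp σ P : SL) : M2) - 1)) < r := by
    rw [xp_mul hP]
    have h3 := nm_xp_sub_one_le hP hH (τ := τ + σ) (by linarith)
    linarith
  have h4 := ac_ac hD hF h1 h2
  rw [xp_mul hP] at h4
  exact h4

/-- continuity in time. Proof. `continuousOn_ac`, `continuousOn_xp`. -/
theorem flow_continuousOn (hD : IsLocalHomeomorph (Dh D)) {y : E} {k : SL} {r : ℝ} (hr : 0 < r)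
    (hr' : r ≤ 1 / 2) (hF : FB D y k r) {P : M2} (hP : IsPl P) (hH : (cj k P).IsHermitian) :
    ContinuousOn (fun τ : ℝ => ac D y (xp τ P)) (Ioo (-(r / 8)) (r / 8)) := by
  have h1 : ContinuousOn (fun τ : ℝ => xp τ P) (Ioo (-(r / 8)) (r / 8)) := by
    have h2 : ContinuousOn (fun τ : ℝ => ((τ, P) : ℝ × M2)) (Ioo (-(r / 8)) (r / 8)) := by
      apply ContinuousOn.prodMk
      · exact continuousOn_id
      · exact continuousOn_const
    have h3 : MapsTo (fun τ : ℝ => ((τ, P) : ℝ × M2)) (Ioo (-(r / 8)) (r / 8))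
        {p : ℝ × M2 | IsPl p.2} := by
      intro τ _
      exact hP
    have h5 := ContinuousOn.comp (g := fun p : ℝ × M2 => xp p.1 p.2)
      (t := {p : ℝ × M2 | IsPl p.2}) continuousOn_xp h2 h3
    exact h5
  have h3 : ContinuousOn (fun τ : ℝ => ((y, xp τ P) : E × SL)) (Ioo (-(r / 8)) (r / 8)) := by
    apply ContinuousOn.prodMk
    · exact continuousOn_const
    · exact h1
  have h4 : MapsTo (fun τ : ℝ => ((y, xp τ P) : E × SL)) (Ioo (-(r / 8)) (r / 8))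
      {q : E × SL | ((q.2 : SL) : M2) - 1 ∈ St D q.1} := by
    intro τ hτ
    have hτ' : |τ| < r / 8 := abs_lt.2 ⟨hτ.1, hτ.2⟩
    exact (flow_ball hD hr hr' hF hP hH hτ').2.1
  have h6 := ContinuousOn.comp (g := fun q : E × SL => ac D q.1 q.2)
    (t := {q : E × SL | ((q.2 : SL) : M2) - 1 ∈ St D q.1}) (continuousOn_ac hD) h3 h4
  exact h6

end HRK
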