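import Pool.Agent.HRK.Q1

/-!
# HRK-Q4 : factorisation of elements near `1` through two Borel subgroups, and deep frames
-/

namespace HRK

open Set Filter Topology Matrix

theorem lo_coe' (q : ℂ) : ((lo q : SL) : M2) = !![1, 0; q, 1] := rfl

theorem up_coe' (q : ℂ) : ((up q : SL) : M2) = !![1, q; 0, 1] := rfl

theorem dg_coe' (s : ℝ) : ((dg s : SL) : M2) =
    !![(Real.exp (s / 2) : ℂ), 0; 0, (Real.exp (-(s / 2)) : ℂ)] := rfl

theorem exp_half_mul (s : ℝ) :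
    ((Real.exp (s / 2) : ℝ) : ℂ) * ((Real.exp (-(s / 2)) : ℝ) : ℂ) = 1 := by
  rw [← Complex.ofReal_mul, ← Real.exp_add]
  simp

theorem exp_half_sq (s : ℝ) :
    ((Real.exp (-(s / 2)) : ℝ) : ℂ) * ((Real.exp (-(s / 2)) : ℝ) : ℂ) = ((Real.exp (-s) : ℝ) : ℂ) := by
  rw [← Complex.ofReal_mul, ← Real.exp_add]
  congr 2
  ring

theorem norm_exp_ofReal (s : ℝ) (q : ℂ) : ‖((Real.exp (-s) : ℝ) : ℂ) * q‖ = Real.exp (-s) * ‖q‖ := by
  rw [norm_mul, Complex.norm_real, Real.norm_of_nonneg (Real.exp_pos _).le]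

theorem vn_one_of_nsq {a : V} (ha : nsq a = 1) : vn a = 1 := by
  unfold vn
  rw [ha, Real.sqrt_one]

theorem coord_diff {h : SL} {a : V} (ha : nsq a = 1) (i : Fin 2) :
    ‖((h : M2) *ᵥ a) i - a i‖ ≤ nm ((h : M2) - 1) := by
  have e : ((h : M2) *ᵥ a) i - a i = (((h : M2) - 1) *ᵥ a) i := by
    rw [Matrix.sub_mulVec, Matrix.one_mulVec]
    rfl
  rw [e]
  calc ‖(((h : M2) - 1) *ᵥ a) i‖ ≤ vn (((h : M2) - 1) *ᵥ a) := norm_coord_le _ i
    _ ≤ nm ((h : M2) - 1) * vn a := vn_mulVec_le _ _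
    _ = nm ((h : M2) - 1) := by rw [vn_one_of_nsq ha, mul_one]

theorem fac_est {x z x' z' : ℂ} {n : ℝ} (hx : 1 / 2 ≤ ‖x‖) (hx1 : ‖x‖ ≤ 1) (hz1 : ‖z‖ ≤ 1)
    (hn : n ≤ 1 / 8) (h0 : ‖x' - x‖ ≤ n) (h1 : ‖z' - z‖ ≤ n) :
    x' ≠ 0 ∧ ‖x / x' - 1‖ ≤ 8 * n ∧ ‖z' / x' - z / x‖ ≤ 16 * n := by
  have hn0 : 0 ≤ n := (norm_nonneg _).trans h0
  have hx' : 3 / 8 ≤ ‖x'‖ := by
    have := norm_sub_norm_le x x'
    rw [norm_sub_rev] at this
    linarith
  have hx'0 : x' ≠ 0 := by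
    intro h
    rw [h, norm_zero] at hx'
    linarith
  have hx0 : x ≠ 0 := by
    intro h
    rw [h, norm_zero] at hx
    linarith
  refine ⟨hx'0, ?_, ?_⟩
  · have e : x / x' - 1 = (x - x') / x' := by
      field_simp
    rw [e, norm_div, div_le_iff₀ (by linarith), norm_sub_rev]
    nlinarith
  · have e : z' / x' - z / x = ((z' - z) * x - z * (x' - x)) / (x * x') := by
      field_simp
      ring
    rw [e, norm_div, norm_mul, div_le_iff₀ (by positivity)]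
    have h2 : ‖(z' - z) * x - z * (x' - x)‖ ≤ n + n := by
      refine (norm_sub_le _ _).trans ?_
      rw [norm_mul, norm_mul]
      have a1 : ‖z' - z‖ * ‖x‖ ≤ n * 1 := mul_le_mul h1 hx1 (norm_nonneg _) hn0
      have a2 : ‖z‖ * ‖x' - x‖ ≤ 1 * n := mul_le_mul hz1 h0 (norm_nonneg _) zero_le_one
      linarith
    have h3 : 3 / 16 ≤ ‖x‖ * ‖x'‖ := by nlinarith
    nlinarith

/-- Lower case. Let `a` be a unit vector with `|a₀| ≥ 1/2` and `h` near `1`. With `x = a₀`, `z = a₁`,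
`(x', z') = h a`, `q = z'/x' - z/x`, `κ = x/x'`, `g2 = h⁻¹ (lo q)`: `g2 a = κ a`.

Proof. `|h a - a| ≤ |h - 1| ≤ 1/8` (`vn_mulVec_le`), so `|x' - x| ≤ 1/8`, `|x'| ≥ 3/8`,
`|κ - 1| = |x - x'|/|x'| ≤ (8/3)|h-1|`. `lo q` maps `a` to `(x, q x + z) = (x, z' x / x') = κ (x', z')
= κ h a`, so `h⁻¹ (lo q) a = κ a`. `q = (z' x - z x')/(x x')`,
`|z' x - z x'| = |(z' - z) x - z (x' - x)| ≤ 2 |h-1|`, `|x x'| ≥ 3/16`, so `|q| ≤ (32/3) |h-1|`. -/
theorem fac_low {h : SL} {a : V} (ha : nsq a = 1) (hx : 1 / 2 ≤ ‖a 0‖)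
    (hh : nm ((h : M2) - 1) ≤ 1 / 8) :
    ((h : M2) *ᵥ a) 0 ≠ 0 ∧ ∃ κ : ℂ, ‖κ - 1‖ ≤ 8 * nm ((h : M2) - 1) ∧
      ((h⁻¹ * lo (((h : M2) *ᵥ a) 1 / ((h : M2) *ᵥ a) 0 - a 1 / a 0) : SL) : M2) *ᵥ a = κ • a ∧
      ‖((h : M2) *ᵥ a) 1 / ((h : M2) *ᵥ a) 0 - a 1 / a 0‖ ≤ 16 * nm ((h : M2) - 1) := by
  have hx1 : ‖a 0‖ ≤ 1 := (norm_coord_le a 0).trans (vn_one_of_nsq ha).le
  have hz1 : ‖a 1‖ ≤ 1 := (norm_coord_le a 1).trans (vn_one_of_nsq ha).le
  obtain ⟨h0, h1, h2⟩ := fac_est hx hx1 hz1 hh (coord_diff ha 0) (coord_diff ha 1)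
  have hx0 : a 0 ≠ 0 := by
    intro h
    rw [h, norm_zero] at hx
    linarith
  refine ⟨h0, a 0 / ((h : M2) *ᵥ a) 0, h1, ?_, h2⟩
  have e : ((lo (((h : M2) *ᵥ a) 1 / ((h : M2) *ᵥ a) 0 - a 1 / a 0) : SL) : M2) *ᵥ a =
      (a 0 / ((h : M2) *ᵥ a) 0) • ((h : M2) *ᵥ a) := by
    generalize (h : M2) *ᵥ a = y at h0
    rw [lo_coe']
    ext i
    fin_cases i
    · simp [Matrix.mulVec, dotProduct, Fin.sum_univ_two]
      field_simp
    · simp [Matrix.mulVec, dotProduct, Fin.sum_univ_two]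
      field_simp
      ring
  rw [Matrix.SpecialLinearGroup.coe_mul, ← Matrix.mulVec_mulVec, e, Matrix.mulVec_smul,
    inv_mulVec_mulVec]

/-- Upper case (the same with the coordinates exchanged). -/
theorem fac_up {h : SL} {a : V} (ha : nsq a = 1) (hx : 1 / 2 ≤ ‖a 1‖)
    (hh : nm ((h : M2) - 1) ≤ 1 / 8) :
    ((h : M2) *ᵥ a) 1 ≠ 0 ∧ ∃ κ : ℂ, ‖κ - 1‖ ≤ 8 * nm ((h : M2) - 1) ∧
      ((h⁻¹ * up (((h : M2) *ᵥ a) 0 / ((h : M2) *ᵥ a) 1 - a 0 / a 1) : SL) : M2) *ᵥ a = κ • a ∧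
      ‖((h : M2) *ᵥ a) 0 / ((h : M2) *ᵥ a) 1 - a 0 / a 1‖ ≤ 16 * nm ((h : M2) - 1) := by
  have hx1 : ‖a 0‖ ≤ 1 := (norm_coord_le a 0).trans (vn_one_of_nsq ha).le
  have hz1 : ‖a 1‖ ≤ 1 := (norm_coord_le a 1).trans (vn_one_of_nsq ha).le
  obtain ⟨h0, h1, h2⟩ := fac_est hx hz1 hx1 hh (coord_diff ha 1) (coord_diff ha 0)
  have hx0 : a 1 ≠ 0 := by
    intro h
    rw [h, norm_zero] at hx
    linarith
  refine ⟨h0, a 1 / ((h : M2) *ᵥ a) 1, h1, ?_, h2⟩
  have e : ((up (((h : M2) *ᵥ a) 0 / ((h : M2) *ᵥ a) 1 - a 0 / a 1) : SL) : M2) *ᵥ a =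
      (a 1 / ((h : M2) *ᵥ a) 1) • ((h : M2) *ᵥ a) := by
    generalize (h : M2) *ᵥ a = y at h0
    rw [up_coe']
    ext i
    fin_cases i
    · simp [Matrix.mulVec, dotProduct, Fin.sum_univ_two]
      field_simp
      ring
    · simp [Matrix.mulVec, dotProduct, Fin.sum_univ_two]
      field_simp
  rw [Matrix.SpecialLinearGroup.coe_mul, ← Matrix.mulVec_mulVec, e, Matrix.mulVec_smul,
    inv_mulVec_mulVec]

/-- one coordinate of a unit vector is large. -/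
theorem half_le_coord {a : V} (ha : nsq a = 1) : 1 / 2 ≤ ‖a 0‖ ∨ 1 / 2 ≤ ‖a 1‖ := by
  by_contra hcon
  push Not at hcon
  obtain ⟨h0, h1⟩ := hcon
  rw [nsq_eq, Complex.normSq_eq_norm_sq, Complex.normSq_eq_norm_sq] at ha
  nlinarith [norm_nonneg (a 0), norm_nonneg (a 1)]

/-- `lo q - 1` in the frame `dg s`: norm `e^{-s} |q|`.
Proof. `dg s = diag(e^{s/2}, e^{-s/2})` multiplies the entry `(1,0)` by `e^{-s}`. -/
theorem nm_lo (q : ℂ) (s : ℝ) :
    nm (cj (dg s) (((lo q : SL) : M2) - 1)) = Real.exp (-s) * ‖q‖ := by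
  have e : cj (dg s) (((lo q : SL) : M2) - 1) = !![0, 0; (Real.exp (-s) : ℂ) * q, 0] := by
    have hl : ((lo q : SL) : M2) - 1 = !![0, 0; q, 0] := by
      rw [lo_coe']
      ext i j
      fin_cases i <;> fin_cases j <;> simp
    rw [hl]
    unfold cj
    rw [coe_inv_eq, dg_coe']
    have h1 := exp_half_sq s
    ext i j
    fin_cases i <;> fin_cases j
    · simp [Matrix.mul_apply, Fin.sum_univ_two]
    · simp [Matrix.mul_apply, Fin.sum_univ_two]
    · simp [Matrix.mul_apply, Fin.sum_univ_two]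
      rw [mul_right_comm]
      push_cast at h1
      rw [h1]
    · simp [Matrix.mul_apply, Fin.sum_univ_two]
  have h2 : nm (cj (dg s) (((lo q : SL) : M2) - 1)) ^ 2 = (Real.exp (-s) * ‖q‖) ^ 2 := by
    rw [e, nm_sq, fro_eq]
    simp only [Matrix.of_apply, Matrix.cons_val', Matrix.cons_val_zero, Matrix.cons_val_one,
      Matrix.empty_val', Matrix.cons_val_fin_one, map_zero, zero_add, add_zero]
    rw [Complex.normSq_eq_norm_sq, norm_exp_ofReal]
  have h3 : 0 ≤ Real.exp (-s) * ‖q‖ := by positivity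
  exact (sq_eq_sq₀ (nm_nonneg _) h3).1 h2

theorem nm_up (q : ℂ) (s : ℝ) :
    nm (cj (dg (-s)) (((up q : SL) : M2) - 1)) = Real.exp (-s) * ‖q‖ := by
  have e : cj (dg (-s)) (((up q : SL) : M2) - 1) = !![0, (Real.exp (-s) : ℂ) * q; 0, 0] := by
    have hl : ((up q : SL) : M2) - 1 = !![0, q; 0, 0] := by
      rw [up_coe']
      ext i j
      fin_cases i <;> fin_cases j <;> simp
    rw [hl]
    unfold cj
    rw [coe_inv_eq, dg_coe']
    have h1 := exp_half_sq s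
    have e1 : -s / 2 = -(s / 2) := by ring
    rw [e1, neg_neg]
    ext i j
    fin_cases i <;> fin_cases j
    · simp [Matrix.mul_apply, Fin.sum_univ_two]
    · simp [Matrix.mul_apply, Fin.sum_univ_two]
      rw [mul_right_comm]
      push_cast at h1
      rw [h1]
    · simp [Matrix.mul_apply, Fin.sum_univ_two]
    · simp [Matrix.mul_apply, Fin.sum_univ_two]
  have h2 : nm (cj (dg (-s)) (((up q : SL) : M2) - 1)) ^ 2 = (Real.exp (-s) * ‖q‖) ^ 2 := by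
    rw [e, nm_sq, fro_eq]
    simp only [Matrix.of_apply, Matrix.cons_val', Matrix.cons_val_zero, Matrix.cons_val_one,
      Matrix.empty_val', Matrix.cons_val_fin_one, map_zero, zero_add, add_zero]
    rw [Complex.normSq_eq_norm_sq, norm_exp_ofReal]
  have h3 : 0 ≤ Real.exp (-s) * ‖q‖ := by positivity
  exact (sq_eq_sq₀ (nm_nonneg _) h3).1 h2

/-- `dg s * lo z = lo (e^{-s} z) * dg s`. -/
theorem dg_lo (z : ℂ) (s : ℝ) : dg s * lo z = lo ((Real.exp (-s) : ℂ) * z) * dg s := by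
  apply Subtype.ext
  rw [Matrix.SpecialLinearGroup.coe_mul, Matrix.SpecialLinearGroup.coe_mul, dg_coe', lo_coe',
    lo_coe']
  have h1 := exp_half_sq s
  have h2 := exp_half_mul s
  ext i j
  fin_cases i <;> fin_cases j
  · simp [Matrix.mul_apply, Fin.sum_univ_two]
  · simp [Matrix.mul_apply, Fin.sum_univ_two]
  · simp only [Fin.mk_one, Fin.zero_eta, Matrix.mul_apply, Fin.sum_univ_two, Matrix.of_apply,
      Matrix.cons_val', Matrix.cons_val_zero, Matrix.cons_val_one, Matrix.empty_val',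
      Matrix.cons_val_fin_one]
    rw [← h1]
    linear_combination (-(((Real.exp (-(s / 2)) : ℝ) : ℂ)) * z) * h2
  · simp [Matrix.mul_apply, Fin.sum_univ_two]

theorem dg_up (z : ℂ) (s : ℝ) : dg (-s) * up z = up ((Real.exp (-s) : ℂ) * z) * dg (-s) := by
  apply Subtype.ext
  rw [Matrix.SpecialLinearGroup.coe_mul, Matrix.SpecialLinearGroup.coe_mul, dg_coe', up_coe',
    up_coe']
  have h1 := exp_half_sq s
  have h2 := exp_half_mul s
  have e1 : -s / 2 = -(s / 2) := by ring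
  rw [e1, neg_neg]
  ext i j
  fin_cases i <;> fin_cases j
  · simp [Matrix.mul_apply, Fin.sum_univ_two]
  · simp only [Fin.mk_one, Fin.zero_eta, Matrix.mul_apply, Fin.sum_univ_two, Matrix.of_apply,
      Matrix.cons_val', Matrix.cons_val_zero, Matrix.cons_val_one, Matrix.empty_val',
      Matrix.cons_val_fin_one]
    rw [← h1]
    linear_combination (-(((Real.exp (-(s / 2)) : ℝ) : ℂ)) * z) * h2
  · simp [Matrix.mul_apply, Fin.sum_univ_two]
  · simp [Matrix.mul_apply, Fin.sum_univ_two]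

/-- The plane `E11` moved by `lo q` is `E11`, and its square norm in the frame `dg s * lo (-w)` is
`1 + (e^{-s} |w|)²`.

Proof. `E11 * lo q = E11`, trace `1`. `(dg s * lo (-w)) E11 (dg s * lo (-w))⁻¹ =
[[1, 0],[-w e^{-s}, 0]]`. -/
theorem fro_low (q w : ℂ) (s : ℝ) :
    fro (cj (dg s * lo (-w)) (pmv !![1, 0; 0, 0] (lo q))) = 1 + (Real.exp (-s) * ‖w‖) ^ 2 := by
  have hp : pmv !![1, 0; 0, 0] (lo q) = !![1, 0; 0, 0] := by
    unfold pmv
    have e : (!![1, 0; 0, 0] : M2) * ((lo q : SL) : M2) = !![1, 0; 0, 0] := by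
      rw [lo_coe']
      ext i j
      fin_cases i <;> fin_cases j <;> simp [Matrix.mul_apply, Fin.sum_univ_two]
    rw [e, Matrix.trace_fin_two_of]
    simp
  have h1 := exp_half_sq s
  have h2 := exp_half_mul s
  have e : cj (dg s * lo (-w)) (pmv !![1, 0; 0, 0] (lo q)) =
      !![1, 0; -((Real.exp (-s) : ℂ) * w), 0] := by
    rw [hp, ← cj_cj]
    have e1 : cj (lo (-w)) !![1, 0; 0, 0] = !![1, 0; -w, 0] := by
      unfold cj
      rw [coe_inv_eq, lo_coe']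
      ext i j
      fin_cases i <;> fin_cases j <;> simp [Matrix.mul_apply, Fin.sum_univ_two]
    rw [e1]
    unfold cj
    rw [coe_inv_eq, dg_coe']
    ext i j
    fin_cases i <;> fin_cases j
    · simp only [Fin.mk_one, Fin.zero_eta, Matrix.mul_apply, Fin.sum_univ_two, Matrix.of_apply,
        Matrix.cons_val', Matrix.cons_val_zero, Matrix.cons_val_one, Matrix.empty_val',
        Matrix.cons_val_fin_one]
      linear_combination h2
    · simp [Matrix.mul_apply, Fin.sum_univ_two]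
    · simp only [Fin.mk_one, Fin.zero_eta, Matrix.mul_apply, Fin.sum_univ_two, Matrix.of_apply,
        Matrix.cons_val', Matrix.cons_val_zero, Matrix.cons_val_one, Matrix.empty_val',
        Matrix.cons_val_fin_one]
      rw [← h1]
      ring
    · simp [Matrix.mul_apply, Fin.sum_univ_two]
  rw [e, fro_eq]
  simp only [Matrix.of_apply, Matrix.cons_val', Matrix.cons_val_zero, Matrix.cons_val_one,
    Matrix.empty_val', Matrix.cons_val_fin_one, map_zero, map_one, add_zero]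
  rw [Complex.normSq_eq_norm_sq, norm_neg, norm_exp_ofReal]

/-- The plane `E11` moved by `up q` is `[[1, q],[0, 0]]`; its square norm in the frame
`dg (-s) * up (-w)` is `1 + (e^{-s} |w + q|)²`.

Proof. `up(-w) [[1,q],[0,0]] up(w) = [[1, q + w],[0,0]]`, and `dg(-s) · dg(s)` multiplies the entry
`(0,1)` by `e^{-s}`. -/
theorem fro_up (q w : ℂ) (s : ℝ) :
    fro (cj (dg (-s) * up (-w)) (pmv !![1, 0; 0, 0] (up q))) =
      1 + (Real.exp (-s) * ‖w + q‖) ^ 2 := by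
  have hp : pmv !![1, 0; 0, 0] (up q) = !![1, q; 0, 0] := by
    unfold pmv
    have e : (!![1, 0; 0, 0] : M2) * ((up q : SL) : M2) = !![1, q; 0, 0] := by
      rw [up_coe']
      ext i j
      fin_cases i <;> fin_cases j <;> simp [Matrix.mul_apply, Fin.sum_univ_two]
    rw [e, Matrix.trace_fin_two_of]
    simp
  have h1 := exp_half_sq s
  have h2 := exp_half_mul s
  have e : cj (dg (-s) * up (-w)) (pmv !![1, 0; 0, 0] (up q)) =
      !![1, (Real.exp (-s) : ℂ) * (w + q); 0, 0] := by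
    rw [hp, ← cj_cj]
    have e1 : cj (up (-w)) !![1, q; 0, 0] = !![1, w + q; 0, 0] := by
      unfold cj
      rw [coe_inv_eq, up_coe']
      ext i j
      fin_cases i <;> fin_cases j <;> simp [Matrix.mul_apply, Fin.sum_univ_two]
    rw [e1]
    unfold cj
    rw [coe_inv_eq, dg_coe']
    have e2 : -s / 2 = -(s / 2) := by ring
    rw [e2, neg_neg]
    ext i j
    fin_cases i <;> fin_cases j
    · simp only [Fin.mk_one, Fin.zero_eta, Matrix.mul_apply, Fin.sum_univ_two, Matrix.of_apply,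
        Matrix.cons_val', Matrix.cons_val_zero, Matrix.cons_val_one, Matrix.empty_val',
        Matrix.cons_val_fin_one]
      linear_combination h2
    · simp only [Fin.mk_one, Fin.zero_eta, Matrix.mul_apply, Fin.sum_univ_two, Matrix.of_apply,
        Matrix.cons_val', Matrix.cons_val_zero, Matrix.cons_val_one, Matrix.empty_val',
        Matrix.cons_val_fin_one]
      rw [← h1]
      ring
    · simp [Matrix.mul_apply, Fin.sum_univ_two]
    · simp [Matrix.mul_apply, Fin.sum_univ_two]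
  rw [e, fro_eq]
  simp only [Matrix.of_apply, Matrix.cons_val', Matrix.cons_val_zero, Matrix.cons_val_one,
    Matrix.empty_val', Matrix.cons_val_fin_one, map_zero, map_one, add_zero]
  rw [Complex.normSq_eq_norm_sq, norm_exp_ofReal]

/-- frame adapted to `a` and `e₂`. -/
theorem lo_frame {a : V} (h : a 0 ≠ 0) (s : ℝ) :
    (∃ c : ℂ, c ≠ 0 ∧ ((dg s * lo (-(a 1 / a 0)) : SL) : M2) *ᵥ a = c • e1) ∧
      ∃ c : ℂ, c ≠ 0 ∧ ((dg s * lo (-(a 1 / a 0)) : SL) : M2) *ᵥ e2 = c • e2 := by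
  have hp : ((Real.exp (s / 2) : ℝ) : ℂ) ≠ 0 := Complex.ofReal_ne_zero.2 (Real.exp_pos _).ne'
  have hm : ((Real.exp (-(s / 2)) : ℝ) : ℂ) ≠ 0 := Complex.ofReal_ne_zero.2 (Real.exp_pos _).ne'
  constructor
  · refine ⟨((Real.exp (s / 2) : ℝ) : ℂ) * a 0, mul_ne_zero hp h, ?_⟩
    rw [Matrix.SpecialLinearGroup.coe_mul, ← Matrix.mulVec_mulVec, dg_coe', lo_coe']
    ext i
    fin_cases i
    · simp [Matrix.mulVec, dotProduct, Fin.sum_univ_two, e1]
    · simp [Matrix.mulVec, dotProduct, Fin.sum_univ_two, e1, h]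
  · refine ⟨((Real.exp (-(s / 2)) : ℝ) : ℂ), hm, ?_⟩
    rw [Matrix.SpecialLinearGroup.coe_mul, ← Matrix.mulVec_mulVec, dg_coe', lo_coe']
    ext i
    fin_cases i
    · simp [Matrix.mulVec, dotProduct, Fin.sum_univ_two, e2]
    · simp [Matrix.mulVec, dotProduct, Fin.sum_univ_two, e2]

/-- frame adapted to `e₁` and `a`. -/
theorem up_frame {a : V} (h : a 1 ≠ 0) (s : ℝ) :
    (∃ c : ℂ, c ≠ 0 ∧ ((dg (-s) * up (-(a 0 / a 1)) : SL) : M2) *ᵥ a = c • e2) ∧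
      ∃ c : ℂ, c ≠ 0 ∧ ((dg (-s) * up (-(a 0 / a 1)) : SL) : M2) *ᵥ e1 = c • e1 := by
  have hp : ((Real.exp (s / 2) : ℝ) : ℂ) ≠ 0 := Complex.ofReal_ne_zero.2 (Real.exp_pos _).ne'
  have hm : ((Real.exp (-(s / 2)) : ℝ) : ℂ) ≠ 0 := Complex.ofReal_ne_zero.2 (Real.exp_pos _).ne'
  have e3 : -s / 2 = -(s / 2) := by ring
  constructor
  · refine ⟨((Real.exp (s / 2) : ℝ) : ℂ) * a 1, mul_ne_zero hp h, ?_⟩
    rw [Matrix.SpecialLinearGroup.coe_mul, ← Matrix.mulVec_mulVec, dg_coe', up_coe', e3, neg_neg]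
    ext i
    fin_cases i
    · simp [Matrix.mulVec, dotProduct, Fin.sum_univ_two, e2, h]
    · simp [Matrix.mulVec, dotProduct, Fin.sum_univ_two, e2]
  · refine ⟨((Real.exp (-(s / 2)) : ℝ) : ℂ), hm, ?_⟩
    rw [Matrix.SpecialLinearGroup.coe_mul, ← Matrix.mulVec_mulVec, dg_coe', up_coe', e3, neg_neg]
    ext i
    fin_cases i
    · simp [Matrix.mulVec, dotProduct, Fin.sum_univ_two, e1]
    · simp [Matrix.mulVec, dotProduct, Fin.sum_univ_two, e1]

theorem lo_e2 (q : ℂ) : ((lo q : SL) : M2) *ᵥ e2 = e2 := by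
  rw [lo_coe']
  ext i
  fin_cases i <;> simp [Matrix.mulVec, dotProduct, Fin.sum_univ_two, e2]

theorem up_e1 (q : ℂ) : ((up q : SL) : M2) *ᵥ e1 = e1 := by
  rw [up_coe']
  ext i
  fin_cases i <;> simp [Matrix.mulVec, dotProduct, Fin.sum_univ_two, e1]

end HRK
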