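import Mathlib

/-!
# HRK-Q5 : a rigidity lemma for continuous functions of one complex variable
-/

namespace HRK

open Set Filter Topology

/-- Uniform version on the annulus `{δ ≤ |m| ≤ 1/δ}`.

Proof. The annulus `K` is compact. For each `m ∈ K` take the `ε_m` of the hypothesis; the balls
`B(m, ε_m)` cover `K`, take a finite subcover and `ε = min ε_m > 0`. Let `s ≠ s'` be in `B(s1, ε)`,
`ζ s ≠ ζ s'` and let `Q` be the quotient. If `Q ∈ K`, then `Q ∈ B(m, ε_m)` for one of the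
centres, and `(f s - f s') - m (ζ s - ζ s') = (Q - m)(ζ s - ζ s')` has norm
`< ε_m ‖ζ s - ζ s'‖`, contradiction. (Here `f s = ζ s + s`.) -/
theorem q5_annulus {ζ : ℂ → ℂ} {s1 : ℂ}
    (hP : ∀ m : ℂ, m ≠ 0 → ∃ ε > 0, ∀ s s' : ℂ, ‖s - s1‖ < ε → ‖s' - s1‖ < ε → ζ s ≠ ζ s' →
      ε * ‖ζ s - ζ s'‖ ≤ ‖(ζ s + s - (ζ s' + s')) - m * (ζ s - ζ s')‖)
    {δ : ℝ} (hδ : 0 < δ) (hδ1 : δ < 1) :
    ∃ ε > 0, ∀ s s' : ℂ, ‖s - s1‖ < ε → ‖s' - s1‖ < ε → ζ s ≠ ζ s' →
      ‖(ζ s + s - (ζ s' + s')) / (ζ s - ζ s')‖ < δ ∨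
        1 / δ < ‖(ζ s + s - (ζ s' + s')) / (ζ s - ζ s')‖ := by
  set K : Set ℂ := {m | δ ≤ ‖m‖ ∧ ‖m‖ ≤ 1 / δ} with hK
  have hKc : IsCompact K := by
    have hcl : IsClosed K :=
      (isClosed_le continuous_const continuous_norm).inter
        (isClosed_le continuous_norm continuous_const)
    apply Metric.isCompact_of_isClosed_isBounded hcl
    apply (Metric.isBounded_closedBall (x := (0:ℂ)) (r := 1 / δ)).subset
    intro m hm
    simpa using hm.2
  let p : Set ℂ → Prop := fun S => ∃ ε > 0, ∀ s s' : ℂ, ‖s - s1‖ < ε → ‖s' - s1‖ < ε →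
    ζ s ≠ ζ s' → (ζ s + s - (ζ s' + s')) / (ζ s - ζ s') ∉ S
  have hp : p K := by
    apply hKc.induction_on (p := p)
    · exact ⟨1, one_pos, fun s s' _ _ _ => by simp⟩
    · rintro s t hst ⟨ε, hε, h⟩
      exact ⟨ε, hε, fun a b ha hb hab hm => h a b ha hb hab (hst hm)⟩
    · rintro s t ⟨ε, hε, h⟩ ⟨ε', hε', h'⟩
      refine ⟨min ε ε', lt_min hε hε', fun a b ha hb hab hm => ?_⟩
      rcases hm with hm | hm
      · exact h a b (lt_of_lt_of_le ha (min_le_left _ _)) (lt_of_lt_of_le hb (min_le_left _ _))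
          hab hm
      · exact h' a b (lt_of_lt_of_le ha (min_le_right _ _))
          (lt_of_lt_of_le hb (min_le_right _ _)) hab hm
    · intro m hm
      have hm0 : m ≠ 0 := by
        rintro rfl
        have := hm.1
        simp at this
        linarith
      obtain ⟨ε, hε, h⟩ := hP m hm0
      refine ⟨Metric.ball m ε, mem_nhdsWithin_of_mem_nhds (Metric.ball_mem_nhds m hε), ε, hε, ?_⟩
      intro s s' hs hs' hne hmem
      have h1 := h s s' hs hs' hne
      have hd : ζ s - ζ s' ≠ 0 := sub_ne_zero.mpr hne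
      have he : (ζ s + s - (ζ s' + s')) - m * (ζ s - ζ s')
          = ((ζ s + s - (ζ s' + s')) / (ζ s - ζ s') - m) * (ζ s - ζ s') := by
        field_simp
      rw [he, norm_mul] at h1
      have h2 : ‖(ζ s + s - (ζ s' + s')) / (ζ s - ζ s') - m‖ < ε := by
        have := Metric.mem_ball.1 hmem
        rwa [dist_eq_norm] at this
      have h3 : 0 < ‖ζ s - ζ s'‖ := norm_pos_iff.mpr hd
      nlinarith
  obtain ⟨ε, hε, h⟩ := hp
  refine ⟨ε, hε, fun s s' hs hs' hne => ?_⟩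
  have h1 := h s s' hs hs' hne
  by_contra hcon
  rw [not_or, not_lt, not_lt] at hcon
  exact h1 ⟨hcon.1, hcon.2⟩

/-- The difference quotient `q = (ζ s - ζ s')/(s - s')` is near `0` or near `-1`.

Proof. If `ζ s = ζ s'`, `q = 0`. Otherwise `Q = (ζ s + s - ζ s' - s')/(ζ s - ζ s') = 1 + 1/q`.
If `‖Q‖ > 1/δ` then `‖1/q‖ ≥ 1/δ - 1`, `‖q‖ ≤ δ/(1-δ)`. If `‖Q‖ < δ` then `q + 1 = Q q`,
`‖q‖ (1 - δ) ≤ 1`, `‖q + 1‖ ≤ δ/(1 - δ)`. Here `δ = η/(1+η)`, `δ/(1-δ) = η`. -/
theorem q5_quotient {ζ : ℂ → ℂ} {s1 : ℂ}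
    (hP : ∀ m : ℂ, m ≠ 0 → ∃ ε > 0, ∀ s s' : ℂ, ‖s - s1‖ < ε → ‖s' - s1‖ < ε → ζ s ≠ ζ s' →
      ε * ‖ζ s - ζ s'‖ ≤ ‖(ζ s + s - (ζ s' + s')) - m * (ζ s - ζ s')‖)
    {η : ℝ} (hη : 0 < η) :
    ∃ ε > 0, ∀ s s' : ℂ, ‖s - s1‖ < ε → ‖s' - s1‖ < ε → s ≠ s' →
      ‖(ζ s - ζ s') / (s - s')‖ ≤ η ∨ ‖(ζ s - ζ s') / (s - s') + 1‖ ≤ η := by
  have hδ : 0 < η / (1 + η) := by positivity
  have hδ1 : η / (1 + η) < 1 := by
    rw [div_lt_one (by positivity)]
    linarith
  obtain ⟨ε, hε, h⟩ := q5_annulus hP hδ hδ1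
  refine ⟨ε, hε, fun s s' hs hs' hne => ?_⟩
  have hss : s - s' ≠ 0 := sub_ne_zero.mpr hne
  by_cases hz : ζ s = ζ s'
  · left
    rw [hz]
    simp [hη.le]
  have hd : ζ s - ζ s' ≠ 0 := sub_ne_zero.mpr hz
  set q := (ζ s - ζ s') / (s - s') with hq
  have hq0 : q ≠ 0 := div_ne_zero hd hss
  have hQ : (ζ s + s - (ζ s' + s')) / (ζ s - ζ s') = (q + 1) / q := by
    rw [hq]
    field_simp
    ring
  have hqn : 0 < ‖q‖ := norm_pos_iff.mpr hq0
  have h1 := h s s' hs hs' hz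
  rw [hQ, norm_div] at h1
  rcases h1 with h1 | h1
  · right
    rw [div_lt_div_iff₀ hqn (by positivity)] at h1
    have h2 : ‖q‖ ≤ ‖q + 1‖ + 1 := by
      have := norm_sub_le (q + 1) 1
      simpa using this
    nlinarith
  · left
    have h2 : ‖q + 1‖ ≤ ‖q‖ + 1 := by
      have := norm_add_le q 1
      simpa using this
    rw [one_div_div, div_lt_div_iff₀ hη hqn] at h1
    nlinarith

/-- One alternative holds for all pairs (with `η = 1/3`).

Proof. Let `U = B(s1, ε)`. Fix `s' ∈ U`. The function `s ↦ q(s,s')` is continuous on `U \ {s'}`, which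
is connected, with values in the union of the two disjoint closed discs `{|q| ≤ 1/3}`,
`{|q+1| ≤ 1/3}`; so it has values in one of them (call it the type of `s'`). Connectedness of a
disc minus a point: e.g. two points `s, t ∈ U \ {s'}` whose segment does not contain `s'` are joined
by the segment (convexity), and if `s'` is on the segment use a third point `w ∈ U` not on the line
(`w = s' + small · i (s - t)`): the segments `[s,w]`, `[w,t]` avoid `s'`. For two points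
`s', t'` the types agree since `q(s',t') = q(t',s')`. -/
theorem q5_type {ζ : ℂ → ℂ} {s1 : ℂ} {ε : ℝ} (hε : 0 < ε)
    (hζ : ContinuousOn ζ (Metric.ball s1 ε))
    (h : ∀ s s' : ℂ, ‖s - s1‖ < ε → ‖s' - s1‖ < ε → s ≠ s' →
      ‖(ζ s - ζ s') / (s - s')‖ ≤ 1 / 3 ∨ ‖(ζ s - ζ s') / (s - s') + 1‖ ≤ 1 / 3) :
    (∀ s s' : ℂ, ‖s - s1‖ < ε → ‖s' - s1‖ < ε → s ≠ s' → ‖(ζ s - ζ s') / (s - s')‖ ≤ 1 / 3) ∨
    (∀ s s' : ℂ, ‖s - s1‖ < ε → ‖s' - s1‖ < ε → s ≠ s' →
      ‖(ζ s - ζ s') / (s - s') + 1‖ ≤ 1 / 3) := by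
  set U := Metric.ball s1 ε with hU
  have hUm : ∀ s, s ∈ U ↔ ‖s - s1‖ < ε := fun s => by
    rw [hU, Metric.mem_ball, dist_eq_norm]
  -- two alternatives are exclusive
  have hex : ∀ q : ℂ, ‖q‖ ≤ 1 / 3 → ‖q + 1‖ ≤ 1 / 3 → False := by
    intro q h1 h2
    have h3 : ‖(1:ℂ)‖ ≤ ‖q + 1‖ + ‖q‖ := by
      have := norm_sub_le (q + 1) q
      simpa using this
    rw [norm_one] at h3
    linarith
  -- segments
  have hseg : ∀ s' ∈ U, ∀ s ∈ U, ∀ t ∈ U, s' ∉ segment ℝ s t →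
      ‖(ζ s - ζ s') / (s - s')‖ ≤ 1 / 3 → ‖(ζ t - ζ s') / (t - s')‖ ≤ 1 / 3 := by
    intro s' hs' s hs t ht hnot h1
    have hsub : segment ℝ s t ⊆ U := (convex_ball s1 ε).segment_subset hs ht
    have hpre : IsPreconnected (segment ℝ s t) := (convex_segment s t).isPreconnected
    have hcont : ContinuousOn (fun x => (ζ x - ζ s') / (x - s')) (segment ℝ s t) := by
      apply ContinuousOn.div
      · exact (hζ.mono hsub).sub continuousOn_const
      · exact continuousOn_id.sub continuousOn_const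
      · intro x hx h0
        rw [sub_eq_zero] at h0
        exact hnot (h0 ▸ hx)
    have him := hpre.image _ hcont
    have hc1 : IsClosed {q : ℂ | ‖q‖ ≤ 1 / 3} := isClosed_le continuous_norm continuous_const
    have hc2 : IsClosed {q : ℂ | ‖q + 1‖ ≤ 1 / 3} :=
      isClosed_le (continuous_id.add continuous_const).norm continuous_const
    have hcase : ∀ x ∈ segment ℝ s t, ‖(ζ x - ζ s') / (x - s')‖ ≤ 1 / 3 ∨
        ‖(ζ x - ζ s') / (x - s') + 1‖ ≤ 1 / 3 := by
      intro x hx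
      apply h x s' ((hUm x).1 (hsub hx)) ((hUm s').1 hs')
      rintro rfl
      exact hnot hx
    rcases hcase t (right_mem_segment ℝ s t) with h2 | h2
    · exact h2
    exfalso
    have := isPreconnected_closed_iff.1 him _ _ hc1 hc2 ?_ ?_ ?_
    · obtain ⟨q, _, hq1, hq2⟩ := this
      exact hex q hq1 hq2
    · rintro q ⟨x, hx, rfl⟩
      exact hcase x hx
    · exact ⟨_, ⟨s, left_mem_segment ℝ s t, rfl⟩, h1⟩
    · exact ⟨_, ⟨t, right_mem_segment ℝ s t, rfl⟩, h2⟩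
  -- all pairs
  have hall : ∀ s' ∈ U, ∀ s ∈ U, s ≠ s' → ∀ t ∈ U, t ≠ s' →
      ‖(ζ s - ζ s') / (s - s')‖ ≤ 1 / 3 → ‖(ζ t - ζ s') / (t - s')‖ ≤ 1 / 3 := by
    intro s' hs' s hs hss t ht hts h1
    by_cases hnot : s' ∈ segment ℝ s t
    swap
    · exact hseg s' hs' s hs t ht hnot h1
    -- third point
    obtain ⟨a, b, ha, hb, hab, hs'eq⟩ := hnot
    have ha0 : 0 < a := by
      rcases ha.eq_or_lt with h0 | h0
      · exfalso
        subst h0
        have hb1 : b = 1 := by linarith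
        subst hb1
        simp at hs'eq
        exact hts hs'eq
      · exact h0
    have hb0 : 0 < b := by
      rcases hb.eq_or_lt with h0 | h0
      · exfalso
        subst h0
        have ha1 : a = 1 := by linarith
        subst ha1
        simp at hs'eq
        exact hss hs'eq
      · exact h0
    set d := s - t with hd
    have hd0 : d ≠ 0 := by
      intro h0
      have hst : s = t := sub_eq_zero.1 h0
      subst hst
      apply hss
      rw [← hs'eq, ← add_smul, hab, one_smul]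
    have hs1' : s = s' + (b : ℂ) * d := by
      have e : (a : ℂ) = 1 - (b : ℂ) := by
        rw [← Complex.ofReal_one, ← hab]; push_cast; ring
      rw [← hs'eq, Complex.real_smul, Complex.real_smul, e, hd]
      ring
    have ht1' : t = s' - (a : ℂ) * d := by
      have e : (b : ℂ) = 1 - (a : ℂ) := by
        rw [← Complex.ofReal_one, ← hab]; push_cast; ring
      rw [← hs'eq, Complex.real_smul, Complex.real_smul, e, hd]
      ring
    -- choose c > 0 with s' + c i d in U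
    obtain ⟨c, hc0, hcU⟩ : ∃ c : ℝ, 0 < c ∧ s' + (c : ℂ) * Complex.I * d ∈ U := by
      have hopen : U ∈ 𝓝 s' := Metric.isOpen_ball.mem_nhds hs'
      have hc : Filter.Tendsto (fun c : ℝ => s' + (c : ℂ) * Complex.I * d) (𝓝[>] 0) (𝓝 s') := by
        have hcc : Continuous (fun c : ℝ => s' + (c : ℂ) * Complex.I * d) := by fun_prop
        have := hcc.tendsto 0
        simp only [Complex.ofReal_zero, zero_mul, add_zero] at this
        exact this.mono_left nhdsWithin_le_nhds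
      have h2 := (hc.eventually hopen).and self_mem_nhdsWithin
      obtain ⟨c, hc1, hc2⟩ := h2.exists
      exact ⟨c, hc2, hc1⟩
    set w := s' + (c : ℂ) * Complex.I * d with hw
    -- generic non-membership
    have key : ∀ x : ℝ, x ≠ 0 → s' ∉ segment ℝ (s' + (x : ℂ) * d) w := by
      rintro x hx ⟨u, v, hu, hv, huv, he⟩
      have e : (u : ℂ) = 1 - (v : ℂ) := by
        rw [← Complex.ofReal_one, ← huv]; push_cast; ring
      rw [Complex.real_smul, Complex.real_smul, hw] at he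
      have h0 : (((u * x : ℝ) : ℂ) + ((v * c : ℝ) : ℂ) * Complex.I) * d = 0 := by
        push_cast
        have : (u : ℂ) * (s' + (x : ℂ) * d) + (v : ℂ) * (s' + (c : ℂ) * Complex.I * d)
            = ((u : ℂ) + v) * s' + ((u : ℂ) * x + (v : ℂ) * c * Complex.I) * d := by ring
        rw [this, e] at he
        have h3 : (1 - (v : ℂ) + v) * s' = s' := by ring
        rw [h3] at he
        have h4 : ((1 - (v : ℂ)) * x + (v : ℂ) * c * Complex.I) * d = 0 := by
          simpa using he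
        rw [e]
        exact h4
      have h1 := (mul_eq_zero.1 h0).resolve_right hd0
      have hre := congrArg Complex.re h1
      have him := congrArg Complex.im h1
      simp only [Complex.add_re, Complex.ofReal_re, Complex.mul_re, Complex.I_re, mul_zero,
        Complex.ofReal_im, Complex.I_im, mul_one, sub_self, add_zero, Complex.zero_re,
        Complex.add_im, Complex.mul_im, zero_add, Complex.zero_im, zero_sub, neg_zero] at hre him
      have hu0 : u = 0 := by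
        rcases mul_eq_zero.1 hre with h | h
        · exact h
        · exact absurd h hx
      have hv0 : v = 0 := by
        rcases mul_eq_zero.1 him with h | h
        · exact h
        · exact absurd h hc0.ne'
      rw [hu0, hv0] at huv
      norm_num at huv
    have k1 : s' ∉ segment ℝ s w := by
      rw [hs1']
      exact key b hb0.ne'
    have k2 : s' ∉ segment ℝ w t := by
      rw [segment_symm, ht1']
      have := key (-a) (neg_ne_zero.2 ha0.ne')
      simpa [sub_eq_add_neg] using this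
    exact hseg s' hs' w hcU t ht k2 (hseg s' hs' s hs w hcU k1 h1)
  by_cases hex1 : ∃ s ∈ U, ∃ s' ∈ U, s ≠ s' ∧ ‖(ζ s - ζ s') / (s - s')‖ ≤ 1 / 3
  · left
    obtain ⟨s0, hs0, s0', hs0', hne0, h0⟩ := hex1
    have hsymm : ∀ s s' : ℂ, (ζ s - ζ s') / (s - s') = (ζ s' - ζ s) / (s' - s) := by
      intro s s'
      rw [← neg_sub (ζ s') (ζ s), ← neg_sub s' s, neg_div_neg_eq]
    have hall1 : ∀ s ∈ U, ∀ s' ∈ U, s ≠ s' → ∀ t ∈ U, t ≠ s' →
      ‖(ζ s - ζ s') / (s - s')‖ ≤ 1 / 3 → ‖(ζ t - ζ s') / (t - s')‖ ≤ 1 / 3 :=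
      fun s hs s' hs' hne t ht htn h1 => hall s' hs' s hs hne t ht htn h1
    intro s s' hs hs' hne
    have hsU := (hUm s).2 hs
    have hsU' := (hUm s').2 hs'
    -- pairs with s0'
    have A : ∀ t ∈ U, t ≠ s0' → ‖(ζ t - ζ s0') / (t - s0')‖ ≤ 1 / 3 :=
      fun t ht htn => hall1 s0 hs0 s0' hs0' hne0 t ht htn h0
    by_cases hs0s : s' = s0'
    · subst hs0s
      exact A s hsU hne
    · have h1 := A s' hsU' hs0s
      rw [hsymm] at h1
      exact hall1 s0' hs0' s' hsU' (Ne.symm hs0s) s hsU hne h1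
  · right
    intro s s' hs hs' hne
    rcases h s s' hs hs' hne with h1 | h1
    · exact absurd ⟨s, (hUm s).2 hs, s', (hUm s').2 hs', hne, h1⟩ hex1
    · exact h1

/-- **Rigidity lemma.**

Proof. `q5_quotient` at `s1 = 0` with `η = 1/3` and `q5_type` give `ε > 0` (`ε ≤ r`) and an
alternative on `U = B(0, ε)`. First alternative: for every `s2 ∈ U` and every `η < 1/3`, by
`q5_quotient` at `s2`: for `s ≠ s2` near `s2` the quotient `q(s,s2)` has `‖q‖ ≤ η` or `‖q + 1‖ ≤ η`;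
the second is impossible since `‖q‖ ≤ 1/3`. So `HasDerivAt ζ 0 s2` and `ζ` is constant on the
convex open set `U` (`Convex.is_const_of_fderivWithin_eq_zero`, or
`IsOpen.is_const_of_deriv_eq_zero`). Second alternative: the same for `s ↦ ζ s + s`, whose
difference quotient is `q + 1`. -/
theorem rigidity {r : ℝ} (hr : 0 < r) {ζ : ℂ → ℂ} (hζ : ContinuousOn ζ (Metric.ball 0 r))
    (hP : ∀ s1 ∈ Metric.ball (0:ℂ) r, ∀ m : ℂ, m ≠ 0 → ∃ ε > 0, ∀ s s' : ℂ,
      ‖s - s1‖ < ε → ‖s' - s1‖ < ε → ζ s ≠ ζ s' →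
      ε * ‖ζ s - ζ s'‖ ≤ ‖(ζ s + s - (ζ s' + s')) - m * (ζ s - ζ s')‖) :
    ∃ δ > 0, δ ≤ r ∧ ((∀ s ∈ Metric.ball (0:ℂ) δ, ζ s = ζ 0) ∨
      (∀ s ∈ Metric.ball (0:ℂ) δ, ζ s + s = ζ 0)) := by
  -- derivative zero from small quotients
  have hder : ∀ (g : ℂ → ℂ) (s2 : ℂ), (∀ η : ℝ, 0 < η → ∃ ε > 0, ∀ s : ℂ, ‖s - s2‖ < ε →
      s ≠ s2 → ‖(g s - g s2) / (s - s2)‖ ≤ η) → HasDerivAt g 0 s2 := by
    intro g s2 hg
    rw [hasDerivAt_iff_isLittleO, Asymptotics.isLittleO_iff]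
    intro η hη
    obtain ⟨ε, hε, h⟩ := hg η hη
    rw [Metric.eventually_nhds_iff]
    refine ⟨ε, hε, fun {s} hs => ?_⟩
    rw [dist_eq_norm] at hs
    by_cases hss : s = s2
    · subst hss
      simp
    · have h1 := h s hs hss
      have h2 : 0 < ‖s - s2‖ := norm_pos_iff.mpr (sub_ne_zero.mpr hss)
      rw [norm_div, div_le_iff₀ h2] at h1
      simpa using h1
  have h0r : (0:ℂ) ∈ Metric.ball (0:ℂ) r := Metric.mem_ball_self hr
  obtain ⟨ε0, hε0, hq0⟩ := q5_quotient (hP 0 h0r) (η := 1 / 3) (by norm_num)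
  set δ := min ε0 r with hδ
  have hδ0 : 0 < δ := lt_min hε0 hr
  have hδr : δ ≤ r := min_le_right _ _
  have hsubr : Metric.ball (0:ℂ) δ ⊆ Metric.ball (0:ℂ) r := Metric.ball_subset_ball hδr
  have htype := q5_type (ζ := ζ) (s1 := 0) hδ0 (hζ.mono hsubr)
    (fun s s' hs hs' hne => hq0 s s' (lt_of_lt_of_le hs (min_le_left _ _))
      (lt_of_lt_of_le hs' (min_le_left _ _)) hne)
  refine ⟨δ, hδ0, hδr, ?_⟩
  have hconst : ∀ g : ℂ → ℂ, (∀ s2 ∈ Metric.ball (0:ℂ) δ, HasDerivAt g 0 s2) →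
      ∀ s ∈ Metric.ball (0:ℂ) δ, g s = g 0 := by
    intro g hg s hs
    apply Metric.isOpen_ball.is_const_of_deriv_eq_zero (𝕜 := ℂ)
      (convex_ball (0:ℂ) δ).isPreconnected
      (fun x hx => (hg x hx).differentiableAt.differentiableWithinAt)
      (fun x hx => (hg x hx).deriv) hs (Metric.mem_ball_self hδ0)
  have hsmall : ∀ s2 ∈ Metric.ball (0:ℂ) δ, ∀ η : ℝ, 0 < η → ∃ ε > 0, ∀ s : ℂ, ‖s - s2‖ < ε →
      s ≠ s2 → s ∈ Metric.ball (0:ℂ) δ ∧ (‖(ζ s - ζ s2) / (s - s2)‖ ≤ η ∨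
        ‖(ζ s - ζ s2) / (s - s2) + 1‖ ≤ η) := by
    intro s2 hs2 η hη
    obtain ⟨ε1, hε1, h1⟩ := q5_quotient (hP s2 (hsubr hs2)) hη
    obtain ⟨ε2, hε2, h2⟩ := Metric.isOpen_iff.1 Metric.isOpen_ball s2 hs2
    refine ⟨min ε1 ε2, lt_min hε1 hε2, fun s hs hss => ⟨?_, ?_⟩⟩
    · apply h2
      rw [Metric.mem_ball, dist_eq_norm]
      exact lt_of_lt_of_le hs (min_le_right _ _)
    · apply h1 s s2 (lt_of_lt_of_le hs (min_le_left _ _)) (by simpa using hε1) hss
  have hex : ∀ q : ℂ, ‖q‖ ≤ 1 / 3 → ‖q + 1‖ ≤ 1 / 3 → False := by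
    intro q h1 h2
    have h3 : ‖(1:ℂ)‖ ≤ ‖q + 1‖ + ‖q‖ := by
      have := norm_sub_le (q + 1) q
      simpa using this
    rw [norm_one] at h3
    linarith
  rcases htype with ht | ht
  · left
    apply hconst
    intro s2 hs2
    apply hder
    intro η hη
    obtain ⟨ε, hε, h⟩ := hsmall s2 hs2 (min η (1 / 3)) (lt_min hη (by norm_num))
    refine ⟨ε, hε, fun s hs hss => ?_⟩
    obtain ⟨hsU, h1 | h1⟩ := h s hs hss
    · exact h1.trans (min_le_left _ _)
    · exfalso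
      have h2 := ht s s2 (by simpa using hsU) (by simpa using hs2) hss
      exact hex _ h2 (h1.trans (min_le_right _ _))
  · right
    have hfin : ∀ s ∈ Metric.ball (0:ℂ) δ, ζ s + s = ζ 0 + 0 := by
      apply hconst (fun s => ζ s + s)
      intro s2 hs2
      apply hder
      intro η hη
      obtain ⟨ε, hε, h⟩ := hsmall s2 hs2 (min η (1 / 3)) (lt_min hη (by norm_num))
      refine ⟨ε, hε, fun s hs hss => ?_⟩
      have hss0 : s - s2 ≠ 0 := sub_ne_zero.mpr hss
      have he : (ζ s + s - (ζ s2 + s2)) / (s - s2) = (ζ s - ζ s2) / (s - s2) + 1 := by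
        field_simp
        ring
      simp only [he]
      obtain ⟨hsU, h1 | h1⟩ := h s hs hss
      · exfalso
        have h2 := ht s s2 (by simpa using hsU) (by simpa using hs2) hss
        exact hex _ (h1.trans (min_le_right _ _)) h2
      · exact h1.trans (min_le_left _ _)
    intro s hs
    rw [hfin s hs, add_zero]

end HRK
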