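import Pool.Agent.HRK.Q7

/-!
# HRK-Q6 : BI, Borel invariance of `Σ`
-/

namespace HRK

open Set Filter Topology Matrix

universe u

variable {E : Type u} [TopologicalSpace E]

/-- Borel invariance with constant `cB`. If `a ∈ Σ(y)`, `g a = α a` and `|α - 1| < cB` then `y.g`
exists and `a ∈ Σ(y.g)`. -/
def BIp (D : E → SL) (cB : ℝ) : Prop :=
  0 < cB ∧ ∀ (y : E) (a : V) (g : SL) (α : ℂ), Sig D y a → (g : M2) *ᵥ a = α • a →
    ‖α - 1‖ < cB → ((g : M2) - 1) ∈ St D y ∧ D (ac D y g) = D y * g ∧ Sig D (ac D y g) a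

/-- **BI.**

Proof. Let `r ≤ 1/4` be the constant of `good_frame hc 1`: `m(y,k) ≤ 1` implies `FB y k r`. Put
`cB = r/16`. Let `k` be a frame with `k a = e₁` (`exists_SL_e1`, `lam = 1`).
`k g k⁻¹ = [[α, β],[0, α⁻¹]]` (`borel_form`). By `Sig_decay`, `v(y, dg(-s) k) ≤ v(y,k) e^{-s} → 0`, so
`v ≤ (1/2)²` and `m(y, dg(-s) k) ≤ 1` for all large `s` (`mD_le_of_vD` with `M = 1/2`), hence
`FB y (dg(-s) k) r`. By `nm_borel_lt` (with `r/4`) `|g - 1| < r/4` in the frame `dg(-s) k` for `s` large.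
So `g - 1 ∈ St y` (`FB`), `D_ac`; and `FB_ac` gives `FB (y.g) (dg(-s) k) (r/4)` for all `s ≥ s₁`, so
`m(y.g, dg(-s) k) ≤ 4/r` for all `s ≥ s₁` (`mD_le_of_FB`). Finally `Sig_frame` for the frame
`k' = dg(-s₁) * k` (`k' a = e^{-s₁/2} e₁`, `dg(-s) * k' = dg(-(s+s₁)) * k`). -/
theorem exists_BI [T2Space E] [ConnectedSpace E] {r0 L : ℝ} (hc : Cst r0 L) (G : Geo E r0 L)
    (hne : ∃ y ψ, 0 < eD G.D y ψ) : ∃ cB, BIp G.D cB := by
  obtain ⟨r, hr0, hr4, hgf⟩ := good_frame.{u} hc 1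
  refine ⟨r / 16, by positivity, ?_⟩
  intro y a g α hSig hga hα
  obtain ⟨k, hk⟩ := exists_SL_e1 hSig.1 (one_ne_zero : (1 : ℂ) ≠ 0)
  obtain ⟨hα0, β, hβ⟩ := borel_form one_ne_zero hk hga
  obtain ⟨s0, hs0, hs0'⟩ := nm_borel_lt hβ (r := r / 4) (by positivity) (by linarith)
    (by linarith)
  have hv0 : 0 ≤ vD G.D y k := by
    rw [vD]
    positivity
  set v := vD G.D y k with hv
  have h4v : (0 : ℝ) < 4 * v + 1 := by linarith
  have hdec : ∀ s, max s0 (Real.log (4 * v + 1)) ≤ s → FB G.D y (dg (-s) * k) r := by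
    intro s hs
    have hs1 : s0 ≤ s := le_trans (le_max_left _ _) hs
    have hs2 : Real.log (4 * v + 1) ≤ s := le_trans (le_max_right _ _) hs
    have h1 := Sig_decay hc G hne hk hSig (le_trans hs0 hs1)
    have h2 : Real.exp (-s) ≤ (4 * v + 1)⁻¹ := by
      rw [Real.exp_neg]
      apply inv_anti₀ h4v
      rw [← Real.log_le_iff_le_exp h4v]
      exact hs2
    have h3 : vD G.D y (dg (-s) * k) ≤ (1 / 2 : ℝ) ^ 2 := by
      calc vD G.D y (dg (-s) * k) ≤ v * Real.exp (-s) := h1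
        _ ≤ v * (4 * v + 1)⁻¹ := by
            apply mul_le_mul_of_nonneg_left h2 hv0
        _ ≤ (1 / 2 : ℝ) ^ 2 := by
            rw [← div_eq_mul_inv, div_le_iff₀ h4v]
            nlinarith
    have h4 := mD_le_of_vD hc G hne (by norm_num) h3
    apply hgf E G y (dg (-s) * k)
    linarith
  set s1 := max s0 (Real.log (4 * v + 1)) with hs1
  have hs01 : s0 ≤ s1 := le_max_left _ _
  have hFB1 := hdec s1 le_rfl
  have hnm1 := hs0' s1 hs01
  have hmem : ((g : M2) - 1) ∈ St G.D y := hFB1 _ (by linarith)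
  refine ⟨hmem, D_ac G.hD (by linarith) hFB1 (by linarith), ?_⟩
  have hk1 : ((dg (-s1) * k : SL) : M2) *ᵥ a = ((Real.exp (-s1 / 2) : ℝ) : ℂ) • e1 := by
    rw [Matrix.SpecialLinearGroup.coe_mul, ← Matrix.mulVec_mulVec, hk, one_smul]
    ext i
    fin_cases i <;> simp [dg, e1, Matrix.mulVec, dotProduct, Fin.sum_univ_two]
  have hne0 : ((Real.exp (-s1 / 2) : ℝ) : ℂ) ≠ 0 := by
    rw [Complex.ofReal_ne_zero]
    exact (Real.exp_pos _).ne'
  rw [Sig_frame hc G hne0 hk1]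
  refine ⟨1 / (r / 4), ?_⟩
  intro s hs
  have h5 : dg (-s) * (dg (-s1) * k) = dg (-(s + s1)) * k := by
    rw [← mul_assoc, dg_add]
    congr 2
    ring
  rw [h5]
  apply mD_le_of_FB hc G (by positivity)
  apply FB_ac G.hD hr0 (by linarith) (hdec (s + s1) (by linarith))
  exact hs0' (s + s1) (by linarith)

/-- continuity of `(y,g) ↦ y.g` at a pair `(y,g)` as in BI, in the form of neighbourhoods.

Proof. `continuousOn_ac` on the open set `{(y,g) | g - 1 ∈ St y}` (`isOpen_StGraph`). -/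
theorem ac_continuousAt [T2Space E] {D : E → SL} (hD : IsLocalHomeomorph (Dh D)) {y : E} {g : SL}
    (hg : ((g : M2) - 1) ∈ St D y) : ContinuousAt (fun q : E × SL => ac D q.1 q.2) (y, g) := by
  have h1 := continuousOn_ac hD
  have h2 : IsOpen {q : E × SL | ((q.2 : SL) : M2) - 1 ∈ St D q.1} := by
    have h3 := isOpen_StGraph hD
    have h4 : Continuous fun q : E × SL => ((q.1, ((q.2 : SL) : M2) - 1) : E × M2) := by
      apply Continuous.prodMk continuous_fst
      apply Continuous.sub _ continuous_const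
      exact continuous_subtype_val.comp continuous_snd
    exact h3.preimage h4
  exact h1.continuousAt (h2.mem_nhds hg)


end HRK
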