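import Pool.Agent.HRK.QI

/-!
# HRK-Q7 : change of frame for `Sig` and `Ct`; adapted frames
-/

namespace HRK

open Set Filter Topology Matrix

universe u

variable {E : Type u} [TopologicalSpace E] {r0 L c C : ℝ}

theorem q7_lift {D : E → SL} (k : SL) {y : E} {X : M2} {c : ℝ → E × ℂ} :
    IsLift (Dh (fun y => D y * k⁻¹)) (y, 0) (((D y * k⁻¹ : SL) : M2) * X) c ↔
      IsLift (Dh D) (y, 0) ((D y : M2) * cj k⁻¹ X) c := by
  have hD : ∀ p : E × ℂ, Dh (fun y => D y * k⁻¹) p = Dh D p * ((k⁻¹ : SL) : M2) := by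
    intro p
    show Complex.exp p.2 • ((D p.1 : M2) * ((k⁻¹ : SL) : M2)) = Complex.exp p.2 • (D p.1 : M2) * _
    rw [smul_mul_assoc]
  have hcj : cj k⁻¹ X = ((k⁻¹ : SL) : M2) * X * (k : M2) := by
    unfold cj
    rw [inv_inv]
  have hv : ((D y * k⁻¹ : SL) : M2) * X = ((D y : M2) * cj k⁻¹ X) * ((k⁻¹ : SL) : M2) := by
    rw [hcj, Matrix.SpecialLinearGroup.coe_mul]
    simp only [mul_assoc]
    rw [coe_mul_inv, mul_one]
  unfold IsLift
  rw [hv]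
  refine and_congr Iff.rfl (and_congr Iff.rfl (forall_congr' fun t => forall_congr' fun ht => ?_))
  rw [hD, hD, ← smul_mul_assoc, ← add_mul]
  constructor
  · intro h
    have h1 := congrArg (fun M : M2 => M * (k : M2)) h
    simp only [mul_assoc] at h1
    rw [coe_inv_mul, mul_one, mul_one] at h1
    exact h1
  · intro h
    rw [h]

theorem q7_mem_St_conj {D : E → SL} (k : SL) {y : E} {X : M2} :
    X ∈ St (fun y => D y * k⁻¹) y ↔ cj k⁻¹ X ∈ St D y := by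
  constructor
  · rintro ⟨c, hc⟩
    exact ⟨c, (q7_lift k).1 hc⟩
  · rintro ⟨c, hc⟩
    exact ⟨c, (q7_lift k).2 hc⟩

theorem q7_eD_conj {D : E → SL} (k : SL) (y : E) (ψ : V) :
    eD (fun y => D y * k⁻¹) y ψ = eD D y (((k⁻¹ : SL) : M2) *ᵥ ψ) := by
  unfold eD
  congr 1
  ext ρ
  refine and_congr Iff.rfl (forall_congr' fun t => forall_congr' fun _ => ?_)
  rw [q7_mem_St_conj, cj_smul, cj_nn]

theorem q7_ac_not {D : E → SL} {y : E} {g : SL} (h : (g : M2) - 1 ∉ St D y) : ac D y g = y := by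
  have h1 : ¬ ∃ c, IsLift (Dh D) (y, 0) ((D y : M2) * ((g : M2) - 1)) c := h
  unfold ac mvp exh ext
  rw [dif_neg h1]

/-- Proof. `eD_conj`: `e'(y, k φ) = e(y, φ)`; `om (k a) (k φ) = om a φ` (`om_mulVec`),
`vn (k φ) ≤ nm k * vn φ` and `vn φ ≤ nm k⁻¹ * vn (k φ)`. -/
theorem Sig_conj {D : E → SL} (k : SL) (y : E) (a : V) :
    Sig (fun y => D y * k⁻¹) y ((k : M2) *ᵥ a) ↔ Sig D y a := by
  constructor
  · rintro ⟨ha, C, hC⟩
    refine ⟨?_, |C| * nm (k : M2), ?_⟩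
    · rintro rfl
      exact ha (Matrix.mulVec_zero _)
    · intro ψ
      have h1 := hC ((k : M2) *ᵥ ψ)
      rw [q7_eD_conj, Matrix.mulVec_mulVec, coe_inv_mul, Matrix.one_mulVec, om_mulVec] at h1
      refine h1.trans ?_
      have h2 := vn_mulVec_le (k : M2) ψ
      have h3 := norm_nonneg (om a ψ)
      have h4 := le_abs_self C
      have h5 := vn_nonneg ((k : M2) *ᵥ ψ)
      calc C * ‖om a ψ‖ * vn ((k : M2) *ᵥ ψ)
          ≤ |C| * ‖om a ψ‖ * (nm (k : M2) * vn ψ) := by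
            refine mul_le_mul ?_ h2 h5 (by positivity)
            exact mul_le_mul_of_nonneg_right h4 h3
        _ = |C| * nm (k : M2) * ‖om a ψ‖ * vn ψ := by ring
  · rintro ⟨ha, C, hC⟩
    refine ⟨mulVec_ne_zero k ha, |C| * nm (k : M2), ?_⟩
    intro ψ
    rw [q7_eD_conj]
    have h1 := hC (((k⁻¹ : SL) : M2) *ᵥ ψ)
    have h6 : om a (((k⁻¹ : SL) : M2) *ᵥ ψ) = om ((k : M2) *ᵥ a) ψ := by
      rw [← om_mulVec k a, mulVec_inv_mulVec]
    rw [h6] at h1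
    refine h1.trans ?_
    have h2 := vn_mulVec_le ((k⁻¹ : SL) : M2) ψ
    rw [nm_inv] at h2
    have h3 := norm_nonneg (om ((k : M2) *ᵥ a) ψ)
    have h4 := le_abs_self C
    have h5 := vn_nonneg (((k⁻¹ : SL) : M2) *ᵥ ψ)
    calc C * ‖om ((k : M2) *ᵥ a) ψ‖ * vn (((k⁻¹ : SL) : M2) *ᵥ ψ)
        ≤ |C| * ‖om ((k : M2) *ᵥ a) ψ‖ * (nm (k : M2) * vn ψ) := by
          refine mul_le_mul ?_ h2 h5 (by positivity)
          exact mul_le_mul_of_nonneg_right h4 h3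
      _ = |C| * nm (k : M2) * ‖om ((k : M2) *ᵥ a) ψ‖ * vn ψ := by ring

/-- Proof. `Sig_conj` with `a = k⁻¹ a'`. -/
theorem Sig_conj' {D : E → SL} (k : SL) (y : E) (a' : V) :
    Sig (fun y => D y * k⁻¹) y a' ↔ Sig D y (((k⁻¹ : SL) : M2) *ᵥ a') := by
  have h := Sig_conj (D := D) k y (((k⁻¹ : SL) : M2) *ᵥ a')
  rwa [mulVec_inv_mulVec] at h

/-- `ac_conj` for all `g`. Proof. If `cj k⁻¹ (g - 1) ∈ St D y` this is `ac_conj`. Otherwise
`g - 1 ∉ St (D k⁻¹) y` (`mem_St_conj`) and both sides are `y` (by definition `ext` is the base point when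
there is no lift, `dif_neg`; `(k⁻¹ * g * k : SL) - 1 = cj k⁻¹ (g - 1)`). -/
theorem ac_conj_all [T2Space E] {D : E → SL} (hD : IsLocalHomeomorph (Dh D)) (k : SL) (y : E)
    (g : SL) : ac (fun y => D y * k⁻¹) y g = ac D y (k⁻¹ * g * k) := by
  by_cases hX : cj k⁻¹ ((g : M2) - 1) ∈ St D y
  · exact ac_conj hD k hX
  · have h1 : (g : M2) - 1 ∉ St (fun y => D y * k⁻¹) y := fun h => hX ((mem_St_conj k).1 h)
    have h2 : ((k⁻¹ * g * k : SL) : M2) - 1 ∉ St D y := by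
      have h3 : cj k⁻¹ ((g : M2) - 1) = ((k⁻¹ * g * k : SL) : M2) - 1 := by
        rw [cj_sub, cj_one, cj_coe, inv_inv]
      rwa [← h3]
    rw [q7_ac_not h1, q7_ac_not h2]

/-- Proof. `mD_conj`; `IsPl.conj`; `cj 1 (cj k P) = cj k P` (`one_cj`); for `g`, `ψ'` put
`g' = k⁻¹ g k`: `nm (cj k (g' - 1)) = nm (g - 1)`, `ac_conj_all`, `pmv (cj k P) g = cj k (pmv P g')`
(`cj_pmv`), and `SVis_conj` with `ψ := k⁻¹ ψ'`. -/
theorem Ct_conj [T2Space E] (G : Geo E r0 L) {y : E} {k : SL} {P : M2} (h : Ct G c C y k P) :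
    Ct (G.conj k) c C y 1 (cj k P) := by
  obtain ⟨hm, hP, hH, hV⟩ := h
  refine ⟨?_, hP.conj k, ?_, ?_⟩
  · have h1 := mD_conj (D := G.D) k 1 y
    rw [one_mul] at h1
    exact h1.trans hm
  · rw [one_cj]
    exact hH
  · intro ψ hψ hq g ψ' hg hψ'
    rw [one_cj] at hq hg
    have e1 : cj k (((k⁻¹ * g * k : SL) : M2) - 1) = (g : M2) - 1 := by
      rw [cj_sub, cj_one, cj_coe]
      congr 2
      group
    have h1 := hV ψ hψ hq (k⁻¹ * g * k) ψ' (by rw [e1]; exact hg) hψ'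
    rw [← SVis_conj G k, mulVec_inv_mulVec, cj_pmv] at h1
    have e2 : k * (k⁻¹ * g * k) * k⁻¹ = g := by group
    rw [e2] at h1
    have e3 : ac (G.conj k).D y g = ac G.D y (k⁻¹ * g * k) := ac_conj_all G.hD k y g
    rw [e3, inv_one, Matrix.SpecialLinearGroup.coe_one, Matrix.one_mulVec]
    exact h1

/-- Proof. `eD_conj` with `ψ = k φ`. -/
theorem hne_conj [T2Space E] (G : Geo E r0 L) (k : SL) (hne : ∃ y ψ, 0 < eD G.D y ψ) :
    ∃ y ψ, 0 < eD (G.conj k).D y ψ := by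
  obtain ⟨y, ψ, h⟩ := hne
  refine ⟨y, (k : M2) *ᵥ ψ, ?_⟩
  have e : eD (G.conj k).D y ((k : M2) *ᵥ ψ) = eD G.D y ψ := by
    have h1 := eD_conj (D := G.D) k y ((k : M2) *ᵥ ψ)
    rw [inv_mulVec_mulVec] at h1
    exact h1
  rw [e]
  exact h

/-- A frame taking `a` to a multiple of `e₂`. Proof. `exists_SL_e1` gives `k a = e₁`; `w0 e₁ = -e₂`. -/
theorem exists_SL_e2 {a : V} (h : a ≠ 0) : ∃ k : SL, (k : M2) *ᵥ a = (-1 : ℂ) • e2 := by
  obtain ⟨k, hk⟩ := exists_SL_e1 h (lam := 1) one_ne_zero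
  refine ⟨w0 * k, ?_⟩
  rw [Matrix.SpecialLinearGroup.coe_mul, ← Matrix.mulVec_mulVec, hk, one_smul, w0_mulVec_e1,
    neg_smul, one_smul]

/-- Two directions in `Σ(y)`, adapted frame.

Proof. `exists_frame_two`: `k a = e₁`, `k a' = δ e₂`. `Sig_two`: `m(y,k) = 1/2`; `Ct_exists`: `P`;
`Sig_two_plane`: `cj k P = E11` or `E22`. In the first case take `k`; in the second case
`k₁ = w0 * k` (`Ct.unitary`, `IsU_w0`): `cj k₁ P = cj w0 E22 = E11`, `k₁ a = -e₂`, `k₁ a' = δ e₁`. In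
both cases `k₁⁻¹ e₁` and `k₁⁻¹ e₂` are multiples of `a, a'` (in some order), so they are in `Σ(y)`
(`Sig_smul`). -/
theorem exists_two_frame [T2Space E] [ConnectedSpace E] (hc : Cst r0 L)
    (hV : VisPkg.{u} r0 L c C) (G : Geo E r0 L) (hne : ∃ y ψ, 0 < eD G.D y ψ) {y : E} {a a' : V}
    (h : om a a' ≠ 0) (h1 : Sig G.D y a) (h2 : Sig G.D y a') :
    ∃ (k : SL) (P : M2), Ct G c C y k P ∧ cj k P = !![1, 0; 0, 0] ∧
      Sig G.D y (((k⁻¹ : SL) : M2) *ᵥ e1) ∧ Sig G.D y (((k⁻¹ : SL) : M2) *ᵥ e2) := by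
  obtain ⟨k, hk, hk'⟩ := exists_frame_two h
  have hδ : om a a' ≠ 0 := h
  have hm := Sig_two hc G hne hk hk' h1 h2
  obtain ⟨P, hP⟩ := Ct_exists hV G hm
  have e1' : ((k⁻¹ : SL) : M2) *ᵥ e1 = a := by
    rw [← inv_mulVec_mulVec k a, hk, one_smul]
  have e2' : ((k⁻¹ : SL) : M2) *ᵥ e2 = (om a a')⁻¹ • a' := by
    have h3 : (om a a')⁻¹ • ((k : M2) *ᵥ a') = e2 := by
      rw [hk', smul_smul, inv_mul_cancel₀ hδ, one_smul]
    rw [← h3, Matrix.mulVec_smul, inv_mulVec_mulVec]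
  have s1 : Sig G.D y (((k⁻¹ : SL) : M2) *ᵥ e1) := by rw [e1']; exact h1
  have s2 : Sig G.D y (((k⁻¹ : SL) : M2) *ᵥ e2) := by
    rw [e2']
    exact (Sig_smul G.D y a' (inv_ne_zero hδ)).mpr h2
  rcases Sig_two_plane hc hV G hne hk hk' h1 h2 hP with h3 | h3
  · exact ⟨k, P, hP, h3, s1, s2⟩
  · refine ⟨w0 * k, P, hP.unitary hc IsU_w0, ?_, ?_, ?_⟩
    · rw [← cj_cj, h3]
      unfold cj
      rw [coe_inv_eq]
      ext i j
      fin_cases i <;> fin_cases j <;>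
        simp [w0, Matrix.mul_apply, Fin.sum_univ_two]
    · rw [_root_.mul_inv_rev, Matrix.SpecialLinearGroup.coe_mul, ← Matrix.mulVec_mulVec,
        ← w0_mulVec_e2, inv_mulVec_mulVec]
      exact s2
    · have h4 : ((w0⁻¹ : SL) : M2) *ᵥ e2 = (-1 : ℂ) • e1 := by
        have h5 : e2 = (w0 : M2) *ᵥ ((-1 : ℂ) • e1) := by
          rw [Matrix.mulVec_smul, w0_mulVec_e1, neg_smul, one_smul, neg_neg]
        rw [h5, inv_mulVec_mulVec]
      rw [_root_.mul_inv_rev, Matrix.SpecialLinearGroup.coe_mul, ← Matrix.mulVec_mulVec, h4,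
        Matrix.mulVec_smul]
      exact (Sig_smul G.D y _ (neg_ne_zero.mpr one_ne_zero)).mpr s1

/-- A direction of `Σ(y)` at a point with a contact plane is the range or the kernel.

Proof. Choose a unitary `u` with `(u k) a = c e₁`, `c ≠ 0`
(`exists_unitary_e1` for the unit vector `k a/|k a|`). `Ct.unitary`: `Ct y (u k) P`, so `v(y, u k) = 0`
and `Sig_decay` gives `v(y, dg(-s) (u k)) ≤ 0` for `s ≥ 0`. Take `s > 0` with `nm (dg (-s) - 1) < c4`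
(`Ct_lower`), `g = 1` (`ac_one`, `pmv_one`): `fro (cj (dg (-s) * (u * k)) P) ≤ 1`; `hermitian_of_fro`,
`range_or_kernel`. -/
theorem Ct_Sig [T2Space E] [ConnectedSpace E] (hc : Cst r0 L)
    (hV : VisPkg.{u} r0 L c C) (G : Geo E r0 L) (hne : ∃ y ψ, 0 < eD G.D y ψ) {y : E} {k : SL}
    {P : M2} (h : Ct G c C y k P) {a : V} (ha : Sig G.D y a) : P *ᵥ a = a ∨ P *ᵥ a = 0 := by
  obtain ⟨c4, hc4, hlow⟩ := Ct_lower hV
  have ha0 : a ≠ 0 := ha.1
  have hb0 : (k : M2) *ᵥ a ≠ 0 := mulVec_ne_zero k ha0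
  have hvn : 0 < vn ((k : M2) *ᵥ a) := by
    rcases (vn_nonneg ((k : M2) *ᵥ a)).lt_or_eq with h1 | h1
    · exact h1
    · exact absurd (vn_eq_zero.mp h1.symm) hb0
  set t : ℝ := vn ((k : M2) *ᵥ a) with ht
  have ht0 : ((t : ℝ) : ℂ) ≠ 0 := Complex.ofReal_ne_zero.mpr hvn.ne'
  have hunit : nsq (((t : ℝ) : ℂ)⁻¹ • ((k : M2) *ᵥ a)) = 1 := by
    rw [nsq_smul, norm_inv, Complex.norm_real, Real.norm_eq_abs, abs_of_pos hvn, ← vn_sq, ← ht]
    field_simp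
  obtain ⟨u, hu, hue⟩ := exists_unitary_e1 hunit
  have huk : ((u * k : SL) : M2) *ᵥ a = ((t : ℝ) : ℂ) • e1 := by
    rw [Matrix.SpecialLinearGroup.coe_mul, ← Matrix.mulVec_mulVec, ← hue, Matrix.mulVec_smul,
      smul_smul, mul_inv_cancel₀ ht0, one_smul]
  have hCu := h.unitary hc hu
  obtain ⟨s, hs, hsc⟩ : ∃ s : ℝ, 0 < s ∧ nm ((dg (-s) : M2) - 1) < c4 := by
    have hcont : Continuous fun s : ℝ => nm ((dg (-s) : M2) - 1) := by
      have h1 : Continuous fun s : ℝ => (dg (-s) : M2) :=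
        isEmbedding_coe.continuous.comp (continuous_dg.comp continuous_neg)
      exact continuous_nm.comp (h1.sub continuous_const)
    have h0 : nm ((dg (-0) : M2) - 1) < c4 := by
      rw [neg_zero, dg_zero, Matrix.SpecialLinearGroup.coe_one, sub_self, nm_zero]
      exact hc4
    have hev : ∀ᶠ s in 𝓝 (0:ℝ), nm ((dg (-s) : M2) - 1) < c4 :=
      hcont.continuousAt.eventually_lt continuousAt_const h0
    obtain ⟨ε, hε, hball⟩ := Metric.eventually_nhds_iff.mp hev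
    refine ⟨ε / 2, by positivity, hball ?_⟩
    rw [Real.dist_eq, sub_zero, abs_of_pos (by positivity)]
    linarith
  have h5 := hlow E G y (u * k) P hCu 1 (dg (-s))
    (by rw [Matrix.SpecialLinearGroup.coe_one, sub_self, cj_zero, nm_zero]; exact hc4) hsc
  rw [ac_one G.hD, pmv_one hCu.isPl] at h5
  have h6 := Sig_decay hc G hne huk ha hs.le
  rw [vD_of_half hCu.1, zero_mul] at h6
  have h7 : fro (cj (dg (-s) * (u * k)) P) ≤ 1 := by linarith
  exact range_or_kernel hCu.isPl hs.ne' hCu.herm (hermitian_of_fro hCu.isPl h7) ht0 huk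

end HRK
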