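import Pool.Agent.HRK.Q6

/-!
# HRK-Q8 : case (B ii), leaves of `Σ` when `Σ(y)` is a single line for all `y`
-/

namespace HRK

open Set Filter Topology Matrix

universe u

variable {E : Type u} [TopologicalSpace E]

/-- `Σ(y)` is exactly one line for every `y`. -/
def Uni (D : E → SL) : Prop :=
  (∀ y, ∃ a, Sig D y a) ∧ ∀ y a a', Sig D y a → Sig D y a' → om a a' = 0

/-- leaf relation: every pair of lines `(a, D(y') a)`, `a ∈ Σ(y')`, realised at points `y'` near `y`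
is realised at points near `z`. -/
def LR (D : E → SL) (y z : E) : Prop :=
  ∀ N ∈ 𝓝 z, ∀ᶠ y' in 𝓝 y, ∀ a, Sig D y' a →
    ∃ z' ∈ N, Sig D z' a ∧ om ((D z' : M2) *ᵥ a) ((D y' : M2) *ᵥ a) = 0

theorem q8_unit {D : E → SL} {y : E} (h : ∃ a, Sig D y a) : ∃ b, nsq b = 1 ∧ Sig D y b := by
  obtain ⟨a, ha⟩ := h
  have hv : vn a ≠ 0 := fun h0 => ha.1 (vn_eq_zero.1 h0)
  have hv' : ((vn a : ℂ))⁻¹ ≠ 0 := inv_ne_zero (by exact_mod_cast hv)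
  refine ⟨((vn a : ℂ))⁻¹ • a, ?_, (Sig_smul D y a hv').2 ha⟩
  rw [nsq_smul, norm_inv, Complex.norm_real, Real.norm_eq_abs, abs_of_nonneg (vn_nonneg a),
    ← vn_sq, ← mul_pow, inv_mul_cancel₀ hv, one_pow]

/-- Continuity of `y ↦ Σ(y)`.

Proof. Suppose not: there is a neighbourhood `O` of `a₀` and the set
`Z = {y | no a ∈ O is in Σ(y)}` meets every neighbourhood of `y₀`, i.e. `F = 𝓝 y₀ ⊓ 𝓟 Z` is a proper
filter. For `y` choose `b(y) ∈ Σ(y)` with `nsq b(y) = 1` (`Sig_smul`). By compactness of the unit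
sphere (`isCompact_sphere`) there is an ultrafilter `𝒰 ≤ F` along which `b` converges to a unit
vector `b*`; `Sig_closed` gives `b* ∈ Σ(y₀)`, so `om a₀ b* = 0` and `a₀ = c b*`, `c ≠ 0`
(`om_eq_zero`). Then `c b(y) → a₀` along `𝒰`, so `c b(y) ∈ O` for some `y ∈ Z`, and
`c b(y) ∈ Σ(y)`: contradiction. -/
theorem Sig_near [T2Space E] [ConnectedSpace E] {r0 L : ℝ} (hc : Cst r0 L) (G : Geo E r0 L)
    (hne : ∃ y ψ, 0 < eD G.D y ψ) (hU : Uni G.D) {y : E} {a : V} (ha : Sig G.D y a)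
    {O : Set V} (hO : O ∈ 𝓝 a) : ∀ᶠ y' in 𝓝 y, ∃ a' ∈ O, Sig G.D y' a' := by
  classical
  by_contra hcon
  set Z : Set E := {y' | ¬ ∃ a' ∈ O, Sig G.D y' a'} with hZ
  have hfr : ∃ᶠ y' in 𝓝 y, y' ∈ Z := by
    intro hn
    apply hcon
    filter_upwards [hn] with y' hy'
    exact not_not.1 hy'
  have hNB : NeBot (𝓝 y ⊓ 𝓟 Z) := frequently_mem_iff_neBot.1 hfr
  obtain ⟨𝒰, h𝒰⟩ := Ultrafilter.exists_le (𝓝 y ⊓ 𝓟 Z)
  have hy𝒰 : (𝒰 : Filter E) ≤ 𝓝 y := h𝒰.trans inf_le_left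
  have hZ𝒰 : ∀ᶠ y' in (𝒰 : Filter E), y' ∈ Z := (h𝒰.trans inf_le_right) (mem_principal_self Z)
  choose b hb1 hb using fun y' => q8_unit (hU.1 y')
  obtain ⟨bs, hbs1, hbs⟩ := isCompact_sphere.ultrafilter_le_nhds (𝒰.map b)
    (by
      rw [Ultrafilter.coe_map]
      exact (tendsto_principal.2 (Eventually.of_forall fun y' => hb1 y')))
  have hbt : Tendsto b (𝒰 : Filter E) (𝓝 bs) := by
    rw [Ultrafilter.coe_map] at hbs
    exact hbs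
  have hbs0 : bs ≠ 0 := by
    rintro rfl
    have : nsq (0 : V) = 1 := hbs1
    rw [← vn_sq, vn_eq_zero.2 rfl] at this
    norm_num at this
  have hS : Sig G.D y bs :=
    Sig_closed hc G hne (y_ := fun y' => y') hy𝒰 hbt hbs0 (Eventually.of_forall fun y' => hb y')
  obtain ⟨c, hc'⟩ := (om_eq_zero hbs0).1 (hU.2 y bs a hS ha)
  have hc0 : c ≠ 0 := by
    rintro rfl
    rw [zero_smul] at hc'
    exact ha.1 hc'
  have ht : Tendsto (fun y' => c • b y') (𝒰 : Filter E) (𝓝 a) := by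
    rw [hc']
    exact hbt.const_smul c
  obtain ⟨y', hy'O, hy'Z⟩ := ((ht.eventually hO).and hZ𝒰).exists
  exact hy'Z ⟨c • b y', hy'O, (Sig_smul G.D y' (b y') hc0).2 (hb y')⟩

theorem LR_refl (D : E → SL) (y : E) : LR D y y := by
  intro N hN
  filter_upwards [hN] with y' hy' a ha
  exact ⟨y', hy', ha, om_self _⟩

/-- Proof. Given `N ∈ 𝓝 w`, the set of `z'` good for `(z, w)` is a neighbourhood `N'` of `z`; use the
relation `(y,z)` with `N'`. The vectors `D(w') a, D(z') a, D(y') a` are nonzero and pairwise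
proportional (`om_trans`). -/
theorem LR_trans {D : E → SL} {y z w : E} (h1 : LR D y z) (h2 : LR D z w) : LR D y w := by
  intro N hN
  have h2' := h2 N hN
  filter_upwards [h1 _ h2'] with y' hy' a ha
  obtain ⟨z', hz', hz'a, hom⟩ := hy' a ha
  obtain ⟨w', hw', hw'a, hom'⟩ := hz' a hz'a
  exact ⟨w', hw', hw'a, om_trans (mulVec_ne_zero (D z') ha.1) hom' hom⟩

theorem q8_exists_e1 {a : V} (h : a ≠ 0) : ∃ k : SL, (k : M2) *ᵥ a = e1 := by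
  obtain ⟨k, hk⟩ := exists_SL_e1 h (one_ne_zero (α := ℂ))
  exact ⟨k, by rw [hk, one_smul]⟩

theorem q8_vec {v : V} (h : v 0 ≠ 0) : v = v 0 • (![1, v 1 / v 0] : V) := by
  funext i
  fin_cases i
  · simp
  · simp [mul_div_cancel₀ _ h]

theorem q8_conj_eq {q g : SL} {a a' : V} {x α : ℂ} (h : a' = x • ((q : M2) *ᵥ a))
    (hg : (g : M2) *ᵥ a = α • a) :
    (q : M2) *ᵥ ((g : M2) *ᵥ (((q⁻¹ : SL) : M2) *ᵥ a')) = α • a' := by
  subst h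
  rw [Matrix.mulVec_smul, inv_mulVec_mulVec, Matrix.mulVec_smul, hg, Matrix.mulVec_smul,
    Matrix.mulVec_smul, smul_comm]

theorem continuous_q8_lo : Continuous lo := by
  rw [isEmbedding_coe.continuous_iff]
  refine continuous_matrix fun i j => ?_
  fin_cases i <;> fin_cases j <;> simp [lo] <;> fun_prop

theorem q8_lo_zero : lo 0 = 1 := by
  apply Subtype.ext
  ext i j
  fin_cases i <;> fin_cases j <;> simp [lo]

theorem q8_lo_e1 (q : ℂ) : ((lo q : SL) : M2) *ᵥ e1 = ![1, q] := by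
  funext i
  fin_cases i <;> simp [lo, e1, Matrix.mulVec, dotProduct, Fin.sum_univ_two]

/-- The conjugate of `g` fixing a nearby line. Let `k a = c e₁`, `g a = α a`. For every neighbourhood
`O₁` of `g` there is a neighbourhood `O` of `a` such that for `a' ∈ O` there is `g' ∈ O₁` with
`g' a' = α a'`.

Proof. For `a'` near `a`, `k a' = (x, z)` with `x` near `c`; `p = k⁻¹ (lo (z/x)) k` satisfies
`p a = k⁻¹ (lo (z/x)) (c, 0) = k⁻¹ (c, c z/x) = (c/x) a'`. Take `g' = p g p⁻¹`; `p → 1` as `a' → a`. -/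
theorem conj_near {g : SL} {a : V} {α : ℂ} (ha : a ≠ 0) (hg : (g : M2) *ᵥ a = α • a)
    {O₁ : Set SL} (hO : O₁ ∈ 𝓝 g) :
    ∃ O ∈ 𝓝 a, ∀ a' ∈ O, ∃ g' ∈ O₁, (g' : M2) *ᵥ a' = α • a' := by
  obtain ⟨k, hk⟩ := q8_exists_e1 ha
  have hcmv : Continuous fun a' : V => (k : M2) *ᵥ a' :=
    continuous_const.matrix_mulVec continuous_id
  have hc0 : Continuous fun a' : V => ((k : M2) *ᵥ a') 0 := (continuous_apply 0).comp hcmv
  have hc1 : Continuous fun a' : V => ((k : M2) *ᵥ a') 1 := (continuous_apply 1).comp hcmv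
  have hka0 : ((k : M2) *ᵥ a) 0 = 1 := by rw [hk]; rfl
  have hka1 : ((k : M2) *ᵥ a) 1 = 0 := by rw [hk]; rfl
  set p : V → SL := fun a' => k⁻¹ * lo (((k : M2) *ᵥ a') 1 / ((k : M2) *ᵥ a') 0) * k with hp
  have hpc : ContinuousAt p a := by
    refine (continuousAt_const.mul ?_).mul continuousAt_const
    refine continuous_q8_lo.continuousAt.comp ?_
    exact hc1.continuousAt.div hc0.continuousAt (by rw [hka0]; exact one_ne_zero)
  have hpa : p a = 1 := by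
    simp only [hp, hka0, hka1, zero_div, q8_lo_zero]
    group
  have hconj : ContinuousAt (fun a' => p a' * g * (p a')⁻¹) a :=
    (hpc.mul continuousAt_const).mul hpc.inv
  have hmem : ∀ᶠ a' in 𝓝 a, p a' * g * (p a')⁻¹ ∈ O₁ := by
    apply hconj
    change O₁ ∈ 𝓝 (p a * g * (p a)⁻¹)
    rw [hpa, one_mul, inv_one, mul_one]
    exact hO
  have hne0 : ∀ᶠ a' in 𝓝 a, ((k : M2) *ᵥ a') 0 ≠ 0 :=
    hc0.continuousAt.eventually_ne (by rw [hka0]; exact one_ne_zero)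
  refine ⟨_, hmem.and hne0, ?_⟩
  rintro a' ⟨ha'1, ha'2⟩
  refine ⟨_, ha'1, ?_⟩
  have hpa' : a' = ((k : M2) *ᵥ a') 0 • ((p a' : SL) : M2) *ᵥ a := by
    have e1' : ((p a' : SL) : M2) *ᵥ a =
        ((k⁻¹ : SL) : M2) *ᵥ (![1, ((k : M2) *ᵥ a') 1 / ((k : M2) *ᵥ a') 0]) := by
      simp only [hp, Matrix.SpecialLinearGroup.coe_mul]
      rw [← Matrix.mulVec_mulVec, ← Matrix.mulVec_mulVec, hk, q8_lo_e1]
    have e2' : (k : M2) *ᵥ a' =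
        ((k : M2) *ᵥ a') 0 • (![1, ((k : M2) *ᵥ a') 1 / ((k : M2) *ᵥ a') 0] : V) :=
      q8_vec ha'2
    rw [e1', ← Matrix.mulVec_smul, ← e2', inv_mulVec_mulVec]
  rw [Matrix.SpecialLinearGroup.coe_mul, Matrix.SpecialLinearGroup.coe_mul, ← Matrix.mulVec_mulVec,
    ← Matrix.mulVec_mulVec]
  exact q8_conj_eq hpa' hg

/-- One step along the leaf.

Proof. Let `N ∈ 𝓝 (y.g)`. By BI `g - 1 ∈ St y`, so by `ac_continuousAt` there are `N₁ ∈ 𝓝 y`,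
`O₁ ∈ 𝓝 g` with `y'.g' ∈ N` for `y' ∈ N₁`, `g' ∈ O₁`. Take `O` from `conj_near`. By `Sig_near`
eventually `y'` has some `a' ∈ O` in `Σ(y')`, `a' ≠ 0`. Let `a'' ∈ Σ(y')`; by uniqueness `a'' = t a'`,
so with `g' ∈ O₁`, `g' a' = α a'` also `g' a'' = α a''`. By BI: `z' = y'.g' ∈ N`, `a'' ∈ Σ(z')`,
`D(z') a'' = D(y') g' a'' = α D(y') a''`. -/
theorem LR_step [T2Space E] [ConnectedSpace E] {r0 L : ℝ} (hc : Cst r0 L) (G : Geo E r0 L)
    (hne : ∃ y ψ, 0 < eD G.D y ψ) (hU : Uni G.D) {cB : ℝ} (hB : BIp G.D cB) {y : E} {a : V}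
    {g : SL} {α : ℂ} (ha : Sig G.D y a) (hg : (g : M2) *ᵥ a = α • a) (hα : ‖α - 1‖ < cB) :
    LR G.D y (ac G.D y g) := by
  intro N hN
  have hgS := (hB.2 y a g α ha hg hα).1
  have hcont := ac_continuousAt G.hD hgS
  have hpre : {q : E × SL | ac G.D q.1 q.2 ∈ N} ∈ 𝓝 (y, g) := hcont hN
  obtain ⟨N₁, hN₁, O₁, hO₁, hsub⟩ := mem_nhds_prod_iff.1 hpre
  obtain ⟨O, hO, hOp⟩ := conj_near ha.1 hg hO₁
  filter_upwards [hN₁, Sig_near hc G hne hU ha hO] with y' hy' hy'' a'' ha''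
  obtain ⟨a', ha'O, ha'⟩ := hy''
  obtain ⟨g', hg'O, hg'⟩ := hOp a' ha'O
  obtain ⟨t, rfl⟩ := (om_eq_zero ha'.1).1 (hU.2 y' a' a'' ha' ha'')
  have hg'' : (g' : M2) *ᵥ (t • a') = α • (t • a') := by
    rw [Matrix.mulVec_smul, hg', smul_comm]
  obtain ⟨_, hD, hS⟩ := hB.2 y' (t • a') g' α ha'' hg'' hα
  have hin := hsub (mk_mem_prod hy' hg'O)
  rw [mem_ofPred_eq] at hin
  refine ⟨ac G.D y' g', hin, hS, ?_⟩
  rw [hD, Matrix.SpecialLinearGroup.coe_mul, ← Matrix.mulVec_mulVec, hg'',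
    Matrix.mulVec_smul _ α, om_smul_left, om_self, mul_zero]

theorem q8_dm_coe {μ : ℂ} (hμ : μ ≠ 0) : ((dm μ : SL) : M2) = !![μ, 0; 0, μ⁻¹] := by
  have h : (!![μ, 0; 0, μ⁻¹] : M2).det = 1 := by
    rw [Matrix.det_fin_two_of, mul_zero, sub_zero, mul_inv_cancel₀ hμ]
  unfold dm
  rw [dif_pos h]

theorem q8_dm_one : dm 1 = 1 := by
  apply Subtype.ext
  rw [q8_dm_coe one_ne_zero]
  ext i j
  fin_cases i <;> fin_cases j <;> simp

theorem q8_dm_mul {μ ν : ℂ} (hμ : μ ≠ 0) (hν : ν ≠ 0) : dm μ * dm ν = dm (μ * ν) := by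
  apply Subtype.ext
  rw [q8_dm_coe (mul_ne_zero hμ hν)]
  change ((dm μ : SL) : M2) * ((dm ν : SL) : M2) = _
  rw [q8_dm_coe hμ, q8_dm_coe hν]
  ext i j
  fin_cases i <;> fin_cases j <;> simp [Matrix.mul_apply, Fin.sum_univ_two, mul_comm]

theorem q8_dm_e1 {μ : ℂ} (hμ : μ ≠ 0) : ((dm μ : SL) : M2) *ᵥ e1 = μ • e1 := by
  rw [q8_dm_coe hμ]
  funext i
  fin_cases i <;> simp [e1, Matrix.mulVec, dotProduct, Fin.sum_univ_two]

theorem q8_root {μ : ℂ} (hμ : μ ≠ 0) {cB : ℝ} (hB : 0 < cB) :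
    ∃ (n : ℕ) (ν : ℂ), ν ≠ 0 ∧ ν ^ n = μ ∧ ‖ν - 1‖ < cB := by
  have h1 : Tendsto (fun n : ℕ => Complex.exp (Complex.log μ * ((n : ℂ))⁻¹)) atTop (𝓝 1) := by
    have h2 : Tendsto (fun n : ℕ => Complex.log μ * ((n : ℂ))⁻¹) atTop (𝓝 (Complex.log μ * 0)) :=
      (tendsto_inv_atTop_nhds_zero_nat (𝕜 := ℂ)).const_mul _
    rw [mul_zero] at h2
    have h3 := (Complex.continuous_exp.tendsto 0).comp h2
    rwa [Complex.exp_zero] at h3
  have h4 : ∀ᶠ n : ℕ in atTop, ‖Complex.exp (Complex.log μ * ((n : ℂ))⁻¹) - 1‖ < cB := by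
    have := (Metric.tendsto_nhds.1 h1) cB hB
    filter_upwards [this] with n hn
    rwa [dist_eq_norm] at hn
  obtain ⟨n, hn, hn1⟩ := (h4.and (eventually_ge_atTop 1)).exists
  refine ⟨n, _, Complex.exp_ne_zero _, ?_, hn⟩
  rw [← Complex.exp_nat_mul]
  have hn0 : (n : ℂ) ≠ 0 := by
    have : n ≠ 0 := by omega
    exact_mod_cast this
  have : (n : ℂ) * (Complex.log μ * ((n : ℂ))⁻¹) = Complex.log μ := by
    field_simp
  rw [this, Complex.exp_log hμ]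

/-- The whole leaf. `dm μ = diag(μ, μ⁻¹)`.

Proof. Choose `n ≥ 1` with `‖exp(log μ / n) - 1‖ < cB` (continuity of `exp` at `0`) and put
`ν = exp (log μ / n)`, `ν^n = μ`. `g = k⁻¹ (dm ν) k` satisfies `g a = ν a`. By induction on `j ≤ n`:
there is `z_j` with `LR y z_j`, `D z_j = D y * g^j`, `a ∈ Σ(z_j)`: `z_{j+1} = z_j.g` by BI and
`LR_step`, `LR_trans`. And `g^n = k⁻¹ (dm (ν^n)) k`. -/
theorem LR_chain [T2Space E] [ConnectedSpace E] {r0 L : ℝ} (hc : Cst r0 L) (G : Geo E r0 L)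
    (hne : ∃ y ψ, 0 < eD G.D y ψ) (hU : Uni G.D) {y : E} {a : V} {k : SL} {c : ℂ}
    (hcc : c ≠ 0) (hk : (k : M2) *ᵥ a = c • e1) (ha : Sig G.D y a) {μ : ℂ} (hμ : μ ≠ 0) :
    ∃ z, LR G.D y z ∧ G.D z = G.D y * (k⁻¹ * dm μ * k) ∧ Sig G.D z a := by
  obtain ⟨cB, hB⟩ := exists_BI hc G hne
  obtain ⟨n, ν, hν0, hνn, hν1⟩ := q8_root hμ hB.1
  have hga : ((k⁻¹ * dm ν * k : SL) : M2) *ᵥ a = ν • a := by
    rw [Matrix.SpecialLinearGroup.coe_mul, Matrix.SpecialLinearGroup.coe_mul,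
      ← Matrix.mulVec_mulVec, ← Matrix.mulVec_mulVec, hk, Matrix.mulVec_smul, q8_dm_e1 hν0,
      smul_comm, Matrix.mulVec_smul, ← hk, inv_mulVec_mulVec]
  have key : ∀ j : ℕ, ∃ z, LR G.D y z ∧ G.D z = G.D y * (k⁻¹ * dm (ν ^ j) * k) ∧
      Sig G.D z a := by
    intro j
    induction j with
    | zero =>
      refine ⟨y, LR_refl _ _, ?_, ha⟩
      rw [pow_zero, q8_dm_one]
      group
    | succ j ih =>
      obtain ⟨z, hz1, hz2, hz3⟩ := ih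
      obtain ⟨_, hD, hS⟩ := hB.2 z a (k⁻¹ * dm ν * k) ν hz3 hga hν1
      refine ⟨ac G.D z (k⁻¹ * dm ν * k), LR_trans hz1 (LR_step hc G hne hU hB hz3 hga hν1), ?_, hS⟩
      rw [hD, hz2, pow_succ, ← q8_dm_mul (pow_ne_zero j hν0) hν0]
      group
  obtain ⟨z, h1, h2, h3⟩ := key n
  rw [hνn] at h2
  exact ⟨z, h1, h2, h3⟩

/-- Two different leaves do not cross (near a point `z`).

Proof. Let `U` be an open neighbourhood of `z` on which `D` is injective (`isLocalHomeomorph_of_Dh`).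
By `ac_continuousAt` at `(z, 1)` (`ac_one`) there are `N₀ ∈ 𝓝 z`, `O₀ ∈ 𝓝 (1 : SL)` with
`y'.g' ∈ U` for `y' ∈ N₀`, `g' ∈ O₀`; we may suppose `nm (g' - 1) < cB` on `O₀`. As
`(y', x) ↦ (D y')⁻¹ x` is continuous there are `N ∈ 𝓝 z`, `N ⊆ N₀`, and `O ∈ 𝓝 (D z)` with
`(D y')⁻¹ x ∈ O₀` for `y' ∈ N`, `x ∈ O`. Let `y1, y2, a1, a2, x` be as in the statement,
`g_i = (D y_i)⁻¹ x`. By `eigen_of_om` `g_i a_i = α_i a_i`, `‖α_i - 1‖ ≤ nm (g_i - 1) < cB`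
(`norm_eigen_sub_one_le`). By BI `z_i = y_i.g_i ∈ U`, `D z_i = D y_i * g_i = x`, `a_i ∈ Σ(z_i)`. So
`z_1 = z_2` and `om a1 a2 = 0`. -/
theorem no_crossing [T2Space E] [ConnectedSpace E] {r0 L : ℝ} (hc : Cst r0 L) (G : Geo E r0 L)
    (hne : ∃ y ψ, 0 < eD G.D y ψ) (hU : Uni G.D) (z : E) :
    ∃ N ∈ 𝓝 z, ∃ O ∈ 𝓝 (G.D z), ∀ y1 ∈ N, ∀ y2 ∈ N, ∀ a1 a2 : V, ∀ x ∈ O,
      Sig G.D y1 a1 → Sig G.D y2 a2 → om ((x : M2) *ᵥ a1) ((G.D y1 : M2) *ᵥ a1) = 0 →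
      om ((x : M2) *ᵥ a2) ((G.D y2 : M2) *ᵥ a2) = 0 → om a1 a2 = 0 := by
  obtain ⟨cB, hB⟩ := exists_BI hc G hne
  obtain ⟨e, hez, he⟩ := isLocalHomeomorph_of_Dh G.hD z
  have hUz : e.source ∈ 𝓝 z := e.open_source.mem_nhds hez
  have h0S : (((1 : SL) : M2) - 1) ∈ St G.D z := by
    have : (((1 : SL) : M2) - 1) = 0 := by
      rw [Matrix.SpecialLinearGroup.coe_one, sub_self]
    rw [this]
    exact zero_mem_St z
  have hcont := ac_continuousAt G.hD h0S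
  have hpre : {q : E × SL | ac G.D q.1 q.2 ∈ e.source} ∈ 𝓝 (z, (1 : SL)) := by
    apply hcont
    change e.source ∈ 𝓝 (ac G.D z 1)
    rw [ac_one G.hD z]
    exact hUz
  obtain ⟨N₀, hN₀, O₀, hO₀, hsub⟩ := mem_nhds_prod_iff.1 hpre
  have hO₁ : {g : SL | nm ((g : M2) - 1) < cB} ∈ 𝓝 (1 : SL) := by
    have hcn : Continuous fun g : SL => nm ((g : M2) - 1) :=
      continuous_nm.comp (isEmbedding_coe.continuous.sub continuous_const)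
    have ho : IsOpen {g : SL | nm ((g : M2) - 1) < cB} := isOpen_lt hcn continuous_const
    refine ho.mem_nhds ?_
    change nm (((1 : SL) : M2) - 1) < cB
    rw [Matrix.SpecialLinearGroup.coe_one, sub_self, nm_zero]
    exact hB.1
  have hmul : ContinuousAt (fun q : E × SL => (G.D q.1)⁻¹ * q.2) (z, G.D z) := by
    have hDc : Continuous G.D := continuous_D G.hD
    exact ((hDc.comp continuous_fst).inv.mul continuous_snd).continuousAt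
  have hpre2 : {q : E × SL | (G.D q.1)⁻¹ * q.2 ∈ O₀ ∩ {g : SL | nm ((g : M2) - 1) < cB}} ∈
      𝓝 (z, G.D z) := by
    apply hmul
    change _ ∈ 𝓝 ((G.D z)⁻¹ * G.D z)
    rw [inv_mul_cancel]
    exact inter_mem hO₀ hO₁
  obtain ⟨N₁, hN₁, O, hO, hsub2⟩ := mem_nhds_prod_iff.1 hpre2
  refine ⟨N₀ ∩ N₁, inter_mem hN₀ hN₁, O, hO, ?_⟩
  intro y1 hy1 y2 hy2 a1 a2 x hx hS1 hS2 h1 h2
  have key : ∀ y' ∈ N₀ ∩ N₁, ∀ a', Sig G.D y' a' →
      om ((x : M2) *ᵥ a') ((G.D y' : M2) *ᵥ a') = 0 →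
      ac G.D y' ((G.D y')⁻¹ * x) ∈ e.source ∧ G.D (ac G.D y' ((G.D y')⁻¹ * x)) = x ∧
        Sig G.D (ac G.D y' ((G.D y')⁻¹ * x)) a' := by
    intro y' hy' a' ha' hom
    obtain ⟨α, _, hα⟩ := eigen_of_om ha'.1 hom
    have hmem := hsub2 (mk_mem_prod hy'.2 hx)
    rw [mem_ofPred_eq] at hmem
    have hlt : ‖α - 1‖ < cB := lt_of_le_of_lt (norm_eigen_sub_one_le ha'.1 hα) hmem.2
    obtain ⟨_, hD, hS⟩ := hB.2 y' a' _ α ha' hα hlt
    have hin := hsub (mk_mem_prod hy'.1 hmem.1)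
    rw [mem_ofPred_eq] at hin
    refine ⟨hin, ?_, hS⟩
    rw [hD, mul_inv_cancel_left]
  obtain ⟨p1, q1, r1⟩ := key y1 hy1 a1 hS1 h1
  obtain ⟨p2, q2, r2⟩ := key y2 hy2 a2 hS2 h2
  have heq : ac G.D y1 ((G.D y1)⁻¹ * x) = ac G.D y2 ((G.D y2)⁻¹ * x) := by
    apply e.injOn p1 p2
    rw [← he, q1, q2]
  rw [heq] at r1
  exact hU.2 _ a1 a2 r1 r2

/-- The same at all points of the leaf of `y`.

Proof. `LR_chain` gives `z` with `D z = D y k⁻¹ (dm μ) k`; `no_crossing` at `z` gives `N*`, `O`. By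
`LR y z` the set `N` of the `y'` such that for all `a ∈ Σ(y')` there is `z' ∈ N*` with `a ∈ Σ(z')` and
`D(z') a ∥ D(y') a` is a neighbourhood of `y`. For `y1, y2 ∈ N` take `z1, z2`; then
`x a_i ∥ D(y_i) a_i ∥ D(z_i) a_i` (`om_trans`). -/
theorem cross [T2Space E] [ConnectedSpace E] {r0 L : ℝ} (hc : Cst r0 L) (G : Geo E r0 L)
    (hne : ∃ y ψ, 0 < eD G.D y ψ) (hU : Uni G.D) {y : E} {a : V} {k : SL} {c : ℂ}
    (hcc : c ≠ 0) (hk : (k : M2) *ᵥ a = c • e1) (ha : Sig G.D y a) {μ : ℂ} (hμ : μ ≠ 0) :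
    ∃ N ∈ 𝓝 y, ∃ O ∈ 𝓝 (G.D y * (k⁻¹ * dm μ * k)), ∀ y1 ∈ N, ∀ y2 ∈ N, ∀ a1 a2 : V, ∀ x ∈ O,
      Sig G.D y1 a1 → Sig G.D y2 a2 → om ((x : M2) *ᵥ a1) ((G.D y1 : M2) *ᵥ a1) = 0 →
      om ((x : M2) *ᵥ a2) ((G.D y2 : M2) *ᵥ a2) = 0 → om a1 a2 = 0 := by
  obtain ⟨z, hz1, hz2, _⟩ := LR_chain hc G hne hU hcc hk ha hμ
  obtain ⟨N, hN, O, hO, hNO⟩ := no_crossing hc G hne hU z
  rw [hz2] at hO
  refine ⟨_, hz1 N hN, O, hO, ?_⟩
  intro y1 hy1 y2 hy2 a1 a2 x hx hS1 hS2 h1 h2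
  obtain ⟨z1, hz1N, hz1S, hz1o⟩ := hy1 a1 hS1
  obtain ⟨z2, hz2N, hz2S, hz2o⟩ := hy2 a2 hS2
  exact hNO z1 hz1N z2 hz2N a1 a2 x hx hz1S hz2S
    (om_trans (mulVec_ne_zero (G.D y1) hS1.1) h1 (om_symm_zero hz1o))
    (om_trans (mulVec_ne_zero (G.D y2) hS2.1) h2 (om_symm_zero hz2o))

end HRK
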