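import Pool.Agent.HRK.Q8

/-!
# HRK-Q9 : case (B ii), the transversal `s ↦ y₀.(up s)`
-/

namespace HRK

open Set Filter Topology Matrix

universe u

variable {E : Type u} [TopologicalSpace E]

/-- Data on the transversal disc `s ↦ y_s = y₀.(uni s e₁)` (in coordinates `z ↦ z + s`): the line
`Σ(y_s)` is spanned by `(ζ(s), 1)`. -/
structure Tr (D : E → SL) (y0 : E) (r : ℝ) (ζ : ℂ → ℂ) : Prop where
  r_pos : 0 < r
  cont : ContinuousOn ζ (Metric.ball 0 r)
  mem : ∀ s ∈ Metric.ball (0:ℂ) r, s • nn e1 ∈ St D y0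
  sig : ∀ s ∈ Metric.ball (0:ℂ) r, Sig D (ac D y0 (uni s e1)) ![ζ s, 1]

/-- Proof. `isOpen_StGraph` and `zero_mem_St`: `s • nn e1 ∈ St y₀` for `|s| < r₁`; the map
`s ↦ y_s` is continuous on `|s| < r₁` (`continuousOn_ac`), `y_0 = y₀` (`ac_one`, `uni_zero`). By
`Sig_near` with `O = {a | a 1 ≠ 0}` there is `r ≤ r₁` such that for `|s| < r` there is
`a ∈ Σ(y_s)` with `a 1 ≠ 0`; by `Sig_smul` `(a 0/a 1, 1) ∈ Σ(y_s)`; put `ζ(s) = a 0/a 1` (`0` for
`|s| ≥ r`). Continuity at `s₁`: let `ε > 0`; `O = {a | a 1 ≠ 0, |a 0/a 1 - ζ(s₁)| < ε}` is a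
neighbourhood of `(ζ(s₁), 1)`, so by `Sig_near` at `y_{s₁}` for `s` near `s₁` there is
`a ∈ O ∩ Σ(y_s)`; by uniqueness `om a (ζ(s),1) = 0`, i.e. `ζ(s) = a 0/a 1`. -/
theorem exists_Tr [T2Space E] [ConnectedSpace E] {r0 L : ℝ} (hc : Cst r0 L) (G : Geo E r0 L)
    (hne : ∃ y ψ, 0 < eD G.D y ψ) (hU : Uni G.D) {y0 : E} (h0 : Sig G.D y0 e2) :
    ∃ r ζ, Tr G.D y0 r ζ := by
  have hWo : IsOpen {s : ℂ | s • nn e1 ∈ St G.D y0} := by
    have hcs : Continuous fun s : ℂ => (y0, s • nn e1) :=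
      Continuous.prodMk continuous_const (continuous_id.smul continuous_const)
    exact (isOpen_StGraph G.hD).preimage hcs
  have hW0 : (0:ℂ) ∈ {s : ℂ | s • nn e1 ∈ St G.D y0} := by
    show (0:ℂ) • nn e1 ∈ St G.D y0
    rw [zero_smul]
    exact zero_mem_St y0
  obtain ⟨r1, hr1, hball⟩ := Metric.isOpen_iff.1 hWo 0 hW0
  have hcont : ContinuousOn (fun s : ℂ => ac G.D y0 (uni s e1)) (Metric.ball 0 r1) := by
    have h1 := continuousOn_ac G.hD
    have h2 : Continuous fun s : ℂ => (y0, uni s e1) :=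
      Continuous.prodMk continuous_const
        (continuous_uni.comp (Continuous.prodMk continuous_id continuous_const))
    refine h1.comp h2.continuousOn ?_
    intro s hs
    show ((uni s e1 : SL) : M2) - 1 ∈ St G.D y0
    rw [uni_coe, add_sub_cancel_left]
    exact hball hs
  have hy00 : ac G.D y0 (uni 0 e1) = y0 := by rw [uni_zero, ac_one G.hD]
  have hO : {a : V | a 1 ≠ 0} ∈ 𝓝 e2 := by
    refine (isOpen_ne.preimage (continuous_apply 1)).mem_nhds ?_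
    show e2 1 ≠ 0
    simp [e2]
  have h1 := Sig_near hc G hne hU h0 hO
  have hc0 : ContinuousAt (fun s : ℂ => ac G.D y0 (uni s e1)) 0 :=
    hcont.continuousAt (Metric.ball_mem_nhds 0 hr1)
  have h2 : ∀ᶠ s in 𝓝 (0:ℂ), ∃ a' ∈ {a : V | a 1 ≠ 0},
      Sig G.D (ac G.D y0 (uni s e1)) a' := by
    have h3 := hc0.tendsto
    simp only [hy00] at h3
    exact h3.eventually h1
  obtain ⟨r2, hr2, hball2⟩ := Metric.eventually_nhds_iff_ball.1 h2
  have hex : ∀ s : ℂ, ∃ z : ℂ, s ∈ Metric.ball (0:ℂ) (min r1 r2) →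
      Sig G.D (ac G.D y0 (uni s e1)) ![z, 1] := by
    intro s
    by_cases hs : s ∈ Metric.ball (0:ℂ) (min r1 r2)
    · obtain ⟨a, ha1, ha⟩ := hball2 s (Metric.ball_subset_ball (min_le_right _ _) hs)
      have ha1' : a 1 ≠ 0 := ha1
      refine ⟨a 0 / a 1, fun _ => ?_⟩
      have h3 : (a 1)⁻¹ • a = ![a 0 / a 1, 1] := by
        ext i
        fin_cases i
        · show (a 1)⁻¹ * a 0 = a 0 / a 1
          rw [div_eq_inv_mul]
        · show (a 1)⁻¹ * a 1 = 1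
          exact inv_mul_cancel₀ ha1'
      rw [← h3]
      exact (Sig_smul G.D _ a (inv_ne_zero ha1')).2 ha
    · exact ⟨0, fun h => absurd h hs⟩
  choose ζ hζ using hex
  refine ⟨min r1 r2, ζ, lt_min hr1 hr2, ?_, ?_, hζ⟩
  · intro s1 hs1
    apply ContinuousAt.continuousWithinAt
    rw [Metric.continuousAt_iff']
    intro ε hε
    have hO1 : {a : V | a 1 ≠ 0 ∧ ‖a 0 / a 1 - ζ s1‖ < ε} ∈ 𝓝 (![ζ s1, 1] : V) := by
      have hca : ContinuousAt (fun a : V => a 0 / a 1) ![ζ s1, 1] := by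
        refine ContinuousAt.div (continuous_apply 0).continuousAt
          (continuous_apply 1).continuousAt ?_
        show (1:ℂ) ≠ 0
        exact one_ne_zero
      have hm1 : ∀ᶠ a : V in 𝓝 ![ζ s1, 1], a 1 ≠ 0 :=
        (continuous_apply (1 : Fin 2)).continuousAt.eventually_ne (by
          show (1:ℂ) ≠ 0
          exact one_ne_zero)
      have hm2 : ∀ᶠ a : V in 𝓝 ![ζ s1, 1], ‖a 0 / a 1 - ζ s1‖ < ε := by
        have h3 := Metric.continuousAt_iff'.1 hca ε hε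
        filter_upwards [h3] with a ha
        rw [dist_eq_norm] at ha
        have e : (![ζ s1, 1] : V) 0 / (![ζ s1, 1] : V) 1 = ζ s1 := by
          show ζ s1 / 1 = ζ s1
          rw [div_one]
        rw [e] at ha
        exact ha
      exact hm1.and hm2
    have h3 := Sig_near hc G hne hU (hζ s1 hs1) hO1
    have hcs : ContinuousAt (fun s : ℂ => ac G.D y0 (uni s e1)) s1 :=
      hcont.continuousAt (Metric.isOpen_ball.mem_nhds
        (Metric.ball_subset_ball (min_le_left _ _) hs1))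
    have h4 := hcs.tendsto.eventually h3
    have h5 : ∀ᶠ s in 𝓝 s1, s ∈ Metric.ball (0:ℂ) (min r1 r2) :=
      Metric.isOpen_ball.mem_nhds hs1
    filter_upwards [h4, h5] with s hs hsr
    obtain ⟨a, ⟨ha1, ha2⟩, ha⟩ := hs
    have h6 := hU.2 _ _ _ (hζ s hsr) ha
    have h7 : a 0 / a 1 = ζ s := by
      have h8 : ζ s * a 1 - 1 * a 0 = 0 := h6
      rw [div_eq_iff ha1]
      linear_combination -h8
    rw [dist_eq_norm, ← h7]
    exact ha2
  · intro s hs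
    exact hball (Metric.ball_subset_ball (min_le_left _ _) hs)

theorem q9_uni_e1 (s : ℂ) : uni s e1 = up s := by
  apply Subtype.ext
  show ((uni s e1 : SL) : M2) = !![1, s; 0, 1]
  rw [uni_coe, nn_e1]
  ext i j
  fin_cases i <;> fin_cases j <;> simp

/-- Proof. `D_ac_uni`, `uni s e1 = up s` (`uni_coe`, `nn_e1`). -/
theorem Tr.D_eq [T2Space E] {D : E → SL} (hD : IsLocalHomeomorph (Dh D)) {y0 : E} {r : ℝ}
    {ζ : ℂ → ℂ} (h : Tr D y0 r ζ) {s : ℂ} (hs : s ∈ Metric.ball (0:ℂ) r) :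
    D (ac D y0 (uni s e1)) = D y0 * up s := by
  rw [D_ac_uni hD (h.mem s hs), q9_uni_e1]

/-! ### matrix computations -/

theorem uni_e1 (s : ℂ) : uni s e1 = up s :=
  q9_uni_e1 s

theorem up_mul (s t : ℂ) : up s * up t = up (s + t) := by
  apply Subtype.ext
  show (!![1, s; 0, 1] : M2) * !![1, t; 0, 1] = !![1, s + t; 0, 1]
  ext i j
  fin_cases i <;> fin_cases j <;> simp [Matrix.mul_apply, Fin.sum_univ_two, add_comm]

theorem dm_coe {μ : ℂ} (hμ : μ ≠ 0) : ((dm μ : SL) : M2) = !![μ, 0; 0, μ⁻¹] := by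
  have h : (!![μ, 0; 0, μ⁻¹] : M2).det = 1 := by
    rw [Matrix.det_fin_two_of, mul_inv_cancel₀ hμ]
    ring
  rw [dm, dif_pos h]

/-- `k = wy * up (-z)` takes `(z,1)` to `e₁`, and `k⁻¹ (dm μ) k = up z * dm μ⁻¹ * up (-z)`. -/
theorem wy_frame (z : ℂ) : ((wy * up (-z) : SL) : M2) *ᵥ ![z, 1] = (1 : ℂ) • e1 := by
  have h : ((wy * up (-z) : SL) : M2) = !![0, 1; -1, z] := by
    show (!![0, 1; -1, 0] : M2) * !![1, -z; 0, 1] = !![0, 1; -1, z]
    ext i j
    fin_cases i <;> fin_cases j <;> simp [Matrix.mul_apply, Fin.sum_univ_two]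
  rw [h]
  ext i
  fin_cases i <;> simp [e1, Matrix.mulVec, dotProduct, Fin.sum_univ_two]

theorem wy_conj (z : ℂ) {μ : ℂ} (hμ : μ ≠ 0) :
    (wy * up (-z))⁻¹ * dm μ * (wy * up (-z)) = up z * dm μ⁻¹ * up (-z) := by
  have h : ((wy * up (-z) : SL) : M2) = !![0, 1; -1, z] := by
    show (!![0, 1; -1, 0] : M2) * !![1, -z; 0, 1] = !![0, 1; -1, z]
    ext i j
    fin_cases i <;> fin_cases j <;> simp [Matrix.mul_apply, Fin.sum_univ_two]
  apply Subtype.ext
  have h2 : (((wy * up (-z))⁻¹ * dm μ * (wy * up (-z)) : SL) : M2) =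
      (((wy * up (-z))⁻¹ : SL) : M2) * ((dm μ : SL) : M2) * ((wy * up (-z) : SL) : M2) := rfl
  have h3 : ((up z * dm μ⁻¹ * up (-z) : SL) : M2) =
      (!![1, z; 0, 1] : M2) * ((dm μ⁻¹ : SL) : M2) * !![1, -z; 0, 1] := rfl
  show (((wy * up (-z))⁻¹ * dm μ * (wy * up (-z)) : SL) : M2) =
    ((up z * dm μ⁻¹ * up (-z) : SL) : M2)
  rw [h2, h3, coe_inv_eq, h, dm_coe hμ, dm_coe (inv_ne_zero hμ), inv_inv]
  ext i j
  fin_cases i <;> fin_cases j <;> simp [Matrix.mul_apply, Fin.sum_univ_two] <;> ring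

/-- The affine map `z ↦ ρ² (z - ζ) + f` as an element of `SL(2,ℂ)`: it maps `(z, 1)` to
`ρ⁻¹ (ρ² (z - ζ) + f, 1)`. -/
theorem aff_mulVec {ρ : ℂ} (hρ : ρ ≠ 0) (f ζ z : ℂ) :
    ((up f * dm ρ * up (-ζ) : SL) : M2) *ᵥ ![z, 1] = ρ⁻¹ • ![ρ ^ 2 * (z - ζ) + f, 1] := by
  have h3 : ((up f * dm ρ * up (-ζ) : SL) : M2) =
      (!![1, f; 0, 1] : M2) * ((dm ρ : SL) : M2) * !![1, -ζ; 0, 1] := rfl
  rw [h3, dm_coe hρ]
  ext i
  fin_cases i
  · simp [Matrix.mulVec, dotProduct, Matrix.mul_apply, Fin.sum_univ_two]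
    field_simp
    ring
  · simp [Matrix.mulVec, dotProduct, Matrix.mul_apply, Fin.sum_univ_two]

theorem up_mulVec (s z : ℂ) : ((up s : SL) : M2) *ᵥ ![z, 1] = ![z + s, 1] := by
  show (!![1, s; 0, 1] : M2) *ᵥ ![z, 1] = ![z + s, 1]
  ext i
  fin_cases i <;> simp [Matrix.mulVec, dotProduct, Fin.sum_univ_two]

/-- `(ρ, f, ζ) ↦ up f * dm ρ * up (-ζ)` is continuous where `ρ ≠ 0`. -/
theorem aff_continuousAt {ρ : ℂ} (hρ : ρ ≠ 0) (f ζ : ℂ) :
    ContinuousAt (fun p : ℂ × ℂ × ℂ => up p.2.1 * dm p.1 * up (-p.2.2)) (ρ, f, ζ) := by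
  rw [isEmbedding_coe.isInducing.continuousAt_iff]
  have h1 : ContinuousAt (fun p : ℂ × ℂ × ℂ =>
      (!![1, p.2.1; 0, 1] : M2) * !![p.1, 0; 0, p.1⁻¹] * !![1, -p.2.2; 0, 1]) (ρ, f, ζ) := by
    have c1 : ContinuousAt (fun p : ℂ × ℂ × ℂ => (!![1, p.2.1; 0, 1] : M2)) (ρ, f, ζ) := by
      apply Continuous.continuousAt
      apply continuous_matrix
      intro i j
      fin_cases i <;> fin_cases j <;> simp <;> fun_prop
    have c3 : ContinuousAt (fun p : ℂ × ℂ × ℂ => (!![1, -p.2.2; 0, 1] : M2)) (ρ, f, ζ) := by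
      apply Continuous.continuousAt
      apply continuous_matrix
      intro i j
      fin_cases i <;> fin_cases j <;> simp <;> fun_prop
    have c2 : ContinuousAt (fun p : ℂ × ℂ × ℂ => (!![p.1, 0; 0, p.1⁻¹] : M2)) (ρ, f, ζ) := by
      refine continuousAt_pi.2 fun i => continuousAt_pi.2 fun j => ?_
      fin_cases i <;> fin_cases j
      · exact continuousAt_fst
      · exact continuousAt_const
      · exact continuousAt_const
      · exact continuousAt_fst.inv₀ hρ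
    exact (c1.mul c2).mul c3
  refine h1.congr ?_
  have h2 : ∀ᶠ p : ℂ × ℂ × ℂ in 𝓝 (ρ, f, ζ), p.1 ≠ 0 :=
    continuousAt_fst.eventually_ne hρ
  filter_upwards [h2] with p hp
  show _ = ((up p.2.1 * dm p.1 * up (-p.2.2) : SL) : M2)
  have h3 : ((up p.2.1 * dm p.1 * up (-p.2.2) : SL) : M2) =
      (!![1, p.2.1; 0, 1] : M2) * ((dm p.1 : SL) : M2) * !![1, -p.2.2; 0, 1] := rfl
  rw [h3, dm_coe hp]

/-- A local square root. Proof. `R Q = ρ * exp (log (Q/m)/2)`. -/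
theorem local_sqrt {m ρ : ℂ} (hm : m ≠ 0) (hρ : ρ ^ 2 = m) :
    ∃ R : ℂ → ℂ, R m = ρ ∧ ContinuousAt R m ∧ ∀ᶠ Q in 𝓝 m, R Q ^ 2 = Q ∧ R Q ≠ 0 := by
  refine ⟨fun Q => ρ * Complex.exp (Complex.log (Q / m) / 2), ?_, ?_, ?_⟩
  · show ρ * Complex.exp (Complex.log (m / m) / 2) = ρ
    rw [div_self hm, Complex.log_one, zero_div, Complex.exp_zero, mul_one]
  · have h1 : ContinuousAt (fun Q : ℂ => Complex.log (Q / m)) m := by
      refine ContinuousAt.clog (continuousAt_id.div_const m) ?_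
      show m / m ∈ Complex.slitPlane
      rw [div_self hm]
      exact Complex.one_mem_slitPlane
    exact continuousAt_const.mul (h1.div_const 2).cexp
  · have h2 : ∀ᶠ Q : ℂ in 𝓝 m, Q ≠ 0 := continuousAt_id.eventually_ne hm
    have hρ0 : ρ ≠ 0 := by
      intro h
      rw [h] at hρ
      apply hm
      rw [← hρ]
      ring
    filter_upwards [h2] with Q hQ
    refine ⟨?_, mul_ne_zero hρ0 (Complex.exp_ne_zero _)⟩
    show (ρ * Complex.exp (Complex.log (Q / m) / 2)) ^ 2 = Q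
    rw [mul_pow, ← Complex.exp_nat_mul, hρ]
    have e : ((2:ℕ):ℂ) * (Complex.log (Q / m) / 2) = Complex.log (Q / m) := by
      push_cast
      ring
    rw [e, Complex.exp_log (div_ne_zero hQ hm)]
    field_simp

end HRK
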