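import Pool.Agent.HRK.N4

/-!
# HRK-S4a : a continuous choice of unitary frames
-/

namespace HRK

open Set Filter Topology Matrix

/-- the matrix of the unitary frame -/
noncomputable def s4m (a : V) : M2 :=
  !![star (a 0) / ((vn a : ℝ) : ℂ), star (a 1) / ((vn a : ℝ) : ℂ);
    -(a 1) / ((vn a : ℝ) : ℂ), a 0 / ((vn a : ℝ) : ℂ)]

theorem s4_vn {a : V} (ha : a ≠ 0) : ((vn a : ℝ) : ℂ) ≠ 0 := by
  rw [Ne, Complex.ofReal_eq_zero, vn_eq_zero]
  exact ha

theorem s4_sum (a : V) : (starRingEnd ℂ) (a 0) * a 0 + (starRingEnd ℂ) (a 1) * a 1 =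
    ((vn a : ℝ) : ℂ) ^ 2 := by
  have h : ((vn a : ℝ) : ℂ) ^ 2 = ((nsq a : ℝ) : ℂ) := by
    rw [← vn_sq, Complex.ofReal_pow]
  rw [h, nsq_eq, Complex.ofReal_add, Complex.normSq_eq_conj_mul_self,
    Complex.normSq_eq_conj_mul_self]

theorem s4_det {a : V} (ha : a ≠ 0) : (s4m a).det = 1 := by
  have h := s4_vn ha
  have h2 := s4_sum a
  rw [s4m, Matrix.det_fin_two_of]
  have e : star (a 0) / ((vn a : ℝ) : ℂ) * (a 0 / ((vn a : ℝ) : ℂ)) -
      star (a 1) / ((vn a : ℝ) : ℂ) * (-(a 1) / ((vn a : ℝ) : ℂ)) =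
      ((starRingEnd ℂ) (a 0) * a 0 + (starRingEnd ℂ) (a 1) * a 1) / ((vn a : ℝ) : ℂ) ^ 2 := by
    rw [Complex.star_def]
    ring
  rw [e, h2, div_self (pow_ne_zero 2 h)]

open Classical in
/-- the unitary frame -/
noncomputable def s4U (a : V) : SL := if h : a = 0 then 1 else ⟨s4m a, s4_det h⟩

theorem s4U_coe {a : V} (ha : a ≠ 0) : (s4U a : M2) = s4m a := by
  rw [s4U, dif_neg ha]

/-- A continuous choice of unitary frames: there is a map `U : V → SL`, continuous at every `a ≠ 0`,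
with `U a` unitary and `U a *ᵥ a = vn a • e₁` for `a ≠ 0`.
Proof. `U a = !![conj a₀/|a|, conj a₁/|a|; -a₁/|a|, a₀/|a|]` (and `1` for `a = 0`), `det = 1`.
Continuity: `isEmbedding_coe` (N2b) and continuity of the entries. -/
theorem exists_unitary_choice : ∃ U : V → SL, (∀ a : V, a ≠ 0 → ContinuousAt U a) ∧
    ∀ a : V, a ≠ 0 → IsU (U a) ∧ (U a : M2) *ᵥ a = ((vn a : ℝ) : ℂ) • e1 := by
  refine ⟨s4U, fun a ha => ?_, fun a ha => ⟨?_, ?_⟩⟩
  · rw [isEmbedding_coe.continuousAt_iff]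
    have h1 : ContinuousAt s4m a := by
      have hv : ContinuousAt (fun a : V => ((vn a : ℝ) : ℂ)) a :=
        (Complex.continuous_ofReal.comp continuous_vn).continuousAt
      have hne := s4_vn ha
      have c0 : ContinuousAt (fun a : V => a 0) a := (continuous_apply 0).continuousAt
      have c1 : ContinuousAt (fun a : V => a 1) a := (continuous_apply 1).continuousAt
      refine continuousAt_pi.2 fun i => continuousAt_pi.2 fun j => ?_
      fin_cases i <;> fin_cases j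
      · exact (c0.star).div hv hne
      · exact (c1.star).div hv hne
      · exact (c1.neg).div hv hne
      · exact c0.div hv hne
    refine h1.congr ?_
    filter_upwards [isOpen_ne.mem_nhds ha] with a' ha'
    exact (s4U_coe ha').symm
  · have h := s4_vn ha
    have h2 := s4_sum a
    have h4 : ∀ z w z' w' : ℂ, z * w + z' * w' = ((vn a : ℝ) : ℂ) ^ 2 →
        w / ((vn a : ℝ) : ℂ) * (z / ((vn a : ℝ) : ℂ)) +
          z' / ((vn a : ℝ) : ℂ) * (w' / ((vn a : ℝ) : ℂ)) = 1 := by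
      intro z w z' w' hz
      have e : w / ((vn a : ℝ) : ℂ) * (z / ((vn a : ℝ) : ℂ)) +
          z' / ((vn a : ℝ) : ℂ) * (w' / ((vn a : ℝ) : ℂ)) =
          (z * w + z' * w') / ((vn a : ℝ) : ℂ) ^ 2 := by ring
      rw [e, hz, div_self (pow_ne_zero 2 h)]
    rw [IsU, s4U_coe ha]
    ext i j
    fin_cases i <;> fin_cases j <;>
      simp [s4m, Matrix.mul_apply, Fin.sum_univ_two, Matrix.conjTranspose_apply]
    · exact h4 _ _ _ _ (by rw [← h2]; ring)
    · ring
    · ring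
    · exact h4 _ _ _ _ (by rw [← h2]; ring)
  · have h := s4_vn ha
    have h2 := s4_sum a
    rw [s4U_coe ha]
    ext i
    fin_cases i
    · simp [s4m, Matrix.mulVec, dotProduct, Fin.sum_univ_two, e1]
      have e : (starRingEnd ℂ) (a 0) / ((vn a : ℝ) : ℂ) * a 0 +
          (starRingEnd ℂ) (a 1) / ((vn a : ℝ) : ℂ) * a 1 =
          ((starRingEnd ℂ) (a 0) * a 0 + (starRingEnd ℂ) (a 1) * a 1) / ((vn a : ℝ) : ℂ) := by ring
      rw [e, h2, sq, mul_div_assoc, div_self h, mul_one]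
    · simp [s4m, Matrix.mulVec, dotProduct, Fin.sum_univ_two, e1]
      field_simp
      ring

end HRK
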