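import Pool.Agent.HRK.S3b
import Pool.Agent.HRK.S4a

/-!
# HRK-S4 : `Σ` is closed, `Ω₀` is open
-/

namespace HRK

open Set Filter Topology Matrix

universe u

variable {E : Type u} [TopologicalSpace E] [T2Space E] [ConnectedSpace E] {r0 L : ℝ}

/-- `Σ^ = {(y,a)}` is closed.
Proof. `U` from `exists_unitary_choice`. Fix `s ≥ 0`. Eventually `a_ i ≠ 0` and
`v(y_ i, dg(-s) U(a_ i)) ≤ v(y_ i, U(a_ i)) e^{-s}` (`Sig_decay`). Both sides converge
(`continuous_vD`, `U(a_ i) → U a`): `v(y, dg(-s) U(a)) ≤ v(y, U(a)) e^{-s} ≤ v(y, U a)`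
(`le_of_tendsto_of_tendsto`). `Sig_of_vD_le`. -/
theorem Sig_closed (hc : Cst r0 L) (G : Geo E r0 L) (hne : ∃ y ψ, 0 < eD G.D y ψ)
    {ι : Type*} {F : Filter ι} [NeBot F] {y_ : ι → E} {y : E} {a_ : ι → V} {a : V}
    (hy : Tendsto y_ F (𝓝 y)) (ha : Tendsto a_ F (𝓝 a)) (ha0 : a ≠ 0)
    (h : ∀ᶠ i in F, Sig G.D (y_ i) (a_ i)) : Sig G.D y a := by
  obtain ⟨U, hU1, hU2⟩ := exists_unitary_choice
  have hvn : ((vn a : ℝ) : ℂ) ≠ 0 := by
    rw [Ne, Complex.ofReal_eq_zero, vn_eq_zero]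
    exact ha0
  have hUt : Tendsto (fun i => U (a_ i)) F (𝓝 (U a)) := (hU1 a ha0).tendsto.comp ha
  have hcv := continuous_vD hc G hne
  have tV : ∀ (g_ : ι → SL) (g : SL), Tendsto g_ F (𝓝 g) →
      Tendsto (fun i => vD G.D (y_ i) (g_ i)) F (𝓝 (vD G.D y g)) := by
    intro g_ g hg
    have h1 : Tendsto (fun i => (y_ i, g_ i)) F (𝓝 (y, g)) := hy.prodMk_nhds hg
    have h2 := (hcv.tendsto (y, g)).comp h1
    exact h2
  have key : ∀ s : ℝ, 0 ≤ s → vD G.D y (dg (-s) * U a) ≤ vD G.D y (U a) * Real.exp (-s) := by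
    intro s hs
    have u1 : Tendsto (fun i => dg (-s) * U (a_ i)) F (𝓝 (dg (-s) * U a)) :=
      Tendsto.mul tendsto_const_nhds hUt
    have t1 := tV _ _ u1
    have t2 := (tV _ _ hUt).mul_const (Real.exp (-s))
    refine le_of_tendsto_of_tendsto t1 t2 ?_
    filter_upwards [h] with i hi
    exact Sig_decay hc G hne (hU2 (a_ i) hi.1).2 hi hs
  refine Sig_of_vD_le hc G hne hvn (hU2 a ha0).2 (C := vD G.D y (U a)) fun s hs => ?_
  refine (key s hs).trans ?_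
  have h1 := vD_nonneg G.D y (U a)
  have h2 : Real.exp (-s) ≤ 1 := Real.exp_le_one_iff.2 (by linarith)
  nlinarith

/-- Proof. `Sig_closed` with constant `a_`; `isClosed_iff_clusterPt`/`mem_closure_iff_clusterPt`. -/
theorem isClosed_Sig (hc : Cst r0 L) (G : Geo E r0 L) (hne : ∃ y ψ, 0 < eD G.D y ψ) {a : V}
    (ha : a ≠ 0) : IsClosed {y | Sig G.D y a} := by
  rw [isClosed_iff_forall_filter]
  intro y F hF h1 h2
  have : NeBot F := hF
  exact Sig_closed hc G hne (F := F) (y_ := id) (a_ := fun _ => a) (tendsto_id'.2 h2)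
    tendsto_const_nhds ha (le_principal_iff.1 h1)

/-- Proof. `Sig_closed` with `a_ = (D y_)⁻¹ b`, continuous in `y` (`continuous_D`), `≠ 0`. -/
theorem isClosed_Sig_b (hc : Cst r0 L) (G : Geo E r0 L) (hne : ∃ y ψ, 0 < eD G.D y ψ) {b : V}
    (hb : b ≠ 0) : IsClosed {y | Sig G.D y ((((G.D y)⁻¹ : SL) : M2) *ᵥ b)} := by
  rw [isClosed_iff_forall_filter]
  intro y F hF h1 h2
  have : NeBot F := hF
  have hcont : Continuous fun y : E => (((G.D y)⁻¹ : SL) : M2) *ᵥ b := by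
    have h3 : Continuous fun y : E => (((G.D y)⁻¹ : SL) : M2) :=
      isEmbedding_coe.continuous.comp (continuous_D G.hD).inv
    exact h3.matrix_mulVec continuous_const
  refine Sig_closed hc G hne (F := F) (y_ := id)
    (a_ := fun y => (((G.D y)⁻¹ : SL) : M2) *ᵥ b) (tendsto_id'.2 h2)
    ((hcont.tendsto y).mono_left h2) ?_ (le_principal_iff.1 h1)
  intro h0
  apply hb
  have h4 : (G.D y : M2) *ᵥ ((((G.D y)⁻¹ : SL) : M2) *ᵥ b) = b := by
    rw [Matrix.mulVec_mulVec, coe_mul_inv, Matrix.one_mulVec]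
  rw [← h4, h0, Matrix.mulVec_zero]

/-- Upper semicontinuity with compactness: if every `y_ i` (`i` frequently in `F`) has some
direction then so has the limit, and a limit of normalised directions can be taken.
Proof. Pass to an ultrafilter `𝒰 ≤ F` containing the set `{i | ∃ a, Sig (y_ i) a}`
(`Filter.Frequently`, `Ultrafilter.exists_le`). Choose `a i` with `Sig (y_ i) (a i)`, `nsq = 1`
(`Sig_smul` by `1/vn a`). The unit sphere is compact (`isCompact_sphere`), so `map a 𝒰` converges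
to some `a` in it (`IsCompact.ultrafilter_le_nhds`), `a ≠ 0`, and `Sig_closed` for the filter `𝒰`. -/
theorem exists_Sig_limit (hc : Cst r0 L) (G : Geo E r0 L) (hne : ∃ y ψ, 0 < eD G.D y ψ)
    {ι : Type*} {F : Filter ι} {y_ : ι → E} {y : E}
    (hy : Tendsto y_ F (𝓝 y)) (h : ∃ᶠ i in F, ∃ a, Sig G.D (y_ i) a) : ∃ a, Sig G.D y a := by
  classical
  have hne' : NeBot (F ⊓ 𝓟 {i | ∃ a, Sig G.D (y_ i) a}) := frequently_mem_iff_neBot.1 h
  obtain ⟨𝒰, h𝒰⟩ := Ultrafilter.exists_le (F ⊓ 𝓟 {i | ∃ a, Sig G.D (y_ i) a})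
  have h1 : (𝒰 : Filter ι) ≤ F := h𝒰.trans inf_le_left
  have h2 : ∀ᶠ i in (𝒰 : Filter ι), ∃ a, Sig G.D (y_ i) a :=
    le_principal_iff.1 (h𝒰.trans inf_le_right)
  have hch : ∀ i, ∃ a : V, (∃ a, Sig G.D (y_ i) a) → Sig G.D (y_ i) a ∧ nsq a = 1 := by
    intro i
    by_cases hi : ∃ a, Sig G.D (y_ i) a
    · obtain ⟨a, ha⟩ := hi
      have hv : vn a ≠ 0 := fun h0 => ha.1 (vn_eq_zero.1 h0)
      have hc0 : (((vn a)⁻¹ : ℝ) : ℂ) ≠ 0 := by
        rw [Ne, Complex.ofReal_eq_zero]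
        exact inv_ne_zero hv
      refine ⟨(((vn a)⁻¹ : ℝ) : ℂ) • a, fun _ => ⟨(Sig_smul _ _ _ hc0).2 ha, ?_⟩⟩
      rw [nsq_smul, Complex.norm_real, Real.norm_eq_abs, sq_abs, ← vn_sq, ← mul_pow,
        inv_mul_cancel₀ hv, one_pow]
    · exact ⟨0, fun h0 => absurd h0 hi⟩
  choose a ha using hch
  have h3 : ((𝒰.map a : Ultrafilter V) : Filter V) ≤ 𝓟 {v : V | nsq v = 1} := by
    rw [le_principal_iff]
    show ∀ᶠ i in (𝒰 : Filter ι), nsq (a i) = 1
    filter_upwards [h2] with i hi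
    exact (ha i hi).2
  obtain ⟨b, hb1, hb2⟩ := isCompact_sphere.ultrafilter_le_nhds _ h3
  have hb0 : b ≠ 0 := by
    rintro rfl
    have h4 : nsq (0 : V) = 1 := hb1
    rw [← vn_sq, vn_eq_zero.2 rfl] at h4
    norm_num at h4
  refine ⟨b, Sig_closed hc G hne (F := (𝒰 : Filter ι)) (hy.mono_left h1) (a_ := a) hb2 hb0 ?_⟩
  filter_upwards [h2] with i hi
  exact (ha i hi).1

/-- Proof. The complement is closed by `exists_Sig_limit`. -/
theorem isOpen_Om0 (hc : Cst r0 L) (G : Geo E r0 L) (hne : ∃ y ψ, 0 < eD G.D y ψ) :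
    IsOpen (Om0 G.D) := by
  rw [← isClosed_compl_iff, isClosed_iff_forall_filter]
  intro y F hF h1 h2
  have : NeBot F := hF
  have hcomp : ∀ z : E, z ∈ (Om0 G.D)ᶜ ↔ ∃ a, Sig G.D z a := by
    intro z
    rw [mem_compl_iff, Om0, mem_ofPred_eq]
    push Not
    rfl
  rw [hcomp]
  have h3 : ∀ᶠ z in F, ∃ a, Sig G.D z a := by
    have h4 : ∀ᶠ z in F, z ∈ (Om0 G.D)ᶜ := le_principal_iff.1 h1
    filter_upwards [h4] with z hz
    exact (hcomp z).1 hz
  exact exists_Sig_limit hc G hne (F := F) (y_ := id) (tendsto_id'.2 h2) h3.frequently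

end HRK
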