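import Pool.Agent.HRK.S5

/-!
# HRK-S5b : two directions in `Σ(y)`: the function `e(y,·)`
-/

namespace HRK

open Set Filter Topology Matrix

universe u

variable {E : Type u} [TopologicalSpace E] [T2Space E] [ConnectedSpace E] {r0 L : ℝ}

theorem s5b_main (hc : Cst r0 L) {c C : ℝ} (hV : VisPkg.{u} r0 L c C) (G : Geo E r0 L)
    (hne : ∃ y ψ, 0 < eD G.D y ψ) {y : E} {a a' : V} {k : SL} {δ : ℂ}
    (hk : (k : M2) *ᵥ a = (1 : ℂ) • e1) (hk' : (k : M2) *ᵥ a' = δ • e2)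
    (h : Sig G.D y a) (h' : Sig G.D y a') {ψ x : V} (hψ : ψ = ((k⁻¹ : SL) : M2) *ᵥ x)
    (h0 : x 0 ≠ 0) (h1 : x 1 ≠ 0) :
    eD G.D y ψ = ‖x 0‖ * ‖x 1‖ := by
  have hn0 : 0 < ‖x 0‖ := norm_pos_iff.mpr h0
  have hn1 : 0 < ‖x 1‖ := norm_pos_iff.mpr h1
  set s : ℝ := Real.log (‖x 1‖ / ‖x 0‖) with hs
  have hes : Real.exp s = ‖x 1‖ / ‖x 0‖ := Real.exp_log (div_pos hn1 hn0)
  have hes' : Real.exp (-s) = ‖x 0‖ / ‖x 1‖ := by
    rw [Real.exp_neg, hes, inv_div]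
  set k' : SL := dg s * k with hk'def
  have hka : (k' : M2) *ᵥ a = ((Real.exp (s / 2) : ℝ) : ℂ) • e1 := by
    rw [hk'def, Matrix.SpecialLinearGroup.coe_mul, ← Matrix.mulVec_mulVec, hk]
    funext i
    fin_cases i <;> simp [dg, e1, Matrix.mulVec, dotProduct, Fin.sum_univ_two]
  have hka' : (k' : M2) *ᵥ a' = (((Real.exp (-(s / 2)) : ℝ) : ℂ) * δ) • e2 := by
    rw [hk'def, Matrix.SpecialLinearGroup.coe_mul, ← Matrix.mulVec_mulVec, hk']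
    funext i
    fin_cases i <;> simp [dg, e2, Matrix.mulVec, dotProduct, Fin.sum_univ_two]
  have hm : mD G.D y k' = 1 / 2 := Sig_two hc G hne hka hka' h h'
  set x' : V := (dg s : M2) *ᵥ x with hx'
  have hkx : (k : M2) *ᵥ ψ = x := by
    rw [hψ, Matrix.mulVec_mulVec, coe_mul_inv, Matrix.one_mulVec]
  have hkψ : (k' : M2) *ᵥ ψ = x' := by
    rw [hk'def, Matrix.SpecialLinearGroup.coe_mul, ← Matrix.mulVec_mulVec, hkx]
  have hψ' : ψ = ((k'⁻¹ : SL) : M2) *ᵥ x' := by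
    rw [← hkψ, Matrix.mulVec_mulVec, coe_inv_mul, Matrix.one_mulVec]
  have hnsq : nsq x' = 2 * (‖x 0‖ * ‖x 1‖) := by
    rw [hx', nsq_dg_mulVec, hes, hes']
    field_simp
    ring
  have hprod : x' 0 * x' 1 = x 0 * x 1 := by
    rw [hx']
    have h3 : ((Real.exp (s / 2) : ℝ) : ℂ) * ((Real.exp (-(s / 2)) : ℝ) : ℂ) = 1 := by
      rw [← Complex.ofReal_mul, ← Real.exp_add]
      simp
    have h4 : ((dg s : M2) *ᵥ x) 0 = ((Real.exp (s / 2) : ℝ) : ℂ) * x 0 := by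
      simp [dg, Matrix.mulVec, dotProduct, Fin.sum_univ_two]
    have h5 : ((dg s : M2) *ᵥ x) 1 = ((Real.exp (-(s / 2)) : ℝ) : ℂ) * x 1 := by
      simp [dg, Matrix.mulVec, dotProduct, Fin.sum_univ_two]
    rw [h4, h5]
    linear_combination (x 0 * x 1) * h3
  apply le_antisymm
  · have := eD_le_mD' hc G y k' ψ
    rw [hm, hkψ, hnsq] at this
    linarith
  · obtain ⟨P, hP⟩ := Ct_exists hV G hm
    have hpl := Sig_two_plane hc hV G hne hka hka' h h' hP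
    set ρ : ℝ := Real.sqrt (nsq x') with hρ
    have hnpos : 0 < nsq x' := by
      rw [hnsq]; positivity
    have hρ0 : 0 < ρ := Real.sqrt_pos.mpr hnpos
    have hρ2 : ρ ^ 2 = nsq x' := Real.sq_sqrt hnpos.le
    set χ : V := ((ρ⁻¹ : ℝ) : ℂ) • x' with hχ
    have hxχ : x' = ((ρ : ℝ) : ℂ) • χ := by
      rw [hχ, smul_smul, ← Complex.ofReal_mul, mul_inv_cancel₀ hρ0.ne']
      simp
    have hχ1 : nsq χ = 1 := by
      rw [hχ, nsq_smul, Complex.norm_real, Real.norm_eq_abs, sq_abs, ← hρ2]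
      field_simp
    have hχp : ‖χ 0‖ * ‖χ 1‖ = 1 / 2 := by
      have h6 : ‖x' 0‖ * ‖x' 1‖ = ‖x 0‖ * ‖x 1‖ := by
        rw [← norm_mul, hprod, norm_mul]
      have h7 : ‖x' 0‖ * ‖x' 1‖ = ρ ^ 2 * (‖χ 0‖ * ‖χ 1‖) := by
        rw [hxχ]
        simp only [Pi.smul_apply, smul_eq_mul, norm_mul, Complex.norm_real, Real.norm_eq_abs]
        rw [← sq_abs ρ]
        ring
      rw [h6, hρ2, hnsq] at h7
      have h8 : 0 < ‖x 0‖ * ‖x 1‖ := mul_pos hn0 hn1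
      nlinarith
    have hq : ‖qP (cj k' P) χ‖ = 1 / 2 := by
      rcases hpl with hpl | hpl
      · rw [hpl, qP_eq]
        simp only [Matrix.of_apply, Matrix.cons_val', Matrix.cons_val_zero, Matrix.cons_val_one,
          Matrix.cons_val_fin_one]
        rw [← hχp, ← norm_mul, ← norm_neg]
        congr 1
        ring
      · rw [hpl, qP_eq]
        simp only [Matrix.of_apply, Matrix.cons_val', Matrix.cons_val_zero, Matrix.cons_val_one,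
          Matrix.cons_val_fin_one]
        rw [← hχp, ← norm_mul]
        congr 1
        ring
    have hvis := hP.2.2.2 χ hχ1 hq 1 χ
      (by rw [Matrix.SpecialLinearGroup.coe_one, sub_self, cj_zero, nm_zero]; exact hV.c_pos)
      (by rw [sub_self, vn_eq_zero.mpr rfl]; exact hV.c_pos)
    rw [ac_one G.hD, pmv_one hP.isPl] at hvis
    have hle := hvis.le hc
    rw [qP_cj', hq] at hle
    rw [hψ', hxχ, Matrix.mulVec_smul, eD_smul, Complex.norm_real, Real.norm_eq_abs, sq_abs, hρ2,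
      hnsq]
    have h8 : 0 < ‖x 0‖ * ‖x 1‖ := mul_pos hn0 hn1
    nlinarith

/-- The function `e(y,·)` when `Σ(y)` has two directions.
Proof. Let `k` be as in `exists_frame_two`, `x = k ψ`; `om a ψ = om e₁ x = x₁`,
`om a' ψ = om (δ e₂) x = -δ x₀`, `δ = om a a'`. So the claim is `e(y,ψ) = |x₀||x₁|`. If `x₁ = 0`
then `ψ ∥ a` and `e(y,ψ) = 0` (`Sig.of_om`, `Sig.eD_zero`; the case `ψ = 0` by `eD_smul` with `0`);
same for `x₀ = 0`. Otherwise let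
`e^s = |x₁|/|x₀|`, `k' = dg s * k`: `x' = k' ψ = (e^{s/2}x₀, e^{-s/2}x₁)`, `|x'₀| = |x'₁| =: ρ`,
`ρ² = |x₀||x₁|`, `nsq x' = 2ρ²`. Upper bound: `Sig_two` for `k'`: `m(y,k') = 1/2`, `eD_le_mD'`:
`e ≤ (1/2)(2ρ²)`. Lower bound: let `P` be a contact plane at `k'` (`Ct_exists`), by
`Sig_two_plane` `cj k' P ∈ {E11, E22}`; the unit vector `χ = (√2 ρ)⁻¹ • x'` satisfies
`‖qP (cj k' P) χ‖ = |χ₀ χ₁| = 1/2` (`qP_eq`); exact visibility with `g = 1`, `ψ' = χ`: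
`SVis G y (k'⁻¹ χ) P C` (`ac_one`, `pmv_one`), `SVis.le`: `e(y, k'⁻¹ χ) ≥ ‖qP P (k'⁻¹ χ)‖ = 1/2`
(`qP_cj'`); `ψ = (√2 ρ) • k'⁻¹ χ` and `eD_smul`. -/
theorem Sig_two_eD (hc : Cst r0 L) {c C : ℝ} (hV : VisPkg.{u} r0 L c C) (G : Geo E r0 L)
    (hne : ∃ y ψ, 0 < eD G.D y ψ) {y : E} {a a' : V} (haa : om a a' ≠ 0)
    (h : Sig G.D y a) (h' : Sig G.D y a') (ψ : V) :
    eD G.D y ψ = ‖om a ψ‖ * ‖om a' ψ‖ / ‖om a a'‖ := by
  obtain ⟨k, hk, hk'⟩ := exists_frame_two haa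
  set δ : ℂ := om a a' with hδ
  have hδ0 : δ ≠ 0 := haa
  set x : V := (k : M2) *ᵥ ψ with hx
  have hψ : ψ = ((k⁻¹ : SL) : M2) *ᵥ x := by
    rw [hx, Matrix.mulVec_mulVec, coe_inv_mul, Matrix.one_mulVec]
  have ho1 : om a ψ = x 1 := by
    rw [← om_mulVec k a ψ, hk, ← hx]
    simp [om, e1]
  have ho2 : om a' ψ = -(δ * x 0) := by
    rw [← om_mulVec k a' ψ, hk', ← hx]
    simp [om, e2]
  rw [ho1, ho2, norm_neg, norm_mul]
  have hδn : ‖δ‖ ≠ 0 := norm_ne_zero_iff.mpr hδ0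
  have hgoal : ‖x 1‖ * (‖δ‖ * ‖x 0‖) / ‖δ‖ = ‖x 0‖ * ‖x 1‖ := by
    field_simp
  rw [hgoal]
  by_cases hψ0 : ψ = 0
  · have hx0 : x = 0 := by rw [hx, hψ0, Matrix.mulVec_zero]
    rw [hx0, hψ0]
    have := eD_smul G.D y (0 : V) 0
    simpa using this
  by_cases h1 : x 1 = 0
  · have : Sig G.D y ψ := h.of_om hψ0 (by rw [ho1, h1])
    rw [this.eD_zero, h1]
    simp
  by_cases h0 : x 0 = 0
  · have : Sig G.D y ψ := h'.of_om hψ0 (by rw [ho2, h0]; simp)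
    rw [this.eD_zero, h0]
    simp
  exact s5b_main hc hV G hne hk hk' h h' hψ h0 h1

/-- At most two directions. Proof. `Sig_two_eD` with `ψ = a''` and `Sig.eD_zero`:
`0 = ‖om a a''‖ * ‖om a' a''‖ / ‖om a a'‖`. -/
theorem Sig_le_two (hc : Cst r0 L) {c C : ℝ} (hV : VisPkg.{u} r0 L c C) (G : Geo E r0 L)
    (hne : ∃ y ψ, 0 < eD G.D y ψ) {y : E} {a a' a'' : V} (h1 : om a a' ≠ 0)
    (h : Sig G.D y a) (h' : Sig G.D y a') (h'' : Sig G.D y a'') :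
    om a a'' = 0 ∨ om a' a'' = 0 := by
  have he := Sig_two_eD hc hV G hne h1 h h' a''
  rw [h''.eD_zero] at he
  have hd : ‖om a a'‖ ≠ 0 := norm_ne_zero_iff.mpr h1
  have h2 : ‖om a a''‖ * ‖om a' a''‖ = 0 := by
    have := he.symm
    rwa [div_eq_zero_iff, or_iff_left hd] at this
  rcases mul_eq_zero.mp h2 with h3 | h3
  · exact Or.inl (norm_eq_zero.mp h3)
  · exact Or.inr (norm_eq_zero.mp h3)

end HRK
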