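import Pool.Agent.HRK.S7

/-!
# HRK-S7b : transport of contact planes to nearby points
-/

namespace HRK

open Set Filter Topology Matrix

universe u

variable {E : Type u} [TopologicalSpace E] [T2Space E] [ConnectedSpace E] {r0 L c C : ℝ}

omit [ConnectedSpace E] in
theorem s7b_tendsto_mD (hc : Cst r0 L) (G : Geo E r0 L) {y_ : ℕ → E} {y : E} {k_ : ℕ → SL} {k : SL}
    (hy : Tendsto y_ atTop (𝓝 y)) (hk : Tendsto k_ atTop (𝓝 k)) :
    Tendsto (fun n => mD G.D (y_ n) (k_ n)) atTop (𝓝 (mD G.D y k)) := by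
  have h0 : Tendsto (fun n => (y_ n, k_ n)) atTop (𝓝 (y, k)) := hy.prodMk_nhds hk
  have h1 := (continuous_mD hc G).tendsto (y, k)
  have h2 := h1.comp h0
  simp only [Function.comp_def] at h2
  exact h2

omit [ConnectedSpace E] in
theorem s7b_tendsto_ac {D : E → SL} (hD : IsLocalHomeomorph (Dh D)) {y : E} {g_ : ℕ → SL}
    (hg : Tendsto g_ atTop (𝓝 1)) : Tendsto (fun n => ac D y (g_ n)) atTop (𝓝 y) := by
  have hone : ((1 : SL) : M2) - 1 = 0 := by simp
  have hcoe : Continuous fun g : SL => (g : M2) := isEmbedding_coe.continuous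
  have hop : IsOpen {q : E × SL | ((q.2 : SL) : M2) - 1 ∈ St D q.1} := by
    have hcont : Continuous fun q : E × SL => (q.1, ((q.2 : SL) : M2) - 1) :=
      continuous_fst.prodMk ((hcoe.comp continuous_snd).sub continuous_const)
    exact (isOpen_StGraph hD).preimage hcont
  have hmem : (y, (1 : SL)) ∈ {q : E × SL | ((q.2 : SL) : M2) - 1 ∈ St D q.1} := by
    change ((1 : SL) : M2) - 1 ∈ St D y
    rw [hone]
    exact zero_mem_St y
  have hat : ContinuousAt (fun q : E × SL => ac D q.1 q.2) (y, (1 : SL)) :=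
    (continuousOn_ac hD).continuousAt (hop.mem_nhds hmem)
  have h1 : Tendsto (fun n => (y, g_ n)) atTop (𝓝 (y, (1 : SL))) :=
    tendsto_const_nhds.prodMk_nhds hg
  have h2 := hat.tendsto.comp h1
  simp only at h2
  rw [ac_one hD] at h2
  exact h2

/-- Transport to nearby points. `y` arbitrary, `g_ n → 1`, `k_ n` zeros at `y.g_ n` such that
`w n * k_ n → k` with `w n` unitary: then `P^{g_ n}` is a contact plane at `(y.g_ n, k_ n)` for
large `n`.
Proof. First `mD G.D y k = 1/2`: `ac G.D y (g_ n) → y` (`continuousOn_ac` at `(y,1)`, the set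
`{q | q.2 - 1 ∈ St D q.1}` is open (`isOpen_StGraph`) and contains `(y,1)`; `ac_one`), and
`mD (ac y (g_ n)) (w n * k_ n) = 1/2` (`mD_unitary`), `continuous_mD`. `Ct_min`: `Ct y k P`.
`Ct_transport` with `g = g_ n`, `k1 = w n * k_ n * k⁻¹ → 1`: eventually
`nm (cj k (g_ n - 1)) < c4` and `nm (k1 - 1) < c4`. So `Ct (ac y (g_ n)) (w n * k_ n) (pmv P (g_ n))`,
and `Ct.unitary` with `(w n)⁻¹`. -/
theorem Ct_lim (hc : Cst r0 L) (hV : VisPkg.{u} r0 L c C) (G : Geo E r0 L)
    (hne : ∃ y ψ, 0 < eD G.D y ψ) {y : E} {k0 : SL} {P : M2} (h : Ct G c C y k0 P)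
    {g_ k_ w : ℕ → SL} {k : SL} (hg : Tendsto g_ atTop (𝓝 1)) (hw : ∀ n, IsU (w n))
    (hk : Tendsto (fun n => w n * k_ n) atTop (𝓝 k))
    (h' : ∀ n, mD G.D (ac G.D y (g_ n)) (k_ n) = 1 / 2) :
    ∀ᶠ n in atTop, Ct G c C (ac G.D y (g_ n)) (k_ n) (pmv P (g_ n)) := by
  have hone : ((1 : SL) : M2) - 1 = 0 := by simp
  have hy : Tendsto (fun n => ac G.D y (g_ n)) atTop (𝓝 y) := s7b_tendsto_ac G.hD hg
  have hm : mD G.D y k = 1 / 2 := by
    have h1 := s7b_tendsto_mD hc G hy hk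
    have h2 : (fun n => mD G.D (ac G.D y (g_ n)) (w n * k_ n)) = fun _ => (1 / 2 : ℝ) := by
      funext n
      rw [mD_unitary hc G _ _ _ (hw n), h' n]
    rw [h2] at h1
    exact (tendsto_nhds_unique h1 tendsto_const_nhds)
  have hC := Ct_min hc hV G hne h hm
  obtain ⟨c4, hc4, htr⟩ := Ct_transport.{u} hc hV
  have hcoe : Continuous fun g : SL => (g : M2) := isEmbedding_coe.continuous
  have e1 : ∀ᶠ n in atTop, nm (cj k ((g_ n : M2) - 1)) < c4 := by
    have hcont : Continuous fun g : SL => nm (cj k ((g : M2) - 1)) :=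
      continuous_nm.comp ((continuous_cj k).comp (hcoe.sub continuous_const))
    have h1 := (hcont.tendsto 1).comp hg
    rw [hone, cj_zero, nm_zero] at h1
    exact h1.eventually_lt_const hc4
  have e2 : ∀ᶠ n in atTop, nm (((w n * k_ n * k⁻¹ : SL) : M2) - 1) < c4 := by
    have hcont : Continuous fun g : SL => nm ((g : M2) - 1) :=
      continuous_nm.comp (hcoe.sub continuous_const)
    have h0 : Tendsto (fun n => w n * k_ n * k⁻¹) atTop (𝓝 1) := by
      have := hk.mul_const k⁻¹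
      rwa [mul_inv_cancel] at this
    have h1 := (hcont.tendsto 1).comp h0
    rw [hone, nm_zero] at h1
    exact h1.eventually_lt_const hc4
  filter_upwards [e1, e2] with n hn1 hn2
  have e3 : w n * k_ n * k⁻¹ * k = w n * k_ n := by group
  have h3 := htr E G y k P hC (g_ n) (w n * k_ n * k⁻¹) hn1 hn2 (by
    rw [e3, mD_unitary hc G _ _ _ (hw n), h' n])
  rw [e3] at h3
  have h4 := h3.unitary hc (IsU_inv (hw n))
  have e4 : (w n)⁻¹ * (w n * k_ n) = k_ n := by group
  rwa [e4] at h4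

end HRK
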