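import Pool.Agent.HRK.N5

/-!
# HRK-S8 : algebra for the uniqueness of the central plane
-/

namespace HRK

open Set Filter Topology Matrix

/-- the test elements `[[1, ε], [iε, 1 + iε²]]`. -/
noncomputable def tst (ε : ℝ) : SL :=
  ⟨!![1, (ε : ℂ); Complex.I * ε, 1 + Complex.I * ε ^ 2], by
    rw [Matrix.det_fin_two_of]; ring⟩

theorem continuous_tst : Continuous tst := by
  rw [isEmbedding_coe.continuous_iff]
  apply continuous_matrix
  intro i j
  fin_cases i <;> fin_cases j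
  · exact continuous_const
  · change Continuous fun ε : ℝ => (ε : ℂ)
    fun_prop
  · change Continuous fun ε : ℝ => Complex.I * (ε : ℂ)
    fun_prop
  · change Continuous fun ε : ℝ => 1 + Complex.I * (ε : ℂ) ^ 2
    fun_prop

theorem tst_zero : tst 0 = 1 := by
  apply Subtype.ext
  change (!![1, ((0 : ℝ) : ℂ); Complex.I * ((0 : ℝ) : ℂ), 1 + Complex.I * ((0 : ℝ) : ℂ) ^ 2] : M2) = 1
  rw [Complex.ofReal_zero, mul_zero, Matrix.one_fin_two]
  simp

/-- The trace of a product of two Hermitian matrices is real.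
Proof. `star (tr (Q Q')) = tr ((Q Q')^*) = tr (Q'^* Q^*) = tr (Q' Q) = tr (Q Q')`. -/
theorem trace_im_of_hermitian {Q Q' : M2} (h : Q.IsHermitian) (h' : Q'.IsHermitian) :
    (Q * Q').trace.im = 0 := by
  have h1 : star (Q * Q').trace = (Q * Q').trace := by
    rw [← Matrix.trace_conjTranspose, Matrix.conjTranspose_mul, h.eq, h'.eq, Matrix.trace_mul_comm]
  exact Complex.conj_eq_iff_im.mp h1

/-- Let `P = E11` and `P'` a Hermitian plane, `P' ≠ E11`. Then `tr (P^g P'^g)` is not real for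
`g = tst ε`, `ε > 0` small.
Proof. `P' = [[p,q],[conj q,1-p]]`, `p` real, `p(1-p) = |q|²`, so `p ∈ [0,1]` and `p < 1`
(if `p = 1` then `q = 0` and `P' = E11`). With `g = tst ε`:
`tr (E11 g) = 1`, `tr (P' g) = p + iεq + ε conj q + (1-p)(1 + iε²) = 1 + ε(x-y)(1+i) + i ε²(1-p) =: π`
where `q = x + iy`. `E11 g = [[1,ε],[0,0]]`, `P' g` has first row... the product:
`tr (E11 g P' g) = tr(E11 g) tr(P' g) - (1 - p)` (the identity
`tr(Ag) tr(Bg) - tr(AgBg) = (tr A tr B - tr(AB)) det g` for rank one `A, B`; here simply compute: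
`(E11 g P' g)` has trace `Σ_j (g P' g)_{...}`; the entries are explicit and `ring` plus
`p(1-p) = q conj q` proves it). So `tr (P^g P'^g) = 1 - (1-p)/π`. Its imaginary part is
`(1-p) Im π/|π|²`, `Im π = ε ((x-y) + ε(1-p))`, which is `> 0` for all `ε > 0` if `x - y ≥ 0`, and
`< 0` for `0 < ε < (y-x)/(1-p)` if `x < y`. Also need `π ≠ 0`: true if `ε < 1/8`
(`|π - 1| ≤ ε·2·√2 + ε² < 1`), or from `Im π ≠ 0`. -/
theorem conflict_alg {P' : M2} (h : IsPl P') (hH : P'.IsHermitian) (hne : P' ≠ !![1, 0; 0, 0]) :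
    ∃ ε0 > 0, ∀ ε : ℝ, 0 < ε → ε < ε0 →
      (pmv !![1, 0; 0, 0] (tst ε) * pmv P' (tst ε)).trace.im ≠ 0 := by
  obtain ⟨htr, hdet⟩ := h
  have h00 : (P' 0 0).im = 0 := by
    have h1 : star (P' 0 0) = P' 0 0 := hH.apply 0 0
    exact Complex.conj_eq_iff_im.mp h1
  have h11 : (P' 1 1).im = 0 := by
    have h1 : star (P' 1 1) = P' 1 1 := hH.apply 1 1
    exact Complex.conj_eq_iff_im.mp h1
  have h10 : P' 1 0 = star (P' 0 1) := (hH.apply 1 0).symm
  rw [Matrix.trace_fin_two] at htr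
  rw [Matrix.det_fin_two, h10] at hdet
  have e00 : P' 0 0 = ((P' 0 0).re : ℂ) := (Complex.ext rfl (by rw [Complex.ofReal_im, h00]))
  have e11 : P' 1 1 = ((P' 1 1).re : ℂ) := (Complex.ext rfl (by rw [Complex.ofReal_im, h11]))
  set p : ℝ := (P' 0 0).re with hp
  set s : ℝ := (P' 1 1).re with hs
  set x : ℝ := (P' 0 1).re with hx
  set y : ℝ := (P' 0 1).im with hy
  have e01 : P' 0 1 = (x : ℂ) + (y : ℂ) * Complex.I := (Complex.re_add_im _).symm
  have e10 : P' 1 0 = (x : ℂ) - (y : ℂ) * Complex.I := by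
    rw [h10, e01]
    apply Complex.ext
    · simp
    · simp
  have hps : p + s = 1 := by
    rw [e00, e11, ← Complex.ofReal_add] at htr
    exact Complex.ofReal_injective (htr.trans Complex.ofReal_one.symm)
  have hpq : p * s = x ^ 2 + y ^ 2 := by
    rw [← h10, e00, e11, e01, e10] at hdet
    have h2 : (p : ℂ) * (s : ℂ) = (x : ℂ) ^ 2 + (y : ℂ) ^ 2 := by
      linear_combination hdet - (y : ℂ) ^ 2 * Complex.I_sq
    have h3 : ((p * s : ℝ) : ℂ) = ((x ^ 2 + y ^ 2 : ℝ) : ℂ) := by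
      push_cast
      exact h2
    exact Complex.ofReal_injective h3
  have hspos : 0 < s := by
    by_contra hcon
    push Not at hcon
    have hp1 : 1 ≤ p := by linarith
    have hq0 : x ^ 2 + y ^ 2 ≤ 0 := by
      rw [← hpq]
      nlinarith
    have hx0 : x = 0 := by nlinarith [sq_nonneg x, sq_nonneg y]
    have hy0 : y = 0 := by nlinarith [sq_nonneg x, sq_nonneg y]
    have hs0 : s = 0 := by
      rw [hx0, hy0] at hpq
      have : p * s = 0 := by rw [hpq]; ring
      rcases mul_eq_zero.mp this with h | h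
      · linarith
      · exact h
    have hp0 : p = 1 := by linarith
    apply hne
    rw [Matrix.eta_fin_two P', e00, e01, e10, e11, hx0, hy0, hs0, hp0]
    simp
  have key : ∀ ε : ℝ, (pmv !![1, 0; 0, 0] (tst ε) * pmv P' (tst ε)).trace =
      ((p + s : ℂ) + (ε : ℂ) * (Complex.I * (x + y * Complex.I) + (x - y * Complex.I)) +
        Complex.I * (ε : ℂ) ^ 2 * s)⁻¹ *
      (((p + s : ℂ) + (ε : ℂ) * (Complex.I * (x + y * Complex.I) + (x - y * Complex.I)) +
        Complex.I * (ε : ℂ) ^ 2 * s) - s) := by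
    intro ε
    have hP : P' = !![(p : ℂ), (x : ℂ) + (y : ℂ) * Complex.I; (x : ℂ) - (y : ℂ) * Complex.I,
        (s : ℂ)] := by
      rw [Matrix.eta_fin_two P', e00, e01, e10, e11]
    have hT : ((tst ε : SL) : M2) = !![1, (ε : ℂ); Complex.I * ε, 1 + Complex.I * ε ^ 2] := rfl
    unfold pmv
    rw [hT]
    clear_value p s x y
    rw [hP, Matrix.smul_mul, Matrix.mul_smul, Matrix.trace_smul, Matrix.trace_smul,
      Matrix.mul_fin_two, Matrix.mul_fin_two, Matrix.mul_fin_two, Matrix.trace_fin_two_of,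
      Matrix.trace_fin_two_of, Matrix.trace_fin_two_of, smul_eq_mul, smul_eq_mul]
    have h1 : (1 * 1 + 0 * (Complex.I * (ε : ℂ)) + (0 * (ε : ℂ) + 0 * (1 + Complex.I * (ε : ℂ) ^ 2)))⁻¹
        = (1 : ℂ) := by
      rw [zero_mul, zero_mul, zero_mul, mul_one, add_zero, add_zero, add_zero, inv_one]
    rw [h1, one_mul]
    congr 1
    · congr 1
      ring
    · ring
  have him : ∀ ε : ℝ, ((p + s : ℂ) + (ε : ℂ) * (Complex.I * (x + y * Complex.I) +
      (x - y * Complex.I)) + Complex.I * (ε : ℂ) ^ 2 * s).im = ε * ((x - y) + ε * s) := by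
    intro ε
    have h1 : (p + s : ℂ) + (ε : ℂ) * (Complex.I * (x + y * Complex.I) +
      (x - y * Complex.I)) + Complex.I * (ε : ℂ) ^ 2 * s =
        ((p + s + ε * (x - y) : ℝ) : ℂ) + ((ε * ((x - y) + ε * s) : ℝ) : ℂ) * Complex.I := by
      push_cast
      linear_combination (ε : ℂ) * (y : ℂ) * Complex.I_sq
    rw [h1]
    simp
  have hfin : ∀ (w : ℂ), w.im ≠ 0 → (w⁻¹ * (w - s)).im ≠ 0 := by
    intro w hw
    have hw0 : w ≠ 0 := by
      rintro rfl
      exact hw rfl
    have h1 : w⁻¹ * (w - s) = 1 - (s : ℂ) * w⁻¹ := by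
      field_simp
    rw [h1, Complex.sub_im, Complex.one_im, Complex.im_ofReal_mul, Complex.inv_im, zero_sub]
    apply neg_ne_zero.mpr
    apply mul_ne_zero hspos.ne'
    apply div_ne_zero (neg_ne_zero.mpr hw)
    exact (Complex.normSq_pos.mpr hw0).ne'
  by_cases hxy : 0 ≤ x - y
  · refine ⟨1, one_pos, ?_⟩
    intro ε h0 h1
    rw [key]
    apply hfin
    rw [him]
    apply ne_of_gt
    apply mul_pos h0
    have := mul_pos h0 hspos
    linarith
  · push Not at hxy
    refine ⟨(y - x) / s, div_pos (by linarith) hspos, ?_⟩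
    intro ε h0 h1
    rw [key]
    apply hfin
    rw [him]
    apply ne_of_lt
    apply mul_neg_of_pos_of_neg h0
    rw [lt_div_iff₀ hspos] at h1
    linarith

end HRK
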