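import Pool.Agent.HRK.S9a
import Pool.Agent.HRK.S7b
import Pool.Agent.HRK.S8

/-!
# HRK-S9 : CONFLICT: the contact plane at a point of `Ω₀` is unique
-/

namespace HRK

open Set Filter Topology Matrix

universe u

variable {E : Type u} [TopologicalSpace E] [T2Space E] [ConnectedSpace E] {r0 L c C : ℝ}

theorem s9_tendsto (k₁ : SL) (ε0 : ℝ) :
    Tendsto (fun n : ℕ => k₁⁻¹ * tst (ε0 / ((n : ℝ) + 2)) * k₁) atTop (𝓝 1) := by
  have h1 : Tendsto (fun n : ℕ => ε0 / ((n : ℝ) + 2)) atTop (𝓝 0) :=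
    tendsto_const_nhds.div_atTop
      (tendsto_atTop_add_const_right _ _ tendsto_natCast_atTop_atTop)
  have h2 : Tendsto (fun n : ℕ => tst (ε0 / ((n : ℝ) + 2))) atTop (𝓝 1) := by
    have h3 := (continuous_tst.tendsto 0).comp h1
    rw [tst_zero] at h3
    exact h3
  have h4 := (h2.const_mul k₁⁻¹).mul_const k₁
  rwa [mul_one, inv_mul_cancel] at h4

/-- CONFLICT.
Proof. `Ct_min`: `P'` is also a contact plane at `k`. Suppose `P ≠ P'`. `cj k P` is a Hermitian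
plane: a unitary `u` with `cj u (cj k P) = E11` (`IsPl.exists_unitary`); `k₁ = u * k`, `Ct.unitary`:
`P, P'` are contact planes at `k₁`, `cj k₁ P = E11`, `Q' = cj k₁ P' ≠ E11` (`cj k₁` is injective).
`ε0` from `conflict_alg`; `ε_n = ε0/(n+2)`, `g_ n = k₁⁻¹ * tst ε_n * k₁ → 1`. By `zeros_near`
`k_ n → k_∞` zeros at `y.g_{φ n}`. By `Ct_lim` (with `w = 1`) for large `n` both `P^g` and `P'^g`,
`g = g_{φ n}`, are contact planes at `(y.g, k_ n)`, so `cj (k_ n) (P^g)`, `cj (k_ n) (P'^g)` are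
Hermitian, and the trace of their product, which is `tr (P^g P'^g)` (`trace_cj`, `cj_mul`), is real
(`trace_im_of_hermitian`). But `tr (P^g P'^g) = tr (cj k₁ P^g · cj k₁ P'^g) =
tr (pmv E11 (tst ε) * pmv Q' (tst ε))` (`cj_pmv`), not real by `conflict_alg`. -/
theorem Ct_unique (hc : Cst r0 L) (hV : VisPkg.{u} r0 L c C) (G : Geo E r0 L)
    (hne : ∃ y ψ, 0 < eD G.D y ψ) {y : E} (hy : y ∈ Om0 G.D) {k k' : SL} {P P' : M2}
    (h : Ct G c C y k P) (h' : Ct G c C y k' P') : P = P' := by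
  have h'' := Ct_min hc hV G hne h' h.1
  by_contra hPP
  obtain ⟨u, hu, hue⟩ := (h.isPl.conj k).exists_unitary h.herm
  have h1 := h.unitary hc hu
  have h1' := h''.unitary hc hu
  rw [cj_cj] at hue
  generalize u * k = k₁ at hue h1 h1'
  have hQ : cj k₁ P' ≠ !![1, 0; 0, 0] := by
    intro he
    apply hPP
    have h2 : cj k₁⁻¹ (cj k₁ P) = cj k₁⁻¹ (cj k₁ P') := by rw [hue, he]
    rwa [cj_cj, cj_cj, inv_mul_cancel, one_cj, one_cj] at h2
  obtain ⟨ε0, hε0, hconf⟩ := conflict_alg (h1'.isPl.conj k₁) h1'.herm hQ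
  have hgt : Tendsto (fun n : ℕ => k₁⁻¹ * tst (ε0 / ((n : ℝ) + 2)) * k₁) atTop (𝓝 1) :=
    s9_tendsto k₁ ε0
  obtain ⟨φ, k_, kinf, hφ, hz, hk⟩ := zeros_near hc G hne hy hgt
  have hgφ : Tendsto (fun n : ℕ => k₁⁻¹ * tst (ε0 / (((φ n : ℕ) : ℝ) + 2)) * k₁) atTop (𝓝 1) :=
    hgt.comp hφ.tendsto_atTop
  have hk1 : Tendsto (fun n => (1 : SL) * k_ n) atTop (𝓝 kinf) := by
    simpa only [one_mul] using hk
  have e1 := Ct_lim hc hV G hne h1 hgφ (w := fun _ => 1) (fun _ => IsU_one) hk1 hz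
  have e2 := Ct_lim hc hV G hne h1' hgφ (w := fun _ => 1) (fun _ => IsU_one) hk1 hz
  obtain ⟨n, hn1, hn2⟩ := (e1.and e2).exists
  have hε1 : 0 < ε0 / (((φ n : ℕ) : ℝ) + 2) := by positivity
  have hε2 : ε0 / (((φ n : ℕ) : ℝ) + 2) < ε0 := by
    rw [div_lt_iff₀ (by positivity)]
    have : (0 : ℝ) ≤ ((φ n : ℕ) : ℝ) := Nat.cast_nonneg _
    nlinarith
  apply hconf _ hε1 hε2
  have h3 := trace_im_of_hermitian hn1.herm hn2.herm
  rw [← cj_mul, trace_cj] at h3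
  have e3 : k₁ * (k₁⁻¹ * tst (ε0 / (((φ n : ℕ) : ℝ) + 2)) * k₁) * k₁⁻¹ =
      tst (ε0 / (((φ n : ℕ) : ℝ) + 2)) := by group
  rw [← trace_cj k₁, cj_mul, cj_pmv, cj_pmv, e3, hue] at h3
  exact h3

/-- Existence and uniqueness of the central plane on `Ω₀`.
Proof. `exists_half_or_Sig`, `Ct_exists`, `Ct_unique`. -/
theorem exists_central (hc : Cst r0 L) (hV : VisPkg.{u} r0 L c C) (G : Geo E r0 L)
    (hne : ∃ y ψ, 0 < eD G.D y ψ) {y : E} (hy : y ∈ Om0 G.D) :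
    ∃! P : M2, ∃ k, Ct G c C y k P := by
  rcases exists_half_or_Sig hc G hne y with ⟨k, hk⟩ | ⟨a, ha⟩
  · obtain ⟨P, hP⟩ := Ct_exists hV G hk
    refine ⟨P, ⟨k, hP⟩, ?_⟩
    rintro P' ⟨k', hP'⟩
    exact Ct_unique hc hV G hne hy hP' hP
  · exact absurd ha (hy a)

end HRK
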