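import Pool.Agent.HRK.S9a
import Pool.Agent.HRK.S7b

/-!
# HRK-S9b : the central plane is locally constant
-/

namespace HRK

open Set Filter Topology Matrix

universe u

variable {E : Type u} [TopologicalSpace E] [T2Space E] [ConnectedSpace E] {r0 L c C : ℝ}

/-- a sequence with `nm (g_ n - 1) → 0` converges to `1`. -/
theorem s9b_tendsto_one {g_ : ℕ → SL} (h : ∀ n : ℕ, nm ((g_ n : M2) - 1) < 1 / ((n : ℝ) + 1)) :
    Tendsto g_ atTop (𝓝 1) := by
  rw [tendsto_def]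
  intro O hO
  obtain ⟨r, hr, hb⟩ := exists_SL_ball hO
  have h1 : Tendsto (fun n : ℕ => 1 / ((n : ℝ) + 1)) atTop (𝓝 0) :=
    tendsto_one_div_add_atTop_nhds_zero_nat
  have h2 : ∀ᶠ n : ℕ in atTop, 1 / ((n : ℝ) + 1) < r := h1.eventually (isOpen_Iio.mem_nhds hr)
  filter_upwards [h2] with n hn
  refine hb (g_ n) ?_
  rw [Matrix.SpecialLinearGroup.coe_one]
  exact lt_trans (h n) hn

/-- The central plane is locally constant.
Proof. Otherwise there are `g_ n → 1` (`nm (g_ n - 1) < 1/(n+1)`) such that there is no `k` with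
`Ct (y.g_ n) k (P^{g_ n})`. `zeros_near` gives `k_ n → k_∞`, and `Ct_lim` (`w = 1`) gives for large
`n` that `Ct (y.g) (k_ n) (P^g)`, `g = g_{φ n}`. Contradiction. -/
theorem central_local (hc : Cst r0 L) (hV : VisPkg.{u} r0 L c C) (G : Geo E r0 L)
    (hne : ∃ y ψ, 0 < eD G.D y ψ) {y : E} (hy : y ∈ Om0 G.D) {P : M2}
    (h : ∃ k, Ct G c C y k P) :
    ∃ δ > 0, ∀ g : SL, nm ((g : M2) - 1) < δ → ∃ k, Ct G c C (ac G.D y g) k (pmv P g) := by
  by_contra hcon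
  have hex : ∀ n : ℕ, ∃ g : SL, nm ((g : M2) - 1) < 1 / ((n : ℝ) + 1) ∧
      ¬ ∃ k, Ct G c C (ac G.D y g) k (pmv P g) := by
    intro n
    by_contra hn
    refine hcon ⟨1 / ((n : ℝ) + 1), by positivity, fun g hg => ?_⟩
    by_contra hk
    exact hn ⟨g, hg, hk⟩
  choose g_ hg1 hg2 using hex
  have hg : Tendsto g_ atTop (𝓝 1) := s9b_tendsto_one hg1
  obtain ⟨φ, k_, k, hφ, hz, hk⟩ := zeros_near hc G hne hy hg
  obtain ⟨k0, hk0⟩ := h
  have hg' : Tendsto (fun n => g_ (φ n)) atTop (𝓝 1) := hg.comp hφ.tendsto_atTop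
  have hw1 : Tendsto (fun n => (fun _ : ℕ => (1 : SL)) n * k_ n) atTop (𝓝 k) := by
    simpa only [one_mul] using hk
  have hev := Ct_lim hc hV G hne hk0 (w := fun _ => 1) hg' (fun _ => IsU_one) hw1 hz
  obtain ⟨n, hn⟩ := hev.exists
  exact hg2 (φ n) ⟨k_ n, hn⟩

end HRK
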