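import Pool.Agent.HRK.B4

/-!
# HRK-Y3 : the chart `X ↦ y.(1+X)` and the normalised element `g`
-/

namespace HRK

open Set Filter Topology Matrix

variable {E : Type*} [TopologicalSpace E] [T2Space E] {D : E → SL}

/-- the normalised element `(1+X)/√det(1+X)` (`1` if `det(1+X) = 0`). -/
theorem exists_normalised (X : M2) (h : (1 + X).det ≠ 0) :
    ∃ g : SL, (g : M2) = Complex.exp (-(Complex.log (1 + X).det / 2)) • (1 + X) := by
  refine ⟨⟨Complex.exp (-(Complex.log (1 + X).det / 2)) • (1 + X), ?_⟩, rfl⟩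
  rw [Matrix.det_smul, Fintype.card_fin, ← Complex.exp_nat_mul]
  have h1 : ((2 : ℕ) : ℂ) * -(Complex.log (1 + X).det / 2) = -(Complex.log (1 + X).det) := by
    push_cast
    ring
  rw [h1, Complex.exp_neg, Complex.exp_log h, inv_mul_cancel₀ h]

/-- the estimate for the matrix `e^{-log det/2} (1 + X) - 1`. -/
theorem y3_le {k : SL} {X : M2} (hX : nm (cj k X) ≤ 1 / 16) :
    nm (cj k (Complex.exp (-(Complex.log (1 + X).det / 2)) • (1 + X) - 1)) ≤ 6 * nm (cj k X) := by
  set Y := cj k X with hY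
  have hY0 := nm_nonneg Y
  have hdet : (1 + X).det = 1 + (Y.trace + Y.det) := by
    rw [← det_cj k (1 + X), cj_add, cj_one, ← hY, Matrix.det_fin_two, Matrix.det_fin_two,
      Matrix.trace_fin_two]
    simp only [Matrix.add_apply, Matrix.one_apply_eq, Matrix.one_apply_ne (show (0 : Fin 2) ≠ 1 by decide),
      Matrix.one_apply_ne (show (1 : Fin 2) ≠ 0 by decide), zero_add]
    ring
  have hfro : fro Y = nm Y ^ 2 := (nm_sq Y).symm
  have hu : ‖Y.trace + Y.det‖ ≤ 2.04 * nm Y := by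
    have h1 := norm_trace_le Y
    have h2 := norm_det_le Y
    rw [hfro] at h2
    have h3 := norm_add_le Y.trace Y.det
    nlinarith
  have hlog : ‖Complex.log (1 + X).det‖ ≤ 3.06 * nm Y := by
    rw [hdet]
    have h1 : ‖Y.trace + Y.det‖ ≤ 1 / 2 := by linarith
    have h2 := Complex.norm_log_one_add_half_le_self h1
    linarith
  set z : ℂ := Complex.log (1 + X).det / 2 with hz
  have hzn : ‖-z‖ ≤ 1.53 * nm Y := by
    rw [norm_neg, hz, norm_div, Complex.norm_ofNat]
    linarith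
  have hexp : ‖Complex.exp (-z) - 1‖ ≤ 3.06 * nm Y := by
    have h1 := Complex.norm_exp_sub_one_le (x := -z) (by linarith)
    linarith
  have hone : nm (1 + Y) ≤ 1.4775 := by
    have h1 := nm_add_le 1 Y
    have h2 : nm (1 : M2) ≤ 1.415 := by
      have h3 := nm_sq (1 : M2)
      have h4 : fro (1 : M2) = 2 := by
        rw [fro_eq]
        simp
        norm_num
      rw [h4] at h3
      have h5 := nm_nonneg (1 : M2)
      nlinarith
    linarith
  have hcj : cj k (Complex.exp (-z) • (1 + X) - 1) = (Complex.exp (-z) - 1) • (1 + Y) + Y := by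
    rw [cj_sub, cj_smul, cj_add, cj_one, ← hY, sub_smul, one_smul]
    abel
  rw [hcj]
  have h1 := nm_add_le ((Complex.exp (-z) - 1) • (1 + Y)) Y
  rw [nm_smul] at h1
  have h2 : ‖Complex.exp (-z) - 1‖ * nm (1 + Y) ≤ (3.06 * nm Y) * 1.4775 :=
    mul_le_mul hexp hone (nm_nonneg _) (by positivity)
  nlinarith

/-- Estimate. Proof. With `Y = cj k X`, `ε = nm Y ≤ 1/16`: `det(1+X) = det(1+Y) = 1 + tr Y + det Y`,
`|tr Y| ≤ √2 ε` (or `2 ε`), `|det Y| ≤ ε²/2`, so `|det - 1| ≤ 2.1 ε ≤ 1/4`;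
`|log(1+t)| ≤ (4/3)... |t|·(1/(1-|t|))` (`Complex.norm_log_one_add_le` or
`Complex.norm_log_one_add_half_le_self`: `|log(1+t)| ≤ 3/2 |t|` for `|t| ≤ 1/2`), so
`z = log det/2` has `|z| ≤ 1.6 ε`, `|e^{-z} - 1| ≤ 2|z| ≤ 3.2 ε` (`Complex.norm_exp_sub_one_le`,
`|z| ≤ 1`). `cj k (g - 1) = (e^{-z} - 1)(1 + Y) + Y`, `nm (1 + Y) ≤ √2 + 1/16 ≤ 1.5`, so the norm is
`≤ 4.8 ε + ε ≤ 6 ε < 8 ε` for `ε > 0` and `= 0 ` for `ε = 0`. -/
theorem normalised_le {k : SL} {X : M2} (hX : nm (cj k X) ≤ 1 / 16) {g : SL}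
    (hg : (g : M2) = Complex.exp (-(Complex.log (1 + X).det / 2)) • (1 + X)) :
    nm (cj k ((g : M2) - 1)) ≤ 6 * nm (cj k X) := by
  rw [hg]
  exact y3_le hX

/-- Proof. For `s ∈ [0,1]` let `g_s` be the normalised element of `s • X` (`det (1 + sX)` is in the
slit plane: `det_mem_slitPlane`, so it is `≠ 0` and the logarithm is continuous along the path). Let
`c s = mvp D y (s • X)`, `c' s = ac D y g_s`. Both are continuous on `[0,1]`
(`continuousOn_mvp_right`, `smul_mem_St`; `continuousOn_ac`, `normalised_le`: `|g_s - 1|_k < r`),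
`c 0 = y = c' 0` (`mvp_zero`, `ac_one`, `g_0 = 1`), and
`D (c s) = e^{-(exh ..).2} • (D y (1 + sX)) = D y * g_s` (`D_mvp`, `exh_snd`), `D (c' s) = D y * g_s`
(`D_ac`). `eqOn_of_D` on `[0,1]` at `s = 1`. -/
theorem mvp_eq_ac (hD : IsLocalHomeomorph (Dh D)) {y : E} {k : SL} {r : ℝ} (hr : r ≤ 1 / 2)
    (hF : FB D y k r) {X : M2} (hX : nm (cj k X) < r / 8) {g : SL}
    (hg : (g : M2) = Complex.exp (-(Complex.log (1 + X).det / 2)) • (1 + X)) :
    nm (cj k ((g : M2) - 1)) < r ∧ mvp D y X = ac D y g := by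
  have hr0 : 0 < r := by
    have := nm_nonneg (cj k X)
    linarith
  have hX16 : nm (cj k X) ≤ 1 / 16 := by linarith
  refine ⟨by
    have := normalised_le hX16 hg
    linarith, ?_⟩
  let Z : ℝ → M2 := fun s =>
    Complex.exp (-(Complex.log (1 + s • X).det / 2)) • (1 + s • X) - 1
  have hnm : ∀ s ∈ Icc (0:ℝ) 1, nm (cj k (s • X)) < r / 8 := by
    intro s hs
    rw [cj_real_smul, nm_real_smul, abs_of_nonneg hs.1]
    have h1 : s * nm (cj k X) ≤ 1 * nm (cj k X) :=
      mul_le_mul_of_nonneg_right hs.2 (nm_nonneg _)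
    linarith
  have hsl : ∀ s ∈ Icc (0:ℝ) 1, (1 + s • X).det ∈ Complex.slitPlane := by
    intro s hs
    exact det_mem_slitPlane (k := k) (by linarith) hs
  have hSt : ∀ s ∈ Icc (0:ℝ) 1, s • X ∈ St D y := by
    intro s hs
    apply hF
    have := hnm s hs
    linarith
  have hZnm : ∀ s ∈ Icc (0:ℝ) 1, nm (cj k (Z s)) < r := by
    intro s hs
    have h1 := hnm s hs
    have h2 := y3_le (k := k) (X := s • X) (by linarith)
    change nm (cj k (Z s)) ≤ _ at h2
    linarith
  have hZSt : ∀ s ∈ Icc (0:ℝ) 1, Z s ∈ St D y := fun s hs => hF _ (hZnm s hs)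
  have hdetc : Continuous fun s : ℝ => (1 + s • X).det := by fun_prop
  have hZc : ContinuousOn Z (Icc (0:ℝ) 1) := by
    have h1 : ContinuousOn (fun s : ℝ => Complex.log (1 + s • X).det) (Icc (0:ℝ) 1) :=
      hdetc.continuousOn.clog hsl
    have h2 : ContinuousOn (fun s : ℝ => Complex.exp (-(Complex.log (1 + s • X).det / 2)))
        (Icc (0:ℝ) 1) := (h1.div_const 2).neg.cexp
    have h3 : ContinuousOn (fun s : ℝ => (1 + s • X : M2)) (Icc (0:ℝ) 1) := by fun_prop
    exact (h2.smul h3).sub continuousOn_const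
  have hdet1 : ∀ s ∈ Icc (0:ℝ) 1, (1 + Z s).det = 1 := by
    intro s hs
    have h0 : (1 + s • X).det ≠ 0 := Complex.slitPlane_ne_zero (hsl s hs)
    obtain ⟨g', hg'⟩ := exists_normalised (s • X) h0
    have h1 : 1 + Z s = (g' : M2) := by
      rw [hg']
      change 1 + (_ - 1) = _
      abel
    rw [h1]
    exact g'.2
  have hmain := eqOn_of_D hD (S := Icc (0:ℝ) 1) isPreconnected_Icc
    (c := fun s => mvp D y (s • X)) (c' := fun s => mvp D y (Z s)) ?_ ?_ ?_ (t₀ := 0) ⟨le_rfl, zero_le_one⟩ ?_ 1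
    ⟨zero_le_one, le_rfl⟩
  · change mvp D y ((1 : ℝ) • X) = mvp D y (Z 1) at hmain
    rw [one_smul] at hmain
    rw [hmain]
    change mvp D y (Z 1) = mvp D y ((g : M2) - 1)
    congr 1
    rw [hg]
    change Complex.exp (-(Complex.log (1 + (1 : ℝ) • X).det / 2)) • (1 + (1 : ℝ) • X) - 1 = _
    rw [one_smul]
  · have h1 : ContinuousOn (fun s : ℝ => s • X) (Icc (0:ℝ) 1) := by fun_prop
    exact (continuousOn_mvp_right hD y).comp h1 hSt
  · exact (continuousOn_mvp_right hD y).comp hZc hZSt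
  · intro s hs
    apply Subtype.ext
    change (D (mvp D y (s • X)) : M2) = (D (mvp D y (Z s)) : M2)
    have h1 := D_mvp (hSt s hs)
    rw [exh_snd hD (hSt s hs) (fun s' hs' => det_mem_slitPlane (k := k) (by
      have := hnm s hs
      linarith) hs')] at h1
    have h2 := (D_mvp_of_le hD (hZSt s hs) (k := k) (by
      have := hZnm s hs
      linarith) (hdet1 s hs)).1
    rw [h1, h2]
    have h3 : 1 + Z s = Complex.exp (-(Complex.log (1 + s • X).det / 2)) • (1 + s • X) := by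
      change 1 + (_ - 1) = _
      abel
    rw [h3, Matrix.mul_smul]
  · have h1 : Z 0 = 0 := by
      change Complex.exp (-(Complex.log (1 + (0 : ℝ) • X).det / 2)) • (1 + (0 : ℝ) • X) - 1 = 0
      rw [zero_smul, add_zero, Matrix.det_one, Complex.log_one, zero_div, neg_zero, Complex.exp_zero,
        one_smul, sub_self]
    rw [h1, zero_smul]

end HRK
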