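import Pool.Agent.HRK.N5

/-!
# HRK-Y4a : algebra of moved planes in the charts
-/

namespace HRK

open Set Filter Topology Matrix


/-- Algebra. For `(g : M2) = z • (1 + X)`, `z ≠ 0`: `pmv P g` does not see `z`, and
`qP (pmv P g) a = tr (P (1+X) n(a)) / tr (P (1+X))`. -/
theorem qP_pmv_scaled (P : M2) {g : SL} {X : M2} {z : ℂ} (hz : z ≠ 0)
    (hg : (g : M2) = z • (1 + X)) (a : V) :
    qP (pmv P g) a = (P * (1 + X) * nn a).trace / (P * (1 + X)).trace := by
  have hz2 : (P * (z • (1 + X))).trace = z * (P * (1 + X)).trace := by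
    rw [Matrix.mul_smul, Matrix.trace_smul, smul_eq_mul]
  unfold qP pmv
  rw [hg, hz2, Matrix.mul_smul, smul_smul, Matrix.smul_mul, Matrix.trace_smul, smul_eq_mul,
    mul_inv]
  have : z⁻¹ * ((P * (1 + X)).trace)⁻¹ * z = ((P * (1 + X)).trace)⁻¹ := by
    field_simp
  rw [this, div_eq_mul_inv, mul_comm]

/-- Algebra. `g⁻¹ = z • adj (1+X)`: for `(g : M2) = z • (1+X)` with `det g = 1`, `z² det(1+X) = 1`,
`qP (pmv P g) (g⁻¹ ψ) = tr (P (1+X) n(adj(1+X) ψ)) / (tr (P (1+X)) det (1+X))`. -/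
theorem qP_pmv_scaled' (P : M2) {g : SL} {X : M2} {z : ℂ} (hz : z ≠ 0)
    (hg : (g : M2) = z • (1 + X)) (ψ : V) :
    qP (pmv P g) (((g⁻¹ : SL) : M2) *ᵥ ψ) =
      (P * (1 + X) * nn ((1 + X).adjugate *ᵥ ψ)).trace / ((P * (1 + X)).trace * (1 + X).det) := by
  have hdet : z ^ 2 * (1 + X).det = 1 := by
    have h1 : (g : M2).det = 1 := g.det_coe
    rw [hg, Matrix.det_smul] at h1
    simpa using h1
  have hinv : ((g⁻¹ : SL) : M2) = z • (1 + X).adjugate := by
    rw [Matrix.SpecialLinearGroup.coe_inv, hg, Matrix.adjugate_smul]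
    simp
  rw [qP_pmv_scaled P hz hg, hinv, Matrix.smul_mulVec, nn_smul, Matrix.mul_smul,
    Matrix.trace_smul, smul_eq_mul]
  have hd0 : (1 + X).det ≠ 0 := by
    intro h0
    rw [h0, mul_zero] at hdet
    exact zero_ne_one hdet
  have hz3 : z ^ 2 = ((1 + X).det)⁻¹ := eq_inv_of_mul_eq_one_left hdet
  rw [hz3, div_eq_mul_inv, div_eq_mul_inv, mul_inv]
  ring

theorem y4a_trace_le (X : M2) : ‖X.trace‖ ≤ Real.sqrt 2 * nm X := by
  have h1 : ‖X.trace‖ ^ 2 ≤ 2 * fro X := by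
    rw [Matrix.trace_fin_two, fro_eq]
    have h2 := norm_add_le (X 0 0) (X 1 1)
    have h3 := norm_nonneg (X 0 0)
    have h4 := norm_nonneg (X 1 1)
    have h5 := norm_nonneg (X 0 0 + X 1 1)
    have h6 := Complex.normSq_nonneg (X 0 1)
    have h7 := Complex.normSq_nonneg (X 1 0)
    rw [Complex.normSq_eq_norm_sq (X 0 0), Complex.normSq_eq_norm_sq (X 1 1)]
    nlinarith [sq_nonneg (‖X 0 0‖ - ‖X 1 1‖)]
  unfold nm
  rw [← Real.sqrt_mul (by norm_num : (0:ℝ) ≤ 2)]
  exact Real.le_sqrt_of_sq_le h1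

/-- Smallness of all data for `nm X < r`: for a plane `P` and a frame `k` with
`cj k P = [[0,0],[-1,1]]` and `c > 0` there is `r > 0` such that for `nm X < r`: `nm (cj k X) < c`,
`det (1+X) ≠ 0`, `tr (P(1+X)) ≠ 0`, and `tr (P g) ≠ 0` for every `g` with `nm (cj k (g-1)) < c` if
`c ≤ 1/2`.
Proof. `nm (cj k X) ≤ nm k ^ 2 * nm X` (`nm_cj_le`); `|tr(P(1+X)) - 1| = |tr (cj k P · cj k X)| ≤
√2 nm (cj k X)` (`trace_cj`, `norm_trace_mul_le`, `tr P = 1`), `norm_trace_pg_sub_le`;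
`|det(1+X) - 1| ≤ 2 nm + nm²/2`. -/
theorem y4_small {P : M2} {k : SL} (hP : IsPl P) (hk : cj k P = !![0, 0; -1, 1]) {c : ℝ}
    (hc : 0 < c) (hc' : c ≤ 1 / 2) : ∃ r > 0, (∀ X : M2, nm X < r → nm (cj k X) < c ∧
      (1 + X).det ≠ 0 ∧ (P * (1 + X)).trace ≠ 0) ∧
      ∀ g : SL, nm (cj k ((g : M2) - 1)) < c → (P * (g : M2)).trace ≠ 0 := by
  have hk0 : 0 < nm (k : M2) := by
    rcases (nm_nonneg (k : M2)).lt_or_eq with h | h
    · exact h
    · exfalso
      have h0 : (k : M2) = 0 := nm_eq_zero.mp h.symm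
      have h1 : (k : M2).det = 1 := k.det_coe
      rw [h0] at h1
      simp at h1
  have hfr : fro (cj k P) = 2 := by
    rw [hk, fro_eq]
    simp
    norm_num
  have hnP : nm (cj k P) = Real.sqrt 2 := by
    unfold nm
    rw [hfr]
  have hs2 : Real.sqrt 2 * (1 / 2) < 1 := by
    have h1 : Real.sqrt 2 < 2 := by
      rw [Real.sqrt_lt' (by norm_num)]
      norm_num
    linarith
  have hs0 : 0 ≤ Real.sqrt 2 := Real.sqrt_nonneg 2
  have htr : ∀ Y : M2, nm (cj k Y) < c → (P * (1 + Y)).trace ≠ 0 := by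
    intro Y hY h0
    have h1 : (P * (1 + Y)).trace = 1 + (cj k P * cj k Y).trace := by
      rw [← cj_mul, trace_cj, Matrix.mul_add, Matrix.mul_one, Matrix.trace_add, hP.1]
    have h2 := norm_trace_mul_le (cj k P) (cj k Y)
    rw [hnP] at h2
    rw [h0] at h1
    have h3 : (cj k P * cj k Y).trace = -1 := by linear_combination -h1
    rw [h3, norm_neg, norm_one] at h2
    have h4 : Real.sqrt 2 * nm (cj k Y) ≤ Real.sqrt 2 * (1 / 2) :=
      mul_le_mul_of_nonneg_left (by linarith) hs0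
    linarith
  refine ⟨c / nm (k : M2) ^ 2, by positivity, ?_, ?_⟩
  · intro X hX
    have hX1 : nm (cj k X) < c := by
      have h1 := nm_cj_le k X
      have h2 : nm (k : M2) ^ 2 * nm X < c := by
        rw [lt_div_iff₀ (by positivity)] at hX
        linarith
      linarith
    refine ⟨hX1, ?_, htr X hX1⟩
    intro h0
    have h1 : (1 + cj k X).det = 0 := by
      rw [← cj_one k, ← cj_add, det_cj, h0]
    have h2 : (1 + cj k X).det = 1 + (cj k X).trace + (cj k X).det := by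
      rw [Matrix.det_fin_two, Matrix.det_fin_two, Matrix.trace_fin_two]
      simp [Matrix.add_apply]
      ring
    have h3 : ‖(cj k X).trace + (cj k X).det‖ = 1 := by
      have : (cj k X).trace + (cj k X).det = -1 := by
        rw [h1] at h2
        linear_combination -h2
      rw [this, norm_neg, norm_one]
    have h4 : ‖(cj k X).trace‖ ≤ Real.sqrt 2 * nm (cj k X) := y4a_trace_le (cj k X)
    have h5 := norm_det_le (cj k X)
    have h6 := norm_add_le (cj k X).trace (cj k X).det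
    have h7 : fro (cj k X) < 1 / 4 := by
      rw [← nm_sq]
      have := nm_nonneg (cj k X)
      nlinarith
    have h8 : Real.sqrt 2 < 3 / 2 := by
      rw [Real.sqrt_lt' (by norm_num)]
      norm_num
    have h9 : Real.sqrt 2 * nm (cj k X) ≤ Real.sqrt 2 * (1 / 2) :=
      mul_le_mul_of_nonneg_left (by linarith) hs0
    linarith
  · intro g hg
    have h1 := htr ((g : M2) - 1) hg
    rwa [add_sub_cancel] at h1

end HRK
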