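import Pool.Agent.HRK.Iface
import Pool.Agent.HRK.Y3
import Pool.Agent.HRK.Y4a

/-!
# HRK-Y4 : `e(·,a)` has holomorphic supports
-/

namespace HRK

open Set Filter Topology Matrix

universe u

variable {E : Type u} [TopologicalSpace E] [T2Space E] {r0 L : ℝ}

theorem y4_aff (P X Z N : M2) (l : ℂ) : (P * (1 + (X + l • Z)) * N).trace =
    (P * (1 + X) * N).trace + l * (P * Z * N).trace := by
  rw [← add_assoc, mul_add P (1 + X) (l • Z), add_mul, Matrix.trace_add, Matrix.mul_smul,
    Matrix.smul_mul, Matrix.trace_smul, smul_eq_mul]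

theorem y4_aff' (P X Z : M2) (l : ℂ) : (P * (1 + (X + l • Z))).trace =
    (P * (1 + X)).trace + l * (P * Z).trace := by
  rw [← add_assoc, mul_add P (1 + X) (l • Z), Matrix.trace_add, Matrix.mul_smul,
    Matrix.trace_smul, smul_eq_mul]

/-- `e(·,a)` has holomorphic supports.
Proof. Continuity and `≥ 0`: `continuous_eD`, `eD_nonneg`. Let `e(y,a) > 0`. `normal_form` gives
`c, C`, `k, lam, P`, with `FB G.D y k c`. Put `c' = min c (1/2)`,
`F X = (P * (1+X) * nn a).trace / (P * (1+X)).trace`. `r` from `y4_small` with `c'/8`. For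
`nm X < r`: `g` = normalised element (`exists_normalised`), `mvp_eq_ac` with `r := c'`:
`nm (cj k (g - 1)) < c'`, `mvp D y X = ac D y g`. Visibility with `ψ' = a`:
`lam⁻¹ • (k a) - e1 = 0` (`lam ≠ 0` as `‖lam‖² = e > 0`), so `SVis G (ac y g) a (pmv P g) C`;
`SVis.le` (`IsPl.move`): `‖qP (pmv P g) a‖ ≤ eD (ac y g) a`, and `qP (pmv P g) a = F X`
(`qP_pmv_scaled`). `F 0 = qP P a`. `X ∈ St`: `FB`. Differentiability along lines: numerator and
denominator are affine in `l`, the denominator does not vanish on the set. -/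
theorem HS_eD (hc : Cst r0 L) (G : Geo E r0 L) (a : V) :
    HS G.D univ (fun y => eD G.D y a) := by
  refine ⟨?_, fun y _ => eD_nonneg _ _ _, ?_⟩
  · have h1 : Continuous fun y : E => eD G.D y a :=
      (continuous_eD hc G).comp (continuous_id.prodMk continuous_const)
    exact h1.continuousOn
  intro y _ hpos
  obtain ⟨c, hc0, C, hC0, hNF⟩ := normal_form.{u} hc
  obtain ⟨k, lam, P, hlam, hk, hcjP, hP, hqP, hFB, hvis⟩ := hNF E G y a hpos
  have hlam0 : lam ≠ 0 := by
    rintro rfl
    rw [norm_zero] at hlam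
    have : (0 : ℝ) ^ 2 = 0 := by norm_num
    rw [this] at hlam
    exact hpos.ne hlam
  have hc'0 : 0 < min c (1 / 2) := lt_min hc0 (by norm_num)
  have hc'1 : min c (1 / 2) ≤ 1 / 2 := min_le_right _ _
  obtain ⟨r, hr0, hr1, -⟩ := y4_small hP hcjP (c := min c (1 / 2) / 8) (by linarith) (by linarith)
  obtain ⟨-, -, -, hr2⟩ := y4_small hP hcjP hc'0 hc'1
  have hFB' : FB G.D y k (min c (1 / 2)) := hFB.mono (min_le_left _ _)
  refine ⟨r, fun X => (P * (1 + X) * nn a).trace / (P * (1 + X)).trace, hr0, ?_, ?_, ?_⟩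
  · change ‖(P * (1 + 0) * nn a).trace / (P * (1 + 0)).trace‖ = eD G.D y a
    rw [add_zero, mul_one, hP.1, div_one]
    exact hqP
  · intro X hX
    obtain ⟨h1, h2, h3⟩ := hr1 X hX
    obtain ⟨g, hg⟩ := exists_normalised X h2
    obtain ⟨h4, h5⟩ := mvp_eq_ac G.hD hc'1 hFB' h1 hg
    refine ⟨hFB' X (by
      have := nm_nonneg (cj k X)
      linarith), mem_univ _, ?_⟩
    have h6 : vn (lam⁻¹ • ((k : M2) *ᵥ a) - e1) < c := by
      rw [hk, inv_smul_smul₀ hlam0, sub_self, vn_eq_zero.mpr rfl]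
      exact hc0
    have h7 := hvis g a (lt_of_lt_of_le h4 (min_le_left _ _)) h6
    have h8 := SVis.le hc h7
    rw [qP_pmv_scaled P (Complex.exp_ne_zero _) hg a] at h8
    change _ ≤ eD G.D (mvp G.D y X) a
    rw [h5]
    exact h8
  · intro X Z
    have h1 : (fun l : ℂ => (P * (1 + (X + l • Z)) * nn a).trace / (P * (1 + (X + l • Z))).trace) =
        fun l : ℂ => ((P * (1 + X) * nn a).trace + l * (P * Z * nn a).trace) /
          ((P * (1 + X)).trace + l * (P * Z).trace) := by
      funext l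
      rw [y4_aff, y4_aff']
    change DifferentiableOn ℂ (fun l : ℂ => (P * (1 + (X + l • Z)) * nn a).trace /
      (P * (1 + (X + l • Z))).trace) _
    rw [h1]
    apply DifferentiableOn.div
    · fun_prop
    · fun_prop
    · intro l hl
      rw [← y4_aff']
      exact (hr1 _ hl).2.2

end HRK
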