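import Pool.Agent.HRK.Iface
import Pool.Agent.HRK.Y3
import Pool.Agent.HRK.Y4a

/-!
# HRK-Y5 : `e(·, D⁻¹ b)` has holomorphic supports
-/

namespace HRK

open Set Filter Topology Matrix

universe u

variable {E : Type u} [TopologicalSpace E] [T2Space E] {r0 L : ℝ}

theorem y5_cont (G : Geo E r0 L) (b : V) :
    Continuous fun y : E => ((((G.D y)⁻¹ : SL) : M2) *ᵥ b) := by
  have h1 : Continuous fun y : E => (((G.D y)⁻¹ : SL) : M2) := by
    have h0 : Continuous fun y : E => ((G.D y : SL) : M2) :=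
      continuous_subtype_val.comp (continuous_D G.hD)
    have h2 : (fun y : E => (((G.D y)⁻¹ : SL) : M2)) = fun y : E =>
        !![(G.D y : M2) 1 1, -(G.D y : M2) 0 1; -(G.D y : M2) 1 0, (G.D y : M2) 0 0] := by
      funext y
      exact coe_inv_eq (G.D y)
    rw [h2]
    have h00 : ∀ i j : Fin 2, Continuous fun y : E => (G.D y : M2) i j := by
      intro i j
      exact (continuous_apply j).comp ((continuous_apply i).comp h0)
    refine continuous_pi ?_
    intro i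
    refine continuous_pi ?_
    intro j
    fin_cases i <;> fin_cases j
    · exact h00 1 1
    · exact (h00 0 1).neg
    · exact (h00 1 0).neg
    · exact h00 0 0
  exact Continuous.matrix_mulVec h1 continuous_const

theorem y5_alg1 (P A : M2) (ψ : V) : (P * A * nn (A.adjugate *ᵥ ψ)).trace =
    (P 0 0 * A 0 0 + P 0 1 * A 1 0) *
      (-((A 1 1 * ψ 0 - A 0 1 * ψ 1) * (A 0 0 * ψ 1 - A 1 0 * ψ 0))) +
    (P 0 0 * A 0 1 + P 0 1 * A 1 1) * (-((A 0 0 * ψ 1 - A 1 0 * ψ 0) ^ 2)) +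
    ((P 1 0 * A 0 0 + P 1 1 * A 1 0) * (A 1 1 * ψ 0 - A 0 1 * ψ 1) ^ 2 +
    (P 1 0 * A 0 1 + P 1 1 * A 1 1) *
      ((A 1 1 * ψ 0 - A 0 1 * ψ 1) * (A 0 0 * ψ 1 - A 1 0 * ψ 0))) := by
  simp only [Matrix.trace_fin_two, Matrix.mul_apply, Fin.sum_univ_two, nn,
    Matrix.adjugate_fin_two, Matrix.mulVec, dotProduct, Matrix.of_apply, Matrix.cons_val',
    Matrix.cons_val_zero, Matrix.cons_val_one, Matrix.cons_val_fin_one]
  ring

theorem y5_alg2 (P A : M2) : (P * A).trace * A.det =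
    ((P 0 0 * A 0 0 + P 0 1 * A 1 0) + (P 1 0 * A 0 1 + P 1 1 * A 1 1)) *
      (A 0 0 * A 1 1 - A 0 1 * A 1 0) := by
  rw [Matrix.trace_fin_two, Matrix.det_fin_two]
  simp only [Matrix.mul_apply, Fin.sum_univ_two]

theorem y5_poly2 {a b c d : ℂ → ℂ} (ha : Differentiable ℂ a) (hb : Differentiable ℂ b)
    (hc : Differentiable ℂ c) (hd : Differentiable ℂ d) (p q r s : ℂ) :
    Differentiable ℂ fun l => ((p * a l + q * c l) + (r * b l + s * d l)) *
      (a l * d l - b l * c l) :=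
  (((ha.const_mul p).add (hc.const_mul q)).add ((hb.const_mul r).add (hd.const_mul s))).mul
    ((ha.mul hd).sub (hb.mul hc))

theorem y5_poly1 {a b c d : ℂ → ℂ} (ha : Differentiable ℂ a) (hb : Differentiable ℂ b)
    (hc : Differentiable ℂ c) (hd : Differentiable ℂ d) (p q r s x y : ℂ) :
    Differentiable ℂ fun l =>
      (p * a l + q * c l) * (-((d l * x - b l * y) * (a l * y - c l * x))) +
      (p * b l + q * d l) * (-((a l * y - c l * x) ^ 2)) +
      ((r * a l + s * c l) * (d l * x - b l * y) ^ 2 +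
      (r * b l + s * d l) * ((d l * x - b l * y) * (a l * y - c l * x))) := by
  have h1 : Differentiable ℂ fun l => d l * x - b l * y := (hd.mul_const x).sub (hb.mul_const y)
  have h2 : Differentiable ℂ fun l => a l * y - c l * x := (ha.mul_const y).sub (hc.mul_const x)
  have h3 : Differentiable ℂ fun l => p * a l + q * c l := (ha.const_mul p).add (hc.const_mul q)
  have h4 : Differentiable ℂ fun l => p * b l + q * d l := (hb.const_mul p).add (hd.const_mul q)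
  have h5 : Differentiable ℂ fun l => r * a l + s * c l := (ha.const_mul r).add (hc.const_mul s)
  have h6 : Differentiable ℂ fun l => r * b l + s * d l := (hb.const_mul r).add (hd.const_mul s)
  exact ((h3.mul (h1.mul h2).neg).add (h4.mul (h2.pow 2).neg)).add
    ((h5.mul (h1.pow 2)).add (h6.mul (h1.mul h2)))

theorem y5_diff (P X Z : M2) (ψ : V) (S : Set ℂ)
    (h : ∀ l ∈ S, (P * (1 + (X + l • Z))).trace * (1 + (X + l • Z)).det ≠ 0) :
    DifferentiableOn ℂ (fun l : ℂ =>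
      (P * (1 + (X + l • Z)) * nn ((1 + (X + l • Z)).adjugate *ᵥ ψ)).trace /
        ((P * (1 + (X + l • Z))).trace * (1 + (X + l • Z)).det)) S := by
  have e : ∀ i j : Fin 2, Differentiable ℂ fun l : ℂ => (1 + (X + l • Z)) i j := by
    intro i j
    simp only [Matrix.add_apply, Matrix.smul_apply, smul_eq_mul]
    fun_prop
  have hnum : Differentiable ℂ fun l : ℂ =>
      (P * (1 + (X + l • Z)) * nn ((1 + (X + l • Z)).adjugate *ᵥ ψ)).trace := by
    have h := y5_poly1 (e 0 0) (e 0 1) (e 1 0) (e 1 1) (P 0 0) (P 0 1) (P 1 0) (P 1 1) (ψ 0) (ψ 1)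
    rwa [← funext (fun l : ℂ => y5_alg1 P (1 + (X + l • Z)) ψ)] at h
  have hden : Differentiable ℂ fun l : ℂ =>
      (P * (1 + (X + l • Z))).trace * (1 + (X + l • Z)).det := by
    have h := y5_poly2 (e 0 0) (e 0 1) (e 1 0) (e 1 1) (P 0 0) (P 0 1) (P 1 0) (P 1 1)
    rwa [← funext (fun l : ℂ => y5_alg2 P (1 + (X + l • Z)))] at h
  exact hnum.differentiableOn.div hden.differentiableOn h

theorem y5_vec {k g : SL} {lam : ℂ} (hlam : lam ≠ 0) {ψ : V} (hk : (k : M2) *ᵥ ψ = lam • e1) :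
    lam⁻¹ • ((k : M2) *ᵥ (((g⁻¹ : SL) : M2) *ᵥ ψ)) - e1 =
      cj k (((g⁻¹ : SL) : M2) - 1) *ᵥ e1 := by
  have h1 : ψ = lam • (((k⁻¹ : SL) : M2) *ᵥ e1) := by
    have h2 : ((k⁻¹ : SL) : M2) *ᵥ ((k : M2) *ᵥ ψ) = ψ := by
      rw [Matrix.mulVec_mulVec, coe_inv_mul, Matrix.one_mulVec]
    rw [← h2, hk, Matrix.mulVec_smul]
  have h3 : cj k (((g⁻¹ : SL) : M2) - 1) = (k : M2) * ((g⁻¹ : SL) : M2) * ((k⁻¹ : SL) : M2) - 1 := by
    rw [cj_sub, cj_one]
    rfl
  rw [h3, Matrix.sub_mulVec, Matrix.one_mulVec]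
  congr 1
  rw [h1, Matrix.mulVec_smul, Matrix.mulVec_smul, smul_smul, inv_mul_cancel₀ hlam, one_smul,
    Matrix.mulVec_mulVec, Matrix.mulVec_mulVec]

theorem y5_vn_e1 : vn e1 = 1 := by
  have : vn e1 ^ 2 = 1 := by
    rw [vn_sq, nsq_eq]
    simp [e1]
  have h0 := vn_nonneg e1
  nlinarith [h0, this, sq_nonneg (vn e1 - 1)]

/-- `e(·, D⁻¹ b)` has holomorphic supports.
Proof. Continuity: `continuous_eD`, `continuous_D`. Let `ψ₀ = (D y)⁻¹ b`, `e(y,ψ₀) > 0`.
`normal_form` at `(y,ψ₀)`. `F X = (P * (1+X) * nn (adj(1+X) ψ₀)).trace / ((P*(1+X)).trace * det(1+X))`.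
For `nm X < r` and `g` as in `HS_eD`: `D (ac y g) = D y * g` (`D_ac`), so
`(D (ac y g))⁻¹ b = g⁻¹ ψ₀`; visible with `ψ' = g⁻¹ ψ₀`:
`lam⁻¹ • (k g⁻¹ ψ₀) - e1 = (k g⁻¹ k⁻¹ - 1) e1`, norm `≤ nm (cj k (g⁻¹ - 1)) = nm (cj k (g-1)) < c`
(`nm_cj_inv_sub_one`, `vn_mulVec_le`, `vn e1 = 1`). `SVis.le` and `qP_pmv_scaled'`. Polynomials of
degree `≤ 3` in `l` over a non vanishing denominator are holomorphic. -/
theorem HS_eD_b (hc : Cst r0 L) (G : Geo E r0 L) (b : V) :
    HS G.D univ (fun y => eD G.D y ((((G.D y)⁻¹ : SL) : M2) *ᵥ b)) := by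
  refine ⟨?_, ?_, ?_⟩
  · have h1 := continuous_eD hc G
    have h2 := y5_cont G b
    exact (h1.comp (continuous_id.prodMk h2)).continuousOn
  · intro y _
    exact eD_nonneg _ _ _
  · intro y _ hpos
    obtain ⟨c, hc0, C, hC0, hNF⟩ := normal_form hc
    obtain ⟨k, lam, P, hlam, hkψ, hcjP, hPl, hqP, hFB, hvis⟩ :=
      hNF E G y ((((G.D y)⁻¹ : SL) : M2) *ᵥ b) hpos
    have hlam0 : lam ≠ 0 := by
      rintro rfl
      rw [norm_zero] at hlam
      have h3 : (0:ℝ) ^ 2 = 0 := by norm_num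
      rw [h3] at hlam
      exact absurd hlam.symm (ne_of_gt hpos)
    have hc'0 : 0 < min c (1 / 2) := lt_min hc0 (by norm_num)
    have hc'1 : min c (1 / 2) ≤ 1 / 2 := min_le_right _ _
    obtain ⟨r, hr0, hr1, -⟩ := y4_small hPl hcjP (c := min c (1 / 2) / 8) (by positivity)
      (by linarith)
    have hF' : FB G.D y k (min c (1 / 2)) := FB.mono hFB (min_le_left _ _)
    refine ⟨r, fun X => (P * (1 + X) *
        nn ((1 + X).adjugate *ᵥ ((((G.D y)⁻¹ : SL) : M2) *ᵥ b))).trace /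
          ((P * (1 + X)).trace * (1 + X).det), hr0, ?_, ?_, ?_⟩
    · have h4 : (1 + (0 : M2)) = 1 := add_zero _
      show ‖(P * (1 + (0 : M2)) *
        nn ((1 + (0 : M2)).adjugate *ᵥ ((((G.D y)⁻¹ : SL) : M2) *ᵥ b))).trace /
          ((P * (1 + (0 : M2))).trace * (1 + (0 : M2)).det)‖ = _
      rw [h4, mul_one, Matrix.adjugate_one, Matrix.one_mulVec, hPl.1, Matrix.det_one, mul_one,
        div_one]
      exact hqP
    · intro X hX
      obtain ⟨hX1, hX2, hX3⟩ := hr1 X hX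
      obtain ⟨g, hg⟩ := exists_normalised X hX2
      obtain ⟨hg1, hmv⟩ := mvp_eq_ac G.hD hc'1 hF' hX1 hg
      refine ⟨hF' X (by linarith), mem_univ _, ?_⟩
      have hDg : G.D (ac G.D y g) = G.D y * g := D_ac G.hD hc'1 hF' hg1
      have he : ((((G.D (ac G.D y g))⁻¹ : SL) : M2) *ᵥ b) =
          ((g⁻¹ : SL) : M2) *ᵥ ((((G.D y)⁻¹ : SL) : M2) *ᵥ b) := by
        rw [hDg, _root_.mul_inv_rev, Matrix.SpecialLinearGroup.coe_mul, Matrix.mulVec_mulVec]
      have hv : vn (lam⁻¹ • ((k : M2) *ᵥ (((g⁻¹ : SL) : M2) *ᵥ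
          ((((G.D y)⁻¹ : SL) : M2) *ᵥ b))) - e1) < c := by
        rw [y5_vec hlam0 hkψ]
        refine lt_of_le_of_lt (vn_mulVec_le _ _) ?_
        rw [y5_vn_e1, mul_one, nm_cj_inv_sub_one]
        exact lt_of_lt_of_le hg1 (min_le_left _ _)
      have hS := hvis g _ (lt_of_lt_of_le hg1 (min_le_left _ _)) hv
      have htr : (P * (g : M2)).trace ≠ 0 := by
        rw [hg, Matrix.mul_smul, Matrix.trace_smul, smul_eq_mul]
        exact mul_ne_zero (Complex.exp_ne_zero _) hX3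
      have hle := SVis.le hc hS
      rw [qP_pmv_scaled' P (Complex.exp_ne_zero _) hg] at hle
      show _ ≤ eD G.D (mvp G.D y X) ((((G.D (mvp G.D y X))⁻¹ : SL) : M2) *ᵥ b)
      rw [hmv, he]
      exact hle
    · intro X Z
      refine y5_diff P X Z _ _ ?_
      intro l hl
      obtain ⟨-, hX2, hX3⟩ := hr1 _ hl
      exact mul_ne_zero hX3 hX2

end HRK
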