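import Pool.Agent.HRK.Y2b
import Pool.Agent.HRK.Y4
import Pool.Agent.HRK.Y5

/-!
# HRK-Y6 : (8.1)
-/

namespace HRK

open Set Filter Topology Matrix

universe u

variable {E : Type u} [TopologicalSpace E] [T2Space E] {r0 L : ℝ}

/-- (8.1) Proof. `HS.eq_zero`, `HS_eD`. -/
theorem eD_zero_of_open [ConnectedSpace E] (hc : Cst r0 L) (G : Geo E r0 L) {a : V} {W : Set E}
    (hW : IsOpen W) (hWn : W.Nonempty) (h : ∀ y ∈ W, eD G.D y a = 0) : ∀ y, eD G.D y a = 0 := by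
  exact HS.eq_zero G.hD (HS_eD hc G a) hW hWn h

/-- (8.1) Proof. `HS.eq_zero`, `HS_eD_b`. -/
theorem eD_zero_of_open_b [ConnectedSpace E] (hc : Cst r0 L) (G : Geo E r0 L) {b : V} {W : Set E}
    (hW : IsOpen W) (hWn : W.Nonempty)
    (h : ∀ y ∈ W, eD G.D y ((((G.D y)⁻¹ : SL) : M2) *ᵥ b) = 0) :
    ∀ y, eD G.D y ((((G.D y)⁻¹ : SL) : M2) *ᵥ b) = 0 := by
  exact HS.eq_zero G.hD (HS_eD_b hc G b) hW hWn h

end HRK
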