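import Pool.Agent.HRK.S1b
import Pool.Agent.HRK.S4
import Pool.Agent.HRK.S5b
import Pool.Agent.HRK.S9
import Pool.Agent.HRK.S9b
import Pool.Agent.HRK.Y6
import Pool.Agent.HRK.Q1
import Pool.Agent.HRK.Q2
import Pool.Agent.HRK.Q3
import Pool.Agent.HRK.Q4

/-!
# HRK-QI : imports for the files Q6 - Q17

Definitions used: `Sig`, `Ct`, `Om0` (S0), `EVis`, `FB` (Defs2), `BIp` (Q6), `Uni`, `LR` (Q8),
`Tr` (Q9), `LF` (Q12). Facts of S1 - S9b, Y6 (stubs, cite them freely): see the list in S0 - S9b.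
-/
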