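import Pool.Agent.HRK.Iface

/-!
# HRK-S0 : contact planes `Ct`, directions `Sig` of the set `Σ(y)`, the open set `Om0`

Definitions for sections 8 - 11.
-/

namespace HRK

open Set Filter Topology Matrix

universe u

variable {E : Type u} [TopologicalSpace E] {r0 L : ℝ}

/-- `P` is a contact plane at `(y,k)`: `m(y,k) = 1/2` (that is `v(y,k) = 0`) and `P` is exactly
visible along its circle. -/
def Ct (G : Geo E r0 L) (c C : ℝ) (y : E) (k : SL) (P : M2) : Prop :=
  mD G.D y k = 1 / 2 ∧ EVis G y k P c C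

/-- `a` spans a direction of `Σ(y)`. Equivalently (`Sig_frame`) `m(y,·)` is bounded on the ray of
frames `dg (-s) * k`, `s ≥ 0`, `k a ∥ e₁`. -/
def Sig (D : E → SL) (y : E) (a : V) : Prop :=
  a ≠ 0 ∧ ∃ C : ℝ, ∀ ψ : V, eD D y ψ ≤ C * ‖om a ψ‖ * vn ψ

/-- the set `Ω₀` of the points with `Σ(y) = ∅`. -/
def Om0 (D : E → SL) : Set E := {y | ∀ a, ¬ Sig D y a}

/-- the elements `w = [[0,1],[-1,0]]` exchanging the two coordinate axes. -/
def w0 : SL := ⟨!![0, 1; -1, 0], by rw [Matrix.det_fin_two_of]; ring⟩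

end HRK
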