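import Pool.Agent.HRK.S0

/-!
# HRK-S1 : contact planes, first properties
-/

namespace HRK

open Set Filter Topology Matrix

universe u

variable {E : Type u} [TopologicalSpace E] [T2Space E] {r0 L c C : ℝ}

omit [T2Space E] in
theorem Ct.isPl {G : Geo E r0 L} {y : E} {k : SL} {P : M2} (h : Ct G c C y k P) : IsPl P :=
  h.2.1

omit [T2Space E] in
theorem Ct.herm {G : Geo E r0 L} {y : E} {k : SL} {P : M2} (h : Ct G c C y k P) :
    (cj k P).IsHermitian :=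
  h.2.2.1

omit [T2Space E] in
/-- `m = 1/2` gives `v = 0`. Proof. `vD = (m - 1/(4m))^2`. -/
theorem vD_of_half {D : E → SL} {y : E} {k : SL} (h : mD D y k = 1 / 2) : vD D y k = 0 := by
  unfold vD
  rw [h]
  norm_num

/-- The contact planes only depend on `k` up to a unitary on the left.
Proof. `mD_unitary`. `cj (u * k) P = cj u (cj k P)` (`cj_cj`) is Hermitian because
`cj u X = u X u^*` for unitary `u` (`u⁻¹ = u^*`, from `IsU`: `uᴴ * u = 1`). Visibility: let `ψ` be a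
unit vector with `‖qP (cj (u*k) P) ψ‖ = 1/2`. Put `φ = u⁻¹ *ᵥ ψ`: unit vector
(`nsq_mulVec_unitary`), `qP (cj k P) φ = qP (cj u (cj k P)) (u *ᵥ φ)` (`qP_cj`). For `g`, `ψ'` with
`nm (cj (u*k) (g-1)) < c` and `vn (ψ' - ψ) < c`: `nm (cj k (g-1)) < c` (`nm_cj_unitary`),
`vn (u⁻¹ ψ' - φ) = vn (u⁻¹ (ψ' - ψ)) < c`, and `(u*k)⁻¹ *ᵥ ψ' = k⁻¹ *ᵥ (u⁻¹ *ᵥ ψ')`. -/
theorem Ct.unitary (hc : Cst r0 L) {G : Geo E r0 L} {y : E} {k : SL} {P : M2}
    (h : Ct G c C y k P) {u : SL} (hu : IsU u) : Ct G c C y (u * k) P := by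
  obtain ⟨h1, h2, h3, h4⟩ := h
  have hinv : ((u⁻¹ : SL) : M2) = (u : M2)ᴴ := by
    have e1 : (u : M2)ᴴ * (u : M2) = 1 := hu
    calc ((u⁻¹ : SL) : M2) = ((u : M2)ᴴ * (u : M2)) * ((u⁻¹ : SL) : M2) := by
          rw [e1, Matrix.one_mul]
      _ = (u : M2)ᴴ * ((u : M2) * ((u⁻¹ : SL) : M2)) := by rw [Matrix.mul_assoc]
      _ = (u : M2)ᴴ := by rw [coe_mul_inv, Matrix.mul_one]
  have hmv : ∀ ψ : V, ((((u * k)⁻¹ : SL) : M2)) *ᵥ ψ =
      ((k⁻¹ : SL) : M2) *ᵥ (((u⁻¹ : SL) : M2) *ᵥ ψ) := by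
    intro ψ
    rw [_root_.mul_inv_rev, Matrix.mulVec_mulVec, Matrix.SpecialLinearGroup.coe_mul]
  refine ⟨?_, h2, ?_, ?_⟩
  · rw [mD_unitary hc G y k u hu]; exact h1
  · rw [← cj_cj]
    unfold cj
    rw [hinv]
    exact Matrix.isHermitian_mul_mul_conjTranspose (u : M2) h3
  · intro ψ hψ hq g ψ' hg hψ'
    have e1 : nsq (((u⁻¹ : SL) : M2) *ᵥ ψ) = 1 := by
      rw [nsq_mulVec_unitary (IsU_inv hu)]; exact hψ
    have e2 : ‖qP (cj k P) (((u⁻¹ : SL) : M2) *ᵥ ψ)‖ = 1 / 2 := by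
      rw [qP_cj', cj_cj]; exact hq
    have e3 : nm (cj k ((g : M2) - 1)) < c := by
      rw [← cj_cj, nm_cj_unitary hu] at hg
      exact hg
    have e4 : vn (((u⁻¹ : SL) : M2) *ᵥ ψ' - ((u⁻¹ : SL) : M2) *ᵥ ψ) < c := by
      rw [← Matrix.mulVec_sub]
      unfold vn at hψ' ⊢
      rw [nsq_mulVec_unitary (IsU_inv hu)]
      exact hψ'
    rw [hmv ψ']
    exact h4 _ e1 e2 g _ e3 e4

/-- Proof. `VisPkg.exists_contact`. -/
theorem Ct_exists (hV : VisPkg.{u} r0 L c C) (G : Geo E r0 L) {y : E} {k : SL}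
    (h : mD G.D y k = 1 / 2) : ∃ P, Ct G c C y k P := by
  obtain ⟨P, hP⟩ := hV.exists_contact E G y k h
  exact ⟨P, h, hP⟩

/-- Lower bound. Proof. `VisPkg.lower`. -/
theorem Ct_lower (hV : VisPkg.{u} r0 L c C) : ∃ c4 > 0, ∀ (E : Type u) [TopologicalSpace E]
    [T2Space E] (G : Geo E r0 L) (y : E) (k : SL) (P : M2), Ct G c C y k P → ∀ g k1 : SL,
      nm (cj k ((g : M2) - 1)) < c4 → nm ((k1 : M2) - 1) < c4 →
      fro (cj (k1 * k) (pmv P g)) - 1 ≤ vD G.D (ac G.D y g) (k1 * k) := by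
  obtain ⟨c4, h4, hh⟩ := hV.lower
  exact ⟨c4, h4, fun E _ _ G y k P hP g k1 hg hk => hh E G y k P hP.2 g k1 hg hk⟩

/-- Transport. Proof. `EVis.propagate`. -/
theorem Ct_transport (hc : Cst r0 L) (hV : VisPkg.{u} r0 L c C) : ∃ c4 > 0, ∀ (E : Type u)
    [TopologicalSpace E] [T2Space E] (G : Geo E r0 L) (y : E) (k : SL) (P : M2),
    Ct G c C y k P → ∀ g k1 : SL,
      nm (cj k ((g : M2) - 1)) < c4 → nm ((k1 : M2) - 1) < c4 →
      mD G.D (ac G.D y g) (k1 * k) = 1 / 2 → Ct G c C (ac G.D y g) (k1 * k) (pmv P g) := by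
  obtain ⟨c4, h4, hh⟩ := EVis.propagate hc hV
  exact ⟨c4, h4, fun E _ _ G y k P hP g k1 hg hk hm =>
    ⟨hm, hh E G y k P hP.2 g k1 hg hk hm⟩⟩

end HRK
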