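import Pool.Agent.HRK.S1

/-!
# HRK-S1b : equivariance of `eD`, `mD`, `Sig`, `Ct` under the group

In this file `hJ` is the equivariance of the Hermitian structure.
-/

namespace HRK

open Set Filter Topology Matrix

universe u

variable {E : Type u} [TopologicalSpace E] [T2Space E] {r0 L c C : ℝ}
  {Γ : Type*} [Group Γ] [MulAction Γ E]

omit [T2Space E] in
theorem s1b_ac_not {D : E → SL} {y : E} {g : SL} (h : ((g : M2) - 1) ∉ St D y) :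
    ac D y g = y := by
  unfold ac mvp exh ext
  have h' : ¬ ∃ c, IsLift (Dh D) (y, 0) ((D y : M2) * ((g : M2) - 1)) c := h
  rw [dif_neg h']

theorem s1b_cj (B g : SL) : cj B ((g : M2) - 1) = ((B * g * B⁻¹ : SL) : M2) - 1 := by
  rw [cj_sub, cj_one, cj_coe]

omit [T2Space E] in
theorem s1b_equiv_inv (S : Dev Γ E) (γ : Γ) (y : E) :
    S.D (γ⁻¹ • y) = (S.A γ)⁻¹ * S.D y * ((S.B γ)⁻¹)⁻¹ := by
  have h := S.equiv γ (γ⁻¹ • y)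
  rw [smul_inv_smul] at h
  rw [h]
  group

/-- Proof. `S(γ y) = B S(y) B⁻¹` and `ac` is equivariant for ALL `g` (with `B = S.B γ`):
if `g - 1 ∈ St D y` this is `ac_equiv` (B6) for `T = (γ • ·)`. If `g - 1 ∉ St D y` then
`B g B⁻¹ - 1 = cj B (g - 1) ∉ St D (γ y)` (apply `mvp_equiv` to `γ⁻¹`:
`D (γ⁻¹ • x) = A⁻¹ D x B` with the SAME `A, B`, because `D x = D (γ • γ⁻¹ x) = A D(γ⁻¹ x) B⁻¹`), and
by definition of `ext` both sides are the base point: `ac D (γ y) _ = γ y`, `ac D y g = y`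
(`ext` is `x` when there is no lift, `dif_neg`). -/
theorem ac_smul (S : Dev Γ E) (hD : IsLocalHomeomorph (Dh S.D)) (γ : Γ) (y : E) (g : SL) :
    ((((g : M2) - 1) ∈ St S.D y) ↔
      ((((S.B γ * g * (S.B γ)⁻¹ : SL) : M2) - 1) ∈ St S.D (γ • y))) ∧
      ac S.D (γ • y) (S.B γ * g * (S.B γ)⁻¹) = γ • ac S.D y g := by
  have hTD : ∀ y, S.D (γ • y) = S.A γ * S.D y * (S.B γ)⁻¹ := S.equiv γ
  have hiff : (((g : M2) - 1) ∈ St S.D y) ↔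
      ((((S.B γ * g * (S.B γ)⁻¹ : SL) : M2) - 1) ∈ St S.D (γ • y)) := by
    constructor
    · intro h
      have h1 := (mvp_equiv hD (S.cont γ) hTD h).1
      rwa [s1b_cj] at h1
    · intro h
      have h1 := (mvp_equiv hD (S.cont γ⁻¹) (s1b_equiv_inv S γ) h).1
      rw [inv_smul_smul, ← s1b_cj, cj_cj, inv_mul_cancel, one_cj] at h1
      exact h1
  refine ⟨hiff, ?_⟩
  by_cases h : ((g : M2) - 1) ∈ St S.D y
  · exact ac_equiv hD (S.cont γ) hTD h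
  · rw [s1b_ac_not h, s1b_ac_not (fun h' => h (hiff.2 h'))]

/-- Proof. `(k B⁻¹)⁻¹ ψ = B (k⁻¹ ψ)` and `eD_equiv`; the two sets in the definition of `mD` are
equal. -/
theorem mD_smul (S : Dev Γ E) (hD : IsLocalHomeomorph (Dh S.D)) (γ : Γ) (y : E) (k : SL) :
    mD S.D (γ • y) (k * (S.B γ)⁻¹) = mD S.D y k := by
  unfold mD
  have h : (fun ψ : V => eD S.D (γ • y) ((((k * (S.B γ)⁻¹)⁻¹ : SL) : M2) *ᵥ ψ)) =
      fun ψ : V => eD S.D y (((k⁻¹ : SL) : M2) *ᵥ ψ) := by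
    funext ψ
    rw [_root_.mul_inv_rev, inv_inv, Matrix.SpecialLinearGroup.coe_mul, ← Matrix.mulVec_mulVec]
    exact eD_equiv S hD γ y _
  rw [h]

/-- Proof. `eD_equiv`: `eD (γ y) ψ = eD y (B⁻¹ ψ) ≤ C ‖om a (B⁻¹ ψ)‖ vn (B⁻¹ ψ)` and
`om a (B⁻¹ ψ) = om (B a) ψ` (`om_mulVec`), `vn (B⁻¹ ψ) ≤ nm B⁻¹ * vn ψ`. `B a ≠ 0`. -/
theorem Sig.smul (S : Dev Γ E) (hD : IsLocalHomeomorph (Dh S.D)) (γ : Γ) {y : E} {a : V}
    (h : Sig S.D y a) : Sig S.D (γ • y) ((S.B γ : M2) *ᵥ a) := by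
  obtain ⟨ha, C, hC⟩ := h
  have hBB : ∀ v : V, (S.B γ : M2) *ᵥ ((((S.B γ)⁻¹ : SL) : M2) *ᵥ v) = v := fun v => by
    rw [Matrix.mulVec_mulVec, coe_mul_inv, Matrix.one_mulVec]
  have hBB' : ∀ v : V, (((S.B γ)⁻¹ : SL) : M2) *ᵥ ((S.B γ : M2) *ᵥ v) = v := fun v => by
    rw [Matrix.mulVec_mulVec, coe_inv_mul, Matrix.one_mulVec]
  refine ⟨fun h0 => ha ?_, |C| * nm (((S.B γ)⁻¹ : SL) : M2), fun ψ => ?_⟩
  · rw [← hBB' a, h0, Matrix.mulVec_zero]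
  · have h1 : eD S.D (γ • y) ψ = eD S.D y ((((S.B γ)⁻¹ : SL) : M2) *ᵥ ψ) := by
      rw [← eD_equiv S hD γ y, hBB]
    have h2 : om a ((((S.B γ)⁻¹ : SL) : M2) *ᵥ ψ) = om ((S.B γ : M2) *ᵥ a) ψ := by
      rw [← om_mulVec (S.B γ), hBB]
    have h3 := hC ((((S.B γ)⁻¹ : SL) : M2) *ᵥ ψ)
    rw [h2] at h3
    rw [h1]
    refine h3.trans ?_
    have h4 := vn_mulVec_le (((S.B γ)⁻¹ : SL) : M2) ψ
    have h5 : C * ‖om ((S.B γ : M2) *ᵥ a) ψ‖ ≤ |C| * ‖om ((S.B γ : M2) *ᵥ a) ψ‖ :=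
      mul_le_mul_of_nonneg_right (le_abs_self C) (norm_nonneg _)
    have h6 : 0 ≤ |C| * ‖om ((S.B γ : M2) *ᵥ a) ψ‖ := mul_nonneg (abs_nonneg _) (norm_nonneg _)
    calc C * ‖om ((S.B γ : M2) *ᵥ a) ψ‖ * vn ((((S.B γ)⁻¹ : SL) : M2) *ᵥ ψ)
        ≤ |C| * ‖om ((S.B γ : M2) *ᵥ a) ψ‖ * (nm (((S.B γ)⁻¹ : SL) : M2) * vn ψ) :=
          mul_le_mul h5 h4 (vn_nonneg _) h6
      _ = |C| * nm (((S.B γ)⁻¹ : SL) : M2) * ‖om ((S.B γ : M2) *ᵥ a) ψ‖ * vn ψ := by ring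

theorem s1b_mulVec (B : SL) (Q : M2) (φ : V) :
    cj B Q *ᵥ ((B : M2) *ᵥ φ) = (B : M2) *ᵥ (Q *ᵥ φ) := by
  unfold cj
  rw [Matrix.mulVec_mulVec, Matrix.mulVec_mulVec, Matrix.mul_assoc, coe_inv_mul, Matrix.mul_one]

theorem s1b_SVis (S : Dev Γ E) {G : Geo E r0 L} (hG : G.D = S.D)
    (hJ : ∀ (γ : Γ) (y : E), G.J (γ • y) = fcj (S.B γ) (G.J y)) (γ : Γ) {y : E} {φ : V} {Q : M2}
    (h : SVis G y φ Q C) :
    SVis G (γ • y) ((S.B γ : M2) *ᵥ φ) (cj (S.B γ) Q) C := by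
  have hD : IsLocalHomeomorph (Dh S.D) := hG ▸ G.hD
  have hTD : ∀ y, S.D (γ • y) = S.A γ * S.D y * (S.B γ)⁻¹ := S.equiv γ
  obtain ⟨h0, h1⟩ := h
  refine ⟨?_, fun s hs => ?_⟩
  · rw [qP_cj]
    exact h0
  · obtain ⟨h2, h3⟩ := h1 s hs
    rw [hG] at h2 h3
    rw [hG, qP_cj]
    constructor
    · rw [← cj_nn, ← cj_smul]
      exact (mvp_equiv hD (S.cont γ) hTD h2).1
    · rw [← uni_conj, (ac_smul S hD γ y _).2, hJ, s1b_mulVec, hf_fcj, hf_fcj]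
      exact h3

/-- Proof. Let `G.D = S.D`, `B = S.B γ`. `mD_smul` for the first component. `IsPl.conj`.
`cj (k B⁻¹) (cj B P) = cj k P`. Circle: the same set of unit vectors `ψ`. For `g` with
`nm (cj (k B⁻¹) (g - 1)) < c` put `g' = B⁻¹ g B`: `nm (cj k (g' - 1)) < c`, and
`ac D (γ y) g = γ • ac D y g'` (`ac_smul`), `pmv (cj B P) g = cj B (pmv P g')` (`cj_pmv`),
`(k B⁻¹)⁻¹ ψ' = B (k⁻¹ ψ')`. So it remains to see
`SVis G y' φ Q C → SVis G (γ • y') (B φ) (cj B Q) C` (for `y' = ac D y g'`, `Q = pmv P g'`):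
`qP (cj B Q) (B φ) = qP Q φ`; `t • nn (B φ) = cj B (t • nn φ)` (`cj_nn`) is in `St D (γ y')`
(`mvp_equiv`), `ac D (γ y') (uni t (B φ)) = γ • ac D y' (uni t φ)` (`uni_conj`, `ac_smul`),
`G.J (γ • z) = fcj B (G.J z)` by `hJ`, and `hf (fcj B J) (B v) = hf J v` (`hf_fcj`), with
`(cj B Q) (B φ) = B (Q φ)`. -/
theorem Ct.smul (hc : Cst r0 L) (S : Dev Γ E) {G : Geo E r0 L} (hG : G.D = S.D)
    (hJ : ∀ (γ : Γ) (y : E), G.J (γ • y) = fcj (S.B γ) (G.J y)) (γ : Γ) {y : E} {k : SL} {P : M2}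
    (h : Ct G c C y k P) : Ct G c C (γ • y) (k * (S.B γ)⁻¹) (cj (S.B γ) P) := by
  have hD : IsLocalHomeomorph (Dh S.D) := hG ▸ G.hD
  obtain ⟨hm, hpl, hherm, hvis⟩ := h
  have hcj : cj (k * (S.B γ)⁻¹) (cj (S.B γ) P) = cj k P := by
    rw [cj_cj, inv_mul_cancel_right]
  refine ⟨?_, hpl.conj _, ?_, fun ψ hψ hq g ψ' hg hψ' => ?_⟩
  · rw [hG, mD_smul S hD, ← hG]
    exact hm
  · rw [hcj]
    exact hherm
  · rw [hcj] at hq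
    have hg1 : cj (k * (S.B γ)⁻¹) ((g : M2) - 1) =
        cj k ((((S.B γ)⁻¹ * g * ((S.B γ)⁻¹)⁻¹ : SL) : M2) - 1) := by
      rw [← s1b_cj, cj_cj]
    rw [hg1] at hg
    have h1 := hvis ψ hψ hq _ ψ' hg hψ'
    have h2 := s1b_SVis S hG hJ γ h1
    have h3 : S.B γ * ((S.B γ)⁻¹ * g * ((S.B γ)⁻¹)⁻¹) * (S.B γ)⁻¹ = g := by group
    have h4 : ac G.D (γ • y) g = γ • ac G.D y ((S.B γ)⁻¹ * g * ((S.B γ)⁻¹)⁻¹) := by
      rw [hG, ← (ac_smul S hD γ y _).2, h3]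
    have h5 : pmv (cj (S.B γ) P) g = cj (S.B γ) (pmv P ((S.B γ)⁻¹ * g * ((S.B γ)⁻¹)⁻¹)) := by
      rw [cj_pmv, h3]
    have h6 : (((k * (S.B γ)⁻¹)⁻¹ : SL) : M2) *ᵥ ψ' =
        (S.B γ : M2) *ᵥ (((k⁻¹ : SL) : M2) *ᵥ ψ') := by
      rw [_root_.mul_inv_rev, inv_inv, Matrix.SpecialLinearGroup.coe_mul, ← Matrix.mulVec_mulVec]
    rw [h4, h5, h6]
    exact h2

end HRK
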