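import Pool.Agent.HRK.S1

/-!
# HRK-S2 : the functions `mD` and `vD`; the swap `w0`
-/

namespace HRK

open Set Filter Topology Matrix

universe u

variable {E : Type u} [TopologicalSpace E] {r0 L : ℝ}

theorem vD_nonneg (D : E → SL) (y : E) (k : SL) : 0 ≤ vD D y k := by
  unfold vD
  exact sq_nonneg _

/-- Proof. `w0ᴴ * w0 = 1` by entries. -/
theorem IsU_w0 : IsU w0 := by
  unfold IsU w0
  ext i j
  fin_cases i <;> fin_cases j <;>
    simp [Matrix.mul_apply, Fin.sum_univ_two, Matrix.conjTranspose_apply]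

/-- Proof. Entries. -/
theorem w0_mul_dg (s : ℝ) : w0 * dg s = dg (-s) * w0 := by
  apply Subtype.ext
  show (w0 : M2) * (dg s : M2) = (dg (-s) : M2) * (w0 : M2)
  have h2 : -s / 2 = -(s / 2) := by ring
  ext i j
  fin_cases i <;> fin_cases j <;>
    simp [w0, dg, Matrix.mul_apply, Fin.sum_univ_two, h2]

theorem w0_mulVec_e1 : (w0 : M2) *ᵥ e1 = -e2 := by
  ext i
  fin_cases i <;> simp [w0, e1, e2, Matrix.mulVec, dotProduct, Fin.sum_univ_two]

theorem w0_mulVec_e2 : (w0 : M2) *ᵥ e2 = e1 := by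
  ext i
  fin_cases i <;> simp [w0, e1, e2, Matrix.mulVec, dotProduct, Fin.sum_univ_two]

/-- Proof. `(dg s) v = (e^{s/2} v₀, e^{-s/2} v₁)`. -/
theorem nsq_dg_mulVec (s : ℝ) (v : V) :
    nsq ((dg s : M2) *ᵥ v) = Real.exp s * ‖v 0‖ ^ 2 + Real.exp (-s) * ‖v 1‖ ^ 2 := by
  have h0 : ((dg s : M2) *ᵥ v) 0 = ((Real.exp (s / 2) : ℝ) : ℂ) * v 0 := by
    simp [dg, Matrix.mulVec, dotProduct, Fin.sum_univ_two]
  have h1 : ((dg s : M2) *ᵥ v) 1 = ((Real.exp (-(s / 2)) : ℝ) : ℂ) * v 1 := by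
    simp [dg, Matrix.mulVec, dotProduct, Fin.sum_univ_two]
  have e0 : Real.exp (s / 2) * Real.exp (s / 2) = Real.exp s := by
    rw [← Real.exp_add, add_halves]
  have e1 : Real.exp (-(s / 2)) * Real.exp (-(s / 2)) = Real.exp (-s) := by
    rw [← Real.exp_add, ← neg_add, add_halves]
  rw [nsq_eq, h0, h1, Complex.normSq_mul, Complex.normSq_mul, Complex.normSq_ofReal,
    Complex.normSq_ofReal, e0, e1, Complex.normSq_eq_norm_sq, Complex.normSq_eq_norm_sq]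

/-- `m` in the frame `k` bounds `e`. Proof. `eD_le_mD` with `ψ = k φ`. -/
theorem eD_le_mD' [T2Space E] (hc : Cst r0 L) (G : Geo E r0 L) (y : E) (k : SL) (φ : V) :
    eD G.D y φ ≤ mD G.D y k * nsq ((k : M2) *ᵥ φ) := by
  have h := eD_le_mD hc G y k ((k : M2) *ᵥ φ)
  rw [Matrix.mulVec_mulVec, coe_inv_mul, Matrix.one_mulVec] at h
  exact h

/-- Proof. `mD_attained`: bound `eD` at the maximiser. -/
theorem mD_le_of_forall [T2Space E] (hc : Cst r0 L) (G : Geo E r0 L) {y : E} {k : SL} {M : ℝ}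
    (h : ∀ ψ : V, nsq ψ = 1 → eD G.D y (((k⁻¹ : SL) : M2) *ᵥ ψ) ≤ M) : mD G.D y k ≤ M := by
  obtain ⟨ψ, h1, h2⟩ := mD_attained hc G y k
  rw [← h2]
  exact h ψ h1

theorem vD_unitary [T2Space E] (hc : Cst r0 L) (G : Geo E r0 L) (y : E) {u : SL} (hu : IsU u)
    (k : SL) : vD G.D y (u * k) = vD G.D y k := by
  unfold vD
  rw [mD_unitary hc G y k u hu]

/-- Proof. `dg s * (w0 * k) = w0 * (dg (-s) * k)` (`w0_mul_dg`), `vD_unitary`, `IsU_w0`. -/
theorem vD_dg_neg [T2Space E] (hc : Cst r0 L) (G : Geo E r0 L) (y : E) (k : SL) (s : ℝ) :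
    vD G.D y (dg (-s) * k) = vD G.D y (dg s * (w0 * k)) := by
  have h1 : dg s * (w0 * k) = w0 * (dg (-s) * k) := by
    have h2 := w0_mul_dg (-s)
    rw [neg_neg] at h2
    rw [← mul_assoc, ← h2, mul_assoc]
  rw [h1, vD_unitary hc G y IsU_w0]

theorem mD_dg_neg [T2Space E] (hc : Cst r0 L) (G : Geo E r0 L) (y : E) (k : SL) (s : ℝ) :
    mD G.D y (dg (-s) * k) = mD G.D y (dg s * (w0 * k)) := by
  have h1 : dg s * (w0 * k) = w0 * (dg (-s) * k) := by
    have h2 := w0_mul_dg (-s)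
    rw [neg_neg] at h2
    rw [← mul_assoc, ← h2, mul_assoc]
  rw [h1, mD_unitary hc G y _ w0 IsU_w0]

variable [T2Space E] [ConnectedSpace E]

/-- Proof. `m ≥ 1/2` (`half_le_mD`); `(m - 1/(4m))^2 = 0` iff `4 m^2 = 1`. -/
theorem vD_eq_zero_iff (hc : Cst r0 L) (G : Geo E r0 L) (hne : ∃ y ψ, 0 < eD G.D y ψ) (y : E)
    (k : SL) : vD G.D y k = 0 ↔ mD G.D y k = 1 / 2 := by
  have hm := half_le_mD hc G hne y k
  have hm0 : 0 < mD G.D y k := by linarith
  unfold vD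
  constructor
  · intro h
    have h1 : mD G.D y k - 1 / (4 * mD G.D y k) = 0 := pow_eq_zero_iff (two_ne_zero) |>.mp h
    have h2 : mD G.D y k * mD G.D y k = 1 / 4 := by
      field_simp at h1
      linarith
    nlinarith
  · intro h
    rw [h]
    norm_num

/-- Proof. `m - 1/(4m) ≤ C` (square root, `m - 1/(4m) ≥ 0`) and `1/(4m) ≤ 1/2`. -/
theorem mD_le_of_vD (hc : Cst r0 L) (G : Geo E r0 L) (hne : ∃ y ψ, 0 < eD G.D y ψ) {y : E}
    {k : SL} {M : ℝ} (hM : 0 ≤ M) (h : vD G.D y k ≤ M ^ 2) : mD G.D y k ≤ M + 1 / 2 := by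
  have hm := half_le_mD hc G hne y k
  have hm0 : 0 < mD G.D y k := by linarith
  unfold vD at h
  have h1 : mD G.D y k - 1 / (4 * mD G.D y k) ≤ M := abs_le_of_sq_le_sq' h hM |>.2
  have h2 : 1 / (4 * mD G.D y k) ≤ 1 / 2 := by
    apply one_div_le_one_div_of_le
    · norm_num
    · linarith
  linarith

/-- Proof. `0 ≤ m - 1/(4m) ≤ m ≤ M`. -/
theorem vD_le_of_mD (hc : Cst r0 L) (G : Geo E r0 L) (hne : ∃ y ψ, 0 < eD G.D y ψ) {y : E}
    {k : SL} {M : ℝ} (h : mD G.D y k ≤ M) : vD G.D y k ≤ M ^ 2 := by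
  have hm := half_le_mD hc G hne y k
  have hm0 : 0 < mD G.D y k := by linarith
  unfold vD
  have h2 : 1 / (4 * mD G.D y k) ≤ 1 / 2 := by
    apply one_div_le_one_div_of_le
    · norm_num
    · linarith
  have h3 : 0 < 1 / (4 * mD G.D y k) := by positivity
  apply pow_le_pow_left₀
  · linarith
  · linarith

/-- Proof. `continuous_mD`, `m ≥ 1/2` so `1/(4m)` is continuous. -/
theorem continuous_vD (hc : Cst r0 L) (G : Geo E r0 L) (hne : ∃ y ψ, 0 < eD G.D y ψ) :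
    Continuous fun p : E × SL => vD G.D p.1 p.2 := by
  unfold vD
  apply Continuous.pow
  apply (continuous_mD hc G).sub
  apply continuous_const.div (continuous_const.mul (continuous_mD hc G))
  intro p
  have hm := half_le_mD hc G hne p.1 p.2
  have h4 : 0 < 4 * mD G.D p.1 p.2 := by linarith
  exact h4.ne'

/-- Interpolation towards `e₁`. Proof. `vD_interp` for the frame `w0 * k`, `vD_dg_neg`,
`vD_unitary`. -/
theorem vD_interp_neg (hc : Cst r0 L) (G : Geo E r0 L) (hne : ∃ y ψ, 0 < eD G.D y ψ) (y : E)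
    (k : SL) {l s : ℝ} (h0 : 0 ≤ s) (h1 : s ≤ l) :
    vD G.D y (dg (-s) * k) ≤
      vD G.D y k * Real.exp (-s) + vD G.D y (dg (-l) * k) * Real.exp (s - l) := by
  have h2 := vD_interp hc G hne y (w0 * k) h0 h1
  rw [← vD_dg_neg hc G y k s, ← vD_dg_neg hc G y k l, vD_unitary hc G y IsU_w0] at h2
  exact h2

/-- Proof. Convexity (`convex_vD`) on `[0,l]`: a convex function is bounded by the maximum of its
values at the end points of a segment (`ConvexOn.le_max_of_mem_Icc`). -/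
theorem vD_le_max (hc : Cst r0 L) (G : Geo E r0 L) (hne : ∃ y ψ, 0 < eD G.D y ψ) (y : E)
    (k : SL) {l s : ℝ} (h0 : 0 ≤ s) (h1 : s ≤ l) :
    vD G.D y (dg s * k) ≤ max (vD G.D y k) (vD G.D y (dg l * k)) := by
  have hcv := convex_vD hc G hne y k
  have h2 := hcv.le_max_of_mem_Icc (mem_univ (0:ℝ)) (mem_univ l) (⟨h0, h1⟩ : s ∈ Icc 0 l)
  simp only [dg_zero, one_mul] at h2
  exact h2

theorem vD_le_max_neg (hc : Cst r0 L) (G : Geo E r0 L) (hne : ∃ y ψ, 0 < eD G.D y ψ) (y : E)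
    (k : SL) {l s : ℝ} (h0 : 0 ≤ s) (h1 : s ≤ l) :
    vD G.D y (dg (-s) * k) ≤ max (vD G.D y k) (vD G.D y (dg (-l) * k)) := by
  have h2 := vD_le_max hc G hne y (w0 * k) h0 h1
  rw [← vD_dg_neg hc G y k s, ← vD_dg_neg hc G y k l, vD_unitary hc G y IsU_w0] at h2
  exact h2

end HRK
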