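import Pool.Agent.HRK.S2

/-!
# HRK-S3 : the set `Sig`, description by frames
-/

namespace HRK

open Set Filter Topology Matrix

universe u

variable {E : Type u} [TopologicalSpace E] {r0 L : ℝ}

theorem s3_smul_imp (D : E → SL) (y : E) (a : V) {c : ℂ} (hc : c ≠ 0) (h : Sig D y a) :
    Sig D y (c • a) := by
  obtain ⟨ha, C, hC⟩ := h
  refine ⟨smul_ne_zero hc ha, C / ‖c‖, fun ψ => ?_⟩
  rw [om_smul_left, norm_mul]
  have hc' : ‖c‖ ≠ 0 := norm_ne_zero_iff.2 hc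
  calc eD D y ψ ≤ C * ‖om a ψ‖ * vn ψ := hC ψ
    _ = C / ‖c‖ * (‖c‖ * ‖om a ψ‖) * vn ψ := by field_simp

theorem s3_om_frame {a φ x : V} {k : SL} {lam : ℂ} (hk : (k : M2) *ᵥ a = lam • e1)
    (hx : (k : M2) *ᵥ φ = x) : ‖om a φ‖ = ‖lam‖ * ‖x 1‖ := by
  rw [← om_mulVec k a φ, hk, hx, om_smul_left, norm_mul]
  congr 2
  simp [om, e1]

theorem s3_dg_one (s : ℝ) (v : V) :
    ‖((dg s : M2) *ᵥ v) 1‖ = Real.exp (-(s / 2)) * ‖v 1‖ := by
  have h : ((dg s : M2) *ᵥ v) 1 = (Real.exp (-(s / 2)) : ℂ) * v 1 := by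
    simp only [dg, Matrix.mulVec, dotProduct, Fin.sum_univ_two]
    simp
  rw [h, norm_mul, Complex.norm_real, Real.norm_of_nonneg (Real.exp_pos _).le]

theorem s3_nsq (v : V) : nsq v = ‖v 0‖ ^ 2 + ‖v 1‖ ^ 2 := by
  rw [nsq_eq, Complex.normSq_eq_norm_sq, Complex.normSq_eq_norm_sq]

/-- the elementary optimisation over `s`. -/
theorem s3_opt {e C a b v : ℝ} (hC : 0 ≤ C) (ha : 0 ≤ a) (hb : 0 ≤ b) (hav : a ≤ v) (hbv : b ≤ v)
    (h : ∀ s : ℝ, 0 ≤ s → e ≤ C * (Real.exp (-s) * a ^ 2 + Real.exp s * b ^ 2)) :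
    e ≤ 2 * C * b * v := by
  have hv : 0 ≤ v := ha.trans hav
  rcases le_or_gt a b with hab | hab
  · have h0 := h 0 le_rfl
    rw [neg_zero, Real.exp_zero, one_mul, one_mul] at h0
    have h1 : a ^ 2 ≤ b * v := by
      rw [pow_two]
      exact mul_le_mul hab hav ha hb
    have h2 : b ^ 2 ≤ b * v := by
      rw [pow_two]
      exact mul_le_mul_of_nonneg_left hbv hb
    calc e ≤ C * (a ^ 2 + b ^ 2) := h0
      _ ≤ C * (b * v + b * v) := mul_le_mul_of_nonneg_left (add_le_add h1 h2) hC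
      _ = 2 * C * b * v := by ring
  · rcases hb.eq_or_lt with hb0 | hb0
    · subst hb0
      have ht : Tendsto (fun s : ℝ => C * (Real.exp (-s) * a ^ 2 + Real.exp s * (0:ℝ) ^ 2)) atTop
          (𝓝 (C * (0 * a ^ 2 + 0))) := by
        have h1 : Tendsto (fun s : ℝ => Real.exp (-s)) atTop (𝓝 0) := Real.tendsto_exp_neg_atTop_nhds_zero
        have h2 : (fun s : ℝ => C * (Real.exp (-s) * a ^ 2 + Real.exp s * (0:ℝ) ^ 2)) =
            fun s : ℝ => C * (Real.exp (-s) * a ^ 2 + 0) := by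
          funext s
          simp
        rw [h2]
        exact ((h1.mul_const _).add_const _).const_mul _
      have h3 := ge_of_tendsto ht (eventually_atTop.2 ⟨0, fun s hs => h s hs⟩)
      simpa using h3
    · have hapos : 0 < a := hb0.trans hab
      have hq : 1 ≤ a / b := (one_le_div hb0).2 hab.le
      have h0 := h (Real.log (a / b)) (Real.log_nonneg hq)
      rw [Real.exp_neg, Real.exp_log (div_pos hapos hb0)] at h0
      have h1 : (a / b)⁻¹ * a ^ 2 + a / b * b ^ 2 = 2 * (b * a) := by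
        field_simp
        ring
      rw [h1] at h0
      calc e ≤ C * (2 * (b * a)) := h0
        _ ≤ C * (2 * (b * v)) := by
          refine mul_le_mul_of_nonneg_left ?_ hC
          refine mul_le_mul_of_nonneg_left ?_ two_pos.le
          exact mul_le_mul_of_nonneg_left hav hb
        _ = 2 * C * b * v := by ring

/-- Proof. `om (c • a) ψ = c * om a ψ`: replace the constant `C` by `C / ‖c‖` or `C * ‖c‖`
(`C` may be replaced by `max C 0` first). -/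
theorem Sig_smul (D : E → SL) (y : E) (a : V) {c : ℂ} (hc : c ≠ 0) :
    Sig D y (c • a) ↔ Sig D y a := by
  refine ⟨fun h => ?_, fun h => s3_smul_imp D y a hc h⟩
  have h1 := s3_smul_imp D y (c • a) (inv_ne_zero hc) h
  rwa [inv_smul_smul₀ hc] at h1

/-- Proof. `a' = c • a` (`om_eq_zero`), `c ≠ 0`, `Sig_smul`. -/
theorem Sig.of_om {D : E → SL} {y : E} {a a' : V} (h : Sig D y a) (ha' : a' ≠ 0)
    (h0 : om a a' = 0) : Sig D y a' := by
  obtain ⟨c, hc⟩ := (om_eq_zero h.1).1 h0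
  have hc0 : c ≠ 0 := by
    rintro rfl
    exact ha' (by rw [hc, zero_smul])
  rw [hc]
  exact (Sig_smul D y a hc0).2 h

/-- Proof. `om a a = 0` and `eD_nonneg`. -/
theorem Sig.eD_zero {D : E → SL} {y : E} {a : V} (h : Sig D y a) : eD D y a = 0 := by
  obtain ⟨_, C, hC⟩ := h
  refine le_antisymm ?_ (eD_nonneg D y a)
  have h1 := hC a
  rwa [om_self, norm_zero, mul_zero, zero_mul] at h1

/-- `Σ(y)` by frames, towards `e₁`.
Proof. (=>) Let `e(y,ψ) ≤ C ‖om a ψ‖ vn ψ` with `C ≥ 0`. Let `ψ` be a unit vector and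
`φ = (dg (-s) * k)⁻¹ ψ = k⁻¹ (dg s ψ)`. Then
`om a φ = om (k a) (dg s ψ) = lam * (dg s ψ) 1 = lam e^{-s/2} ψ₁`, and
`vn φ ≤ nm k⁻¹ * vn (dg s ψ) ≤ nm k * e^{s/2}` (`nsq_dg_mulVec`, `s ≥ 0`). So
`e(y,φ) ≤ C ‖lam‖ nm k`. Use `mD_le_of_forall`.
(<=) `a ≠ 0` as `lam ≠ 0`. Let `m(y, dg(-s) k) ≤ C`, `C ≥ 0`, for all `s ≥ 0`; let `x = k φ`. By
`eD_le_mD'`, `e(y,φ) ≤ C (e^{-s}|x₀|² + e^{s}|x₁|²)` for all `s ≥ 0`. If `|x₁| ≥ |x₀|` take `s = 0`:
`≤ 2C|x₁|²`. If `|x₀| > |x₁| > 0` take `e^s = |x₀|/|x₁|`: `= 2C|x₀||x₁|`. If `x₁ = 0` let `s → ∞`: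
`e ≤ 0`. In all cases `e(y,φ) ≤ 2 C |x₁| vn x`, and `|x₁| = ‖om e₁ x‖ = ‖om a φ‖/‖lam‖`,
`vn x ≤ nm k * vn φ`. -/
theorem Sig_frame [T2Space E] (hc : Cst r0 L) (G : Geo E r0 L) {y : E} {a : V} {k : SL} {lam : ℂ}
    (hl : lam ≠ 0) (hk : (k : M2) *ᵥ a = lam • e1) :
    Sig G.D y a ↔ ∃ C : ℝ, ∀ s : ℝ, 0 ≤ s → mD G.D y (dg (-s) * k) ≤ C := by
  constructor
  · rintro ⟨ha, C, hC⟩
    refine ⟨max C 0 * ‖lam‖ * nm (k : M2), fun s hs => ?_⟩
    refine mD_le_of_forall hc G fun ψ hψ => ?_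
    have hinv : (((dg (-s) * k)⁻¹ : SL) : M2) *ᵥ ψ =
        ((k⁻¹ : SL) : M2) *ᵥ ((dg s : M2) *ᵥ ψ) := by
      rw [Matrix.mulVec_mulVec, _root_.mul_inv_rev, dg_inv, neg_neg, Matrix.SpecialLinearGroup.coe_mul]
    rw [hinv]
    set x : V := (dg s : M2) *ᵥ ψ with hx
    set φ : V := ((k⁻¹ : SL) : M2) *ᵥ x with hφ
    have hkφ : (k : M2) *ᵥ φ = x := by
      rw [hφ, Matrix.mulVec_mulVec, coe_mul_inv, Matrix.one_mulVec]
    have hom := s3_om_frame hk hkφ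
    have hψ1 : ‖ψ 0‖ ^ 2 + ‖ψ 1‖ ^ 2 = 1 := by rw [← s3_nsq, hψ]
    have hψ11 : ‖ψ 1‖ ≤ 1 := by
      have h1 : ‖ψ 1‖ ^ 2 ≤ 1 := by
        have := sq_nonneg ‖ψ 0‖
        linarith
      exact (sq_le_one_iff₀ (norm_nonneg _)).1 h1
    have hx1 : ‖x 1‖ ≤ Real.exp (-(s / 2)) := by
      rw [hx, s3_dg_one]
      exact mul_le_of_le_one_right (Real.exp_pos _).le hψ11
    have hvx : vn x ≤ Real.exp (s / 2) := by
      have h1 : nsq x ≤ Real.exp (s / 2) ^ 2 := by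
        rw [hx, nsq_dg_mulVec, ← Real.exp_nat_mul]
        have h2 : Real.exp (-s) ≤ Real.exp s := Real.exp_le_exp.2 (by linarith)
        have h3 : ((2:ℕ):ℝ) * (s / 2) = s := by push_cast; ring
        rw [h3]
        calc Real.exp s * ‖ψ 0‖ ^ 2 + Real.exp (-s) * ‖ψ 1‖ ^ 2
            ≤ Real.exp s * ‖ψ 0‖ ^ 2 + Real.exp s * ‖ψ 1‖ ^ 2 := by
              have := mul_le_mul_of_nonneg_right h2 (sq_nonneg ‖ψ 1‖)
              linarith
          _ = Real.exp s := by rw [← mul_add, hψ1, mul_one]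
      rw [← vn_sq] at h1
      exact (le_abs_self _).trans (abs_le_of_sq_le_sq h1 (Real.exp_pos _).le)
    have hvφ : vn φ ≤ nm (k : M2) * vn x := by
      have h1 := vn_mulVec_le ((k⁻¹ : SL) : M2) x
      rwa [nm_inv] at h1
    have hM : 0 ≤ max C 0 := le_max_right _ _
    have hnk : 0 ≤ nm (k : M2) := nm_nonneg _
    have hee : Real.exp (-(s / 2)) * Real.exp (s / 2) = 1 := by
      rw [← Real.exp_add]
      simp
    calc eD G.D y φ ≤ C * ‖om a φ‖ * vn φ := hC φ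
      _ ≤ max C 0 * ‖om a φ‖ * vn φ := by
          refine mul_le_mul_of_nonneg_right ?_ (vn_nonneg _)
          exact mul_le_mul_of_nonneg_right (le_max_left _ _) (norm_nonneg _)
      _ = max C 0 * (‖lam‖ * ‖x 1‖) * vn φ := by rw [hom]
      _ ≤ max C 0 * (‖lam‖ * Real.exp (-(s / 2))) * (nm (k : M2) * Real.exp (s / 2)) := by
          refine mul_le_mul ?_ ?_ (vn_nonneg _) ?_
          · exact mul_le_mul_of_nonneg_left (mul_le_mul_of_nonneg_left hx1 (norm_nonneg _)) hM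
          · exact hvφ.trans (mul_le_mul_of_nonneg_left hvx hnk)
          · exact mul_nonneg hM (mul_nonneg (norm_nonneg _) (Real.exp_pos _).le)
      _ = max C 0 * ‖lam‖ * nm (k : M2) * (Real.exp (-(s / 2)) * Real.exp (s / 2)) := by ring
      _ = max C 0 * ‖lam‖ * nm (k : M2) := by rw [hee, mul_one]
  · rintro ⟨C, hC⟩
    have ha : a ≠ 0 := by
      rintro rfl
      rw [Matrix.mulVec_zero] at hk
      have h1 := congrFun hk 0
      simp [e1] at h1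
      exact hl h1.symm
    have hM : 0 ≤ max C 0 := le_max_right _ _
    have hlp : 0 < ‖lam‖ := norm_pos_iff.2 hl
    refine ⟨ha, 2 * max C 0 * nm (k : M2) / ‖lam‖, fun φ => ?_⟩
    set x : V := (k : M2) *ᵥ φ with hx
    have hom := s3_om_frame hk hx.symm
    have hkey : eD G.D y φ ≤ 2 * max C 0 * ‖x 1‖ * vn x := by
      refine s3_opt hM (norm_nonneg (x 0)) (norm_nonneg (x 1)) (norm_coord_le x 0)
        (norm_coord_le x 1) fun s hs => ?_
      have h1 := eD_le_mD' hc G y (dg (-s) * k) φ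
      rw [Matrix.SpecialLinearGroup.coe_mul, ← Matrix.mulVec_mulVec, ← hx, nsq_dg_mulVec,
        neg_neg] at h1
      refine h1.trans (mul_le_mul_of_nonneg_right ((hC s hs).trans (le_max_left _ _)) ?_)
      exact add_nonneg (mul_nonneg (Real.exp_pos _).le (sq_nonneg _))
        (mul_nonneg (Real.exp_pos _).le (sq_nonneg _))
    have hvx : vn x ≤ nm (k : M2) * vn φ := vn_mulVec_le _ _
    calc eD G.D y φ ≤ 2 * max C 0 * ‖x 1‖ * vn x := hkey
      _ ≤ 2 * max C 0 * ‖x 1‖ * (nm (k : M2) * vn φ) :=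
          mul_le_mul_of_nonneg_left hvx
            (mul_nonneg (mul_nonneg two_pos.le hM) (norm_nonneg _))
      _ = 2 * max C 0 * nm (k : M2) / ‖lam‖ * ‖om a φ‖ * vn φ := by
          rw [hom]
          field_simp

/-- towards `e₂`. Proof. `Sig_frame` for `w0 * k` (`(w0 k) a = lam • e₁`), and
`mD (dg (-s) * (w0 * k)) = mD (dg s * k)`: `dg (-s) * w0 = w0 * dg s`, `mD_unitary`. -/
theorem Sig_frame2 [T2Space E] (hc : Cst r0 L) (G : Geo E r0 L) {y : E} {a : V} {k : SL} {lam : ℂ}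
    (hl : lam ≠ 0) (hk : (k : M2) *ᵥ a = lam • e2) :
    Sig G.D y a ↔ ∃ C : ℝ, ∀ s : ℝ, 0 ≤ s → mD G.D y (dg s * k) ≤ C := by
  have hk' : ((w0 * k : SL) : M2) *ᵥ a = lam • e1 := by
    rw [Matrix.SpecialLinearGroup.coe_mul, ← Matrix.mulVec_mulVec, hk, Matrix.mulVec_smul,
      w0_mulVec_e2]
  rw [Sig_frame hc G hl hk']
  have h1 : ∀ s : ℝ, mD G.D y (dg (-s) * (w0 * k)) = mD G.D y (dg s * k) := by
    intro s
    rw [← mD_dg_neg hc G y k (-s), neg_neg]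
  simp only [h1]

end HRK
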