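import Pool.Agent.HRK.S3

/-!
# HRK-S3b : exponential decay towards a direction of `Sig`
-/

namespace HRK

open Set Filter Topology Matrix

universe u

variable {E : Type u} [TopologicalSpace E] [T2Space E] [ConnectedSpace E] {r0 L : ℝ}

/-- passing to the limit in the interpolation inequality. -/
theorem s3b_limit {x A B s : ℝ} (h : ∀ l : ℝ, s ≤ l → x ≤ A + B * Real.exp (s - l)) : x ≤ A := by
  have h1 : Tendsto (fun l : ℝ => A + B * Real.exp (s - l)) atTop (𝓝 (A + B * 0)) := by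
    have h2 : Tendsto (fun l : ℝ => Real.exp (s - l)) atTop (𝓝 0) := by
      refine Real.tendsto_exp_atBot.comp ?_
      exact tendsto_atBot_add_const_left _ s tendsto_neg_atTop_atBot
    exact (h2.const_mul B).const_add A
  have h3 := ge_of_tendsto h1 (eventually_atTop.2 ⟨s, fun l hl => h l hl⟩)
  simpa using h3

theorem s3b_ne_zero {a : V} {k : SL} {lam : ℂ} {e : V} (ha : a ≠ 0)
    (hk : (k : M2) *ᵥ a = lam • e) : lam ≠ 0 := by
  rintro rfl
  apply ha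
  rw [zero_smul] at hk
  have h1 : ((k⁻¹ : SL) : M2) *ᵥ ((k : M2) *ᵥ a) = a := by
    rw [Matrix.mulVec_mulVec, coe_inv_mul, Matrix.one_mulVec]
  rw [← h1, hk, Matrix.mulVec_zero]

/-- Exponential decay towards a direction of `Σ(y)`.
Proof. `lam ≠ 0` because `a ≠ 0` and `k` is invertible. By `Sig_frame`, `m(y, dg(-l) k) ≤ C` for
`l ≥ 0`, so `v(y, dg(-l) k) ≤ C²` (`vD_le_of_mD`). By `vD_interp_neg`, for `l ≥ s`,
`v(y, dg(-s)k) ≤ v(y,k) e^{-s} + C² e^{s-l}`; let `l → ∞`. -/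
theorem Sig_decay (hc : Cst r0 L) (G : Geo E r0 L) (hne : ∃ y ψ, 0 < eD G.D y ψ) {y : E} {a : V}
    {k : SL} {lam : ℂ} (hk : (k : M2) *ᵥ a = lam • e1) (h : Sig G.D y a) {s : ℝ} (hs : 0 ≤ s) :
    vD G.D y (dg (-s) * k) ≤ vD G.D y k * Real.exp (-s) := by
  obtain ⟨C, hC⟩ := (Sig_frame hc G (s3b_ne_zero h.1 hk) hk).1 h
  refine s3b_limit (B := C ^ 2) (s := s) fun l hl => ?_
  refine (vD_interp_neg hc G hne y k hs hl).trans ?_
  have h1 := vD_le_of_mD hc G hne (hC l (hs.trans hl))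
  have h2 := mul_le_mul_of_nonneg_right h1 (Real.exp_pos (s - l)).le
  linarith

/-- Proof. The same with `Sig_frame2`, `vD_interp`. -/
theorem Sig_decay2 (hc : Cst r0 L) (G : Geo E r0 L) (hne : ∃ y ψ, 0 < eD G.D y ψ) {y : E} {a : V}
    {k : SL} {lam : ℂ} (hk : (k : M2) *ᵥ a = lam • e2) (h : Sig G.D y a) {s : ℝ} (hs : 0 ≤ s) :
    vD G.D y (dg s * k) ≤ vD G.D y k * Real.exp (-s) := by
  obtain ⟨C, hC⟩ := (Sig_frame2 hc G (s3b_ne_zero h.1 hk) hk).1 h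
  refine s3b_limit (B := C ^ 2) (s := s) fun l hl => ?_
  refine (vD_interp hc G hne y k hs hl).trans ?_
  have h1 := vD_le_of_mD hc G hne (hC l (hs.trans hl))
  have h2 := mul_le_mul_of_nonneg_right h1 (Real.exp_pos (s - l)).le
  linarith

/-- Proof. `C ≤ M^2` for some `M ≥ 0`, `mD_le_of_vD`, `Sig_frame`. -/
theorem Sig_of_vD_le (hc : Cst r0 L) (G : Geo E r0 L) (hne : ∃ y ψ, 0 < eD G.D y ψ) {y : E} {a : V}
    {k : SL} {lam : ℂ} (hl : lam ≠ 0) (hk : (k : M2) *ᵥ a = lam • e1) {C : ℝ}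
    (h : ∀ s : ℝ, 0 ≤ s → vD G.D y (dg (-s) * k) ≤ C) : Sig G.D y a := by
  refine (Sig_frame hc G hl hk).2 ⟨(|C| + 1) + 1 / 2, fun s hs => ?_⟩
  refine mD_le_of_vD hc G hne (add_nonneg (abs_nonneg C) zero_le_one) ((h s hs).trans ?_)
  have h1 := le_abs_self C
  have h2 := abs_nonneg C
  have h3 : (|C| + 1) ^ 2 = |C| ^ 2 + 2 * |C| + 1 := by ring
  have h4 := sq_nonneg |C|
  linarith

end HRK
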