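import Pool.Agent.HRK.N5

/-!
# HRK-S5a : frames adapted to two directions; diagonal Hermitian planes
-/

namespace HRK

open Set Filter Topology Matrix


/-- Proof. `k = [[a'₁, -a'₀], [-a₁, a₀]]` up to a factor: `(k a)₁ = ω(..)`. Precisely let
`δ = om a a' ≠ 0` and `k = [[a'₁/δ, -a'₀/δ], [-a₁, a₀]]`: `det k = (a'₁ a₀ - a'₀ a₁)/δ = 1`,
`k a = (δ/δ, 0) = e₁`, `k a' = (0, δ)`. -/
theorem exists_frame_two {a a' : V} (h : om a a' ≠ 0) :
    ∃ k : SL, (k : M2) *ᵥ a = (1 : ℂ) • e1 ∧ (k : M2) *ᵥ a' = (om a a') • e2 := by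
  refine ⟨⟨!![a' 1 / om a a', -(a' 0) / om a a'; -(a 1), a 0], ?_⟩, ?_, ?_⟩
  · rw [Matrix.det_fin_two_of]
    have h2 : a 0 * a' 1 - a 1 * a' 0 ≠ 0 := h
    have hd : (a 0 * a' 1 - a 1 * a' 0) * (a 0 * a' 1 - a 1 * a' 0)⁻¹ = 1 := mul_inv_cancel₀ h2
    unfold om
    linear_combination hd
  · have h2 : a 0 * a' 1 - a 1 * a' 0 ≠ 0 := h
    ext i
    fin_cases i
    · simp [Matrix.mulVec, dotProduct, Fin.sum_univ_two, e1, om]
      have hd : (a 0 * a' 1 - a 1 * a' 0) * (a 0 * a' 1 - a 1 * a' 0)⁻¹ = 1 := mul_inv_cancel₀ h2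
      linear_combination hd
    · simp [Matrix.mulVec, dotProduct, Fin.sum_univ_two, e1, om]
      ring
  · have h2 : a 0 * a' 1 - a 1 * a' 0 ≠ 0 := h
    ext i
    fin_cases i
    · simp [Matrix.mulVec, dotProduct, Fin.sum_univ_two, e2, om]
      ring
    · simp [Matrix.mulVec, dotProduct, Fin.sum_univ_two, e2, om]
      ring

/-- A Hermitian plane `Q = [[p,q],[conj q,1-p]]` with `|dg s Q dg(-s)| ≤ 1` for one `s ≠ 0` is
`E11` or `E22`.
Proof. `fro (cj (dg s) Q) = p² + (1-p)² + |q|² (e^{2s} + e^{-2s})`, and `p(1-p) = |q|²` (`det Q = 0`,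
`p` real), so this is `1 + |q|² (e^{2s} + e^{-2s} - 2)`, and `e^{2s} + e^{-2s} > 2` for `s ≠ 0`
(`= 2 + (e^s - e^{-s})²`). So `q = 0` and `p ∈ {0,1}`. -/
theorem diag_of_fro_le {Q : M2} (hQ : IsPl Q) (hH : Q.IsHermitian) {s : ℝ} (hs : s ≠ 0)
    (h : fro (cj (dg s) Q) ≤ 1) : Q = !![1, 0; 0, 0] ∨ Q = !![0, 0; 0, 1] := by
  obtain ⟨htr, hdet⟩ := hQ
  rw [Matrix.trace_fin_two] at htr
  rw [Matrix.det_fin_two] at hdet
  have h00 : (starRingEnd ℂ) (Q 0 0) = Q 0 0 := by
    have := congrFun (congrFun hH 0) 0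
    simpa [Matrix.conjTranspose_apply] using this
  have h10 : (starRingEnd ℂ) (Q 0 1) = Q 1 0 := by
    have := congrFun (congrFun hH 1) 0
    simpa [Matrix.conjTranspose_apply] using this
  have him : (Q 0 0).im = 0 := by
    have := congrArg Complex.im h00
    simp at this
    linarith
  obtain ⟨p, hp⟩ : ∃ p : ℝ, Q 0 0 = (p : ℂ) := ⟨(Q 0 0).re, by
    apply Complex.ext <;> simp [him]⟩
  have h11 : Q 1 1 = ((1 - p : ℝ) : ℂ) := by
    push_cast
    rw [← hp]
    linear_combination htr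
  have hq : p * (1 - p) = Complex.normSq (Q 0 1) := by
    rw [hp, h11, ← h10, Complex.mul_conj] at hdet
    have : ((p * (1 - p) - Complex.normSq (Q 0 1) : ℝ) : ℂ) = 0 := by
      push_cast
      push_cast at hdet
      exact hdet
    have := Complex.ofReal_eq_zero.mp this
    linarith
  have hfro : fro (cj (dg s) Q) = p ^ 2 + (1 - p) ^ 2 +
      Complex.normSq (Q 0 1) * (Real.exp s ^ 2 + Real.exp (-s) ^ 2) := by
    have hE1 : Real.exp (s / 2) * Real.exp (s / 2) = Real.exp s := by
      rw [← Real.exp_add]; ring_nf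
    have hE2 : Real.exp (-(s / 2)) * Real.exp (-(s / 2)) = Real.exp (-s) := by
      rw [← Real.exp_add]; ring_nf
    have hE3 : Real.exp (s / 2) * Real.exp (-(s / 2)) = 1 := by
      rw [← Real.exp_add]; simp
    have hC : cj (dg s) Q = !![Q 0 0, ((Real.exp s : ℝ) : ℂ) * Q 0 1;
        ((Real.exp (-s) : ℝ) : ℂ) * Q 1 0, Q 1 1] := by
      have hinv : ((dg s)⁻¹ : SL) = (⟨!![(Real.exp (-(s / 2)) : ℂ), 0; 0, (Real.exp (s / 2) : ℂ)],
          by
            rw [Matrix.det_fin_two_of]
            rw [mul_zero, sub_zero, ← Complex.ofReal_mul, ← Real.exp_add]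
            simp⟩ : SL) := by
        ext i j
        rw [Matrix.SpecialLinearGroup.coe_inv]
        simp only [dg]
        rw [Matrix.adjugate_fin_two_of]
        fin_cases i <;> fin_cases j <;> simp
      unfold cj
      rw [hinv]
      simp only [dg]
      rw [← hE1, ← hE2]
      have h3 : (Real.exp (s / 2) : ℂ) * (Real.exp (-(s / 2)) : ℂ) = 1 := by
        exact_mod_cast hE3
      ext i j
      fin_cases i <;> fin_cases j
      · simp only [Matrix.mul_apply, Fin.sum_univ_two]
        simp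
        push_cast at h3 ⊢
        linear_combination (Q 0 0) * h3
      · simp only [Matrix.mul_apply, Fin.sum_univ_two]
        simp
        ring
      · simp only [Matrix.mul_apply, Fin.sum_univ_two]
        simp
        ring
      · simp only [Matrix.mul_apply, Fin.sum_univ_two]
        simp
        push_cast at h3 ⊢
        linear_combination (Q 1 1) * h3
    rw [hC]
    have hn10 : Complex.normSq (Q 1 0) = Complex.normSq (Q 0 1) := by
      rw [← h10, Complex.normSq_conj]
    unfold fro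
    simp only [Fin.sum_univ_two, Matrix.of_apply, Matrix.cons_val_zero, Matrix.cons_val_one,
      Matrix.cons_val', Complex.normSq_mul, Complex.normSq_ofReal, hn10, hp, h11]
    ring
  rw [hfro] at h
  have hprod : Real.exp s * Real.exp (-s) = 1 := by
    rw [← Real.exp_add]; simp
  have hne : Real.exp s - Real.exp (-s) ≠ 0 := by
    intro h0
    have : Real.exp s = Real.exp (-s) := by linarith
    have := Real.exp_injective this
    apply hs; linarith
  have hpos : 0 < (Real.exp s - Real.exp (-s)) ^ 2 := by positivity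
  have hexp : Real.exp s ^ 2 + Real.exp (-s) ^ 2 = (Real.exp s - Real.exp (-s)) ^ 2 + 2 := by
    have := hprod
    nlinarith [hprod]
  rw [hexp] at h
  have hn0 : Complex.normSq (Q 0 1) = 0 := by
    have h1 := Complex.normSq_nonneg (Q 0 1)
    have h2 : Complex.normSq (Q 0 1) * (Real.exp s - Real.exp (-s)) ^ 2 ≤ 0 := by
      nlinarith
    by_contra hc
    have h3 : 0 < Complex.normSq (Q 0 1) := lt_of_le_of_ne h1 (Ne.symm hc)
    have := mul_pos h3 hpos
    linarith
  have h01 : Q 0 1 = 0 := Complex.normSq_eq_zero.mp hn0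
  have h10' : Q 1 0 = 0 := by rw [← h10, h01]; simp
  rw [hn0] at hq
  rcases mul_eq_zero.mp hq with h1 | h1
  · right
    ext i j
    fin_cases i <;> fin_cases j
    · simp [hp, h1]
    · simp [h01]
    · simp [h10']
    · simp [h11, h1]
  · left
    have hp1 : p = 1 := by linarith
    ext i j
    fin_cases i <;> fin_cases j
    · simp [hp, hp1]
    · simp [h01]
    · simp [h10']
    · simp [h11, hp1]

end HRK
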