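import Pool.Agent.HRK.S3b
import Pool.Agent.HRK.S5a

/-!
# HRK-S5 : two directions in `Σ(y)`: zeros and contact planes
-/

namespace HRK

open Set Filter Topology Matrix

universe u

variable {E : Type u} [TopologicalSpace E] [T2Space E] [ConnectedSpace E] {r0 L : ℝ}

theorem s5_dg_e1 (s : ℝ) : (dg s : M2) *ᵥ e1 = (Real.exp (s / 2) : ℂ) • e1 := by
  ext i
  fin_cases i <;> simp [dg, e1, Matrix.mulVec, dotProduct, Fin.sum_univ_two]

theorem s5_dg_e2 (s : ℝ) : (dg s : M2) *ᵥ e2 = (Real.exp (-(s / 2)) : ℂ) • e2 := by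
  ext i
  fin_cases i <;> simp [dg, e2, Matrix.mulVec, dotProduct, Fin.sum_univ_two]

theorem s5_exists_small {c4 : ℝ} (hc4 : 0 < c4) : ∃ s : ℝ, 0 < s ∧ nm ((dg s : M2) - 1) < c4 := by
  have hcont : Continuous fun s : ℝ => nm ((dg s : M2) - 1) :=
    continuous_nm.comp ((isEmbedding_coe.continuous.comp continuous_dg).sub continuous_const)
  have h0 : nm ((dg 0 : M2) - 1) = 0 := by
    rw [dg_zero]
    have : ((1 : SL) : M2) - 1 = 0 := by simp
    rw [this, nm_zero]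
  have hev : ∀ᶠ s in 𝓝 (0 : ℝ), nm ((dg s : M2) - 1) < c4 := by
    have := hcont.tendsto 0
    rw [h0] at this
    exact this.eventually_lt_const hc4
  obtain ⟨δ, hδ, hball⟩ := Metric.eventually_nhds_iff.1 hev
  refine ⟨δ / 2, by linarith, hball ?_⟩
  rw [Real.dist_eq, sub_zero, abs_of_pos (by linarith)]
  linarith

/-- Between two directions of `Σ(y)` the function `v` vanishes.
Proof. `lam, mu ≠ 0`. By `Sig_decay`, `v(y, dg(-l)k) ≤ v(y,k) =: v₀` and by `Sig_decay2`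
`v(y, dg(l) k) ≤ v₀` for all `l ≥ 0`. `vD_interp` with base frame `dg(-l) * k`, length `2l`, at
`s = l` (`dg l * (dg(-l) * k) = k`, `dg (2l) * (dg (-l) * k) = dg l * k`):
`v₀ ≤ v₀ e^{-l} + v₀ e^{-l}` for all `l ≥ 0`; let `l → ∞`: `v₀ ≤ 0`. `vD_eq_zero_iff`. -/
theorem Sig_two (hc : Cst r0 L) (G : Geo E r0 L) (hne : ∃ y ψ, 0 < eD G.D y ψ) {y : E} {a a' : V}
    {k : SL} {lam mu : ℂ} (hk : (k : M2) *ᵥ a = lam • e1) (hk' : (k : M2) *ᵥ a' = mu • e2)
    (h : Sig G.D y a) (h' : Sig G.D y a') : mD G.D y k = 1 / 2 := by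
  have h1 := Sig_decay hc G hne hk h (s := 1) zero_le_one
  have h2 := Sig_decay2 hc G hne hk' h' (s := 1) zero_le_one
  have h3 := vD_interp hc G hne y (dg (-1) * k) (l := 2) (s := 1) (by norm_num) (by norm_num)
  have e1' : dg 1 * (dg (-1) * k) = k := by
    rw [← mul_assoc, dg_add, add_neg_cancel, dg_zero, one_mul]
  have e2' : dg 2 * (dg (-1) * k) = dg 1 * k := by
    rw [← mul_assoc, dg_add]
    norm_num
  rw [e1', e2'] at h3
  have e3 : Real.exp ((1 : ℝ) - 2) = Real.exp (-1) := by norm_num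
  rw [e3] at h3
  have hv := vD_nonneg G.D y k
  have hE : Real.exp (-1) * Real.exp (-1) < 1 / 2 := by
    rw [← Real.exp_add]
    have h5 : (-1 : ℝ) + -1 = -2 := by norm_num
    rw [h5, Real.exp_neg]
    have h6 : (2 : ℝ) + 1 ≤ Real.exp 2 := Real.add_one_le_exp 2
    rw [inv_lt_comm₀ (Real.exp_pos 2) (by norm_num)]
    norm_num
    linarith
  have hp : 0 < Real.exp (-1) := Real.exp_pos _
  have h7 : vD G.D y k ≤ 2 * (Real.exp (-1) * Real.exp (-1)) * vD G.D y k := by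
    have a1 : vD G.D y (dg (-1) * k) * Real.exp (-1) ≤ vD G.D y k * Real.exp (-1) * Real.exp (-1) :=
      mul_le_mul_of_nonneg_right h1 hp.le
    have a2 : vD G.D y (dg 1 * k) * Real.exp (-1) ≤ vD G.D y k * Real.exp (-1) * Real.exp (-1) :=
      mul_le_mul_of_nonneg_right h2 hp.le
    nlinarith [h3, a1, a2]
  have h8 : vD G.D y k = 0 := by
    by_contra hne0
    have hpos : 0 < vD G.D y k := lt_of_le_of_ne hv (Ne.symm hne0)
    nlinarith
  exact (vD_eq_zero_iff hc G hne y k).1 h8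

/-- The contact plane at a frame of the geodesic between two directions of `Σ(y)`.
Proof. For every `s`, `dg s * k` satisfies the hypotheses of `Sig_two`
(`(dg s * k) a = (e^{s/2} lam) • e₁` etc.), so `v(y, dg s * k) = 0`. Take `s > 0` so small that
`nm (dg s - 1) < c4` (`Ct_lower`, `continuous_dg`), `g = 1` (`ac_one`, `pmv_one`):
`fro (cj (dg s * k) P) ≤ 1`, `cj (dg s * k) P = cj (dg s) (cj k P)`. `diag_of_fro_le`. -/
theorem Sig_two_plane (hc : Cst r0 L) {c C : ℝ} (hV : VisPkg.{u} r0 L c C) (G : Geo E r0 L)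
    (hne : ∃ y ψ, 0 < eD G.D y ψ) {y : E} {a a' : V} {k : SL} {lam mu : ℂ}
    (hk : (k : M2) *ᵥ a = lam • e1) (hk' : (k : M2) *ᵥ a' = mu • e2)
    (h : Sig G.D y a) (h' : Sig G.D y a') {P : M2} (hP : Ct G c C y k P) :
    cj k P = !![1, 0; 0, 0] ∨ cj k P = !![0, 0; 0, 1] := by
  obtain ⟨c4, hc4, hlow⟩ := Ct_lower.{u} hV
  obtain ⟨s, hs, hsn⟩ := s5_exists_small hc4
  have hks : ((dg s * k : SL) : M2) *ᵥ a = ((Real.exp (s / 2) : ℂ) * lam) • e1 := by
    rw [Matrix.SpecialLinearGroup.coe_mul, ← Matrix.mulVec_mulVec, hk, Matrix.mulVec_smul,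
      s5_dg_e1, smul_smul, mul_comm]
  have hks' : ((dg s * k : SL) : M2) *ᵥ a' = ((Real.exp (-(s / 2)) : ℂ) * mu) • e2 := by
    rw [Matrix.SpecialLinearGroup.coe_mul, ← Matrix.mulVec_mulVec, hk', Matrix.mulVec_smul,
      s5_dg_e2, smul_smul, mul_comm]
  have hm := Sig_two hc G hne hks hks' h h'
  have hv := vD_of_half hm
  have hl := hlow E G y k P hP 1 (dg s) (by
    have : ((1 : SL) : M2) - 1 = 0 := by simp
    rw [this, cj_zero, nm_zero]
    exact hc4) hsn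
  rw [ac_one G.hD, pmv_one hP.isPl, hv] at hl
  refine diag_of_fro_le (hP.isPl.conj k) hP.herm hs.ne' ?_
  rw [cj_cj]
  linarith

end HRK
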