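import Pool.Agent.HRK.S2

/-!
# HRK-S6a : compactness of the unitary group, KAK
-/

namespace HRK

open Set Filter Topology Matrix


/-- Compactness of the unitary group. Proof. `{u : SL | IsU u}` is closed and contained in a ball
(`nm u = √2`), `isCompact_SL_ball`; sequential compactness (`IsCompact.tendsto_subseq`; `SL` is
metrizable, or first countable). -/
theorem unitary_subseq (u_ : ℕ → SL) (hu : ∀ n, IsU (u_ n)) :
    ∃ (φ : ℕ → ℕ) (u : SL), StrictMono φ ∧ IsU u ∧ Tendsto (fun n => u_ (φ n)) atTop (𝓝 u) := by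
  have hfro : ∀ n, nm ((u_ n : SL) : M2) = Real.sqrt 2 := by
    intro n
    have h2 : fro ((u_ n : SL) : M2) = 2 := by
      rw [fro_eq_trace]
      have h := hu n
      unfold IsU at h
      rw [h]
      simp
    unfold nm
    rw [h2]
  have hcomp := isCompact_SL_ball 1 (Real.sqrt 2 + nm ((1 : SL) : M2))
  have hmem : ∀ n, u_ n ∈ {g : SL | nm ((g : M2) - ((1 : SL) : M2)) ≤
      Real.sqrt 2 + nm ((1 : SL) : M2)} := by
    intro n
    have h := nm_add_le ((u_ n : SL) : M2) (-((1 : SL) : M2))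
    rw [nm_neg, hfro n, ← sub_eq_add_neg] at h
    exact h
  have : FirstCountableTopology M2 := inferInstanceAs (FirstCountableTopology (Fin 2 → Fin 2 → ℂ))
  have : FirstCountableTopology SL := isEmbedding_coe.isInducing.firstCountableTopology
  obtain ⟨u, -, φ, hφ, hlim⟩ := hcomp.tendsto_subseq hmem
  refine ⟨φ, u, hφ, ?_, hlim⟩
  have hcl : IsClosed {g : SL | IsU g} := by
    have hco : Continuous fun g : SL => (g : M2) := isEmbedding_coe.continuous
    exact isClosed_eq (hco.matrix_conjTranspose.matrix_mul hco) continuous_const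
  exact hcl.mem_of_tendsto hlim (Filter.Eventually.of_forall fun n => hu (φ n))

/-- KAK with the contraction on `e₁`. Proof. `exists_KAK`: `k = w * dg s * u`, `s ≥ 0`,
`dg s = w0⁻¹ * dg (-s) * w0` (`w0_mul_dg`). So `w'⁻¹ * k = dg (-s) * (w0 * u)`, `w' = w * w0⁻¹`. -/
theorem exists_KAK' (k : SL) :
    ∃ (w u : SL) (s : ℝ), IsU w ∧ IsU u ∧ 0 ≤ s ∧ w * k = dg (-s) * u := by
  obtain ⟨w, u, s, hw, hu, hs, hk⟩ := exists_KAK k
  refine ⟨w0 * w⁻¹, w0 * u, s, IsU_mul IsU_w0 (IsU_inv hw), IsU_mul IsU_w0 hu, hs, ?_⟩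
  calc w0 * w⁻¹ * k = w0 * dg s * u := by rw [hk]; group
    _ = dg (-s) * (w0 * u) := by rw [w0_mul_dg]; group

end HRK
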