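import Pool.Agent.HRK.S3b
import Pool.Agent.HRK.S6a

/-!
# HRK-S6 : frames going to infinity with bounded `v`
-/

namespace HRK

open Set Filter Topology Matrix

universe u

variable {E : Type u} [TopologicalSpace E] [T2Space E] [ConnectedSpace E] {r0 L : ℝ}

/-- A point with a sequence of frames going to infinity in the direction `u⁻¹ e₁`.
Proof. Fix `s ≥ 0`. For large `n`, `s ≤ s_ n` and `vD_le_max_neg`:
`v(y_ n, dg(-s) u_ n) ≤ max (v(y_ n, u_ n)) (v(y_ n, dg(-s_ n) u_ n)) ≤ max (v(y_ n, u_ n)) C`. In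
the limit (`continuous_vD`, `continuous_dg`) `v(y, dg(-s) u) ≤ max (v(y,u)) C`. `Sig_of_vD_le` with
`k = u`, `a = u⁻¹ e₁`, `lam = 1`. -/
theorem Sig_of_escape (hc : Cst r0 L) (G : Geo E r0 L) (hne : ∃ y ψ, 0 < eD G.D y ψ)
    {y_ : ℕ → E} {y : E} (hy : Tendsto y_ atTop (𝓝 y)) {u_ : ℕ → SL} {u : SL}
    (hu : Tendsto u_ atTop (𝓝 u)) {s_ : ℕ → ℝ} (hs : Tendsto s_ atTop atTop) {C : ℝ}
    (hC : ∀ᶠ n in atTop, vD G.D (y_ n) (dg (-(s_ n)) * u_ n) ≤ C) :
    Sig G.D y (((u⁻¹ : SL) : M2) *ᵥ e1) := by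
  refine Sig_of_vD_le hc G hne (k := u) (lam := 1) one_ne_zero ?_
    (C := max (vD G.D y u) C) ?_
  · rw [Matrix.mulVec_mulVec, coe_mul_inv, Matrix.one_mulVec, one_smul]
  · intro s hs0
    have hcv := continuous_vD hc G hne
    have h1 : Tendsto (fun n => vD G.D (y_ n) (dg (-s) * u_ n)) atTop
        (𝓝 (vD G.D y (dg (-s) * u))) := by
      have h := (hcv.tendsto (y, dg (-s) * u)).comp
        (hy.prodMk_nhds (tendsto_const_nhds.mul hu))
      exact h
    have h2 : Tendsto (fun n => max (vD G.D (y_ n) (u_ n)) C) atTop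
        (𝓝 (max (vD G.D y u) C)) := by
      have h := (hcv.tendsto (y, u)).comp (hy.prodMk_nhds hu)
      exact Tendsto.max h tendsto_const_nhds
    refine le_of_tendsto_of_tendsto h1 h2 ?_
    filter_upwards [hC, hs.eventually_ge_atTop s] with n hn hsn
    refine le_trans (vD_le_max_neg hc G hne (y_ n) (u_ n) hs0 hsn) ?_
    exact max_le_max le_rfl hn

end HRK
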