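import Pool.Agent.HRK.S6

/-!
# HRK-S6b : compactness of sequences of frames with bounded `v`
-/

namespace HRK

open Set Filter Topology Matrix

universe u

variable {E : Type u} [TopologicalSpace E] [T2Space E] [ConnectedSpace E] {r0 L : ℝ}

theorem tendsto_two {X Y Z : Type*} [TopologicalSpace X] [TopologicalSpace Y] [TopologicalSpace Z]
    {F : X → Y → Z} (hF : Continuous fun p : X × Y => F p.1 p.2) {x_ : ℕ → X} {x : X}
    (hx : Tendsto x_ atTop (𝓝 x)) {y_ : ℕ → Y} {y : Y} (hy : Tendsto y_ atTop (𝓝 y)) :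
    Tendsto (fun n => F (x_ n) (y_ n)) atTop (𝓝 (F x y)) :=
  (hF.tendsto (x, y)).comp (hx.prodMk_nhds hy)

/-- SEQ. Proof. Write `w_ n * k_ n = dg (-(s_ n)) * u_ n` (`exists_KAK'`), pass to a subsequence
with `u_ n → u` (`unitary_subseq`), and to a further subsequence such that either `s_ n` converges
to some `s` or `s_ n → ∞` (if `s_` is bounded along some subsequence, Bolzano-Weierstrass;
otherwise `s_ → ∞`: `tendsto_atTop` or `Filter.exists_seq...`; convenient: by cases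
`∃ R, ∃ᶠ n in atTop, s_ n ≤ R`). First case: `w_ n * k_ n → dg (-s) * u`. Second case:
`vD_unitary` and `Sig_of_escape`. -/
theorem seq_compact (hc : Cst r0 L) (G : Geo E r0 L) (hne : ∃ y ψ, 0 < eD G.D y ψ)
    {y_ : ℕ → E} {y : E} (hy : Tendsto y_ atTop (𝓝 y)) {k_ : ℕ → SL} {C : ℝ}
    (hC : ∀ n, vD G.D (y_ n) (k_ n) ≤ C) :
    (∃ (φ : ℕ → ℕ) (w : ℕ → SL) (k : SL), StrictMono φ ∧ (∀ n, IsU (w n)) ∧
      Tendsto (fun n => w n * k_ (φ n)) atTop (𝓝 k)) ∨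
    (∃ (φ : ℕ → ℕ) (w u_ : ℕ → SL) (u : SL) (s_ : ℕ → ℝ), StrictMono φ ∧ (∀ n, IsU (w n)) ∧
      (∀ n, IsU (u_ n)) ∧ IsU u ∧ Tendsto u_ atTop (𝓝 u) ∧ Tendsto s_ atTop atTop ∧
      (∀ n, w n * k_ (φ n) = dg (-(s_ n)) * u_ n) ∧ Sig G.D y (((u⁻¹ : SL) : M2) *ᵥ e1)) := by
  choose w u_ s hw hu hs0 heq using fun n => exists_KAK' (k_ n)
  obtain ⟨φ, u, hφ, hu', hlim⟩ := unitary_subseq u_ hu
  by_cases hR : ∃ R, ∃ᶠ n in atTop, s (φ n) ≤ R
  · obtain ⟨R, hR⟩ := hR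
    obtain ⟨a, -, ψ, hψ, ha⟩ := tendsto_subseq_of_frequently_bounded (Metric.isBounded_Icc 0 R)
      (x := fun n => s (φ n)) (hR.mono fun n h => ⟨hs0 _, h⟩)
    left
    refine ⟨fun n => φ (ψ n), fun n => w (φ (ψ n)), dg (-a) * u, hφ.comp hψ, fun n => hw _, ?_⟩
    have e : (fun n => w (φ (ψ n)) * k_ (φ (ψ n))) =
        fun n => dg (-(s (φ (ψ n)))) * u_ (φ (ψ n)) := funext fun n => heq _
    rw [e]
    exact ((continuous_dg.tendsto _).comp ha.neg).mul (hlim.comp hψ.tendsto_atTop)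
  · have hT : Tendsto (fun n => s (φ n)) atTop atTop := by
      rw [tendsto_atTop]
      intro R
      by_contra h
      refine hR ⟨R, ?_⟩
      rw [Filter.not_eventually] at h
      exact h.mono fun n hn => (not_le.1 hn).le
    right
    refine ⟨φ, fun n => w (φ n), fun n => u_ (φ n), u, fun n => s (φ n), hφ, fun n => hw _,
      fun n => hu _, hu', hlim, hT, fun n => heq _, ?_⟩
    refine Sig_of_escape hc G hne (hy.comp hφ.tendsto_atTop) hlim hT (C := C)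
      (Eventually.of_forall fun n => ?_)
    rw [← heq, vD_unitary hc G _ (hw _)]
    exact hC _

/-- Zero or direction. Proof. `thmB` with `ε = 1/(n+1)` gives `k_ n`; `seq_compact` for the
constant sequence `y` (`v ≤ 1`). In the first case `v(y,k) = lim v(y, w_n k_n) = 0`
(`continuous_vD`, `vD_unitary`), `vD_eq_zero_iff`. -/
theorem exists_half_or_Sig (hc : Cst r0 L) (G : Geo E r0 L) (hne : ∃ y ψ, 0 < eD G.D y ψ) (y : E) :
    (∃ k, mD G.D y k = 1 / 2) ∨ ∃ a, Sig G.D y a := by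
  choose k_ hk using fun n : ℕ => thmB hc G hne y (1 / ((n : ℝ) + 1)) (by positivity)
  have hk1 : ∀ n, vD G.D y (k_ n) ≤ 1 := fun n => (hk n).le.trans (by
    rw [div_le_one (by positivity)]
    have : (0 : ℝ) ≤ n := Nat.cast_nonneg n
    linarith)
  rcases seq_compact hc G hne (y_ := fun _ => y) (y := y) tendsto_const_nhds (k_ := k_) (C := 1)
    hk1 with ⟨φ, w, k, hφ, hw, hlim⟩ | ⟨φ, w, u_, u, s_, -, -, -, -, -, -, -, h⟩
  · left
    refine ⟨k, (vD_eq_zero_iff hc G hne y k).1 ?_⟩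
    have h1 : Tendsto (fun n => vD G.D y (w n * k_ (φ n))) atTop (𝓝 (vD G.D y k)) :=
      tendsto_two (F := vD G.D) (continuous_vD hc G hne) tendsto_const_nhds hlim
    have h2 : Tendsto (fun n => vD G.D y (w n * k_ (φ n))) atTop (𝓝 0) := by
      refine squeeze_zero (fun n => sq_nonneg _) (fun n => ?_)
        ((tendsto_one_div_add_atTop_nhds_zero_nat (𝕜 := ℝ)).comp hφ.tendsto_atTop)
      rw [vD_unitary hc G y (hw n)]
      exact (hk (φ n)).le
    exact tendsto_nhds_unique h1 h2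
  · exact Or.inr ⟨_, h⟩

/-- Limits of zeros. Proof. `seq_compact` with `C = 0` (`vD_of_half`). In the first case
`mD (y_ (φ n)) (w n * k_ (φ n)) = 1/2` (`mD_unitary`) and `continuous_mD`. -/
theorem half_limit (hc : Cst r0 L) (G : Geo E r0 L) (hne : ∃ y ψ, 0 < eD G.D y ψ)
    {y_ : ℕ → E} {y : E} (hy : Tendsto y_ atTop (𝓝 y)) {k_ : ℕ → SL}
    (h : ∀ n, mD G.D (y_ n) (k_ n) = 1 / 2) :
    (∃ (φ : ℕ → ℕ) (w : ℕ → SL) (k : SL), StrictMono φ ∧ (∀ n, IsU (w n)) ∧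
      Tendsto (fun n => w n * k_ (φ n)) atTop (𝓝 k) ∧ mD G.D y k = 1 / 2) ∨
    (∃ (φ : ℕ → ℕ) (w u_ : ℕ → SL) (u : SL) (s_ : ℕ → ℝ), StrictMono φ ∧ (∀ n, IsU (w n)) ∧
      (∀ n, IsU (u_ n)) ∧ IsU u ∧ Tendsto u_ atTop (𝓝 u) ∧ Tendsto s_ atTop atTop ∧
      (∀ n, w n * k_ (φ n) = dg (-(s_ n)) * u_ n) ∧ Sig G.D y (((u⁻¹ : SL) : M2) *ᵥ e1)) := by
  rcases seq_compact hc G hne hy (C := 0) (fun n => (vD_of_half (h n)).le) with
    ⟨φ, w, k, hφ, hw, hlim⟩ | h'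
  · left
    refine ⟨φ, w, k, hφ, hw, hlim, ?_⟩
    have h1 : Tendsto (fun n => mD G.D (y_ (φ n)) (w n * k_ (φ n))) atTop (𝓝 (mD G.D y k)) :=
      tendsto_two (F := mD G.D) (continuous_mD hc G) (hy.comp hφ.tendsto_atTop) hlim
    refine tendsto_nhds_unique h1 (tendsto_const_nhds.congr fun n => ?_)
    rw [mD_unitary hc G _ _ _ (hw n), h]
  · exact Or.inr h'

end HRK
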