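import Pool.Agent.HRK.S2

/-!
# HRK-S7 : transport of contact planes along the set of zeros
-/

namespace HRK

open Set Filter Topology Matrix

universe u

variable {E : Type u} [TopologicalSpace E] [T2Space E] [ConnectedSpace E] {r0 L c C : ℝ}

/-- The segment between two zeros consists of zeros.
Proof. `exists_KAK (k' * k⁻¹)`: `k' k⁻¹ = w * dg l * u`, so `k' = w * (dg l * (u * k))`. At `s = 0`
and `s = l` the value `v(y, dg s * (u*k))` is `0` (`mD_unitary`, `vD_of_half`, `dg_zero`), and for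
`s ∈ [0,l]` it is `≤ max 0 0` (`vD_le_max`) and `≥ 0`. `vD_eq_zero_iff`. -/
theorem half_segment (hc : Cst r0 L) (G : Geo E r0 L) (hne : ∃ y ψ, 0 < eD G.D y ψ) {y : E}
    {k k' : SL} (h : mD G.D y k = 1 / 2) (h' : mD G.D y k' = 1 / 2) :
    ∃ (w u : SL) (l : ℝ), IsU w ∧ IsU u ∧ 0 ≤ l ∧ k' = w * (dg l * (u * k)) ∧
      ∀ s ∈ Icc (0:ℝ) l, mD G.D y (dg s * (u * k)) = 1 / 2 := by
  obtain ⟨w, u, l, hw, hu, hl, hk⟩ := exists_KAK (k' * k⁻¹)
  have hk' : k' = w * (dg l * (u * k)) := by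
    have h1 : k' = (k' * k⁻¹) * k := by rw [inv_mul_cancel_right]
    rw [h1, hk]
    simp only [mul_assoc]
  refine ⟨w, u, l, hw, hu, hl, hk', ?_⟩
  have h0 : vD G.D y (u * k) = 0 := by
    rw [vD_unitary hc G y hu k]
    exact vD_of_half h
  have h1 : vD G.D y (dg l * (u * k)) = 0 := by
    rw [← vD_unitary hc G y hw (dg l * (u * k)), ← hk']
    exact vD_of_half h'
  intro s hs
  rw [← vD_eq_zero_iff hc G hne]
  refine le_antisymm ?_ (vD_nonneg _ _ _)
  have h2 := vD_le_max hc G hne y (u * k) hs.1 hs.2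
  rw [h0, h1, max_self] at h2
  exact h2

/-- small `s` give `dg s` near `1`. -/
theorem s7_dg_small {c4 : ℝ} (hc4 : 0 < c4) :
    ∃ δ > 0, ∀ s : ℝ, |s| < δ → nm ((dg s : M2) - 1) < c4 := by
  have hcont : Continuous fun s : ℝ => nm ((dg s : M2) - 1) :=
    continuous_nm.comp ((isEmbedding_coe.continuous.comp continuous_dg).sub continuous_const)
  have h0 : nm ((dg 0 : M2) - 1) < c4 := by
    rw [dg_zero, Matrix.SpecialLinearGroup.coe_one, sub_self, nm_zero]
    exact hc4
  have hev : ∀ᶠ s in 𝓝 (0:ℝ), nm ((dg s : M2) - 1) < c4 :=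
    hcont.continuousAt.eventually (isOpen_Iio.mem_nhds h0)
  obtain ⟨δ, hδ, hb⟩ := Metric.eventually_nhds_iff.mp hev
  refine ⟨δ, hδ, fun s hs => hb ?_⟩
  rw [Real.dist_eq, sub_zero]
  exact hs

/-- Transport along the zeros: a contact plane at `(y,k)` is a contact plane at every zero `k'`.
Proof. `half_segment`. Let `c4` be from `Ct_transport` and `δ > 0` with `nm (dg s - 1) < c4` for
`|s| ≤ δ` (`continuous_dg`, `dg_zero`), `N` with `l/N ≤ δ`. By induction on `j ≤ N`,
`Ct y (dg (j l/N) * (u * k)) P`: start: `Ct.unitary`, `dg_zero`. Step: `Ct_transport` with `g = 1`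
(`ac_one`, `pmv_one`), `k1 = dg (l/N)`, `dg_add`. At `j = N` use `Ct.unitary` with `w`. -/
theorem Ct_min (hc : Cst r0 L) (hV : VisPkg.{u} r0 L c C) (G : Geo E r0 L)
    (hne : ∃ y ψ, 0 < eD G.D y ψ) {y : E} {k k' : SL} {P : M2} (h : Ct G c C y k P)
    (h' : mD G.D y k' = 1 / 2) : Ct G c C y k' P := by
  obtain ⟨w, u, l, hw, hu, hl, hk', hz⟩ := half_segment hc G hne h.1 h'
  obtain ⟨c4, hc4, hT⟩ := Ct_transport hc hV
  obtain ⟨δ, hδ, hdg⟩ := s7_dg_small hc4
  obtain ⟨N, hN⟩ := exists_nat_gt (l / δ)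
  have hN0 : (0:ℝ) < N := lt_of_le_of_lt (div_nonneg hl hδ.le) hN
  have hNne : (N:ℝ) ≠ 0 := ne_of_gt hN0
  have hlN0 : 0 ≤ l / N := div_nonneg hl hN0.le
  have hlN : l / N < δ := by
    rw [div_lt_iff₀ hN0]
    rw [div_lt_iff₀ hδ] at hN
    linarith
  have hk1 : nm ((dg (l / N) : M2) - 1) < c4 := hdg _ (by rw [abs_of_nonneg hlN0]; exact hlN)
  have hind : ∀ j : ℕ, j ≤ N → Ct G c C y (dg (j * (l / N)) * (u * k)) P := by
    intro j
    induction j with
    | zero =>
      intro _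
      rw [Nat.cast_zero, zero_mul, dg_zero, one_mul]
      exact h.unitary hc hu
    | succ j ih =>
      intro hj
      have hjN : ((j + 1 : ℕ) : ℝ) ≤ N := by exact_mod_cast hj
      have h1 := ih (by omega)
      have hsum : dg (l / N) * (dg (j * (l / N)) * (u * k)) =
          dg (((j + 1 : ℕ) : ℝ) * (l / N)) * (u * k) := by
        rw [← mul_assoc, dg_add]
        congr 2
        push_cast
        ring
      have hone : (ac G.D y 1) = y := ac_one G.hD y
      have hg : nm (cj (dg (j * (l / N)) * (u * k)) (((1 : SL) : M2) - 1)) < c4 := by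
        rw [Matrix.SpecialLinearGroup.coe_one, sub_self, cj_zero, nm_zero]
        exact hc4
      have hm : mD G.D (ac G.D y 1) (dg (l / N) * (dg (j * (l / N)) * (u * k))) = 1 / 2 := by
        rw [hone, hsum]
        refine hz _ ⟨mul_nonneg (Nat.cast_nonneg _) hlN0, ?_⟩
        calc ((j + 1 : ℕ) : ℝ) * (l / N) ≤ N * (l / N) :=
              mul_le_mul_of_nonneg_right hjN hlN0
          _ = l := by field_simp
      have h2 := hT E G y _ P h1 1 (dg (l / N)) hg hk1 hm
      rw [hone, hsum, pmv_one h.isPl] at h2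
      exact h2
  have hfin := (hind N le_rfl).unitary hc hw
  have hlast : (N:ℝ) * (l / N) = l := by field_simp
  rw [hlast, ← hk'] at hfin
  exact hfin

end HRK
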