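import Pool.Agent.HRK.S6b
import Pool.Agent.HRK.S4

/-!
# HRK-S9a : zeros at nearby points
-/

namespace HRK

open Set Filter Topology Matrix

universe u

variable {E : Type u} [TopologicalSpace E] [T2Space E] [ConnectedSpace E] {r0 L : ℝ}

/-- `ac D y g → y` for `g → 1`. Proof. `continuousOn_ac`, `isOpen_StGraph`, `ac_one`. -/
theorem tendsto_ac_one {E : Type u} [TopologicalSpace E] [T2Space E] {D : E → SL}
    (hD : IsLocalHomeomorph (Dh D)) (y : E) :
    Tendsto (fun g : SL => ac D y g) (𝓝 1) (𝓝 y) := by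
  have hcoe : Continuous (fun g : SL => (g : M2) - 1) :=
    isEmbedding_coe.continuous.sub continuous_const
  have h0 : (((1 : SL) : M2) - 1) ∈ St D y := by
    rw [Matrix.SpecialLinearGroup.coe_one, sub_self]
    exact zero_mem_St y
  have hat : ContinuousAt (mvp D y) (((1 : SL) : M2) - 1) :=
    (continuousOn_mvp_right hD y).continuousAt ((isOpen_St hD y).mem_nhds h0)
  have h1 : ContinuousAt (fun g : SL => mvp D y ((g : M2) - 1)) 1 :=
    ContinuousAt.comp (f := fun g : SL => (g : M2) - 1) (g := mvp D y) hat hcoe.continuousAt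
  have h2 : Tendsto (fun g : SL => ac D y g) (𝓝 1) (𝓝 (ac D y 1)) := h1
  rw [ac_one hD y] at h2
  exact h2

/-- Sequence of zeros at `y.g_ n`, `y ∈ Ω₀`.
Proof. `y_ n = ac D y (g_ n) → y` (`tendsto_ac_one`), `Om0` is open (`isOpen_Om0`), so for large `n`
`y_ n ∈ Om0` and `exists_half_or_Sig` gives a zero `k_ n`. Shift the sequence (`n + N`), apply
`half_limit`; the second alternative is excluded by `y ∈ Om0`. -/
theorem zeros_near (hc : Cst r0 L) (G : Geo E r0 L) (hne : ∃ y ψ, 0 < eD G.D y ψ) {y : E}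
    (hy : y ∈ Om0 G.D) {g_ : ℕ → SL} (hg : Tendsto g_ atTop (𝓝 1)) :
    ∃ (φ : ℕ → ℕ) (k_ : ℕ → SL) (k : SL), StrictMono φ ∧
      (∀ n, mD G.D (ac G.D y (g_ (φ n))) (k_ n) = 1 / 2) ∧ Tendsto k_ atTop (𝓝 k) := by
  have hlim : Tendsto (fun n => ac G.D y (g_ n)) atTop (𝓝 y) := (tendsto_ac_one G.hD y).comp hg
  have hev : ∀ᶠ n in atTop, ac G.D y (g_ n) ∈ Om0 G.D :=
    hlim.eventually ((isOpen_Om0 hc G hne).mem_nhds hy)
  obtain ⟨N, hN⟩ := eventually_atTop.mp hev
  have hex : ∀ n : ℕ, ∃ k, mD G.D (ac G.D y (g_ (n + N))) k = 1 / 2 := by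
    intro n
    rcases exists_half_or_Sig hc G hne (ac G.D y (g_ (n + N))) with h | ⟨a, ha⟩
    · exact h
    · exact absurd ha (hN (n + N) (Nat.le_add_left N n) a)
  choose kk hkk using hex
  have hlim' : Tendsto (fun n => ac G.D y (g_ (n + N))) atTop (𝓝 y) :=
    hlim.comp (tendsto_add_atTop_nat N)
  rcases half_limit hc G hne hlim' hkk with
    ⟨φ, w, k, hφ, hw, hk, -⟩ | ⟨φ, w, u_, u, s_, -, -, -, -, -, -, -, hS⟩
  · refine ⟨fun n => φ n + N, fun n => w n * kk (φ n), k, ?_, ?_, hk⟩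
    · intro a b hab
      exact Nat.add_lt_add_right (hφ hab) N
    · intro n
      have h1 := mD_unitary hc G (ac G.D y (g_ (φ n + N))) (kk (φ n)) (w n) (hw n)
      exact h1.trans (hkk (φ n))
  · exact absurd hS (hy _)

end HRK
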