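import Pool.Agent.HRK.CrdA
import Pool.Agent.HRK.B1

/-!
# HRK-VolA : the cone over `SL`, the measure `nuS`

The map `(x, z) ↦ e^z x` from `SL × ℂ` to `M₂` is a local homeomorphism (`isLocalHomeomorph_expmul`,
file B1) and injective on `SL × {|z| < 1}`: `e^z x = e^z' x'` gives (determinants)
`e^{2z} = e^{2z'}`, `2z - 2z' ∈ 2πi ℤ`, and `|2z - 2z'| < 4 < 2π`, so `z = z'`, `x = x'`.
-/

namespace HRK

open Set Filter Topology Matrix MeasureTheory

theorem expmul_inj {x x' : SL} {z z' : ℂ} (hz : ‖z‖ < 1) (hz' : ‖z'‖ < 1)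
    (h : Complex.exp z • (x : M2) = Complex.exp z' • (x' : M2)) : z = z' ∧ x = x' := by
  have hd := congrArg Matrix.det h
  rw [Matrix.det_smul, Matrix.det_smul, Fintype.card_fin] at hd
  have h1 : (x : M2).det = 1 := x.2
  have h1' : (x' : M2).det = 1 := x'.2
  rw [h1, h1', mul_one, mul_one, ← Complex.exp_nat_mul, ← Complex.exp_nat_mul,
    Complex.exp_eq_exp_iff_exists_int] at hd
  obtain ⟨n, hn⟩ := hd
  have hn0 : n = 0 := by
    by_contra hne
    have h2 : ‖(2 : ℂ) * z - 2 * z'‖ = |(n : ℝ)| * (2 * Real.pi) := by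
      have e : (2 : ℂ) * z - 2 * z' = (n : ℂ) * (2 * Real.pi * Complex.I) := by
        have h3 := hn
        push_cast at h3
        rw [h3]
        ring
      rw [e, norm_mul, norm_mul, Complex.norm_I, mul_one, norm_mul, Complex.norm_real]
      rw [Real.norm_of_nonneg Real.pi_pos.le]
      congr 1
      · rw [← Complex.ofReal_intCast, Complex.norm_real, Real.norm_eq_abs]
      · simp
    have h4 : ‖(2 : ℂ) * z - 2 * z'‖ < 4 := by
      calc ‖(2 : ℂ) * z - 2 * z'‖ ≤ ‖(2 : ℂ) * z‖ + ‖2 * z'‖ := norm_sub_le _ _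
        _ = 2 * ‖z‖ + 2 * ‖z'‖ := by rw [norm_mul, norm_mul]; simp
        _ < 4 := by linarith
    have h5 : (1 : ℝ) ≤ |(n : ℝ)| := by
      rw [← Int.cast_abs]
      exact_mod_cast Int.one_le_abs hne
    have h6 := Real.pi_gt_three
    nlinarith
  rw [hn0] at hn
  have hz0 : z = z' := by
    have h3 := hn
    push_cast at h3
    rw [zero_mul, add_zero] at h3
    exact mul_left_cancel₀ (two_ne_zero) h3
  refine ⟨hz0, ?_⟩
  rw [hz0] at h
  apply Subtype.ext
  exact smul_right_injective M2 (Complex.exp_ne_zero z') h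

/-- Proof. `cone B` is the preimage under the homeomorphism `Cl` of the image of the open set
`B ×ˢ {|z| < 1}` under the open map `(x, z) ↦ e^z x`. -/
theorem isOpen_cone {B : Set SL} (hB : IsOpen B) : IsOpen (cone B) := by
  have h1 : IsOpen ((fun p : SL × ℂ => Complex.exp p.2 • (p.1 : M2)) ''
      (B ×ˢ Metric.ball (0 : ℂ) 1)) :=
    isLocalHomeomorph_expmul.isOpenMap _ (hB.prod Metric.isOpen_ball)
  have e : cone B = Cl ⁻¹' ((fun p : SL × ℂ => Complex.exp p.2 • (p.1 : M2)) ''
      (B ×ˢ Metric.ball (0 : ℂ) 1)) := by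
    ext p
    constructor
    · rintro ⟨x, hx, z, hz, h⟩
      exact ⟨(x, z), ⟨hx, by simpa using hz⟩, h.symm⟩
    · rintro ⟨⟨x, z⟩, ⟨hx, hz⟩, h⟩
      exact ⟨x, hx, z, by simpa using hz, h.symm⟩
  rw [e]
  exact h1.preimage isHomeomorph_Cl.continuous

theorem kap_eq {p : V × V} {x : SL} {z : ℂ} (hz : ‖z‖ < 1) (h : Cl p = Complex.exp z • (x : M2)) :
    kap p = x := by
  have hex : ∃ x : SL, ∃ z : ℂ, ‖z‖ < 1 ∧ Cl p = Complex.exp z • (x : M2) := ⟨x, z, hz, h⟩
  have hk : kap p = Classical.choose hex := by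
    unfold kap
    rw [dif_pos hex]
  obtain ⟨z', hz', h'⟩ := Classical.choose_spec hex
  rw [hk]
  exact (expmul_inj hz' hz (h'.symm.trans h)).2

theorem mem_cone_iff {B : Set SL} {p : V × V} : p ∈ cone B ↔ p ∈ cone univ ∧ kap p ∈ B := by
  constructor
  · rintro ⟨x, hx, z, hz, h⟩
    refine ⟨⟨x, mem_univ _, z, hz, h⟩, ?_⟩
    rw [kap_eq hz h]
    exact hx
  · rintro ⟨⟨x, _, z, hz, h⟩, hk⟩
    rw [kap_eq hz h] at hk
    exact ⟨x, hk, z, hz, h⟩

theorem vola_cone_eq (B : Set SL) : cone B = cone univ ∩ kap ⁻¹' B := by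
  ext p
  rw [mem_cone_iff]
  rfl

/-- Proof. For `B` open, `kap ⁻¹' B ∩ cone univ = cone B` is open. -/
theorem continuousOn_kap : ContinuousOn kap (cone univ) := by
  rw [continuousOn_open_iff (isOpen_cone isOpen_univ)]
  intro t ht
  rw [← vola_cone_eq]
  exact isOpen_cone ht

theorem vola_kap_of_not_mem {p : V × V} (hp : p ∉ cone univ) : kap p = 1 := by
  unfold kap
  rw [dif_neg]
  rintro ⟨x, z, hz, h⟩
  exact hp ⟨x, mem_univ _, z, hz, h⟩

/-- Proof. Continuous on the open set `cone univ`, constant (`= 1`) on the complement. -/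
theorem measurable_kap : Measurable kap := by
  apply measurable_of_isOpen
  intro B hB
  have hU : MeasurableSet (cone (univ : Set SL)) := (isOpen_cone isOpen_univ).measurableSet
  by_cases h1 : (1 : SL) ∈ B
  · have e : kap ⁻¹' B = cone B ∪ (cone univ)ᶜ := by
      ext p
      constructor
      · intro hp
        by_cases hc : p ∈ cone univ
        · left
          exact mem_cone_iff.2 ⟨hc, hp⟩
        · right
          exact hc
      · rintro (hp | hp)
        · exact (mem_cone_iff.1 hp).2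
        · change kap p ∈ B
          rw [vola_kap_of_not_mem hp]
          exact h1
    rw [e]
    exact (isOpen_cone hB).measurableSet.union hU.compl
  · have e : kap ⁻¹' B = cone B := by
      ext p
      constructor
      · intro hp
        by_cases hc : p ∈ cone univ
        · exact mem_cone_iff.2 ⟨hc, hp⟩
        · exfalso
          apply h1
          rw [← vola_kap_of_not_mem hc]
          exact hp
      · intro hp
        exact (mem_cone_iff.1 hp).2
    rw [e]
    exact (isOpen_cone hB).measurableSet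

theorem measurableSet_cone {B : Set SL} (hB : MeasurableSet B) : MeasurableSet (cone B) := by
  rw [vola_cone_eq]
  exact (isOpen_cone isOpen_univ).measurableSet.inter (measurable_kap hB)

/-- Proof. `Measure.map_apply`, `Measure.restrict_apply`, `mem_cone_iff`. -/
theorem nuS_apply {B : Set SL} (hB : MeasurableSet B) : nuS B = volume (cone B) := by
  unfold nuS
  rw [Measure.map_apply measurable_kap hB, Measure.restrict_apply (measurable_kap hB),
    vola_cone_eq B, inter_comm]

/-- Proof. `cone B` is a nonempty open set of `V × V` (it contains `Cl⁻¹ x`, `x ∈ B`, `z = 0`);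
`IsOpen.measure_pos`. -/
theorem nuS_pos {B : Set SL} (hB : IsOpen B) (hne : B.Nonempty) : 0 < nuS B := by
  rw [nuS_apply hB.measurableSet]
  refine (isOpen_cone hB).measure_pos volume ?_
  obtain ⟨x, hx⟩ := hne
  exact ⟨((x : M2) *ᵥ e1, (x : M2) *ᵥ e2), x, hx, 0, by simp, by rw [Cl_cols]; simp⟩

/-- Proof. `B` is compact so its entries are bounded; `|e^z| ≤ e`; so `cone B` is bounded and its
volume is finite (`Bornology.IsBounded.measure_lt_top`). `B` is closed (SL is Hausdorff), so
measurable. -/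
theorem nuS_lt_top {B : Set SL} (hB : IsCompact B) : nuS B < ⊤ := by
  have : T2Space SL := isEmbedding_coe.t2Space
  have hm : MeasurableSet B := hB.isClosed.measurableSet
  rw [nuS_apply hm]
  have hcol : ∀ w : V, Continuous fun q : SL × ℂ => Complex.exp q.2 • ((q.1 : M2) *ᵥ w) := by
    intro w
    have c1 : Continuous fun q : SL × ℂ => Complex.exp q.2 :=
      Complex.continuous_exp.comp continuous_snd
    have c2 : Continuous fun q : SL × ℂ => ((q.1 : M2) *ᵥ w) :=
      Continuous.matrix_mulVec (isEmbedding_coe.continuous.comp continuous_fst) continuous_const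
    have c3 := Continuous.smul c1 c2
    exact c3
  have hc : IsCompact ((fun q : SL × ℂ => ((Complex.exp q.2 • ((q.1 : M2) *ᵥ e1),
      Complex.exp q.2 • ((q.1 : M2) *ᵥ e2)) : V × V)) '' (B ×ˢ Metric.closedBall (0 : ℂ) 1)) := by
    apply IsCompact.image
    · exact hB.prod (isCompact_closedBall _ _)
    · exact (hcol e1).prodMk (hcol e2)
  refine lt_of_le_of_lt (measure_mono ?_) hc.measure_lt_top
  rintro p ⟨x, hx, z, hz, h⟩
  refine ⟨(x, z), ⟨hx, by simpa using hz.le⟩, ?_⟩
  apply Cl_injective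
  rw [h]
  change Cl (Complex.exp z • ((x : M2) *ᵥ e1), Complex.exp z • ((x : M2) *ᵥ e2)) = _
  have e : ((Complex.exp z • ((x : M2) *ᵥ e1), Complex.exp z • ((x : M2) *ᵥ e2)) : V × V) =
      Complex.exp z • ((x : M2) *ᵥ e1, (x : M2) *ᵥ e2) := rfl
  rw [e, Cl_smul, Cl_cols]

end HRK
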