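import Pool.Agent.HRK.VolA

/-!
# HRK-VolB : `nuS` is bi-invariant

`L X = A X B` (`A, B ∈ SL`) as an `ℝ`-linear map of `V × V` (pairs of columns, through `Cl`). Its
real determinant is `1` in absolute value: it is complex linear, `|det_ℝ| = |det_ℂ|²`
(`LinearMap.det_restrictScalars`, `Algebra.norm ℝ z = |z|²`: `Complex` norm lemma
`Algebra.norm_complex_apply`), and `det_ℂ = (det A)² (det B)² = 1`. One way: treat the left and right
multiplications separately. Left: `(v, w) ↦ (A v, A w)`: the determinant is `det A ^ 2`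
(`LinearMap.det_prodMap`, `LinearMap.det_toLin'`). Right by `B = [[a, b],[c, d]]`:
`(v, w) ↦ (a v + c w, b v + d w)`. Either compute the determinant of the explicit `4 × 4` matrix, or:
`B` is a product of matrices `[[1, t],[0, 1]]`, `[[1, 0],[t, 1]]`
(shears `(v, w) ↦ (v, w + t v)`, `(v + t w, w)`, which preserve the measure:
`MeasurePreserving.skew_product` or `LinearMap.det` of a triangular map), or: every group
homomorphism from the (perfect) group `SL(2,ℂ)` to the positive reals is trivial.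
Then `Measure.addHaar_image_linearMap`.
-/

namespace HRK

open Set Filter Topology Matrix MeasureTheory

/-- the transposition of pairs of columns. -/
def vb_T : (V × V) ≃ₗ[ℂ] (V × V) where
  toFun p := (![p.1 0, p.2 0], ![p.1 1, p.2 1])
  invFun p := (![p.1 0, p.2 0], ![p.1 1, p.2 1])
  map_add' p q := by
    ext i <;> fin_cases i <;> simp
  map_smul' c p := by
    ext i <;> fin_cases i <;> simp
  left_inv p := by
    ext i <;> fin_cases i <;> simp
  right_inv p := by
    ext i <;> fin_cases i <;> simp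

/-- left multiplication on pairs of columns. -/
noncomputable def vb_L (A : M2) : (V × V) →ₗ[ℂ] (V × V) :=
  (Matrix.toLin' A).prodMap (Matrix.toLin' A)

theorem vb_L_apply (A : M2) (p : V × V) : vb_L A p = (A *ᵥ p.1, A *ᵥ p.2) := by
  simp [vb_L]

theorem vb_det_L (A : M2) : LinearMap.det (vb_L A) = A.det * A.det := by
  rw [vb_L, LinearMap.det_prodMap, LinearMap.det_toLin']

/-- right multiplication on pairs of columns. -/
noncomputable def vb_R (B : M2) : (V × V) →ₗ[ℂ] (V × V) :=
  (vb_T : (V × V) →ₗ[ℂ] (V × V)) ∘ₗ vb_L Bᵀ ∘ₗ (vb_T.symm : (V × V) →ₗ[ℂ] (V × V))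

theorem vb_R_apply (B : M2) (p : V × V) : vb_R B p =
    ((Cl p * B) *ᵥ e1, (Cl p * B) *ᵥ e2) := by
  have h : vb_R B p = vb_T (vb_L Bᵀ (vb_T.symm p)) := rfl
  rw [h, vb_L_apply]
  show ((![_, _] : V), (![_, _] : V)) = _
  ext i <;> fin_cases i <;>
    simp [vb_T, Cl, e1, e2, Matrix.mulVec, dotProduct, Fin.sum_univ_two, Matrix.mul_apply] <;>
    ring

theorem vb_det_R (B : M2) : LinearMap.det (vb_R B) = B.det * B.det := by
  rw [vb_R, LinearMap.det_conj, vb_det_L, Matrix.det_transpose]

theorem vb_det_real (f : (V × V) →ₗ[ℂ] (V × V)) (h : LinearMap.det f = 1) :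
    LinearMap.det (f.restrictScalars ℝ) = 1 := by
  rw [LinearMap.det_restrictScalars, h]
  simp

/-- the map `X ↦ A X B` on pairs of columns. -/
noncomputable def vb_F (A B : SL) : (V × V) →ₗ[ℂ] (V × V) := vb_L (A : M2) ∘ₗ vb_R (B : M2)

theorem vb_F_apply (A B : SL) (p : V × V) : vb_F A B p =
    (((A : M2) * Cl p * (B : M2)) *ᵥ e1, ((A : M2) * Cl p * (B : M2)) *ᵥ e2) := by
  have h : vb_F A B p = vb_L (A : M2) (vb_R (B : M2) p) := rfl
  rw [h, vb_R_apply, vb_L_apply]
  simp only [Matrix.mulVec_mulVec, Matrix.mul_assoc]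

theorem vb_det_F (A B : SL) : LinearMap.det (vb_F A B) = 1 := by
  rw [vb_F, LinearMap.det_comp, vb_det_L, vb_det_R, A.2, B.2]
  norm_num

/-- Proof. See above. -/
theorem volume_image_mul (A B : SL) (S : Set (V × V)) :
    volume ((fun p : V × V => ((((A : M2) * Cl p * (B : M2)) *ᵥ e1,
      ((A : M2) * Cl p * (B : M2)) *ᵥ e2) : V × V)) '' S) = volume S := by
  have h1 : (fun p : V × V => ((((A : M2) * Cl p * (B : M2)) *ᵥ e1,
      ((A : M2) * Cl p * (B : M2)) *ᵥ e2) : V × V)) = (vb_F A B).restrictScalars ℝ := by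
    funext p
    exact (vb_F_apply A B p).symm
  have : (volume : Measure (V × V)).IsAddHaarMeasure :=
    Measure.prod.instIsAddHaarMeasure (volume : Measure V) (volume : Measure V)
  rw [h1, Measure.addHaar_image_linearMap, vb_det_real _ (vb_det_F A B)]
  simp

/-- `cone (A S B)` is the image of `cone S`; the image of a measurable set under the homeomorphism
`x ↦ A x B` is measurable. -/
theorem nuS_image_mul (A B : SL) {S : Set SL} (hS : MeasurableSet S) :
    MeasurableSet ((fun x : SL => A * x * B) '' S) ∧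
      nuS ((fun x : SL => A * x * B) '' S) = nuS S := by
  have hm : MeasurableSet ((fun x : SL => A * x * B) '' S) := by
    have h1 : (fun x : SL => A * x * B) = (Homeomorph.mulLeft A).trans (Homeomorph.mulRight B) := by
      funext x
      rfl
    rw [h1]
    exact (((Homeomorph.mulLeft A).trans (Homeomorph.mulRight B)).measurableEmbedding).measurableSet_image.2 hS
  refine ⟨hm, ?_⟩
  rw [nuS_apply hm, nuS_apply hS, ← volume_image_mul A B (cone S)]
  congr 1
  ext p
  constructor
  · rintro ⟨_, ⟨x, hx, rfl⟩, z, hz, hp⟩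
    refine ⟨((Complex.exp z • (x : M2)) *ᵥ e1, (Complex.exp z • (x : M2)) *ᵥ e2),
      ⟨x, hx, z, hz, Cl_cols _⟩, ?_⟩
    apply Cl_injective
    show Cl (((A : M2) * Cl _ * (B : M2)) *ᵥ e1, ((A : M2) * Cl _ * (B : M2)) *ᵥ e2) = _
    rw [Cl_cols, Cl_cols, hp]
    simp only [Matrix.SpecialLinearGroup.coe_mul, Matrix.mul_smul, Matrix.smul_mul]
  · rintro ⟨q, ⟨x, hx, z, hz, hq⟩, rfl⟩
    refine ⟨A * x * B, ⟨x, hx, rfl⟩, z, hz, ?_⟩
    show Cl (((A : M2) * Cl q * (B : M2)) *ᵥ e1, ((A : M2) * Cl q * (B : M2)) *ᵥ e2) = _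
    rw [Cl_cols, hq]
    simp only [Matrix.SpecialLinearGroup.coe_mul, Matrix.mul_smul, Matrix.smul_mul]

end HRK
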