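import Pool.Agent.HRK.CrdB

/-!
# HRK-VolD1 : boxes in the coordinates `(v, b)` of `SL`

`O ⊆ SL` open, `c` continuous on `O` with `c (x (1 + b E₁₂)) = c x - b`. `vb` is an open embedding
with inverse `Qc` (file CrdB): `vb '' O` is an open neighbourhood of `(v₀, b₀) = vb x0` contained in
`{p.1 ≠ 0}`: it contains a product `B₁ ×ˢ B₂` of open balls. For `v ∈ B₁` put
`C v = c (Qc v b₀) + b₀`, continuous on `B₁` (`continuousOn_Qc`). For `b ∈ B₂`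
`Qc v b = Qc v b₀ * uni (b - b₀) e1` (`Qc_mul_uni`) is in `O`, so `c (Qc v b) = c (Qc v b₀) - (b - b₀)`.
-/

namespace HRK

open Set Filter Topology Matrix

/-- the box: `c (Qc v b) = C v - b`. -/
theorem exists_box {O : Set SL} (hO : IsOpen O) {x0 : SL} (hx0 : x0 ∈ O) {c : SL → ℂ}
    (hc : ContinuousOn c O)
    (hcu : ∀ x ∈ O, ∀ b : ℂ, x * uni b e1 ∈ O → c (x * uni b e1) = c x - b) :
    ∃ (B1 : Set V) (B2 : Set ℂ) (C : V → ℂ), IsOpen B1 ∧ IsOpen B2 ∧ (0 : V) ∉ B1 ∧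
      (vb x0).1 ∈ B1 ∧ (vb x0).2 ∈ B2 ∧ ContinuousOn C B1 ∧
      ∀ v ∈ B1, ∀ b ∈ B2, Qc v b ∈ O ∧ c (Qc v b) = C v - b := by
  have hopen : IsOpen (vb '' O) := isOpenEmbedding_vb.isOpenMap O hO
  obtain ⟨B1, B2, h1, h2, hx1, hx2, hsub⟩ := isOpen_prod_iff.mp hopen (vb x0).1 (vb x0).2
    (mem_image_of_mem vb hx0)
  have h0 : (0 : V) ∉ B1 := by
    intro h
    have h3 : ((0 : V), (vb x0).2) ∈ vb '' O := hsub ⟨h, hx2⟩
    obtain ⟨x, -, hx⟩ := h3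
    have h4 : ((0 : V), (vb x0).2) ∈ range vb := ⟨x, hx⟩
    rw [range_vb] at h4
    exact h4 rfl
  have hQ : ∀ v ∈ B1, ∀ b ∈ B2, Qc v b ∈ O := by
    intro v hv b hb
    obtain ⟨x, hx, hxe⟩ := hsub (show (v, b) ∈ B1 ×ˢ B2 from ⟨hv, hb⟩)
    have h3 := Qc_vb x
    rw [hxe] at h3
    change Qc v b = x at h3
    rw [h3]
    exact hx
  have hne : ∀ v ∈ B1, v ≠ 0 := by
    intro v hv h
    rw [h] at hv
    exact h0 hv
  refine ⟨B1, B2, fun v => c (Qc v (vb x0).2) + (vb x0).2, h1, h2, h0, hx1, hx2, ?_, ?_⟩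
  · have h3 : ContinuousOn (fun v : V => Qc v (vb x0).2) B1 :=
      continuousOn_Qc.comp (f := fun v : V => (v, (vb x0).2)) (by fun_prop) (fun v hv => hne v hv)
    exact (hc.comp h3 (fun v hv => hQ v hv _ hx2)).add continuousOn_const
  · intro v hv b hb
    refine ⟨hQ v hv b hb, ?_⟩
    have h3 := Qc_mul_uni (hne v hv) (vb x0).2 (b - (vb x0).2)
    rw [add_sub_cancel] at h3
    have h4 := hcu _ (hQ v hv _ hx2) (b - (vb x0).2) (by
      rw [h3]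
      exact hQ v hv b hb)
    rw [h3] at h4
    rw [h4]
    ring

end HRK
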