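import Pool.Agent.HRK.VolE

/-!
# HRK-VolG1 : fundamental domains
-/

namespace HRK

open Set Filter Topology Matrix MeasureTheory

variable {Γ E : Type*} [Group Γ] [TopologicalSpace E] [T2Space E] [MulAction Γ E]

/-- every point has a relatively compact open neighbourhood disjoint from its translates by
`γ ≠ 1`. Proof. Let `x ∈ U ⊆ C`, `U` open, `C` compact. The finitely many `γ ≠ 1` with
`γ C ∩ C ≠ ∅` (`S.pd`) satisfy `γ x ≠ x` (`S.free`): by Hausdorff and continuity shrink `U`. -/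
theorem Dev.exists_small (S : Dev Γ E) (x : E) : ∃ U C : Set E, IsOpen U ∧ x ∈ U ∧ U ⊆ C ∧
    IsCompact C ∧ ∀ (γ : Γ) (y : E), y ∈ U → γ • y ∈ U → γ = 1 := by
  classical
  have : LocallyCompactSpace E := locallyCompact_of_localHomeo S.hD
  obtain ⟨C, hC, hCx⟩ := exists_compact_mem_nhds x
  have hfin := S.pd C hC
  set T : Finset Γ := hfin.toFinset.filter (fun γ => γ ≠ 1) with hT
  have key : ∀ γ : Γ, γ ≠ 1 → ∃ N : Set E, IsOpen N ∧ x ∈ N ∧ ∀ y ∈ N, γ • y ∉ N := by
    intro γ hγ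
    have hne : γ • x ≠ x := fun h => hγ (S.free γ x h)
    obtain ⟨W, U, hW, hU, hxW, hxU, hd⟩ := t2_separation hne
    refine ⟨U ∩ (fun y => γ • y) ⁻¹' W, hU.inter (hW.preimage (S.cont γ)), ⟨hxU, hxW⟩, ?_⟩
    rintro y ⟨_, hy2⟩ ⟨hy3, _⟩
    exact (Set.disjoint_left.1 hd) hy2 hy3
  choose! N hNo hNx hN using key
  refine ⟨interior C ∩ ⋂ γ ∈ T, N γ, C, ?_, ?_, ?_, hC, ?_⟩
  · refine isOpen_interior.inter (isOpen_biInter_finset ?_)
    intro γ hγ
    rw [hT, Finset.mem_filter] at hγ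
    exact hNo γ hγ.2
  · refine ⟨mem_interior_iff_mem_nhds.2 hCx, ?_⟩
    simp only [mem_iInter]
    intro γ hγ
    rw [hT, Finset.mem_filter] at hγ
    exact hNx γ hγ.2
  · exact inter_subset_left.trans interior_subset
  · intro γ y hy hγy
    by_contra hne
    have hmem : γ ∈ T := by
      rw [hT, Finset.mem_filter]
      refine ⟨hfin.mem_toFinset.2 ⟨y, interior_subset hy.1, interior_subset hγy.1⟩, hne⟩
    have h1 : y ∈ N γ := by
      have := hy.2
      simp only [mem_iInter] at this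
      exact this γ hmem
    have h2 : γ • y ∈ N γ := by
      have := hγy.2
      simp only [mem_iInter] at this
      exact this γ hmem
    exact hN γ hne y h1 h2

/-- a Borel fundamental domain contained in a compact set. Proof. Cover `S.K` by finitely many sets
`U i` as in `exists_small`, `i < n`. `F = ⋃_i (U i \ ⋃_{j < i} ⋃_γ γ U j)` (the sets `⋃_γ γ U j` are
open). Every orbit meets `S.K`, so some `U i`; take the least `i` such that the orbit meets `U i`.
If `x, γ x ∈ F`, `x` in the `i`-th piece and `γ x` in the `j`-th piece then `i = j` (the orbit of `x`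
does not meet `U l` for `l < i`, nor for `l < j`), so `γ = 1`. -/
theorem Dev.exists_fd (S : Dev Γ E) [MeasurableSpace E] [BorelSpace E] :
    ∃ F C : Set E, MeasurableSet F ∧ IsCompact C ∧ F ⊆ C ∧ (∀ x, ∃ γ : Γ, γ • x ∈ F) ∧
      ∀ (γ : Γ) (x : E), x ∈ F → γ • x ∈ F → γ = 1 := by
  classical
  choose U C hUo hxU hUC hC hU using S.exists_small
  obtain ⟨t, _, ht⟩ := S.hK.elim_nhds_subcover U (fun x _ => (hUo x).mem_nhds (hxU x))
  -- enumerate `t`
  set n := t.card
  let e : Fin n ≃ t := t.equivFin.symm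
  let p : Fin n → E := fun i => (e i : E)
  have hcov : ∀ x ∈ S.K, ∃ i : Fin n, x ∈ U (p i) := by
    intro x hx
    have := ht hx
    simp only [mem_iUnion] at this
    obtain ⟨y, hy, hxy⟩ := this
    refine ⟨e.symm ⟨y, hy⟩, ?_⟩
    simpa [p] using hxy
  let O : Fin n → Set E := fun j => {x | ∃ γ : Γ, γ • x ∈ U (p j)}
  have hO : ∀ j, IsOpen (O j) := by
    intro j
    have : O j = ⋃ γ : Γ, (fun x => γ • x) ⁻¹' U (p j) := by
      ext x; simp [O]
    rw [this]
    exact isOpen_iUnion fun γ => (hUo _).preimage (S.cont γ)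
  let F : Set E := ⋃ i : Fin n, (U (p i) \ ⋃ j : Fin n, ⋃ _ : j < i, O j)
  refine ⟨F, ⋃ i : Fin n, C (p i), ?_, ?_, ?_, ?_, ?_⟩
  · refine MeasurableSet.iUnion fun i => ?_
    refine (hUo _).measurableSet.diff ?_
    exact (isOpen_iUnion fun j => isOpen_iUnion fun _ => hO j).measurableSet
  · exact isCompact_iUnion fun i => hC _
  · refine iUnion_mono fun i => ?_
    exact sdiff_subset.trans (hUC _)
  · intro x
    -- the least `i` such that the orbit of `x` meets `U i`
    have hex : ∃ i : ℕ, ∃ h : i < n, x ∈ O ⟨i, h⟩ := by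
      obtain ⟨γ, hγ⟩ := S.cover x
      obtain ⟨i, hi⟩ := hcov _ hγ
      exact ⟨i, i.2, γ, hi⟩
    obtain ⟨hlt, γ, hγ⟩ := Nat.find_spec hex
    refine ⟨γ, ?_⟩
    refine mem_iUnion.2 ⟨⟨Nat.find hex, hlt⟩, hγ, ?_⟩
    simp only [mem_iUnion, not_exists]
    rintro j hj ⟨δ, hδ⟩
    refine Nat.find_min hex (m := j) hj ⟨j.2, δ * γ, ?_⟩
    rw [mul_smul]
    exact hδ
  · intro γ x hx hγx
    obtain ⟨i, hxi, hi⟩ := mem_iUnion.1 hx
    obtain ⟨j, hxj, hj⟩ := mem_iUnion.1 hγx
    simp only [mem_iUnion, not_exists] at hi hj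
    have hOi : x ∈ O j := ⟨γ, hxj⟩
    have hOj : γ • x ∈ O i := ⟨γ⁻¹, by rw [inv_smul_smul]; exact hxi⟩
    have hij : i = j := by
      rcases lt_trichotomy i j with h | h | h
      · exact absurd hOj (hj i h)
      · exact h
      · exact absurd hOi (hi j h)
    subst hij
    exact hU _ γ x hxi hxj

end HRK
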