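import Pool.Agent.HRK.N5

/-!
# HRK-X1 : pure matrix lemmas for exact visibility
-/

namespace HRK

open Set Filter Topology Matrix

theorem X1_inv_coe {u : SL} (hu : IsU u) : ((u⁻¹ : SL) : M2) = (u : M2)ᴴ := by
  have h1 : (u : M2)ᴴ * ((u : M2) * ((u⁻¹ : SL) : M2)) = (u : M2)ᴴ := by
    rw [coe_mul_inv, mul_one]
  rw [← Matrix.mul_assoc, show (u : M2)ᴴ * (u : M2) = 1 from hu, one_mul] at h1
  exact h1

theorem X1_herm_cj {u : SL} (hu : IsU u) {P : M2} (h : P.IsHermitian) : (cj u P).IsHermitian := by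
  unfold cj
  rw [X1_inv_coe hu]
  exact Matrix.isHermitian_mul_mul_conjTranspose (u : M2) h

theorem X1_cj_inv (u : SL) (P : M2) : cj u⁻¹ (cj u P) = P := by
  rw [cj_cj, inv_mul_cancel, one_cj]

theorem X1_herm_of_cj {u : SL} (hu : IsU u) {P : M2} (h : (cj u P).IsHermitian) :
    P.IsHermitian := by
  have h1 := X1_herm_cj (IsU_inv hu) h
  rwa [X1_cj_inv] at h1

theorem X1_mulVec_inv (u : SL) (v : V) : (u : M2) *ᵥ (((u⁻¹ : SL) : M2) *ᵥ v) = v := by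
  rw [Matrix.mulVec_mulVec, coe_mul_inv, Matrix.one_mulVec]

theorem X1_inv_mulVec (u : SL) (v : V) : ((u⁻¹ : SL) : M2) *ᵥ ((u : M2) *ᵥ v) = v := by
  rw [Matrix.mulVec_mulVec, coe_inv_mul, Matrix.one_mulVec]

theorem X1_vn_unitary {u : SL} (hu : IsU u) (v : V) : vn ((u : M2) *ᵥ v) = vn v := by
  unfold vn
  rw [nsq_mulVec_unitary hu]

theorem X1_vn_sub {u : SL} (hu : IsU u) (v w : V) :
    vn ((u : M2) *ᵥ v - (u : M2) *ᵥ w) = vn (v - w) := by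
  rw [← Matrix.mulVec_sub, X1_vn_unitary hu]

theorem X1_normSq (z : ℂ) : Complex.normSq z = ‖z‖ ^ 2 := Complex.normSq_eq_norm_sq z

theorem X1_nsq (v : V) : nsq v = ‖v 0‖ ^ 2 + ‖v 1‖ ^ 2 := by
  rw [nsq_eq, X1_normSq, X1_normSq]

/-- first order condition at a maximum. -/
theorem X1_first {r d q : ℂ} {δ : ℝ} (hδ : 0 < δ)
    (h : ∀ z : ℂ, ‖z‖ < δ → ‖r + d * z - q * z ^ 2‖ ≤ ‖r‖ * (1 + ‖z‖ ^ 2)) : d = 0 := by
  by_contra hd
  have hdp : 0 < ‖d‖ := norm_pos_iff.2 hd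
  by_cases hr : r = 0
  · subst hr
    obtain ⟨ε, hε0, hε1, hε2⟩ : ∃ ε : ℝ, 0 < ε ∧ ε < δ ∧ ε * ‖q‖ < ‖d‖ := by
      refine ⟨min (δ / 2) (‖d‖ / (2 * (‖q‖ + 1))), ?_, ?_, ?_⟩
      · have : 0 ≤ ‖q‖ := norm_nonneg q
        positivity
      · exact lt_of_le_of_lt (min_le_left _ _) (by linarith)
      · have hq : 0 ≤ ‖q‖ := norm_nonneg q
        calc min (δ / 2) (‖d‖ / (2 * (‖q‖ + 1))) * ‖q‖
            ≤ (‖d‖ / (2 * (‖q‖ + 1))) * ‖q‖ := mul_le_mul_of_nonneg_right (min_le_right _ _) hq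
          _ < ‖d‖ := by
              rw [div_mul_eq_mul_div, div_lt_iff₀ (by positivity)]
              nlinarith
    have h1 := h (ε : ℂ) (by rw [Complex.norm_real, Real.norm_eq_abs, abs_of_pos hε0]; exact hε1)
    rw [norm_zero, zero_mul, zero_add] at h1
    have h2 : d * (ε : ℂ) - q * (ε : ℂ) ^ 2 = (ε : ℂ) * (d - q * ε) := by ring
    rw [h2, norm_mul, Complex.norm_real, Real.norm_eq_abs, abs_of_pos hε0] at h1
    have h3 : ‖d - q * ε‖ ≤ 0 := by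
      by_contra hcon
      push Not at hcon
      have := mul_pos hε0 hcon
      linarith
    have h4 : ‖d‖ ≤ ‖d - q * ε‖ + ‖q * (ε : ℂ)‖ := by
      have := norm_add_le (d - q * ε) (q * ε)
      rwa [sub_add_cancel] at this
    rw [norm_mul, Complex.norm_real, Real.norm_eq_abs, abs_of_pos hε0] at h4
    linarith
  · have hrp : 0 < ‖r‖ := norm_pos_iff.2 hr
    have hq : 0 ≤ ‖q‖ := norm_nonneg q
    obtain ⟨ε, hε0, hε1, hε2⟩ : ∃ ε : ℝ, 0 < ε ∧ ε * (‖r‖ * ‖d‖) < δ ∧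
        ε * (‖r‖ * (‖q‖ + ‖r‖)) < 1 := by
      refine ⟨min (δ / (2 * (‖r‖ * ‖d‖))) (1 / (2 * (‖r‖ * (‖q‖ + ‖r‖)))), by positivity, ?_, ?_⟩
      · calc min (δ / (2 * (‖r‖ * ‖d‖))) (1 / (2 * (‖r‖ * (‖q‖ + ‖r‖)))) * (‖r‖ * ‖d‖)
            ≤ (δ / (2 * (‖r‖ * ‖d‖))) * (‖r‖ * ‖d‖) :=
              mul_le_mul_of_nonneg_right (min_le_left _ _) (by positivity)
          _ = δ / 2 := by field_simp
          _ < δ := by linarith
      · calc min (δ / (2 * (‖r‖ * ‖d‖))) (1 / (2 * (‖r‖ * (‖q‖ + ‖r‖)))) * (‖r‖ * (‖q‖ + ‖r‖))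
            ≤ (1 / (2 * (‖r‖ * (‖q‖ + ‖r‖)))) * (‖r‖ * (‖q‖ + ‖r‖)) :=
              mul_le_mul_of_nonneg_right (min_le_right _ _) (by positivity)
          _ = 1 / 2 := by
              have : 0 < ‖q‖ + ‖r‖ := by positivity
              field_simp
          _ < 1 := by norm_num
    set z : ℂ := (ε : ℂ) * (r * (starRingEnd ℂ) d) with hz
    have hzn : ‖z‖ = ε * (‖r‖ * ‖d‖) := by
      rw [hz, norm_mul, norm_mul, Complex.norm_real, Real.norm_eq_abs, abs_of_pos hε0,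
        RCLike.norm_conj]
    have h1 := h z (by rw [hzn]; exact hε1)
    have h2 : r + d * z = r * ((1 + ε * ‖d‖ ^ 2 : ℝ) : ℂ) := by
      have h3 : d * (starRingEnd ℂ) d = ((‖d‖ ^ 2 : ℝ) : ℂ) := by
        rw [Complex.mul_conj, X1_normSq]
      rw [hz]
      push_cast at h3 ⊢
      linear_combination (ε * r) * h3
    have h4 : ‖r + d * z‖ ≤ ‖r + d * z - q * z ^ 2‖ + ‖q * z ^ 2‖ := by
      have := norm_add_le (r + d * z - q * z ^ 2) (q * z ^ 2)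
      rwa [sub_add_cancel] at this
    rw [h2, norm_mul, Complex.norm_real, Real.norm_eq_abs,
      abs_of_pos (by positivity : 0 < 1 + ε * ‖d‖ ^ 2), norm_mul, norm_pow] at h4
    rw [← h2] at h4
    rw [hzn] at h1 h4
    have h5 : ε * ‖r‖ * ‖d‖ ^ 2 ≤ (ε * ‖r‖ * ‖d‖ ^ 2) * (ε * (‖r‖ * (‖q‖ + ‖r‖))) := by
      nlinarith
    have h6 : 0 < ε * ‖r‖ * ‖d‖ ^ 2 := by positivity
    have h7 : (ε * ‖r‖ * ‖d‖ ^ 2) * (ε * (‖r‖ * (‖q‖ + ‖r‖))) < (ε * ‖r‖ * ‖d‖ ^ 2) * 1 :=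
      mul_lt_mul_of_pos_left hε2 h6
    linarith

/-- the entries of a plane in a frame where `e₁` is critical. -/
theorem X1_entries {R : M2} (hR : IsPl R) {δ : ℝ} (hδ : 0 < δ)
    (h : ∀ z : ℂ, ‖z‖ < δ → ‖qP R ![1, z]‖ ≤ ‖R 1 0‖ * (1 + ‖z‖ ^ 2)) :
    R 0 0 = 1 / 2 ∧ R 1 1 = 1 / 2 ∧ R 0 1 * R 1 0 = 1 / 4 := by
  have h1 : R 1 1 - R 0 0 = 0 := by
    refine X1_first (r := R 1 0) (q := R 0 1) hδ ?_
    intro z hz
    have h2 := h z hz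
    rw [qP_eq] at h2
    simpa using h2
  have h3 := hR.1
  have h4 := hR.2
  rw [Matrix.trace_fin_two] at h3
  rw [Matrix.det_fin_two] at h4
  have h5 : R 0 0 = 1 / 2 := by linear_combination (1 / 2) * h3 - (1 / 2) * h1
  have h6 : R 1 1 = 1 / 2 := by linear_combination (1 / 2) * h3 + (1 / 2) * h1
  refine ⟨h5, h6, ?_⟩
  rw [h5, h6] at h4
  linear_combination -h4

theorem X1_qP_E11 (φ : V) : qP !![1, 0; 0, 0] φ = -(φ 0 * φ 1) := by
  rw [qP_eq]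
  simp

theorem X1_qP_of {P : M2} {u : SL} (hP : cj u P = !![1, 0; 0, 0]) (ψ : V) :
    ‖qP P ψ‖ = ‖((u : M2) *ᵥ ψ) 0‖ * ‖((u : M2) *ᵥ ψ) 1‖ := by
  rw [← qP_cj u P ψ, hP, X1_qP_E11, norm_neg, norm_mul]

/-- If `|q_P| ≤ |.|²/2` near the unit vector `ψ`, with equality at `ψ`, then `P` is Hermitian.

Proof. By a unitary change of frame (`exists_unitary_e1`, `qP_cj`, `nsq_mulVec_unitary`) `ψ = e₁`.
`q_P(1,z) = r + (P₁₁ - P₀₀) z - q z²` with `r = P₁₀`, `q = P₀₁` (`qP_eq`), `|r| = 1/2` and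
`|r + d z - q z²| ≤ (1 + |z|²)/2` for small `z` (`d = P₁₁ - P₀₀`). Taking `z = ε conj(d) r/…` so that
`d z / r > 0` small: first order gives `d = 0`. So `P₀₀ = P₁₁ = 1/2` and `q r = P₀₀P₁₁ = 1/4`, so
`q = 1/(4r) = conj r` as `|r| = 1/2`. Hence `P` is Hermitian. -/
theorem hermitian_of_touch {P : M2} (hP : IsPl P) {ψ : V} (hψ : nsq ψ = 1) {c : ℝ} (hc : 0 < c)
    (h : ∀ ψ' : V, vn (ψ' - ψ) < c → ‖qP P ψ'‖ ≤ nsq ψ' / 2) (h1 : ‖qP P ψ‖ = 1 / 2) :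
    P.IsHermitian := by
  obtain ⟨u, hu, huψ⟩ := exists_unitary_e1 hψ
  have hui : ((u⁻¹ : SL) : M2) *ᵥ e1 = ψ := by rw [← huψ, X1_inv_mulVec]
  set R := cj u P with hR
  have hRpl : IsPl R := hP.conj u
  have hr : ‖R 1 0‖ = 1 / 2 := by
    have h2 : qP R e1 = qP P ψ := by rw [← huψ, hR, qP_cj]
    rw [qP_eq] at h2
    simp only [e1, Matrix.cons_val_zero, Matrix.cons_val_one] at h2
    rw [← h1, ← h2]
    congr 1
    ring
  have key : ∀ z : ℂ, ‖z‖ < c → ‖qP R ![1, z]‖ ≤ ‖R 1 0‖ * (1 + ‖z‖ ^ 2) := by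
    intro z hz
    have h2 : vn (((u⁻¹ : SL) : M2) *ᵥ ![1, z] - ψ) < c := by
      rw [← hui, X1_vn_sub (IsU_inv hu)]
      unfold vn
      rw [X1_nsq]
      simp only [e1, Pi.sub_apply, Matrix.cons_val_zero, Matrix.cons_val_one, sub_self, norm_zero,
        sub_zero]
      rw [zero_pow two_ne_zero, zero_add, Real.sqrt_sq (norm_nonneg z)]
      exact hz
    have h3 := h _ h2
    rw [qP_cj', nsq_mulVec_unitary (IsU_inv hu), X1_nsq] at h3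
    simp only [Matrix.cons_val_zero, Matrix.cons_val_one, norm_one, one_pow] at h3
    rw [hr]
    linarith
  obtain ⟨a1, a2, a3⟩ := X1_entries hRpl hc key
  apply X1_herm_of_cj hu
  rw [← hR]
  have h5 : (starRingEnd ℂ) (R 1 0) * R 1 0 = 1 / 4 := by
    rw [mul_comm, Complex.mul_conj, X1_normSq, hr]
    norm_num
  have hne : R 1 0 ≠ 0 := by
    intro h0
    rw [h0, norm_zero] at hr
    norm_num at hr
  have h6 : R 0 1 = (starRingEnd ℂ) (R 1 0) := mul_right_cancel₀ hne (a3.trans h5.symm)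
  ext i j
  fin_cases i <;> fin_cases j
  · simp [a1]
  · simp [h6]
  · simp [h6]
  · simp [a2]

/-- A Hermitian plane satisfies `|q_P(ψ)| ≤ |ψ|²/2`. Proof. Unitary frame `P = E11`
(`IsPl.exists_unitary`): `|q_P(ψ)| = |ψ₀ ψ₁| ≤ (|ψ₀|² + |ψ₁|²)/2`. -/
theorem hermitian_qP_le {P : M2} (hP : IsPl P) (hH : P.IsHermitian) (ψ : V) :
    ‖qP P ψ‖ ≤ nsq ψ / 2 := by
  obtain ⟨u, hu, huP⟩ := hP.exists_unitary hH
  rw [X1_qP_of huP, ← nsq_mulVec_unitary hu ψ, X1_nsq]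
  nlinarith [sq_nonneg (‖((u : M2) *ᵥ ψ) 0‖ - ‖((u : M2) *ᵥ ψ) 1‖)]

/-- The circle of a Hermitian plane is not empty and preconnected.

Proof. Unitary frame with `P = E11`: `|q_P(ψ)| = |ψ₀||ψ₁| = 1/2` and `|ψ₀|² + |ψ₁|² = 1` iff
`|ψ₀| = |ψ₁| = 1/√2`. The circle is the image of `ℝ × ℝ` under
`(α,β) ↦ u⁻¹ (e^{iα}, e^{iβ})/√2`. -/
theorem circle_preconnected {P : M2} (hP : IsPl P) (hH : P.IsHermitian) :
    {ψ : V | nsq ψ = 1 ∧ ‖qP P ψ‖ = 1 / 2}.Nonempty ∧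
      IsPreconnected {ψ : V | nsq ψ = 1 ∧ ‖qP P ψ‖ = 1 / 2} := by
  obtain ⟨u, hu, huP⟩ := hP.exists_unitary hH
  have hs2 : 0 < Real.sqrt 2 := by positivity
  have hss : Real.sqrt 2 * Real.sqrt 2 = 2 := Real.mul_self_sqrt (by norm_num)
  have hi : (1 / Real.sqrt 2) ^ 2 = 1 / 2 := by
    rw [div_pow, one_pow, Real.sq_sqrt (by norm_num)]
  set F : ℝ × ℝ → V := fun p => ((u⁻¹ : SL) : M2) *ᵥ
    ![((1 / Real.sqrt 2 : ℝ) : ℂ) * Complex.exp (p.1 * Complex.I),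
      ((1 / Real.sqrt 2 : ℝ) : ℂ) * Complex.exp (p.2 * Complex.I)] with hF
  have hcont : Continuous F := by
    rw [hF]
    refine Continuous.matrix_mulVec continuous_const ?_
    refine continuous_pi fun i => ?_
    fin_cases i
    · simp only [Fin.zero_eta, Matrix.cons_val_zero]
      fun_prop
    · simp only [Fin.mk_one, Matrix.cons_val_one]
      fun_prop
  have hset : {ψ : V | nsq ψ = 1 ∧ ‖qP P ψ‖ = 1 / 2} = F '' Set.univ := by
    ext ψ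
    constructor
    · rintro ⟨h1, h2⟩
      set φ : V := (u : M2) *ᵥ ψ with hφ
      rw [X1_qP_of huP, ← hφ] at h2
      rw [← nsq_mulVec_unitary hu ψ, ← hφ, X1_nsq] at h1
      have h3 : ‖φ 0‖ = ‖φ 1‖ := by
        have : (‖φ 0‖ - ‖φ 1‖) ^ 2 = 0 := by nlinarith
        have := pow_eq_zero_iff (two_ne_zero) |>.1 this
        linarith
      have h4 : ‖φ 1‖ = 1 / Real.sqrt 2 := by
        have h5 : ‖φ 1‖ ^ 2 = (1 / Real.sqrt 2) ^ 2 := by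
          rw [hi]
          rw [h3] at h1
          linarith
        exact (pow_left_inj₀ (norm_nonneg _) (by positivity) two_ne_zero).1 h5
      have h5 : ‖φ 0‖ = 1 / Real.sqrt 2 := h3.trans h4
      refine ⟨((φ 0).arg, (φ 1).arg), mem_univ _, ?_⟩
      rw [hF]
      simp only
      rw [← h5]
      conv_lhs =>
        rw [show (‖φ 0‖ : ℂ) * Complex.exp ((φ 0).arg * Complex.I) = φ 0 from
          Complex.norm_mul_exp_arg_mul_I (φ 0)]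
        rw [h3]
        rw [show (‖φ 1‖ : ℂ) * Complex.exp ((φ 1).arg * Complex.I) = φ 1 from
          Complex.norm_mul_exp_arg_mul_I (φ 1)]
      have h6 : (![φ 0, φ 1] : V) = φ := by
        ext i
        fin_cases i <;> rfl
      rw [h6, hφ, X1_inv_mulVec]
    · rintro ⟨p, -, rfl⟩
      have n1 : ‖((1 / Real.sqrt 2 : ℝ) : ℂ) * Complex.exp (p.1 * Complex.I)‖ =
          1 / Real.sqrt 2 := by
        rw [norm_mul, Complex.norm_exp_ofReal_mul_I, mul_one, Complex.norm_real, Real.norm_eq_abs,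
          abs_of_pos (by positivity)]
      have n2 : ‖((1 / Real.sqrt 2 : ℝ) : ℂ) * Complex.exp (p.2 * Complex.I)‖ =
          1 / Real.sqrt 2 := by
        rw [norm_mul, Complex.norm_exp_ofReal_mul_I, mul_one, Complex.norm_real, Real.norm_eq_abs,
          abs_of_pos (by positivity)]
      constructor
      · rw [hF]
        simp only
        rw [nsq_mulVec_unitary (IsU_inv hu), X1_nsq]
        simp only [Matrix.cons_val_zero, Matrix.cons_val_one]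
        rw [n1, n2, hi]
        norm_num
      · rw [X1_qP_of huP, hF]
        simp only
        rw [X1_mulVec_inv]
        simp only [Matrix.cons_val_zero, Matrix.cons_val_one]
        rw [n1, n2, ← sq, hi]
  constructor
  · rw [hset]
    exact ⟨F (0, 0), mem_image_of_mem F (mem_univ _)⟩
  · rw [hset]
    exact isPreconnected_univ.image F hcont.continuousOn

/-- The maximum of `|q_Q|` over the unit sphere: for every plane `Q` there are `M ≥ 1/2` and a unit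
vector `ψ` with `|q_Q(ψ)| = M` and `|Q|² = 1 + (M - 1/(4M))²`.

Proof. Let `ψ` be a maximiser (compact sphere), in a unitary frame `ψ = e₁`. From
`|r + d z - q z²| ≤ |r|(1 + |z|²)` for all `z`: `d = 0` (first order), so `Q₀₀ = Q₁₁ = 1/2`,
`qr = 1/4`, and `|q| ≤ |r|` (choose `z` with `-q z²/r > 0`). So `M = |r| ≥ 1/2`,
`|q| = 1/(4M)`, `|Q|² = 1/2 + M² + 1/(16M²) = 1 + (M - 1/(4M))²`. -/
theorem exists_max_qP {Q : M2} (hQ : IsPl Q) : ∃ (M : ℝ) (ψ : V), 1 / 2 ≤ M ∧ nsq ψ = 1 ∧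
    ‖qP Q ψ‖ = M ∧ fro Q = 1 + (M - 1 / (4 * M)) ^ 2 := by
  have hcont : Continuous fun ψ : V => ‖qP Q ψ‖ := by
    have h1 : Continuous fun ψ : V => qP Q ψ :=
      continuous_qP.comp (continuous_const.prodMk continuous_id)
    exact h1.norm
  have hne : ({v : V | nsq v = 1}).Nonempty := by
    refine ⟨e1, ?_⟩
    change nsq e1 = 1
    simp only [X1_nsq, e1, Matrix.cons_val_zero, Matrix.cons_val_one, norm_one, norm_zero]
    norm_num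
  obtain ⟨ψ, hψ, hmax⟩ := isCompact_sphere.exists_isMaxOn hne hcont.continuousOn
  have hψ1 : nsq ψ = 1 := hψ
  obtain ⟨u, hu, huψ⟩ := exists_unitary_e1 hψ1
  set R := cj u Q with hR
  have hRpl : IsPl R := hQ.conj u
  have hr : ‖qP Q ψ‖ = ‖R 1 0‖ := by
    have h2 : qP R e1 = qP Q ψ := by rw [← huψ, hR, qP_cj]
    rw [qP_eq] at h2
    simp only [e1, Matrix.cons_val_zero, Matrix.cons_val_one] at h2
    rw [← h2]
    congr 1
    ring
  have hunit : ∀ φ : V, nsq φ = 1 → ‖qP R φ‖ ≤ ‖R 1 0‖ := by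
    intro φ hφ
    have h2 : nsq (((u⁻¹ : SL) : M2) *ᵥ φ) = 1 := by
      rw [nsq_mulVec_unitary (IsU_inv hu), hφ]
    have h3 : ‖qP Q (((u⁻¹ : SL) : M2) *ᵥ φ)‖ ≤ ‖qP Q ψ‖ := hmax h2
    rwa [qP_cj', hr] at h3
  have key : ∀ z : ℂ, ‖z‖ < 1 → ‖qP R ![1, z]‖ ≤ ‖R 1 0‖ * (1 + ‖z‖ ^ 2) := by
    intro z _
    have hn : nsq ![1, z] = 1 + ‖z‖ ^ 2 := by
      rw [X1_nsq]
      simp
    have hnp : 0 < 1 + ‖z‖ ^ 2 := by positivity
    set s : ℝ := Real.sqrt (1 + ‖z‖ ^ 2) with hs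
    have hsp : 0 < s := Real.sqrt_pos.2 hnp
    have hs2 : s ^ 2 = 1 + ‖z‖ ^ 2 := Real.sq_sqrt hnp.le
    have hne' : (s : ℂ) ≠ 0 := by exact_mod_cast hsp.ne'
    have h2 : nsq (((s : ℂ)⁻¹) • ![1, z]) = 1 := by
      rw [nsq_smul, hn, norm_inv, Complex.norm_real, Real.norm_eq_abs, abs_of_pos hsp, ← hs2,
        inv_pow, inv_mul_cancel₀ (by positivity)]
    have h3 := hunit _ h2
    rw [qP_smul, norm_mul, norm_pow, norm_inv, Complex.norm_real, Real.norm_eq_abs,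
      abs_of_pos hsp, inv_pow, inv_mul_le_iff₀ (by positivity), hs2] at h3
    linarith
  obtain ⟨a1, a2, a3⟩ := X1_entries hRpl one_pos key
  have hq : ‖R 0 1‖ ≤ ‖R 1 0‖ := by
    have h2 : nsq e2 = 1 := by
      rw [X1_nsq]
      simp [e2]
    have h3 := hunit e2 h2
    rw [qP_eq] at h3
    simp only [e2, Matrix.cons_val_zero, Matrix.cons_val_one] at h3
    rw [← norm_neg (R 0 1)]
    refine le_trans (le_of_eq ?_) h3
    congr 1
    ring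
  have hprod : ‖R 0 1‖ * ‖R 1 0‖ = 1 / 4 := by
    rw [← norm_mul, a3]
    norm_num
  have hM : 1 / 2 ≤ ‖R 1 0‖ := by
    have h0 := norm_nonneg (R 1 0)
    by_contra hcon
    push Not at hcon
    have h1 := norm_nonneg (R 0 1)
    nlinarith
  refine ⟨‖R 1 0‖, ψ, hM, hψ1, hr, ?_⟩
  have h7 : fro Q = fro R := by
    rw [← nm_sq, ← nm_sq, hR, nm_cj_unitary hu]
  have hMp : 0 < ‖R 1 0‖ := by linarith
  have h8 : 1 / (4 * ‖R 1 0‖) = ‖R 0 1‖ := by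
    rw [div_eq_iff (by positivity)]
    linarith
  rw [h7, fro_eq, X1_normSq, X1_normSq, X1_normSq, X1_normSq, a1, a2, h8]
  have h9 : ‖(1 / 2 : ℂ)‖ = 1 / 2 := by norm_num
  rw [h9]
  nlinarith

/-- If `P` is a Hermitian plane, `Q` a matrix with `|Q - P| ≤ ε ≤ 1/8`, and `ψ` a unit vector with
`|q_Q(ψ)| ≥ 1/2`, then `ψ` is at distance `≤ 4 √ε` from a point `ψ₁` of the circle of `P`.

Proof. `|q_P(ψ)| ≥ 1/2 - ε`. Unitary frame, `P = E11`: `|ψ₀||ψ₁| ≥ 1/2 - ε`,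
`|ψ₀|² + |ψ₁|² = 1`, so `(|ψ₀| - |ψ₁|)² ≤ 2ε` and `ψ₀, ψ₁ ≠ 0`. Let
`ψ₁ = (ψ₀/|ψ₀|, ψ₁/|ψ₁|)/√2`. `| |ψ_i| - 1/√2 |`: since `|ψ₀|²+|ψ₁|² = 1` and
`||ψ₀| - |ψ₁|| ≤ √(2ε)`, each `||ψ_i|² - 1/2| = ||ψ₀|²-|ψ₁|²|/2 ≤ √(2ε)·√2/2 = √ε`, and
`||ψ_i| - 1/√2| ≤ √ε √2`. Total distance `≤ 2√ε ≤ 4√ε`. -/
theorem near_circle {P Q : M2} (hP : IsPl P) (hH : P.IsHermitian) {ε : ℝ} (hε0 : 0 ≤ ε)
    (hε : ε ≤ 1 / 8) (hQ : nm (Q - P) ≤ ε) {ψ : V} (hψ : nsq ψ = 1) (h : 1 / 2 ≤ ‖qP Q ψ‖) :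
    ∃ ψ₁ : V, nsq ψ₁ = 1 ∧ ‖qP P ψ₁‖ = 1 / 2 ∧ vn (ψ - ψ₁) ≤ 4 * Real.sqrt ε := by
  obtain ⟨u, hu, huP⟩ := hP.exists_unitary hH
  have h1 : 1 / 2 - ε ≤ ‖qP P ψ‖ := by
    have h2 := norm_qP_sub_le Q P ψ
    rw [hψ, mul_one] at h2
    have h3 : ‖qP Q ψ‖ ≤ ‖qP Q ψ - qP P ψ‖ + ‖qP P ψ‖ := by
      have := norm_add_le (qP Q ψ - qP P ψ) (qP P ψ)
      rwa [sub_add_cancel] at this
    linarith
  set φ : V := (u : M2) *ᵥ ψ with hφ
  rw [X1_qP_of huP, ← hφ] at h1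
  have hn : ‖φ 0‖ ^ 2 + ‖φ 1‖ ^ 2 = 1 := by
    rw [← X1_nsq, hφ, nsq_mulVec_unitary hu, hψ]
  set x := ‖φ 0‖ with hx
  set y := ‖φ 1‖ with hy
  have hx0 : 0 ≤ x := norm_nonneg _
  have hy0 : 0 ≤ y := norm_nonneg _
  have hxy : 0 < x * y := by linarith
  have hxp : 0 < x := by
    rcases hx0.lt_or_eq with h5 | h5
    · exact h5
    · rw [← h5, zero_mul] at hxy
      exact absurd hxy (lt_irrefl _)
  have hyp : 0 < y := by
    rcases hy0.lt_or_eq with h5 | h5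
    · exact h5
    · rw [← h5, mul_zero] at hxy
      exact absurd hxy (lt_irrefl _)
  have hs2 : 0 < Real.sqrt 2 := by positivity
  have hss : Real.sqrt 2 ^ 2 = 2 := Real.sq_sqrt (by norm_num)
  have hi : (1 / Real.sqrt 2) ^ 2 = 1 / 2 := by
    rw [div_pow, one_pow, hss]
  set a : ℝ := 1 / Real.sqrt 2 with ha
  have hap : 0 < a := by positivity
  have n0 : ‖((a / x : ℝ) : ℂ) * φ 0‖ = a := by
    rw [norm_mul, Complex.norm_real, Real.norm_eq_abs, abs_of_pos (by positivity), ← hx,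
      div_mul_cancel₀ _ hxp.ne']
  have n1 : ‖((a / y : ℝ) : ℂ) * φ 1‖ = a := by
    rw [norm_mul, Complex.norm_real, Real.norm_eq_abs, abs_of_pos (by positivity), ← hy,
      div_mul_cancel₀ _ hyp.ne']
  have m0 : ‖φ 0 - ((a / x : ℝ) : ℂ) * φ 0‖ = |x - a| := by
    have h5 : φ 0 - ((a / x : ℝ) : ℂ) * φ 0 = ((1 - a / x : ℝ) : ℂ) * φ 0 := by
      push_cast
      ring
    rw [h5, norm_mul, Complex.norm_real, Real.norm_eq_abs, ← hx]
    rw [show x - a = (1 - a / x) * x by field_simp, abs_mul, abs_of_pos hxp]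
  have m1 : ‖φ 1 - ((a / y : ℝ) : ℂ) * φ 1‖ = |y - a| := by
    have h5 : φ 1 - ((a / y : ℝ) : ℂ) * φ 1 = ((1 - a / y : ℝ) : ℂ) * φ 1 := by
      push_cast
      ring
    rw [h5, norm_mul, Complex.norm_real, Real.norm_eq_abs, ← hy]
    rw [show y - a = (1 - a / y) * y by field_simp, abs_mul, abs_of_pos hyp]
  refine ⟨((u⁻¹ : SL) : M2) *ᵥ ![((a / x : ℝ) : ℂ) * φ 0, ((a / y : ℝ) : ℂ) * φ 1], ?_, ?_, ?_⟩
  · rw [nsq_mulVec_unitary (IsU_inv hu), X1_nsq]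
    simp only [Matrix.cons_val_zero, Matrix.cons_val_one]
    rw [n0, n1, hi]
    norm_num
  · rw [X1_qP_of huP, X1_mulVec_inv]
    simp only [Matrix.cons_val_zero, Matrix.cons_val_one]
    rw [n0, n1, ← sq, hi]
  · have h6 : vn (ψ - ((u⁻¹ : SL) : M2) *ᵥ ![((a / x : ℝ) : ℂ) * φ 0, ((a / y : ℝ) : ℂ) * φ 1]) =
        vn (φ - ![((a / x : ℝ) : ℂ) * φ 0, ((a / y : ℝ) : ℂ) * φ 1]) := by
      rw [← X1_vn_sub hu, X1_mulVec_inv, ← hφ]
    rw [h6]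
    unfold vn
    rw [X1_nsq]
    simp only [Pi.sub_apply, Matrix.cons_val_zero, Matrix.cons_val_one]
    rw [m0, m1, sq_abs, sq_abs]
    have h7 : (x - a) ^ 2 + (y - a) ^ 2 ≤ 2 * ε := by
      have h8 : (1 - ε) ≤ a * (x + y) := by
        have h9 : (1 - ε) ^ 2 ≤ (a * (x + y)) ^ 2 := by
          rw [mul_pow, hi]
          nlinarith
        exact (pow_le_pow_iff_left₀ (by linarith) (by positivity) two_ne_zero).1 h9
      nlinarith
    calc Real.sqrt ((x - a) ^ 2 + (y - a) ^ 2) ≤ Real.sqrt (2 * ε) := Real.sqrt_le_sqrt h7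
      _ ≤ Real.sqrt (4 ^ 2 * ε) := Real.sqrt_le_sqrt (by nlinarith)
      _ = 4 * Real.sqrt ε := by
          rw [Real.sqrt_mul (by norm_num), Real.sqrt_sq (by norm_num)]

/-- `x ↦ (x - 1/(4x))²` is increasing on `[1/2, ∞)`. -/
theorem sq_sub_mono {a b : ℝ} (ha : 1 / 2 ≤ a) (hab : a ≤ b) :
    (a - 1 / (4 * a)) ^ 2 ≤ (b - 1 / (4 * b)) ^ 2 := by
  have ha0 : 0 < a := by linarith
  have hb0 : 0 < b := by linarith
  have h1 : 0 ≤ a - 1 / (4 * a) := by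
    rw [sub_nonneg, div_le_iff₀ (by positivity)]
    nlinarith
  have h2 : a - 1 / (4 * a) ≤ b - 1 / (4 * b) := by
    have h3 : 1 / (4 * b) ≤ 1 / (4 * a) := one_div_le_one_div_of_le (by positivity) (by linarith)
    linarith
  exact pow_le_pow_left₀ h1 h2 2

end HRK
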