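import Pool.Agent.HRK.X1
import Pool.Agent.HRK.U1
import Pool.Agent.HRK.U2
import Pool.Agent.HRK.K9

/-!
# HRK-X2 : exact visibility (7.2)
-/

namespace HRK

open Set Filter Topology Matrix

universe u

variable {r0 L : ℝ}

/-- the frame norm of `1 - 1`. -/
theorem x2_one (k : SL) {c : ℝ} (hc : 0 < c) : nm (cj k (((1 : SL) : M2) - 1)) < c := by
  rw [Matrix.SpecialLinearGroup.coe_one, sub_self, cj_zero, nm_zero]
  exact hc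

theorem x2_vn {ψ : V} {c : ℝ} (hc : 0 < c) : vn (ψ - ψ) < c := by
  rw [sub_self]
  have : vn (0 : V) = 0 := vn_eq_zero.2 rfl
  rw [this]
  exact hc

/-- bound of `q` by `1/2` when `m = 1/2` and the plane is visible. -/
theorem x2_le (hc : Cst r0 L) {E : Type u} [TopologicalSpace E] [T2Space E] {G : Geo E r0 L} {y : E}
    {k : SL} {ψ : V} {P : M2} {C1 : ℝ} (hm : mD G.D y k = 1 / 2)
    (h : SVis G y (((k⁻¹ : SL) : M2) *ᵥ ψ) P C1) : ‖qP (cj k P) ψ‖ ≤ nsq ψ / 2 := by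
  have h1 := SVis.le hc h
  have h2 := eD_le_mD hc G y k ψ
  rw [qP_cj'] at h1
  rw [hm] at h2
  linarith

/-- the equality case. -/
theorem x2_eq (hc : Cst r0 L) {E : Type u} [TopologicalSpace E] [T2Space E] {G : Geo E r0 L} {y : E}
    {k : SL} {ψ : V} {P : M2} {C1 : ℝ} (hm : mD G.D y k = 1 / 2) (hψ : nsq ψ = 1)
    (h : SVis G y (((k⁻¹ : SL) : M2) *ᵥ ψ) P C1) (hq : ‖qP (cj k P) ψ‖ = 1 / 2) :
    ‖qP (cj k P) ψ‖ = eD G.D y (((k⁻¹ : SL) : M2) *ᵥ ψ) := by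
  have h1 := SVis.le hc h
  have h2 := eD_le_mD hc G y k ψ
  rw [qP_cj'] at h1
  rw [hm, hψ] at h2
  linarith

/-- One step. Universal `c, C`: if `m(y,k) ≤ 1`, `ψ` is a unit vector, `P` a plane strongly visible at
`(y, k⁻¹ψ)` (any constant `C1`) with `‖q_P‖ = e(y,k⁻¹ψ) ≥ 1/4`, then `P` is strongly visible with
constant `C` for all `|g - 1|_k < c`, `|ψ' - ψ| < c`.

Proof. Let `(c, C)` be the constants of `uniform_support hc 1 (ε = 1/4)` and `t0 = -1/q_P`;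
`t0 n ∉ St` by `SVis.not_mem`, `‖t0‖ e = 1`. `uniform_support` gives a plane `P'` with
`q_{P'} t0 = -1`, i.e. `q_{P'}(ψ) = q_P(ψ)`, strongly visible near. At `g = 1, ψ' = ψ` (`ac_one`,
`pmv_one`) it is `SVis`, so `P = P'` by `SVis.key`. -/
theorem vis_step (hc : Cst r0 L) : ∃ c > 0, ∃ C > 0, ∀ (C1 : ℝ) (E : Type u)
    [TopologicalSpace E] [T2Space E] (G : Geo E r0 L) (y : E) (k : SL) (ψ : V) (P : M2),
    mD G.D y k ≤ 1 → nsq ψ = 1 → IsPl P → SVis G y (((k⁻¹ : SL) : M2) *ᵥ ψ) P C1 →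
    ‖qP (cj k P) ψ‖ = eD G.D y (((k⁻¹ : SL) : M2) *ᵥ ψ) → 1 / 4 ≤ ‖qP (cj k P) ψ‖ →
    ∀ (g : SL) (ψ' : V), nm (cj k ((g : M2) - 1)) < c → vn (ψ' - ψ) < c →
      SVis G (ac G.D y g) (((k⁻¹ : SL) : M2) *ᵥ ψ') (pmv P g) C := by
  obtain ⟨c, hc0, C', hC', H⟩ := uniform_support.{u} hc 1 (ε := 1 / 4) (by norm_num)
  refine ⟨c, hc0, C', hC', ?_⟩
  intro C1 E _ _ G y k ψ P hm hψ hP hV hq h4
  have hqc : qP P (((k⁻¹ : SL) : M2) *ᵥ ψ) = qP (cj k P) ψ := qP_cj' k P ψ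
  set q := qP (cj k P) ψ with hqdef
  have hqpos : 0 < ‖q‖ := by linarith
  have hq0 : q ≠ 0 := by
    intro h
    rw [h, norm_zero] at hqpos
    exact lt_irrefl _ hqpos
  have ht0 : ‖(-1 / q : ℂ)‖ * eD G.D y (((k⁻¹ : SL) : M2) *ᵥ ψ) = 1 := by
    rw [← hq, norm_div, norm_neg, norm_one]
    field_simp
  have hnm : (-1 / q : ℂ) • nn (((k⁻¹ : SL) : M2) *ᵥ ψ) ∉ St G.D y := by
    have := SVis.not_mem hc hV
    rwa [hqc] at this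
  obtain ⟨P', hP', -, hP'q, hvis⟩ := H E G y k ψ (-1 / q) hm hψ (by rw [← hq]; exact h4) ht0 hnm
  have hqq : qP (cj k P') ψ = q := by
    have h5 : qP (cj k P') ψ * (-1 / q) * q = -1 * q := by rw [hP'q]
    have h6 : qP (cj k P') ψ * (-1 / q) * q = - qP (cj k P') ψ := by
      field_simp
    rw [h6] at h5
    linear_combination -h5
  have hV' : SVis G y (((k⁻¹ : SL) : M2) *ᵥ ψ) P' C' := by
    have := hvis 1 ψ (x2_one k hc0) (x2_vn hc0)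
    rwa [ac_one G.hD, pmv_one hP'] at this
  have hPP : P = P' := SVis.key hc hP hP' hV hV' (by rw [hqc, qP_cj', hqq])
  rw [hPP]
  exact hvis

/-- EXACT. Proof. Let `m(y,k) = 1/2` and `P` a plane with `SVis` at `ψ`, `‖q_P(ψ)‖ = 1/2`. By
`SVis.le` and `eD_le_mD`, `e(y,k⁻¹ψ) = 1/2`. `vis_step`: `P` is visible for `|ψ' - ψ| < c`, so
`‖q_P(ψ')‖ ≤ e(y,k⁻¹ψ') ≤ |ψ'|²/2` there: `hermitian_of_touch` for `cj k P`. Let `Z` be the set of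
points `ψ₁` of the circle of `cj k P` at which the uniform visibility (conclusion of `vis_step`)
holds. If `ψ₁ ∈ Z` and `ψ₂` is on the circle with `|ψ₂ - ψ₁| < c` then `SVis G y (k⁻¹ψ₂) P C`
(`g = 1`), `‖q_P(ψ₂)‖ = 1/2 = e(y,k⁻¹ψ₂)`, so `ψ₂ ∈ Z` by `vis_step`. So `Z` is open and closed in
the circle, which is preconnected (`circle_preconnected`): `Z` is the circle. -/
theorem exact_circle (hc : Cst r0 L) : ∃ c > 0, ∃ C > 0, ∀ (C1 : ℝ) (E : Type u)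
    [TopologicalSpace E] [T2Space E] (G : Geo E r0 L) (y : E)
    (k : SL) (ψ : V) (P : M2), mD G.D y k = 1 / 2 → nsq ψ = 1 → IsPl P →
    ‖qP (cj k P) ψ‖ = 1 / 2 → SVis G y (((k⁻¹ : SL) : M2) *ᵥ ψ) P C1 → EVis G y k P c C := by
  obtain ⟨c, hc0, C, hC0, H⟩ := vis_step.{u} (r0 := r0) (L := L) hc
  refine ⟨c, hc0, C, hC0, ?_⟩
  intro C1 E _ _ G y k ψ P hm hψ hP hq hV
  have hm1 : mD G.D y k ≤ 1 := by rw [hm]; norm_num
  -- uniform visibility at a point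
  have step : ∀ (C2 : ℝ) (φ : V), nsq φ = 1 → ‖qP (cj k P) φ‖ = 1 / 2 →
      SVis G y (((k⁻¹ : SL) : M2) *ᵥ φ) P C2 →
      ∀ (g : SL) (ψ' : V), nm (cj k ((g : M2) - 1)) < c → vn (ψ' - φ) < c →
        SVis G (ac G.D y g) (((k⁻¹ : SL) : M2) *ᵥ ψ') (pmv P g) C := by
    intro C2 φ hφ hφq hφV
    exact H C2 E G y k φ P hm1 hφ hP hφV (x2_eq hc hm hφ hφV hφq) (by rw [hφq]; norm_num)
  have one : ∀ φ : V, (∀ (g : SL) (ψ' : V), nm (cj k ((g : M2) - 1)) < c → vn (ψ' - φ) < c →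
        SVis G (ac G.D y g) (((k⁻¹ : SL) : M2) *ᵥ ψ') (pmv P g) C) → ∀ ψ' : V, vn (ψ' - φ) < c →
        SVis G y (((k⁻¹ : SL) : M2) *ᵥ ψ') P C := by
    intro φ h ψ' hψ'
    have := h 1 ψ' (x2_one k hc0) hψ'
    rwa [ac_one G.hD, pmv_one hP] at this
  have hZψ := step C1 ψ hψ hq hV
  have hH : (cj k P).IsHermitian := by
    refine hermitian_of_touch (hP.conj k) hψ hc0 (fun ψ' hψ' => ?_) hq
    exact x2_le hc hm (one ψ hZψ ψ' hψ')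
  refine ⟨hP, hH, ?_⟩
  -- the two sets
  obtain ⟨-, hconn⟩ := circle_preconnected (hP.conj k) hH
  set S : Set V := {ψ : V | nsq ψ = 1 ∧ ‖qP (cj k P) ψ‖ = 1 / 2} with hS
  set Z : Set V := {φ : V | φ ∈ S ∧ ∀ (g : SL) (ψ' : V), nm (cj k ((g : M2) - 1)) < c →
      vn (ψ' - φ) < c → SVis G (ac G.D y g) (((k⁻¹ : SL) : M2) *ᵥ ψ') (pmv P g) C} with hZ
  have hψZ : ψ ∈ Z := ⟨⟨hψ, hq⟩, hZψ⟩
  have hstep : ∀ φ ∈ Z, ∀ φ' ∈ S, vn (φ' - φ) < c → φ' ∈ Z := by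
    intro φ hφ φ' hφ' hd
    exact ⟨hφ', step C φ' hφ'.1 hφ'.2 (one φ hφ.2 φ' hd)⟩
  by_contra hcon
  push Not at hcon
  obtain ⟨ψ₂, hψ₂, hψ₂q, g₂, ψ₂', hg₂, hψ₂', hnot⟩ := hcon
  have hψ₂Z : ψ₂ ∉ Z := fun h => hnot (h.2 g₂ ψ₂' hg₂ hψ₂')
  have openball : ∀ A : Set V, IsOpen {φ : V | ∃ φ₁ ∈ A, vn (φ - φ₁) < c} := by
    intro A
    have : {φ : V | ∃ φ₁ ∈ A, vn (φ - φ₁) < c} = ⋃ φ₁ ∈ A, {φ : V | vn (φ - φ₁) < c} := by
      ext φ; simp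
    rw [this]
    refine isOpen_biUnion (fun φ₁ _ => ?_)
    exact isOpen_lt (continuous_vn.comp (continuous_id.sub continuous_const)) continuous_const
  have key := hconn {φ : V | ∃ φ₁ ∈ Z, vn (φ - φ₁) < c} {φ : V | ∃ φ₁ ∈ S \ Z, vn (φ - φ₁) < c}
    (openball Z) (openball (S \ Z)) (by
      intro φ hφ
      by_cases h : φ ∈ Z
      · exact Or.inl ⟨φ, h, x2_vn hc0⟩
      · exact Or.inr ⟨φ, ⟨hφ, h⟩, x2_vn hc0⟩)
    ⟨ψ, hψZ.1, ψ, hψZ, x2_vn hc0⟩ ⟨ψ₂, ⟨hψ₂, hψ₂q⟩, ψ₂, ⟨⟨hψ₂, hψ₂q⟩, hψ₂Z⟩, x2_vn hc0⟩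
  obtain ⟨φ, hφS, ⟨φ₁, hφ₁, hd₁⟩, ⟨φ₂, hφ₂, hd₂⟩⟩ := key
  have h1 : φ ∈ Z := hstep φ₁ hφ₁ φ hφS hd₁
  exact hφ₂.2 (hstep φ h1 φ₂ hφ₂.1 (by rw [vn_sub_comm]; exact hd₂))

/-- Existence of a contact plane. Proof. `mD_attained`: `ψ` with `e = 1/2`; `exists_ideal`; the plane
of `uniform_support`. -/
theorem exists_touch (hc : Cst r0 L) : ∃ C1 : ℝ, ∀ (E : Type u)
    [TopologicalSpace E] [T2Space E] (G : Geo E r0 L) (y : E)
    (k : SL), mD G.D y k = 1 / 2 → ∃ (ψ : V) (P : M2), nsq ψ = 1 ∧ IsPl P ∧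
      ‖qP (cj k P) ψ‖ = 1 / 2 ∧ SVis G y (((k⁻¹ : SL) : M2) *ᵥ ψ) P C1 := by
  obtain ⟨c, hc0, C', hC', H⟩ := uniform_support.{u} hc 1 (ε := 1 / 4) (by norm_num)
  refine ⟨C', ?_⟩
  intro E _ _ G y k hm
  obtain ⟨ψ, hψ, he⟩ := mD_attained hc G y k
  rw [hm] at he
  obtain ⟨t0, ht0, hnm⟩ := exists_ideal G.hD (y := y) (ψ := ((k⁻¹ : SL) : M2) *ᵥ ψ)
    (by rw [he]; norm_num)
  obtain ⟨P, hP, -, hPq, hvis⟩ := H E G y k ψ t0 (by rw [hm]; norm_num) hψ (by rw [he]; norm_num)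
    ht0 hnm
  refine ⟨ψ, P, hψ, hP, ?_, ?_⟩
  · rw [he] at ht0
    have h1 : ‖qP (cj k P) ψ‖ * ‖t0‖ = 1 := by
      rw [← norm_mul, hPq, norm_neg, norm_one]
    have h2 : ‖t0‖ = 2 := by linarith
    rw [h2] at h1
    linarith
  · have := hvis 1 ψ (x2_one k hc0) (x2_vn hc0)
    rwa [ac_one G.hD, pmv_one hP] at this

/-- trace of `P g` near `1` in a frame in which `P` is Hermitian. -/
theorem x2_trace {k g : SL} {P : M2} (hP : IsPl P) (hH : (cj k P).IsHermitian)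
    (hg : nm (cj k ((g : M2) - 1)) < 1) : (P * (g : M2)).trace ≠ 0 := by
  intro h0
  have h1 := norm_trace_pg_sub_le (hP.conj k) (k * g * k⁻¹)
  have h2 : (cj k P * ((k * g * k⁻¹ : SL) : M2)).trace = (P * (g : M2)).trace := by
    rw [← cj_coe, ← cj_mul, trace_cj]
  have h3 : nm (((k * g * k⁻¹ : SL) : M2) - 1) = nm (cj k ((g : M2) - 1)) := by
    rw [cj_sub, cj_one, cj_coe]
  rw [h2, h3, (hP.conj k).nm_of_hermitian hH, h0, zero_sub, norm_neg, norm_one, one_mul] at h1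
  linarith

/-- `Q = cj (k1 k) (P^g)` is close to `cj k P`. -/
theorem x2_close {k g k1 : SL} {P : M2} (hP : IsPl P) (hH : (cj k P).IsHermitian) {d : ℝ}
    (hd : d ≤ 1 / 100) (hg : nm (cj k ((g : M2) - 1)) < d) (hk1 : nm ((k1 : M2) - 1) < d) :
    nm (cj (k1 * k) (pmv P g) - cj k P) ≤ 10 * d := by
  have hd0 : 0 ≤ d := le_trans (nm_nonneg _) hg.le
  have hn1 := (hP.conj k).nm_of_hermitian hH
  have h3 : nm (((k * g * k⁻¹ : SL) : M2) - 1) = nm (cj k ((g : M2) - 1)) := by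
    rw [cj_sub, cj_one, cj_coe]
  have h4 : nm (cj k (pmv P g) - cj k P) ≤ 4 * d := by
    rw [cj_pmv]
    have := nm_pmv_sub_le (hP.conj k) (g := k * g * k⁻¹) (by
      rw [h3, hn1, one_mul]; linarith)
    rw [h3, hn1] at this
    linarith
  have h5 : nm (cj k (pmv P g)) ≤ 2 := by
    have := nm_add_le (cj k (pmv P g) - cj k P) (cj k P)
    rw [sub_add_cancel, hn1] at this
    linarith
  have h6 := nm_cj_sub_le (k1 := k1) (ε := d) (by linarith) hk1.le (cj k (pmv P g))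
  have h7 : 3 * d * nm (cj k (pmv P g)) ≤ 6 * d := by
    nlinarith [nm_nonneg (cj k (pmv P g))]
  have h8 := nm_sub_le (cj (k1 * k) (pmv P g)) (cj k (pmv P g)) (cj k P)
  rw [← cj_cj] at h8 ⊢
  linarith

/-- visibility at the points where `|q_Q| ≥ 1/2`. -/
theorem x2_vis {c C : ℝ} (hc0 : 0 < c) {E : Type u}
    [TopologicalSpace E] [T2Space E] {G : Geo E r0 L} {y : E} {k : SL} {P : M2}
    (hE : EVis G y k P c C) {g k1 : SL} {d : ℝ} (hd1 : d ≤ 1 / 100) (hd2 : d ≤ c / 4)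
    (hd3 : d ≤ c ^ 2 / 1000)
    (hg : nm (cj k ((g : M2) - 1)) < d) (hk1 : nm ((k1 : M2) - 1) < d) {ψ : V} (hψ : nsq ψ = 1)
    (hq : 1 / 2 ≤ ‖qP (cj (k1 * k) (pmv P g)) ψ‖) :
    SVis G (ac G.D y g) ((((k1 * k)⁻¹ : SL) : M2) *ᵥ ψ) (pmv P g) C := by
  obtain ⟨hP, hH, hV⟩ := hE
  have hd0 : 0 ≤ d := le_trans (nm_nonneg _) hg.le
  obtain ⟨ψ₁, hψ₁, hψ₁q, hdist⟩ := near_circle (hP.conj k) hH (ε := 10 * d) (by linarith)
    (by linarith) (x2_close hP hH hd1 hg hk1) hψ hq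
  have hsq : Real.sqrt (10 * d) ≤ c / 10 := by
    rw [show c / 10 = Real.sqrt ((c / 10) ^ 2) by rw [Real.sqrt_sq (by positivity)]]
    apply Real.sqrt_le_sqrt
    nlinarith
  have hk1' : vn (((k1⁻¹ : SL) : M2) *ᵥ ψ - ψ) < c / 4 := by
    have h1 : ((k1⁻¹ : SL) : M2) *ᵥ ψ - ψ = (((k1⁻¹ : SL) : M2) - 1) *ᵥ ψ := by
      rw [Matrix.sub_mulVec, Matrix.one_mulVec]
    rw [h1]
    have h2 := vn_mulVec_le (((k1⁻¹ : SL) : M2) - 1) ψ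
    have h3 : vn ψ = 1 := by
      have := vn_sq ψ
      rw [hψ] at this
      nlinarith [vn_nonneg ψ]
    rw [nm_inv_sub_one, h3, mul_one] at h2
    linarith
  have hlt : vn (((k1⁻¹ : SL) : M2) *ᵥ ψ - ψ₁) < c := by
    have h1 := vn_add_le (((k1⁻¹ : SL) : M2) *ᵥ ψ - ψ) (ψ - ψ₁)
    rw [sub_add_sub_cancel] at h1
    linarith
  have := hV ψ₁ hψ₁ hψ₁q g (((k1⁻¹ : SL) : M2) *ᵥ ψ) (by linarith) hlt
  rw [Matrix.mulVec_mulVec] at this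
  rw [_root_.mul_inv_rev, Matrix.SpecialLinearGroup.coe_mul]
  exact this

/-- The lower bound.

Proof. `Q := cj (k1 k) (pmv P g)`, and `cj k P =: P₁` Hermitian, `|P₁| = 1`. `|Q - P₁| ≤ C'(|g-1|_k +
|k1 - 1|)` (`cj_pmv`, `nm_pmv_sub_le`, `nm_cj_sub_le`), so `≤ ε` with `4√ε` smaller than `c/4` for
`c4` small, and `Q` is a plane (`IsPl.move`, trace near `1`). `exists_max_qP`: `M ≥ 1/2`, unit `ψ`,
`‖q_Q(ψ)‖ = M`, `fro Q = 1 + (M - 1/(4M))²`. `near_circle`: `ψ₁` on the circle of `P₁` with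
`|ψ - ψ₁| ≤ 4√ε`. Put `ψ' = k1⁻¹ ψ`, `|ψ' - ψ₁| < c` for `c4` small. `EVis` at `ψ₁` gives
`SVis G (y.g) (k⁻¹ ψ') (pmv P g) C`, so `e(y.g, (k1 k)⁻¹ ψ) ≥ ‖qP (pmv P g) ((k1 k)⁻¹ ψ)‖ =
‖q_Q(ψ)‖ = M`. So `m(y.g,k1 k) ≥ M ≥ 1/2` and `sq_sub_mono` gives
`v ≥ (M - 1/(4M))² = fro Q - 1`. -/
theorem EVis_lower (hc : Cst r0 L) {c C : ℝ} (hc0 : 0 < c) : ∃ c4 > 0, ∀ (E : Type u)
    [TopologicalSpace E] [T2Space E] (G : Geo E r0 L) (y : E) (k : SL) (P : M2),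
    EVis G y k P c C → ∀ g k1 : SL,
      nm (cj k ((g : M2) - 1)) < c4 → nm ((k1 : M2) - 1) < c4 →
      fro (cj (k1 * k) (pmv P g)) - 1 ≤ vD G.D (ac G.D y g) (k1 * k) := by
  refine ⟨min (1 / 100) (min (c / 4) (c ^ 2 / 1000)), by positivity, ?_⟩
  intro E _ _ G y k P hE g k1 hg hk1
  have hd1 : min (1 / 100) (min (c / 4) (c ^ 2 / 1000)) ≤ (1 / 100 : ℝ) := min_le_left _ _
  have hd2 : min (1 / 100) (min (c / 4) (c ^ 2 / 1000)) ≤ c / 4 :=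
    le_trans (min_le_right _ _) (min_le_left _ _)
  have hd3 : min (1 / 100) (min (c / 4) (c ^ 2 / 1000)) ≤ c ^ 2 / 1000 :=
    le_trans (min_le_right _ _) (min_le_right _ _)
  have htr : (P * (g : M2)).trace ≠ 0 := x2_trace hE.1 hE.2.1 (by linarith)
  have hQ : IsPl (cj (k1 * k) (pmv P g)) := (hE.1.move htr).conj _
  obtain ⟨M, ψ, hM, hψ, hqM, hfro⟩ := exists_max_qP hQ
  have hvis := x2_vis hc0 hE hd1 hd2 hd3 hg hk1 hψ (by rw [hqM]; exact hM)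
  have h1 := SVis.le hc hvis
  rw [qP_cj', hqM] at h1
  have h2 := eD_le_mD hc G (ac G.D y g) (k1 * k) ψ
  rw [hψ, mul_one] at h2
  have h3 : M ≤ mD G.D (ac G.D y g) (k1 * k) := le_trans h1 h2
  rw [hfro, vD]
  have := sq_sub_mono hM h3
  linarith

/-- A strongly visible point at `(y.g, k1 k)` when `Q = cj (k1 k) (pmv P g)` is Hermitian: for
`|g-1|_k, |k1-1| < c4` there is a unit vector `ψ` with `‖q_Q(ψ)‖ = 1/2` and
`SVis G (y.g) ((k1 k)⁻¹ ψ) (pmv P g) C`.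

Proof. As in `EVis_lower`: take any `ψ` on the circle of `Q` (`circle_preconnected`, nonempty),
`near_circle`. -/
theorem EVis_point (hc : Cst r0 L) {c C : ℝ} (hc0 : 0 < c) : ∃ c4 > 0, ∀ (E : Type u)
    [TopologicalSpace E] [T2Space E] (G : Geo E r0 L) (y : E) (k : SL) (P : M2),
    EVis G y k P c C → ∀ g k1 : SL,
      nm (cj k ((g : M2) - 1)) < c4 → nm ((k1 : M2) - 1) < c4 → IsPl (pmv P g) ∧
      ((cj (k1 * k) (pmv P g)).IsHermitian → ∃ ψ : V, nsq ψ = 1 ∧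
        ‖qP (cj (k1 * k) (pmv P g)) ψ‖ = 1 / 2 ∧
        SVis G (ac G.D y g) ((((k1 * k)⁻¹ : SL) : M2) *ᵥ ψ) (pmv P g) C) := by
  refine ⟨min (1 / 100) (min (c / 4) (c ^ 2 / 1000)), by positivity, ?_⟩
  intro E _ _ G y k P hE g k1 hg hk1
  have hd1 : min (1 / 100) (min (c / 4) (c ^ 2 / 1000)) ≤ (1 / 100 : ℝ) := min_le_left _ _
  have hd2 : min (1 / 100) (min (c / 4) (c ^ 2 / 1000)) ≤ c / 4 :=
    le_trans (min_le_right _ _) (min_le_left _ _)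
  have hd3 : min (1 / 100) (min (c / 4) (c ^ 2 / 1000)) ≤ c ^ 2 / 1000 :=
    le_trans (min_le_right _ _) (min_le_right _ _)
  have htr : (P * (g : M2)).trace ≠ 0 := x2_trace hE.1 hE.2.1 (by linarith)
  refine ⟨hE.1.move htr, fun hHQ => ?_⟩
  have hQ : IsPl (cj (k1 * k) (pmv P g)) := (hE.1.move htr).conj _
  obtain ⟨⟨ψ, hψ, hqψ⟩, -⟩ := circle_preconnected hQ hHQ
  exact ⟨ψ, hψ, hqψ, x2_vis hc0 hE hd1 hd2 hd3 hg hk1 hψ (by rw [hqψ])⟩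

end HRK
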