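import Mathlib

/-!
# HRK-Y1 : functions of one complex variable with holomorphic supports, maximum principle
-/

namespace HRK

open Set Filter Topology

/-- `f : ℂ → ℝ` is continuous, `≥ 0` and has holomorphic supports on the open set `U`. -/
def HS1 (U : Set ℂ) (f : ℂ → ℝ) : Prop :=
  ContinuousOn f U ∧ (∀ z ∈ U, 0 ≤ f z) ∧ ∀ z ∈ U, 0 < f z →
    ∃ (r : ℝ) (F : ℂ → ℂ), 0 < r ∧ Metric.ball z r ⊆ U ∧ DifferentiableOn ℂ F (Metric.ball z r) ∧
      ‖F z‖ = f z ∧ ∀ w ∈ Metric.ball z r, ‖F w‖ ≤ f w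

/-- restriction to a smaller open set. Proof. Shrink `r` so that the ball is in `U'`. -/
theorem HS1.mono {U U' : Set ℂ} {f : ℂ → ℝ} (h : HS1 U f) (hU' : IsOpen U') (hs : U' ⊆ U) :
    HS1 U' f := by
  refine ⟨h.1.mono hs, fun z hz => h.2.1 z (hs hz), fun z hz hpos => ?_⟩
  obtain ⟨r, F, hr, hball, hF, hFz, hFle⟩ := h.2.2 z (hs hz) hpos
  obtain ⟨ε, hε, hεU⟩ := Metric.isOpen_iff.1 hU' z hz
  have hsub : Metric.ball z (min r ε) ⊆ Metric.ball z r := Metric.ball_subset_ball (min_le_left _ _)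
  exact ⟨min r ε, F, lt_min hr hε, (Metric.ball_subset_ball (min_le_right _ _)).trans hεU,
    hF.mono hsub, hFz, fun w hw => hFle w (hsub hw)⟩

/-- multiplication by the modulus of a holomorphic function. Proof. If `f z * ‖G z‖ > 0` then
`f z > 0`; take `F * G` on the same ball. -/
theorem HS1.mul_norm {U : Set ℂ} {f : ℂ → ℝ} (h : HS1 U f) {G : ℂ → ℂ}
    (hG : DifferentiableOn ℂ G U) : HS1 U (fun z => f z * ‖G z‖) := by
  refine ⟨h.1.mul hG.continuousOn.norm, fun z hz => mul_nonneg (h.2.1 z hz) (norm_nonneg _),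
    fun z hz hpos => ?_⟩
  have hpos : 0 < f z * ‖G z‖ := hpos
  have hfz : 0 < f z := by
    rcases (h.2.1 z hz).eq_or_lt with h0 | h0
    · rw [← h0, zero_mul] at hpos
      exact absurd hpos (lt_irrefl _)
    · exact h0
  obtain ⟨r, F, hr, hball, hF, hFz, hFle⟩ := h.2.2 z hz hfz
  refine ⟨r, fun w => F w * G w, hr, hball, hF.mul (hG.mono hball), ?_, fun w hw => ?_⟩
  · rw [norm_mul, hFz]
  · rw [norm_mul]
    exact mul_le_mul_of_nonneg_right (hFle w hw) (norm_nonneg _)

/-- Maximum principle.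
Proof. `K = closure U` is compact; suppose `f z₁ > M` for some `z₁ ∈ K`, and let `z₀ ∈ K` maximise
`f` on `K`, `m = f z₀ > M ≥ 0`. Let `S = {z ∈ K | f z = m}`: closed (`ContinuousOn` on a closed
set), nonempty, contained in `U` (`K = U ∪ frontier U`, and `f ≤ M < m` on the frontier; note
`frontier U = closure U \ U` as `U` is open). `S` is open: for `z ∈ S` take `r, F` from `HS1`;
`‖F w‖ ≤ f w ≤ m = ‖F z‖` on the ball, so `‖F w‖ = m` on the ball
(`Complex.norm_eqOn_of_isPreconnected_of_isMaxOn`), so `f w ≥ m`, `f w = m`. So `S` is clopen in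
`ℂ`, `S = univ` (`IsClopen.eq_univ`), but `S ⊆ K` is bounded; contradiction. -/
theorem HS1.max_principle {U : Set ℂ} (hU : IsOpen U) (hb : Bornology.IsBounded U) {f : ℂ → ℝ}
    (hf : HS1 U f) (hc : ContinuousOn f (closure U)) {M : ℝ} (hM : 0 ≤ M)
    (h : ∀ z ∈ frontier U, f z ≤ M) : ∀ z ∈ closure U, f z ≤ M := by
  by_contra hcon
  push Not at hcon
  obtain ⟨z₁, hz₁, hz₁M⟩ := hcon
  have hK : IsCompact (closure U) := Metric.isCompact_of_isClosed_isBounded isClosed_closure hb.closure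
  obtain ⟨z₀, hz₀, hmax⟩ := hK.exists_isMaxOn ⟨z₁, hz₁⟩ hc
  have hm : M < f z₀ := lt_of_lt_of_le hz₁M (hmax hz₁)
  have hclosed : IsClosed (closure U ∩ f ⁻¹' {f z₀}) :=
    hc.preimage_isClosed_of_isClosed isClosed_closure isClosed_singleton
  have hopen : IsOpen (closure U ∩ f ⁻¹' {f z₀}) := by
    rw [Metric.isOpen_iff]
    rintro z ⟨hz, hfz⟩
    have hfz' : f z = f z₀ := hfz
    have hzU : z ∈ U := by
      by_contra hzU
      have hfr : z ∈ frontier U := by
        rw [frontier, hU.interior_eq]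
        exact ⟨hz, hzU⟩
      have := h z hfr
      linarith
    obtain ⟨r, F, hr, hball, hF, hFz, hFle⟩ := hf.2.2 z hzU (by linarith)
    refine ⟨r, hr, fun w hw => ?_⟩
    have hmaxF : IsMaxOn (norm ∘ F) (Metric.ball z r) z := by
      intro w hw
      show ‖F w‖ ≤ ‖F z‖
      rw [hFz, hfz']
      exact (hFle w hw).trans (hmax (subset_closure (hball hw)))
    have heq := Complex.norm_eqOn_of_isPreconnected_of_isMaxOn
      (convex_ball z r).isPreconnected Metric.isOpen_ball hF (Metric.mem_ball_self hr) hmaxF hw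
    have heq' : ‖F w‖ = ‖F z‖ := heq
    refine ⟨subset_closure (hball hw), ?_⟩
    show f w = f z₀
    apply le_antisymm (hmax (subset_closure (hball hw)))
    rw [← hfz', ← hFz, ← heq']
    exact hFle w hw
  have huniv : closure U ∩ f ⁻¹' {f z₀} = univ :=
    IsClopen.eq_univ ⟨hclosed, hopen⟩ ⟨z₀, hz₀, rfl⟩
  have hKuniv : closure U = univ := by
    apply Set.eq_univ_of_univ_subset
    rw [← huniv]
    exact Set.inter_subset_left
  rw [hKuniv] at hK
  exact noncompact_univ ℂ hK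

/-- Identity principle on a disc.
Proof. Let `‖z‖ < R`. If `‖z‖ < r` it is the hypothesis. Otherwise choose `R'` with
`‖z‖ < R' < R`, let `M ≥ 0` be an upper bound of `f` on `closedBall 0 R'` (compact). For `K : ℕ`
apply `max_principle` to `U = {w | r/2 < ‖w‖ ∧ ‖w‖ < R'}` and
`g w = f w * ‖((R' : ℂ) / w) ^ K‖` (`HS1.mono`, `HS1.mul_norm`; `w ≠ 0` on `U`): the closure of `U`
is contained in `{r/2 ≤ ‖w‖ ≤ R'}`, the frontier in `{‖w‖ = r/2} ∪ {‖w‖ = R'}`, where `g = 0` resp.
`g = f ≤ M`. So `f z * (R'/‖z‖)^K ≤ M` for all `K`, and `R'/‖z‖ > 1`: `f z = 0`. -/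
theorem HS1.zero_of_ball {R r : ℝ} (hr : 0 < r) {f : ℂ → ℝ} (hf : HS1 (Metric.ball 0 R) f)
    (h0 : ∀ z : ℂ, ‖z‖ < r → ‖z‖ < R → f z = 0) : ∀ z ∈ Metric.ball (0:ℂ) R, f z = 0 := by
  intro z hz
  have hzR : ‖z‖ < R := by simpa using hz
  rcases lt_or_ge ‖z‖ r with hzr | hzr
  · exact h0 z hzr hzR
  have hz0 : 0 < ‖z‖ := lt_of_lt_of_le hr hzr
  set R' : ℝ := (‖z‖ + R) / 2 with hR'
  have hzR' : ‖z‖ < R' := by rw [hR']; linarith
  have hR'R : R' < R := by rw [hR']; linarith
  have hR'0 : 0 < R' := hz0.trans hzR'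
  have hsub : Metric.closedBall (0:ℂ) R' ⊆ Metric.ball 0 R := Metric.closedBall_subset_ball hR'R
  obtain ⟨C, hC⟩ := (isCompact_closedBall (0:ℂ) R').exists_bound_of_continuousOn (hf.1.mono hsub)
  have hMle : ∀ w : ℂ, ‖w‖ ≤ R' → f w ≤ max C 0 := by
    intro w hw
    have h1 := hC w (by simpa using hw)
    exact (le_abs_self _).trans (h1.trans (le_max_left _ _))
  set U : Set ℂ := {w | r / 2 < ‖w‖ ∧ ‖w‖ < R'} with hUdef
  have hUo : IsOpen U :=
    (isOpen_lt continuous_const continuous_norm).inter (isOpen_lt continuous_norm continuous_const)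
  have hUb : Bornology.IsBounded U :=
    Metric.isBounded_closedBall.subset (fun w hw => by
      have : ‖w‖ < R' := hw.2
      simpa using this.le : U ⊆ Metric.closedBall (0:ℂ) R')
  have hcl : closure U ⊆ {w : ℂ | r / 2 ≤ ‖w‖ ∧ ‖w‖ ≤ R'} := by
    apply closure_minimal
    · rintro w ⟨h1, h2⟩
      exact ⟨h1.le, h2.le⟩
    · exact (isClosed_le continuous_const continuous_norm).inter
        (isClosed_le continuous_norm continuous_const)
  have hne : ∀ w : ℂ, r / 2 ≤ ‖w‖ → w ≠ 0 := by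
    rintro w hw rfl
    rw [norm_zero] at hw
    linarith
  have hUR : U ⊆ Metric.ball 0 R := by
    rintro w ⟨-, h2⟩
    have : ‖w‖ < R := h2.trans hR'R
    simpa using this
  have hzU : z ∈ U := ⟨by linarith, hzR'⟩
  have key : ∀ K : ℕ, f z * (R' / ‖z‖) ^ K ≤ max C 0 := by
    intro K
    have hG : DifferentiableOn ℂ (fun w : ℂ => ((R' : ℂ) / w) ^ K) U := by
      intro w hw
      have hw0 : w ≠ 0 := hne w hw.1.le
      exact (((differentiableAt_const (R' : ℂ)).div differentiableAt_id hw0).pow K).differentiableWithinAt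
    have hHS := (hf.mono hUo hUR).mul_norm hG
    have hcont : ContinuousOn (fun w : ℂ => f w * ‖((R' : ℂ) / w) ^ K‖) (closure U) := by
      refine ContinuousOn.mul (hf.1.mono ?_) (ContinuousOn.norm ?_)
      · intro w hw
        have h2 := (hcl hw).2
        exact hsub (by simpa using h2)
      · intro w hw
        have hw0 : w ≠ 0 := hne w (hcl hw).1
        exact ((continuousAt_const.div continuousAt_id hw0).pow K).continuousWithinAt
    have hfr : ∀ w ∈ frontier U, f w * ‖((R' : ℂ) / w) ^ K‖ ≤ max C 0 := by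
      intro w hw
      rw [frontier, hUo.interior_eq] at hw
      obtain ⟨hw1, hw2⟩ := hw
      obtain ⟨h1, h2⟩ := hcl hw1
      rcases h1.eq_or_lt with h3 | h3
      · have h4 : f w = 0 := h0 w (by linarith) (by linarith)
        rw [h4, zero_mul]
        exact le_max_right _ _
      · rcases h2.eq_or_lt with h4 | h4
        · have h5 : ‖((R' : ℂ) / w) ^ K‖ = 1 := by
            rw [norm_pow, norm_div, Complex.norm_real, Real.norm_eq_abs, abs_of_pos hR'0, h4,
              div_self hR'0.ne', one_pow]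
          rw [h5, mul_one]
          exact hMle w h2
        · exact absurd ⟨h3, h4⟩ hw2
    have h1 := HS1.max_principle hUo hUb hHS hcont (le_max_right C 0) hfr z (subset_closure hzU)
    have h2 : ‖((R' : ℂ) / z) ^ K‖ = (R' / ‖z‖) ^ K := by
      rw [norm_pow, norm_div, Complex.norm_real, Real.norm_eq_abs, abs_of_pos hR'0]
    rw [← h2]
    exact h1
  by_contra hfz
  have hfz0 : 0 < f z := lt_of_le_of_ne (hf.2.1 z hz) (Ne.symm hfz)
  obtain ⟨n, hn⟩ := pow_unbounded_of_one_lt (max C 0 / f z) ((one_lt_div hz0).2 hzR')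
  have h1 := key n
  rw [div_lt_iff₀ hfz0] at hn
  linarith

end HRK
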