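import Pool.Agent.HRK.Y1
import Pool.Agent.HRK.B4

/-!
# HRK-Y2 : functions with holomorphic supports along complex lines of the charts
-/

namespace HRK

open Set Filter Topology Matrix

variable {E : Type*} [TopologicalSpace E] [T2Space E] {D : E → SL}

/-- Proof. `isOpen_St`, `zero_mem_St`, `exists_nm_ball`, `one_cj`. -/
theorem exists_FB (hD : IsLocalHomeomorph (Dh D)) (y : E) :
    ∃ r : ℝ, 0 < r ∧ r ≤ 1 / 2 ∧ FB D y 1 r := by
  obtain ⟨r, hr, h⟩ := exists_nm_ball ((isOpen_St hD y).mem_nhds (zero_mem_St (D := D) y))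
  refine ⟨min r (1 / 2), lt_min hr (by norm_num), min_le_right _ _, ?_⟩
  intro X hX
  rw [one_cj] at hX
  exact h X (lt_of_lt_of_le hX (min_le_left _ _))

theorem y2_line_continuous (X₀ Z : M2) : Continuous fun l : ℂ => X₀ + l • Z := by
  fun_prop

theorem y2_isOpen (k : SL) (r : ℝ) (X₀ Z : M2) : IsOpen {l : ℂ | nm (cj k (X₀ + l • Z)) < r} :=
  (isOpen_cj_ball k r).preimage (y2_line_continuous X₀ Z)

/-- An HS function on `E` restricted to a complex line of the chart `X ↦ y.(1+X)`.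
Proof. Continuity: `f` is continuous and `l ↦ mvp D y (X₀ + l • Z)` is continuous on the set
(`continuousOn_mvp_right`). The set is open. Let `l₀` be in the set with `f(y₁) > 0`,
`y₁ = mvp D y X₁`, `X₁ = X₀ + l₀ • Z`. `1 + X₁` is invertible (`det_ne_zero_of_mem`); let
`W = (1 + X₁)⁻¹ * Z`. Then `(1 + X₁)(1 + (l - l₀) • W) - 1 = X₀ + l • Z`, so by `mvp_mvp_convex` with
`C = {X | nm (cj k X) < r}` (`convex_cj_ball`), `mvp D y₁ ((l-l₀) • W) = mvp D y (X₀ + l • Z)` for
`l` in the set. Let `r', F` be the support of `f` at `y₁` (`HS`). The function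
`l ↦ F ((l - l₀) • W)` is holomorphic where `nm ((l-l₀) • W) < r'` (last clause of `HS` with
`X = 0`, `Z = W`, composed with `l ↦ l - l₀`), which contains a ball around `l₀`; shrink the ball to
be in the set. -/
theorem HS.line (hD : IsLocalHomeomorph (Dh D)) {f : E → ℝ} (hf : HS D univ f) {y : E} {k : SL}
    {r : ℝ} (hF : FB D y k r) (X₀ Z : M2) :
    HS1 {l : ℂ | nm (cj k (X₀ + l • Z)) < r} (fun l => f (mvp D y (X₀ + l • Z))) := by
  obtain ⟨hfc, hf0, hfs⟩ := hf
  rw [continuousOn_univ] at hfc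
  have hU : IsOpen {l : ℂ | nm (cj k (X₀ + l • Z)) < r} := y2_isOpen k r X₀ Z
  refine ⟨?_, fun l _ => hf0 _ (mem_univ _), ?_⟩
  · refine Continuous.comp_continuousOn' hfc ?_
    have h0 : MapsTo (fun l : ℂ => X₀ + l • Z) {l : ℂ | nm (cj k (X₀ + l • Z)) < r} (St D y) := by
      intro l hl
      exact hF _ hl
    exact (continuousOn_mvp_right hD y).comp (y2_line_continuous X₀ Z).continuousOn h0
  · intro l₀ hl₀ hpos
    have hmem : X₀ + l₀ • Z ∈ St D y := hF _ hl₀
    have hdet : (1 + (X₀ + l₀ • Z)).det ≠ 0 := det_ne_zero_of_mem hmem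
    have hunit : IsUnit (1 + (X₀ + l₀ • Z)).det := isUnit_iff_ne_zero.mpr hdet
    obtain ⟨r', F, hr', hF0, hFle, hFd⟩ := hfs (mvp D y (X₀ + l₀ • Z)) (mem_univ _) hpos
    set W : M2 := (1 + (X₀ + l₀ • Z))⁻¹ * Z with hW
    have hkey : ∀ l : ℂ, (1 + (X₀ + l₀ • Z)) * (1 + (l - l₀) • W) - 1 = X₀ + l • Z := by
      intro l
      have h1 : (1 + (X₀ + l₀ • Z)) * W = Z := by
        rw [hW, ← Matrix.mul_assoc, Matrix.mul_nonsing_inv _ hunit, Matrix.one_mul]
      rw [Matrix.mul_add, Matrix.mul_one, Matrix.mul_smul, h1, sub_smul]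
      abel
    have hcomp : ∀ l : ℂ, nm (cj k (X₀ + l • Z)) < r →
        mvp D (mvp D y (X₀ + l₀ • Z)) ((l - l₀) • W) = mvp D y (X₀ + l • Z) := by
      intro l hl
      have h2 := (mvp_mvp_convex hD (convex_cj_ball k r) (fun X hX => hF X hX) (X := X₀ + l₀ • Z)
        (Y := (l - l₀) • W) hl₀ (by
          rw [hkey l]
          exact hl)).2
      rw [hkey l] at h2
      exact h2
    obtain ⟨ρ, hρ, hball⟩ := Metric.isOpen_iff.mp hU l₀ hl₀
    have hnW : 0 ≤ nm W := nm_nonneg W
    set ε : ℝ := min ρ (r' / (nm W + 1)) with hε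
    have hεpos : 0 < ε := lt_min hρ (div_pos hr' (by linarith))
    have hsmall : ∀ l ∈ Metric.ball l₀ ε, nm ((l - l₀) • W) < r' := by
      intro l hl
      rw [nm_smul]
      have h3 : ‖l - l₀‖ < r' / (nm W + 1) := by
        rw [← dist_eq_norm]
        exact lt_of_lt_of_le (Metric.mem_ball.mp hl) (min_le_right _ _)
      rw [lt_div_iff₀ (by linarith)] at h3
      nlinarith [norm_nonneg (l - l₀)]
    have hsub : Metric.ball l₀ ε ⊆ {l : ℂ | nm (cj k (X₀ + l • Z)) < r} := fun l hl =>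
      hball (Metric.ball_subset_ball (min_le_left _ _) hl)
    refine ⟨ε, fun l => F ((l - l₀) • W), hεpos, hsub, ?_, ?_, ?_⟩
    · have h4 := hFd 0 W
      have h5 : DifferentiableOn ℂ (fun l : ℂ => l - l₀) (Metric.ball l₀ ε) :=
        differentiableOn_id.sub_const l₀
      have h6 := h4.comp h5 (fun l hl => by
        show nm (0 + (l - l₀) • W) < r'
        rw [zero_add]
        exact hsmall l hl)
      refine h6.congr ?_
      intro l _
      simp [Function.comp]
    · simp only [sub_self, zero_smul]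
      exact hF0
    · intro l hl
      have h7 := (hFle ((l - l₀) • W) (hsmall l hl)).2.2
      rw [hcomp l (hsub hl)] at h7
      exact h7

end HRK
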