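import Pool.Agent.HRK.Y2

/-!
# HRK-Y2b : identity principle for functions with holomorphic supports on `E`
-/

namespace HRK

open Set Filter Topology Matrix

variable {E : Type*} [TopologicalSpace E] [T2Space E] {D : E → SL}

/-- Identity principle.
Proof. `Z = interior {y | f y = 0}` is open, nonempty. It is closed: let `y ∈ closure Z`, `r` from
`exists_FB`. By `ac_nhds` (second part, `k = 1`, `c = r/4`) there is `g` with `nm (g - 1) < r/4` and
`ac D y g ∈ Z`; `X₀ = g - 1`, `mvp D y X₀ = ac D y g`. The set of `X` with `nm X < r`,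
`mvp D y X ∈ Z` is open (`continuousOn_mvp_right`, `isOpen_St`), so there is `ρ > 0` with
`f (mvp D y X) = 0` if `nm (X - X₀) < ρ`. Let `nm X₁ < r/4`. Apply `HS.line` (`k = 1`) to
`l ↦ X₀ + l • (X₁ - X₀)`: for `‖l‖ < 3/2` its norm is `≤ r/4 + (3/2)(r/2)`, strictly `< r`; so
`HS1 (ball 0 (3/2))` (`HS1.mono`), and the function vanishes for
`‖l‖ * nm (X₁ - X₀) < ρ`, in particular for `‖l‖ < ρ / (r + 1)`. `HS1.zero_of_ball` at `l = 1`:
`f (mvp D y X₁) = 0`. So `f = 0` on `{ac D y g | nm (g - 1) < r/4}`, a neighbourhood of `y`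
(`ac_nhds`): `y ∈ Z`. As `E` is connected, `Z = univ`. -/
theorem HS.eq_zero [ConnectedSpace E] (hD : IsLocalHomeomorph (Dh D)) {f : E → ℝ}
    (hf : HS D univ f) {W : Set E} (hW : IsOpen W) (hWn : W.Nonempty) (h0 : ∀ y ∈ W, f y = 0) :
    ∀ y, f y = 0 := by
  have hZo : IsOpen (interior {y | f y = 0}) := isOpen_interior
  have hZn : (interior {y | f y = 0}).Nonempty :=
    hWn.mono (interior_maximal (fun y hy => h0 y hy) hW)
  have hZc : IsClosed (interior {y | f y = 0}) := by
    apply isClosed_of_closure_subset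
    intro y hy
    obtain ⟨r, hr0, hr1, hF⟩ := exists_FB hD y
    have hnh := (ac_nhds hD y 1).2 (r / 4) (by positivity)
    obtain ⟨y', hy'1, hy'2⟩ := mem_closure_iff_nhds.1 hy _ hnh
    obtain ⟨g0, hg0, rfl⟩ := hy'1
    rw [one_cj] at hg0
    set X₀ : M2 := (g0 : M2) - 1 with hX₀
    have hX₀St : X₀ ∈ St D y := hF X₀ (by rw [one_cj]; linarith)
    have hcont : ContinuousAt (mvp D y) X₀ :=
      (continuousOn_mvp_right hD y).continuousAt ((isOpen_St hD y).mem_nhds hX₀St)
    obtain ⟨ρ, hρ, hρX⟩ := exists_nm_ball' (hcont.preimage_mem_nhds (hZo.mem_nhds hy'2))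
    have hzero : ∀ X : M2, nm (X - X₀) < ρ → f (mvp D y X) = 0 := by
      intro X hX
      have h7 : mvp D y X ∈ interior {y | f y = 0} := hρX X hX
      exact (interior_subset h7 : mvp D y X ∈ {y | f y = 0})
    have key : ∀ X₁ : M2, nm X₁ < r / 4 → f (mvp D y X₁) = 0 := by
      intro X₁ hX₁
      have hdiff : nm (X₁ - X₀) < r / 2 := by
        have h1 := nm_sub_le X₁ 0 X₀
        rw [sub_zero, zero_sub, nm_neg] at h1
        linarith
      have hline := hf.line hD hF X₀ (X₁ - X₀)
      have hmono : HS1 (Metric.ball (0:ℂ) (3 / 2)) (fun l => f (mvp D y (X₀ + l • (X₁ - X₀)))) := by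
        refine hline.mono Metric.isOpen_ball ?_
        intro l hl
        rw [Metric.mem_ball, dist_zero_right] at hl
        show nm (cj 1 (X₀ + l • (X₁ - X₀))) < r
        rw [one_cj]
        have h1 := nm_add_le X₀ (l • (X₁ - X₀))
        rw [nm_smul] at h1
        have h2 : ‖l‖ * nm (X₁ - X₀) ≤ 3 / 2 * (r / 2) :=
          mul_le_mul hl.le hdiff.le (nm_nonneg _) (by norm_num)
        linarith
      have hz := hmono.zero_of_ball (r := ρ / (r + 1)) (by positivity) (by
        intro z hz1 _
        apply hzero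
        rw [add_sub_cancel_left, nm_smul]
        have h3 : ‖z‖ * (r + 1) < ρ := (lt_div_iff₀ (by positivity)).1 hz1
        have h4 : ‖z‖ * nm (X₁ - X₀) ≤ ‖z‖ * (r + 1) :=
          mul_le_mul_of_nonneg_left (by linarith) (norm_nonneg z)
        linarith)
      have h5 := hz 1 (by
        rw [Metric.mem_ball, dist_zero_right, norm_one]
        norm_num)
      simp only [one_smul, add_sub_cancel] at h5
      exact h5
    rw [mem_interior_iff_mem_nhds]
    refine mem_of_superset hnh ?_
    rintro y'' ⟨g, hg, rfl⟩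
    rw [one_cj] at hg
    exact key _ hg
  have hU : interior {y | f y = 0} = univ := IsClopen.eq_univ ⟨hZc, hZo⟩ hZn
  intro y
  have h6 : y ∈ interior {y | f y = 0} := by rw [hU]; exact mem_univ y
  exact (interior_subset h6 : y ∈ {y | f y = 0})

end HRK
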