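import Mathlib

/-!
# HRK-Z1 : functions with local conical supports (section 12, elementary lemma)

`CS F`: `F ≥ 0` continuous on `ℂ`, not identically `0`, and at every `z₀` with `F z₀ > 0` there is
`β` with `F z₀ = |z₀ - β|` and `|z - β| ≤ F z` for `z` near `z₀`. Then these inequalities are global.
-/

namespace HRK

open Set Filter Topology

/-- functions with local conical supports. -/
structure CS (F : ℂ → ℝ) : Prop where
  cont : Continuous F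
  nonneg : ∀ z, 0 ≤ F z
  ne : ∃ z, 0 < F z
  supp : ∀ z₀, 0 < F z₀ → ∃ β : ℂ, F z₀ = ‖z₀ - β‖ ∧ ∀ᶠ z in 𝓝 z₀, ‖z - β‖ ≤ F z

/-- A continuous function on `[a,b]`, with a local affine support from below at every interior
point, and `≤ 0` at the end points, is `≤ 0`.

Proof. Suppose the maximum `M` over `[a,b]` is positive, and let `s'` be the smallest point where it
is attained (the set of maximum points is closed; `IsCompact.exists_isMaxOn`, `sInf`); `a < s' < b`.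
With the support at `s'`: `M + m (t - s') ≤ κ t ≤ M` for `t` near `s'`, on both sides, so `m = 0`, and
`κ t = M` near `s'`: contradiction with the minimality of `s'`. -/
theorem le_zero_of_local_support {κ : ℝ → ℝ} {a b : ℝ} (hab : a < b)
    (hc : ContinuousOn κ (Icc a b))
    (hs : ∀ s ∈ Ioo a b, ∃ m : ℝ, ∀ᶠ t in 𝓝 s, κ s + m * (t - s) ≤ κ t)
    (ha : κ a ≤ 0) (hb : κ b ≤ 0) : ∀ s ∈ Icc a b, κ s ≤ 0 := by
  intro s0 hs0
  by_contra hpos
  push Not at hpos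
  obtain ⟨x, hx, hmax⟩ := isCompact_Icc.exists_isMaxOn (nonempty_Icc.mpr hab.le) hc
  have hmax' : ∀ t ∈ Icc a b, κ t ≤ κ x := fun t ht => hmax ht
  have hM : 0 < κ x := lt_of_lt_of_le hpos (hmax' s0 hs0)
  have hclosed : IsClosed (Icc a b ∩ κ ⁻¹' {κ x}) :=
    hc.preimage_isClosed_of_isClosed isClosed_Icc isClosed_singleton
  have hcomp : IsCompact (Icc a b ∩ κ ⁻¹' {κ x}) :=
    isCompact_Icc.of_isClosed_subset hclosed inter_subset_left
  obtain ⟨s, hsA, hleast⟩ := hcomp.exists_isLeast ⟨x, hx, rfl⟩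
  have hsM : κ s = κ x := hsA.2
  have hsa : a < s := by
    rcases eq_or_lt_of_le hsA.1.1 with h | h
    · rw [← h] at hsM
      linarith
    · exact h
  have hsb : s < b := by
    rcases eq_or_lt_of_le hsA.1.2 with h | h
    · rw [h] at hsM
      linarith
    · exact h
  obtain ⟨m, hm⟩ := hs s ⟨hsa, hsb⟩
  have hev := hm.and (Ioo_mem_nhds hsa hsb)
  obtain ⟨ε, hε, hball⟩ := Metric.eventually_nhds_iff.mp hev
  have h1 := hball (y := s + ε / 2) (by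
    rw [Real.dist_eq, add_sub_cancel_left, abs_of_pos (by linarith)]
    linarith)
  have h2 := hball (y := s - ε / 2) (by
    rw [Real.dist_eq, sub_sub_cancel_left, abs_neg, abs_of_pos (by linarith)]
    linarith)
  obtain ⟨h1a, h1b⟩ := h1
  obtain ⟨h2a, h2b⟩ := h2
  have h1c := hmax' _ (Ioo_subset_Icc_self h1b)
  have h2c := hmax' _ (Ioo_subset_Icc_self h2b)
  have h3 : m * (ε / 2) ≤ 0 := by
    have : m * (s + ε / 2 - s) = m * (ε / 2) := by ring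
    linarith
  have h4 : 0 ≤ m * (ε / 2) := by
    have : m * (s - ε / 2 - s) = - (m * (ε / 2)) := by ring
    linarith
  have h5 : κ (s - ε / 2) = κ x := by
    have : m * (s - ε / 2 - s) = - (m * (ε / 2)) := by ring
    exact le_antisymm h2c (by linarith)
  have h6 := hleast ⟨Ioo_subset_Icc_self h2b, h5⟩
  linarith

/-- The local inequality is global along segments on which `F > 0`.

Proof. `z(s) = z₀ + s (z₁ - z₀)`, `δ(s) = F(z(s))² - |z(s) - β|²`, continuous, `δ(0) = 0`, `δ ≥ 0` near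
`0`. At `s` with `F(z(s)) > 0` let `β'` be as in `supp`: near `s`,
`δ(t) ≥ |z(t) - β'|² - |z(t) - β|²`, which is an affine function of `t` (the quadratic terms cancel),
with equality at `s`. Suppose `δ(s₁) < 0` for some `s₁ ∈ (0,1]`. Apply `le_zero_of_local_support` on
`[0,s₁]` to `κ(s) = δ(s) - (s/s₁) δ(s₁)`: `κ ≤ 0`, so `δ(s) ≤ (s/s₁) δ(s₁) < 0` for `s ∈ (0,s₁)`:
contradiction with `δ ≥ 0` near `0`. So `δ(1) ≥ 0` (square roots: both sides are nonnegative). -/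
theorem CS.le_of_segment {F : ℂ → ℝ} (h : CS F) {z₀ z₁ β : ℂ} (h0 : F z₀ = ‖z₀ - β‖)
    (hs : ∀ᶠ z in 𝓝 z₀, ‖z - β‖ ≤ F z)
    (hpos : ∀ s ∈ Ico (0:ℝ) 1, 0 < F (z₀ + (s : ℂ) * (z₁ - z₀))) : ‖z₁ - β‖ ≤ F z₁ := by
  by_contra hcon
  push Not at hcon
  have hzc : Continuous fun s : ℝ => z₀ + (s : ℂ) * (z₁ - z₀) := by fun_prop
  have hδc : Continuous fun s : ℝ => F (z₀ + (s : ℂ) * (z₁ - z₀)) ^ 2 -
      ‖z₀ + (s : ℂ) * (z₁ - z₀) - β‖ ^ 2 := by
    have h1 : Continuous fun s : ℝ => F (z₀ + (s : ℂ) * (z₁ - z₀)) := h.cont.comp hzc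
    exact (h1.pow 2).sub ((hzc.sub continuous_const).norm.pow 2)
  have hδ1 : F z₁ ^ 2 - ‖z₁ - β‖ ^ 2 < 0 := by
    have := h.nonneg z₁
    nlinarith
  have key := le_zero_of_local_support (κ := fun s : ℝ => F (z₀ + (s : ℂ) * (z₁ - z₀)) ^ 2 -
      ‖z₀ + (s : ℂ) * (z₁ - z₀) - β‖ ^ 2 - s * (F z₁ ^ 2 - ‖z₁ - β‖ ^ 2)) (a := 0) (b := 1)
    one_pos (hδc.sub (continuous_id.mul continuous_const)).continuousOn ?_ ?_ ?_
  · obtain ⟨ε, hε, hball⟩ := Metric.eventually_nhds_iff.mp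
      ((hzc.tendsto' (0 : ℝ) z₀ (by simp)).eventually hs)
    have hm0 : 0 < min (ε / 2) (1 / 2) := lt_min (by linarith) (by norm_num)
    have h1 : ‖z₀ + ((min (ε / 2) (1 / 2) : ℝ) : ℂ) * (z₁ - z₀) - β‖ ≤
        F (z₀ + ((min (ε / 2) (1 / 2) : ℝ) : ℂ) * (z₁ - z₀)) := by
      refine hball ?_
      rw [Real.dist_eq, sub_zero, abs_of_pos hm0]
      have := min_le_left (ε / 2) (1 / 2 : ℝ)
      linarith
    have h2 := key (min (ε / 2) (1 / 2)) ⟨hm0.le, (min_le_right _ _).trans (by norm_num)⟩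
    have h3 : ‖z₀ + ((min (ε / 2) (1 / 2) : ℝ) : ℂ) * (z₁ - z₀) - β‖ ^ 2 ≤
        F (z₀ + ((min (ε / 2) (1 / 2) : ℝ) : ℂ) * (z₁ - z₀)) ^ 2 :=
      pow_le_pow_left₀ (norm_nonneg _) h1 2
    have h4 : min (ε / 2) (1 / 2) * (F z₁ ^ 2 - ‖z₁ - β‖ ^ 2) < 0 :=
      mul_neg_of_pos_of_neg hm0 hδ1
    have h5 : F (z₀ + ((min (ε / 2) (1 / 2) : ℝ) : ℂ) * (z₁ - z₀)) ^ 2 -
      ‖z₀ + ((min (ε / 2) (1 / 2) : ℝ) : ℂ) * (z₁ - z₀) - β‖ ^ 2 -
      min (ε / 2) (1 / 2) * (F z₁ ^ 2 - ‖z₁ - β‖ ^ 2) ≤ 0 := h2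
    linarith
  · intro s hs1
    obtain ⟨β', hβ1, hβ2⟩ := h.supp _ (hpos s ⟨hs1.1.le, hs1.2⟩)
    refine ⟨-2 * ((z₁ - z₀).re * (β' - β).re + (z₁ - z₀).im * (β' - β).im) -
      (F z₁ ^ 2 - ‖z₁ - β‖ ^ 2), ?_⟩
    filter_upwards [(hzc.tendsto s).eventually hβ2] with t ht
    have h1 : ‖z₀ + (t : ℂ) * (z₁ - z₀) - β'‖ ^ 2 ≤ F (z₀ + (t : ℂ) * (z₁ - z₀)) ^ 2 :=
      pow_le_pow_left₀ (norm_nonneg _) ht 2
    have h2 : ∀ (w : ℂ) (r : ℝ), ‖z₀ + (r : ℂ) * (z₁ - z₀) - w‖ ^ 2 =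
        (z₀.re + r * (z₁.re - z₀.re) - w.re) ^ 2 + (z₀.im + r * (z₁.im - z₀.im) - w.im) ^ 2 := by
      intro w r
      rw [Complex.sq_norm, Complex.normSq_apply]
      simp only [Complex.sub_re, Complex.add_re, Complex.mul_re, Complex.ofReal_re,
        Complex.ofReal_im, Complex.sub_im, Complex.add_im, Complex.mul_im]
      ring
    rw [hβ1]
    rw [h2] at h1
    rw [h2, h2, h2]
    simp only [Complex.sub_re, Complex.sub_im]
    nlinarith [h1]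
  · have h1 : F z₀ ^ 2 - ‖z₀ - β‖ ^ 2 = 0 := by rw [h0]; ring
    simp [h1]
  · simp

end HRK
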