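import Pool.Agent.HRK.Z8
import Pool.Agent.HRK.VolH

/-!
# HRK-ZEnd : the volume lemma `END_flow` for the elements `Tl l c`
-/

namespace HRK

open Set Filter Topology Matrix

/-- `fl (2 log l) c = Tl l c`. -/
theorem fl_eq_Tl {l : ℝ} (hl : 0 < l) (hl0 : l ≠ 0) (c : ℂ) :
    fl (2 * Real.log l) c = Tl l hl0 c := by
  have h1 : Real.exp (2 * Real.log l / 2) = l := by
    rw [mul_div_cancel_left₀ _ (two_ne_zero), Real.exp_log hl]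
  have h2 : Real.exp (-(2 * Real.log l / 2)) = 1 / l := by
    rw [Real.exp_neg, h1, one_div]
  have hu : ∀ b : ℂ, ((uni b e1 : SL) : M2) = !![1, b; 0, 1] := by
    intro b
    rw [uni_coe]
    ext i j
    fin_cases i <;> fin_cases j <;> simp [nn, e1]
  have hd : ((dg (2 * Real.log l) : SL) : M2) = !![(l : ℂ), 0; 0, ((1 / l : ℝ) : ℂ)] := by
    rw [n2b_dg_coe, h1, h2]
  apply Subtype.ext
  change ((uni c e1 * dg (2 * Real.log l) * uni (-c) e1 : SL) : M2) = ((Tl l hl0 c : SL) : M2)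
  rw [Matrix.SpecialLinearGroup.coe_mul, Matrix.SpecialLinearGroup.coe_mul, hu, hu, hd, Tl_coe,
    Matrix.mul_fin_two, Matrix.mul_fin_two]
  push_cast
  ext i j
  fin_cases i <;> fin_cases j
  · change (1 * (l : ℂ) + c * 0) * 1 + (1 * 0 + c * (1 / (l : ℂ))) * 0 = l
    ring
  · change (1 * (l : ℂ) + c * 0) * (-c) + (1 * 0 + c * (1 / (l : ℂ))) * 1 = -c * ((l : ℂ) - 1 / l)
    ring
  · change (0 * (l : ℂ) + 1 * 0) * 1 + (0 * 0 + 1 * (1 / (l : ℂ))) * 0 = 0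
    ring
  · change (0 * (l : ℂ) + 1 * 0) * (-c) + (0 * 0 + 1 * (1 / (l : ℂ))) * 1 = 1 / (l : ℂ)
    ring

theorem END_flow_Tl {Γ E : Type*} [TopologicalSpace E] [Group Γ] [MulAction Γ E] [T2Space E]
    [ConnectedSpace E] (S : Dev Γ E) (Ω : Set E) (hΩ : IsOpen Ω) (hΩn : Ω.Nonempty)
    (hinv : ∀ γ : Γ, ∀ y ∈ Ω, γ • y ∈ Ω) (Φ Ψ : E → E) (hΦ : MapsTo Φ Ω Ω) (hΨ : MapsTo Ψ Ω Ω)
    (h1 : ∀ y ∈ Ω, Ψ (Φ y) = y) (h2 : ∀ y ∈ Ω, Φ (Ψ y) = y) (h3 : ContinuousOn Φ Ω)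
    (h4 : ContinuousOn Ψ Ω) (h5 : ∀ γ : Γ, ∀ y ∈ Ω, Φ (γ • y) = γ • Φ y) (l : ℝ) (hl : 1 < l)
    (hl0 : l ≠ 0)
    (hloc : ∀ y0 ∈ Ω, ∃ (k0 : SL) (c : E → ℂ) (N : Set E), IsOpen N ∧ y0 ∈ N ∧ N ⊆ Ω ∧
      ContinuousOn c N ∧ (∀ y ∈ N, S.D (Φ y) = S.D y * (k0⁻¹ * Tl l hl0 (c y) * k0)) ∧
      ∀ y ∈ N, ∀ y' ∈ N, ∀ b : ℂ, S.D y' = S.D y * (k0⁻¹ * uni b e1 * k0) → c y' = c y - b) :
    False := by
  have hτ : 0 < 2 * Real.log l := by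
    have := Real.log_pos hl
    linarith
  refine END_flow S Ω hΩ hΩn hinv Φ Ψ hΦ hΨ h1 h2 h3 h4 h5 (2 * Real.log l) hτ ?_
  intro y0 hy0
  obtain ⟨k0, c, N, hN, hyN, hNΩ, hc, hD, hb⟩ := hloc y0 hy0
  refine ⟨k0, c, N, hN, hyN, hNΩ, hc, ?_, hb⟩
  intro y hy
  rw [fl_eq_Tl (zero_lt_one.trans hl) hl0]
  exact hD y hy

end HRK
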