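import Pool.Agent.HRK.Z9
import Pool.Agent.HRK.ZEnd

/-!
# HRK-Z10 : `e₁` is not free
-/

namespace HRK

open Set Filter Topology Matrix

universe u

variable {E : Type u} [TopologicalSpace E] {r0 L : ℝ}

theorem z10_uni_coe (b : ℂ) : ((uni b e1 : SL) : M2) = !![1, b; 0, 1] := by
  rw [uni_coe]
  ext i j
  fin_cases i <;> fin_cases j <;> simp [nn, e1]

theorem z10_tri_uni {ε : ℝ} (hε : 0 < ε) (b : ℂ) : Tri ε (uni b e1) := by
  refine ⟨?_, ?_⟩
  · rw [z10_uni_coe]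
    simp
  · rw [z10_uni_coe]
    have : (0 : ℝ) < ε ^ 2 := by positivity
    simpa using this

/-- Proof. `exists_FBT`: `T, ε`; `exists_centre`: `c`; `exists_Tl`: `l > 1` with `Tri ε (Tl l c)` for all
`c` (and the inverses: `Tri.inv`). `Φ y = ac D y (Tl l (c y))`, `Ψ y = ac D y (Tl l (c y))⁻¹`,
`Ω = univ`. Continuity: `FBT.continuous_ac`, `continuous_Tl`. `c (Φ y) = c y` (`Tl_fix`), so
`Ψ (Φ y) = ac D (ac D y g) g⁻¹ = y`, `g = Tl l (c y)` (`FBT.ac_inv`); similarly `c (Ψ y) = c y`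
(`Tl_inv`, `Tl_fix`) and `Φ (Ψ y) = y`. Equivariance: `ac_equiv` (with `A γ`, `B γ`, `T = γ • ·`),
`Tl_conj`, the equivariance of `c`. `hloc`: `k0 = 1`, `N` of `FBT.local_inj`,
`D (Φ y) = D y * Tl l (c y)` (`FBT.D_ac`), and `D y' = D y * uni b e₁` implies
`y' = ac D y (uni b e₁)`, so `c y' = c y - b` (`uni b e₁ = [[1,b],[0,1]]`). `END_flow_Tl`. -/
theorem free_e1_false {Γ : Type*} [Group Γ] [MulAction Γ E] [T2Space E] [ConnectedSpace E]
    (S : Dev Γ E) (hc : Cst r0 L) (G : Geo E r0 L) (hG : G.D = S.D)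
    (hne : ∃ y ψ, 0 < eD S.D y ψ) (hf : ∀ y, eD S.D y e1 = 0) : False := by
  have hne' : ∃ y ψ, 0 < eD G.D y ψ := by rw [hG]; exact hne
  have hf' : ∀ y, eD G.D y e1 = 0 := by rw [hG]; exact hf
  obtain ⟨T, ε, hT0⟩ := exists_FBT hc G hne' hf'
  have hT : FBT S.D T ε := by rw [← hG]; exact hT0
  obtain ⟨c, hcc, hceq, hcact⟩ := exists_centre S hc G hG hne hf hT
  obtain ⟨l, hl0, hl1, htri⟩ := exists_Tl hT.pos
  have hli : (1 / l : ℝ) ≠ 0 := one_div_ne_zero hl0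
  have hinv : ∀ y, (Tl l hl0 (c y))⁻¹ = Tl (1 / l) hli (c y) := fun y => Tl_inv l hl0 (c y)
  have htri' : ∀ y, Tri ε (Tl l hl0 (c y))⁻¹ := fun y => (htri (c y)).inv
  have hcΦ : ∀ y, c (ac S.D y (Tl l hl0 (c y))) = c y := by
    intro y
    rw [hcact _ y (htri (c y))]
    exact Tl_fix l hl0 (c y)
  have hcΨ : ∀ y, c (ac S.D y (Tl l hl0 (c y))⁻¹) = c y := by
    intro y
    rw [hcact _ y (htri' y), hinv y]
    exact Tl_fix (1 / l) hli (c y)
  have hne0 : (univ : Set E).Nonempty := by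
    obtain ⟨y, _, _⟩ := hne
    exact ⟨y, mem_univ y⟩
  refine END_flow_Tl S univ isOpen_univ hne0 (fun γ y _ => mem_univ _)
    (fun y => ac S.D y (Tl l hl0 (c y))) (fun y => ac S.D y (Tl l hl0 (c y))⁻¹)
    (fun y _ => mem_univ _) (fun y _ => mem_univ _) ?_ ?_ ?_ ?_ ?_ l hl1 hl0 ?_
  · intro y _
    show ac S.D (ac S.D y (Tl l hl0 (c y)))
      (Tl l hl0 (c (ac S.D y (Tl l hl0 (c y)))))⁻¹ = y
    rw [hcΦ y]
    exact hT.ac_inv (htri (c y)) y
  · intro y _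
    show ac S.D (ac S.D y (Tl l hl0 (c y))⁻¹)
      (Tl l hl0 (c (ac S.D y (Tl l hl0 (c y))⁻¹))) = y
    rw [hcΨ y]
    have h := hT.ac_inv (htri' y) y
    rwa [inv_inv] at h
  · have h : Continuous fun y => ac S.D y (Tl l hl0 (c y)) :=
      hT.continuous_ac continuous_id ((continuous_Tl l hl0).comp hcc) (fun y => htri (c y))
    exact h.continuousOn
  · have h : Continuous fun y => ac S.D y (Tl l hl0 (c y))⁻¹ := by
      refine hT.continuous_ac continuous_id ?_ htri'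
      have h2 : (fun y => (Tl l hl0 (c y))⁻¹) = fun y => Tl (1 / l) hli (c y) := by
        funext y
        exact hinv y
      rw [h2]
      exact (continuous_Tl (1 / l) hli).comp hcc
    exact h.continuousOn
  · intro γ y _
    show ac S.D (γ • y) (Tl l hl0 (c (γ • y))) = γ • ac S.D y (Tl l hl0 (c y))
    rw [hceq γ y, ← Tl_conj l hl0 (c y) (B_upper S hc G hG hne hf γ)]
    exact ac_equiv hT.hD (T := fun x => γ • x) (S.cont γ) (S.equiv γ) (hT.mem (htri (c y)) y)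
  · intro y0 _
    obtain ⟨N, hNo, hyN, hN⟩ := hT.local_inj y0
    refine ⟨1, c, N, hNo, hyN, subset_univ N, hcc.continuousOn, ?_, ?_⟩
    · intro y _
      show S.D (ac S.D y (Tl l hl0 (c y))) = S.D y * ((1 : SL)⁻¹ * Tl l hl0 (c y) * 1)
      rw [hT.D_ac (htri (c y)) y, inv_one, one_mul, mul_one]
    · intro y hy y' hy' b hb
      rw [inv_one, one_mul, mul_one] at hb
      have h := hN y hy y' hy' b hb
      rw [h, hcact _ y (z10_tri_uni hT.pos b), z10_uni_coe]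
      simp

end HRK
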