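import Pool.Agent.HRK.Z1

/-!
# HRK-Z1b : the conical supports are global
-/

namespace HRK

open Set Filter Topology

theorem z1b_seg {F : ℂ → ℝ} (h : CS F) {z₀ z₁ β : ℂ} (hpos : 0 < F z₀) (h0 : F z₀ = ‖z₀ - β‖)
    (hs : ∀ᶠ z in 𝓝 z₀, ‖z - β‖ ≤ F z)
    (hseg : ∀ s ∈ Icc (0:ℝ) 1, z₀ + (s : ℂ) * (z₁ - z₀) ≠ β) : ‖z₁ - β‖ ≤ F z₁ := by
  apply h.le_of_segment h0 hs
  by_contra hcon
  push Not at hcon
  obtain ⟨s1, hs1, hF1⟩ := hcon
  have hcont : Continuous (fun s : ℝ => F (z₀ + (s : ℂ) * (z₁ - z₀))) :=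
    h.cont.comp (by fun_prop)
  let S : Set ℝ := Icc 0 1 ∩ {s | F (z₀ + (s : ℂ) * (z₁ - z₀)) = 0}
  have hSc : IsClosed S := isClosed_Icc.inter (isClosed_eq hcont continuous_const)
  have hSne : S.Nonempty := ⟨s1, ⟨hs1.1, hs1.2.le⟩, le_antisymm hF1 (h.nonneg _)⟩
  have hSb : BddBelow S := ⟨0, fun x hx => hx.1.1⟩
  have hm : sInf S ∈ S := hSc.csInf_mem hSne hSb
  obtain ⟨⟨ht0, ht1⟩, htF⟩ := hm
  have htF' : F (z₀ + ((sInf S : ℝ) : ℂ) * (z₁ - z₀)) = 0 := htF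
  have htpos : 0 < sInf S := by
    rcases ht0.lt_or_eq with h1 | h1
    · exact h1
    · exfalso
      rw [← h1] at htF'
      simp at htF'
      linarith
  have key : ‖(z₀ + ((sInf S : ℝ) : ℂ) * (z₁ - z₀)) - β‖ ≤
      F (z₀ + ((sInf S : ℝ) : ℂ) * (z₁ - z₀)) := by
    apply h.le_of_segment h0 hs
    intro s hs'
    have he : z₀ + (s : ℂ) * ((z₀ + ((sInf S : ℝ) : ℂ) * (z₁ - z₀)) - z₀) =
        z₀ + ((s * sInf S : ℝ) : ℂ) * (z₁ - z₀) := by
      push_cast; ring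
    rw [he]
    have hlt : s * sInf S < sInf S := by nlinarith [hs'.2]
    rcases (h.nonneg (z₀ + ((s * sInf S : ℝ) : ℂ) * (z₁ - z₀))).lt_or_eq with h1 | h1
    · exact h1
    · exfalso
      have hmem : s * sInf S ∈ S := ⟨⟨mul_nonneg hs'.1 ht0, by linarith⟩, h1.symm⟩
      have := csInf_le hSb hmem
      linarith
  rw [htF'] at key
  have hz : (z₀ + ((sInf S : ℝ) : ℂ) * (z₁ - z₀)) - β = 0 := by
    rw [← norm_le_zero_iff]; exact key
  exact hseg _ ⟨ht0, ht1⟩ (sub_eq_zero.mp hz)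

/-- Proof. Note `z₀ ≠ β` since `|z₀ - β| = F z₀ > 0`.
(1) Suppose the segment `z(s) = z₀ + s (z₁ - z₀)`, `s ∈ [0,1]`, does not contain `β`. Then `F > 0` on
`[0,1)`: otherwise let `s*` be the smallest zero of `s ↦ F(z(s))` in `[0,1)` (closed set, `F z₀ > 0`);
`F > 0` on `[0,s*)`, so by `CS.le_of_segment` (for the end point `z(s*)`)
`|z(s*) - β| ≤ F(z(s*)) = 0`: `z(s*) = β`, contradiction. So `CS.le_of_segment` gives the claim.
(2) In general approximate `z₁` by points `z₁'` such that the segment from `z₀` to `z₁'` does not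
contain `β`, and use the continuity of `F`: if `β = z(s)` for some `s ∈ [0,1]` then `s > 0` and
`z₁ = z₀ + r (β - z₀)`, `r = 1/s` real; take `z₁' = z₀ + (r + i ε)(β - z₀)`, `ε ≠ 0` real: a point
`z₀ + s' (z₁' - z₀)` equals `β` iff `s' (r + i ε) = 1`, impossible for real `s'`. -/
theorem CS.global {F : ℂ → ℝ} (h : CS F) {z₀ β : ℂ} (hpos : 0 < F z₀) (h0 : F z₀ = ‖z₀ - β‖)
    (hs : ∀ᶠ z in 𝓝 z₀, ‖z - β‖ ≤ F z) (z : ℂ) : ‖z - β‖ ≤ F z := by
  by_cases hseg : ∀ s ∈ Icc (0:ℝ) 1, z₀ + (s : ℂ) * (z - z₀) ≠ β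
  · exact z1b_seg h hpos h0 hs hseg
  push Not at hseg
  obtain ⟨s, hs01, hsb⟩ := hseg
  have hne : β - z₀ ≠ 0 := by
    intro h1
    have h2 : z₀ - β = 0 := by linear_combination -h1
    rw [h2, norm_zero] at h0
    linarith
  have hs0 : s ≠ 0 := by
    rintro rfl
    apply hne
    rw [← hsb]; simp
  have hs0' : (s : ℂ) ≠ 0 := by exact_mod_cast hs0
  have hlim : ∀ ε : ℝ, ε ≠ 0 → ‖(z₀ + (((s⁻¹ : ℝ) : ℂ) + ε * Complex.I) * (β - z₀)) - β‖ ≤
      F (z₀ + (((s⁻¹ : ℝ) : ℂ) + ε * Complex.I) * (β - z₀)) := by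
    intro ε hε
    apply z1b_seg h hpos h0 hs
    intro s' hs' he
    have h1 : ((s' : ℂ) * (((s⁻¹ : ℝ) : ℂ) + ε * Complex.I) - 1) * (β - z₀) = 0 := by
      linear_combination he
    rcases mul_eq_zero.mp h1 with h2 | h2
    · have him := congrArg Complex.im h2
      have hre := congrArg Complex.re h2
      simp only [Complex.sub_im, Complex.mul_im, Complex.ofReal_re, Complex.ofReal_im,
        Complex.add_im, Complex.add_re, Complex.mul_re, Complex.I_re, Complex.I_im,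
        Complex.one_im, Complex.zero_im, Complex.sub_re, Complex.one_re, Complex.zero_re]
        at him hre
      have h3 : s' * ε = 0 := by linarith
      rcases mul_eq_zero.mp h3 with h4 | h4
      · rw [h4] at hre
        norm_num at hre
      · exact hε h4
    · exact hne h2
  have hc1 : Continuous
      (fun ε : ℝ => z₀ + (((s⁻¹ : ℝ) : ℂ) + ε * Complex.I) * (β - z₀)) := by fun_prop
  have hcl : IsClosed {ε : ℝ | ‖(z₀ + (((s⁻¹ : ℝ) : ℂ) + ε * Complex.I) * (β - z₀)) - β‖ ≤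
      F (z₀ + (((s⁻¹ : ℝ) : ℂ) + ε * Complex.I) * (β - z₀))} :=
    isClosed_le ((hc1.sub continuous_const).norm) (h.cont.comp hc1)
  have hsub : closure ({(0:ℝ)}ᶜ) ⊆
      {ε : ℝ | ‖(z₀ + (((s⁻¹ : ℝ) : ℂ) + ε * Complex.I) * (β - z₀)) - β‖ ≤
      F (z₀ + (((s⁻¹ : ℝ) : ℂ) + ε * Complex.I) * (β - z₀))} :=
    closure_minimal (fun ε hε => hlim ε hε) hcl
  rw [(dense_compl_singleton (0:ℝ)).closure_eq] at hsub
  have h0' := hsub (mem_univ (0:ℝ))
  rw [Set.mem_ofPred_eq] at h0'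
  have hz : z₀ + (((s⁻¹ : ℝ) : ℂ) + ((0:ℝ) : ℂ) * Complex.I) * (β - z₀) = z := by
    rw [← hsb]
    push_cast
    field_simp
    ring
  rw [hz] at h0'
  exact h0'

/-- Proof. If `F z > 0` let `β` be as in `supp`, global: `F z = |z - β| ≤ |z| + |β|`,
`|β| = |0 - β| ≤ F 0`. -/
theorem CS.le_add {F : ℂ → ℝ} (h : CS F) (z : ℂ) : F z ≤ ‖z‖ + F 0 := by
  rcases (h.nonneg z).lt_or_eq with h1 | h1
  · obtain ⟨β, hb, hs⟩ := h.supp z h1
    have h0 := h.global h1 hb hs 0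
    rw [zero_sub, norm_neg] at h0
    rw [hb]
    calc ‖z - β‖ ≤ ‖z‖ + ‖β‖ := norm_sub_le _ _
      _ ≤ ‖z‖ + F 0 := by linarith
  · rw [← h1]
    have h2 := h.nonneg 0
    positivity

end HRK
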