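import Pool.Agent.HRK.Z1b

/-!
# HRK-Z2 : the centre of a function with conical supports
-/

namespace HRK

open Set Filter Topology

/-- `c` is the centre of `F`. -/
def IsC (F : ℂ → ℝ) (c : ℂ) : Prop := ∀ z, F c ^ 2 + ‖z - c‖ ^ 2 / 2 ≤ F z ^ 2

/-- Proof. The two inequalities with `z = c'`, `z = c` add up to `|c - c'|² ≤ 0`. -/
theorem IsC.unique {F : ℂ → ℝ} {c c' : ℂ} (h : IsC F c) (h' : IsC F c') : c = c' := by
  have h1 := h c'
  have h2 := h' c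
  have h3 : ‖c - c'‖ = ‖c' - c‖ := norm_sub_rev _ _
  rw [h3] at h2
  have h4 : ‖c' - c‖ ^ 2 ≤ 0 := by linarith
  have h5 : ‖c' - c‖ = 0 := by
    have := sq_nonneg ‖c' - c‖
    exact pow_eq_zero_iff (two_ne_zero) |>.mp (le_antisymm h4 this)
  exact (sub_eq_zero.mp (norm_eq_zero.mp h5)).symm

/-- Existence of the centre.

Proof. By `CS.ne`, `supp` and `CS.global` there is `β₀` with `|z - β₀| ≤ F z` for all `z`; so `F` is
continuous and coercive and has a global minimum at some `c` (`IsCompact.exists_isMinOn` on a closed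
ball, or `Continuous.exists_forall_le`). Let `z` be given and `M = (z + c)/2`.
If `F M > 0` let `β` be as in `supp` at `M` (global): `F z² ≥ |z - β|²`, `F c² ≥ |c - β|²`,
`F M² = |M - β|²`, and by the parallelogram identity
`|z - β|² + |c - β|² = 2 |M - β|² + |z - c|²/2`. So
`F z² + F c² ≥ 2 F M² + |z - c|²/2 ≥ 2 F c² + |z - c|²/2`.
If `F M = 0` then `F c = 0` (minimum) and `|M - β₀| ≤ 0`, `|c - β₀| ≤ 0`, so `M = c`, `z = c`: trivial. -/
theorem CS.exists_isC {F : ℂ → ℝ} (h : CS F) : ∃ c, IsC F c := by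
  obtain ⟨z₀, hz₀⟩ := h.ne
  obtain ⟨β₀, hβ₀, hs₀⟩ := h.supp z₀ hz₀
  have g : ∀ z, ‖z - β₀‖ ≤ F z := fun z => h.global hz₀ hβ₀ hs₀ z
  have ht : Tendsto F (cocompact ℂ) atTop := by
    have h1 : Tendsto (fun z : ℂ => ‖z‖ + (-‖β₀‖)) (cocompact ℂ) atTop :=
      tendsto_atTop_add_const_right _ (-‖β₀‖) (tendsto_norm_cocompact_atTop)
    refine tendsto_atTop_mono (fun z => ?_) h1
    have h2 := norm_sub_norm_le z β₀
    have h3 := g z
    linarith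
  obtain ⟨c, hc⟩ := h.cont.exists_forall_le ht
  refine ⟨c, fun z => ?_⟩
  have hpar : ∀ β : ℂ, ‖z - β‖ ^ 2 + ‖c - β‖ ^ 2 = 2 * ‖(z + c) / 2 - β‖ ^ 2 + ‖z - c‖ ^ 2 / 2 := by
    intro β
    have h1 := parallelogram_law_with_norm ℝ (z - β) (c - β)
    have h2 : z - β + (c - β) = 2 * ((z + c) / 2 - β) := by ring
    have h3 : z - β - (c - β) = z - c := by ring
    rw [h2, h3, norm_mul] at h1
    have h4 : ‖(2 : ℂ)‖ = 2 := by simp
    rw [h4] at h1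
    nlinarith [h1]
  rcases (h.nonneg ((z + c) / 2)).lt_or_eq with hM | hM
  · obtain ⟨β, hβ, hs⟩ := h.supp _ hM
    have g1 : ∀ w, ‖w - β‖ ≤ F w := fun w => h.global hM hβ hs w
    have e1 : ‖z - β‖ ^ 2 ≤ F z ^ 2 := pow_le_pow_left₀ (norm_nonneg _) (g1 z) 2
    have e2 : ‖c - β‖ ^ 2 ≤ F c ^ 2 := pow_le_pow_left₀ (norm_nonneg _) (g1 c) 2
    have e3 : F c ^ 2 ≤ F ((z + c) / 2) ^ 2 := pow_le_pow_left₀ (h.nonneg c) (hc _) 2
    have e4 := hpar β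
    rw [hβ] at e3
    linarith
  · have e1 : F c ≤ 0 := by
      rw [hM]
      exact hc _
    have e2 : c = β₀ := by
      have := g c
      have h5 : ‖c - β₀‖ = 0 := le_antisymm (this.trans e1) (norm_nonneg _)
      exact sub_eq_zero.mp (norm_eq_zero.mp h5)
    have e3 : (z + c) / 2 = β₀ := by
      have := g ((z + c) / 2)
      rw [← hM] at this
      have h5 : ‖(z + c) / 2 - β₀‖ = 0 := le_antisymm this (norm_nonneg _)
      exact sub_eq_zero.mp (norm_eq_zero.mp h5)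
    have e4 : z = c := by
      have h6 : z + c = 2 * β₀ := by
        rw [← e3]
        ring
      rw [← e2] at h6
      linear_combination h6
    rw [e4]
    simp

/-- Transformation of the centre under an affine map `z ↦ α² z + α b` (`α = g₀₀`, `b = g₀₁`,
`g₁₁ = α⁻¹`).

Proof. `F'(z)² = |α|⁻⁴ F(w)²`, `w = α² z + α b`, `w - c = α² (z - c')`, `c' = (c - α b)/α²`,
`F'(c') = |α|⁻² F(c)`: `F'(z)² ≥ |α|⁻⁴ (F(c)² + |w - c|²/2) = F'(c')² + |z - c'|²/2`. -/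
theorem IsC.affine {F F' : ℂ → ℝ} {c : ℂ} (h : IsC F c) {α b : ℂ} (hα : α ≠ 0)
    (hF : ∀ z, F' z = ‖α‖⁻¹ ^ 2 * F (α ^ 2 * z + α * b)) : IsC F' ((c - α * b) / α ^ 2) := by
  intro z
  have hα' : ‖α‖ ≠ 0 := norm_ne_zero_iff.mpr hα
  have e1 : α ^ 2 * ((c - α * b) / α ^ 2) + α * b = c := by
    field_simp
    ring
  have e2 : α ^ 2 * z + α * b - c = α ^ 2 * (z - (c - α * b) / α ^ 2) := by
    field_simp
    ring
  have e3 := h (α ^ 2 * z + α * b)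
  rw [e2, norm_mul, norm_pow] at e3
  rw [hF, hF, e1]
  have e4 : (‖α‖⁻¹ ^ 2 * F (α ^ 2 * z + α * b)) ^ 2 =
      (‖α‖⁻¹ ^ 2) ^ 2 * F (α ^ 2 * z + α * b) ^ 2 := by ring
  have e5 : (‖α‖⁻¹ ^ 2 * F c) ^ 2 + ‖z - (c - α * b) / α ^ 2‖ ^ 2 / 2 =
      (‖α‖⁻¹ ^ 2) ^ 2 * (F c ^ 2 + (‖α‖ ^ 2 * ‖z - (c - α * b) / α ^ 2‖) ^ 2 / 2) := by
    field_simp
  rw [e4, e5]
  exact mul_le_mul_of_nonneg_left e3 (sq_nonneg _)

/-- Continuity of the centre.

Proof. Let `y₀ : Y`, `c₀ = c y₀`, `v₀ = F y₀ c₀`, `R² = 2 (v₀² + 1)`, `0 < η ≤ 1`. By compactness of the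
closed ball of radius `R` around `c₀` and joint continuity, for `y` near `y₀`:
`|F y z ^2 - F y₀ z ^2| ≤ η` for all `z` in the ball (tube lemma:
`IsCompact.eventually_forall_of_forall_eventually` or `generalized_tube_lemma`). By `IsC` at `y` with
`z = c₀`: `F y (c y)² + |c₀ - c y|²/2 ≤ F y c₀² ≤ v₀² + η`; so `|c₀ - c y|² ≤ 2 (v₀² + 1) = R²`, and
therefore `F y (c y)² ≥ F y₀ (c y)² - η ≥ v₀² - η` (`IsC` at `y₀`), so `|c₀ - c y|²/2 ≤ 2 η`. -/
theorem continuous_centre {Y : Type*} [TopologicalSpace Y] {F : Y → ℂ → ℝ}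
    (hF : Continuous fun p : Y × ℂ => F p.1 p.2) {c : Y → ℂ} (hc : ∀ y, IsC (F y) (c y)) :
    Continuous c := by
  rw [continuous_iff_continuousAt]
  intro y₀
  rw [ContinuousAt, Metric.tendsto_nhds]
  intro ε hε
  set c₀ := c y₀ with hc₀
  set v₀ := F y₀ c₀ with hv₀
  have hη : 0 < min 1 (ε ^ 2 / 8) := lt_min one_pos (by positivity)
  set η := min 1 (ε ^ 2 / 8) with hηd
  have hη1 : η ≤ 1 := min_le_left _ _
  have hη2 : η ≤ ε ^ 2 / 8 := min_le_right _ _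
  have hK : IsCompact (Metric.closedBall c₀ (2 * (v₀ ^ 2 + 1))) := isCompact_closedBall _ _
  have hev : ∀ᶠ y in 𝓝 y₀, ∀ z ∈ Metric.closedBall c₀ (2 * (v₀ ^ 2 + 1)),
      |F y z ^ 2 - F y₀ z ^ 2| < η := by
    apply hK.eventually_forall_of_forall_eventually
    intro z _
    have hcont : Continuous fun p : Y × ℂ => |F p.1 p.2 ^ 2 - F y₀ p.2 ^ 2| := by
      have h1 : Continuous fun p : Y × ℂ => F y₀ p.2 :=
        hF.comp (continuous_const.prodMk continuous_snd)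
      exact ((hF.pow 2).sub (h1.pow 2)).abs
    have h2 : (fun p : Y × ℂ => |F p.1 p.2 ^ 2 - F y₀ p.2 ^ 2|) (y₀, z) < η := by
      simpa using hη
    exact hcont.continuousAt.eventually (Iio_mem_nhds h2)
  filter_upwards [hev] with y hy
  have hR : 0 ≤ 2 * (v₀ ^ 2 + 1) := by positivity
  have h1 := hy c₀ (Metric.mem_closedBall_self hR)
  rw [abs_lt] at h1
  have h2 := hc y c₀
  have h3 : ‖c₀ - c y‖ ^ 2 ≤ 2 * (v₀ ^ 2 + 1) := by
    have := sq_nonneg (F y (c y))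
    linarith [h1.2]
  have h4 : c y ∈ Metric.closedBall c₀ (2 * (v₀ ^ 2 + 1)) := by
    rw [Metric.mem_closedBall, dist_comm, dist_eq_norm]
    have h5 : ‖c₀ - c y‖ ^ 2 ≤ (2 * (v₀ ^ 2 + 1)) ^ 2 := by
      nlinarith [sq_nonneg v₀]
    exact abs_le_of_sq_le_sq' h5 hR |>.2
  have h6 := hy (c y) h4
  rw [abs_lt] at h6
  have h7 := hc y₀ (c y)
  have h8 : ‖c₀ - c y‖ ^ 2 ≤ 4 * η := by
    have := sq_nonneg ‖c y - c y₀‖
    linarith [h1.2, h6.1]
  rw [dist_comm, dist_eq_norm]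
  have h9 : ‖c₀ - c y‖ ^ 2 < ε ^ 2 := by
    have : 0 < ε ^ 2 := by positivity
    linarith
  exact lt_of_pow_lt_pow_left₀ 2 hε.le h9

end HRK
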