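import Pool.Agent.HRK.Iface
import Pool.Agent.HRK.Z2

/-!
# HRK-Z3 : a free direction is the range of all normal form planes (12.1)

`a : V` with `eD D y a = 0` for all `y` (free direction).
-/

namespace HRK

open Set Filter Topology Matrix

universe u

variable {E : Type u} [TopologicalSpace E] {r0 L : ℝ}

theorem z3_inv {k : SL} {v u : V} {c : ℂ} (h : (k : M2) *ᵥ v = c • u) (hc : c ≠ 0) :
    ((k⁻¹ : SL) : M2) *ᵥ u = c⁻¹ • v := by
  have h1 : ((k⁻¹ : SL) : M2) *ᵥ ((k : M2) *ᵥ v) = v := by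
    rw [mulVec_mulVec, coe_inv_mul, one_mulVec]
  rw [h, mulVec_smul] at h1
  rw [← h1, smul_smul, inv_mul_cancel₀ hc, one_smul]

theorem z3_dg (s : ℝ) (k : SL) (v : V) : ((dg s * k : SL) : M2) *ᵥ v =
    ![(Real.exp (s / 2) : ℂ) * ((k : M2) *ᵥ v) 0, (Real.exp (-(s / 2)) : ℂ) * ((k : M2) *ᵥ v) 1] := by
  have h1 : ((dg s * k : SL) : M2) = (dg s : M2) * (k : M2) := rfl
  rw [h1, ← mulVec_mulVec]
  generalize (k : M2) *ᵥ v = u
  unfold dg
  funext i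
  fin_cases i
  · simp [Matrix.mulVec, dotProduct, Fin.sum_univ_two]
  · simp [Matrix.mulVec, dotProduct, Fin.sum_univ_two]

theorem z3_nsq_e1 : nsq e1 = 1 := by
  rw [nsq_eq]
  simp [e1]

theorem z3_vn_e1 : vn e1 = 1 := by
  unfold vn
  rw [z3_nsq_e1, Real.sqrt_one]

theorem z3_vn_sub (z : ℂ) : vn (![1, z] - e1) = ‖z‖ := by
  unfold vn
  rw [nsq_eq]
  simp only [e1, Pi.sub_apply, Matrix.cons_val_zero, Matrix.cons_val_one, sub_self, map_zero,
    zero_add, sub_zero]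
  rw [Complex.normSq_eq_norm_sq, Real.sqrt_sq (norm_nonneg z)]

/-- Value of `e` at the points of the null segment. `t0 n(ψ) ∉ St D y` implies, for `w ∈ (0,1]` and
`(1-w) t0 n(ψ) ∈ St D y`: `w t0 n(ψ) ∉ St D (y_w)`, hence `1 ≤ |w t0| e(y_w, ψ)`.

Proof. If `w = 1`: `y_w = y` (`ac_one`, `uni 0 ψ = 1`). If `w < 1`: `null_concat` with
`t = (1-w) t0`, `ρ = w/(1-w)`, `(1 + ρ) t = t0`. The last statement is the contrapositive of
`mem_St_of_eD`. -/
theorem z3_ideal [T2Space E] {D : E → SL} (hD : IsLocalHomeomorph (Dh D)) {y : E} {ψ : V} {t0 : ℂ}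
    (h : t0 • nn ψ ∉ St D y) {w : ℝ} (hw : w ∈ Ioc (0:ℝ) 1)
    (hm : ((1 - (w : ℂ)) * t0) • nn ψ ∈ St D y) :
    1 ≤ ‖(w : ℂ) * t0‖ * eD D (ac D y (uni ((1 - (w : ℂ)) * t0) ψ)) ψ := by
  by_contra hlt
  push Not at hlt
  have hmem := mem_St_of_eD hD (t := (w : ℂ) * t0) hlt
  rcases eq_or_lt_of_le hw.2 with h1 | h1
  · subst h1
    apply h
    have e0 : ac D y (uni ((1 - ((1:ℝ) : ℂ)) * t0) ψ) = y := by
      rw [Complex.ofReal_one, sub_self, zero_mul, uni_zero, ac_one hD]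
    rw [e0, Complex.ofReal_one, one_mul] at hmem
    exact hmem
  · apply h
    have hne : (1 - (w : ℂ)) ≠ 0 := by
      intro h0
      have h2 : ((1 - w : ℝ) : ℂ) = 0 := by
        rw [Complex.ofReal_sub, Complex.ofReal_one]
        exact h0
      rw [Complex.ofReal_eq_zero] at h2
      linarith
    have hρ : 0 ≤ w / (1 - w) := div_nonneg hw.1.le (by linarith)
    have e1 : ((w / (1 - w) : ℝ) : ℂ) * ((1 - (w : ℂ)) * t0) = (w : ℂ) * t0 := by
      rw [Complex.ofReal_div, Complex.ofReal_sub, Complex.ofReal_one]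
      field_simp
    have h3 := (null_concat hD hρ hm (by rw [e1]; exact hmem)).1
    have e2 : (1 + ((w / (1 - w) : ℝ) : ℂ)) * ((1 - (w : ℂ)) * t0) = t0 := by
      rw [add_mul, e1]
      ring
    rw [e2] at h3
    exact h3

/-- (12.1) Let `a` be a free direction, `t0` an ideal point for `(y, ψ)`, `k ψ = lam e₁`,
`lam² t0 = 1`, and suppose the scaled frames `k_w = dg (-log w) k` have free balls of radius `c` at
`y_w = y.(1 + (1-w) t0 n(ψ))`, `w ∈ (0,1]`. Then `k a` is a multiple of `e₂`.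

Proof. Suppose `a' = k a = (a₀, a₁)`, `a₀ ≠ 0`. Write `D = diag (w^{-1/2}, w^{1/2}) = dg (-log w)`.
`m(y_w, k_w) ≤ 1/c` (`mD_le_of_FB`). Let `φ₁ = k_w⁻¹ e₁ = w^{1/2} lam⁻¹ ψ`; by `z3_ideal`
(`(1-w) t0 n(ψ) ∈ St` by `mem_St_of_eD`, as `|(1-w) t0| e(y,ψ) = 1 - w < 1`)
`e(y_w, φ₁) = w |lam|⁻² e(y_w, ψ) ≥ w |lam|⁻²/(w |t0|) = 1` (`|lam|² |t0| = 1`). Take an ideal point
`t₁` for `(y_w, φ₁)` (`exists_ideal`) and `uniform_support hc (1/c) (ε = 1/2)`: constants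
`c₁, C₁` independent of `w` and a plane `P` with `nm (cj k_w P) ≤ C₁`, `|q_{cj k_w P}(e₁)| |t₁| = 1`,
so `|q_{cj k_w P}(e₁)| = e(y_w, φ₁) ≥ 1`, and `SVis` at `(y_w, k_w⁻¹ φ)` for `vn (φ - e₁) < c₁` (`g = 1`,
`ac_one`, `pmv_one`), so `|q_{cj k_w P}(φ)| ≤ e(y_w, k_w⁻¹ φ)` (`SVis.le`, `qP_cj'`). Take
`φ = (1, w a₁/a₀)`: `k_w a = (w^{-1/2} a₀, w^{1/2} a₁) = w^{-1/2} a₀ φ`, so `k_w⁻¹ φ` is a multiple of `a`
and `e(y_w, k_w⁻¹ φ) = 0`. For `w` small `vn (φ - e₁) = w |a₁/a₀| < c₁`, and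
`1 ≤ |q(e₁)| = |q(e₁) - q(φ)| ≤ C₁ (1 + vn φ) vn (φ - e₁) → 0` (`norm_qP_sub_le'`): contradiction. -/
theorem free_dir [T2Space E] (hc : Cst r0 L) (G : Geo E r0 L) {a : V} (ha : ∀ y, eD G.D y a = 0)
    {y : E} {ψ : V} {t0 : ℂ} (he : ‖t0‖ * eD G.D y ψ = 1) (ht : t0 • nn ψ ∉ St G.D y)
    {k : SL} {lam : ℂ} (hl : lam ^ 2 * t0 = 1) (hk : (k : M2) *ᵥ ψ = lam • e1) {c : ℝ} (hc0 : 0 < c)
    (hF : ∀ w ∈ Ioc (0:ℝ) 1,
      FB G.D (ac G.D y (uni ((1 - (w : ℂ)) * t0) ψ)) (dg (-Real.log w) * k) c) :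
    ((k : M2) *ᵥ a) 0 = 0 := by
  by_contra hne
  set a0 : ℂ := ((k : M2) *ᵥ a) 0 with ha0
  set a1 : ℂ := ((k : M2) *ᵥ a) 1 with ha1
  obtain ⟨c1, hc1, C1, hC1, hU⟩ := uniform_support.{u} hc (1 / c) (ε := 1 / 2) (by norm_num)
  set A : ℝ := ‖a1 / a0‖ with hA
  have hA0 : 0 ≤ A := norm_nonneg _
  set M : ℝ := A / c1 + A + 3 * C1 * A with hM
  have hM1 : 0 ≤ A / c1 := div_nonneg hA0 hc1.le
  have hM2 : 0 ≤ 3 * C1 * A := by positivity
  have hM0 : 0 ≤ M := by rw [hM]; linarith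
  set w : ℝ := 1 / (1 + M) with hw
  have hw0 : 0 < w := by rw [hw]; positivity
  have hw1 : w ≤ 1 := by
    rw [hw, div_le_one (by linarith)]
    linarith
  have hwM : w * (1 + M) = 1 := by
    rw [hw]
    field_simp
  have hwI : w ∈ Ioc (0:ℝ) 1 := ⟨hw0, hw1⟩
  have hδ1 : w * A < c1 := by
    have h1 : A < c1 * (1 + M) := by
      have : c1 * (A / c1) = A := by field_simp
      nlinarith
    calc w * A < w * (c1 * (1 + M)) := by
          exact mul_lt_mul_of_pos_left h1 hw0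
      _ = c1 := by linear_combination c1 * hwM
  have hδ2 : w * A ≤ 1 := by
    have h1 : A ≤ 1 + M := by linarith
    calc w * A ≤ w * (1 + M) := mul_le_mul_of_nonneg_left h1 hw0.le
      _ = 1 := hwM
  have hδ3 : 3 * C1 * (w * A) < 1 := by
    have h1 : 3 * C1 * A < 1 + M := by linarith
    calc 3 * C1 * (w * A) = w * (3 * C1 * A) := by ring
      _ < w * (1 + M) := mul_lt_mul_of_pos_left h1 hw0
      _ = 1 := hwM
  -- the point and the frame
  set yw : E := ac G.D y (uni ((1 - (w : ℂ)) * t0) ψ) with hyw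
  set kw : SL := dg (-Real.log w) * k with hkw
  have hFw : FB G.D yw kw c := hF w hwI
  have hmw := mD_le_of_FB hc G hc0 hFw
  have he0 : 0 ≤ eD G.D y ψ := eD_nonneg _ _ _
  have hm : ((1 - (w : ℂ)) * t0) • nn ψ ∈ St G.D y := by
    apply mem_St_of_eD G.hD
    have h1 : ‖(1 - (w : ℂ)) * t0‖ = (1 - w) * ‖t0‖ := by
      rw [norm_mul]
      congr 1
      have h2 : (1 - (w : ℂ)) = ((1 - w : ℝ) : ℂ) := by
        rw [Complex.ofReal_sub, Complex.ofReal_one]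
      rw [h2, Complex.norm_real, Real.norm_of_nonneg (by linarith)]
    rw [h1, mul_assoc, he]
    linarith
  have hid := z3_ideal G.hD ht hwI hm
  rw [← hyw] at hid
  set s : ℝ := Real.exp (-Real.log w / 2) with hs
  have hs0 : 0 < s := Real.exp_pos _
  have hs2 : s ^ 2 * w = 1 := by
    have h1 : s ^ 2 = Real.exp (-Real.log w) := by
      rw [hs, ← Real.exp_nat_mul]
      congr 1
      push_cast
      ring
    rw [h1, Real.exp_neg, Real.exp_log hw0]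
    exact inv_mul_cancel₀ hw0.ne'
  have hsi : Real.exp (-(-Real.log w / 2)) = s⁻¹ := by
    rw [hs, Real.exp_neg]
  have hsC : (s : ℂ) ≠ 0 := by
    rw [Ne, Complex.ofReal_eq_zero]
    exact hs0.ne'
  have hlam : lam ≠ 0 := by
    rintro rfl
    simp at hl
  -- `kw ψ`
  have hkψ : (kw : M2) *ᵥ ψ = ((s : ℂ) * lam) • e1 := by
    rw [hkw, z3_dg, hk]
    funext i
    fin_cases i
    · simp [e1, hs]
    · simp [e1]
  have hφ1 := z3_inv hkψ (mul_ne_zero hsC hlam)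
  have hlamn : ‖lam‖ ^ 2 * ‖t0‖ = 1 := by
    have := congrArg norm hl
    rw [norm_mul, norm_pow, norm_one] at this
    exact this
  have hlam0 : 0 < ‖lam‖ := norm_pos_iff.2 hlam
  have hE1 : 1 ≤ eD G.D yw (((kw⁻¹ : SL) : M2) *ᵥ e1) := by
    rw [hφ1, eD_smul]
    have h1 : ‖((s : ℂ) * lam)⁻¹‖ ^ 2 = w * ‖t0‖ := by
      rw [norm_inv, norm_mul, Complex.norm_real, Real.norm_of_nonneg hs0.le, inv_pow, mul_pow]
      apply inv_eq_of_mul_eq_one_right
      calc s ^ 2 * ‖lam‖ ^ 2 * (w * ‖t0‖) = (s ^ 2 * w) * (‖lam‖ ^ 2 * ‖t0‖) := by ring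
        _ = 1 := by rw [hs2, hlamn, one_mul]
    rw [h1]
    have h2 : ‖(w : ℂ) * t0‖ = w * ‖t0‖ := by
      rw [norm_mul, Complex.norm_real, Real.norm_of_nonneg hw0.le]
    rw [h2] at hid
    exact hid
  obtain ⟨t1, ht1, ht1'⟩ := exists_ideal G.hD (y := yw) (ψ := ((kw⁻¹ : SL) : M2) *ᵥ e1)
    (by linarith)
  obtain ⟨P, hP, hPn, hPq, hS⟩ := hU E G yw kw e1 t1 hmw z3_nsq_e1 (by linarith) ht1 ht1'
  set z : ℂ := (w : ℂ) * (a1 / a0) with hz
  have hzn : ‖z‖ = w * A := by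
    rw [hz, norm_mul, Complex.norm_real, Real.norm_of_nonneg hw0.le]
  have hka : (kw : M2) *ᵥ a = ((s : ℂ) * a0) • ![1, z] := by
    rw [hkw, z3_dg, hsi, ← ha0, ← ha1]
    funext i
    fin_cases i
    · simp [hs]
    · simp only [Pi.smul_apply, smul_eq_mul, Fin.mk_one, Matrix.cons_val_one,
        Matrix.cons_val_fin_one]
      rw [hz, Complex.ofReal_inv]
      have h1 : (s : ℂ) ^ 2 * (w : ℂ) = 1 := by
        rw [← Complex.ofReal_pow, ← Complex.ofReal_mul, hs2, Complex.ofReal_one]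
      have h2 : (s : ℂ)⁻¹ = s * w := inv_eq_of_mul_eq_one_right (by linear_combination h1)
      have h3 : a0 * (a1 / a0) = a1 := by field_simp
      rw [h2]
      linear_combination -(s : ℂ) * w * h3
  have hφ := z3_inv hka (mul_ne_zero hsC hne)
  have hSv := hS 1 ![1, z] (by
      have h1 : (((1 : SL) : M2) - 1) = 0 := sub_self _
      rw [h1, cj_zero, nm_zero]
      exact hc1) (by rw [z3_vn_sub, hzn]; exact hδ1)
  rw [ac_one G.hD, pmv_one hP] at hSv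
  have hle := SVis.le hc hSv
  rw [qP_cj', hφ, eD_smul, ha yw, mul_zero] at hle
  have hq0 : qP (cj kw P) ![1, z] = 0 := norm_le_zero_iff.1 hle
  have hq1 : 1 ≤ ‖qP (cj kw P) e1‖ := by
    have h1 := congrArg norm hPq
    rw [norm_mul, norm_neg, norm_one] at h1
    have h2 : 0 < ‖t1‖ := by
      rcases (norm_nonneg t1).lt_or_eq with h | h
      · exact h
      · exfalso
        rw [← h, mul_zero] at h1
        exact zero_ne_one h1
    have h3 : ‖t1‖ ≤ 1 := by nlinarith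
    nlinarith [norm_nonneg (qP (cj kw P) e1)]
  have hd := norm_qP_sub_le' (cj kw P) e1 ![1, z]
  rw [hq0, sub_zero, z3_vn_e1, vn_sub_comm, z3_vn_sub, hzn] at hd
  have hv : vn ![1, z] ≤ 1 + w * A := by
    have h1 := vn_add_le (![1, z] - e1) e1
    rw [sub_add_cancel, z3_vn_sub, hzn, z3_vn_e1] at h1
    linarith
  have hwA : 0 ≤ w * A := mul_nonneg hw0.le hA0
  have hb : (1 + vn ![1, z]) * (w * A) ≤ 3 * (w * A) :=
    mul_le_mul_of_nonneg_right (by linarith) hwA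
  have hb2 : nm (cj kw P) * ((1 + vn ![1, z]) * (w * A)) ≤ C1 * (3 * (w * A)) := by
    apply mul_le_mul hPn hb _ hC1.le
    have := vn_nonneg ![1, z]
    positivity
  linarith

end HRK
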