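import Pool.Agent.HRK.Z3

/-!
# HRK-Z4 : the function `F_y(z) = e(y, (z,1))` when `e₁` is free
-/

namespace HRK

open Set Filter Topology Matrix

universe u

variable {E : Type u} [TopologicalSpace E] {r0 L : ℝ}

/-- `F_y(z) = e(y, (z,1))`. -/
noncomputable def Fz (D : E → SL) (y : E) (z : ℂ) : ℝ := eD D y ![z, 1]

/-- Proof. `continuous_eD`. -/
theorem continuous_Fz [T2Space E] (hc : Cst r0 L) (G : Geo E r0 L) :
    Continuous fun p : E × ℂ => Fz G.D p.1 p.2 := by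
  have h1 : Continuous fun p : E × ℂ => ((p.1, (![p.2, 1] : V)) : E × V) := by
    refine continuous_fst.prodMk ?_
    refine continuous_pi fun i => ?_
    fin_cases i
    · exact continuous_snd
    · exact continuous_const
  exact (continuous_eD hc G).comp h1

/-- `e(y, (a, b)) = |b|² F_y(a/b)` for `b ≠ 0`. -/
theorem eD_eq_Fz (D : E → SL) (y : E) (ψ : V) (h : ψ 1 ≠ 0) :
    eD D y ψ = ‖ψ 1‖ ^ 2 * Fz D y (ψ 0 / ψ 1) := by
  unfold Fz
  rw [← eD_smul]
  congr 1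
  funext i
  fin_cases i
  · simp only [Fin.zero_eta, Pi.smul_apply, smul_eq_mul, Matrix.cons_val_zero]
    field_simp
  · simp

theorem z4_mulVec_fix {k : SL} {P : M2} (hP : cj k P = !![0, 0; -1, 1])
    (h : ((k : M2) *ᵥ e1) 0 = 0) : P *ᵥ e1 = e1 := by
  have h1 : (cj k P) *ᵥ ((k : M2) *ᵥ e1) = (k : M2) *ᵥ e1 := by
    have key : ∀ u : V, u 0 = 0 → (!![0, 0; -1, 1] : M2) *ᵥ u = u := by
      intro u hu
      funext i
      fin_cases i
      · simp [Matrix.mulVec, dotProduct, Fin.sum_univ_two, hu]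
      · simp [Matrix.mulVec, dotProduct, Fin.sum_univ_two, hu]
    rw [hP]
    exact key _ h
  have h2 : (cj k P) *ᵥ ((k : M2) *ᵥ e1) = (k : M2) *ᵥ (P *ᵥ e1) := by
    unfold cj
    rw [← mulVec_mulVec, mulVec_mulVec e1, coe_inv_mul, one_mulVec, ← mulVec_mulVec]
  rw [h2] at h1
  have h3 := congrArg (fun v => ((k⁻¹ : SL) : M2) *ᵥ v) h1
  simp only [mulVec_mulVec, ← mul_assoc, coe_inv_mul, one_mul, one_mulVec] at h3
  exact h3

theorem z4_cols {P : M2} (h : P *ᵥ e1 = e1) : P 0 0 = 1 ∧ P 1 0 = 0 := by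
  have h0 := congrFun h 0
  have h1 := congrFun h 1
  simp [Matrix.mulVec, dotProduct, Fin.sum_univ_two, e1] at h0 h1
  exact ⟨h0, h1⟩

/-- Conical support at one point.

Proof. `ψ = ![z₀, 1]`, `e(y,ψ) > 0`; `exists_ideal`: `t0`; `normal_form_scaled`: `k, lam, P` with
`cj k P = [[0,0],[-1,1]]`. By `free_dir` (`a = e₁`) `k e₁ = (0, b)`; `cj k P (k e₁) = k e₁`, so
`P e₁ = e₁` (`cj k P = k P k⁻¹`), and with `IsPl P`: `P = [[1, -β], [0, 0]]`, `β = -P 0 1`
(`P 0 0 = 1`, `P 1 0 = 0`, trace `1`). `qP_eq`: `q_P(z,1) = β - z`. `|q_P(ψ)| |t0| = 1` so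
`|z₀ - β| = e(y,ψ)`. With `g = 1` (`ac_one`, `pmv_one`) and `SVis.le`:
`|q_P(ψ')| ≤ e(y,ψ')` for `vn (lam⁻¹ k ψ' - e₁) < c`; this holds for `ψ' = ![z, 1]`, `z` near `z₀`, by
continuity (`lam⁻¹ k ψ = e₁`, `lam ≠ 0`). -/
theorem Fz_supp [T2Space E] (hc : Cst r0 L) (G : Geo E r0 L) (hf : ∀ y, eD G.D y e1 = 0)
    {y : E} {z₀ : ℂ} (h : 0 < Fz G.D y z₀) :
    ∃ β : ℂ, Fz G.D y z₀ = ‖z₀ - β‖ ∧ ∀ᶠ z in 𝓝 z₀, ‖z - β‖ ≤ Fz G.D y z := by
  obtain ⟨t0, ht0, ht0'⟩ := exists_ideal G.hD h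
  obtain ⟨c, hc0, -, C, hC0, hN⟩ := normal_form_scaled.{u} hc
  obtain ⟨k, lam, P, hl, hk, hP, hPl, hq, hF, hS⟩ := hN E G y ![z₀, 1] h t0 ht0 ht0'
  have hke := free_dir hc G hf ht0 ht0' hl hk hc0 hF
  have hlam : lam ≠ 0 := by
    rintro rfl
    simp at hl
  have hQ := z4_mulVec_fix hP hke
  obtain ⟨h00, h10⟩ := z4_cols hQ
  have h11 : P 1 1 = 0 := by
    have h1 := hPl.1
    rw [Matrix.trace_fin_two, h00] at h1
    linear_combination h1
  have hqz : ∀ z : ℂ, qP P ![z, 1] = -(z - (-(P 0 1))) := by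
    intro z
    rw [qP_eq, h00, h10, h11]
    simp
    ring
  refine ⟨-(P 0 1), ?_, ?_⟩
  · have h1 := congrArg norm hq
    rw [norm_mul, norm_neg, norm_one, hqz, norm_neg] at h1
    have h2 : 0 < ‖t0‖ := by
      rcases (norm_nonneg t0).lt_or_eq with h3 | h3
      · exact h3
      · exfalso
        rw [← h3, mul_zero] at h1
        exact zero_ne_one h1
    have h3 : ‖t0‖ * Fz G.D y z₀ = 1 := ht0
    have h4 : ‖t0‖ * Fz G.D y z₀ = ‖t0‖ * ‖z₀ - -(P 0 1)‖ := by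
      rw [h3, mul_comm, h1]
    exact mul_left_cancel₀ h2.ne' h4
  · have hcont : Continuous fun z : ℂ => vn (lam⁻¹ • ((k : M2) *ᵥ ![z, 1]) - e1) := by
      have hv1 : Continuous fun z : ℂ => (![z, 1] : V) := by
        refine continuous_pi fun i => ?_
        fin_cases i
        · exact continuous_id
        · exact continuous_const
      have hv : Continuous fun z : ℂ => (k : M2) *ᵥ (![z, 1] : V) :=
        Continuous.matrix_mulVec continuous_const hv1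
      exact continuous_vn.comp ((hv.const_smul lam⁻¹).sub continuous_const)
    have h0 : vn (lam⁻¹ • ((k : M2) *ᵥ ![z₀, 1]) - e1) = 0 := by
      rw [vn_eq_zero, hk, smul_smul, inv_mul_cancel₀ hlam, one_smul, sub_self]
    have h5 : Tendsto (fun z : ℂ => vn (lam⁻¹ • ((k : M2) *ᵥ ![z, 1]) - e1)) (𝓝 z₀) (𝓝 0) := by
      rw [← h0]
      exact hcont.tendsto z₀
    have hev : ∀ᶠ z in 𝓝 z₀, vn (lam⁻¹ • ((k : M2) *ᵥ ![z, 1]) - e1) < c :=
      h5.eventually_lt_const hc0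
    filter_upwards [hev] with z hz
    have hSv := hS 1 ![z, 1] (by
      have h1 : (((1 : SL) : M2) - 1) = 0 := sub_self _
      rw [h1, cj_zero, nm_zero]
      exact hc0) hz
    rw [ac_one G.hD, pmv_one hPl] at hSv
    have hle := SVis.le hc hSv
    rw [hqz, norm_neg] at hle
    exact hle

/-- Proof. `cont`: `continuous_Fz`; `nonneg`: `eD_nonneg`; `supp`: `Fz_supp`; `ne`: by `half_le_mD`
`mD y 1 ≥ 1/2`, attained (`mD_attained`): `ψ` with `e(y,ψ) > 0`; `ψ 1 ≠ 0` because otherwise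
`ψ = (ψ 0) • e₁`, `e = 0` (`eD_smul`); use `eD_eq_Fz`. -/
theorem CS_Fz [T2Space E] [ConnectedSpace E] (hc : Cst r0 L) (G : Geo E r0 L)
    (hne : ∃ y ψ, 0 < eD G.D y ψ) (hf : ∀ y, eD G.D y e1 = 0) (y : E) : CS (Fz G.D y) := by
  refine ⟨?_, fun z => eD_nonneg _ _ _, ?_, fun z₀ h => Fz_supp hc G hf h⟩
  · exact (continuous_Fz hc G).comp (continuous_const.prodMk continuous_id)
  · obtain ⟨ψ, h1, h2⟩ := mD_attained hc G y 1
    have h3 := half_le_mD hc G hne y 1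
    rw [← h2] at h3
    have e : (((1 : SL)⁻¹ : SL) : M2) *ᵥ ψ = ψ := by
      rw [inv_one]
      exact one_mulVec ψ
    rw [e] at h3
    by_cases h4 : ψ 1 = 0
    · exfalso
      have h5 : ψ = (ψ 0) • e1 := by
        funext i
        fin_cases i
        · simp [e1]
        · simp [e1, h4]
      rw [h5, eD_smul, hf y, mul_zero] at h3
      linarith
    · refine ⟨ψ 0 / ψ 1, ?_⟩
      rw [eD_eq_Fz G.D y ψ h4] at h3
      rcases (eD_nonneg G.D y (![ψ 0 / ψ 1, 1])).lt_or_eq with h5 | h5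
      · exact h5
      · exfalso
        have h6 : Fz G.D y (ψ 0 / ψ 1) = 0 := h5.symm
        rw [h6, mul_zero] at h3
        linarith

/-- Two non proportional free directions do not exist.

Proof. Take `(y, ψ)` with `e(y,ψ) > 0`, an ideal point, and the frame `k` of `normal_form_scaled`. By
`free_dir` for `e₁` and for `a`: the first coordinates of `k e₁` and `k a` are `0`, so
`om (k e₁) (k a) = 0 = om e₁ a = a 1` (`om_mulVec`). -/
theorem no_two_free [T2Space E] (hc : Cst r0 L) (G : Geo E r0 L)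
    (hne : ∃ y ψ, 0 < eD G.D y ψ) (hf : ∀ y, eD G.D y e1 = 0) {a : V}
    (ha : ∀ y, eD G.D y a = 0) : a 1 = 0 := by
  obtain ⟨y, ψ, h⟩ := hne
  obtain ⟨t0, ht0, ht0'⟩ := exists_ideal G.hD h
  obtain ⟨c, hc0, -, C, hC0, hN⟩ := normal_form_scaled.{u} hc
  obtain ⟨k, lam, P, hl, hk, hP, hPl, hq, hF, hS⟩ := hN E G y ψ h t0 ht0 ht0'
  have h1 := free_dir hc G hf ht0 ht0' hl hk hc0 hF
  have h2 := free_dir hc G ha ht0 ht0' hl hk hc0 hF
  have h3 := om_mulVec k e1 a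
  unfold om at h3
  rw [h1, h2] at h3
  simp only [e1, Matrix.cons_val_zero, Matrix.cons_val_one, zero_mul, sub_zero, one_mul,
    mul_zero] at h3
  exact h3.symm

end HRK
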