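import Pool.Agent.HRK.Z4

/-!
# HRK-Z5 : free balls in all frames `fz w t` with `t` large
-/

namespace HRK

open Set Filter Topology Matrix

universe u

variable {E : Type u} [TopologicalSpace E] {r0 L : ℝ}

theorem z5_exp {t : ℝ} (ht : 0 < t) : Real.exp (Real.log t / 2) = Real.sqrt t := by
  rw [Real.sqrt_eq_rpow, Real.rpow_def_of_pos ht]
  congr 1
  ring

theorem z5_exp' {t : ℝ} (ht : 0 < t) : Real.exp (-(Real.log t) / 2) = 1 / Real.sqrt t := by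
  rw [neg_div, Real.exp_neg, z5_exp ht, one_div]

/-- the frame `fz w t` is `[[t^{-1/2}, -w t^{-1/2}], [0, t^{1/2}]]`. -/
theorem fz_coe (w : ℂ) {t : ℝ} (ht : 0 < t) :
    ((fz w t : SL) : M2) = !![((1 / Real.sqrt t : ℝ) : ℂ), -w * ((1 / Real.sqrt t : ℝ) : ℂ);
      0, ((Real.sqrt t : ℝ) : ℂ)] := by
  have h1 : Real.exp (Real.log t / 2) = Real.sqrt t := z5_exp ht
  have h2 : Real.exp (-(Real.log t) / 2) = 1 / Real.sqrt t := z5_exp' ht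
  have h3 : ((dg (-Real.log t) : SL) : M2) = !![((1 / Real.sqrt t : ℝ) : ℂ), 0; 0,
      ((Real.sqrt t : ℝ) : ℂ)] := by
    show !![(Real.exp (-Real.log t / 2) : ℂ), 0; 0, (Real.exp (-(-Real.log t / 2)) : ℂ)] = _
    rw [h2, show -(-Real.log t / 2) = Real.log t / 2 by ring, h1]
  have h4 : ((uni (-w) e1 : SL) : M2) = !![1, -w; 0, 1] := by
    show 1 + (-w) • nn e1 = _
    ext i j
    fin_cases i <;> fin_cases j <;> simp [nn, e1]
  show ((dg (-Real.log t) * uni (-w) e1 : SL) : M2) = _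
  rw [Matrix.SpecialLinearGroup.coe_mul, h3, h4]
  ext i j
  fin_cases i <;> fin_cases j <;> simp [Matrix.mul_apply, Fin.sum_univ_two]
  ring

theorem z5_pq {t : ℝ} (ht : 0 < t) :
    ((1 / Real.sqrt t : ℝ) : ℂ) * ((Real.sqrt t : ℝ) : ℂ) = 1 ∧
      ((1 / Real.sqrt t : ℝ) : ℂ) * ((1 / Real.sqrt t : ℝ) : ℂ) * (t : ℂ) = 1 := by
  have hs : Real.sqrt t ≠ 0 := (Real.sqrt_pos.2 ht).ne'
  have hss : Real.sqrt t * Real.sqrt t = t := Real.mul_self_sqrt ht.le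
  constructor
  · rw [← Complex.ofReal_mul, one_div, inv_mul_cancel₀ hs, Complex.ofReal_one]
  · rw [← Complex.ofReal_mul, ← Complex.ofReal_mul]
    have : 1 / Real.sqrt t * (1 / Real.sqrt t) * t = 1 := by
      rw [one_div_mul_one_div, hss, one_div, inv_mul_cancel₀ ht.ne']
    rw [this, Complex.ofReal_one]

theorem z5_inv (w : ℂ) {t : ℝ} (ht : 0 < t) :
    (((fz w t)⁻¹ : SL) : M2) = !![((Real.sqrt t : ℝ) : ℂ), w * ((1 / Real.sqrt t : ℝ) : ℂ);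
      0, ((1 / Real.sqrt t : ℝ) : ℂ)] := by
  rw [Matrix.SpecialLinearGroup.coe_inv, fz_coe w ht, Matrix.adjugate_fin_two_of]
  ext i j
  fin_cases i <;> fin_cases j <;> simp

/-- conjugation by `fz w t`: for an upper triangular `g`,
`cj (fz w t) (g - 1) = [[g₀₀ - 1, (g₀₁ + w (g₀₀ - g₁₁))/t], [0, g₁₁ - 1]]`. -/
theorem cj_fz_sub_one (w : ℂ) {t : ℝ} (ht : 0 < t) {g : SL} (hg : (g : M2) 1 0 = 0) :
    cj (fz w t) ((g : M2) - 1) = !![(g : M2) 0 0 - 1,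
      ((g : M2) 0 1 + w * ((g : M2) 0 0 - (g : M2) 1 1)) / (t : ℂ); 0, (g : M2) 1 1 - 1] := by
  obtain ⟨hpq, hpp⟩ := z5_pq ht
  have hG : (g : M2) - 1 = !![(g : M2) 0 0 - 1, (g : M2) 0 1; 0, (g : M2) 1 1 - 1] := by
    ext i j
    fin_cases i <;> fin_cases j <;> simp [hg]
  unfold cj
  rw [z5_inv w ht, fz_coe w ht, hG]
  have ht' : (t : ℂ) ≠ 0 := by exact_mod_cast ht.ne'
  set p : ℂ := ((1 / Real.sqrt t : ℝ) : ℂ) with hp
  set q : ℂ := ((Real.sqrt t : ℝ) : ℂ) with hq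
  rw [Matrix.mul_fin_two, Matrix.mul_fin_two]
  have e1 : (p * ((g : M2) 0 0 - 1) + -w * p * 0) * q +
      (p * (g : M2) 0 1 + -w * p * ((g : M2) 1 1 - 1)) * 0 = (g : M2) 0 0 - 1 := by
    linear_combination ((g : M2) 0 0 - 1) * hpq
  have e2 : (p * ((g : M2) 0 0 - 1) + -w * p * 0) * (w * p) +
      (p * (g : M2) 0 1 + -w * p * ((g : M2) 1 1 - 1)) * p =
      ((g : M2) 0 1 + w * ((g : M2) 0 0 - (g : M2) 1 1)) / (t : ℂ) := by
    rw [eq_div_iff ht']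
    linear_combination (((g : M2) 0 1 + w * ((g : M2) 0 0 - (g : M2) 1 1))) * hpp
  have e3 : (0 * ((g : M2) 0 0 - 1) + q * 0) * q +
      (0 * (g : M2) 0 1 + q * ((g : M2) 1 1 - 1)) * 0 = 0 := by ring
  have e4 : (0 * ((g : M2) 0 0 - 1) + q * 0) * (w * p) +
      (0 * (g : M2) 0 1 + q * ((g : M2) 1 1 - 1)) * p = (g : M2) 1 1 - 1 := by
    linear_combination ((g : M2) 1 1 - 1) * hpq
  rw [e1, e2, e3, e4]

/-- Proof. `k = fz w t`, `k⁻¹ (a, b) = t^{-1/2} (t a + w b, b)`. If `b ≠ 0`: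
`e(y, k⁻¹(a,b)) = |b|²/t F_y(w + t a/b) ≤ |b|²/t (|w| + t |a|/|b| + F_y(0)) = |b|² (|w| + F_y(0))/t + |a||b|`
(`eD_eq_Fz`, `CS.le_add`), and `|a||b| ≤ 1/2`, `|b|² ≤ 1` if `|a|² + |b|² = 1`. If `b = 0` the value is
`0`. So `mD = sSup ≤ 1/2 + (|w| + F_y(0))/t` (`csSup_le`, the sphere is not empty). -/
theorem mD_fz_le [T2Space E] {D : E → SL} {y : E} (hCS : CS (Fz D y)) (hf : eD D y e1 = 0)
    (w : ℂ) {t : ℝ} (ht : 0 < t) : mD D y (fz w t) ≤ 1 / 2 + (‖w‖ + Fz D y 0) / t := by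
  have hF0 : 0 ≤ Fz D y 0 := hCS.nonneg 0
  have hw0 : 0 ≤ ‖w‖ := norm_nonneg w
  have hB : 0 ≤ (‖w‖ + Fz D y 0) / t := by positivity
  unfold mD
  apply csSup_le
  · refine ⟨_, e1, ?_, rfl⟩
    show nsq e1 = 1
    rw [nsq_eq]
    simp [e1]
  · rintro _ ⟨ψ, hψ, rfl⟩
    have hψ' : nsq ψ = 1 := hψ
    rw [nsq_eq, Complex.normSq_eq_norm_sq, Complex.normSq_eq_norm_sq] at hψ'
    show eD D y ((((fz w t)⁻¹ : SL) : M2) *ᵥ ψ) ≤ _
    rw [z5_inv w ht]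
    obtain ⟨hpq, hpp⟩ := z5_pq ht
    have hsp : 0 < Real.sqrt t := Real.sqrt_pos.2 ht
    have hss : Real.sqrt t * Real.sqrt t = t := Real.mul_self_sqrt ht.le
    set p : ℂ := ((1 / Real.sqrt t : ℝ) : ℂ) with hp
    set q : ℂ := ((Real.sqrt t : ℝ) : ℂ) with hq
    have hp0 : p ≠ 0 := by
      intro h
      rw [h, zero_mul] at hpq
      exact zero_ne_one hpq
    have hpn : ‖p‖ ^ 2 = 1 / t := by
      rw [hp, Complex.norm_real, Real.norm_of_nonneg (by positivity), div_pow, one_pow, sq, hss]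
    have hv : (!![q, w * p; 0, p] : M2) *ᵥ ψ = ![q * ψ 0 + w * p * ψ 1, p * ψ 1] := by
      ext i
      fin_cases i <;> simp [Matrix.mulVec, dotProduct, Fin.sum_univ_two]
    rw [hv]
    by_cases hb : ψ 1 = 0
    · have h1 : (![q * ψ 0 + w * p * ψ 1, p * ψ 1] : V) = (q * ψ 0) • e1 := by
        rw [hb]
        ext i
        fin_cases i <;> simp [e1]
      rw [h1, eD_smul, hf, mul_zero]
      linarith
    · have h1 := eD_eq_Fz D y (![q * ψ 0 + w * p * ψ 1, p * ψ 1] : V)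
        (by simpa using ⟨hp0, hb⟩)
      rw [h1]
      have h2 : ((![q * ψ 0 + w * p * ψ 1, p * ψ 1] : V) 0) /
          ((![q * ψ 0 + w * p * ψ 1, p * ψ 1] : V) 1) = w + t * (ψ 0 / ψ 1) := by
        show (q * ψ 0 + w * p * ψ 1) / (p * ψ 1) = _
        have ht' : (t : ℂ) ≠ 0 := by exact_mod_cast ht.ne'
        have hqt : q = t * p := by
          have h5 : (q - t * p) * p = 0 := by linear_combination hpq - hpp
          rcases mul_eq_zero.1 h5 with h6 | h6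
          · exact sub_eq_zero.1 h6
          · exact absurd h6 hp0
        rw [hqt]
        field_simp
        ring
      have h3 : ‖(![q * ψ 0 + w * p * ψ 1, p * ψ 1] : V) 1‖ ^ 2 = ‖ψ 1‖ ^ 2 / t := by
        show ‖p * ψ 1‖ ^ 2 = _
        rw [norm_mul, mul_pow, hpn]
        ring
      rw [h2, h3]
      have h4 := hCS.le_add (w + t * (ψ 0 / ψ 1))
      have h5 : ‖w + t * (ψ 0 / ψ 1)‖ ≤ ‖w‖ + t * (‖ψ 0‖ / ‖ψ 1‖) := by
        refine (norm_add_le _ _).trans ?_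
        rw [norm_mul, norm_div, Complex.norm_real, Real.norm_of_nonneg ht.le]
      have hb' : 0 < ‖ψ 1‖ := norm_pos_iff.2 hb
      have ha' : 0 ≤ ‖ψ 0‖ := norm_nonneg _
      have h6 : Fz D y (w + t * (ψ 0 / ψ 1)) ≤ ‖w‖ + t * (‖ψ 0‖ / ‖ψ 1‖) + Fz D y 0 := by linarith
      calc ‖ψ 1‖ ^ 2 / t * Fz D y (w + t * (ψ 0 / ψ 1))
          ≤ ‖ψ 1‖ ^ 2 / t * (‖w‖ + t * (‖ψ 0‖ / ‖ψ 1‖) + Fz D y 0) := by gcongr
        _ = ‖ψ 0‖ * ‖ψ 1‖ + ‖ψ 1‖ ^ 2 * ((‖w‖ + Fz D y 0) / t) := by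
            field_simp
            ring
        _ ≤ 1 / 2 + 1 * ((‖w‖ + Fz D y 0) / t) := by
            have h7 : ‖ψ 0‖ * ‖ψ 1‖ ≤ 1 / 2 := by nlinarith [sq_nonneg (‖ψ 0‖ - ‖ψ 1‖)]
            have h8 : ‖ψ 1‖ ^ 2 ≤ 1 := by nlinarith [sq_nonneg ‖ψ 0‖]
            gcongr
        _ = _ := by ring

/-- Uniform free balls. Proof. `mD_fz_le` and `good_frame hc 1`. -/
theorem FB_fz [ConnectedSpace E] [T2Space E] (hc : Cst r0 L) (G : Geo E r0 L)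
    (hne : ∃ y ψ, 0 < eD G.D y ψ) (hf : ∀ y, eD G.D y e1 = 0) :
    ∃ c : ℝ, 0 < c ∧ c ≤ 1 / 4 ∧ ∀ (y : E) (w : ℂ) (t : ℝ), 0 < t →
      2 * (‖w‖ + Fz G.D y 0) ≤ t → FB G.D y (fz w t) c := by
  obtain ⟨c, hc0, hc1, h⟩ := good_frame.{u} hc 1
  refine ⟨c, hc0, hc1, fun y w t ht h2 => h E G y (fz w t) ?_⟩
  have h3 := mD_fz_le (CS_Fz hc G hne hf y) (hf y) w ht
  have h4 : (‖w‖ + Fz G.D y 0) / t ≤ 1 / 2 := by
    rw [div_le_iff₀ ht]
    linarith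
  linarith

end HRK
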