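import Pool.Agent.HRK.Z5

/-!
# HRK-Z6 : the action of small upper triangular matrices on `E` (when `e₁` is free)

`FBT D T c`: free balls of radius `c ≤ 1/4` at every `y` in all frames `fz 0 t`, `t > T(y)`.
`Tri c g`: `g` is upper triangular with diagonal close to `1`.
-/

namespace HRK

open Set Filter Topology Matrix

universe u

variable {E : Type u} [TopologicalSpace E] {r0 L : ℝ}

/-- free balls in all frames `fz 0 t` for large `t`. -/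
structure FBT (D : E → SL) (T : E → ℝ) (c : ℝ) : Prop where
  hD : IsLocalHomeomorph (Dh D)
  pos : 0 < c
  le : c ≤ 1 / 4
  fb : ∀ (y : E) (t : ℝ), T y < t → 0 < t → FB D y (fz 0 t) c

/-- small upper triangular elements. -/
def Tri (c : ℝ) (g : SL) : Prop :=
  (g : M2) 1 0 = 0 ∧ ‖(g : M2) 0 0 - 1‖ ^ 2 + ‖(g : M2) 1 1 - 1‖ ^ 2 < c ^ 2

/-- Proof. `g⁻¹ = [[g₁₁, -g₀₁], [-g₁₀, g₀₀]]` (`coe_inv_eq`). -/
theorem Tri.inv {c : ℝ} {g : SL} (h : Tri c g) : Tri c g⁻¹ := by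
  obtain ⟨h1, h2⟩ := h
  have h00 : ((g⁻¹ : SL) : M2) 0 0 = (g : M2) 1 1 := by rw [coe_inv_eq]; simp
  have h11 : ((g⁻¹ : SL) : M2) 1 1 = (g : M2) 0 0 := by rw [coe_inv_eq]; simp
  have h10 : ((g⁻¹ : SL) : M2) 1 0 = -(g : M2) 1 0 := by rw [coe_inv_eq]; simp
  refine ⟨?_, ?_⟩
  · rw [h10, h1, neg_zero]
  · rw [h00, h11]; linarith

/-- For large `t` the element `g` is in the ball of radius `c` of the frame `fz 0 t`.

Proof. `cj_fz_sub_one` with `w = 0`: `fro = |g₀₀-1|² + |g₁₁-1|² + |g₀₁|²/t²`. -/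
theorem Tri.eventually {c : ℝ} (hc : 0 < c) {g : SL} (h : Tri c g) :
    ∀ᶠ t : ℝ in atTop, 0 < t ∧ nm (cj (fz 0 t) ((g : M2) - 1)) < c := by
  obtain ⟨h1, h2⟩ := h
  have hlim : Tendsto (fun t : ℝ => ‖(g : M2) 0 0 - 1‖ ^ 2 + ‖(g : M2) 1 1 - 1‖ ^ 2
      + ‖(g : M2) 0 1‖ ^ 2 * (t⁻¹) ^ 2) atTop
      (𝓝 (‖(g : M2) 0 0 - 1‖ ^ 2 + ‖(g : M2) 1 1 - 1‖ ^ 2 + ‖(g : M2) 0 1‖ ^ 2 * 0 ^ 2)) :=
    tendsto_const_nhds.add (tendsto_const_nhds.mul (tendsto_inv_atTop_zero.pow 2))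
  have hlt : ‖(g : M2) 0 0 - 1‖ ^ 2 + ‖(g : M2) 1 1 - 1‖ ^ 2 + ‖(g : M2) 0 1‖ ^ 2 * 0 ^ 2
      < c ^ 2 := by
    rw [zero_pow two_ne_zero, mul_zero, add_zero]; exact h2
  filter_upwards [hlim.eventually_lt_const hlt, eventually_gt_atTop (0 : ℝ)] with t ht ht0
  refine ⟨ht0, ?_⟩
  apply lt_of_pow_lt_pow_left₀ 2 hc.le
  rw [nm_sq, cj_fz_sub_one 0 ht0 h1, fro_eq]
  have e1 : Complex.normSq (((g : M2) 0 1 + 0 * ((g : M2) 0 0 - (g : M2) 1 1)) / (t : ℂ))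
      = ‖(g : M2) 0 1‖ ^ 2 * (t⁻¹) ^ 2 := by
    rw [zero_mul, add_zero, Complex.normSq_eq_norm_sq, norm_div, Complex.norm_real,
      Real.norm_of_nonneg ht0.le, div_pow, inv_pow, div_eq_mul_inv]
  have e0 : Complex.normSq ((g : M2) 0 0 - 1) = ‖(g : M2) 0 0 - 1‖ ^ 2 :=
    Complex.normSq_eq_norm_sq _
  have e2 : Complex.normSq ((g : M2) 1 1 - 1) = ‖(g : M2) 1 1 - 1‖ ^ 2 :=
    Complex.normSq_eq_norm_sq _
  simp only [Matrix.of_apply, Matrix.cons_val', Matrix.cons_val_zero, Matrix.cons_val_one,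
    Matrix.cons_val_fin_one]
  rw [e1, e0, e2, Complex.normSq_zero]
  linarith

/-- the neutral element. -/
theorem z6_Tri_one {c : ℝ} (hc : 0 < c) : Tri c 1 := by
  refine ⟨by simp, ?_⟩
  have : (0 : ℝ) < c ^ 2 := by positivity
  simpa using this

/-- a common large `t`. -/
theorem z6_exists_t {D : E → SL} {T : E → ℝ} {c : ℝ} (h : FBT D T c) {g g' : SL}
    (hg : Tri c g) (hg' : Tri c g') (y : E) :
    ∃ t : ℝ, FB D y (fz 0 t) c ∧ nm (cj (fz 0 t) ((g : M2) - 1)) < c ∧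
      nm (cj (fz 0 t) ((g' : M2) - 1)) < c := by
  have h3 := ((hg.eventually h.pos).and (hg'.eventually h.pos)).and
    (eventually_gt_atTop (T y))
  obtain ⟨t, ⟨⟨ht0, ht1⟩, _, ht2⟩, ht3⟩ := h3.exists
  exact ⟨t, h.fb y t ht3 ht0, ht1, ht2⟩

/-- Proof. `Tri.eventually`, `fb` for one large `t`. -/
theorem FBT.mem [T2Space E] {D : E → SL} {T : E → ℝ} {c : ℝ} (h : FBT D T c) {g : SL} (hg : Tri c g)
    (y : E) : (g : M2) - 1 ∈ St D y := by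
  obtain ⟨t, hF, h1, _⟩ := z6_exists_t h hg hg y
  exact hF _ h1

/-- Proof. `D_ac` in a frame `fz 0 t`, `t` large. -/
theorem FBT.D_ac [T2Space E] {D : E → SL} {T : E → ℝ} {c : ℝ} (h : FBT D T c) {g : SL}
    (hg : Tri c g) (y : E) : D (ac D y g) = D y * g := by
  obtain ⟨t, hF, h1, _⟩ := z6_exists_t h hg hg y
  exact HRK.D_ac h.hD (le_trans h.le (by norm_num)) hF h1

/-- Proof. `ac_ac` in a frame `fz 0 t`, `t` large. -/
theorem FBT.ac_ac [T2Space E] {D : E → SL} {T : E → ℝ} {c : ℝ} (h : FBT D T c) {g g' : SL}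
    (hg : Tri c g) (hg' : Tri c (g * g')) (y : E) : ac D (ac D y g) g' = ac D y (g * g') := by
  obtain ⟨t, hF, h1, h2⟩ := z6_exists_t h hg hg' y
  exact (HRK.ac_ac h.hD hF h1 h2).2

/-- Proof. `ac_ac` with `g' = g⁻¹`; `Tri c 1`. -/
theorem FBT.ac_inv [T2Space E] {D : E → SL} {T : E → ℝ} {c : ℝ} (h : FBT D T c) {g : SL}
    (hg : Tri c g) (y : E) : ac D (ac D y g) g⁻¹ = y := by
  have h1 : Tri c (g * g⁻¹) := by
    rw [mul_inv_cancel]; exact z6_Tri_one h.pos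
  rw [h.ac_ac hg h1 y, mul_inv_cancel, ac_one h.hD]

/-- Joint continuity: `Y → E`, `y ↦ f y`, `Y → SL`, `y ↦ g y` continuous with `Tri c (g y)`.

Proof. `continuousOn_ac` and `FBT.mem`. -/
theorem FBT.continuous_ac [T2Space E] {D : E → SL} {T : E → ℝ} {c : ℝ} (h : FBT D T c)
    {Y : Type*} [TopologicalSpace Y] {f : Y → E} (hf : Continuous f) {g : Y → SL}
    (hg : Continuous g) (hT : ∀ y, Tri c (g y)) : Continuous fun y => ac D (f y) (g y) := by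
  have h1 : Continuous fun y => (f y, g y) := hf.prodMk hg
  exact (continuousOn_ac h.hD).comp_continuous h1 fun y => h.mem (hT y) (f y)

/-- Existence. Proof. `FB_fz` with `w = 0`, `T y = 2 F_y(0)`. -/
theorem exists_FBT [T2Space E] [ConnectedSpace E] (hc : Cst r0 L) (G : Geo E r0 L)
    (hne : ∃ y ψ, 0 < eD G.D y ψ) (hf : ∀ y, eD G.D y e1 = 0) :
    ∃ (T : E → ℝ) (c : ℝ), FBT G.D T c := by
  obtain ⟨c, hc0, hc1, h⟩ := FB_fz hc G hne hf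
  refine ⟨fun y => 2 * Fz G.D y 0, c, ⟨G.hD, hc0, hc1, fun y t ht ht0 => ?_⟩⟩
  apply h y 0 t ht0
  rw [norm_zero, zero_add]
  exact ht.le

end HRK
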