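import Pool.Agent.HRK.Z6

/-!
# HRK-Z7 : `e(y.g, ψ) = e(y, g ψ)` and the transformation of the centre
-/

namespace HRK

open Set Filter Topology Matrix

universe u

variable {E : Type u} [TopologicalSpace E] {r0 L : ℝ}

/-- Proof. It is enough that for `|t| e(y, gψ) < 1` one has `t n(ψ) ∈ St D (y.g)` (then
`e(y, gψ)` is in the set whose infimum is `e(y.g, ψ)`; `csInf_le`, bounded below by `0`). By
`mem_St_of_eD` `t n(gψ) ∈ St D y`; the path `c(s) = y.(uni (s t) (gψ))`, `s ∈ [0,1]`, is continuous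
(`continuousOn_ac`/`continuousOn_mvp_right`, `smul_mem_St`, `ac_uni`), `D(c s) = D y * uni (s t) (gψ)`
(`D_ac_uni`). The path `s ↦ (c s).g` is continuous on `[0,1]` (`continuousOn_ac`, `FBT.mem`), starts at
`y.g`, and `D((c s).g) = D y * uni (s t) (gψ) * g = D y * g * uni (s t) ψ = D(y.g) * uni (s t) ψ`
(`FBT.D_ac`, `uni_conj`: `g⁻¹ uni(τ)(gψ) g = uni τ ψ`). `mem_St_of_path`. -/
theorem FBT.eD_le [T2Space E] {D : E → SL} {T : E → ℝ} {c : ℝ} (h : FBT D T c) {g : SL}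
    (hg : Tri c g) (y : E) (ψ : V) : eD D (ac D y g) ψ ≤ eD D y ((g : M2) *ᵥ ψ) := by
  have key : ∀ t : ℂ, ‖t‖ * eD D y ((g : M2) *ᵥ ψ) < 1 → t • nn ψ ∈ St D (ac D y g) := by
    intro t ht
    have h1 : t • nn ((g : M2) *ᵥ ψ) ∈ St D y := mem_St_of_eD h.hD ht
    have h2 : ∀ s ∈ Icc (0:ℝ) 1, ((s : ℂ) * t) • nn ((g : M2) *ᵥ ψ) ∈ St D y := by
      intro s hs
      have := smul_mem_St h.hD h1 hs
      rwa [← Complex.coe_smul, smul_smul] at this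
    have h3 : ContinuousOn (fun s : ℝ => ac D y (uni ((s : ℂ) * t) ((g : M2) *ᵥ ψ)))
        (Icc (0:ℝ) 1) := by
      have h4 : ContinuousOn (fun s : ℝ => mvp D y (((s : ℂ) * t) • nn ((g : M2) *ᵥ ψ)))
          (Icc (0:ℝ) 1) := by
        refine (continuousOn_mvp_right h.hD y).comp (f := fun s : ℝ =>
          ((s : ℂ) * t) • nn ((g : M2) *ᵥ ψ)) ?_ h2
        exact Continuous.continuousOn (by fun_prop)
      refine h4.congr fun s _ => ?_
      exact ac_uni D y _ _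
    have h5 : ContinuousOn (fun s : ℝ =>
        ac D (ac D y (uni ((s : ℂ) * t) ((g : M2) *ᵥ ψ))) g) (Icc (0:ℝ) 1) := by
      refine (continuousOn_ac h.hD).comp (f := fun s : ℝ =>
        ((ac D y (uni ((s : ℂ) * t) ((g : M2) *ᵥ ψ))), g)) (h3.prodMk continuousOn_const) ?_
      intro s _
      exact h.mem hg _
    refine (mem_St_of_path h.hD (c := fun s : ℝ =>
        ac D (ac D y (uni ((s : ℂ) * t) ((g : M2) *ᵥ ψ))) g) h5 ?_ ?_).1
    · simp only [Complex.ofReal_zero, zero_mul, uni_zero, ac_one h.hD]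
    · intro s hs
      have h6 := uni_conj g ((s : ℂ) * t) ψ
      rw [h.D_ac hg, D_ac_uni h.hD (h2 s hs), h.D_ac hg, ← h6]
      group
  exact csInf_le ⟨0, fun ρ hρ => hρ.1⟩ ⟨eD_nonneg _ _ _, key⟩

/-- Proof. `FBT.eD_le` for `g`, and for `g⁻¹` at `y.g` and the vector `g ψ` (`FBT.ac_inv`,
`Tri.inv`). -/
theorem FBT.eD_ac [T2Space E] {D : E → SL} {T : E → ℝ} {c : ℝ} (h : FBT D T c) {g : SL}
    (hg : Tri c g) (y : E) (ψ : V) : eD D (ac D y g) ψ = eD D y ((g : M2) *ᵥ ψ) := by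
  refine le_antisymm (h.eD_le hg y ψ) ?_
  have h1 := h.eD_le hg.inv (ac D y g) ((g : M2) *ᵥ ψ)
  rw [h.ac_inv hg, Matrix.mulVec_mulVec, coe_inv_mul, Matrix.one_mulVec] at h1
  exact h1

/-- If `e(y',ψ) = e(y, gψ)` for all `ψ`, `g` upper triangular, then the centres correspond by
`c' = (g₁₁ c - g₀₁)/g₀₀`.

Proof. `F_{y'}(z) = e(y, (g₀₀ z + g₀₁, g₁₁)) = |g₁₁|² F_y((g₀₀ z + g₀₁)/g₁₁)` (`eD_eq_Fz`), with
`α = g₀₀`, `g₁₁ = α⁻¹` (`det g = 1`), `b = g₀₁`: `IsC.affine`; `(c - α b)/α² = (g₁₁ c - g₀₁)/g₀₀`. -/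
theorem IsC.move {D : E → SL} {y y' : E} {g : SL} (hg : (g : M2) 1 0 = 0)
    (h : ∀ ψ, eD D y' ψ = eD D y ((g : M2) *ᵥ ψ)) {c : ℂ} (hc : IsC (Fz D y) c) :
    IsC (Fz D y') (((g : M2) 1 1 * c - (g : M2) 0 1) / (g : M2) 0 0) := by
  have hd : (g : M2).det = 1 := g.2
  rw [Matrix.det_fin_two, hg, mul_zero, sub_zero] at hd
  have h0 : (g : M2) 0 0 ≠ 0 := fun h => by rw [h, zero_mul] at hd; exact zero_ne_one hd
  have h1 : (g : M2) 1 1 ≠ 0 := fun h => by rw [h, mul_zero] at hd; exact zero_ne_one hd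
  have h11 : (g : M2) 1 1 = ((g : M2) 0 0)⁻¹ := by
    field_simp
    rw [mul_comm]; exact hd
  have hF : ∀ z, Fz D y' z = ‖(g : M2) 0 0‖⁻¹ ^ 2 *
      Fz D y ((g : M2) 0 0 ^ 2 * z + (g : M2) 0 0 * (g : M2) 0 1) := by
    intro z
    have e0 : ((g : M2) *ᵥ ![z, 1]) 0 = (g : M2) 0 0 * z + (g : M2) 0 1 := by
      simp [Matrix.mulVec, dotProduct, Fin.sum_univ_two]
    have e1' : ((g : M2) *ᵥ ![z, 1]) 1 = (g : M2) 1 1 := by
      simp [Matrix.mulVec, dotProduct, Fin.sum_univ_two, hg]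
    unfold Fz
    rw [h ![z, 1], eD_eq_Fz D y _ (by rw [e1']; exact h1), e0, e1']
    unfold Fz
    rw [h11, norm_inv]
    congr 3
    rw [div_inv_eq_mul]
    ring
  have h2 := hc.affine h0 hF
  have h3 : ((g : M2) 1 1 * c - (g : M2) 0 1) / (g : M2) 0 0 =
      (c - (g : M2) 0 0 * (g : M2) 0 1) / (g : M2) 0 0 ^ 2 := by
    rw [h11]
    field_simp
  rw [h3]
  exact h2

end HRK
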