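import Pool.Agent.HRK.Z7

/-!
# HRK-Z8 : the elements `Tl l c = exp (τ (P - 1/2))`, `P = [[1,-c],[0,0]]`, `l = e^{τ/2}`
-/

namespace HRK

open Set Filter Topology Matrix

/-- `Tl l c = [[l, -c (l - 1/l)], [0, 1/l]]`, the upper triangular element with eigenvalue `l` and
fixed point `c`. -/
noncomputable def Tl (l : ℝ) (hl : l ≠ 0) (c : ℂ) : SL :=
  ⟨!![(l : ℂ), -c * ((l - 1 / l : ℝ) : ℂ); 0, ((1 / l : ℝ) : ℂ)], by
    rw [Matrix.det_fin_two_of, mul_zero, sub_zero, ← Complex.ofReal_mul, mul_one_div_cancel hl,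
      Complex.ofReal_one]⟩

theorem Tl_coe (l : ℝ) (hl : l ≠ 0) (c : ℂ) :
    ((Tl l hl c : SL) : M2) = !![(l : ℂ), -c * ((l - 1 / l : ℝ) : ℂ); 0, ((1 / l : ℝ) : ℂ)] := rfl

theorem z8_00 (l : ℝ) (hl : l ≠ 0) (c : ℂ) : (Tl l hl c : M2) 0 0 = (l : ℂ) := by
  rw [Tl_coe]
  rfl

theorem z8_01 (l : ℝ) (hl : l ≠ 0) (c : ℂ) :
    (Tl l hl c : M2) 0 1 = -c * ((l - 1 / l : ℝ) : ℂ) := by
  rw [Tl_coe]
  rfl

theorem z8_10 (l : ℝ) (hl : l ≠ 0) (c : ℂ) : (Tl l hl c : M2) 1 0 = 0 := by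
  rw [Tl_coe]
  rfl

theorem z8_11 (l : ℝ) (hl : l ≠ 0) (c : ℂ) : (Tl l hl c : M2) 1 1 = ((1 / l : ℝ) : ℂ) := by
  rw [Tl_coe]
  rfl

theorem Tl_inv (l : ℝ) (hl : l ≠ 0) (c : ℂ) :
    (Tl l hl c)⁻¹ = Tl (1 / l) (one_div_ne_zero hl) c := by
  apply Subtype.ext
  have h1 := coe_inv_eq (Tl l hl c)
  rw [z8_00, z8_01, z8_10, z8_11] at h1
  have h2 := Tl_coe (1 / l) (one_div_ne_zero hl) c
  have h3 : ((Tl l hl c)⁻¹ : SL).1 = (((Tl l hl c)⁻¹ : SL) : M2) := rfl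
  have h4 : (Tl (1 / l) (one_div_ne_zero hl) c).1 =
      ((Tl (1 / l) (one_div_ne_zero hl) c : SL) : M2) := rfl
  have h5 : -(-c * ((l - 1 / l : ℝ) : ℂ)) = -c * ((1 / l - l : ℝ) : ℂ) := by
    push_cast
    ring
  rw [h3, h4, h1, h2, one_div_one_div, neg_zero, h5]

/-- `c` is the fixed point. -/
theorem Tl_fix (l : ℝ) (hl : l ≠ 0) (c : ℂ) :
    ((Tl l hl c : M2) 1 1 * c - (Tl l hl c : M2) 0 1) / (Tl l hl c : M2) 0 0 = c := by
  rw [z8_00, z8_01, z8_11]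
  have h : (l : ℂ) ≠ 0 := Complex.ofReal_ne_zero.mpr hl
  push_cast
  field_simp
  ring

/-- conjugation by an upper triangular element `B` moves the fixed point. -/
theorem Tl_conj (l : ℝ) (hl : l ≠ 0) (c : ℂ) {B : SL} (hB : (B : M2) 1 0 = 0) :
    B * Tl l hl c * B⁻¹ = Tl l hl (((B : M2) 0 0 * c + (B : M2) 0 1) / (B : M2) 1 1) := by
  have hdet : (B : M2) 0 0 * (B : M2) 1 1 = 1 := by
    have h := B.2
    rw [Matrix.det_fin_two] at h
    change (B : M2) 0 0 * (B : M2) 1 1 - (B : M2) 0 1 * (B : M2) 1 0 = 1 at h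
    rw [hB, mul_zero, sub_zero] at h
    exact h
  have h11 : (B : M2) 1 1 ≠ 0 := right_ne_zero_of_mul_eq_one hdet
  have h00 : (B : M2) 0 0 ≠ 0 := left_ne_zero_of_mul_eq_one hdet
  have hl' : (l : ℂ) ≠ 0 := Complex.ofReal_ne_zero.mpr hl
  set a := (B : M2) 0 0 with ha
  set b := (B : M2) 0 1 with hb
  set d := (B : M2) 1 1 with hd
  have hBm : (B : M2) = !![a, b; 0, d] := by
    rw [ha, hb, hd, ← hB]
    exact Matrix.eta_fin_two _
  have had : a = 1 / d := by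
    rw [eq_div_iff h11]
    exact hdet
  apply Subtype.ext
  change (((B * Tl l hl c * B⁻¹ : SL)) : M2) = ((Tl l hl ((a * c + b) / d) : SL) : M2)
  rw [Matrix.SpecialLinearGroup.coe_mul, Matrix.SpecialLinearGroup.coe_mul, coe_inv_eq B, hB,
    ← ha, ← hb, ← hd, hBm, Tl_coe, Tl_coe]
  rw [Matrix.mul_fin_two, Matrix.mul_fin_two, had]
  push_cast
  ext i j
  fin_cases i <;> fin_cases j
  · change (1 / d * (l : ℂ) + b * 0) * d + (1 / d * (-c * ((l : ℂ) - 1 / l)) + b * (1 / l)) * (-0) = l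
    field_simp
    ring
  · change (1 / d * (l : ℂ) + b * 0) * (-b) +
      (1 / d * (-c * ((l : ℂ) - 1 / l)) + b * (1 / l)) * (1 / d) =
      -((1 / d * c + b) / d) * ((l : ℂ) - 1 / l)
    field_simp
    ring
  · change (0 * (l : ℂ) + d * 0) * d + (0 * (-c * ((l : ℂ) - 1 / l)) + d * (1 / l)) * (-0) = 0
    ring
  · change (0 * (l : ℂ) + d * 0) * (-b) +
      (0 * (-c * ((l : ℂ) - 1 / l)) + d * (1 / l)) * (1 / d) = 1 / l
    field_simp
    ring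

/-- Proof. The map to `M2` is continuous (`isEmbedding_coe`). -/
theorem continuous_Tl (l : ℝ) (hl : l ≠ 0) : Continuous fun c : ℂ => Tl l hl c := by
  rw [isEmbedding_coe.continuous_iff]
  apply continuous_matrix
  intro i j
  fin_cases i <;> fin_cases j
  · exact continuous_const
  · change Continuous fun c : ℂ => -c * ((l - 1 / l : ℝ) : ℂ)
    fun_prop
  · exact continuous_const
  · exact continuous_const

/-- There is `l > 1` with `Tl l c` and its inverse in `Tri ε` for all `c`. Proof. Continuity at `1`. -/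
theorem exists_Tl {ε : ℝ} (hε : 0 < ε) : ∃ (l : ℝ) (hl : l ≠ 0), 1 < l ∧ ∀ c, Tri ε (Tl l hl c) := by
  have hl : (1 + ε / 2 : ℝ) ≠ 0 := by positivity
  refine ⟨1 + ε / 2, hl, by linarith, ?_⟩
  intro c
  refine ⟨z8_10 _ _ _, ?_⟩
  rw [z8_00, z8_11, ← Complex.ofReal_one, ← Complex.ofReal_sub, ← Complex.ofReal_sub,
    Complex.norm_real, Complex.norm_real, Real.norm_eq_abs, Real.norm_eq_abs, sq_abs, sq_abs]
  have h1 : (1 + ε / 2 - 1 : ℝ) = ε / 2 := by ring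
  have h2 : (1 / (1 + ε / 2) - 1 : ℝ) = -(ε / 2 / (1 + ε / 2)) := by
    field_simp
    ring
  rw [h1, h2, neg_sq]
  have h3 : ε / 2 / (1 + ε / 2) ≤ ε / 2 := div_le_self (by positivity) (by linarith)
  have h4 : (ε / 2 / (1 + ε / 2)) ^ 2 ≤ (ε / 2) ^ 2 := by
    apply pow_le_pow_left₀ _ h3
    positivity
  nlinarith [sq_pos_of_pos hε]

end HRK
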