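import Pool.Agent.HRK.Z8

/-!
# HRK-Z9 : the centre function `c : E → ℂ` (when `e₁` is free)
-/

namespace HRK

open Set Filter Topology Matrix

universe u

variable {E : Type u} [TopologicalSpace E] {r0 L : ℝ}

omit [TopologicalSpace E] in
/-- entries of `uni b e₁`. -/
theorem z9_uni_entries (b : ℂ) : (uni b e1 : M2) 0 0 = 1 ∧ (uni b e1 : M2) 0 1 = b ∧
    (uni b e1 : M2) 1 0 = 0 ∧ (uni b e1 : M2) 1 1 = 1 := by
  rw [uni_coe, nn_e1]
  refine ⟨?_, ?_, ?_, ?_⟩ <;> simp [Matrix.add_apply]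

theorem z9_tri_uni {c : ℝ} (hc : 0 < c) (b : ℂ) : Tri c (uni b e1) := by
  obtain ⟨h0, -, h2, h3⟩ := z9_uni_entries b
  refine ⟨h2, ?_⟩
  rw [h0, h3]
  simp only [sub_self, norm_zero]
  have : 0 < c ^ 2 := by positivity
  simpa using this

/-- `D` is injective near `y₀`. -/
theorem z9_injOn {D : E → SL} (hD : IsLocalHomeomorph (Dh D)) (y₀ : E) :
    ∃ U : Set E, IsOpen U ∧ y₀ ∈ U ∧ Set.InjOn D U := by
  obtain ⟨e, he, heq⟩ := hD (y₀, 0)
  refine ⟨(fun y : E => (y, (0 : ℂ))) ⁻¹' e.source,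
    e.open_source.preimage (continuous_id.prodMk continuous_const), he, ?_⟩
  intro y hy y' hy' hyy
  have h1 : Dh D (y, 0) = Dh D (y', 0) := by
    simp only [Dh, hyy]
  rw [heq] at h1
  have h2 := e.injOn hy hy' h1
  exact (Prod.mk.inj h2).1

/-- Locally the relation `D y' = D y * uni b e₁` means `y' = y.(uni b e₁)`.

Proof. Let `U` be an open neighbourhood of `y₀` on which `D` is injective (`Dh D` is locally
injective at `(y₀,0)`; or `eqOn_of_D`/`IsLocalHomeomorph.isLocallyInjective`). The map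
`(y, b) ↦ ac D y (uni b e₁)` is continuous (`FBT.continuous_ac`; `uni b e₁ = [[1,b],[0,1]]` is in
`Tri c`) and equals `y₀` at `(y₀, 0)`: there are `N₁ ∋ y₀` open and `ε > 0` with
`ac D y (uni b e₁) ∈ U` for `y ∈ N₁`, `|b| < ε`. The map `(y,y') ↦ (D y)⁻¹ D y'` is continuous
(`continuous_D`) with value `1` at `(y₀,y₀)`: there is `N ⊆ U ∩ N₁` open with the `(0,1)` entry of
`(D y)⁻¹ D y'` of norm `< ε` for `y, y' ∈ N`; this entry is `b`. Then `y'` and `ac D y (uni b e₁)` are in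
`U` and have the same image `D y * uni b e₁` (`FBT.D_ac`). -/
theorem FBT.local_inj [T2Space E] {D : E → SL} {T : E → ℝ} {c : ℝ} (h : FBT D T c) (y₀ : E) :
    ∃ N : Set E, IsOpen N ∧ y₀ ∈ N ∧ ∀ y ∈ N, ∀ y' ∈ N, ∀ b : ℂ, D y' = D y * uni b e1 →
      y' = ac D y (uni b e1) := by
  obtain ⟨U, hUo, hU0, hinj⟩ := z9_injOn h.hD y₀
  have hΦ : Continuous fun p : E × ℂ => ac D p.1 (uni p.2 e1) :=
    h.continuous_ac continuous_fst
      (continuous_uni.comp (continuous_snd.prodMk continuous_const))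
      (fun p => z9_tri_uni h.pos p.2)
  have hDc : Continuous D := continuous_D h.hD
  have hΨ : Continuous fun p : E × E => (((D p.1)⁻¹ * D p.2 : SL) : M2) 0 1 := by
    have h1 : Continuous fun p : E × E => ((D p.1)⁻¹ * D p.2 : SL) :=
      (hDc.comp continuous_fst).inv.mul (hDc.comp continuous_snd)
    exact (continuous_apply_apply (0 : Fin 2) (1 : Fin 2)).comp
      (isEmbedding_coe.continuous.comp h1)
  have hΘ : Continuous fun p : E × E =>
      ac D p.1 (uni ((((D p.1)⁻¹ * D p.2 : SL) : M2) 0 1) e1) :=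
    hΦ.comp (continuous_fst.prodMk hΨ)
  have hmem : (y₀, y₀) ∈ (fun p : E × E =>
      ac D p.1 (uni ((((D p.1)⁻¹ * D p.2 : SL) : M2) 0 1) e1)) ⁻¹' U := by
    have h01 : (((D y₀)⁻¹ * D y₀ : SL) : M2) 0 1 = 0 := by
      rw [inv_mul_cancel]
      simp
    show ac D y₀ (uni ((((D y₀)⁻¹ * D y₀ : SL) : M2) 0 1) e1) ∈ U
    rw [h01, uni_zero, ac_one h.hD]
    exact hU0
  obtain ⟨N₁, N₂, hN₁, hN₂, h1, h2, hsub⟩ :=
    isOpen_prod_iff.mp (hUo.preimage hΘ) y₀ y₀ hmem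
  refine ⟨N₁ ∩ N₂ ∩ U, (hN₁.inter hN₂).inter hUo, ⟨⟨h1, h2⟩, hU0⟩, ?_⟩
  intro y hy y' hy' b hb
  have hin : ac D y (uni ((((D y)⁻¹ * D y' : SL) : M2) 0 1) e1) ∈ U :=
    hsub (Set.mk_mem_prod hy.1.1 hy'.1.2)
  have hbb : (((D y)⁻¹ * D y' : SL) : M2) 0 1 = b := by
    rw [hb, inv_mul_cancel_left]
    exact (z9_uni_entries b).2.1
  rw [hbb] at hin
  refine hinj hy'.2 hin ?_
  rw [hb, h.D_ac (z9_tri_uni h.pos b) y]

/-- The right holonomy is upper triangular. Proof. `e(γ y, B e₁) = e(y, e₁) = 0` (`eD_equiv`) for all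
`y`, so `B e₁` is free (`y = γ (γ⁻¹ y)`); `no_two_free`: `(B e₁) 1 = B 1 0 = 0`. -/
theorem B_upper {Γ : Type*} [Group Γ] [MulAction Γ E] [T2Space E] (S : Dev Γ E)
    (hc : Cst r0 L) (G : Geo E r0 L) (hG : G.D = S.D) (hne : ∃ y ψ, 0 < eD S.D y ψ)
    (hf : ∀ y, eD S.D y e1 = 0) (γ : Γ) : (S.B γ : M2) 1 0 = 0 := by
  have hD : IsLocalHomeomorph (Dh S.D) := hG ▸ G.hD
  have hne' : ∃ y ψ, 0 < eD G.D y ψ := by rw [hG]; exact hne
  have hf' : ∀ y, eD G.D y e1 = 0 := by rw [hG]; exact hf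
  have ha : ∀ y, eD G.D y ((S.B γ : M2) *ᵥ e1) = 0 := by
    intro y
    rw [hG]
    have h1 := eD_equiv S hD γ (γ⁻¹ • y) e1
    rw [smul_inv_smul, hf] at h1
    exact h1
  have h2 := no_two_free hc G hne' hf' ha
  have h3 : ((S.B γ : M2) *ᵥ e1) 1 = (S.B γ : M2) 1 0 := by
    simp [Matrix.mulVec, dotProduct, Fin.sum_univ_two, e1]
  rw [← h3]
  exact h2

/-- The centre function.

Proof. `c y` is the centre of `F_y` (`CS_Fz`, `CS.exists_isC`, choice). Continuity: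
`continuous_Fz`, `continuous_centre`. Equivariance: `eD_equiv` gives
`eD (γ • y) ψ = eD y ((B γ)⁻¹ ψ)`, `IsC.move` with `g = (B γ)⁻¹` (upper triangular by `B_upper`;
`coe_inv_eq`), `IsC.unique`. The action: `FBT.eD_ac`, `IsC.move`, `IsC.unique`. -/
theorem exists_centre {Γ : Type*} [Group Γ] [MulAction Γ E] [T2Space E] [ConnectedSpace E]
    (S : Dev Γ E) (hc : Cst r0 L) (G : Geo E r0 L) (hG : G.D = S.D)
    (hne : ∃ y ψ, 0 < eD S.D y ψ) (hf : ∀ y, eD S.D y e1 = 0) {T : E → ℝ} {ε : ℝ}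
    (hT : FBT S.D T ε) :
    ∃ c : E → ℂ, Continuous c ∧
      (∀ (γ : Γ) (y : E), c (γ • y) =
        ((S.B γ : M2) 0 0 * c y + (S.B γ : M2) 0 1) / (S.B γ : M2) 1 1) ∧
      ∀ (g : SL) (y : E), Tri ε g →
        c (ac S.D y g) = ((g : M2) 1 1 * c y - (g : M2) 0 1) / (g : M2) 0 0 := by
  have hD : IsLocalHomeomorph (Dh S.D) := hG ▸ G.hD
  have hne' : ∃ y ψ, 0 < eD G.D y ψ := by rw [hG]; exact hne
  have hf' : ∀ y, eD G.D y e1 = 0 := by rw [hG]; exact hf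
  have hCS : ∀ y, CS (Fz S.D y) := by
    intro y
    rw [← hG]
    exact CS_Fz hc G hne' hf' y
  have hcont : Continuous fun p : E × ℂ => Fz S.D p.1 p.2 := by
    rw [← hG]
    exact continuous_Fz hc G
  choose c hcC using fun y => (hCS y).exists_isC
  refine ⟨c, continuous_centre hcont hcC, ?_, ?_⟩
  · intro γ y
    have hB := B_upper S hc G hG hne hf γ
    have hinv := coe_inv_eq (S.B γ)
    have hg : (((S.B γ)⁻¹ : SL) : M2) 1 0 = 0 := by
      rw [hinv]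
      simp [hB]
    have h : ∀ ψ, eD S.D (γ • y) ψ = eD S.D y ((((S.B γ)⁻¹ : SL) : M2) *ᵥ ψ) := by
      intro ψ
      have h1 := eD_equiv S hD γ y ((((S.B γ)⁻¹ : SL) : M2) *ᵥ ψ)
      rw [Matrix.mulVec_mulVec, coe_mul_inv, Matrix.one_mulVec] at h1
      exact h1
    have h2 := IsC.unique (hcC (γ • y)) (IsC.move hg h (hcC y))
    rw [h2, hinv]
    simp
  · intro g y hg
    exact IsC.unique (hcC (ac S.D y g)) (IsC.move hg.1 (fun ψ => hT.eD_ac hg y ψ) (hcC y))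

end HRK
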